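import Pool.Agent.MRT.EsI

/-!
# MRT-EsL: sums of `n^{-iu}`

PLAN.  `cp n u = ee (-(u/(2π)) log n)`; `∑_{n ∈ Ioc a b} = ∑_{n < N} ee (F n)`, `F n = -(u/(2π)) log (a + 1 + n)`, `N = b - a`.  `log_diff`: `dk (fun n => log (a + n)) k n = (-1)^(k-1) (k-1)! ∫_0^1 ∏_{j<k} (a + n + s + j)^{-1} ds` for `k ≥ 1` (differences of `x ↦ 1/x`: `(-1)^k k!/(x (x+1) ⋯ (x+k))`; `log (x+1) - log x = ∫_0^1 ds/(x+s)`), or by the
mean value theorem applied to `x ↦ dk`.  `es_kl`: `kusmin` with `θ = |u|/(256 π a)` (`1/(2x) ≤ log (1 + 1/x) ≤ 1/x`, `a ≤ x ≤ 64 a + 1`, `|u| ≤ a`).  `es_sq`: `second_diff` with `L = c |u|/a²` (`≤ 1` as `|u| ≤ a²`): `C (L N + 1)/√L ≤ C (√|u| + a/√|u|) ≤ C √|u|`.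
`es_pow`: for `√a ≤ |u| ≤ a^{3/4}` use `es_kl`; for `a^{k - 5/4} ≤ |u| < a^{k - 1/4}`, `k ≥ 2`, use `kth_diff` with `X = a`, `L = c_k |u| a^{-k}`, `A_k = (65 + k)^k`, `σ = 1/8`, for `a ≥ a₀` (finitely many `k ≤ K + 2`; small `a`: trivial bound, enlarge `C`).
-/

set_option autoImplicit false

namespace MRT

open Finset

/-- iterated differences of functions on the reals -/
private noncomputable def dr (g : ℝ → ℝ) : ℕ → ℝ → ℝ
  | 0, x => g x
  | k + 1, x => dr g k (x + 1) - dr g k x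

private theorem dk_dr (g : ℝ → ℝ) (a : ℝ) (k : ℕ) : ∀ n : ℕ, dk (fun n => g (a + n)) k n = dr g k (a + n) := by
  induction k with
  | zero => intro n; rfl
  | succ k ih =>
    intro n
    show dk _ k (n + 1) - dk _ k n = dr g k (a + n + 1) - dr g k (a + n)
    rw [ih, ih]
    congr 2
    push_cast
    ring

private theorem dr_deriv (k : ℕ) : ∀ x : ℝ, 0 < x → HasDerivAt (dr Real.log k) (dr (fun x => x⁻¹) k x) x := by
  induction k with
  | zero =>
    intro x hx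
    exact Real.hasDerivAt_log hx.ne'
  | succ k ih =>
    intro x hx
    have h1 := (ih (x + 1) (by linarith)).comp_add_const x 1
    exact h1.sub (ih x hx)

private theorem dr_inv (k : ℕ) : ∀ x : ℝ, 0 < x →
    dr (fun x => x⁻¹) k x * ∏ j ∈ range (k + 1), (x + j) = (-1) ^ k * (k.factorial : ℝ) := by
  induction k with
  | zero =>
    intro x hx
    show x⁻¹ * ∏ j ∈ range 1, (x + j) = _
    rw [Finset.prod_range_one]
    simp [hx.ne']
  | succ k ih =>
    intro x hx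
    have h1 := ih x hx
    have h2 := ih (x + 1) (by linarith)
    show (dr (fun x => x⁻¹) k (x + 1) - dr (fun x => x⁻¹) k x) * _ = _
    have e1 : ∏ j ∈ range (k + 1 + 1), (x + (j : ℝ)) = (∏ j ∈ range (k + 1), (x + (j : ℝ))) * (x + (k + 1 : ℕ)) :=
      Finset.prod_range_succ _ _
    have e2 : ∏ j ∈ range (k + 1 + 1), (x + (j : ℝ)) = x * ∏ j ∈ range (k + 1), (x + 1 + (j : ℝ)) := by
      rw [Finset.prod_range_succ', mul_comm]
      congr 1
      · simp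
      · refine Finset.prod_congr rfl fun j _ => ?_
        push_cast
        ring
    rw [sub_mul]
    have e3 : dr (fun x => x⁻¹) k (x + 1) * ∏ j ∈ range (k + 1 + 1), (x + (j : ℝ)) =
        x * ((-1) ^ k * (k.factorial : ℝ)) := by
      rw [e2, ← h2]
      ring
    have e4 : dr (fun x => x⁻¹) k x * ∏ j ∈ range (k + 1 + 1), (x + (j : ℝ)) =
        ((-1) ^ k * (k.factorial : ℝ)) * (x + (k + 1 : ℕ)) := by
      rw [e1, ← h1]
      ring
    rw [e3, e4, Nat.factorial_succ, pow_succ]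
    push_cast
    ring

theorem log_diff {k : ℕ} (hk : 1 ≤ k) {a : ℕ} (ha : 1 ≤ a) (n : ℕ) :
    ((k - 1).factorial : ℝ) / (a + n + k) ^ k ≤ (-1) ^ (k - 1) * dk (fun n => Real.log (a + n)) k n ∧
      (-1) ^ (k - 1) * dk (fun n => Real.log (a + n)) k n ≤ ((k - 1).factorial : ℝ) / (a + n) ^ k := by
  obtain ⟨m, rfl⟩ : ∃ m, k = m + 1 := ⟨k - 1, by omega⟩
  have ha' : (1 : ℝ) ≤ a := by exact_mod_cast ha
  rw [Nat.add_sub_cancel, dk_dr Real.log a (m + 1) n]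
  obtain ⟨x, hx⟩ : ∃ x : ℝ, x = a + n := ⟨_, rfl⟩
  have hx0 : 0 < x := by
    rw [hx]
    positivity
  rw [← hx]
  obtain ⟨ξ, hξ, h1⟩ := exists_hasDerivAt_eq_slope (dr Real.log m) (dr (fun x => x⁻¹) m) (show x < x + 1 by linarith)
    (fun y hy => (dr_deriv m y (by linarith [hy.1])).continuousAt.continuousWithinAt)
    (fun y hy => dr_deriv m y (by linarith [hy.1]))
  have h2 : dr Real.log (m + 1) x = dr (fun x => x⁻¹) m ξ := by
    rw [h1]
    show dr Real.log m (x + 1) - dr Real.log m x = _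
    ring
  have hξ0 : 0 < ξ := by linarith [hξ.1]
  have hP0 : 0 < ∏ j ∈ range (m + 1), (ξ + (j : ℝ)) := Finset.prod_pos fun j _ => by positivity
  have h3 := dr_inv m ξ hξ0
  have h4 : (-1) ^ m * dr Real.log (m + 1) x = (m.factorial : ℝ) / ∏ j ∈ range (m + 1), (ξ + (j : ℝ)) := by
    rw [h2, eq_div_iff hP0.ne', mul_assoc, h3, ← mul_assoc, ← mul_pow]
    norm_num
  rw [h4]
  have hlo : x ^ (m + 1) ≤ ∏ j ∈ range (m + 1), (ξ + (j : ℝ)) := by
    calc x ^ (m + 1) = ∏ j ∈ range (m + 1), x := by rw [Finset.prod_const, Finset.card_range]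
      _ ≤ _ := Finset.prod_le_prod (fun _ _ => hx0.le) fun j _ => by
        have : (0 : ℝ) ≤ j := Nat.cast_nonneg j
        linarith [hξ.1]
  have hhi : ∏ j ∈ range (m + 1), (ξ + (j : ℝ)) ≤ (x + (m + 1 : ℕ)) ^ (m + 1) := by
    calc ∏ j ∈ range (m + 1), (ξ + (j : ℝ)) ≤ ∏ j ∈ range (m + 1), (x + (m + 1 : ℕ)) :=
          Finset.prod_le_prod (fun j _ => by positivity) fun j hj => by
            have h5 : (j : ℝ) ≤ m := by exact_mod_cast Nat.lt_succ_iff.1 (Finset.mem_range.1 hj)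
            push_cast
            linarith [hξ.2]
      _ = _ := by rw [Finset.prod_const, Finset.card_range]
  constructor
  · exact div_le_div_of_nonneg_left (Nat.cast_nonneg _) hP0 hhi
  · exact div_le_div_of_nonneg_left (Nat.cast_nonneg _) (by positivity) hlo

/-- the phase -/
private noncomputable def Fv (v : ℝ) (a n : ℕ) : ℝ := v / (2 * Real.pi) * Real.log ((a + 1 : ℕ) + n)

private theorem sum_ee (a b : ℕ) (u : ℝ) : ‖∑ n ∈ Ioc a b, cp n u‖ = ‖∑ n ∈ range (b - a), ee (Fv |u| a n)‖ := by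
  have h1 : ∑ n ∈ Ioc a b, cp n (-|u|) = ∑ n ∈ range (b - a), ee (Fv |u| a n) := by
    have e1 : Ioc a b = Ico (a + 1) (b + 1) := by
      ext n
      rw [Finset.mem_Ioc, Finset.mem_Ico]
      omega
    rw [e1, Finset.sum_Ico_eq_sum_range, Nat.add_sub_add_right]
    refine Finset.sum_congr rfl fun n _ => ?_
    unfold cp ee Fv
    congr 2
    push_cast
    have hpi : (Real.pi : ℂ) ≠ 0 := by exact_mod_cast Real.pi_ne_zero
    field_simp
  have h2 : ‖∑ n ∈ Ioc a b, cp n |u|‖ = ‖∑ n ∈ Ioc a b, cp n (-|u|)‖ := by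
    rw [← RCLike.norm_conj, map_sum]
    congr 1
    exact Finset.sum_congr rfl fun n _ => cp_conj n _
  rw [← h1]
  rcases abs_choice u with h | h
  · rw [← h2, h]
  · rw [h, neg_neg]

private theorem triv (a b : ℕ) (hb : b ≤ 64 * a) (u : ℝ) : ‖∑ n ∈ Ioc a b, cp n u‖ ≤ 64 * a := by
  refine (norm_sum_le _ _).trans ?_
  calc ∑ n ∈ Ioc a b, ‖cp n u‖ = ((b - a : ℕ) : ℝ) := by
        rw [Finset.sum_congr rfl fun n _ => norm_cp n u, Finset.sum_const, Nat.card_Ioc, nsmul_eq_mul, mul_one]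
    _ ≤ ((64 * a : ℕ) : ℝ) := by exact_mod_cast (Nat.sub_le b a).trans hb
    _ = 64 * a := by push_cast; ring

private theorem log_step {x : ℝ} (hx : 0 < x) : 1 / (x + 1) ≤ Real.log (x + 1) - Real.log x ∧
    Real.log (x + 1) - Real.log x ≤ 1 / x := by
  have h1 : Real.log (x + 1) - Real.log x = Real.log ((x + 1) / x) := (Real.log_div (by positivity) hx.ne').symm
  constructor
  · have h2 := Real.log_le_sub_one_of_pos (show 0 < x / (x + 1) by positivity)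
    rw [Real.log_div hx.ne' (by positivity)] at h2
    have h3 : x / (x + 1) - 1 = -(1 / (x + 1)) := by
      field_simp
      ring
    linarith
  · have h2 := Real.log_le_sub_one_of_pos (show 0 < (x + 1) / x by positivity)
    rw [h1]
    have h3 : (x + 1) / x - 1 = 1 / x := by
      field_simp
      ring
    linarith

theorem es_kl : ∃ C : ℝ, 0 < C ∧ ∀ a b : ℕ, 1 ≤ a → b ≤ 64 * a → ∀ u : ℝ, u ≠ 0 → |u| ≤ a →
    ‖∑ n ∈ Ioc a b, cp n u‖ ≤ C * a / |u| := by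
  refine ⟨384 * Real.pi, by positivity, fun a b ha hb u hu hua => ?_⟩
  have ha' : (1 : ℝ) ≤ a := by exact_mod_cast ha
  have hv : 0 < |u| := abs_pos.2 hu
  rw [sum_ee]
  obtain ⟨v, hv0⟩ : ∃ v, v = |u| := ⟨_, rfl⟩
  rw [← hv0] at hv hua ⊢
  have hpi := Real.pi_pos
  have hpi3 := Real.pi_gt_three
  obtain ⟨w, hw⟩ : ∃ w, w = v / (2 * Real.pi) := ⟨_, rfl⟩
  have hw0 : 0 < w := by rw [hw]; positivity
  have hdiff : ∀ n : ℕ, Fv v a (n + 1) - Fv v a n = w * (Real.log ((a + 1 + n : ℝ) + 1) - Real.log (a + 1 + n : ℝ)) := by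
    intro n
    unfold Fv
    rw [← hw]
    push_cast
    ring_nf
  have hx : ∀ n : ℕ, (0 : ℝ) < a + 1 + n := fun n => by positivity
  have hθ : 0 < v / (128 * Real.pi * a) := by positivity
  have hwa : w ≤ a / 6 := by
    rw [hw, div_le_div_iff₀ (by positivity) (by norm_num)]
    nlinarith
  have key := kusmin (F := Fv v a) (N := b - a) hθ ?_ 0 ?_ (Or.inr ?_)
  · refine key.trans (le_of_eq ?_)
    field_simp
    ring
  · rw [div_le_div_iff₀ (by positivity) (by norm_num)]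
    nlinarith [mul_pos hpi (show (0 : ℝ) < a by linarith)]
  · intro n hn
    rw [hdiff]
    obtain ⟨h1, h2⟩ := log_step (hx n)
    push_cast
    rw [sub_zero]
    have h3 : (a : ℝ) + 1 + n + 1 ≤ 64 * a := by
      have : a + 1 + n + 1 ≤ 64 * a := by omega
      exact_mod_cast this
    have h4 : w * (1 / ((a : ℝ) + 1 + n + 1)) ≥ w * (1 / (64 * a)) := by
      apply mul_le_mul_of_nonneg_left _ hw0.le
      exact one_div_le_one_div_of_le (by positivity) h3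
    have h5 : w * (1 / (64 * a)) = v / (128 * Real.pi * a) := by
      rw [hw]
      field_simp
      ring
    have h6 : w * (1 / ((a : ℝ) + 1 + n)) ≤ 1 / 6 := by
      rw [mul_one_div, div_le_div_iff₀ (by positivity) (by norm_num)]
      have : (0 : ℝ) ≤ n := Nat.cast_nonneg n
      linarith
    have h7 := mul_le_mul_of_nonneg_left h1 hw0.le
    have h8 := mul_le_mul_of_nonneg_left h2 hw0.le
    have h9 : v / (128 * Real.pi * a) ≤ 1 / 2 := by
      rw [div_le_div_iff₀ (by positivity) (by norm_num)]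
      nlinarith [mul_pos hpi (show (0 : ℝ) < a by linarith)]
    constructor <;> linarith
  · intro n hn
    rw [hdiff n]
    have hd2 := hdiff (n + 1)
    rw [show n + 1 + 1 = n + 2 from rfl] at hd2
    rw [hd2]
    apply mul_le_mul_of_nonneg_left _ hw0.le
    have e1 : ((a : ℝ) + 1 + (n + 1 : ℕ)) = (a : ℝ) + 1 + n + 1 := by push_cast; ring
    rw [e1]
    have hxn := hx n
    have h1 : (0 : ℝ) < a + 1 + n + 1 := by linarith
    have h2 : Real.log (a + 1 + n + 1 + 1) + Real.log (a + 1 + n) ≤ 2 * Real.log (a + 1 + n + 1) := by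
      rw [← Real.log_mul (by positivity) hxn.ne', two_mul, ← Real.log_mul h1.ne' h1.ne']
      apply Real.log_le_log (by positivity)
      nlinarith
    linarith

theorem es_sq : ∃ C : ℝ, 0 < C ∧ ∀ a b : ℕ, 1 ≤ a → b ≤ 64 * a → ∀ u : ℝ, (a : ℝ) ≤ |u| → |u| ≤ (a : ℝ) ^ 2 →
    ‖∑ n ∈ Ioc a b, cp n u‖ ≤ C * √|u| := by
  refine ⟨50 * 4096 * 300, by positivity, fun a b ha hb u hua hub => ?_⟩
  have ha' : (1 : ℝ) ≤ a := by exact_mod_cast ha
  rw [sum_ee]
  obtain ⟨v, hv0⟩ : ∃ v, v = |u| := ⟨_, rfl⟩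
  rw [← hv0] at hua hub ⊢
  have hv : 0 < v := by linarith
  have hpi := Real.pi_pos
  have hpi3 := Real.pi_gt_three
  have hpi4 := Real.pi_lt_four
  have hL0 : 0 < v / (8192 * Real.pi * a ^ 2) := by positivity
  have hL1 : v / (8192 * Real.pi * a ^ 2) ≤ 1 := by
    rw [div_le_one (by positivity)]
    nlinarith [mul_pos hpi (show (0 : ℝ) < a ^ 2 by positivity)]
  have key := second_diff (F := Fv v a) (N := b - a) (s := -1) (A := 4096) (Or.inr rfl) hL0 hL1 (by norm_num) ?_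
  · refine key.trans ?_
    obtain ⟨L, hL⟩ : ∃ L, L = v / (8192 * Real.pi * a ^ 2) := ⟨_, rfl⟩
    rw [← hL] at hL0 ⊢
    have hsL : 0 < √L := Real.sqrt_pos.2 hL0
    have hsv : 0 < √v := Real.sqrt_pos.2 hv
    have hvv : √v * √v = v := Real.mul_self_sqrt hv.le
    have hLL : √L * √L = L := Real.mul_self_sqrt hL0.le
    have hN : ((b - a : ℕ) : ℝ) ≤ 64 * a := by
      have : b - a ≤ 64 * a := by omega
      exact_mod_cast this
    -- bounds for the square root of `L`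
    have e1 : √L * a ≤ √v := by
      apply (pow_le_pow_iff_left₀ (by positivity) hsv.le two_ne_zero).1
      have : √L * a * (√L * a) = L * a ^ 2 := by linear_combination ((a : ℝ) ^ 2) * hLL
      rw [pow_two, pow_two, this, hvv, hL, div_mul_eq_mul_div, div_le_iff₀ (by positivity)]
      nlinarith [mul_pos hv (show (0 : ℝ) < a ^ 2 by positivity), mul_pos (mul_pos hv hpi) (show (0 : ℝ) < a ^ 2 by positivity)]
    have e2 : 1 ≤ √L * (200 * √v) := by
      have h1 : (1 : ℝ) ≤ (√L * (200 * √v)) ^ 2 := by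
        have : (√L * (200 * √v)) ^ 2 = 40000 * (L * v) := by rw [mul_pow, mul_pow, pow_two, hLL, pow_two (√v), hvv]; ring
        rw [this, hL, div_mul_eq_mul_div, mul_div_assoc', le_div_iff₀ (by positivity)]
        have h2 : (a : ℝ) ^ 2 ≤ v * v := by nlinarith
        nlinarith [mul_nonneg (show (0 : ℝ) ≤ 4 - Real.pi by linarith) (show (0 : ℝ) ≤ a ^ 2 by positivity)]
      nlinarith [mul_pos hsL (show 0 < 200 * √v by positivity)]
    rw [div_le_iff₀ hsL]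
    have e3 : L * ((b - a : ℕ) : ℝ) ≤ √L * (64 * √v) := by
      calc L * ((b - a : ℕ) : ℝ) ≤ L * (64 * a) := mul_le_mul_of_nonneg_left hN hL0.le
        _ = √L * (64 * (√L * a)) := by linear_combination (-(64 * (a : ℝ))) * hLL
        _ ≤ √L * (64 * √v) := by
          apply mul_le_mul_of_nonneg_left _ hsL.le
          linarith
    nlinarith [mul_pos hsL hsv]
  · intro n hn
    obtain ⟨h1, h2⟩ := log_diff (k := 2) (by norm_num) (show 1 ≤ a + 1 by omega) n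
    have e1 : Fv v a (n + 2) - 2 * Fv v a (n + 1) + Fv v a n =
        v / (2 * Real.pi) * dk (fun n => Real.log ((a + 1 : ℕ) + n)) 2 n := by
      show _ = v / (2 * Real.pi) * ((Real.log ((a + 1 : ℕ) + (n + 1 + 1 : ℕ)) - Real.log ((a + 1 : ℕ) + (n + 1 : ℕ))) -
        (Real.log ((a + 1 : ℕ) + (n + 1 : ℕ)) - Real.log ((a + 1 : ℕ) + (n : ℕ))))
      unfold Fv
      ring
    rw [e1]
    norm_num at h1 h2
    have h3 : (a : ℝ) + 1 + n + 2 ≤ 64 * a := by
      have : a + 1 + n + 2 ≤ 64 * a := by omega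
      exact_mod_cast this
    have h4 : ((64 * (a : ℝ)) ^ 2)⁻¹ ≤ (((a : ℝ) + 1 + n + 2) ^ 2)⁻¹ :=
      inv_anti₀ (by positivity) (pow_le_pow_left₀ (by positivity) h3 2)
    have h5 : (((a : ℝ) + 1 + n) ^ 2)⁻¹ ≤ ((a : ℝ) ^ 2)⁻¹ := by
      have : (0 : ℝ) ≤ n := Nat.cast_nonneg n
      exact inv_anti₀ (by positivity) (pow_le_pow_left₀ (by positivity) (by linarith) 2)
    have hw0 : 0 < v / (2 * Real.pi) := by positivity
    have h6 : v / (8192 * Real.pi * a ^ 2) = v / (2 * Real.pi) * ((64 * (a : ℝ)) ^ 2)⁻¹ := by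
      field_simp
      ring
    have h7 : 4096 * (v / (8192 * Real.pi * a ^ 2)) = v / (2 * Real.pi) * ((a : ℝ) ^ 2)⁻¹ := by
      field_simp
      ring
    have h8 := mul_le_mul_of_nonneg_left (h4.trans h1) hw0.le
    have h9 := mul_le_mul_of_nonneg_left (h2.trans h5) hw0.le
    push_cast
    constructor
    · rw [h6]
      linarith
    · rw [h7]
      linarith

private theorem dk_smul (c : ℝ) (G : ℕ → ℝ) (k : ℕ) : ∀ n, dk (fun n => c * G n) k n = c * dk G k n := by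
  induction k with
  | zero => intro n; rfl
  | succ k ih =>
    intro n
    show dk _ k (n + 1) - dk _ k n = c * (dk G k (n + 1) - dk G k n)
    rw [ih, ih]
    ring

/-- one range of `u` -/
private theorem es_k (k : ℕ) (hk : 2 ≤ k) : ∃ c : ℝ, 0 < c ∧ c ≤ 1 / 4 ∧ ∃ C : ℝ, 0 < C ∧ ∀ a b : ℕ, 1 ≤ a → b ≤ 64 * a →
    ∀ u : ℝ, (a : ℝ) ^ ((k : ℝ) - 5 / 4) ≤ |u| → |u| ≤ (a : ℝ) ^ ((k : ℝ) - 1 / 4) →
    ‖∑ n ∈ Ioc a b, cp n u‖ ≤ C * (a : ℝ) ^ (1 - c) := by
  have hpi := Real.pi_pos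
  have hA : (1 : ℝ) ≤ 64 ^ k := one_le_pow₀ (by norm_num)
  obtain ⟨c, hc, hc4, K, hK, key⟩ := kth_diff k hk (1 / 8) (by norm_num) (by norm_num) (64 ^ k) hA
  obtain ⟨m, hm⟩ : ∃ m : ℝ, m = ((k - 1).factorial : ℝ) / (2 * Real.pi * 64 ^ k) := ⟨_, rfl⟩
  have hm0 : 0 < m := by rw [hm]; positivity
  obtain ⟨B, hB⟩ : ∃ B : ℝ, B = max 1 (max (m⁻¹ ^ 4) (m ^ 8)) := ⟨_, rfl⟩
  have hB1 : 1 ≤ B := by rw [hB]; exact le_max_left _ _
  have hB2 : m⁻¹ ^ 4 ≤ B := by rw [hB]; exact (le_max_left _ _).trans (le_max_right _ _)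
  have hB3 : m ^ 8 ≤ B := by rw [hB]; exact (le_max_right _ _).trans (le_max_right _ _)
  refine ⟨c, hc, hc4, K + 64 * B, by positivity, fun a b ha hb u hu1 hu2 => ?_⟩
  have ha' : (1 : ℝ) ≤ a := by exact_mod_cast ha
  have ha0 : (0 : ℝ) < a := by linarith
  have hpow : 1 ≤ (a : ℝ) ^ (1 - c) := Real.one_le_rpow ha' (by linarith)
  by_cases haB : (a : ℝ) ≤ B
  · refine (triv a b hb u).trans ?_
    nlinarith [mul_pos hK (show 0 < (a : ℝ) ^ (1 - c) by positivity)]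
  push Not at haB
  rw [sum_ee]
  obtain ⟨v, hv0⟩ : ∃ v, v = |u| := ⟨_, rfl⟩
  rw [← hv0] at hu1 hu2 ⊢
  have hv : 0 < v := lt_of_lt_of_le (Real.rpow_pos_of_pos ha0 _) hu1
  obtain ⟨L, hL⟩ : ∃ L : ℝ, L = m * (v / (a : ℝ) ^ k) := ⟨_, rfl⟩
  have hr1 : (a : ℝ) ^ (-(5 / 4) : ℝ) ≤ v / (a : ℝ) ^ k := by
    rw [le_div_iff₀ (by positivity), ← Real.rpow_natCast, ← Real.rpow_add ha0]
    refine le_trans (le_of_eq ?_) hu1
    congr 1
    ring
  have hr2 : v / (a : ℝ) ^ k ≤ (a : ℝ) ^ (-(1 / 4) : ℝ) := by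
    rw [div_le_iff₀ (by positivity), ← Real.rpow_natCast, ← Real.rpow_add ha0]
    refine hu2.trans (le_of_eq ?_)
    congr 1
    ring
  have h4 : m⁻¹ ≤ (a : ℝ) ^ (1 / 4 : ℝ) := by
    have h5 : (m⁻¹ ^ 4) ^ (1 / 4 : ℝ) ≤ (a : ℝ) ^ (1 / 4 : ℝ) :=
      Real.rpow_le_rpow (by positivity) (hB2.trans haB.le) (by norm_num)
    rw [← Real.rpow_natCast, ← Real.rpow_mul (by positivity)] at h5
    norm_num at h5 ⊢
    exact h5
  have h8 : m ≤ (a : ℝ) ^ (1 / 8 : ℝ) := by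
    have h5 : (m ^ 8) ^ (1 / 8 : ℝ) ≤ (a : ℝ) ^ (1 / 8 : ℝ) :=
      Real.rpow_le_rpow (by positivity) (hB3.trans haB.le) (by norm_num)
    rw [← Real.rpow_natCast, ← Real.rpow_mul (by positivity)] at h5
    norm_num at h5 ⊢
    exact h5
  have hL1 : (a : ℝ) ^ (-(3 / 2) : ℝ) ≤ L := by
    have e1 : (a : ℝ) ^ (-(3 / 2) : ℝ) * (a : ℝ) ^ (1 / 4 : ℝ) = (a : ℝ) ^ (-(5 / 4) : ℝ) := by
      rw [← Real.rpow_add ha0]
      norm_num
    have e2 : (a : ℝ) ^ (-(3 / 2) : ℝ) * m⁻¹ ≤ (a : ℝ) ^ (-(5 / 4) : ℝ) := by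
      rw [← e1]
      exact mul_le_mul_of_nonneg_left h4 (Real.rpow_nonneg ha0.le _)
    rw [← div_eq_mul_inv, div_le_iff₀ hm0] at e2
    rw [hL, mul_comm]
    exact e2.trans (mul_le_mul_of_nonneg_right hr1 hm0.le)
  have hL2 : L ≤ (a : ℝ) ^ (-(1 / 8) : ℝ) := by
    have e1 : (a : ℝ) ^ (1 / 8 : ℝ) * (a : ℝ) ^ (-(1 / 4) : ℝ) = (a : ℝ) ^ (-(1 / 8) : ℝ) := by
      rw [← Real.rpow_add ha0]
      norm_num
    rw [hL, ← e1]
    exact mul_le_mul h8 hr2 (by positivity) (Real.rpow_nonneg ha0.le _)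
  have hN : ((b - a : ℕ) : ℝ) ≤ 64 ^ k * (a : ℝ) := by
    have h5 : ((b - a : ℕ) : ℝ) ≤ 64 * a := by
      have : b - a ≤ 64 * a := by omega
      exact_mod_cast this
    have h6 : (64 : ℝ) ≤ 64 ^ k := by
      calc (64 : ℝ) = 64 ^ 1 := (pow_one _).symm
        _ ≤ 64 ^ k := pow_le_pow_right₀ (by norm_num) (by omega)
    nlinarith
  have hmain := key a ha' (b - a) hN (Fv v a) L hL1 hL2 ((-1) ^ (k - 1)) (neg_one_pow_eq_or ℝ (k - 1)) (by
    intro n hn
    obtain ⟨g1, g2⟩ := log_diff (k := k) (by omega) (show 1 ≤ a + 1 by omega) n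
    have e1 : dk (Fv v a) k n = v / (2 * Real.pi) * dk (fun n => Real.log ((a + 1 : ℕ) + n)) k n :=
      dk_smul _ (fun n : ℕ => Real.log ((a + 1 : ℕ) + n)) k n
    have hw0 : 0 < v / (2 * Real.pi) := by positivity
    have e2 : (-1) ^ (k - 1) * dk (Fv v a) k n =
        v / (2 * Real.pi) * ((-1) ^ (k - 1) * dk (fun n => Real.log ((a + 1 : ℕ) + n)) k n) := by
      rw [e1]
      ring
    have h3 : (((a + 1 : ℕ) : ℝ) + n + k) ≤ 64 * a := by
      have : a + 1 + n + k ≤ 64 * a := by omega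
      exact_mod_cast this
    have h5 : ((k - 1).factorial : ℝ) / (64 * a) ^ k ≤ ((k - 1).factorial : ℝ) / (((a + 1 : ℕ) : ℝ) + n + k) ^ k :=
      div_le_div_of_nonneg_left (by positivity) (by positivity) (pow_le_pow_left₀ (by positivity) h3 k)
    have h6 : ((k - 1).factorial : ℝ) / (((a + 1 : ℕ) : ℝ) + n) ^ k ≤ ((k - 1).factorial : ℝ) / (a : ℝ) ^ k := by
      refine div_le_div_of_nonneg_left (by positivity) (by positivity) (pow_le_pow_left₀ (by positivity) ?_ k)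
      push_cast
      have : (0 : ℝ) ≤ n := Nat.cast_nonneg n
      linarith
    have e3 : L = v / (2 * Real.pi) * (((k - 1).factorial : ℝ) / (64 * a) ^ k) := by
      rw [hL, hm, mul_pow]
      field_simp
    have e4 : 64 ^ k * L = v / (2 * Real.pi) * (((k - 1).factorial : ℝ) / (a : ℝ) ^ k) := by
      rw [hL, hm]
      field_simp
    rw [e2, e4]
    constructor
    · rw [e3]
      exact mul_le_mul_of_nonneg_left (h5.trans g1) hw0.le
    · exact mul_le_mul_of_nonneg_left (g2.trans h6) hw0.le)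
  refine hmain.trans ?_
  apply mul_le_mul_of_nonneg_right _ (Real.rpow_nonneg ha0.le _)
  have : 0 < 64 * B := by positivity
  linarith

private theorem es_one : ∃ c : ℝ, 0 < c ∧ c ≤ 1 / 4 ∧ ∃ C : ℝ, 0 < C ∧ ∀ a b : ℕ, 1 ≤ a → b ≤ 64 * a → ∀ u : ℝ, √(a : ℝ) ≤ |u| →
    |u| ≤ (a : ℝ) ^ 1 → ‖∑ n ∈ Ioc a b, cp n u‖ ≤ C * (a : ℝ) ^ (1 - c) := by
  obtain ⟨C, hC, h⟩ := es_kl
  refine ⟨1 / 4, by norm_num, le_rfl, C, hC, fun a b ha hb u hu1 hu2 => ?_⟩
  have ha' : (1 : ℝ) ≤ a := by exact_mod_cast ha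
  have ha0 : (0 : ℝ) < a := by linarith
  have hs : 0 < √(a : ℝ) := Real.sqrt_pos.2 ha0
  have hu : 0 < |u| := lt_of_lt_of_le hs hu1
  rw [pow_one] at hu2
  refine (h a b ha hb u (abs_pos.1 hu) hu2).trans ?_
  rw [mul_div_assoc]
  apply mul_le_mul_of_nonneg_left _ hC.le
  calc (a : ℝ) / |u| ≤ a / √(a : ℝ) := div_le_div_of_nonneg_left ha0.le hs hu1
    _ = √(a : ℝ) := Real.div_sqrt
    _ = (a : ℝ) ^ (1 / 2 : ℝ) := Real.sqrt_eq_rpow _
    _ ≤ (a : ℝ) ^ (1 - 1 / 4 : ℝ) := Real.rpow_le_rpow_of_exponent_le ha' (by norm_num)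

theorem es_pow (K : ℕ) : ∃ c : ℝ, 0 < c ∧ c ≤ 1 / 4 ∧ ∃ C : ℝ, 0 < C ∧ ∀ a b : ℕ, 1 ≤ a → b ≤ 64 * a → ∀ u : ℝ, √(a : ℝ) ≤ |u| → |u| ≤ (a : ℝ) ^ K →
    ‖∑ n ∈ Ioc a b, cp n u‖ ≤ C * (a : ℝ) ^ (1 - c) := by
  have main : ∀ K : ℕ, ∃ c : ℝ, 0 < c ∧ c ≤ 1 / 4 ∧ ∃ C : ℝ, 0 < C ∧ ∀ a b : ℕ, 1 ≤ a → b ≤ 64 * a → ∀ u : ℝ,
      √(a : ℝ) ≤ |u| → |u| ≤ (a : ℝ) ^ (K + 1) → ‖∑ n ∈ Ioc a b, cp n u‖ ≤ C * (a : ℝ) ^ (1 - c) := by
    intro K
    induction K with
    | zero => exact es_one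
    | succ K ih =>
      obtain ⟨c1, hc1, hd1, C1, hC1, h1⟩ := ih
      obtain ⟨c2, hc2, hd2, C2, hC2, h2⟩ := es_k (K + 2) (by omega)
      obtain ⟨c3, hc3, hd3, C3, hC3, h3⟩ := es_k (K + 3) (by omega)
      refine ⟨min c1 (min c2 c3), by positivity, (min_le_left _ _).trans hd1, C1 + C2 + C3, by positivity, ?_⟩
      intro a b ha hb u hu1 hu2
      have ha' : (1 : ℝ) ≤ a := by exact_mod_cast ha
      have ha0 : (0 : ℝ) < a := by linarith
      have hp : ∀ c' : ℝ, min c1 (min c2 c3) ≤ c' → (a : ℝ) ^ (1 - c') ≤ (a : ℝ) ^ (1 - min c1 (min c2 c3)) :=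
        fun c' hc' => Real.rpow_le_rpow_of_exponent_le ha' (by linarith)
      have g1 := hp c1 (min_le_left _ _)
      have g2 := hp c2 ((min_le_right _ _).trans (min_le_left _ _))
      have g3 := hp c3 ((min_le_right _ _).trans (min_le_right _ _))
      have hP : 0 < (a : ℝ) ^ (1 - min c1 (min c2 c3)) := Real.rpow_pos_of_pos ha0 _
      by_cases hA : |u| ≤ (a : ℝ) ^ (K + 1)
      · have := h1 a b ha hb u hu1 hA
        nlinarith [mul_le_mul_of_nonneg_left g1 hC1.le, mul_pos hC2 hP, mul_pos hC3 hP]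
      push Not at hA
      by_cases hBu : |u| ≤ (a : ℝ) ^ (((K + 2 : ℕ) : ℝ) - 1 / 4)
      · have := h2 a b ha hb u (by
          refine le_trans ?_ hA.le
          rw [← Real.rpow_natCast]
          apply Real.rpow_le_rpow_of_exponent_le ha'
          push_cast
          linarith) hBu
        nlinarith [mul_le_mul_of_nonneg_left g2 hC2.le, mul_pos hC1 hP, mul_pos hC3 hP]
      push Not at hBu
      have := h3 a b ha hb u (by
          refine le_trans (le_of_eq ?_) hBu.le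
          congr 1
          push_cast
          ring) (by
          refine hu2.trans ?_
          rw [← Real.rpow_natCast]
          apply Real.rpow_le_rpow_of_exponent_le ha'
          push_cast
          linarith)
      nlinarith [mul_le_mul_of_nonneg_left g3 hC3.le, mul_pos hC1 hP, mul_pos hC2 hP]
  cases K with
  | succ K => exact main K
  | zero =>
    obtain ⟨c, hc, hd, C, hC, h⟩ := main 0
    refine ⟨c, hc, hd, C, hC, fun a b ha hb u hu1 hu2 => h a b ha hb u hu1 (hu2.trans ?_)⟩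
    have ha' : (1 : ℝ) ≤ a := by exact_mod_cast ha
    simpa using ha'

end MRT
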