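import Pool.Agent.MRT.LsD
import Pool.Agent.MRT.EsL

/-!
# MRT-ZeF: the zeta function at large height

PLAN.  `σ = 1 + 1/V`, `N₀ = ⌊e^{κV}⌋₊`.  For `V ≤ V₁(κ)`: `‖LS‖ ≤ 1 + V` (`ls_one`).  Else `∑_{n ≤ N₀} n^{-σ} ≤ 1 + κ V`.  Tail: for `N ≥ u²`, `|u| ≥ 1`: `|∑_{n > N} n^{-σ-iu}| ≤ N^{1-σ}/|σ - 1 + iu| + |σ + iu| ∑_{n ≥ N} n^{-σ-1} ≤ C` (compare `n^{-s}` with `∫_n^{n+1} x^{-s} dx`: the difference is at most `|s| n^{-σ-1}`).
For `N₀ ≤ a ≤ u²`: `|∑_{a < n ≤ b} n^{-σ} cp n u| ≤ 2 a^{-1} C a^{1-c}`, `b ≤ 2a` (`es_pow` with `K` such that `(e^{κV} - 1)^K ≥ e^{4V}` for `V ≥ V₁`; `√a ≤ |u|`; partial summation as in `abel`: `n^{-σ}` is decreasing); sum over `a = N₀ 2^j`: `≤ C`.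
-/

set_option autoImplicit false

namespace MRT

open Finset

/-- partial summation with decreasing weights -/
private theorem abel_aux {w : ℕ → ℝ} {c : ℕ → ℂ} {a : ℕ} {B : ℝ} (hw : ∀ n, a < n → w (n + 1) ≤ w n) {b : ℕ} (hab : a ≤ b)
    (hB : ∀ m, m ≤ b → ‖∑ n ∈ Ioc a m, c n‖ ≤ B) : ∀ b', a ≤ b' → b' ≤ b →
    ‖∑ n ∈ Ioc a b', (w n : ℂ) * c n - (w (b' + 1) : ℂ) * ∑ n ∈ Ioc a b', c n‖ ≤ B * (w (a + 1) - w (b' + 1)) := by
  intro b' hab'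
  induction b', hab' using Nat.le_induction with
  | base => intro _; simp
  | succ m hm ih =>
    intro hmb
    have h1 := ih (by omega)
    rw [← Finset.insert_Ioc_right_eq_Ioc_add_one hm, Finset.sum_insert (by simp), Finset.sum_insert (by simp)]
    have h2 := hB (m + 1) hmb
    rw [← Finset.insert_Ioc_right_eq_Ioc_add_one hm, Finset.sum_insert (by simp)] at h2
    have e1 : (w (m + 1) : ℂ) * c (m + 1) + ∑ n ∈ Ioc a m, (w n : ℂ) * c n -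
        (w (m + 1 + 1) : ℂ) * (c (m + 1) + ∑ n ∈ Ioc a m, c n) =
        (∑ n ∈ Ioc a m, (w n : ℂ) * c n - (w (m + 1) : ℂ) * ∑ n ∈ Ioc a m, c n) +
        ((w (m + 1) - w (m + 1 + 1) : ℝ) : ℂ) * (c (m + 1) + ∑ n ∈ Ioc a m, c n) := by
      push_cast
      ring
    rw [e1]
    refine (norm_add_le _ _).trans ?_
    rw [norm_mul, Complex.norm_real, Real.norm_eq_abs, abs_of_nonneg (by linarith [hw (m + 1) (by omega)])]
    have h3 : (w (m + 1) - w (m + 1 + 1)) * ‖c (m + 1) + ∑ n ∈ Ioc a m, c n‖ ≤ (w (m + 1) - w (m + 1 + 1)) * B :=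
      mul_le_mul_of_nonneg_left h2 (by linarith [hw (m + 1) (by omega)])
    linarith

private theorem abel_le {w : ℕ → ℝ} {c : ℕ → ℂ} {a b : ℕ} {B : ℝ} (hw : ∀ n, a < n → w (n + 1) ≤ w n)
    (h0 : ∀ n, 0 ≤ w n) (hab : a ≤ b) (hB : ∀ m, m ≤ b → ‖∑ n ∈ Ioc a m, c n‖ ≤ B) :
    ‖∑ n ∈ Ioc a b, (w n : ℂ) * c n‖ ≤ B * w (a + 1) := by
  have h1 := abel_aux hw hab hB b hab le_rfl
  have h2 : ‖(w (b + 1) : ℂ) * ∑ n ∈ Ioc a b, c n‖ ≤ w (b + 1) * B := by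
    rw [norm_mul, Complex.norm_real, Real.norm_eq_abs, abs_of_nonneg (h0 _)]
    exact mul_le_mul_of_nonneg_left (hB b le_rfl) (h0 _)
  have h3 := norm_add_le (∑ n ∈ Ioc a b, (w n : ℂ) * c n - (w (b + 1) : ℂ) * ∑ n ∈ Ioc a b, c n)
    ((w (b + 1) : ℂ) * ∑ n ∈ Ioc a b, c n)
  rw [sub_add_cancel] at h3
  linarith

private noncomputable def sv (σ u : ℝ) : ℂ := (σ : ℂ) + (u : ℂ) * Complex.I

private theorem term_eq {σ u : ℝ} {n : ℕ} (hn : 0 < n) :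
    (((n : ℝ) ^ (-σ) : ℝ) : ℂ) * cp n u = ((n : ℝ) : ℂ) ^ (-sv σ u) := by
  have hn' : ((n : ℝ) : ℂ) ≠ 0 := by exact_mod_cast hn.ne'
  have e : -sv σ u = ((-σ : ℝ) : ℂ) + (-(u : ℂ) * Complex.I) := by
    unfold sv
    push_cast
    ring
  rw [e, Complex.cpow_add _ _ hn', cp_eq_cpow hn, Complex.ofReal_cpow (Nat.cast_nonneg n)]
  simp

/-- comparison of a term with a difference of the primitive -/
private theorem tail_step {σ u : ℝ} (hσ : 1 ≤ σ) (hu : 1 ≤ |u|) {n : ℕ} (hn : 1 ≤ n) :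
    ‖((n : ℝ) : ℂ) ^ (-sv σ u) - ((((n : ℝ) + 1 : ℝ) : ℂ) ^ (-sv σ u + 1) / (-sv σ u + 1) -
      ((n : ℝ) : ℂ) ^ (-sv σ u + 1) / (-sv σ u + 1))‖ ≤ ‖sv σ u‖ * ((n : ℝ) ^ 2)⁻¹ := by
  obtain ⟨s, hs⟩ : ∃ s, s = sv σ u := ⟨_, rfl⟩
  rw [← hs]
  have hre : s.re = σ := by rw [hs]; simp [sv]
  have him : s.im = u := by rw [hs]; simp [sv]
  have hn' : (1 : ℝ) ≤ n := by exact_mod_cast hn
  have hu0 : u ≠ 0 := by
    rintro rfl
    rw [abs_zero] at hu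
    linarith
  have hs1 : -s ≠ -1 := by
    intro h
    have := congrArg Complex.im h
    simp [him] at this
    exact hu0 this
  have hs0 : -s ≠ 0 := by
    intro h
    have := congrArg Complex.im h
    simp [him] at this
    exact hu0 this
  have hder : ∀ y ∈ Set.Icc (n : ℝ) (n + 1), ‖(y : ℂ) ^ (-s) - ((n : ℝ) : ℂ) ^ (-s)‖ ≤ ‖s‖ * ((n : ℝ) ^ 2)⁻¹ := by
    intro y hy
    have h1 := norm_image_sub_le_of_norm_deriv_le_segment' (f := fun x : ℝ => (x : ℂ) ^ (-s))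
      (f' := fun x : ℝ => -s * (x : ℂ) ^ (-s - 1)) (a := (n : ℝ)) (b := n + 1) (C := ‖s‖ * ((n : ℝ) ^ 2)⁻¹)
      (fun x hx => (hasDerivAt_ofReal_cpow_const (by linarith [hx.1]) hs0).hasDerivWithinAt)
      (fun x hx => by
        have hx0 : 0 < x := by linarith [hx.1]
        rw [norm_mul, norm_neg, Complex.norm_cpow_eq_rpow_re_of_pos hx0]
        apply mul_le_mul_of_nonneg_left _ (norm_nonneg s)
        have e1 : (-s - 1).re = -σ - 1 := by simp [hre]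
        rw [e1]
        calc x ^ (-σ - 1) ≤ (n : ℝ) ^ (-σ - 1) :=
              Real.rpow_le_rpow_of_nonpos (by linarith) hx.1 (by linarith)
          _ ≤ (n : ℝ) ^ (-2 : ℝ) := Real.rpow_le_rpow_of_exponent_le hn' (by linarith)
          _ = ((n : ℝ) ^ 2)⁻¹ := by
            rw [Real.rpow_neg (by linarith)]
            congr 1
            exact_mod_cast Real.rpow_natCast (n : ℝ) 2) y hy
    refine h1.trans ?_
    have h2 : y - n ≤ 1 := by linarith [hy.2]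
    have h3 : 0 ≤ ‖s‖ * ((n : ℝ) ^ 2)⁻¹ := by positivity
    nlinarith
  have h2 := norm_image_sub_le_of_norm_deriv_le_segment'
    (f := fun x : ℝ => (x : ℂ) ^ (-s + 1) / (-s + 1) - ((n : ℝ) : ℂ) ^ (-s) * (x : ℂ))
    (f' := fun x : ℝ => (x : ℂ) ^ (-s) - ((n : ℝ) : ℂ) ^ (-s) * 1) (a := (n : ℝ)) (b := n + 1)
    (C := ‖s‖ * ((n : ℝ) ^ 2)⁻¹)
    (fun x hx => ((hasDerivAt_ofReal_cpow_const' (by linarith [hx.1]) hs1).sub
      (Complex.ofRealCLM.hasDerivAt.const_mul _)).hasDerivWithinAt)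
    (fun x hx => by
      rw [mul_one]
      exact hder x ⟨hx.1, hx.2.le⟩) ((n : ℝ) + 1) ⟨by linarith, le_rfl⟩
  have e2 : ((n : ℝ) + 1 - n) = 1 := by ring
  rw [e2, mul_one] at h2
  rw [← norm_neg]
  refine le_trans (le_of_eq ?_) h2
  congr 1
  push_cast
  ring

private theorem tail_le {σ u : ℝ} (hσ : 1 ≤ σ) (hσ2 : σ ≤ 2) (hu : 1 ≤ |u|) {M : ℕ} (hM : u ^ 2 ≤ M) {N : ℕ} (hN : M ≤ N) :
    ‖∑ n ∈ Ioc M N, (((n : ℝ) ^ (-σ) : ℝ) : ℂ) * cp n u‖ ≤ 5 := by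
  have hM1 : (1 : ℝ) ≤ M := by
    have : 1 ≤ u ^ 2 := by
      rw [← sq_abs]
      nlinarith
    linarith
  have hM1' : 1 ≤ M := by exact_mod_cast hM1
  obtain ⟨f, hf⟩ : ∃ f : ℕ → ℂ, ∀ n, f n = ((n : ℝ) : ℂ) ^ (-sv σ u + 1) / (-sv σ u + 1) := ⟨_, fun _ => rfl⟩
  have htel : ∀ N, M ≤ N → ∑ n ∈ Ioc M N, (f (n + 1) - f n) = f (N + 1) - f (M + 1) := by
    intro N hN
    induction N, hN using Nat.le_induction with
    | base => simp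
    | succ m hm ih =>
      rw [← Finset.insert_Ioc_right_eq_Ioc_add_one hm, Finset.sum_insert (by simp), ih]
      ring
  have hden : 1 ≤ ‖-sv σ u + 1‖ := by
    refine hu.trans ?_
    have h1 := Complex.abs_im_le_norm (-sv σ u + 1)
    have h2 : (-sv σ u + 1).im = -u := by simp [sv]
    rwa [h2, abs_neg] at h1
  have hfn : ∀ n : ℕ, 1 ≤ n → ‖f n‖ ≤ 1 := by
    intro n hn
    have hn' : (1 : ℝ) ≤ n := by exact_mod_cast hn
    rw [hf, norm_div, Complex.norm_cpow_eq_rpow_re_of_pos (by linarith)]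
    have e1 : (-sv σ u + 1).re = -σ + 1 := by simp [sv]
    rw [e1, div_le_one (by linarith)]
    exact (Real.rpow_le_one_of_one_le_of_nonpos hn' (by linarith)).trans hden
  have hsum : ∑ n ∈ Ioc M N, (((n : ℝ) ^ (-σ) : ℝ) : ℂ) * cp n u =
      ∑ n ∈ Ioc M N, (((n : ℝ) : ℂ) ^ (-sv σ u) - (f (n + 1) - f n)) + (f (N + 1) - f (M + 1)) := by
    rw [← htel N hN, ← Finset.sum_add_distrib]
    refine Finset.sum_congr rfl fun n hn => ?_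
    rw [term_eq (by have := (Finset.mem_Ioc.1 hn).1; omega)]
    ring
  rw [hsum]
  have h1 : ‖∑ n ∈ Ioc M N, (((n : ℝ) : ℂ) ^ (-sv σ u) - (f (n + 1) - f n))‖ ≤ 3 := by
    refine (norm_sum_le _ _).trans ?_
    have h2 : ∑ n ∈ Ioc M N, ‖((n : ℝ) : ℂ) ^ (-sv σ u) - (f (n + 1) - f n)‖ ≤
        ∑ n ∈ Ioc M N, ‖sv σ u‖ * ((n : ℝ) ^ 2)⁻¹ := by
      refine Finset.sum_le_sum fun n hn => ?_
      have h3 := tail_step (σ := σ) (u := u) hσ hu (n := n) (by have := (Finset.mem_Ioc.1 hn).1; omega)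
      rw [hf, hf]
      push_cast at h3 ⊢
      exact h3
    refine h2.trans ?_
    rw [← Finset.mul_sum]
    have h4 := sum_Ioc_inv_sq_le_sub (α := ℝ) (k := M) (n := N) (by omega) hN
    have h5 : ‖sv σ u‖ ≤ 3 * M := by
      have h6 : ‖sv σ u‖ ≤ ‖(σ : ℂ)‖ + ‖(u : ℂ) * Complex.I‖ := norm_add_le _ _
      rw [norm_mul, Complex.norm_I, mul_one, Complex.norm_real, Complex.norm_real, Real.norm_eq_abs, Real.norm_eq_abs,
        abs_of_nonneg (by linarith : (0 : ℝ) ≤ σ)] at h6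
      have h7 : |u| ≤ u ^ 2 := by
        rw [← sq_abs]
        nlinarith
      linarith
    have h8 : 0 ≤ ((N : ℝ))⁻¹ := by positivity
    calc ‖sv σ u‖ * ∑ n ∈ Ioc M N, ((n : ℝ) ^ 2)⁻¹ ≤ (3 * M) * (M : ℝ)⁻¹ :=
          mul_le_mul h5 (by linarith) (Finset.sum_nonneg fun n _ => by positivity) (by positivity)
      _ = 3 := by field_simp
  have h2 := hfn (N + 1) (by omega)
  have h3 := hfn (M + 1) (by omega)
  have h4 := norm_add_le (∑ n ∈ Ioc M N, (((n : ℝ) : ℂ) ^ (-sv σ u) - (f (n + 1) - f n))) (f (N + 1) - f (M + 1))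
  have h5 := norm_sub_le (f (N + 1)) (f (M + 1))
  linarith

/-- the blocks in the middle -/
private theorem mid_le {c C : ℝ} (hc : 0 < c) (hC : 0 < C) {K : ℕ}
    (hes : ∀ a b : ℕ, 1 ≤ a → b ≤ 64 * a → ∀ u : ℝ, √(a : ℝ) ≤ |u| → |u| ≤ (a : ℝ) ^ K →
      ‖∑ n ∈ Ioc a b, cp n u‖ ≤ C * (a : ℝ) ^ (1 - c)) {σ u : ℝ} (hσ : 1 ≤ σ) {N₀ : ℕ} (hN₀ : 1 ≤ N₀)
    (hu : |u| ≤ (N₀ : ℝ) ^ K) (J : ℕ) (hJ : ∀ j < J, √((N₀ * 2 ^ j : ℕ) : ℝ) ≤ |u|) :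
    ‖∑ n ∈ Ioc N₀ (N₀ * 2 ^ J), (((n : ℝ) ^ (-σ) : ℝ) : ℂ) * cp n u‖ ≤ C * ∑ j ∈ range J, ((2 : ℝ) ^ (-c)) ^ j := by
  induction J with
  | zero => simp
  | succ J ih =>
    have h1 := ih fun j hj => hJ j (by omega)
    obtain ⟨a, ha⟩ : ∃ a, a = N₀ * 2 ^ J := ⟨_, rfl⟩
    have ha1 : 1 ≤ a := by rw [ha]; exact Nat.mul_pos hN₀ (by positivity)
    have haN : N₀ ≤ a := by rw [ha]; exact Nat.le_mul_of_pos_right _ (by positivity)
    have ha2 : N₀ * 2 ^ (J + 1) = 2 * a := by rw [ha]; ring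
    have ha' : (1 : ℝ) ≤ a := by exact_mod_cast ha1
    have ha0 : (0 : ℝ) < a := by linarith
    rw [ha2, ← Finset.sum_Ioc_consecutive _ haN (by omega), Finset.sum_range_succ, mul_add]
    rw [← ha] at h1
    refine (norm_add_le _ _).trans (add_le_add h1 ?_)
    have h2 := abel_le (w := fun n : ℕ => (n : ℝ) ^ (-σ)) (c := fun n => cp n u) (a := a) (b := 2 * a)
      (B := C * (a : ℝ) ^ (1 - c)) (fun n hn => by
        have hn' : (0 : ℝ) < n := by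
          have : 0 < n := by omega
          exact_mod_cast this
        refine Real.rpow_le_rpow_of_nonpos hn' ?_ (by linarith)
        push_cast
        linarith) (fun n => Real.rpow_nonneg (Nat.cast_nonneg n) _) (by omega) (fun m hm => by
        refine hes a m ha1 (by omega) u ?_ ?_
        · rw [ha]
          exact hJ J (by omega)
        · refine hu.trans (pow_le_pow_left₀ (Nat.cast_nonneg _) ?_ K)
          exact_mod_cast haN)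
    refine h2.trans ?_
    have h3 : ((a + 1 : ℕ) : ℝ) ^ (-σ) ≤ (a : ℝ) ^ (-1 : ℝ) := by
      calc ((a + 1 : ℕ) : ℝ) ^ (-σ) ≤ (a : ℝ) ^ (-σ) :=
            Real.rpow_le_rpow_of_nonpos ha0 (by push_cast; linarith) (by linarith)
        _ ≤ (a : ℝ) ^ (-1 : ℝ) := Real.rpow_le_rpow_of_exponent_le ha' (by linarith)
    have h4 : (a : ℝ) ^ (1 - c) * (a : ℝ) ^ (-1 : ℝ) = (a : ℝ) ^ (-c) := by
      rw [← Real.rpow_add ha0]
      congr 1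
      ring
    have h5 : (a : ℝ) ^ (-c) ≤ ((2 : ℝ) ^ (-c)) ^ J := by
      rw [← Real.rpow_natCast, ← Real.rpow_mul (by norm_num), mul_comm (-c), Real.rpow_mul (by norm_num), Real.rpow_natCast]
      refine Real.rpow_le_rpow_of_nonpos (by positivity) ?_ (by linarith)
      rw [ha]
      push_cast
      have : (1 : ℝ) ≤ N₀ := by exact_mod_cast hN₀
      nlinarith [show (0 : ℝ) < 2 ^ J by positivity]
    calc C * (a : ℝ) ^ (1 - c) * ((a + 1 : ℕ) : ℝ) ^ (-σ) ≤ C * (a : ℝ) ^ (1 - c) * (a : ℝ) ^ (-1 : ℝ) :=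
          mul_le_mul_of_nonneg_left h3 (by positivity)
      _ = C * (a : ℝ) ^ (-c) := by rw [mul_assoc, h4]
      _ ≤ C * ((2 : ℝ) ^ (-c)) ^ J := mul_le_mul_of_nonneg_left h5 hC.le

theorem zeta_far (κ : ℝ) (hκ : 0 < κ) : ∃ C : ℝ, 0 < C ∧ ∀ V u : ℝ, 1 ≤ V → 1 ≤ |u| → |u| ≤ Real.exp (4 * V) →
    ‖LS (fun _ => 1) (1 + 1 / V) u‖ ≤ κ * V + C := by
  obtain ⟨K, hK⟩ := exists_nat_ge (8 / κ)
  obtain ⟨c, hc, hc4, C, hC, hes⟩ := es_pow K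
  have hq0 : (0 : ℝ) < 2 ^ (-c) := by positivity
  have hq1 : (2 : ℝ) ^ (-c) < 1 := Real.rpow_lt_one_of_one_lt_of_neg (by norm_num) (by linarith)
  have hq : 0 < 1 - (2 : ℝ) ^ (-c) := by linarith
  have hq' : 0 < (1 - (2 : ℝ) ^ (-c))⁻¹ := inv_pos.2 hq
  refine ⟨10 + 2 / κ + C * (1 - (2 : ℝ) ^ (-c))⁻¹, by positivity, fun V u hV hu1 hu4 => ?_⟩
  have hV0 : 0 < V := by linarith
  have hσ : 1 < 1 + 1 / V := by
    have : 0 < 1 / V := by positivity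
    linarith
  have hσ2 : 1 + 1 / V ≤ 2 := by
    have : 1 / V ≤ 1 := by
      rw [div_le_one hV0]
      exact hV
    linarith
  have ha : ∀ n : ℕ, 0 < n → ‖(1 : ℂ)‖ ≤ 1 * (1 + Real.log n) ^ 0 := fun n _ => by simp
  by_cases hsmall : V < 2 / κ
  · have h1 := ls_summable (a := fun _ => 1) ha hσ u
    have h2 : ‖LS (fun _ => 1) (1 + 1 / V) u‖ ≤ 1 + V := by
      refine (norm_tsum_le_tsum_norm h1).trans (le_trans (le_of_eq ?_) (ls_one hV).1)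
      refine tsum_congr fun n => ?_
      rw [norm_mul, norm_cp, mul_one, one_mul, Complex.norm_real, Real.norm_eq_abs,
        abs_of_nonneg (Real.rpow_nonneg (Nat.cast_nonneg n) _)]
    have h3 : 0 < C * (1 - (2 : ℝ) ^ (-c))⁻¹ := by positivity
    have h4 : 0 < κ * V := by positivity
    linarith
  push Not at hsmall
  have hκV : 2 ≤ κ * V := by
    rw [div_le_iff₀ hκ] at hsmall
    linarith
  obtain ⟨σ, hσe⟩ : ∃ σ, σ = 1 + 1 / V := ⟨_, rfl⟩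
  rw [← hσe] at hσ hσ2 ⊢
  -- the first range
  obtain ⟨N₀, hN₀⟩ : ∃ N₀ : ℕ, N₀ = ⌊Real.exp (κ * V)⌋₊ := ⟨_, rfl⟩
  have hexp2 : (2 : ℝ) ≤ Real.exp (κ * V / 2) := by
    have := Real.add_one_le_exp (κ * V / 2)
    linarith
  have hexp : Real.exp (κ * V) = Real.exp (κ * V / 2) * Real.exp (κ * V / 2) := by
    rw [← Real.exp_add]
    congr 1
    ring
  have hN₀lo : Real.exp (κ * V / 2) ≤ N₀ := by
    have h1 := Nat.lt_floor_add_one (Real.exp (κ * V))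
    rw [← hN₀, hexp] at h1
    nlinarith
  have hN₀hi : (N₀ : ℝ) ≤ Real.exp (κ * V) := by
    rw [hN₀]
    exact Nat.floor_le (Real.exp_pos _).le
  have hN₀1 : 1 ≤ N₀ := by
    have : (1 : ℝ) ≤ N₀ := by linarith
    exact_mod_cast this
  have huK : |u| ≤ (N₀ : ℝ) ^ K := by
    refine hu4.trans ?_
    calc Real.exp (4 * V) ≤ Real.exp (κ * V / 2) ^ K := by
          rw [← Real.exp_nat_mul, Real.exp_le_exp]
          rw [div_le_iff₀ hκ] at hK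
          nlinarith
      _ ≤ (N₀ : ℝ) ^ K := pow_le_pow_left₀ (Real.exp_pos _).le hN₀lo K
  -- the number of blocks
  have hexJ : ∃ J : ℕ, u ^ 2 ≤ ((N₀ * 2 ^ J : ℕ) : ℝ) := by
    obtain ⟨J, hJ⟩ := exists_nat_ge (u ^ 2)
    refine ⟨J, hJ.trans ?_⟩
    have h1 : J ≤ 2 ^ J := Nat.lt_two_pow_self.le
    have h2 : 2 ^ J ≤ N₀ * 2 ^ J := Nat.le_mul_of_pos_left _ hN₀1
    exact_mod_cast h1.trans h2
  obtain ⟨J, hJ1, hJ2⟩ : ∃ J : ℕ, u ^ 2 ≤ ((N₀ * 2 ^ J : ℕ) : ℝ) ∧ ∀ j < J, ((N₀ * 2 ^ j : ℕ) : ℝ) < u ^ 2 :=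
    ⟨Nat.find hexJ, Nat.find_spec hexJ, fun j hj => not_le.1 (Nat.find_min hexJ hj)⟩
  obtain ⟨N₁, hN₁⟩ := ls_tendsto (a := fun _ => 1) ha hσ 1 one_pos
  obtain ⟨N, hNdef⟩ : ∃ N, N = max N₁ (N₀ * 2 ^ J) := ⟨_, rfl⟩
  have hNa : N₁ ≤ N := by rw [hNdef]; exact le_max_left _ _
  have hNb : N₀ * 2 ^ J ≤ N := by rw [hNdef]; exact le_max_right _ _
  have hNc : N₀ ≤ N₀ * 2 ^ J := Nat.le_mul_of_pos_right _ (by positivity)
  have h1 := hN₁ N hNa u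
  have hDp : Dp (Icc 1 N) (fun n => 1 * (((n : ℝ) ^ (1 - σ) : ℝ) : ℂ)) u =
      ∑ n ∈ Ioc 0 N, (((n : ℝ) ^ (-σ) : ℝ) : ℂ) * cp n u := by
    unfold Dp
    have e1 : Icc 1 N = Ioc 0 N := by
      ext n
      rw [Finset.mem_Icc, Finset.mem_Ioc]
      omega
    rw [e1]
    refine Finset.sum_congr rfl fun n hn => ?_
    have hn0 : (0 : ℝ) < n := by exact_mod_cast (Finset.mem_Ioc.1 hn).1
    congr 1
    show (1 : ℂ) * (((n : ℝ) ^ (1 - σ) : ℝ) : ℂ) / n = _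
    rw [one_mul]
    have e2 : (n : ℝ) ^ (1 - σ) / n = (n : ℝ) ^ (-σ) := by
      rw [div_eq_iff hn0.ne', ← Real.rpow_add_one hn0.ne']
      congr 1
      ring
    rw [← e2]
    push_cast
    rfl
  rw [hDp, ← Finset.sum_Ioc_consecutive _ (Nat.zero_le N₀) (hNc.trans hNb),
    ← Finset.sum_Ioc_consecutive _ hNc hNb] at h1
  -- the three parts
  have g1 : ‖∑ n ∈ Ioc 0 N₀, (((n : ℝ) ^ (-σ) : ℝ) : ℂ) * cp n u‖ ≤ κ * V + 2 := by
    refine (norm_sum_le _ _).trans ?_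
    have h2 := sum_inv_Ic_le (a := -1) (b := κ * V) (by linarith)
    refine le_trans ?_ (h2.trans (by linarith))
    have h3 : ∑ n ∈ Ioc 0 N₀, ‖(((n : ℝ) ^ (-σ) : ℝ) : ℂ) * cp n u‖ ≤ ∑ n ∈ Ioc 0 N₀, 1 / (n : ℝ) := by
      refine Finset.sum_le_sum fun n hn => ?_
      have hn1 : (1 : ℝ) ≤ n := by exact_mod_cast (Finset.mem_Ioc.1 hn).1
      rw [norm_mul, norm_cp, mul_one, Complex.norm_real, Real.norm_eq_abs,
        abs_of_nonneg (Real.rpow_nonneg (by linarith) _), one_div, ← Real.rpow_neg_one]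
      exact Real.rpow_le_rpow_of_exponent_le hn1 (by linarith)
    refine h3.trans (Finset.sum_le_sum_of_subset_of_nonneg ?_ fun n _ _ => by positivity)
    intro n hn
    obtain ⟨hn1, hn2⟩ := Finset.mem_Ioc.1 hn
    rw [mem_Ic]
    have hn1' : (1 : ℝ) ≤ n := by exact_mod_cast hn1
    have hn2' : (n : ℝ) ≤ N₀ := by exact_mod_cast hn2
    refine ⟨lt_of_lt_of_le (Real.exp_lt_one_iff.2 (by norm_num)) hn1', hn2'.trans hN₀hi⟩
  have g2 := mid_le hc hC hes hσ.le hN₀1 huK J (fun j hj => by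
    rw [← Real.sqrt_sq_eq_abs]
    exact Real.sqrt_le_sqrt (hJ2 j hj).le)
  have g3 := tail_le hσ.le hσ2 hu1 hJ1 hNb
  have g4 : ∑ j ∈ range J, ((2 : ℝ) ^ (-c)) ^ j ≤ (1 - (2 : ℝ) ^ (-c))⁻¹ := by
    rw [← tsum_geometric_of_lt_one hq0.le hq1]
    exact (summable_geometric_of_lt_one hq0.le hq1).sum_le_tsum _ (fun j _ => by positivity)
  have g5 := g2.trans (mul_le_mul_of_nonneg_left g4 hC.le)
  have g6 : 0 < 2 / κ := by positivity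
  have g7 := norm_add_le (∑ n ∈ Ioc 0 N₀, (((n : ℝ) ^ (-σ) : ℝ) : ℂ) * cp n u)
    (∑ n ∈ Ioc N₀ (N₀ * 2 ^ J), (((n : ℝ) ^ (-σ) : ℝ) : ℂ) * cp n u +
      ∑ n ∈ Ioc (N₀ * 2 ^ J) N, (((n : ℝ) ^ (-σ) : ℝ) : ℂ) * cp n u)
  have g8 := norm_add_le (∑ n ∈ Ioc N₀ (N₀ * 2 ^ J), (((n : ℝ) ^ (-σ) : ℝ) : ℂ) * cp n u)
    (∑ n ∈ Ioc (N₀ * 2 ^ J) N, (((n : ℝ) ^ (-σ) : ℝ) : ℂ) * cp n u)
  have g9 := norm_le_norm_add_norm_sub' (LS (fun _ => 1) σ u)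
    (∑ n ∈ Ioc 0 N₀, (((n : ℝ) ^ (-σ) : ℝ) : ℂ) * cp n u +
    (∑ n ∈ Ioc N₀ (N₀ * 2 ^ J), (((n : ℝ) ^ (-σ) : ℝ) : ℂ) * cp n u +
      ∑ n ∈ Ioc (N₀ * 2 ^ J) N, (((n : ℝ) ^ (-σ) : ℝ) : ℂ) * cp n u))
  linarith

end MRT
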