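import Pool.Agent.MRT.LsD

/-!
# MRT-ZeN: the zeta function near `1`

`(s - 1) ζ(s)` is continuous and does not vanish on the compact set `1 ≤ re s ≤ 2`, `|im s| ≤ 2`.
-/

set_option autoImplicit false

namespace MRT

open Filter Topology

private theorem zn_ls {V : ℝ} (hV : 1 ≤ V) (u : ℝ) :
    LS (fun _ => 1) (1 + 1 / V) u = riemannZeta (((1 + 1 / V : ℝ) : ℂ) + (u : ℂ) * Complex.I) := by
  have hV0 : 0 < 1 / V := by positivity
  have hre : (((1 + 1 / V : ℝ) : ℂ) + (u : ℂ) * Complex.I).re = 1 + 1 / V := by simp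
  rw [zeta_eq_tsum_one_div_nat_cpow (by rw [hre]; linarith)]
  unfold LS
  refine tsum_congr fun n => ?_
  rcases Nat.eq_zero_or_pos n with h0 | hn
  · have hs : ((1 + 1 / V : ℝ) : ℂ) + (u : ℂ) * Complex.I ≠ 0 := by
      intro h
      have h1 := congrArg Complex.re h
      rw [hre, Complex.zero_re] at h1
      linarith
    rw [h0, Nat.cast_zero, Nat.cast_zero, Complex.zero_cpow hs, Real.zero_rpow (by linarith),
      Complex.ofReal_zero, mul_zero, zero_mul, div_zero]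
  · have hn' : (n : ℂ) ≠ 0 := by exact_mod_cast hn.ne'
    rw [cp_eq_cpow hn, one_mul, Complex.ofReal_cpow (Nat.cast_nonneg n), Complex.ofReal_natCast,
      ← Complex.cpow_add _ _ hn', one_div ((n : ℂ) ^ _), ← Complex.cpow_neg]
    congr 1
    push_cast
    ring

/-- `(s - 1) ζ(s)` -/
private noncomputable def zh : ℂ → ℂ := Function.update (fun s => (s - 1) * riemannZeta s) 1 1

private theorem zh_ne {s : ℂ} (hs : s ≠ 1) : zh s = (s - 1) * riemannZeta s := by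
  unfold zh
  rw [Function.update_of_ne hs]

private theorem zh_cont : Continuous zh := by
  rw [continuous_iff_continuousAt]
  intro s
  by_cases hs : s = 1
  · rw [hs]
    exact continuousAt_update_same.2 riemannZeta_residue_one
  · refine (continuousAt_update_of_ne hs).2 ?_
    exact (continuousAt_id.sub continuousAt_const).mul (differentiableAt_riemannZeta hs).continuousAt

private theorem zh_nz {s : ℂ} (hs : 1 ≤ s.re) : zh s ≠ 0 := by
  by_cases h1 : s = 1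
  · rw [h1]
    unfold zh
    rw [Function.update_self]
    exact one_ne_zero
  · rw [zh_ne h1]
    exact mul_ne_zero (sub_ne_zero.2 h1) (riemannZeta_ne_zero_of_one_le_re hs)

theorem zeta_near : ∃ C : ℝ, 0 < C ∧ ∀ V u : ℝ, 1 ≤ V → |u| ≤ 2 →
    (1 / V + |u|) * ‖LS (fun _ => 1) (1 + 1 / V) u‖ ≤ C ∧ 1 ≤ C * ((1 / V + |u|) * ‖LS (fun _ => 1) (1 + 1 / V) u‖) := by
  have hcomp : IsCompact (Set.Icc (1 : ℝ) 2 ×ℂ Set.Icc (-2 : ℝ) 2) :=
    isCompact_Icc.reProdIm isCompact_Icc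
  have hne : (Set.Icc (1 : ℝ) 2 ×ℂ Set.Icc (-2 : ℝ) 2).Nonempty :=
    ⟨1, by
      rw [Complex.mem_reProdIm]
      simp⟩
  have hcn : ContinuousOn (fun s => ‖zh s‖) (Set.Icc (1 : ℝ) 2 ×ℂ Set.Icc (-2 : ℝ) 2) :=
    zh_cont.norm.continuousOn
  obtain ⟨s1, hs1, hmin⟩ := hcomp.exists_isMinOn hne hcn
  obtain ⟨s2, hs2, hmax⟩ := hcomp.exists_isMaxOn hne hcn
  have hm0 : 0 < ‖zh s1‖ := norm_pos_iff.2 (zh_nz (Complex.mem_reProdIm.1 hs1).1.1)
  have hM0 : 0 ≤ ‖zh s2‖ := norm_nonneg _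
  refine ⟨2 * ‖zh s2‖ + 1 / ‖zh s1‖, by positivity, ?_⟩
  intro V u hV hu
  have hV0 : 0 < 1 / V := by positivity
  have hV1 : 1 / V ≤ 1 := by
    rw [div_le_one (by linarith)]
    exact hV
  obtain ⟨s, hs⟩ : ∃ s : ℂ, s = ((1 + 1 / V : ℝ) : ℂ) + (u : ℂ) * Complex.I := ⟨_, rfl⟩
  have hre : s.re = 1 + 1 / V := by rw [hs]; simp
  have him : s.im = u := by rw [hs]; simp
  have hsne : s ≠ 1 := by
    intro h
    have h1 := congrArg Complex.re h
    rw [hre, Complex.one_re] at h1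
    linarith
  have hmem : s ∈ Set.Icc (1 : ℝ) 2 ×ℂ Set.Icc (-2 : ℝ) 2 := by
    rw [Complex.mem_reProdIm, hre, him]
    exact ⟨⟨by linarith, by linarith⟩, abs_le.1 hu⟩
  have h1 : ‖zh s1‖ ≤ ‖zh s‖ := hmin hmem
  have h2 : ‖zh s‖ ≤ ‖zh s2‖ := hmax hmem
  have h3 : ‖zh s‖ = ‖s - 1‖ * ‖riemannZeta s‖ := by rw [zh_ne hsne, norm_mul]
  have hr1 : (s - 1).re = 1 / V := by
    rw [Complex.sub_re, hre, Complex.one_re]
    ring
  have hi1 : (s - 1).im = u := by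
    rw [Complex.sub_im, him, Complex.one_im, sub_zero]
  have h4 : ‖s - 1‖ ≤ 1 / V + |u| := by
    have h5 := Complex.norm_le_abs_re_add_abs_im (s - 1)
    rw [hr1, hi1, abs_of_pos hV0] at h5
    exact h5
  have h5 : 1 / V + |u| ≤ 2 * ‖s - 1‖ := by
    have h6 := Complex.abs_re_le_norm (s - 1)
    have h7 := Complex.abs_im_le_norm (s - 1)
    rw [hr1, abs_of_pos hV0] at h6
    rw [hi1] at h7
    linarith
  rw [zn_ls hV u, ← hs]
  have hz : 0 ≤ ‖riemannZeta s‖ := norm_nonneg _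
  constructor
  · calc (1 / V + |u|) * ‖riemannZeta s‖ ≤ 2 * ‖s - 1‖ * ‖riemannZeta s‖ :=
          mul_le_mul_of_nonneg_right h5 hz
      _ = 2 * ‖zh s‖ := by rw [h3]; ring
      _ ≤ 2 * ‖zh s2‖ := by linarith
      _ ≤ _ := by
          have : 0 ≤ 1 / ‖zh s1‖ := by positivity
          linarith
  · have h8 : ‖zh s1‖ ≤ (1 / V + |u|) * ‖riemannZeta s‖ :=
      (h1.trans_eq h3).trans (mul_le_mul_of_nonneg_right h4 hz)
    calc (1 : ℝ) = 1 / ‖zh s1‖ * ‖zh s1‖ := by field_simp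
      _ ≤ (2 * ‖zh s2‖ + 1 / ‖zh s1‖) * ((1 / V + |u|) * ‖riemannZeta s‖) :=
        mul_le_mul (by linarith) h8 hm0.le (by positivity)

end MRT
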