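import Pool.Agent.MRT.EuB
import Pool.Agent.MRT.ZeN
import Pool.Agent.MRT.ZeF

/-!
# MRT-FBd: the Dirichlet series of `f` is `o(V)` on the line `1 + 1/V`

`Neg f V → ∞` as `V → ∞`.  Case `1 ≤ |t|`: `eu_big`, `zeta_far`.  Case `K/V ≤ |t| ≤ 1`: `eu_big`, `zeta_near`
(`u = 2t`).  Case `|t| ≤ K/V`: `eu_small`, `zeta_near` (lower bound for `LS 1 σ t`).
-/

set_option autoImplicit false

namespace MRT

open Filter Topology

/-- `∑_{f p = -1} 1/p = ∞`. -/
def Div (f : ℕ → ℝ) : Prop := ¬ Summable fun p : Nat.Primes => if f p = -1 then 1 / ((p : ℕ) : ℝ) else 0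

private theorem neg_big {f : ℕ → ℝ} (hd : Div f) (M : ℝ) : ∀ᶠ V : ℝ in atTop, M ≤ Neg f V := by
  have hnn : ∀ p : Nat.Primes, 0 ≤ (if f p = -1 then 1 / ((p : ℕ) : ℝ) else 0) := by
    intro p
    split_ifs
    · positivity
    · exact le_rfl
  obtain ⟨s, hs⟩ : ∃ s : Finset Nat.Primes, M < ∑ p ∈ s, (if f p = -1 then 1 / ((p : ℕ) : ℝ) else 0) := by
    by_contra hcon
    push Not at hcon
    exact hd (summable_of_sum_le hnn hcon)
  have ht : Tendsto (fun V : ℝ => ∑ p ∈ s, (if f p = -1 then ((p : ℕ) : ℝ) ^ (-(1 + 1 / V)) else 0)) atTop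
      (𝓝 (∑ p ∈ s, (if f p = -1 then 1 / ((p : ℕ) : ℝ) else 0))) := by
    refine tendsto_finsetSum _ fun p _ => ?_
    have hp : (0 : ℝ) < ((p : ℕ) : ℝ) := by exact_mod_cast p.2.pos
    by_cases h : f p = -1
    · simp only [h, if_true]
      have h1 : Tendsto (fun V : ℝ => -(1 + 1 / V)) atTop (𝓝 (-(1 + 0))) := by
        refine (tendsto_const_nhds.add ?_).neg
        exact tendsto_const_nhds.div_atTop tendsto_id
      have h2 : Tendsto (fun V : ℝ => ((p : ℕ) : ℝ) ^ (-(1 + 1 / V))) atTop (𝓝 (((p : ℕ) : ℝ) ^ (-(1 + 0) : ℝ))) :=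
        (Real.continuous_const_rpow hp.ne').continuousAt.tendsto.comp h1
      have h3 : ((p : ℕ) : ℝ) ^ (-(1 + 0) : ℝ) = 1 / ((p : ℕ) : ℝ) := by
        rw [add_zero, Real.rpow_neg hp.le, Real.rpow_one, one_div]
      rwa [h3] at h2
    · simp only [h, if_false]
      exact tendsto_const_nhds
  have h1 := ht.eventually (lt_mem_nhds hs)
  filter_upwards [h1, eventually_gt_atTop (0 : ℝ)] with V hV hV0
  refine le_trans hV.le ?_
  unfold Neg
  refine Summable.sum_le_tsum s (fun p _ => ?_) ?_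
  · split_ifs
    · exact Real.rpow_nonneg (Nat.cast_nonneg _) _
    · exact le_rfl
  · have h2 : Summable fun p : Nat.Primes => ((p : ℕ) : ℝ) ^ (-(1 + 1 / V)) := by
      rw [Nat.Primes.summable_rpow]
      have : 0 < 1 / V := by positivity
      linarith
    refine Summable.of_nonneg_of_le (fun p => ?_) (fun p => ?_) h2
    · split_ifs
      · exact Real.rpow_nonneg (Nat.cast_nonneg _) _
      · exact le_rfl
    · split_ifs
      · exact le_rfl
      · exact Real.rpow_nonneg (Nat.cast_nonneg _) _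

/-- `V^{3/4} (η V)^{1/4} = η^{1/4} V`. -/
private theorem quarter {V x η : ℝ} (hV : 0 < V) (hη : 0 ≤ η) (hx : 0 ≤ x) (h : x ≤ η ^ 4 * V) :
    V ^ (3 / 4 : ℝ) * x ^ (1 / 4 : ℝ) ≤ η * V := by
  have h1 : x ^ (1 / 4 : ℝ) ≤ (η ^ 4 * V) ^ (1 / 4 : ℝ) := Real.rpow_le_rpow hx h (by norm_num)
  have h2 : (η ^ 4 * V) ^ (1 / 4 : ℝ) = η * V ^ (1 / 4 : ℝ) := by
    rw [Real.mul_rpow (by positivity) hV.le]
    congr 1
    rw [← Real.rpow_natCast, ← Real.rpow_mul hη]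
    norm_num
  have h3 : V ^ (3 / 4 : ℝ) * V ^ (1 / 4 : ℝ) = V := by
    rw [← Real.rpow_add hV]
    norm_num
  calc V ^ (3 / 4 : ℝ) * x ^ (1 / 4 : ℝ) ≤ V ^ (3 / 4 : ℝ) * (η * V ^ (1 / 4 : ℝ)) := by
        rw [← h2]
        exact mul_le_mul_of_nonneg_left h1 (Real.rpow_nonneg hV.le _)
    _ = η * (V ^ (3 / 4 : ℝ) * V ^ (1 / 4 : ℝ)) := by ring
    _ = η * V := by rw [h3]

theorem f_bound {f : ℕ → ℝ} (hf : CMr f) (hd : Div f) {κ : ℝ} (hκ : 0 < κ) : ∃ V₀ : ℝ, 1 ≤ V₀ ∧ ∀ V ≥ V₀, ∀ t : ℝ, |t| ≤ Real.exp (3 * V) →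
    ‖LS (fun n => (f n : ℂ)) (1 + 1 / V) t‖ ≤ κ * V := by
  obtain ⟨Cb, hCb, hbig⟩ := eu_big
  obtain ⟨Cs, hCs, hsmall⟩ := eu_small
  obtain ⟨Cn, hCn, hnear⟩ := zeta_near
  have hη : 0 < κ / Cb := div_pos hκ hCb
  obtain ⟨C1, hC1, hfar⟩ := zeta_far ((κ / Cb) ^ 4 / 2) (by positivity)
  have hK : 0 < Cn / (κ / Cb) ^ 4 := by positivity
  obtain ⟨V1, hV1⟩ := (neg_big hd (Real.log (Cs * Cn * (1 + Cn / (κ / Cb) ^ 4) / κ) / 2)).exists_forall_of_atTop
  have hfin : ∀ V : ℝ, 1 ≤ V → ∀ t x : ℝ, ‖LS (fun _ => 1) (1 + 1 / V) (2 * t)‖ ≤ (κ / Cb) ^ 4 * V →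
      ‖LS (fun n => (f n : ℂ)) (1 + 1 / V) t‖ ≤ κ * V := by
    intro V hV t x hx
    have h1 := hbig f hf V hV t
    have h2 := quarter (V := V) (η := κ / Cb) (by linarith) hη.le (norm_nonneg _) hx
    calc ‖LS (fun n => (f n : ℂ)) (1 + 1 / V) t‖
        ≤ Cb * V ^ (3 / 4 : ℝ) * ‖LS (fun _ => 1) (1 + 1 / V) (2 * t)‖ ^ (1 / 4 : ℝ) := h1
      _ = Cb * (V ^ (3 / 4 : ℝ) * ‖LS (fun _ => 1) (1 + 1 / V) (2 * t)‖ ^ (1 / 4 : ℝ)) := by ring
      _ ≤ Cb * (κ / Cb * V) := mul_le_mul_of_nonneg_left h2 hCb.le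
      _ = κ * V := by
        field_simp
  refine ⟨max 1 (max V1 (C1 / ((κ / Cb) ^ 4 / 2))), le_max_left _ _, fun V hV t ht => ?_⟩
  have hV1' : 1 ≤ V := le_trans (le_max_left _ _) hV
  have hV2 : V1 ≤ V := le_trans (le_trans (le_max_left _ _) (le_max_right _ _)) hV
  have hV3 : C1 / ((κ / Cb) ^ 4 / 2) ≤ V := le_trans (le_trans (le_max_right _ _) (le_max_right _ _)) hV
  have hV0 : 0 < V := by linarith
  rcases le_or_gt 1 |t| with h1 | h1
  · -- large height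
    refine hfin V hV1' t 0 ?_
    have h2 : |2 * t| = 2 * |t| := by rw [abs_mul, abs_two]
    have h3 : 1 ≤ |2 * t| := by rw [h2]; linarith
    have h4 : |2 * t| ≤ Real.exp (4 * V) := by
      rw [h2]
      have h5 : (2 : ℝ) ≤ Real.exp V := by
        have := Real.add_one_le_exp V
        linarith
      have h6 : Real.exp (4 * V) = Real.exp V * Real.exp (3 * V) := by
        rw [← Real.exp_add]
        ring_nf
      rw [h6]
      exact mul_le_mul h5 ht (abs_nonneg _) (Real.exp_pos _).le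
    have h5 := hfar V (2 * t) hV1' h3 h4
    have h6 : C1 ≤ V * ((κ / Cb) ^ 4 / 2) := by
      rwa [div_le_iff₀ (by positivity)] at hV3
    linarith
  · have h2 : |2 * t| = 2 * |t| := by rw [abs_mul, abs_two]
    rcases le_or_gt (Cn / (κ / Cb) ^ 4 / V) |t| with h3 | h3
    · -- middle range
      refine hfin V hV1' t 0 ?_
      obtain ⟨h4, -⟩ := hnear V (2 * t) hV1' (by rw [h2]; linarith)
      have h5 : Cn / (κ / Cb) ^ 4 / V ≤ 1 / V + |2 * t| := by
        rw [h2]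
        have : 0 < 1 / V := by positivity
        have := abs_nonneg t
        linarith
      have h6 : Cn / (κ / Cb) ^ 4 / V * ‖LS (fun _ => 1) (1 + 1 / V) (2 * t)‖ ≤ Cn :=
        le_trans (mul_le_mul_of_nonneg_right h5 (norm_nonneg _)) h4
      have h7 : Cn / (κ / Cb) ^ 4 / V * ‖LS (fun _ => 1) (1 + 1 / V) (2 * t)‖ =
          Cn / ((κ / Cb) ^ 4 * V) * ‖LS (fun _ => 1) (1 + 1 / V) (2 * t)‖ := by
        rw [div_div]
      rw [h7, div_mul_eq_mul_div, div_le_iff₀ (by positivity)] at h6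
      exact le_of_mul_le_mul_left h6 hCn
    · -- small height
      have h4 := (hnear V t hV1' (by linarith)).2
      have h5 := hsmall f hf V hV1' t
      have h6 := hV1 V hV2
      set K := Cn / (κ / Cb) ^ 4 with hKdef
      set L := ‖LS (fun n => (f n : ℂ)) (1 + 1 / V) t‖ with hL
      set Z := ‖LS (fun _ => 1) (1 + 1 / V) t‖ with hZ
      have hL0 : 0 ≤ L := norm_nonneg _
      have hZ0 : 0 ≤ Z := norm_nonneg _
      have h7 : 1 / V + |t| ≤ (1 + K) / V := by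
        rw [add_div]
        linarith
      have h8 : 1 ≤ Cn * ((1 + K) / V * Z) :=
        le_trans h4 (mul_le_mul_of_nonneg_left (mul_le_mul_of_nonneg_right h7 hZ0) hCn.le)
      have h9 : L ≤ Cn * ((1 + K) / V) * (Cs * V ^ 2 * Real.exp (-2 * Neg f V)) := by
        calc L = L * 1 := (mul_one L).symm
          _ ≤ L * (Cn * ((1 + K) / V * Z)) := mul_le_mul_of_nonneg_left h8 hL0
          _ = Cn * ((1 + K) / V) * (L * Z) := by ring
          _ ≤ Cn * ((1 + K) / V) * (Cs * V ^ 2 * Real.exp (-2 * Neg f V)) :=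
            mul_le_mul_of_nonneg_left h5 (by positivity)
      have hA : 0 < Cs * Cn * (1 + K) / κ := by positivity
      have h10 : Real.exp (-2 * Neg f V) ≤ κ / (Cs * Cn * (1 + K)) := by
        have h11 : -2 * Neg f V ≤ -Real.log (Cs * Cn * (1 + K) / κ) := by linarith
        have h12 := Real.exp_le_exp.2 h11
        rw [Real.exp_neg, Real.exp_log hA, inv_div] at h12
        exact h12
      calc L ≤ Cn * ((1 + K) / V) * (Cs * V ^ 2 * Real.exp (-2 * Neg f V)) := h9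
        _ ≤ Cn * ((1 + K) / V) * (Cs * V ^ 2 * (κ / (Cs * Cn * (1 + K)))) := by
          refine mul_le_mul_of_nonneg_left (mul_le_mul_of_nonneg_left h10 (by positivity)) (by positivity)
        _ = κ * V := by
          field_simp

end MRT
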