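import Pool.Agent.MRT.Bas
import Pool.Agent.MEN.Mer

/-!
# MRT-Che: Chebyshev and Mertens bounds in logarithmic intervals
-/

set_option autoImplicit false

namespace MRT

open Finset

/-- Chebyshev. -/
theorem lam_le : ∃ C : ℝ, 0 < C ∧ ∀ u : ℝ, ∑ n ∈ Ic u (u + 1), ArithmeticFunction.vonMangoldt n / (n : ℝ) ≤ C := by
  have hl4 : 0 < Real.log 4 := Real.log_pos (by norm_num)
  refine ⟨(Real.log 4 + 4) * Real.exp 1, by positivity, fun u => ?_⟩
  have hsub : Ic u (u + 1) ⊆ Finset.Ioc 0 ⌊Real.exp (u + 1)⌋₊ := by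
    intro n hn
    have h1 := one_le_of_mem hn
    have h2 := (mem_Ic.1 hn).2
    exact Finset.mem_Ioc.2 ⟨h1, Nat.le_floor h2⟩
  have h1 : ∑ n ∈ Ic u (u + 1), ArithmeticFunction.vonMangoldt n / (n : ℝ) ≤
      ∑ n ∈ Ic u (u + 1), ArithmeticFunction.vonMangoldt n * Real.exp (-u) := by
    refine Finset.sum_le_sum fun n hn => ?_
    have h2 := (mem_Ic.1 hn).1
    have h3 : (n : ℝ)⁻¹ ≤ Real.exp (-u) := by
      rw [Real.exp_neg]
      exact inv_anti₀ (Real.exp_pos u) h2.le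
    rw [div_eq_mul_inv]
    exact mul_le_mul_of_nonneg_left h3 ArithmeticFunction.vonMangoldt_nonneg
  have h2 : ∑ n ∈ Ic u (u + 1), ArithmeticFunction.vonMangoldt n ≤ Chebyshev.psi (Real.exp (u + 1)) :=
    Finset.sum_le_sum_of_subset_of_nonneg hsub fun n _ _ => ArithmeticFunction.vonMangoldt_nonneg
  have h3 := Chebyshev.psi_le_const_mul_self (Real.exp_pos (u + 1)).le
  rw [← Finset.sum_mul] at h1
  have h4 : (∑ n ∈ Ic u (u + 1), ArithmeticFunction.vonMangoldt n) * Real.exp (-u) ≤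
      (Real.log 4 + 4) * Real.exp (u + 1) * Real.exp (-u) :=
    mul_le_mul_of_nonneg_right (h2.trans h3) (Real.exp_pos _).le
  have h5 : Real.exp (u + 1) * Real.exp (-u) = Real.exp 1 := by
    rw [← Real.exp_add]
    congr 1
    ring
  rw [mul_assoc, h5] at h4
  exact h1.trans h4

theorem prime_unit : ∃ C : ℝ, 0 < C ∧ ∀ u : ℝ, 1 ≤ u → ∑ p ∈ (Ic u (u + 1)).filter Nat.Prime, 1 / (p : ℝ) ≤ C / u := by
  obtain ⟨C, hC, h⟩ := lam_le
  refine ⟨C, hC, fun u hu => ?_⟩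
  have hu0 : 0 < u := by linarith
  rw [le_div_iff₀ hu0, Finset.sum_mul]
  refine le_trans ?_ (h u)
  calc ∑ p ∈ (Ic u (u + 1)).filter Nat.Prime, 1 / (p : ℝ) * u
      ≤ ∑ p ∈ (Ic u (u + 1)).filter Nat.Prime, ArithmeticFunction.vonMangoldt p / (p : ℝ) := by
        refine Finset.sum_le_sum fun p hp => ?_
        obtain ⟨h1, h2⟩ := Finset.mem_filter.1 hp
        have hp0 : (0 : ℝ) < p := by exact_mod_cast h2.pos
        have h3 := ((mem_Ic_log h2.one_lt.le).1 h1).1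
        rw [ArithmeticFunction.vonMangoldt_apply_prime h2, one_div, mul_comm, ← div_eq_mul_inv]
        exact div_le_div_of_nonneg_right h3.le hp0.le
    _ ≤ ∑ n ∈ Ic u (u + 1), ArithmeticFunction.vonMangoldt n / (n : ℝ) :=
        Finset.sum_le_sum_of_subset_of_nonneg (Finset.filter_subset _ _) fun n _ _ =>
          div_nonneg ArithmeticFunction.vonMangoldt_nonneg (Nat.cast_nonneg n)

private theorem Ws_eq (a b : ℕ) : Ws (Bk a b) =
    ∑ p ∈ Pool.Agent.Helper52.pr ⌊Real.exp a⌋₊ ⌊Real.exp b⌋₊, 1 / (p : ℝ) := by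
  unfold Ws
  refine Finset.sum_congr ?_ fun _ _ => rfl
  ext p
  unfold Bk
  rw [Finset.mem_filter, mem_Ic, Pool.Agent.Helper52.mem_pr, Nat.floor_lt (Real.exp_pos _).le,
    Nat.le_floor_iff (Real.exp_pos _).le, and_assoc]

private theorem floor_log {a : ℕ} (ha : 1 ≤ a) : 2 ≤ ⌊Real.exp a⌋₊ ∧
    (1 / 4 : ℝ) * a ≤ Real.log ⌊Real.exp a⌋₊ ∧ Real.log ⌊Real.exp a⌋₊ ≤ a := by
  have ha' : (1 : ℝ) ≤ a := by exact_mod_cast ha
  have h1 : (2 : ℝ) ≤ Real.exp a := by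
    have := Real.add_one_le_exp (a : ℝ)
    linarith
  have h2 : 2 ≤ ⌊Real.exp a⌋₊ := Nat.le_floor (by exact_mod_cast h1)
  have h2' : (2 : ℝ) ≤ (⌊Real.exp a⌋₊ : ℝ) := by exact_mod_cast h2
  have h3 : Real.exp a < (⌊Real.exp a⌋₊ : ℝ) + 1 := Nat.lt_floor_add_one _
  have h4 : (⌊Real.exp a⌋₊ : ℝ) ≤ Real.exp a := Nat.floor_le (Real.exp_pos _).le
  refine ⟨h2, ?_, ?_⟩
  · have h5 : Real.exp a / 2 ≤ (⌊Real.exp a⌋₊ : ℝ) := by linarith
    have h6 := Real.log_le_log (by positivity) h5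
    rw [Real.log_div (Real.exp_pos _).ne' (by norm_num), Real.log_exp] at h6
    have h7 := Real.log_two_lt_d9
    have h8 : (3 / 4 : ℝ) * 1 ≤ 3 / 4 * a := by linarith
    linarith
  · rw [Real.log_le_iff_le_exp (by linarith)]
    exact h4

private theorem block_abs : ∃ C : ℝ, 0 < C ∧ ∀ a b : ℕ, 1 ≤ a → a ≤ b →
    |Ws (Bk a b) - Real.log (b / a)| ≤ C := by
  obtain ⟨C, hC, h⟩ := Pool.Agent.MEN.mert_sum
  have hl4 : 0 < Real.log 4 := Real.log_pos (by norm_num)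
  refine ⟨C + Real.log 4, by linarith, fun a b ha hab => ?_⟩
  obtain ⟨h1, h2, h3⟩ := floor_log ha
  obtain ⟨h4, h5, h6⟩ := floor_log (ha.trans hab)
  have ha' : (0 : ℝ) < a := by exact_mod_cast ha
  have hb' : (0 : ℝ) < b := by exact_mod_cast (ha.trans hab)
  have h7 := h ⌊Real.exp a⌋₊ ⌊Real.exp b⌋₊ h1
    (Nat.floor_le_floor (Real.exp_le_exp.2 (by exact_mod_cast hab)))
  rw [← Ws_eq] at h7
  have k1 : Real.log (Real.log ⌊Real.exp a⌋₊) ≤ Real.log a :=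
    Real.log_le_log (by linarith) h3
  have k2 : Real.log (Real.log ⌊Real.exp b⌋₊) ≤ Real.log b :=
    Real.log_le_log (by linarith) h6
  have k3 : Real.log a - Real.log 4 ≤ Real.log (Real.log ⌊Real.exp a⌋₊) := by
    rw [← Real.log_div ha'.ne' (by norm_num)]
    exact Real.log_le_log (by positivity) (by linarith)
  have k4 : Real.log b - Real.log 4 ≤ Real.log (Real.log ⌊Real.exp b⌋₊) := by
    rw [← Real.log_div hb'.ne' (by norm_num)]
    exact Real.log_le_log (by positivity) (by linarith)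
  rw [Real.log_div hb'.ne' ha'.ne']
  rw [abs_le] at h7 ⊢
  constructor <;> linarith [h7.1, h7.2]

theorem block_le : ∃ C : ℝ, 0 < C ∧ ∀ a b : ℕ, 1 ≤ a → a ≤ b → Ws (Bk a b) ≤ C * (1 + Real.log (b / a)) := by
  obtain ⟨C, hC, h⟩ := block_abs
  refine ⟨C + 1, by linarith, fun a b ha hab => ?_⟩
  have h1 := (abs_le.1 (h a b ha hab)).2
  have ha' : (0 : ℝ) < a := by exact_mod_cast ha
  have h2 : 0 ≤ Real.log (b / a) := by
    refine Real.log_nonneg ?_
    rw [one_le_div ha']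
    exact_mod_cast hab
  nlinarith [mul_nonneg hC.le h2]

theorem block_ge : ∃ C : ℝ, 0 < C ∧ ∀ a b : ℕ, 1 ≤ a → a ≤ b → Real.log (b / a) - C ≤ Ws (Bk a b) := by
  obtain ⟨C, hC, h⟩ := block_abs
  refine ⟨C, hC, fun a b ha hab => ?_⟩
  have h1 := (abs_le.1 (h a b ha hab)).1
  linarith

/-- Trivial bounds. -/
theorem block_triv {a b : ℕ} : ((Bk a b).card : ℝ) ≤ Real.exp b ∧ Ws (Bk a b) ≤ b + 1 ∧ 0 ≤ Ws (Bk a b) := by
  refine ⟨?_, ?_, ?_⟩
  · have h1 : Bk a b ⊆ Finset.Ioc 0 ⌊Real.exp (b : ℝ)⌋₊ := by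
      intro p hp
      obtain ⟨h2, h3⟩ := Finset.mem_filter.1 hp
      exact Finset.mem_Ioc.2 ⟨h3.pos, Nat.le_floor (mem_Ic.1 h2).2⟩
    have h2 := Finset.card_le_card h1
    rw [Nat.card_Ioc, Nat.sub_zero] at h2
    exact (Nat.cast_le.2 h2).trans (Nat.floor_le (Real.exp_pos _).le)
  · have hb : (0 : ℝ) ≤ b := Nat.cast_nonneg b
    have ha : (0 : ℝ) ≤ a := Nat.cast_nonneg a
    rcases le_total (a : ℝ) (b : ℝ) with h | h
    · have h1 := sum_inv_Ic_le h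
      have h2 : Ws (Bk a b) ≤ ∑ n ∈ Ic (a : ℝ) (b : ℝ), 1 / (n : ℝ) :=
        Finset.sum_le_sum_of_subset_of_nonneg (Finset.filter_subset _ _) fun n _ _ => by positivity
      linarith
    · have h1 : Bk a b = ∅ := by
        rw [Finset.eq_empty_iff_forall_notMem]
        intro p hp
        obtain ⟨h2, h3⟩ := Finset.mem_filter.1 hp
        have h4 := mem_Ic.1 h2
        have h5 := Real.exp_le_exp.2 h
        linarith [h4.1, h4.2]
      rw [h1]
      unfold Ws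
      rw [Finset.sum_empty]
      linarith
  · exact Finset.sum_nonneg fun p _ => by positivity

/-- Mass of a cell. -/
theorem cell_unit : ∃ a₀ : ℕ, ∀ H c : ℕ, 1 ≤ H → H * a₀ ≤ c → Ws (Cl H c) ≤ 1 := by
  obtain ⟨C, hC, h⟩ := prime_unit
  refine ⟨⌈C⌉₊ + 1, fun H c hH hc => ?_⟩
  have hH' : (1 : ℝ) ≤ H := by exact_mod_cast hH
  have hH0 : (0 : ℝ) < H := by linarith
  have h1 : C + 1 ≤ (c : ℝ) / H := by
    rw [le_div_iff₀ hH0]
    have h2 : ((H * (⌈C⌉₊ + 1) : ℕ) : ℝ) ≤ c := by exact_mod_cast hc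
    push_cast at h2
    have h3 := Nat.le_ceil C
    nlinarith
  have h2 := h ((c : ℝ) / H) (by linarith)
  have h3 : Ws (Cl H c) ≤ ∑ p ∈ (Ic ((c : ℝ) / H) ((c : ℝ) / H + 1)).filter Nat.Prime, 1 / (p : ℝ) := by
    refine Finset.sum_le_sum_of_subset_of_nonneg ?_ fun n _ _ => by positivity
    unfold Cl
    refine Finset.filter_subset_filter _ ?_
    intro n hn
    obtain ⟨h4, h5⟩ := mem_Ic.1 hn
    refine mem_Ic.2 ⟨h4, h5.trans (Real.exp_le_exp.2 ?_)⟩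
    rw [add_div]
    have : 1 / (H : ℝ) ≤ 1 := by rw [div_le_one hH0]; exact hH'
    linarith
  have h4 : C / ((c : ℝ) / H) ≤ 1 := by
    rw [div_le_one (by linarith)]
    linarith
  linarith

end MRT
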