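import Pool.Agent.MRT.KeP
import Pool.Agent.MRT.Che

/-!
# MRT-BrT: Brun–Titchmarsh in cells
-/

set_option autoImplicit false

namespace MRT

open Finset

private theorem bt_SS (ρ : ℕ → ℝ) (H x : ℝ) : ‖SS ρ H x 0‖ =
    ∑ n ∈ Ic (x - 3) (x + 3), (∑ d ∈ n.divisors, ρ d) ^ 2 * (trw H x (Real.log n) / n) := by
  have h1 : SS ρ H x 0 =
      ((∑ n ∈ Ic (x - 3) (x + 3), (∑ d ∈ n.divisors, ρ d) ^ 2 * (trw H x (Real.log n) / n) : ℝ) : ℂ) := by
    unfold SS
    rw [Complex.ofReal_sum]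
    refine Finset.sum_congr rfl fun n _ => ?_
    rw [cp_zero, mul_one]
  rw [h1, Complex.norm_real, Real.norm_eq_abs, abs_of_nonneg]
  refine Finset.sum_nonneg fun n _ => mul_nonneg (sq_nonneg _) (div_nonneg ?_ (Nat.cast_nonneg n))
  unfold trw
  exact le_max_left _ _

private theorem bt_exp {κ H c : ℝ} (hκ : 0 < κ) (hH : 0 < H) (hc : 0 < c) (h : 2 * H ^ 2 / κ ^ 2 ≤ c) :
    Real.exp (-(κ * c / H)) ≤ 1 / c := by
  have h1 : 0 ≤ κ * c / H := by positivity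
  have h2 := Real.quadratic_le_exp_of_nonneg h1
  have h3 : c ≤ (κ * c / H) ^ 2 / 2 := by
    rw [div_pow, div_div, le_div_iff₀ (by positivity)]
    rw [div_le_iff₀ (by positivity)] at h
    calc c * (H ^ 2 * 2) = c * (2 * H ^ 2) := by ring
      _ ≤ c * (c * κ ^ 2) := mul_le_mul_of_nonneg_left h hc.le
      _ = (κ * c) ^ 2 := by ring
  rw [Real.exp_neg, one_div]
  exact inv_anti₀ hc (by linarith)

theorem brun : ∃ C : ℝ, 0 < C ∧ ∀ H : ℕ, 1 ≤ H → ∃ c₀ : ℕ, 1 ≤ c₀ ∧ ∀ c ≥ c₀, Ws (Cl H c) ≤ C / c := by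
  obtain ⟨C, hC, h0⟩ := sieve_sum
  obtain ⟨κ, hκ, hκ8, h1⟩ := h0 1
  refine ⟨C / κ + 1, by positivity, fun H hH => ?_⟩
  have hH1 : (1 : ℝ) ≤ H := by exact_mod_cast hH
  have hH0 : (0 : ℝ) < H := by linarith
  obtain ⟨x₀, hx₀, h2⟩ := h1 H hH1
  refine ⟨⌈H * x₀⌉₊ + ⌈2 * (H : ℝ) ^ 2 / κ ^ 2⌉₊ + 1, by omega, fun c hc => ?_⟩
  have hcr : ((⌈H * x₀⌉₊ + ⌈2 * (H : ℝ) ^ 2 / κ ^ 2⌉₊ + 1 : ℕ) : ℝ) ≤ c := by exact_mod_cast hc
  push_cast at hcr
  have hc1 := Nat.le_ceil ((H : ℝ) * x₀)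
  have hc2 := Nat.le_ceil (2 * (H : ℝ) ^ 2 / κ ^ 2)
  have hc3 : 0 ≤ (H : ℝ) * x₀ := by positivity
  have hc4 : 0 ≤ 2 * (H : ℝ) ^ 2 / κ ^ 2 := by positivity
  have hcc : (1 : ℝ) ≤ c := by linarith
  have hc0 : (0 : ℝ) < c := by linarith
  obtain ⟨x, hx⟩ : ∃ x : ℝ, x = ((c : ℝ) + 1 / 2) / H := ⟨_, rfl⟩
  have hHx : (H : ℝ) * x = c + 1 / 2 := by
    rw [hx]
    field_simp
  have hxx : x₀ ≤ x := by
    rw [hx, le_div_iff₀ hH0]
    linarith
  obtain ⟨ρ, hρ1, hρ0, h3⟩ := h2 x hxx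
  have h4 := h3 0 (by rw [abs_zero]; exact (Real.exp_pos _).le)
  rw [bt_SS] at h4
  have hxp : 0 < x := by linarith
  -- lower bound
  have h5 : Ws (Cl H c) ≤
      ∑ n ∈ Ic (x - 3) (x + 3), (∑ d ∈ n.divisors, ρ d) ^ 2 * (trw H x (Real.log n) / n) := by
    unfold Ws Cl
    refine le_trans ?_ (Finset.sum_le_sum_of_subset_of_nonneg (s := (Ic ((c : ℝ) / H) (((c : ℝ) + 1) / H)).filter
      Nat.Prime) ?_ ?_)
    · refine Finset.sum_le_sum fun p hp => ?_
      obtain ⟨hp1, hp2⟩ := Finset.mem_filter.1 hp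
      obtain ⟨hl, hu⟩ := (mem_Ic_log hp2.one_lt.le).1 hp1
      have hp0 : (0 : ℝ) < p := by exact_mod_cast hp2.pos
      have hl' : (c : ℝ) < H * Real.log p := by
        rw [div_lt_iff₀ hH0] at hl
        linarith
      have hu' : H * Real.log p ≤ (c : ℝ) + 1 := by
        rw [le_div_iff₀ hH0] at hu
        linarith
      have e1 : ∑ d ∈ p.divisors, ρ d = 1 := by
        rw [Nat.Prime.sum_divisors hp2, hρ1, hρ0 p, zero_add]
        rw [← Real.lt_log_iff_exp_lt hp0]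
        refine lt_of_le_of_lt ?_ hl
        rw [le_div_iff₀ hH0]
        calc κ * x * H = κ * (H * x) := by ring
          _ ≤ 1 / 8 * (H * x) := mul_le_mul_of_nonneg_right hκ8 (by positivity)
          _ ≤ c := by rw [hHx]; linarith
      have e2 : 1 ≤ trw H x (Real.log p) := by
        unfold trw
        refine le_trans ?_ (le_max_right _ _)
        have e3 : |(H : ℝ) * (Real.log p - x)| ≤ 1 := by
          rw [mul_sub, hHx, abs_le]
          constructor <;> linarith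
        linarith
      rw [e1, one_pow, one_mul]
      exact div_le_div_of_nonneg_right e2 hp0.le
    · intro p hp
      have hp1 := (Finset.mem_filter.1 hp).1
      obtain ⟨hl, hu⟩ := mem_Ic.1 hp1
      refine mem_Ic.2 ⟨lt_of_le_of_lt (Real.exp_le_exp.2 ?_) hl, hu.trans (Real.exp_le_exp.2 ?_)⟩
      · rw [le_div_iff₀ hH0, sub_mul, mul_comm x, hHx]
        linarith
      · rw [div_le_iff₀ hH0, add_mul, mul_comm x, hHx]
        linarith
    · intro n _ _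
      refine mul_nonneg (sq_nonneg _) (div_nonneg ?_ (Nat.cast_nonneg n))
      unfold trw
      exact le_max_left _ _
  refine (h5.trans h4).trans ?_
  have h6 : C / (κ * x) * (1 / (H : ℝ)) / (1 + (0 / (H : ℝ)) ^ 2) ≤ C / κ / c := by
    have e1 : C / (κ * x) * (1 / (H : ℝ)) / (1 + (0 / (H : ℝ)) ^ 2) = C / κ / (H * x) := by
      rw [zero_div]
      field_simp
      ring
    rw [e1, hHx]
    exact div_le_div_of_nonneg_left (by positivity) hc0 (by linarith)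
  have h7 : Real.exp (-κ * x) ≤ 1 / c := by
    refine le_trans ?_ (bt_exp hκ hH0 hc0 (by linarith))
    apply Real.exp_le_exp.2
    have e1 : κ * c / H ≤ κ * x := by
      rw [div_le_iff₀ hH0]
      calc κ * c ≤ κ * (H * x) := mul_le_mul_of_nonneg_left (by rw [hHx]; linarith) hκ.le
        _ = κ * x * H := by ring
    linarith
  calc C / (κ * x) * (1 / (H : ℝ)) / (1 + (0 / (H : ℝ)) ^ 2) + Real.exp (-κ * x)
      ≤ C / κ / c + 1 / c := add_le_add h6 h7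
    _ = (C / κ + 1) / c := by ring

theorem cell_lam : ∃ C : ℝ, 0 < C ∧ ∀ H : ℕ, 1 ≤ H → ∃ c₀ : ℕ, 1 ≤ c₀ ∧ ∀ c ≥ c₀,
    ∑ n ∈ Ic ((c : ℝ) / H) (((c : ℝ) + 1) / H), ArithmeticFunction.vonMangoldt n / (n : ℝ) ≤ C / H := by
  obtain ⟨C₁, hC₁, h1⟩ := brun
  obtain ⟨C₂, h2⟩ := Chebyshev.psi_sub_theta_le_mul_sqrt
  refine ⟨2 * C₁ + |C₂| * Real.exp (1 / 2), by positivity, fun H hH => ?_⟩
  have hH1 : (1 : ℝ) ≤ H := by exact_mod_cast hH
  have hH0 : (0 : ℝ) < H := by linarith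
  obtain ⟨c₀, hc₀, h3⟩ := h1 H hH
  refine ⟨c₀ + 2 * H ^ 2, by omega, fun c hc => ?_⟩
  have h4 := h3 c (by omega)
  have hc1 : (1 : ℝ) ≤ c := by
    have : 1 ≤ c := by omega
    exact_mod_cast this
  have hc0 : (0 : ℝ) < c := by linarith
  have hc2 : 2 * (H : ℝ) ^ 2 ≤ c := by
    have : 2 * H ^ 2 ≤ c := by omega
    exact_mod_cast this
  rw [← Finset.sum_filter_add_sum_filter_not _ Nat.Prime]
  -- primes
  have hP : ∑ p ∈ (Ic ((c : ℝ) / H) (((c : ℝ) + 1) / H)).filter Nat.Prime,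
      ArithmeticFunction.vonMangoldt p / (p : ℝ) ≤ 2 * C₁ / H := by
    have e1 : ∑ p ∈ (Ic ((c : ℝ) / H) (((c : ℝ) + 1) / H)).filter Nat.Prime,
        ArithmeticFunction.vonMangoldt p / (p : ℝ) ≤ (((c : ℝ) + 1) / H) * Ws (Cl H c) := by
      unfold Ws Cl
      rw [Finset.mul_sum]
      refine Finset.sum_le_sum fun p hp => ?_
      obtain ⟨hp1, hp2⟩ := Finset.mem_filter.1 hp
      have hu := ((mem_Ic_log hp2.one_lt.le).1 hp1).2
      have hp0 : (0 : ℝ) < p := by exact_mod_cast hp2.pos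
      rw [ArithmeticFunction.vonMangoldt_apply_prime hp2, mul_one_div]
      exact div_le_div_of_nonneg_right hu hp0.le
    refine e1.trans ((mul_le_mul_of_nonneg_left h4 (by positivity)).trans ?_)
    have e2 : ((c : ℝ) + 1) / H * (C₁ / c) = (((c : ℝ) + 1) / c) * (C₁ / H) := by
      field_simp
    have e3 : ((c : ℝ) + 1) / c ≤ 2 := by
      rw [div_le_iff₀ hc0]
      linarith
    rw [e2]
    calc (((c : ℝ) + 1) / c) * (C₁ / H) ≤ 2 * (C₁ / H) :=
          mul_le_mul_of_nonneg_right e3 (by positivity)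
      _ = 2 * C₁ / H := by ring
  -- the other prime powers
  have hN : ∑ n ∈ (Ic ((c : ℝ) / H) (((c : ℝ) + 1) / H)).filter (fun n => ¬ n.Prime),
      ArithmeticFunction.vonMangoldt n / (n : ℝ) ≤ |C₂| * Real.exp (1 / 2) / H := by
    have e1 : ∑ n ∈ (Ic ((c : ℝ) / H) (((c : ℝ) + 1) / H)).filter (fun n => ¬ n.Prime),
        ArithmeticFunction.vonMangoldt n / (n : ℝ) ≤
        ∑ n ∈ (Ic ((c : ℝ) / H) (((c : ℝ) + 1) / H)).filter (fun n => ¬ n.Prime),
        ArithmeticFunction.vonMangoldt n * Real.exp (-((c : ℝ) / H)) := by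
      refine Finset.sum_le_sum fun n hn => ?_
      have hl := (mem_Ic.1 (Finset.mem_filter.1 hn).1).1
      have h5 : (n : ℝ)⁻¹ ≤ Real.exp (-((c : ℝ) / H)) := by
        rw [Real.exp_neg]
        exact inv_anti₀ (Real.exp_pos _) hl.le
      rw [div_eq_mul_inv]
      exact mul_le_mul_of_nonneg_left h5 ArithmeticFunction.vonMangoldt_nonneg
    rw [← Finset.sum_mul] at e1
    have e2 : ∑ n ∈ (Ic ((c : ℝ) / H) (((c : ℝ) + 1) / H)).filter (fun n => ¬ n.Prime),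
        ArithmeticFunction.vonMangoldt n ≤ |C₂| * Real.exp ((((c : ℝ) + 1) / H) / 2) := by
      have h5 := h2 (Real.exp (((c : ℝ) + 1) / H))
      rw [Chebyshev.psi_sub_theta_eq_sum_not_prime, ← Real.exp_half] at h5
      refine le_trans ?_ (h5.trans (mul_le_mul_of_nonneg_right (le_abs_self _) (Real.exp_pos _).le))
      refine Finset.sum_le_sum_of_subset_of_nonneg ?_ fun n _ _ => ArithmeticFunction.vonMangoldt_nonneg
      intro n hn
      obtain ⟨hn1, hn2⟩ := Finset.mem_filter.1 hn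
      exact Finset.mem_filter.2 ⟨Finset.mem_Ioc.2 ⟨one_le_of_mem hn1, Nat.le_floor (mem_Ic.1 hn1).2⟩, hn2⟩
    refine e1.trans ((mul_le_mul_of_nonneg_right e2 (Real.exp_pos _).le).trans ?_)
    rw [mul_assoc, ← Real.exp_add]
    have e3 : (((c : ℝ) + 1) / H) / 2 + -((c : ℝ) / H) = 1 / (2 * H) + -((c : ℝ) / (2 * H)) := by
      field_simp
      ring
    rw [e3, Real.exp_add, ← mul_assoc]
    have e4 : Real.exp (1 / (2 * (H : ℝ))) ≤ Real.exp (1 / 2) := by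
      apply Real.exp_le_exp.2
      apply one_div_le_one_div_of_le (by norm_num)
      linarith
    have e5 : Real.exp (-((c : ℝ) / (2 * H))) ≤ 1 / H := by
      rw [Real.exp_neg, one_div]
      apply inv_anti₀ hH0
      have h6 := Real.add_one_le_exp ((c : ℝ) / (2 * H))
      have h7 : (H : ℝ) ≤ (c : ℝ) / (2 * H) := by
        rw [le_div_iff₀ (by positivity)]
        calc (H : ℝ) * (2 * H) = 2 * (H : ℝ) ^ 2 := by ring
          _ ≤ c := hc2
      linarith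
    calc |C₂| * Real.exp (1 / (2 * (H : ℝ))) * Real.exp (-((c : ℝ) / (2 * H)))
        ≤ |C₂| * Real.exp (1 / 2) * (1 / H) :=
          mul_le_mul (mul_le_mul_of_nonneg_left e4 (abs_nonneg _)) e5 (Real.exp_pos _).le (by positivity)
      _ = |C₂| * Real.exp (1 / 2) / H := by ring
  calc _ ≤ 2 * C₁ / H + |C₂| * Real.exp (1 / 2) / H := add_le_add hP hN
    _ = (2 * C₁ + |C₂| * Real.exp (1 / 2)) / H := by ring

end MRT
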