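import Pool.Agent.MRT.HaD
import Pool.Agent.MRT.BrT

/-!
# MRT-HaR: Halász, pointwise from mean

PLAN.  `|∑_{n ∈ Ic w (w+1)} g(n) log n/n - w Ag w| ≤ 2`; `∑ g(n) log n/n = ∑_{d ≤ e^{w+1}} (Λ(d) g(d)/d) Ag (w - log d)` (`n = d m`).  So `w ‖Ag w‖ ≤ ∑_d (Λ(d)/d) ‖Ag (w - log d)‖ + 2`.  `‖Ag u - Ag u'‖ ≤ 2 |u - u'| + 2 e^{-min}` (`sum_inv_Ic`).  Cells `log d ∈ (c/H, (c+1)/H]`:
* `c < c₀(H)` (`cell_lam`): in total `≤ 2 ∑_{d ≤ e^{c₀/H}} Λ(d)/d ≤ C_H`;  * `c + 1 > H w`: `≤ 2 ∑_{log d > w - 1, d ≤ e^{w+1}} Λ(d)/d ≤ C` (`lam_le`);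
* otherwise `‖Ag (w - log d)‖ ≤ H ∫_{w-(c+1)/H}^{w-c/H} ‖Ag u‖ du + 2/H + 2 e^{-(w - (c+1)/H)}`, times `C/H`, sum over `c`: `≤ C ∫_0^w ‖Ag‖ + C (w H + 1) 2/H² + (C/H) ∑_c 2 e^{-(w - (c+1)/H)}`, the last sum is geometric: `≤ C H * 2`.
-/

set_option autoImplicit false

namespace MRT

open MeasureTheory

open Finset

private theorem ag_meas (g : ℕ → ℂ) : Measurable (Ag g) := by
  classical
  have h1 : ∀ N : ℕ, Measurable fun u : ℝ => ∑ n ∈ range N, if Real.exp u < n ∧ (n : ℝ) ≤ Real.exp (u + 1) then g n / n else 0 := by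
    intro N
    refine Finset.measurable_sum _ fun n _ => ?_
    refine Measurable.ite ?_ measurable_const measurable_const
    exact (measurableSet_lt Real.measurable_exp measurable_const).inter
      (measurableSet_le measurable_const (Real.measurable_exp.comp (measurable_id.add_const 1)))
  refine measurable_of_tendsto_metrizable h1 ?_
  rw [tendsto_pi_nhds]
  intro u
  refine tendsto_atTop_of_eventually_const (i₀ := ⌊Real.exp (u + 1)⌋₊ + 1) fun N hN => ?_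
  unfold Ag Ic
  rw [← Finset.sum_filter]
  refine Finset.sum_congr ?_ fun _ _ => rfl
  ext n
  rw [Finset.mem_filter, Finset.mem_filter, Finset.mem_range, Finset.mem_range, Nat.lt_succ_iff,
    Nat.le_floor_iff (Real.exp_pos _).le]
  constructor
  · rintro ⟨_, h1, h2⟩
    exact ⟨h2, h1⟩
  · rintro ⟨h1, h2⟩
    refine ⟨?_, h2, h1⟩
    have := Nat.le_floor h1
    omega

private theorem ag_int {g : ℕ → ℂ} (hg : CMc g) (a b : ℝ) : IntervalIntegrable (fun u => ‖Ag g u‖) volume a b := by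
  refine (intervalIntegrable_const (c := (2 : ℝ))).mono_fun' (ag_meas g).norm.aestronglyMeasurable ?_
  refine Filter.Eventually.of_forall fun u => ?_
  show ‖‖Ag g u‖‖ ≤ 2
  rw [norm_norm]
  exact ag_le hg u

private theorem part_le {g : ℕ → ℂ} (hg : CMc g) {a b : ℝ} (h : a ≤ b) : ‖∑ n ∈ Ic a b, g n / n‖ ≤ (b - a) + Real.exp (-a) := by
  refine (norm_sum_le _ _).trans ?_
  have h1 := (abs_le.1 (sum_inv_Ic h)).2
  have h2 : ∑ n ∈ Ic a b, ‖g n / n‖ ≤ ∑ n ∈ Ic a b, 1 / (n : ℝ) := by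
    refine Finset.sum_le_sum fun n hn => ?_
    rw [norm_div, Complex.norm_natCast]
    exact div_le_div_of_nonneg_right (hg.bd n (one_le_of_mem hn)) (Nat.cast_nonneg n)
  linarith

private theorem Ic_split {a b c : ℝ} (hab : a ≤ b) (hbc : b ≤ c) (F : ℕ → ℂ) :
    ∑ n ∈ Ic a c, F n = ∑ n ∈ Ic a b, F n + ∑ n ∈ Ic b c, F n := by
  rw [← Finset.sum_union]
  · refine Finset.sum_congr ?_ fun _ _ => rfl
    ext n
    rw [Finset.mem_union, mem_Ic, mem_Ic, mem_Ic]
    have h1 := Real.exp_le_exp.2 hab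
    have h2 := Real.exp_le_exp.2 hbc
    constructor
    · rintro ⟨h3, h4⟩
      rcases le_or_gt (n : ℝ) (Real.exp b) with h5 | h5
      · exact Or.inl ⟨h3, h5⟩
      · exact Or.inr ⟨h5, h4⟩
    · rintro (⟨h3, h4⟩ | ⟨h3, h4⟩)
      · exact ⟨h3, h4.trans h2⟩
      · exact ⟨lt_of_le_of_lt h1 h3, h4⟩
  · rw [Finset.disjoint_left]
    intro n h1 h2
    rw [mem_Ic] at h1 h2
    linarith [h1.2, h2.1]

private theorem ag_diff {g : ℕ → ℂ} (hg : CMc g) {u u' : ℝ} (h : u ≤ u') (h' : u' ≤ u + 1) :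
    ‖Ag g u - Ag g u'‖ ≤ 2 * (u' - u) + 2 * Real.exp (-u) := by
  unfold Ag
  rw [Ic_split h h' fun n => g n / n, Ic_split h' (by linarith : u + 1 ≤ u' + 1) fun n => g n / n]
  have e1 : (∑ n ∈ Ic u u', g n / n + ∑ n ∈ Ic u' (u + 1), g n / n) -
      (∑ n ∈ Ic u' (u + 1), g n / n + ∑ n ∈ Ic (u + 1) (u' + 1), g n / n) =
      ∑ n ∈ Ic u u', g n / n - ∑ n ∈ Ic (u + 1) (u' + 1), g n / n := by ring
  rw [e1]
  have h1 := part_le hg h
  have h2 := part_le hg (by linarith : u + 1 ≤ u' + 1)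
  have h3 : Real.exp (-(u + 1)) ≤ Real.exp (-u) := Real.exp_le_exp.2 (by linarith)
  have h4 := norm_sub_le (∑ n ∈ Ic u u', g n / n) (∑ n ∈ Ic (u + 1) (u' + 1), g n / n)
  linarith

private theorem ag_near {g : ℕ → ℂ} (hg : CMc g) {α δ u v : ℝ} (hδ : δ ≤ 1) (hu : α ≤ u) (hu' : u ≤ α + δ) (hv : α ≤ v)
    (hv' : v ≤ α + δ) : ‖Ag g v‖ ≤ ‖Ag g u‖ + (2 * δ + 2 * Real.exp (-α)) := by
  rcases le_total u v with h | h
  · have h1 := ag_diff hg h (by linarith)
    have h2 : Real.exp (-u) ≤ Real.exp (-α) := Real.exp_le_exp.2 (by linarith)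
    have h3 := norm_sub_norm_le (Ag g v) (Ag g u)
    rw [norm_sub_rev] at h3
    linarith
  · have h1 := ag_diff hg h (by linarith)
    have h2 : Real.exp (-v) ≤ Real.exp (-α) := Real.exp_le_exp.2 (by linarith)
    have h3 := norm_sub_norm_le (Ag g v) (Ag g u)
    linarith

private theorem Ic_dvd (a b : ℝ) {d : ℕ} (hd : 0 < d) (F : ℕ → ℂ) :
    ∑ n ∈ (Ic a b).filter (d ∣ ·), F n = ∑ m ∈ Ic (a - Real.log d) (b - Real.log d), F (d * m) := by
  have hd' : (0 : ℝ) < d := by exact_mod_cast hd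
  have e : (Ic a b).filter (d ∣ ·) = (Ic (a - Real.log d) (b - Real.log d)).image (d * ·) := by
    ext n
    rw [Finset.mem_filter, Finset.mem_image]
    constructor
    · rintro ⟨hn, m, rfl⟩
      have h1 := one_le_of_mem hn
      have hm : 1 ≤ m := by
        rcases Nat.eq_zero_or_pos m with h0 | h0
        · rw [h0, mul_zero] at h1
          omega
        · exact h0
      have hm' : (0 : ℝ) < m := by exact_mod_cast hm
      refine ⟨m, ?_, rfl⟩
      rw [mem_Ic_log hm]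
      rw [mem_Ic_log h1, Nat.cast_mul, Real.log_mul hd'.ne' hm'.ne'] at hn
      constructor <;> linarith [hn.1, hn.2]
    · rintro ⟨m, hm, rfl⟩
      have h1 := one_le_of_mem hm
      have hm' : (0 : ℝ) < m := by exact_mod_cast h1
      refine ⟨?_, dvd_mul_right _ _⟩
      rw [mem_Ic_log h1] at hm
      show d * m ∈ Ic a b
      rw [mem_Ic_log (Nat.mul_pos hd h1), Nat.cast_mul, Real.log_mul hd'.ne' hm'.ne']
      constructor <;> linarith [hm.1, hm.2]
  rw [e, Finset.sum_image]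
  intro x _ y _ hxy
  exact Nat.eq_of_mul_eq_mul_left hd hxy

/-- the identity `log = 1 * Λ` -/
private theorem rec_eq {g : ℕ → ℂ} (hg : CMc g) (w : ℝ) :
    ∑ n ∈ Ic w (w + 1), g n * (Real.log n : ℂ) / n =
      ∑ d ∈ Icc 1 ⌊Real.exp (w + 1)⌋₊, (ArithmeticFunction.vonMangoldt d : ℂ) * g d / d * Ag g (w - Real.log d) := by
  have h1 : ∀ n ∈ Ic w (w + 1), g n * (Real.log n : ℂ) / n = ∑ d ∈ n.divisors, (ArithmeticFunction.vonMangoldt d : ℂ) * (g n / n) := by
    intro n _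
    rw [← Finset.sum_mul, ← Complex.ofReal_sum, ArithmeticFunction.vonMangoldt_sum]
    ring
  rw [Finset.sum_congr rfl h1, Finset.sum_comm' (t' := Icc 1 ⌊Real.exp (w + 1)⌋₊) (s' := fun d => (Ic w (w + 1)).filter (d ∣ ·))]
  · refine Finset.sum_congr rfl fun d hd => ?_
    have hd1 : 0 < d := (Finset.mem_Icc.1 hd).1
    rw [Ic_dvd w (w + 1) hd1]
    unfold Ag
    rw [Finset.mul_sum]
    have e1 : w + 1 - Real.log d = w - Real.log d + 1 := by ring
    rw [e1]
    refine Finset.sum_congr rfl fun m hm => ?_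
    have hm1 := one_le_of_mem hm
    rw [hg.mul d m hd1 hm1]
    have hd' : (d : ℂ) ≠ 0 := by exact_mod_cast hd1.ne'
    have hm' : (m : ℂ) ≠ 0 := by
      have : m ≠ 0 := by omega
      exact_mod_cast this
    push_cast
    field_simp
  · intro n d
    rw [Nat.mem_divisors, Finset.mem_filter, Finset.mem_Icc]
    constructor
    · rintro ⟨hn, hdn, hn0⟩
      have hn1 : 0 < n := Nat.pos_of_ne_zero hn0
      refine ⟨⟨hn, hdn⟩, Nat.pos_of_dvd_of_pos hdn hn1, ?_⟩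
      refine Nat.le_floor ?_
      have h2 : (d : ℝ) ≤ n := by exact_mod_cast Nat.le_of_dvd hn1 hdn
      exact h2.trans (mem_Ic.1 hn).2
    · rintro ⟨⟨hn, hdn⟩, _, _⟩
      have := one_le_of_mem hn
      exact ⟨hn, hdn, by omega⟩

private theorem lam_nonneg (d : ℕ) : 0 ≤ ArithmeticFunction.vonMangoldt d := ArithmeticFunction.vonMangoldt_nonneg

private theorem rec_le {g : ℕ → ℂ} (hg : CMc g) {w : ℝ} (hw : 1 ≤ w) :
    w * ‖Ag g w‖ ≤ 2 + ∑ d ∈ Icc 2 ⌊Real.exp (w + 1)⌋₊, ArithmeticFunction.vonMangoldt d / d * ‖Ag g (w - Real.log d)‖ := by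
  have h1 : ‖(w : ℂ) * Ag g w - ∑ n ∈ Ic w (w + 1), g n * (Real.log n : ℂ) / n‖ ≤ 2 := by
    unfold Ag
    rw [Finset.mul_sum, ← Finset.sum_sub_distrib]
    refine (norm_sum_le _ _).trans ?_
    have h2 := sum_inv_Ic_le (show w ≤ w + 1 by linarith)
    refine le_trans (Finset.sum_le_sum fun n hn => ?_) (h2.trans (by linarith))
    have hn1 := one_le_of_mem hn
    have h3 := (mem_Ic_log hn1).1 hn
    have e1 : (w : ℂ) * (g n / n) - g n * (Real.log n : ℂ) / n = g n * (((w - Real.log n : ℝ)) : ℂ) / n := by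
      push_cast
      ring
    rw [e1, norm_div, norm_mul, Complex.norm_natCast, Complex.norm_real, Real.norm_eq_abs]
    refine div_le_div_of_nonneg_right ?_ (Nat.cast_nonneg n)
    have h4 : |w - Real.log n| ≤ 1 := by
      rw [abs_le]
      constructor <;> linarith [h3.1, h3.2]
    calc ‖g n‖ * |w - Real.log n| ≤ 1 * 1 := mul_le_mul (hg.bd n hn1) h4 (abs_nonneg _) zero_le_one
      _ = 1 := one_mul 1
  rw [rec_eq hg] at h1
  have h2 : ‖∑ d ∈ Icc 1 ⌊Real.exp (w + 1)⌋₊, (ArithmeticFunction.vonMangoldt d : ℂ) * g d / d * Ag g (w - Real.log d)‖ ≤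
      ∑ d ∈ Icc 2 ⌊Real.exp (w + 1)⌋₊, ArithmeticFunction.vonMangoldt d / d * ‖Ag g (w - Real.log d)‖ := by
    refine (norm_sum_le _ _).trans ?_
    have h3 : ∑ d ∈ Icc 1 ⌊Real.exp (w + 1)⌋₊, ‖(ArithmeticFunction.vonMangoldt d : ℂ) * g d / d * Ag g (w - Real.log d)‖ ≤
        ∑ d ∈ Icc 1 ⌊Real.exp (w + 1)⌋₊, ArithmeticFunction.vonMangoldt d / d * ‖Ag g (w - Real.log d)‖ := by
      refine Finset.sum_le_sum fun d hd => ?_
      rw [norm_mul, norm_div, norm_mul, Complex.norm_natCast, Complex.norm_real, Real.norm_eq_abs,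
        abs_of_nonneg (lam_nonneg d)]
      refine mul_le_mul_of_nonneg_right (div_le_div_of_nonneg_right ?_ (Nat.cast_nonneg d)) (norm_nonneg _)
      have := mul_le_mul_of_nonneg_left (hg.bd d (Finset.mem_Icc.1 hd).1) (lam_nonneg d)
      linarith
    refine h3.trans (le_of_eq ?_)
    have h4 : Icc 2 ⌊Real.exp (w + 1)⌋₊ ⊆ Icc 1 ⌊Real.exp (w + 1)⌋₊ := Finset.Icc_subset_Icc (by norm_num) le_rfl
    symm
    refine Finset.sum_subset h4 fun d hd hd' => ?_
    have hd1 : d = 1 := by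
      rw [Finset.mem_Icc] at hd hd'
      omega
    rw [hd1, ArithmeticFunction.vonMangoldt_apply_one]
    simp
  have h3 := norm_le_norm_add_norm_sub' ((w : ℂ) * Ag g w)
    (∑ d ∈ Icc 1 ⌊Real.exp (w + 1)⌋₊, (ArithmeticFunction.vonMangoldt d : ℂ) * g d / d * Ag g (w - Real.log d))
  rw [norm_mul, Complex.norm_real, Real.norm_eq_abs, abs_of_nonneg (by linarith)] at h3
  linarith

/-- the integrals over the cells -/
private theorem int_cells {F : ℝ → ℝ} (hF : ∀ a b, IntervalIntegrable F volume a b) (w h : ℝ) (n : ℕ) :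
    ∑ c ∈ range n, ∫ u in (w - ((c : ℝ) + 1) / h)..(w - (c : ℝ) / h), F u = ∫ u in (w - (n : ℝ) / h)..w, F u := by
  induction n with
  | zero => simp
  | succ n ih =>
    rw [Finset.sum_range_succ, ih, add_comm]
    push_cast
    exact intervalIntegral.integral_add_adjacent_intervals (hF _ _) (hF _ _)

private theorem geo_le {H : ℕ} (hH : 1 ≤ H) (n : ℕ) {w : ℝ} (hn : (n : ℝ) ≤ H * w) :
    ∑ c ∈ range n, Real.exp (-(w - ((c : ℝ) + 1) / H)) ≤ H + 1 := by
  have hH' : (0 : ℝ) < H := by exact_mod_cast hH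
  obtain ⟨q, hq⟩ : ∃ q, q = Real.exp (-(1 / (H : ℝ))) := ⟨_, rfl⟩
  have hq0 : 0 < q := by rw [hq]; exact Real.exp_pos _
  have hq1 : q ≤ 1 / (1 + 1 / (H : ℝ)) := by
    rw [hq, Real.exp_neg, ← one_div]
    exact one_div_le_one_div_of_le (by positivity) (by linarith [Real.add_one_le_exp (1 / (H : ℝ))])
  have hq2 : 1 / (1 + 1 / (H : ℝ)) = 1 - 1 / ((H : ℝ) + 1) := by field_simp; ring
  have hq3 : q < 1 := by
    have : 0 < 1 / ((H : ℝ) + 1) := by positivity
    linarith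
  have h1 : ∑ c ∈ range n, Real.exp (-(w - ((c : ℝ) + 1) / H)) ≤ ∑ c ∈ range n, q ^ (n - 1 - c) := by
    refine Finset.sum_le_sum fun c hc => ?_
    have hcn := Finset.mem_range.1 hc
    rw [hq, ← Real.exp_nat_mul, Real.exp_le_exp]
    have e1 : ((n - 1 - c : ℕ) : ℝ) = n - 1 - c := by
      rw [Nat.cast_sub (by omega), Nat.cast_sub (by omega)]
      simp
    rw [e1]
    have h2 : (n : ℝ) / H ≤ w := by
      rw [div_le_iff₀ hH']
      linarith
    have e2 : ((n : ℝ) - 1 - c) * -(1 / (H : ℝ)) = -((n : ℝ) / H) + ((c : ℝ) + 1) / H := by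
      field_simp
      ring
    rw [e2]
    linarith
  have h2 : ∑ c ∈ range n, q ^ (n - 1 - c) = ∑ c ∈ range n, q ^ c := Finset.sum_range_reflect (fun c => q ^ c) n
  have h3 : ∑ c ∈ range n, q ^ c ≤ (1 - q)⁻¹ := by
    rw [← tsum_geometric_of_lt_one hq0.le hq3]
    exact (summable_geometric_of_lt_one hq0.le hq3).sum_le_tsum _ (fun j _ => by positivity)
  have h4 : (1 - q)⁻¹ ≤ H + 1 := by
    rw [inv_le_comm₀ (by linarith) (by positivity), ← one_div]
    linarith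
  linarith

theorem hal_rec : ∃ C : ℝ, 0 < C ∧ ∀ H : ℕ, 1 ≤ H → ∃ C' : ℝ, 0 < C' ∧ ∀ g : ℕ → ℂ, CMc g → ∀ w : ℝ, 1 ≤ w →
    w * ‖Ag g w‖ ≤ C * (∫ u in (0 : ℝ)..w, ‖Ag g u‖) + C * w / H + C' := by
  obtain ⟨K, hK, hcell⟩ := cell_lam
  refine ⟨2 * K, by positivity, fun H hH => ?_⟩
  obtain ⟨c₀, hc₀, hcell⟩ := hcell H hH
  have hH' : (1 : ℝ) ≤ H := by exact_mod_cast hH
  have hH0 : (0 : ℝ) < H := by linarith
  obtain ⟨L, hL⟩ : ∃ L : ℕ → ℝ, ∀ c, L c = ∑ n ∈ Ic ((c : ℝ) / H) (((c : ℝ) + 1) / H), ArithmeticFunction.vonMangoldt n / (n : ℝ) :=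
    ⟨_, fun _ => rfl⟩
  have hL0 : ∀ c, 0 ≤ L c := fun c => by
    rw [hL]
    exact Finset.sum_nonneg fun n _ => div_nonneg (lam_nonneg n) (Nat.cast_nonneg n)
  have hLK : ∀ c ≥ c₀, L c ≤ K / H := fun c hc => by rw [hL]; exact hcell c hc
  have hS0 : 0 ≤ ∑ c ∈ range c₀, 2 * L c := Finset.sum_nonneg fun c _ => by linarith [hL0 c]
  refine ⟨2 + ∑ c ∈ range c₀, 2 * L c + 14 * K, by positivity, fun g hg w hw => ?_⟩
  refine (rec_le hg hw).trans ?_
  obtain ⟨cc, hcc⟩ : ∃ cc : ℕ → ℕ, ∀ d, cc d = ⌈(H : ℝ) * Real.log d⌉₊ - 1 := ⟨_, fun _ => rfl⟩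
  obtain ⟨R, hR⟩ : ∃ R, R = ⌈(H : ℝ) * (w + 1)⌉₊ := ⟨_, rfl⟩
  obtain ⟨n₁, hn₁⟩ : ∃ n₁, n₁ = ⌊(H : ℝ) * w⌋₊ := ⟨_, rfl⟩
  have hd : ∀ d ∈ Icc 2 ⌊Real.exp (w + 1)⌋₊, cc d ∈ range R ∧ d ∈ Ic ((cc d : ℝ) / H) (((cc d : ℝ) + 1) / H) := by
    intro d hd
    obtain ⟨h1, h2⟩ := Finset.mem_Icc.1 hd
    have h3 : (d : ℝ) ≤ Real.exp (w + 1) := (Nat.le_floor_iff (Real.exp_pos _).le).1 h2
    have hd0 : (1 : ℝ) < d := by exact_mod_cast h1
    have h4 : 0 < Real.log d := Real.log_pos hd0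
    have h5 : Real.log d ≤ w + 1 := (Real.log_le_iff_le_exp (by linarith)).2 h3
    have h6 : 0 < ⌈(H : ℝ) * Real.log d⌉₊ := Nat.ceil_pos.2 (by positivity)
    have h7 : ⌈(H : ℝ) * Real.log d⌉₊ ≤ R := by
      rw [hR]
      exact Nat.ceil_le_ceil (mul_le_mul_of_nonneg_left h5 hH0.le)
    have h8 : ((cc d : ℕ) : ℝ) + 1 = ⌈(H : ℝ) * Real.log d⌉₊ := by
      rw [hcc]
      have : ⌈(H : ℝ) * Real.log d⌉₊ - 1 + 1 = ⌈(H : ℝ) * Real.log d⌉₊ := by omega
      exact_mod_cast this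
    refine ⟨Finset.mem_range.2 (by rw [hcc]; omega), ?_⟩
    rw [mem_Ic_log (by omega), div_lt_iff₀ hH0, le_div_iff₀ hH0]
    have h9 := Nat.ceil_lt_add_one (show 0 ≤ (H : ℝ) * Real.log d by positivity)
    have h10 := Nat.le_ceil ((H : ℝ) * Real.log d)
    constructor <;> linarith
  rw [← Finset.sum_fiberwise_of_maps_to (g := cc) (t := range R) fun d hd' => (hd d hd').1]
  obtain ⟨I, hI⟩ : ∃ I : ℕ → ℝ, ∀ c, I c = ∫ u in (w - ((c : ℝ) + 1) / H)..(w - (c : ℝ) / H), ‖Ag g u‖ := ⟨_, fun _ => rfl⟩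
  have hstep : ∀ c : ℕ, w - ((c : ℝ) + 1) / H ≤ w - (c : ℝ) / H := fun c => by
    have : (c : ℝ) / H ≤ ((c : ℝ) + 1) / H := div_le_div_of_nonneg_right (by linarith) hH0.le
    linarith
  have hI0 : ∀ c, 0 ≤ I c := fun c => by
    rw [hI]
    exact intervalIntegral.integral_nonneg (hstep c) fun u _ => norm_nonneg _
  -- one cell
  have hone : ∀ c : ℕ, ∑ d ∈ (Icc 2 ⌊Real.exp (w + 1)⌋₊).filter (fun d => cc d = c),
      ArithmeticFunction.vonMangoldt d / d * ‖Ag g (w - Real.log d)‖ ≤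
      (if c < c₀ then 2 * L c else 0) +
      ((if c < n₁ then K / H * (H * I c + (2 * (1 / H) + 2 * Real.exp (-(w - ((c : ℝ) + 1) / H)))) else 0) +
        if n₁ ≤ c then 2 * (K / H) else 0) := by
    intro c
    have hsub : ∀ B : ℝ, 0 ≤ B → (∀ d ∈ Ic ((c : ℝ) / H) (((c : ℝ) + 1) / H), ‖Ag g (w - Real.log d)‖ ≤ B) →
        ∑ d ∈ (Icc 2 ⌊Real.exp (w + 1)⌋₊).filter (fun d => cc d = c),
          ArithmeticFunction.vonMangoldt d / d * ‖Ag g (w - Real.log d)‖ ≤ L c * B := by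
      intro B hB0 hB
      rw [hL, Finset.sum_mul]
      have h1 : ∀ d ∈ (Icc 2 ⌊Real.exp (w + 1)⌋₊).filter (fun d => cc d = c), d ∈ Ic ((c : ℝ) / H) (((c : ℝ) + 1) / H) := by
        intro d hd'
        obtain ⟨h2, h3⟩ := Finset.mem_filter.1 hd'
        have h4 := (hd d h2).2
        rwa [h3] at h4
      refine (Finset.sum_le_sum fun d hd' => mul_le_mul_of_nonneg_left (hB d (h1 d hd'))
        (div_nonneg (lam_nonneg d) (Nat.cast_nonneg d))).trans ?_
      exact Finset.sum_le_sum_of_subset_of_nonneg h1 fun d _ _ =>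
        mul_nonneg (div_nonneg (lam_nonneg d) (Nat.cast_nonneg d)) hB0
    have hex : 0 < Real.exp (-(w - ((c : ℝ) + 1) / H)) := Real.exp_pos _
    have hB1 : 0 ≤ H * I c + (2 * (1 / H) + 2 * Real.exp (-(w - ((c : ℝ) + 1) / H))) := by
      have := hI0 c
      positivity
    have hQ0 : 0 ≤ if c < n₁ then K / H * (H * I c + (2 * (1 / H) + 2 * Real.exp (-(w - ((c : ℝ) + 1) / H)))) else 0 := by
      split_ifs
      · positivity
      · exact le_rfl
    have hT0 : 0 ≤ if n₁ ≤ c then 2 * (K / H) else 0 := by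
      split_ifs
      · positivity
      · exact le_rfl
    by_cases h1 : c < c₀
    · have h2 := hsub 2 (by norm_num) fun d _ => ag_le hg _
      rw [if_pos h1]
      linarith
    rw [if_neg h1, zero_add]
    have h1' : c₀ ≤ c := not_lt.1 h1
    by_cases h3 : c < n₁
    · rw [if_pos h3, if_neg (by omega), add_zero]
      have hcw : ((c : ℝ) + 1) / H ≤ w := by
        have h4 : ((n₁ : ℕ) : ℝ) ≤ H * w := by
          rw [hn₁]
          exact Nat.floor_le (by positivity)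
        have h5 : (c : ℝ) + 1 ≤ n₁ := by exact_mod_cast h3
        rw [div_le_iff₀ hH0]
        linarith
      refine (hsub _ hB1 fun d hd' => ?_).trans (mul_le_mul_of_nonneg_right (hLK c h1') hB1)
      have hd1 := one_le_of_mem hd'
      obtain ⟨g1, g2⟩ := (mem_Ic_log hd1).1 hd'
      have hδ : 1 / (H : ℝ) ≤ 1 := by
        rw [div_le_one hH0]
        exact hH'
      have hαδ : w - ((c : ℝ) + 1) / H + 1 / H = w - (c : ℝ) / H := by
        field_simp
        ring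
      have hpt : ∀ u ∈ Set.Icc (w - ((c : ℝ) + 1) / H) (w - (c : ℝ) / H),
          ‖Ag g (w - Real.log d)‖ - (2 * (1 / H) + 2 * Real.exp (-(w - ((c : ℝ) + 1) / H))) ≤ ‖Ag g u‖ := by
        intro u hu
        have := ag_near hg hδ (α := w - ((c : ℝ) + 1) / H) (u := u) (v := w - Real.log d) hu.1
          (by rw [hαδ]; exact hu.2) (by linarith) (by rw [hαδ]; linarith)
        linarith
      have hint := intervalIntegral.integral_mono_on (hstep c) intervalIntegrable_const (ag_int hg _ _) hpt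
      rw [intervalIntegral.integral_const, smul_eq_mul, ← hI] at hint
      have e1 : w - (c : ℝ) / H - (w - ((c : ℝ) + 1) / H) = 1 / H := by
        field_simp
        ring
      rw [e1, one_div, inv_mul_le_iff₀ hH0] at hint
      rw [one_div]
      linarith
    · rw [if_neg h3, if_pos (by omega), zero_add]
      have h4 := hsub 2 (by norm_num) fun d _ => ag_le hg _
      have h5 := hLK c h1'
      linarith
  refine (add_le_add le_rfl (Finset.sum_le_sum fun c _ => hone c)).trans ?_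
  rw [Finset.sum_add_distrib, Finset.sum_add_distrib]
  have hn₁R : n₁ ≤ R := by
    rw [hn₁, hR]
    refine (Nat.floor_le_ceil _).trans (Nat.ceil_le_ceil ?_)
    nlinarith
  have hn₁w : (n₁ : ℝ) ≤ H * w := by
    rw [hn₁]
    exact Nat.floor_le (by positivity)
  -- first sum
  have t1 : ∑ c ∈ range R, (if c < c₀ then 2 * L c else 0) ≤ ∑ c ∈ range c₀, 2 * L c := by
    rw [← Finset.sum_filter]
    refine Finset.sum_le_sum_of_subset_of_nonneg (fun c hc => ?_) fun c _ _ => by linarith [hL0 c]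
    exact Finset.mem_range.2 (Finset.mem_filter.1 hc).2
  have t2 : ∑ c ∈ range R, (if c < n₁ then K / H * (H * I c + (2 * (1 / H) + 2 * Real.exp (-(w - ((c : ℝ) + 1) / H)))) else 0) =
      ∑ c ∈ range n₁, K / H * (H * I c + (2 * (1 / H) + 2 * Real.exp (-(w - ((c : ℝ) + 1) / H)))) := by
    rw [← Finset.sum_filter]
    refine Finset.sum_congr ?_ fun _ _ => rfl
    ext c
    rw [Finset.mem_filter, Finset.mem_range, Finset.mem_range]
    omega
  have t3 : ∑ c ∈ range R, (if n₁ ≤ c then 2 * (K / H) else 0) ≤ 6 * K := by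
    rw [← Finset.sum_filter, Finset.sum_const, nsmul_eq_mul]
    have h1 : ((range R).filter fun c => n₁ ≤ c) ⊆ Ico n₁ R := by
      intro c hc
      rw [Finset.mem_filter, Finset.mem_range] at hc
      exact Finset.mem_Ico.2 ⟨hc.2, hc.1⟩
    have h2 := Finset.card_le_card h1
    rw [Nat.card_Ico] at h2
    have h3 : ((R - n₁ : ℕ) : ℝ) ≤ 3 * H := by
      rw [Nat.cast_sub hn₁R]
      have h4 : (R : ℝ) < H * (w + 1) + 1 := by
        rw [hR]
        exact Nat.ceil_lt_add_one (by positivity)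
      have h5 : (H : ℝ) * w < n₁ + 1 := by
        rw [hn₁]
        exact Nat.lt_floor_add_one _
      linarith
    have h4 : ((((range R).filter fun c => n₁ ≤ c).card : ℕ) : ℝ) ≤ 3 * H := by
      refine le_trans ?_ h3
      exact_mod_cast h2
    calc ((((range R).filter fun c => n₁ ≤ c).card : ℕ) : ℝ) * (2 * (K / H)) ≤ 3 * H * (2 * (K / H)) :=
          mul_le_mul_of_nonneg_right h4 (by positivity)
      _ = 6 * K := by
        field_simp
        ring
  have t4 : ∑ c ∈ range n₁, K / H * (H * I c + (2 * (1 / H) + 2 * Real.exp (-(w - ((c : ℝ) + 1) / H)))) =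
      K * ∑ c ∈ range n₁, I c + n₁ * (K / H * (2 * (1 / H))) +
        K / H * (2 * ∑ c ∈ range n₁, Real.exp (-(w - ((c : ℝ) + 1) / H))) := by
    rw [Finset.mul_sum, Finset.mul_sum, Finset.mul_sum]
    have : (n₁ : ℝ) * (K / H * (2 * (1 / H))) = ∑ _c ∈ range n₁, K / H * (2 * (1 / H)) := by
      rw [Finset.sum_const, Finset.card_range, nsmul_eq_mul]
    rw [this, ← Finset.sum_add_distrib, ← Finset.sum_add_distrib]
    refine Finset.sum_congr rfl fun c _ => ?_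
    field_simp
    ring
  have t5 : ∑ c ∈ range n₁, I c ≤ ∫ u in (0 : ℝ)..w, ‖Ag g u‖ := by
    rw [Finset.sum_congr rfl fun c _ => hI c, int_cells (ag_int hg) w H n₁]
    have h1 : (n₁ : ℝ) / H ≤ w := by
      rw [div_le_iff₀ hH0]
      linarith
    refine intervalIntegral.integral_mono_interval (by linarith) (by
      have : 0 ≤ (n₁ : ℝ) / H := by positivity
      linarith) le_rfl (Filter.Eventually.of_forall fun u => norm_nonneg _) (ag_int hg _ _)
  have t6 := geo_le hH n₁ hn₁w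
  have t7 : (n₁ : ℝ) * (K / H * (2 * (1 / H))) ≤ 2 * K * w / H := by
    calc (n₁ : ℝ) * (K / H * (2 * (1 / H))) ≤ H * w * (K / H * (2 * (1 / H))) :=
          mul_le_mul_of_nonneg_right hn₁w (by positivity)
      _ = 2 * K * w / H := by field_simp
  have t8 : K / H * (2 * ∑ c ∈ range n₁, Real.exp (-(w - ((c : ℝ) + 1) / H))) ≤ 4 * K := by
    calc K / H * (2 * ∑ c ∈ range n₁, Real.exp (-(w - ((c : ℝ) + 1) / H))) ≤ K / H * (2 * (2 * H)) := by
          apply mul_le_mul_of_nonneg_left _ (by positivity)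
          linarith
      _ = 4 * K := by
        field_simp
        ring
  have t9 : 0 ≤ ∫ u in (0 : ℝ)..w, ‖Ag g u‖ := intervalIntegral.integral_nonneg (by linarith) fun u _ => norm_nonneg _
  rw [t2, t4]
  have t10 := mul_le_mul_of_nonneg_left t5 hK.le
  nlinarith [mul_nonneg hK.le t9]

end MRT
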