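import Pool.Agent.MRT.HaE
import Pool.Agent.MRT.HaR
import Pool.Agent.MRT.FBd

/-!
# MRT-HaF: Halász's theorem for logarithmic means; real functions

`hal_rec` and the mean square bound `hal_L2` (`x ≤ x² / (2s) + s / 2`); then the twisted real function, `f_bound`.
-/

set_option autoImplicit false

namespace MRT

open MeasureTheory in
private theorem hf_int {g : ℕ → ℂ} (hg : CMc g) {V s : ℝ} (hV : 0 ≤ V) (hs : 0 < s)
    (h : ∫ u in (0 : ℝ)..V, ‖Ag g u‖ ^ 2 ≤ s ^ 2 * V) :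
    ∫ u in (0 : ℝ)..V, ‖Ag g u‖ ≤ s * V := by
  by_cases hi : IntervalIntegrable (fun u => ‖Ag g u‖) volume 0 V
  · have hi2 : IntervalIntegrable (fun u => ‖Ag g u‖ ^ 2) volume 0 V := by
      rw [intervalIntegrable_iff_integrableOn_Ioc_of_le hV]
      refine Integrable.of_bound (hi.aestronglyMeasurable.pow 2) 4 ?_
      refine Filter.Eventually.of_forall fun u => ?_
      have h1 := ag_le hg u
      have h2 := norm_nonneg (Ag g u)
      show ‖‖Ag g u‖ ^ 2‖ ≤ 4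
      rw [Real.norm_of_nonneg (by positivity)]
      nlinarith
    have h3 : ∫ u in (0 : ℝ)..V, ‖Ag g u‖ ≤
        ∫ u in (0 : ℝ)..V, ((1 / (2 * s)) * ‖Ag g u‖ ^ 2 + s / 2) := by
      refine intervalIntegral.integral_mono_on hV hi
        ((hi2.const_mul _).add intervalIntegrable_const) fun u _ => ?_
      have h4 : 0 ≤ (‖Ag g u‖ - s) ^ 2 / (2 * s) := by positivity
      have h5 : (‖Ag g u‖ - s) ^ 2 / (2 * s) =
          (1 / (2 * s)) * ‖Ag g u‖ ^ 2 + s / 2 - ‖Ag g u‖ := by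
        field_simp
        ring
      linarith
    rw [intervalIntegral.integral_add (hi2.const_mul _) intervalIntegrable_const,
      intervalIntegral.integral_const_mul, intervalIntegral.integral_const, smul_eq_mul,
      sub_zero] at h3
    have h6 : (1 / (2 * s)) * ∫ u in (0 : ℝ)..V, ‖Ag g u‖ ^ 2 ≤ (1 / (2 * s)) * (s ^ 2 * V) :=
      mul_le_mul_of_nonneg_left h (by positivity)
    have h7 : (1 / (2 * s)) * (s ^ 2 * V) = s * V / 2 := by
      field_simp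
    have h8 : V * (s / 2) = s * V / 2 := by ring
    linarith
  · rw [intervalIntegral.integral_undef hi]
    positivity

theorem halasz (κ : ℝ) (hκ : 0 < κ) : ∃ κ' : ℝ, 0 < κ' ∧ ∃ L V₀ : ℝ, 1 ≤ L ∧ 1 ≤ V₀ ∧ ∀ V ≥ V₀, ∀ g : ℕ → ℂ, CMc g →
    (∀ τ : ℝ, |τ| ≤ L → ‖LS g (1 + 1 / V) τ‖ ≤ κ' * V) → ‖Ag g V‖ ≤ κ := by
  obtain ⟨C, hC, H1⟩ := hal_rec
  obtain ⟨H, hH⟩ := exists_nat_ge (max 1 (4 * C / κ))
  have hH1' : (1 : ℝ) ≤ H := (le_max_left _ _).trans hH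
  have hH1 : 1 ≤ H := by exact_mod_cast hH1'
  have hH2 : 4 * C / κ ≤ H := (le_max_right _ _).trans hH
  obtain ⟨C', hC', H2⟩ := H1 H hH1
  obtain ⟨s, hs, hCs⟩ : ∃ s : ℝ, 0 < s ∧ C * s = κ / 4 :=
    ⟨κ / (4 * C), by positivity, by field_simp⟩
  obtain ⟨κ', hκ', L, V₀, hL, hV₀, H3⟩ := hal_L2 (s ^ 2) (by positivity)
  refine ⟨κ', hκ', L, max V₀ (4 * C' / κ), hL, hV₀.trans (le_max_left _ _), ?_⟩
  intro V hV g hg hLS
  have hV1 : V₀ ≤ V := (le_max_left _ _).trans hV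
  have hV2 : 4 * C' / κ ≤ V := (le_max_right _ _).trans hV
  have hV3 : 1 ≤ V := hV₀.trans hV1
  have hV0 : 0 < V := by linarith
  have h1 := hf_int hg hV0.le hs (H3 V hV1 g hg hLS)
  have h2 := H2 g hg V hV3
  have h3 : C * (∫ u in (0 : ℝ)..V, ‖Ag g u‖) ≤ κ / 4 * V := by
    rw [← hCs, mul_assoc]
    exact mul_le_mul_of_nonneg_left h1 hC.le
  have hH0 : (0 : ℝ) < H := by linarith
  have h4 : C * V / H ≤ κ / 4 * V := by
    rw [div_le_iff₀ hH0]
    rw [div_le_iff₀ hκ] at hH2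
    nlinarith
  have h5 : C' ≤ κ / 4 * V := by
    rw [div_le_iff₀ hκ] at hV2
    linarith
  have h6 : V * ‖Ag g V‖ ≤ V * κ := by
    have h7 : 0 < κ * V := by positivity
    linarith
  exact le_of_mul_le_mul_left h6 hV0

theorem hal_f {f : ℕ → ℝ} (hf : CMr f) (hd : Div f) {κ : ℝ} (hκ : 0 < κ) : ∃ v₀ : ℝ, ∀ v ≥ v₀, ∀ t : ℝ, |t| ≤ Real.exp (2 * v) → ‖Av f v t‖ ≤ κ := by
  obtain ⟨κ', hκ', L, V₀, hL, hV₀, H1⟩ := halasz κ hκ
  obtain ⟨V₁, hV₁, H2⟩ := f_bound hf hd hκ'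
  refine ⟨max (max V₀ V₁) L, fun v hv t ht => ?_⟩
  have hv0 : V₀ ≤ v := ((le_max_left _ _).trans (le_max_left _ _)).trans hv
  have hv1 : V₁ ≤ v := ((le_max_right _ _).trans (le_max_left _ _)).trans hv
  have hvL : L ≤ v := (le_max_right _ _).trans hv
  rw [av_eq]
  refine H1 v hv0 _ (cmc_twist hf t) fun τ hτ => ?_
  rw [ls_twist (fun n => (f n : ℂ)) (1 + 1 / v) t τ]
  refine H2 v hv1 (t + τ) ?_
  have h1 : |t + τ| ≤ |t| + |τ| := abs_add_le t τ
  have h2 : Real.exp (3 * v) = Real.exp (2 * v) * Real.exp v := by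
    rw [← Real.exp_add]
    congr 1
    ring
  have h3 : v + 1 ≤ Real.exp v := Real.add_one_le_exp v
  have h4 : 1 ≤ Real.exp (2 * v) := Real.one_le_exp (by linarith)
  have h5 : Real.exp (2 * v) * (v + 1) ≤ Real.exp (2 * v) * Real.exp v :=
    mul_le_mul_of_nonneg_left h3 (Real.exp_pos _).le
  have h6 : 1 * v ≤ Real.exp (2 * v) * v := mul_le_mul_of_nonneg_right h4 (by linarith)
  rw [h2]
  linarith

end MRT
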