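import Pool.Agent.MRT.UpA
import Pool.Agent.MRT.HaF

/-!
# MRT-UpB: the exceptional set
-/

set_option autoImplicit false

namespace MRT

open Finset MeasureTheory

private theorem ub_exp5 : (100 : ℝ) ≤ Real.exp 5 := by
  have h1 : (2.7 : ℝ) ≤ Real.exp 1 := by
    have := Real.exp_one_gt_d9
    linarith
  have h2 : Real.exp 5 = Real.exp 1 ^ 5 := by
    rw [← Real.exp_nat_mul]
    norm_num
  rw [h2]
  calc (100 : ℝ) ≤ 2.7 ^ 5 := by norm_num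
    _ ≤ Real.exp 1 ^ 5 := pow_le_pow_left₀ (by norm_num) h1 5

/-- the block -/
private theorem ub_block {M v : ℝ} (hM : 5 ≤ M) (hv : 100 ≤ v) (hv2 : 1 ≤ Real.exp (-M) * v) :
    1 ≤ ⌈Real.exp (-M) * v⌉₊ ∧ ⌈Real.exp (-M) * v⌉₊ < ⌊3 * v / 100⌋₊ ∧
      M - 5 ≤ Real.log ((⌊3 * v / 100⌋₊ : ℝ) / (⌈Real.exp (-M) * v⌉₊ : ℝ)) := by
  have h1 : (0 : ℝ) < Real.exp (-M) * v := by linarith
  have ha1 : (⌈Real.exp (-M) * v⌉₊ : ℝ) < Real.exp (-M) * v + 1 := Nat.ceil_lt_add_one h1.le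
  have ha0 : 0 < ⌈Real.exp (-M) * v⌉₊ := Nat.ceil_pos.2 h1
  have hb1 : 3 * v / 100 < (⌊3 * v / 100⌋₊ : ℝ) + 1 := Nat.lt_floor_add_one _
  have ha2 : (⌈Real.exp (-M) * v⌉₊ : ℝ) ≤ 2 * (Real.exp (-M) * v) := by linarith
  have hb2 : v / 50 ≤ (⌊3 * v / 100⌋₊ : ℝ) := by linarith
  have hb3 : v / 50 < (⌊3 * v / 100⌋₊ : ℝ) + 1 := by linarith
  have he : Real.exp (-M) ≤ 1 / 100 := by
    have h2 : Real.exp (-M) ≤ Real.exp (-5) := Real.exp_le_exp.2 (by linarith)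
    have h3 : Real.exp (-5) ≤ 1 / 100 := by
      rw [Real.exp_neg, ← one_div]
      exact one_div_le_one_div_of_le (by norm_num) ub_exp5
    linarith
  have ha3 : (⌈Real.exp (-M) * v⌉₊ : ℝ) < (⌊3 * v / 100⌋₊ : ℝ) := by
    have h4 : Real.exp (-M) * v ≤ 1 / 100 * v := mul_le_mul_of_nonneg_right he (by linarith)
    linarith
  have ha0' : (0 : ℝ) < (⌈Real.exp (-M) * v⌉₊ : ℝ) := by exact_mod_cast ha0
  have hb0' : (0 : ℝ) < (⌊3 * v / 100⌋₊ : ℝ) := ha0'.trans ha3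
  refine ⟨ha0, by exact_mod_cast ha3, ?_⟩
  rw [Real.le_log_iff_exp_le (div_pos hb0' ha0'), le_div_iff₀ ha0']
  have h5 : Real.exp (M - 5) * Real.exp 5 * Real.exp (-M) = 1 := by
    rw [← Real.exp_add, ← Real.exp_add]
    have h6 : M - 5 + 5 + -M = 0 := by ring
    rw [h6, Real.exp_zero]
  have h7 : Real.exp (M - 5) * Real.exp (-M) ≤ 1 / 100 := by
    have h8 : Real.exp (M - 5) * Real.exp (-M) * 100 ≤ Real.exp (M - 5) * Real.exp (-M) * Real.exp 5 :=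
      mul_le_mul_of_nonneg_left ub_exp5 (by positivity)
    have h9 : Real.exp (M - 5) * Real.exp (-M) * Real.exp 5 = 1 := by
      rw [← h5]
      ring
    rw [h9] at h8
    linarith
  calc Real.exp (M - 5) * (⌈Real.exp (-M) * v⌉₊ : ℝ) ≤ Real.exp (M - 5) * (2 * (Real.exp (-M) * v)) :=
        mul_le_mul_of_nonneg_left ha2 (Real.exp_pos _).le
    _ = Real.exp (M - 5) * Real.exp (-M) * (2 * v) := by ring
    _ ≤ 1 / 100 * (2 * v) := mul_le_mul_of_nonneg_right h7 (by linarith)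
    _ = v / 50 := by ring
    _ ≤ _ := hb2

/-- the final estimate -/
private theorem ub_num {C W H L θ C₁ κ R ε : ℝ} (hC : 0 < C) (hε : 0 < ε) (hW : 4 * C / ε ≤ W) (hW1 : 1 ≤ W)
    (hH : 4 * C / ε ≤ H) (hL : 0 ≤ L) (hL3 : 1 + L ≤ 3 * W) (hθ : θ ^ 2 = ε / (36 * C))
    (hκ : C₁ ^ 2 * κ ^ 2 * R = ε / (36 * C)) :
    C * (1 / W + 1 / H) + C * ((1 + L) / W) ^ 2 * (θ ^ 2 + C₁ ^ 2 * κ ^ 2 * R) ≤ ε := by
  have hW0 : 0 < W := by linarith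
  have hH0 : 0 < H := lt_of_lt_of_le (by positivity) hH
  have h1 : C * (1 / W) ≤ ε / 4 := by
    rw [mul_one_div, div_le_iff₀ hW0]
    rw [div_le_iff₀ hε] at hW
    linarith
  have h2 : C * (1 / H) ≤ ε / 4 := by
    rw [mul_one_div, div_le_iff₀ hH0]
    rw [div_le_iff₀ hε] at hH
    linarith
  have h3 : ((1 + L) / W) ^ 2 ≤ 9 := by
    have h4 : (1 + L) / W ≤ 3 := by
      rw [div_le_iff₀ hW0]
      exact hL3
    have h5 : 0 ≤ (1 + L) / W := by positivity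
    nlinarith
  rw [hθ, hκ]
  have h6 : C * ((1 + L) / W) ^ 2 * (ε / (36 * C) + ε / (36 * C)) ≤ ε / 2 := by
    have h7 : C * ((1 + L) / W) ^ 2 * (ε / (36 * C) + ε / (36 * C)) = ((1 + L) / W) ^ 2 * (ε / 18) := by
      field_simp
      ring
    rw [h7]
    have h8 : ((1 + L) / W) ^ 2 * (ε / 18) ≤ 9 * (ε / 18) := mul_le_mul_of_nonneg_right h3 (by positivity)
    linarith
  rw [mul_add]
  linarith

theorem up_all {f : ℕ → ℝ} (hf : CMr f) (hd : Div f) {ε : ℝ} (hε : 0 < ε) : ∃ v₀ : ℝ, ∀ v ≥ v₀,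
    ∀ U : Set ℝ, MeasurableSet U → U ⊆ Set.Icc (-Real.exp v) (Real.exp v) →
    (∀ 𝒯 : Finset ℝ, Sp 𝒯 → (∀ t ∈ 𝒯, t ∈ U) → (𝒯.card : ℝ) ≤ Real.exp (9 / 20 * v)) → ∫ t in U, ‖Av f v t‖ ^ 2 ≤ ε := by
  obtain ⟨C, hC, hup⟩ := up_one
  obtain ⟨D, hD, hblk⟩ := block_ge
  obtain ⟨C₂, hC₂, hbr⟩ := brun
  obtain ⟨M, hM⟩ : ∃ M : ℝ, M = 5 + (1 + 3 * D) + (D + 1 + 4 * C / ε) := ⟨_, rfl⟩
  have hCε : 0 < 4 * C / ε := by positivity
  have hM5 : 5 ≤ M := by linarith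
  obtain ⟨H, hH1, hHε⟩ : ∃ H : ℕ, 1 ≤ H ∧ 4 * C / ε ≤ H := by
    refine ⟨⌈4 * C / ε⌉₊, Nat.ceil_pos.2 hCε, Nat.le_ceil _⟩
  have hH1r : (1 : ℝ) ≤ H := by exact_mod_cast hH1
  have hH0r : (0 : ℝ) < H := by linarith
  obtain ⟨c₀, hc₀, hbrc⟩ := hbr H hH1
  obtain ⟨θ, hθ0, hθ⟩ : ∃ θ : ℝ, 0 < θ ∧ θ ^ 2 = ε / (36 * C) :=
    ⟨√(ε / (36 * C)), Real.sqrt_pos.2 (by positivity), Real.sq_sqrt (by positivity)⟩
  have he0 : 0 < Real.exp (-M) := Real.exp_pos _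
  obtain ⟨R, hR0, v₁, hR⟩ := hmp (Real.exp (-M)) θ he0 hθ0 H hH1
  obtain ⟨C₁, hC₁1, hC₁2⟩ : ∃ C₁ : ℝ, 1 ≤ C₁ ∧ C₂ ≤ C₁ := ⟨max 1 C₂, le_max_left _ _, le_max_right _ _⟩
  have hC₁0 : 0 < C₁ := by linarith
  obtain ⟨κ, hκ0, hκ⟩ : ∃ κ : ℝ, 0 < κ ∧ κ ^ 2 = ε / (36 * C * C₁ ^ 2 * R) :=
    ⟨√(ε / (36 * C * C₁ ^ 2 * R)), Real.sqrt_pos.2 (by positivity), Real.sq_sqrt (by positivity)⟩
  have hκ' : C₁ ^ 2 * κ ^ 2 * R = ε / (36 * C) := by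
    rw [hκ]
    field_simp
  obtain ⟨v₂, hal⟩ := hal_f hf hd hκ0
  refine ⟨100 + 1 / Real.exp (-M) + |v₁| + 2 * |v₂| + c₀ / Real.exp (-M) + 2 * H, ?_⟩
  intro v hv U hU1 hU2 hU3
  have p1 : 0 ≤ 1 / Real.exp (-M) := by positivity
  have p2 : 0 ≤ |v₁| := abs_nonneg _
  have p3 : 0 ≤ |v₂| := abs_nonneg _
  have p4 : 0 ≤ (c₀ : ℝ) / Real.exp (-M) := by positivity
  have hv100 : 100 ≤ v := by linarith
  have hv1 : 1 ≤ Real.exp (-M) * v := by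
    have h1 : 1 / Real.exp (-M) ≤ v := by linarith
    rw [div_le_iff₀ he0] at h1
    linarith
  have hvv1 : v₁ ≤ v := by
    have := le_abs_self v₁
    linarith
  have hvv2 : 2 * |v₂| ≤ v := by linarith
  have hvc : (c₀ : ℝ) ≤ Real.exp (-M) * v := by
    have h1 : (c₀ : ℝ) / Real.exp (-M) ≤ v := by linarith
    rw [div_le_iff₀ he0] at h1
    linarith
  have hvH : 2 * (H : ℝ) ≤ v := by linarith
  obtain ⟨ha1, hab, hlog⟩ := ub_block hM5 hv100 hv1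
  have ha2 : Real.exp (-M) * v ≤ (⌈Real.exp (-M) * v⌉₊ : ℝ) := Nat.le_ceil _
  have hb2 : (⌊3 * v / 100⌋₊ : ℝ) ≤ 3 * v / 100 := Nat.floor_le (by linarith)
  obtain ⟨a, ha⟩ : ∃ a : ℕ, a = ⌈Real.exp (-M) * v⌉₊ := ⟨_, rfl⟩
  obtain ⟨b, hb⟩ : ∃ b : ℕ, b = ⌊3 * v / 100⌋₊ := ⟨_, rfl⟩
  rw [← ha] at ha1 hab hlog ha2
  rw [← hb] at hab hlog hb2
  have hW := hblk a b ha1 hab.le
  obtain ⟨L, hL⟩ : ∃ L : ℝ, L = Real.log ((b : ℝ) / a) := ⟨_, rfl⟩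
  rw [← hL] at hlog hW
  have hL0 : 0 ≤ L := by linarith
  have hW1 : 1 ≤ Ws (Bk a b) := by linarith
  -- the cells
  have hcell : ∀ c ∈ Ico (H * a) (H * b), Real.exp (-M) * v * H ≤ c ∧ (c : ℝ) < H * (3 * v / 100) := by
    intro c hc
    obtain ⟨hc1, hc2⟩ := Finset.mem_Ico.1 hc
    have hc1' : (H : ℝ) * a ≤ c := by exact_mod_cast hc1
    have hc2' : (c : ℝ) < H * b := by exact_mod_cast hc2
    constructor
    · have h1 : (H : ℝ) * (Real.exp (-M) * v) ≤ H * a := mul_le_mul_of_nonneg_left ha2 hH0r.le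
      linarith
    · have h1 : (H : ℝ) * b ≤ H * (3 * v / 100) := mul_le_mul_of_nonneg_left hb2 hH0r.le
      linarith
  have key := hup f hf H a b hH1 ha1 hab hW1 v (by linarith) (by linarith) (by
      have h1 : Real.exp (2 * (b : ℝ)) ≤ Real.exp (v / 2) := Real.exp_le_exp.2 (by linarith)
      have h2 : (H : ℝ) ≤ Real.exp (v / 2) := by
        have h3 := Real.add_one_le_exp (v / 2)
        linarith
      calc Real.exp (2 * (b : ℝ)) * H ≤ Real.exp (v / 2) * Real.exp (v / 2) :=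
            mul_le_mul h1 h2 hH0r.le (Real.exp_pos _).le
        _ = Real.exp v := by
          rw [← Real.exp_add]
          congr 1
          ring) C₁ κ θ R hC₁1 hκ0.le hθ0 hR0.le
    (by
      intro c hc
      obtain ⟨h1, h2⟩ := hcell c hc
      have hcc : c₀ ≤ c := by
        have h3 : Real.exp (-M) * v * 1 ≤ Real.exp (-M) * v * H := mul_le_mul_of_nonneg_left hH1r (by linarith)
        have h4 : (c₀ : ℝ) ≤ c := by linarith
        exact_mod_cast h4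
      have hc0 : (0 : ℝ) < c := by
        have : 0 < c := by omega
        exact_mod_cast this
      exact (hbrc c hcc).trans (div_le_div_of_nonneg_right hC₁2 hc0.le))
    (by
      intro c hc t ht
      obtain ⟨h1, h2⟩ := hcell c hc
      have h3 : (c : ℝ) / H ≤ 3 * v / 100 := by
        rw [div_le_iff₀ hH0r]
        linarith
      have h4 := le_abs_self v₂
      refine hal (v - (c : ℝ) / H) (by linarith) t (ht.trans (Real.exp_le_exp.2 (by linarith))))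
    (by
      intro c hc 𝒯 hsp h𝒯
      obtain ⟨h1, h2⟩ := hcell c hc
      refine hR v hvv1 f hf c h1 ?_ 𝒯 hsp h𝒯
      have h3 : (H : ℝ) * (3 * v / 100) ≤ H * v := mul_le_mul_of_nonneg_left (by linarith) hH0r.le
      linarith)
    U hU1 hU2 hU3
  rw [← hL] at key
  exact key.trans (ub_num hC hε (by linarith) hW1 hHε hL0 (by linarith) hθ hκ')

end MRT
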