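import Pool.Agent.MRT.ItC
import Pool.Agent.MRT.UpB

/-!
# MRT-MrM: mean square of `A_v`

PLAN.  `iter` (`ε/2`) and `up_all` (`ε/2`); `∫_{-T}^T = ∫_{[-T,T] \ U} + ∫_U`.
-/

set_option autoImplicit false

namespace MRT

open MeasureTheory

theorem mr_main {f : ℕ → ℝ} (hf : CMr f) (hd : Div f) {ε : ℝ} (hε : 0 < ε) : ∃ h₀ v₀ : ℝ, 1 ≤ h₀ ∧ ∀ v ≥ v₀, ∀ T : ℝ, 1 ≤ T → T * h₀ ≤ Real.exp v →
    ∫ t in (-T)..T, ‖Av f v t‖ ^ 2 ≤ ε := by
  obtain ⟨h₀, v₁, hh, h1⟩ := iter (ε / 2) (by positivity)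
  obtain ⟨v₂, h2⟩ := up_all hf hd (ε := ε / 2) (by positivity)
  refine ⟨h₀, max v₁ v₂, hh, fun v hv T hT hTv => ?_⟩
  obtain ⟨U, hU, hUT, hcard, hint⟩ := h1 v ((le_max_left _ _).trans hv) f hf T hT hTv
  have hTe : T ≤ Real.exp v := (le_mul_of_one_le_right (by linarith) hh).trans hTv
  have hUe : U ⊆ Set.Icc (-Real.exp v) (Real.exp v) := hUT.trans (Set.Icc_subset_Icc (by linarith) hTe)
  have h3 := h2 v ((le_max_right _ _).trans hv) U hU hUe hcard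
  have hcont : Continuous fun t => ‖Av f v t‖ ^ 2 := (cont_Dp _ _).norm.pow 2
  have hi : IntegrableOn (fun t => ‖Av f v t‖ ^ 2) (Set.Icc (-T) T) := hcont.continuousOn.integrableOn_compact isCompact_Icc
  rw [intervalIntegral.integral_of_le (by linarith), ← integral_Icc_eq_integral_Ioc]
  have h4 : Set.Icc (-T) T = (Set.Icc (-T) T \ U) ∪ U := by
    rw [Set.diff_union_of_subset hUT]
  rw [h4, setIntegral_union Set.disjoint_sdiff_left hU (hi.mono_set Set.diff_subset) (hi.mono_set hUT)]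
  linarith

end MRT
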