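import Pool.Agent.MRT.Mva

/-!
# MRT-Mvb: mean value theorem
-/

set_option autoImplicit false

namespace MRT

open Finset MeasureTheory

private noncomputable def mvbE (T : ℝ) (n m : ℕ) : ℝ := Real.exp (-(T * |Real.log n - Real.log m|))

private theorem mvbStep {m : ℕ} (hm : 1 ≤ m) :
    1 / ((m : ℝ) + 1) ≤ Real.log ((m + 1 : ℕ) : ℝ) - Real.log m := by
  have h0 : (0 : ℝ) < m := by exact_mod_cast hm
  have h1 : (0 : ℝ) < (m : ℝ) + 1 := by linarith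
  push_cast
  have h2 := Real.log_le_sub_one_of_pos (div_pos h0 h1)
  rw [Real.log_div h0.ne' h1.ne'] at h2
  have h3 : (m : ℝ) / (m + 1) - 1 = -(1 / (m + 1)) := by
    field_simp
    ring
  linarith

private theorem mvbE_pos (T : ℝ) (n m : ℕ) : 0 < mvbE T n m := Real.exp_pos _

private theorem mvbLow {T : ℝ} (hT : 0 < T) {n m : ℕ} (hm : 1 ≤ m) (h : m + 1 ≤ n) :
    1 / (m : ℝ) * mvbE T n m ≤ 2 / T * (mvbE T n (m + 1) - mvbE T n m) := by
  have h0 : (0 : ℝ) < m := by exact_mod_cast hm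
  have h0' : (1 : ℝ) ≤ m := by exact_mod_cast hm
  have hl1 : Real.log ((m + 1 : ℕ) : ℝ) ≤ Real.log n :=
    Real.log_le_log (by exact_mod_cast Nat.succ_pos m) (by exact_mod_cast h)
  have hs := mvbStep hm
  have hp : 0 < 1 / ((m : ℝ) + 1) := by positivity
  have e1 : mvbE T n (m + 1) =
      mvbE T n m * Real.exp (T * (Real.log ((m + 1 : ℕ) : ℝ) - Real.log m)) := by
    unfold mvbE
    rw [← Real.exp_add, abs_of_nonneg (by linarith), abs_of_nonneg (by linarith)]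
    congr 1
    ring
  have h2 := Real.add_one_le_exp (T * (Real.log ((m + 1 : ℕ) : ℝ) - Real.log m))
  have h3 : T * (1 / ((m : ℝ) + 1)) ≤ T * (Real.log ((m + 1 : ℕ) : ℝ) - Real.log m) :=
    mul_le_mul_of_nonneg_left hs hT.le
  have h4 : T / (2 * m) ≤ T * (1 / ((m : ℝ) + 1)) := by
    rw [mul_one_div]
    exact div_le_div_of_nonneg_left hT.le (by linarith) (by linarith)
  have hE := mvbE_pos T n m
  have h5 : mvbE T n m * (T / (2 * m)) ≤ mvbE T n (m + 1) - mvbE T n m := by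
    rw [e1]
    have h6 : mvbE T n m * (T / (2 * m) + 1) ≤
        mvbE T n m * Real.exp (T * (Real.log ((m + 1 : ℕ) : ℝ) - Real.log m)) :=
      mul_le_mul_of_nonneg_left (by linarith) hE.le
    linarith
  have h6 : 2 / T * (mvbE T n m * (T / (2 * m))) ≤ 2 / T * (mvbE T n (m + 1) - mvbE T n m) :=
    mul_le_mul_of_nonneg_left h5 (by positivity)
  have h7 : 2 / T * (mvbE T n m * (T / (2 * m))) = 1 / (m : ℝ) * mvbE T n m := by
    field_simp
  rw [h7] at h6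
  exact h6

private theorem mvbHigh {T : ℝ} (hT : 0 < T) {n m : ℕ} (hn : 1 ≤ n) (h : n ≤ m) :
    1 / ((m + 1 : ℕ) : ℝ) * mvbE T n (m + 1) ≤ 1 / T * (mvbE T n m - mvbE T n (m + 1)) := by
  have hm : 1 ≤ m := hn.trans h
  have h0 : (0 : ℝ) < m := by exact_mod_cast hm
  have hl1 : Real.log n ≤ Real.log m :=
    Real.log_le_log (by exact_mod_cast hn) (by exact_mod_cast h)
  have hs := mvbStep hm
  have hp : 0 < 1 / ((m : ℝ) + 1) := by positivity
  have e1 : mvbE T n m =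
      mvbE T n (m + 1) * Real.exp (T * (Real.log ((m + 1 : ℕ) : ℝ) - Real.log m)) := by
    unfold mvbE
    rw [← Real.exp_add, abs_of_nonpos (by linarith), abs_of_nonpos (by linarith)]
    congr 1
    ring
  have h2 := Real.add_one_le_exp (T * (Real.log ((m + 1 : ℕ) : ℝ) - Real.log m))
  have h3 : T * (1 / ((m : ℝ) + 1)) ≤ T * (Real.log ((m + 1 : ℕ) : ℝ) - Real.log m) :=
    mul_le_mul_of_nonneg_left hs hT.le
  have hE := mvbE_pos T n (m + 1)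
  have h5 : mvbE T n (m + 1) * (T * (1 / ((m : ℝ) + 1))) ≤ mvbE T n m - mvbE T n (m + 1) := by
    rw [e1]
    have h6 : mvbE T n (m + 1) * (T * (1 / ((m : ℝ) + 1)) + 1) ≤
        mvbE T n (m + 1) * Real.exp (T * (Real.log ((m + 1 : ℕ) : ℝ) - Real.log m)) :=
      mul_le_mul_of_nonneg_left (by linarith) hE.le
    linarith
  have h6 := mul_le_mul_of_nonneg_left h5 (by positivity : (0 : ℝ) ≤ 1 / T)
  have h7 : 1 / T * (mvbE T n (m + 1) * (T * (1 / ((m : ℝ) + 1)))) =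
      1 / ((m + 1 : ℕ) : ℝ) * mvbE T n (m + 1) := by
    push_cast
    field_simp
  rw [h7] at h6
  exact h6

private theorem mvbOne {T : ℝ} (hT : 0 < T) {n : ℕ} (M : ℕ) : M + 1 ≤ n →
    ∑ m ∈ Icc 1 M, 1 / (m : ℝ) * mvbE T n m ≤ 2 / T * mvbE T n (M + 1) := by
  induction M with
  | zero =>
    intro _
    have := mvbE_pos T n 1
    simp only [Finset.Icc_eq_empty_of_lt Nat.zero_lt_one, Finset.sum_empty, zero_add]
    positivity
  | succ M ih =>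
    intro h
    rw [Finset.sum_Icc_succ_top (by omega)]
    have h1 := ih (by omega)
    have h2 := mvbLow hT (n := n) (m := M + 1) (by omega) h
    have h3 : 2 / T * mvbE T n (M + 1) + 2 / T * (mvbE T n (M + 1 + 1) - mvbE T n (M + 1)) =
        2 / T * mvbE T n (M + 1 + 1) := by ring
    linarith

private theorem mvbTwo {T : ℝ} (hT : 0 < T) {n : ℕ} (hn : 1 ≤ n) (M : ℕ) (hM : n ≤ M) :
    ∑ m ∈ Icc 1 M, 1 / (m : ℝ) * mvbE T n m ≤ 2 / T + 1 / n + 1 / T * (1 - mvbE T n M) := by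
  have hE : mvbE T n n = 1 := by
    unfold mvbE
    rw [sub_self, abs_zero, mul_zero, neg_zero, Real.exp_zero]
  induction M, hM using Nat.le_induction with
  | base =>
    obtain ⟨k, rfl⟩ : ∃ k, n = k + 1 := ⟨n - 1, by omega⟩
    rw [Finset.sum_Icc_succ_top (by omega), hE, mul_one, sub_self, mul_zero, add_zero]
    have h1 := mvbOne hT (n := k + 1) k le_rfl
    rw [hE, mul_one] at h1
    linarith
  | succ M hM ih =>
    rw [Finset.sum_Icc_succ_top (by omega)]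
    have h2 := mvbHigh hT hn hM
    have h3 : 1 / T * (1 - mvbE T n M) + 1 / T * (mvbE T n M - mvbE T n (M + 1)) =
        1 / T * (1 - mvbE T n (M + 1)) := by ring
    linarith

private theorem mvbSum {T : ℝ} (hT : 0 < T) {n : ℕ} (hn : 1 ≤ n) (s : Finset ℕ)
    (hs : ∀ m ∈ s, 1 ≤ m) : ∑ m ∈ s, 1 / (m : ℝ) * mvbE T n m ≤ 3 / T + 1 / n := by
  have h1 : s ⊆ Icc 1 (max n (s.sup id)) := by
    intro m hm
    rw [Finset.mem_Icc]
    exact ⟨hs m hm, le_max_of_le_right (Finset.le_sup (f := id) hm)⟩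
  have h2 : ∑ m ∈ s, 1 / (m : ℝ) * mvbE T n m ≤
      ∑ m ∈ Icc 1 (max n (s.sup id)), 1 / (m : ℝ) * mvbE T n m := by
    refine Finset.sum_le_sum_of_subset_of_nonneg h1 fun m _ _ => ?_
    have := mvbE_pos T n m
    positivity
  have h3 := mvbTwo hT hn (max n (s.sup id)) (le_max_left _ _)
  have h4 := mvbE_pos T n (max n (s.sup id))
  have h5 : 1 / T * (1 - mvbE T n (max n (s.sup id))) ≤ 1 / T * 1 :=
    mul_le_mul_of_nonneg_left (by linarith) (by positivity)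
  have h6 : 2 / T + 1 / (n : ℝ) + 1 / T * 1 = 3 / T + 1 / n := by ring
  linarith

private theorem mvbGau {T : ℝ} (hT : 0 < T) {n : ℕ} (hn : 1 ≤ n) (s : Finset ℕ)
    (hs : ∀ m ∈ s, 1 ≤ m) :
    ∑ m ∈ s, 1 / (m : ℝ) * Real.exp (-(T * (Real.log n - Real.log m)) ^ 2 / 4) ≤
      Real.exp 1 * (3 / T + 1 / n) := by
  refine le_trans ?_ (mul_le_mul_of_nonneg_left (mvbSum hT hn s hs) (Real.exp_pos 1).le)
  rw [Finset.mul_sum]
  refine Finset.sum_le_sum fun m _ => ?_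
  have h1 : Real.exp (-(T * (Real.log n - Real.log m)) ^ 2 / 4) ≤ Real.exp 1 * mvbE T n m := by
    unfold mvbE
    rw [← Real.exp_add, Real.exp_le_exp]
    have h2 : (T * (Real.log n - Real.log m)) ^ 2 = (T * |Real.log n - Real.log m|) ^ 2 := by
      rw [mul_pow, mul_pow, sq_abs]
    have h3 := sq_nonneg (T * |Real.log n - Real.log m| / 2 - 1)
    rw [show -(T * (Real.log n - Real.log m)) ^ 2 / 4 = -((T * (Real.log n - Real.log m)) ^ 2) / 4
      from rfl, h2]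
    nlinarith
  have h2 : Real.exp 1 * (1 / (m : ℝ) * mvbE T n m) = 1 / (m : ℝ) * (Real.exp 1 * mvbE T n m) := by
    ring
  rw [h2]
  exact mul_le_mul_of_nonneg_left h1 (by positivity)

private theorem mvbSym (s : Finset ℕ) (x : ℕ → ℝ) (W : ℕ → ℕ → ℝ) (hW : ∀ n m, 0 ≤ W n m)
    (hS : ∀ n m, W n m = W m n) :
    ∑ n ∈ s, ∑ m ∈ s, x n * x m * W n m ≤ ∑ n ∈ s, ∑ m ∈ s, x n ^ 2 * W n m := by
  have h1 : ∑ n ∈ s, ∑ m ∈ s, x n * x m * W n m ≤
      ∑ n ∈ s, ∑ m ∈ s, (1 / 2 * (x n ^ 2 * W n m) + 1 / 2 * (x m ^ 2 * W n m)) := by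
    refine Finset.sum_le_sum fun n _ => Finset.sum_le_sum fun m _ => ?_
    have h2 : x n * x m ≤ (x n ^ 2 + x m ^ 2) / 2 := by nlinarith [sq_nonneg (x n - x m)]
    have h3 := mul_le_mul_of_nonneg_right h2 (hW n m)
    linarith
  refine h1.trans (le_of_eq ?_)
  have h2 : ∑ n ∈ s, ∑ m ∈ s, (1 / 2 * (x n ^ 2 * W n m) + 1 / 2 * (x m ^ 2 * W n m)) =
      1 / 2 * (∑ n ∈ s, ∑ m ∈ s, x n ^ 2 * W n m) + 1 / 2 * ∑ n ∈ s, ∑ m ∈ s, x m ^ 2 * W n m := by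
    rw [Finset.mul_sum, Finset.mul_sum, ← Finset.sum_add_distrib]
    refine Finset.sum_congr rfl fun n _ => ?_
    rw [Finset.mul_sum, Finset.mul_sum, ← Finset.sum_add_distrib]
  have h3 : ∑ n ∈ s, ∑ m ∈ s, x m ^ 2 * W n m = ∑ n ∈ s, ∑ m ∈ s, x n ^ 2 * W n m := by
    rw [Finset.sum_comm]
    refine Finset.sum_congr rfl fun n _ => Finset.sum_congr rfl fun m _ => ?_
    rw [hS]
  rw [h2, h3]
  ring

/-- the bound for all `T > 0` -/
private theorem mvbMain (s : Finset ℕ) (a : ℕ → ℂ) {T : ℝ} (hT : 0 < T) (hs : ∀ n ∈ s, 1 ≤ n) :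
    ∫ t : ℝ, ‖Dp s a t‖ ^ 2 * Real.exp (-(t / T) ^ 2) ≤
      3 * Real.sqrt Real.pi * Real.exp 1 * ∑ n ∈ s, ‖a n‖ ^ 2 / n * (1 + T / n) := by
  have h1 := gauss_double hs a hT
  have h2 : (∫ t : ℝ, ‖Dp s a t‖ ^ 2 * Real.exp (-(t / T) ^ 2)) ≤
      ‖((∫ t : ℝ, ‖Dp s a t‖ ^ 2 * Real.exp (-(t / T) ^ 2) : ℝ) : ℂ)‖ := by
    rw [Complex.norm_real, Real.norm_eq_abs]
    exact le_abs_self _
  have hsp : 0 ≤ Real.sqrt Real.pi * T := by positivity
  have h3 : ‖((∫ t : ℝ, ‖Dp s a t‖ ^ 2 * Real.exp (-(t / T) ^ 2) : ℝ) : ℂ)‖ ≤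
      Real.sqrt Real.pi * T * ∑ n ∈ s, ∑ m ∈ s, ‖a n‖ * ‖a m‖ *
        (1 / ((n : ℝ) * m) * Real.exp (-(T * (Real.log n - Real.log m)) ^ 2 / 4)) := by
    rw [h1, norm_mul, Complex.norm_real, Real.norm_eq_abs, abs_of_nonneg hsp]
    refine mul_le_mul_of_nonneg_left ?_ hsp
    refine (norm_sum_le _ _).trans (Finset.sum_le_sum fun n _ => ?_)
    refine (norm_sum_le _ _).trans (Finset.sum_le_sum fun m _ => ?_)
    rw [norm_mul, norm_mul, RCLike.norm_conj, norm_div, norm_div, Complex.norm_natCast,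
      Complex.norm_natCast, Complex.norm_real, Real.norm_eq_abs, abs_of_pos (Real.exp_pos _)]
    refine le_of_eq ?_
    rw [one_div, mul_inv]
    ring
  have h4 := mvbSym s (fun n => ‖a n‖)
    (fun n m => 1 / ((n : ℝ) * m) * Real.exp (-(T * (Real.log n - Real.log m)) ^ 2 / 4))
    (fun n m => by positivity) (fun n m => by
      have h5 : (-(T * (Real.log n - Real.log m)) ^ 2 / 4 : ℝ) =
          -(T * (Real.log m - Real.log n)) ^ 2 / 4 := by ring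
      show 1 / ((n : ℝ) * m) * Real.exp (-(T * (Real.log n - Real.log m)) ^ 2 / 4) =
        1 / ((m : ℝ) * n) * Real.exp (-(T * (Real.log m - Real.log n)) ^ 2 / 4)
      rw [h5, mul_comm (n : ℝ) m])
  have h5 : ∑ n ∈ s, ∑ m ∈ s, ‖a n‖ ^ 2 *
        (1 / ((n : ℝ) * m) * Real.exp (-(T * (Real.log n - Real.log m)) ^ 2 / 4)) ≤
      ∑ n ∈ s, ‖a n‖ ^ 2 / n * (Real.exp 1 * (3 / T + 1 / n)) := by
    refine Finset.sum_le_sum fun n hn => ?_
    have h6 := mvbGau hT (hs n hn) s hs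
    have h7 : ∑ m ∈ s, ‖a n‖ ^ 2 *
        (1 / ((n : ℝ) * m) * Real.exp (-(T * (Real.log n - Real.log m)) ^ 2 / 4)) =
        ‖a n‖ ^ 2 / n *
          ∑ m ∈ s, 1 / (m : ℝ) * Real.exp (-(T * (Real.log n - Real.log m)) ^ 2 / 4) := by
      rw [Finset.mul_sum]
      refine Finset.sum_congr rfl fun m _ => ?_
      rw [one_div, mul_inv]
      ring
    rw [h7]
    exact mul_le_mul_of_nonneg_left h6 (by positivity)
  refine h2.trans (h3.trans ?_)
  refine (mul_le_mul_of_nonneg_left (h4.trans h5) hsp).trans ?_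
  rw [Finset.mul_sum, Finset.mul_sum]
  refine Finset.sum_le_sum fun n hn => ?_
  have hn0 : (0 : ℝ) < n := by exact_mod_cast hs n hn
  have h6 : Real.sqrt Real.pi * T * (‖a n‖ ^ 2 / n * (Real.exp 1 * (3 / T + 1 / n))) =
      Real.sqrt Real.pi * Real.exp 1 * (‖a n‖ ^ 2 / n) * (3 + T / n) := by
    field_simp
  rw [h6]
  have h7 : 3 * Real.sqrt Real.pi * Real.exp 1 * (‖a n‖ ^ 2 / n * (1 + T / n)) =
      Real.sqrt Real.pi * Real.exp 1 * (‖a n‖ ^ 2 / n) * (3 + 3 * (T / n)) := by ring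
  rw [h7]
  refine mul_le_mul_of_nonneg_left ?_ (by positivity)
  have h8 : 0 ≤ T / n := by positivity
  linarith

private theorem mvbC : 0 < 3 * Real.sqrt Real.pi * Real.exp 1 := by
  have := Real.pi_pos
  positivity

private theorem mvbSn (s : Finset ℕ) (a : ℕ → ℂ) {T : ℝ} (hT : 0 ≤ T) :
    0 ≤ ∑ n ∈ s, ‖a n‖ ^ 2 / (n : ℝ) * (1 + T / n) :=
  Finset.sum_nonneg fun n _ => by positivity

theorem mvt_gauss : ∃ C : ℝ, 0 < C ∧ ∀ (s : Finset ℕ) (a : ℕ → ℂ) (T : ℝ), 1 ≤ T → (∀ n ∈ s, 1 ≤ n) →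
    ∫ t : ℝ, ‖Dp s a t‖ ^ 2 * Real.exp (-(t / T) ^ 2) ≤ C * ∑ n ∈ s, ‖a n‖ ^ 2 / n * (1 + T / n) :=
  ⟨_, mvbC, fun s a _ hT hs => mvbMain s a (by linarith) hs⟩

private theorem mvbInd (s : Finset ℕ) (a : ℕ → ℂ) (A : ℝ) :
    Integrable (Set.indicator (Set.Ioc (-A) A) fun t : ℝ => ‖Dp s a t‖ ^ 2) := by
  rw [integrable_indicator_iff measurableSet_Ioc]
  have h1 : Continuous fun t : ℝ => ‖Dp s a t‖ ^ 2 := (cont_Dp s a).norm.pow 2
  exact h1.integrableOn_Ioc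

private theorem mvbInt (s : Finset ℕ) (a : ℕ → ℂ) {A : ℝ} (hA : 0 ≤ A) :
    ∫ t in (-A)..A, ‖Dp s a t‖ ^ 2 =
      ∫ t : ℝ, Set.indicator (Set.Ioc (-A) A) (fun t : ℝ => ‖Dp s a t‖ ^ 2) t := by
  rw [intervalIntegral.integral_of_le (by linarith), integral_indicator measurableSet_Ioc]

theorem mvt : ∃ C : ℝ, 0 < C ∧ ∀ (s : Finset ℕ) (a : ℕ → ℂ) (T : ℝ), 1 ≤ T → (∀ n ∈ s, 1 ≤ n) →
    ∫ t in (-T)..T, ‖Dp s a t‖ ^ 2 ≤ C * ∑ n ∈ s, ‖a n‖ ^ 2 / n * (1 + T / n) := by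
  refine ⟨Real.exp 1 * (3 * Real.sqrt Real.pi * Real.exp 1), mul_pos (Real.exp_pos 1) mvbC,
    fun s a T hT hs => ?_⟩
  have hT0 : 0 < T := by linarith
  have h1 := mvbMain s a hT0 hs
  have h2 : (∫ t : ℝ, Set.indicator (Set.Ioc (-T) T) (fun t : ℝ => ‖Dp s a t‖ ^ 2) t) ≤
      ∫ t : ℝ, Real.exp 1 * (‖Dp s a t‖ ^ 2 * Real.exp (-(t / T) ^ 2)) := by
    refine integral_mono (mvbInd s a T) ((integrable_Dp s a hT0).const_mul _) fun t => ?_
    show Set.indicator (Set.Ioc (-T) T) (fun t : ℝ => ‖Dp s a t‖ ^ 2) t ≤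
      Real.exp 1 * (‖Dp s a t‖ ^ 2 * Real.exp (-(t / T) ^ 2))
    by_cases ht : t ∈ Set.Ioc (-T) T
    · rw [Set.indicator_of_mem ht]
      have h3 : (t / T) ^ 2 ≤ 1 := by
        rw [sq_le_one_iff_abs_le_one, abs_div, abs_of_pos hT0, div_le_one hT0, abs_le]
        exact ⟨ht.1.le, ht.2⟩
      have h4 : 1 ≤ Real.exp 1 * Real.exp (-(t / T) ^ 2) := by
        rw [← Real.exp_add]
        exact Real.one_le_exp (by linarith)
      have h5 : Real.exp 1 * (‖Dp s a t‖ ^ 2 * Real.exp (-(t / T) ^ 2)) =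
          ‖Dp s a t‖ ^ 2 * (Real.exp 1 * Real.exp (-(t / T) ^ 2)) := by ring
      rw [h5]
      exact le_mul_of_one_le_right (by positivity) h4
    · rw [Set.indicator_of_notMem ht]
      positivity
  rw [mvbInt s a hT0.le]
  refine h2.trans ?_
  rw [integral_const_mul, mul_assoc]
  exact mul_le_mul_of_nonneg_left h1 (Real.exp_pos 1).le

/-- Tail of the Gaussian integral. -/
theorem mvt_tail : ∃ C : ℝ, 0 < C ∧ ∀ (s : Finset ℕ) (a : ℕ → ℂ) (T R : ℝ), 1 ≤ T → 1 ≤ R → (∀ n ∈ s, 1 ≤ n) →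
    ∫ t : ℝ, ‖Dp s a t‖ ^ 2 * Real.exp (-(t / T) ^ 2) ≤ (∫ t in (-(R * T))..(R * T), ‖Dp s a t‖ ^ 2) +
      C * Real.exp (-R ^ 2 / 2) * ∑ n ∈ s, ‖a n‖ ^ 2 / n * (1 + T / n) := by
  refine ⟨2 * (3 * Real.sqrt Real.pi * Real.exp 1), mul_pos two_pos mvbC,
    fun s a T R hT hR hs => ?_⟩
  have hT0 : 0 < T := by linarith
  have hR0 : 0 < R := by linarith
  have hq : 0 < Real.sqrt 2 := Real.sqrt_pos.2 two_pos
  have hq2 : Real.sqrt 2 ^ 2 = 2 := Real.sq_sqrt two_pos.le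
  have hq1 : Real.sqrt 2 ≤ 2 := by nlinarith
  have hS0 : 0 < Real.sqrt 2 * T := mul_pos hq hT0
  have h1 := mvbMain s a hS0 hs
  have h2 : (∫ t : ℝ, ‖Dp s a t‖ ^ 2 * Real.exp (-(t / T) ^ 2)) ≤
      ∫ t : ℝ, (Set.indicator (Set.Ioc (-(R * T)) (R * T)) (fun t : ℝ => ‖Dp s a t‖ ^ 2) t +
        Real.exp (-R ^ 2 / 2) * (‖Dp s a t‖ ^ 2 * Real.exp (-(t / (Real.sqrt 2 * T)) ^ 2))) := by
    refine integral_mono (integrable_Dp s a hT0)
      ((mvbInd s a (R * T)).add ((integrable_Dp s a hS0).const_mul _)) fun t => ?_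
    show ‖Dp s a t‖ ^ 2 * Real.exp (-(t / T) ^ 2) ≤
      Set.indicator (Set.Ioc (-(R * T)) (R * T)) (fun t : ℝ => ‖Dp s a t‖ ^ 2) t +
        Real.exp (-R ^ 2 / 2) * (‖Dp s a t‖ ^ 2 * Real.exp (-(t / (Real.sqrt 2 * T)) ^ 2))
    by_cases ht : t ∈ Set.Ioc (-(R * T)) (R * T)
    · rw [Set.indicator_of_mem ht]
      have h3 : Real.exp (-(t / T) ^ 2) ≤ 1 := Real.exp_le_one_iff.2 (by
        have := sq_nonneg (t / T)
        linarith)
      have h4 : ‖Dp s a t‖ ^ 2 * Real.exp (-(t / T) ^ 2) ≤ ‖Dp s a t‖ ^ 2 :=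
        mul_le_of_le_one_right (by positivity) h3
      have h5 : 0 ≤ Real.exp (-R ^ 2 / 2) *
          (‖Dp s a t‖ ^ 2 * Real.exp (-(t / (Real.sqrt 2 * T)) ^ 2)) := by positivity
      linarith
    · rw [Set.indicator_of_notMem ht, zero_add]
      have h3 : R ^ 2 ≤ (t / T) ^ 2 := by
        rw [sq_le_sq, abs_of_pos hR0, abs_div, abs_of_pos hT0, le_div_iff₀ hT0]
        by_contra h4
        rw [not_le] at h4
        rw [abs_lt] at h4
        exact ht ⟨h4.1, h4.2.le⟩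
      have h4 : (t / (Real.sqrt 2 * T)) ^ 2 = (t / T) ^ 2 / 2 := by
        rw [div_pow, mul_pow, hq2, div_pow]
        field_simp
      have h5 : Real.exp (-(t / T) ^ 2) ≤
          Real.exp (-R ^ 2 / 2) * Real.exp (-(t / (Real.sqrt 2 * T)) ^ 2) := by
        rw [← Real.exp_add, Real.exp_le_exp, h4]
        linarith
      have h6 : Real.exp (-R ^ 2 / 2) *
          (‖Dp s a t‖ ^ 2 * Real.exp (-(t / (Real.sqrt 2 * T)) ^ 2)) =
          ‖Dp s a t‖ ^ 2 * (Real.exp (-R ^ 2 / 2) * Real.exp (-(t / (Real.sqrt 2 * T)) ^ 2)) := by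
        ring
      rw [h6]
      exact mul_le_mul_of_nonneg_left h5 (by positivity)
  have hRT : 0 ≤ R * T := by positivity
  rw [mvbInt s a hRT]
  refine h2.trans ?_
  rw [integral_add (mvbInd s a (R * T)) ((integrable_Dp s a hS0).const_mul _), integral_const_mul]
  refine add_le_add le_rfl ?_
  have h3 : ∑ n ∈ s, ‖a n‖ ^ 2 / (n : ℝ) * (1 + Real.sqrt 2 * T / n) ≤
      2 * ∑ n ∈ s, ‖a n‖ ^ 2 / (n : ℝ) * (1 + T / n) := by
    rw [Finset.mul_sum]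
    refine Finset.sum_le_sum fun n hn => ?_
    have h4 : 1 + Real.sqrt 2 * T / (n : ℝ) ≤ 2 * (1 + T / n) := by
      have h5 : 0 ≤ T / (n : ℝ) := by positivity
      have h6 : Real.sqrt 2 * T / (n : ℝ) = Real.sqrt 2 * (T / n) := by ring
      rw [h6]
      nlinarith
    have h5 : 2 * (‖a n‖ ^ 2 / (n : ℝ) * (1 + T / n)) = ‖a n‖ ^ 2 / (n : ℝ) * (2 * (1 + T / n)) := by
      ring
    rw [h5]
    exact mul_le_mul_of_nonneg_left h4 (by positivity)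
  have h4 := mul_le_mul_of_nonneg_left h3 mvbC.le
  have h5 := mul_le_mul_of_nonneg_left (h1.trans h4) (Real.exp_pos (-R ^ 2 / 2)).le
  refine h5.trans (le_of_eq ?_)
  ring

end MRT
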