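import Pool.Agent.MRT.EnB
import Pool.Agent.MRT.MrM
import Pool.Agent.MRT.Mvb

/-!
# MRT-EnC: short averages on one scale and on average over scales
-/

set_option autoImplicit false

namespace MRT

open Finset MeasureTheory

private theorem abs_f {f : ℕ → ℝ} (hf : CMr f) {n : ℕ} (hn : 0 < n) : |f n| = 1 := by
  rcases hf.sgn n hn with h | h
  · rw [h, abs_one]
  · rw [h, abs_neg, abs_one]

private theorem sk_sq_le {f : ℕ → ℝ} (hf : CMr f) {K : ℕ} (hK : 1 ≤ K) (x : ℕ) : SK f K x ^ 2 ≤ 1 := by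
  have hK' : (0 : ℝ) < K := by exact_mod_cast hK
  rw [sq_le_one_iff_abs_le_one]
  unfold SK
  rw [abs_div, abs_of_pos hK', div_le_one hK']
  calc |∑ n ∈ Ioc x (x + K), f n| ≤ ∑ n ∈ Ioc x (x + K), |f n| := Finset.abs_sum_le_sum_abs _ _
    _ = ∑ n ∈ Ioc x (x + K), (1 : ℝ) := by
        refine Finset.sum_congr rfl fun n hn => abs_f hf ?_
        have := (Finset.mem_Ioc.1 hn).1
        omega
    _ = K := by
        rw [Finset.sum_const, Nat.card_Ioc]
        simp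

private theorem Ic_union {a b c : ℝ} (hab : a ≤ b) (hbc : b ≤ c) : Ic a c = Ic a b ∪ Ic b c := by
  ext n
  rw [Finset.mem_union, mem_Ic, mem_Ic, mem_Ic]
  have h1 := Real.exp_le_exp.2 hab
  have h2 := Real.exp_le_exp.2 hbc
  constructor
  · rintro ⟨h3, h4⟩
    rcases le_or_gt (n : ℝ) (Real.exp b) with h | h
    · exact Or.inl ⟨h3, h⟩
    · exact Or.inr ⟨h, h4⟩
  · rintro (⟨h3, h4⟩ | ⟨h3, h4⟩)
    · exact ⟨h3, h4.trans h2⟩
    · exact ⟨lt_of_le_of_lt h1 h3, h4⟩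

private theorem Ic_disj (a b c : ℝ) : Disjoint (Ic a b) (Ic b c) := by
  rw [Finset.disjoint_left]
  intro n h1 h2
  have h3 := (mem_Ic.1 h1).2
  have h4 := (mem_Ic.1 h2).1
  linarith

private theorem dp_three (f : ℕ → ℝ) (v t : ℝ) :
    Dp (Ic (v - 1) (v + 2)) (fun n => (f n : ℂ)) t = Av f (v - 1) t + Av f v t + Av f (v + 1) t := by
  have h1 : Ic (v - 1) (v + 2) = Ic (v - 1) v ∪ Ic v (v + 2) := Ic_union (by linarith) (by linarith)
  have h2 : Ic v (v + 2) = Ic v (v + 1) ∪ Ic (v + 1) (v + 2) := Ic_union (by linarith) (by linarith)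
  have e1 : v - 1 + 1 = v := by ring
  have e2 : v + 1 + 1 = v + 2 := by ring
  unfold Av Dp
  rw [e1, e2, h1, Finset.sum_union (Ic_disj _ _ _), h2, Finset.sum_union (Ic_disj _ _ _), add_assoc]

private theorem sq3 (a b c : ℂ) : ‖a + b + c‖ ^ 2 ≤ 3 * (‖a‖ ^ 2 + ‖b‖ ^ 2 + ‖c‖ ^ 2) := by
  have h1 : ‖a + b + c‖ ≤ ‖a‖ + ‖b‖ + ‖c‖ := norm_add₃_le
  have h2 : ‖a + b + c‖ ^ 2 ≤ (‖a‖ + ‖b‖ + ‖c‖) ^ 2 := pow_le_pow_left₀ (norm_nonneg _) h1 2
  nlinarith [sq_nonneg (‖a‖ - ‖b‖), sq_nonneg (‖b‖ - ‖c‖), sq_nonneg (‖a‖ - ‖c‖)]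

private theorem cont_sq (f : ℕ → ℝ) (v : ℝ) : Continuous fun t => ‖Av f v t‖ ^ 2 :=
  (cont_Dp _ _).norm.pow 2

theorem short_scale {f : ℕ → ℝ} (hf : CMr f) (hd : Div f) {ε : ℝ} (hε : 0 < ε) : ∃ K₀ : ℕ, ∀ K ≥ K₀, 1 ≤ K → ∃ v₀ : ℝ, ∀ v ≥ v₀,
    ∑ x ∈ Ic v (v + 1), SK f K x ^ 2 / x ≤ ε := by
  obtain ⟨C, hC, hE⟩ := energy
  obtain ⟨D, hD, hM⟩ := mvt_tail
  -- η
  obtain ⟨η, hη0, hη1, hη⟩ : ∃ η : ℝ, 0 < η ∧ η ≤ 1 ∧ C * (2 * η) ^ 2 ≤ ε / 3 := by
    refine ⟨min 1 (ε / (12 * C)), lt_min one_pos (by positivity), min_le_left _ _, ?_⟩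
    set η := min 1 (ε / (12 * C)) with hη
    have h0 : 0 < η := lt_min one_pos (by positivity)
    have h1 : η ≤ 1 := min_le_left _ _
    have h2 : η ≤ ε / (12 * C) := min_le_right _ _
    rw [le_div_iff₀ (by positivity)] at h2
    have h3 : η * η ≤ η * 1 := mul_le_mul_of_nonneg_left h1 h0.le
    nlinarith
  -- R
  obtain ⟨R, hR1, hR⟩ : ∃ R : ℝ, 1 ≤ R ∧ C * (D * Real.exp (-R ^ 2 / 2) * 16) ≤ ε / 3 := by
    have h1 : Filter.Tendsto (fun R : ℝ => C * (D * Real.exp (-R) * 16)) Filter.atTop (nhds (C * (D * 0 * 16))) :=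
      ((Real.tendsto_exp_neg_atTop_nhds_zero.const_mul D).mul_const 16).const_mul C
    rw [mul_zero, zero_mul, mul_zero] at h1
    obtain ⟨R, hR2, hR3⟩ := ((h1.eventually_lt_const (show 0 < ε / 3 by positivity)).and
      (Filter.eventually_ge_atTop (2 : ℝ))).exists
    refine ⟨R, by linarith, ?_⟩
    have h2 : Real.exp (-R ^ 2 / 2) ≤ Real.exp (-R) := by
      apply Real.exp_le_exp.2
      nlinarith
    have h3 : C * (D * Real.exp (-R ^ 2 / 2) * 16) ≤ C * (D * Real.exp (-R) * 16) := by gcongr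
    linarith
  obtain ⟨h₀, v₁, hh0, hmr⟩ := mr_main hf hd (ε := ε / (27 * C)) (by positivity)
  have he : 0 < Real.exp 1 := Real.exp_pos 1
  refine ⟨⌈R * h₀ * Real.exp 1 / η⌉₊, fun K hK hK1 => ?_⟩
  have hKr : R * h₀ * Real.exp 1 ≤ η * K := by
    have h1 : R * h₀ * Real.exp 1 / η ≤ K := (Nat.le_ceil _).trans (by exact_mod_cast hK)
    rw [div_le_iff₀ hη0] at h1
    linarith
  have hK0 : (0 : ℝ) < K := by exact_mod_cast hK1
  have he1 : 1 ≤ Real.exp 1 := Real.one_le_exp (by norm_num)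
  have hh : 1 ≤ η * K := by
    have h1 : 1 ≤ R * h₀ := by nlinarith
    have h2 : 1 ≤ R * h₀ * Real.exp 1 := by nlinarith
    linarith
  refine ⟨max (v₁ + 1) (Real.log (K / η)), fun v hv => ?_⟩
  have hv1 : v₁ + 1 ≤ v := (le_max_left _ _).trans hv
  have hv2 : K / η ≤ Real.exp v := by
    rw [← Real.log_le_iff_le_exp (by positivity)]
    exact (le_max_right _ _).trans hv
  have hv3 : (K : ℝ) ≤ η * Real.exp v := by
    rw [div_le_iff₀ hη0] at hv2
    linarith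
  have hev := Real.exp_pos v
  have hKv : (K : ℝ) ≤ Real.exp v := by nlinarith
  obtain ⟨h, hhd⟩ : ∃ h, h = η * (K : ℝ) := ⟨_, rfl⟩
  have hhK : h ≤ K := by rw [hhd]; nlinarith
  rw [← hhd] at hh hKr
  have hh' : 0 < h := by linarith
  obtain ⟨T, hTd⟩ : ∃ T, T = Real.exp v / h := ⟨_, rfl⟩
  have hT1 : 1 ≤ T := by
    rw [hTd, one_le_div hh']
    linarith
  have hTh : T * h = Real.exp v := by
    rw [hTd]
    field_simp
  have h1 := hE f hf K hK1 h v hh hhK hKv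
  rw [← hTd] at h1
  have h2 := hM (Ic (v - 1) (v + 2)) (fun n => (f n : ℂ)) T R hT1 hR1 fun n hn => one_le_of_mem hn
  -- the sum
  have hexp : Real.exp v = Real.exp (v - 1) * Real.exp 1 := by
    rw [← Real.exp_add]
    congr 1
    ring
  have h3 : ∑ n ∈ Ic (v - 1) (v + 2), ‖((f n : ℝ) : ℂ)‖ ^ 2 / n * (1 + T / n) ≤ 16 := by
    have h4 : ∀ n ∈ Ic (v - 1) (v + 2), ‖((f n : ℝ) : ℂ)‖ ^ 2 / n * (1 + T / n) ≤ 1 / (n : ℝ) * 4 := by
      intro n hn
      have hn1 := one_le_of_mem hn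
      have hn0 : (0 : ℝ) < n := by exact_mod_cast hn1
      have h5 : ‖((f n : ℝ) : ℂ)‖ = 1 := by
        rw [Complex.norm_real, Real.norm_eq_abs]
        exact abs_f hf hn1
      rw [h5, one_pow]
      have h6 : T / n ≤ 3 := by
        rw [div_le_iff₀ hn0]
        have h7 := (mem_Ic.1 hn).1
        have h8 : T ≤ Real.exp v := by nlinarith
        have h9 := Real.exp_one_lt_d9
        nlinarith [Real.exp_pos (v - 1)]
      refine mul_le_mul_of_nonneg_left ?_ (by positivity)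
      linarith
    refine (Finset.sum_le_sum h4).trans ?_
    rw [← Finset.sum_mul]
    have h5 := sum_inv_Ic_le (show v - 1 ≤ v + 2 by linarith)
    linarith
  -- the main integral
  have hRT : 1 ≤ R * T := by nlinarith
  have hRT2 : R * T * h₀ ≤ Real.exp (v - 1) := by
    have h4 : R * T * h₀ * Real.exp 1 ≤ Real.exp (v - 1) * Real.exp 1 := by
      rw [← hexp]
      have h5 : T * (R * h₀ * Real.exp 1) ≤ T * h := mul_le_mul_of_nonneg_left hKr (by linarith)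
      rw [hTh] at h5
      linarith
    exact le_of_mul_le_mul_right h4 he
  have m0 := hmr (v - 1) (by linarith) (R * T) hRT hRT2
  have m1 := hmr v (by linarith) (R * T) hRT (hRT2.trans (Real.exp_le_exp.2 (by linarith)))
  have m2 := hmr (v + 1) (by linarith) (R * T) hRT (hRT2.trans (Real.exp_le_exp.2 (by linarith)))
  have i0 := (cont_sq f (v - 1)).intervalIntegrable (μ := volume) (-(R * T)) (R * T)
  have i1 := (cont_sq f v).intervalIntegrable (μ := volume) (-(R * T)) (R * T)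
  have i2 := (cont_sq f (v + 1)).intervalIntegrable (μ := volume) (-(R * T)) (R * T)
  have h6 : ∫ t in (-(R * T))..(R * T), ‖Dp (Ic (v - 1) (v + 2)) (fun n => (f n : ℂ)) t‖ ^ 2 ≤
      3 * ((∫ t in (-(R * T))..(R * T), ‖Av f (v - 1) t‖ ^ 2) + (∫ t in (-(R * T))..(R * T), ‖Av f v t‖ ^ 2) +
        ∫ t in (-(R * T))..(R * T), ‖Av f (v + 1) t‖ ^ 2) := by
    rw [← intervalIntegral.integral_add i0 i1, ← intervalIntegral.integral_add (i0.add i1) i2,
      ← intervalIntegral.integral_const_mul]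
    refine intervalIntegral.integral_mono_on (by linarith) ?_ (((i0.add i1).add i2).const_mul 3) ?_
    · exact ((cont_Dp _ _).norm.pow 2).intervalIntegrable _ _
    · intro t _
      rw [dp_three]
      exact sq3 _ _ _
  have h7 : h / K + K / Real.exp v ≤ 2 * η := by
    have h8 : h / K = η := by
      rw [hhd]
      field_simp
    have h9 : (K : ℝ) / Real.exp v ≤ η := by
      rw [div_le_iff₀ hev]
      exact hv3
    linarith
  have h8 : (h / K + K / Real.exp v) ^ 2 ≤ (2 * η) ^ 2 := pow_le_pow_left₀ (by positivity) h7 2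
  have h9 : D * Real.exp (-R ^ 2 / 2) * ∑ n ∈ Ic (v - 1) (v + 2), ‖((f n : ℝ) : ℂ)‖ ^ 2 / n * (1 + T / n) ≤
      D * Real.exp (-R ^ 2 / 2) * 16 := mul_le_mul_of_nonneg_left h3 (by positivity)
  have h10 : ∫ t : ℝ, ‖Dp (Ic (v - 1) (v + 2)) (fun n => (f n : ℂ)) t‖ ^ 2 * Real.exp (-(t / T) ^ 2) ≤
      3 * (3 * (ε / (27 * C))) + D * Real.exp (-R ^ 2 / 2) * 16 := by
    beta_reduce at h2
    linarith
  have h11 : C * (3 * (3 * (ε / (27 * C)))) = ε / 3 := by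
    field_simp
    norm_num
  calc ∑ x ∈ Ic v (v + 1), SK f K x ^ 2 / x
      ≤ C * ((∫ t : ℝ, ‖Dp (Ic (v - 1) (v + 2)) (fun n => (f n : ℂ)) t‖ ^ 2 * Real.exp (-(t / T) ^ 2)) +
        (h / K + K / Real.exp v) ^ 2) := h1
    _ ≤ C * ((3 * (3 * (ε / (27 * C))) + D * Real.exp (-R ^ 2 / 2) * 16) + (2 * η) ^ 2) :=
        mul_le_mul_of_nonneg_left (add_le_add h10 h8) hC.le
    _ = C * (3 * (3 * (ε / (27 * C)))) + C * (D * Real.exp (-R ^ 2 / 2) * 16) + C * (2 * η) ^ 2 := by ring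
    _ ≤ ε := by
        rw [h11]
        linarith

private theorem sum_bU (g : ℕ → ℝ) (hg : ∀ n, 0 ≤ g n) (F : ℕ → Finset ℕ) (s : Finset ℕ) :
    ∑ n ∈ s.biUnion F, g n ≤ ∑ j ∈ s, ∑ n ∈ F j, g n := by
  induction s using Finset.induction_on with
  | empty => simp
  | insert a s ha ih =>
    rw [Finset.biUnion_insert, Finset.sum_insert ha]
    have h1 := Finset.sum_union_inter (s₁ := F a) (s₂ := s.biUnion F) (f := g)
    have h2 : 0 ≤ ∑ n ∈ F a ∩ s.biUnion F, g n := Finset.sum_nonneg fun n _ => hg n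
    linarith

theorem short_log {f : ℕ → ℝ} (hf : CMr f) (hd : Div f) {ε : ℝ} (hε : 0 < ε) : ∃ K₀ : ℕ, ∀ K ≥ K₀, 1 ≤ K → ∃ N₀ : ℕ, ∀ N ≥ N₀,
    (∑ n ∈ Icc 1 N, SK f K n ^ 2 / n) / Real.log N ≤ ε := by
  obtain ⟨K₀, hK₀⟩ := short_scale hf hd (ε := ε / 4) (by positivity)
  refine ⟨K₀, fun K hK hK1 => ?_⟩
  obtain ⟨v₀, hv₀⟩ := hK₀ K hK hK1
  obtain ⟨j₀, hj₀⟩ : ∃ j₀ : ℕ, j₀ = ⌈v₀⌉₊ := ⟨_, rfl⟩
  have hj : v₀ ≤ j₀ := by rw [hj₀]; exact Nat.le_ceil v₀
  have hS : ∀ j : ℕ, ∑ n ∈ Ic (j : ℝ) ((j : ℝ) + 1), SK f K n ^ 2 / n ≤ if j < j₀ then 2 else ε / 4 := by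
    intro j
    split_ifs with h
    · have h1 : ∀ n ∈ Ic (j : ℝ) ((j : ℝ) + 1), SK f K n ^ 2 / n ≤ 1 / (n : ℝ) := fun n _ =>
        div_le_div_of_nonneg_right (sk_sq_le hf hK1 n) (Nat.cast_nonneg n)
      have h2 := sum_inv_Ic_le (show (j : ℝ) ≤ (j : ℝ) + 1 by linarith)
      exact (Finset.sum_le_sum h1).trans (by linarith)
    · refine hv₀ j ?_
      have h1 : (j₀ : ℝ) ≤ j := by exact_mod_cast not_lt.1 h
      linarith
  have hsum : ∀ N : ℕ, 1 ≤ N → ∑ n ∈ Icc 1 N, SK f K n ^ 2 / n ≤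
      1 + (2 * j₀ + ε / 4 * (Real.log N + 1)) := by
    intro N hN
    have hN0 : (0 : ℝ) < N := by exact_mod_cast hN
    have hlN : 0 ≤ Real.log N := Real.log_nonneg (by exact_mod_cast hN)
    have h1 : Icc 1 N ⊆ {1} ∪ (Finset.range (⌊Real.log N⌋₊ + 1)).biUnion fun j : ℕ => Ic (j : ℝ) ((j : ℝ) + 1) := by
      intro n hn
      obtain ⟨h2, h3⟩ := Finset.mem_Icc.1 hn
      rcases h2.eq_or_lt with h4 | h4
      · exact Finset.mem_union_left _ (Finset.mem_singleton.2 h4.symm)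
      · refine Finset.mem_union_right _ (Finset.mem_biUnion.2 ?_)
        have h5 : 0 < Real.log n := Real.log_pos (by exact_mod_cast h4)
        have h6 : 0 < ⌈Real.log n⌉₊ := Nat.ceil_pos.2 h5
        obtain ⟨j, hj'⟩ : ∃ j, ⌈Real.log n⌉₊ = j + 1 := ⟨⌈Real.log n⌉₊ - 1, by omega⟩
        have h7 : (j : ℝ) < Real.log n := Nat.lt_ceil.1 (by omega)
        have h8 : Real.log n ≤ (j : ℝ) + 1 := by
          have h9 := Nat.le_ceil (Real.log n)
          rw [hj'] at h9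
          exact_mod_cast h9
        refine ⟨j, Finset.mem_range.2 ?_, (mem_Ic_log h4.le).2 ⟨h7, h8⟩⟩
        have h9 : Real.log n ≤ Real.log N := Real.log_le_log (by exact_mod_cast h2) (by exact_mod_cast h3)
        exact Nat.lt_succ_of_le (Nat.le_floor (by linarith))
    have hpos : ∀ n : ℕ, 0 ≤ SK f K n ^ 2 / (n : ℝ) := fun n => by positivity
    calc ∑ n ∈ Icc 1 N, SK f K n ^ 2 / (n : ℝ)
        ≤ ∑ n ∈ {1} ∪ (Finset.range (⌊Real.log N⌋₊ + 1)).biUnion (fun j : ℕ => Ic (j : ℝ) ((j : ℝ) + 1)),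
            SK f K n ^ 2 / (n : ℝ) := Finset.sum_le_sum_of_subset_of_nonneg h1 fun n _ _ => hpos n
      _ ≤ ∑ n ∈ {1}, SK f K n ^ 2 / (n : ℝ) +
            ∑ n ∈ (Finset.range (⌊Real.log N⌋₊ + 1)).biUnion (fun j : ℕ => Ic (j : ℝ) ((j : ℝ) + 1)),
              SK f K n ^ 2 / (n : ℝ) := by
          rw [← Finset.sum_union_inter]
          have := Finset.sum_nonneg fun n (_ : n ∈ ({1} : Finset ℕ) ∩
            (Finset.range (⌊Real.log N⌋₊ + 1)).biUnion (fun j : ℕ => Ic (j : ℝ) ((j : ℝ) + 1))) => hpos n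
          linarith
      _ ≤ 1 + ∑ j ∈ Finset.range (⌊Real.log N⌋₊ + 1), ∑ n ∈ Ic (j : ℝ) ((j : ℝ) + 1), SK f K n ^ 2 / (n : ℝ) := by
          refine add_le_add ?_ ?_
          · rw [Finset.sum_singleton, Nat.cast_one, div_one]
            exact sk_sq_le hf hK1 1
          · exact sum_bU _ hpos _ _
      _ ≤ 1 + ∑ j ∈ Finset.range (⌊Real.log N⌋₊ + 1), (if j < j₀ then (2 : ℝ) else ε / 4) :=
          add_le_add le_rfl (Finset.sum_le_sum fun j _ => hS j)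
      _ ≤ 1 + (2 * j₀ + ε / 4 * (Real.log N + 1)) := by
          refine add_le_add le_rfl ?_
          rw [Finset.sum_ite, Finset.sum_const, Finset.sum_const, nsmul_eq_mul, nsmul_eq_mul]
          have c1 : ((Finset.range (⌊Real.log N⌋₊ + 1)).filter (fun j => j < j₀)).card ≤ j₀ := by
            calc _ ≤ (Finset.range j₀).card := by
                  refine Finset.card_le_card fun j hj' => ?_
                  exact Finset.mem_range.2 (Finset.mem_filter.1 hj').2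
              _ = j₀ := Finset.card_range _
          have c2 : ((Finset.range (⌊Real.log N⌋₊ + 1)).filter (fun j => ¬ j < j₀)).card ≤ ⌊Real.log N⌋₊ + 1 := by
            calc _ ≤ (Finset.range (⌊Real.log N⌋₊ + 1)).card := Finset.card_le_card (Finset.filter_subset _ _)
              _ = _ := Finset.card_range _
          have c3 : (((Finset.range (⌊Real.log N⌋₊ + 1)).filter (fun j => j < j₀)).card : ℝ) ≤ j₀ := by
            exact_mod_cast c1
          have c4 : (((Finset.range (⌊Real.log N⌋₊ + 1)).filter (fun j => ¬ j < j₀)).card : ℝ) ≤ Real.log N + 1 := by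
            have c5 : (((Finset.range (⌊Real.log N⌋₊ + 1)).filter (fun j => ¬ j < j₀)).card : ℝ) ≤
                (⌊Real.log N⌋₊ : ℝ) + 1 := by exact_mod_cast c2
            have c6 := Nat.floor_le hlN
            linarith
          nlinarith
  obtain ⟨L, hL⟩ : ∃ L : ℝ, L = (1 + 2 * j₀ + ε / 4) / (3 * ε / 4) := ⟨_, rfl⟩
  have hL0 : 0 < L := by rw [hL]; positivity
  refine ⟨⌈Real.exp L⌉₊, fun N hN => ?_⟩
  have h1 : Real.exp L ≤ N := (Nat.le_ceil _).trans (by exact_mod_cast hN)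
  have h2 : (0 : ℝ) < N := lt_of_lt_of_le (Real.exp_pos L) h1
  have h3 : L ≤ Real.log N := by
    rw [Real.le_log_iff_exp_le h2]
    exact h1
  have hN1 : 1 ≤ N := by exact_mod_cast h2
  rw [div_le_iff₀ (by linarith)]
  refine (hsum N hN1).trans ?_
  have h4 : L * (3 * ε / 4) = 1 + 2 * j₀ + ε / 4 := by
    rw [hL]
    field_simp
  nlinarith

end MRT
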