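import Pool.Agent.MRT.Defs

/-!
# MRT-Bas: elementary lemmas on `n^{-it}`, the sets `Ic a b`, Dirichlet polynomials
-/

set_option autoImplicit false

namespace MRT

open Finset MeasureTheory

theorem mem_Ic {a b : ℝ} {n : ℕ} : n ∈ Ic a b ↔ Real.exp a < n ∧ (n : ℝ) ≤ Real.exp b := by
  unfold Ic
  rw [Finset.mem_filter, Finset.mem_range, Nat.lt_succ_iff, Nat.le_floor_iff (Real.exp_pos b).le]
  exact and_comm

theorem one_le_of_mem {a b : ℝ} {n : ℕ} (h : n ∈ Ic a b) : 1 ≤ n := by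
  have h1 := (mem_Ic.1 h).1
  have h2 : (0 : ℝ) < n := lt_trans (Real.exp_pos a) h1
  exact_mod_cast h2

theorem mem_Ic_log {a b : ℝ} {n : ℕ} (hn : 1 ≤ n) : n ∈ Ic a b ↔ a < Real.log n ∧ Real.log n ≤ b := by
  have h : (0 : ℝ) < n := by exact_mod_cast hn
  rw [mem_Ic, Real.lt_log_iff_exp_lt h, Real.log_le_iff_le_exp h]

theorem norm_cp (n : ℕ) (t : ℝ) : ‖cp n t‖ = 1 := by
  unfold cp
  exact Complex.norm_exp_ofReal_mul_I _

theorem cp_zero (n : ℕ) : cp n 0 = 1 := by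
  simp [cp]

theorem cp_mul {m n : ℕ} (hm : 0 < m) (hn : 0 < n) (t : ℝ) : cp (m * n) t = cp m t * cp n t := by
  have hm' : (m : ℝ) ≠ 0 := by exact_mod_cast hm.ne'
  have hn' : (n : ℝ) ≠ 0 := by exact_mod_cast hn.ne'
  unfold cp
  rw [← Complex.exp_add]
  congr 1
  push_cast [Real.log_mul hm' hn']
  ring

theorem cp_add (n : ℕ) (s t : ℝ) : cp n (s + t) = cp n s * cp n t := by
  unfold cp
  rw [← Complex.exp_add]
  congr 1
  push_cast
  ring

theorem cp_conj (n : ℕ) (t : ℝ) : (starRingEnd ℂ) (cp n t) = cp n (-t) := by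
  unfold cp
  rw [← Complex.exp_conj]
  congr 1
  rw [map_mul, Complex.conj_ofReal, Complex.conj_I]
  push_cast
  ring

theorem cp_eq_cpow {n : ℕ} (hn : 0 < n) (t : ℝ) : cp n t = (n : ℂ) ^ (-(t : ℂ) * Complex.I) := by
  have hn' : (n : ℂ) ≠ 0 := by exact_mod_cast hn.ne'
  rw [Complex.cpow_def_of_ne_zero hn']
  unfold cp
  congr 1
  rw [← Complex.natCast_log]
  push_cast
  ring

theorem cont_cp (n : ℕ) : Continuous fun t => cp n t := by
  unfold cp
  refine Complex.continuous_exp.comp (Continuous.mul (Complex.continuous_ofReal.comp ?_)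
    continuous_const)
  exact (continuous_id.mul continuous_const).neg

theorem cont_Dp (s : Finset ℕ) (a : ℕ → ℂ) : Continuous (Dp s a) := by
  unfold Dp
  exact continuous_finset_sum _ fun n _ => continuous_const.mul (cont_cp n)

theorem norm_Dp_le (s : Finset ℕ) (a : ℕ → ℂ) (t : ℝ) : ‖Dp s a t‖ ≤ ∑ n ∈ s, ‖a n‖ / n := by
  unfold Dp
  refine (norm_sum_le _ _).trans (Finset.sum_le_sum fun n _ => ?_)
  rw [norm_mul, norm_cp, mul_one, norm_div, Complex.norm_natCast]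

private theorem Ic_eq (a b : ℝ) : Ic a b = Finset.Ioc ⌊Real.exp a⌋₊ ⌊Real.exp b⌋₊ := by
  ext n
  rw [mem_Ic, Finset.mem_Ioc, Nat.floor_lt (Real.exp_pos a).le, Nat.le_floor_iff (Real.exp_pos b).le]

private theorem sum_lo {N M : ℕ} (h : N ≤ M) :
    Real.log (M + 1) - Real.log (N + 1) ≤ ∑ n ∈ Finset.Ioc N M, 1 / (n : ℝ) := by
  induction M, h using Nat.le_induction with
  | base => simp
  | succ M hM ih =>
    rw [← Finset.insert_Ioc_right_eq_Ioc_add_one hM, Finset.sum_insert (by simp)]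
    push_cast
    have hp : (0 : ℝ) < M + 1 := by positivity
    have h1 : Real.log ((M : ℝ) + 1 + 1) - Real.log (M + 1) ≤ 1 / ((M : ℝ) + 1) := by
      rw [← Real.log_div (by positivity) (by positivity)]
      have h2 := Real.log_le_sub_one_of_pos (show (0 : ℝ) < (M + 1 + 1) / (M + 1) by positivity)
      have h3 : ((M : ℝ) + 1 + 1) / (M + 1) - 1 = 1 / (M + 1) := by
        field_simp
        ring
      linarith
    linarith

private theorem sum_hi {N M : ℕ} (h : N + 1 ≤ M) :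
    ∑ n ∈ Finset.Ioc N M, 1 / (n : ℝ) ≤ 1 / ((N : ℝ) + 1) + Real.log M - Real.log (N + 1) := by
  induction M, h using Nat.le_induction with
  | base => simp
  | succ M hM ih =>
    rw [← Finset.insert_Ioc_right_eq_Ioc_add_one (by omega), Finset.sum_insert (by simp)]
    push_cast
    have hM0 : (0 : ℝ) < M := by
      have : 0 < M := by omega
      exact_mod_cast this
    have h1 : 1 / ((M : ℝ) + 1) ≤ Real.log ((M : ℝ) + 1) - Real.log M := by
      have h2 := Real.log_le_sub_one_of_pos (show (0 : ℝ) < M / (M + 1) by positivity)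
      rw [Real.log_div (by positivity) (by positivity)] at h2
      have h3 : (M : ℝ) / (M + 1) - 1 = -(1 / (M + 1)) := by
        field_simp
        ring
      linarith
    linarith

private theorem floor_le_floor {a b : ℝ} (h : a ≤ b) : ⌊Real.exp a⌋₊ ≤ ⌊Real.exp b⌋₊ :=
  Nat.floor_le_floor (Real.exp_le_exp.2 h)

private theorem log_hi {a b : ℝ} (h : ⌊Real.exp a⌋₊ + 1 ≤ ⌊Real.exp b⌋₊) :
    a ≤ Real.log ((⌊Real.exp a⌋₊ : ℝ) + 1) ∧ Real.log ⌊Real.exp b⌋₊ ≤ b ∧
      1 / ((⌊Real.exp a⌋₊ : ℝ) + 1) ≤ Real.exp (-a) := by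
  have h1 : Real.exp a < (⌊Real.exp a⌋₊ : ℝ) + 1 := Nat.lt_floor_add_one _
  have h2 : ((⌊Real.exp b⌋₊ : ℕ) : ℝ) ≤ Real.exp b := Nat.floor_le (Real.exp_pos b).le
  have h3 : (0 : ℝ) < ⌊Real.exp b⌋₊ := by
    have : 0 < ⌊Real.exp b⌋₊ := by omega
    exact_mod_cast this
  refine ⟨?_, ?_, ?_⟩
  · rw [Real.le_log_iff_exp_le (by positivity)]
    exact h1.le
  · rw [Real.log_le_iff_le_exp h3]
    exact h2
  · rw [Real.exp_neg, ← one_div]
    exact one_div_le_one_div_of_le (Real.exp_pos a) h1.le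

theorem sum_inv_Ic {a b : ℝ} (h : a ≤ b) : |∑ n ∈ Ic a b, 1 / (n : ℝ) - (b - a)| ≤ Real.exp (-a) := by
  rw [Ic_eq, abs_le]
  constructor
  · have h1 := sum_lo (floor_le_floor h)
    have h2 : b ≤ Real.log ((⌊Real.exp b⌋₊ : ℝ) + 1) := by
      rw [Real.le_log_iff_exp_le (by positivity)]
      exact (Nat.lt_floor_add_one _).le
    have h3 : Real.log ((⌊Real.exp a⌋₊ : ℝ) + 1) ≤ a + Real.exp (-a) := by
      have h4 : ((⌊Real.exp a⌋₊ : ℕ) : ℝ) ≤ Real.exp a := Nat.floor_le (Real.exp_pos a).le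
      have h5 : Real.log ((⌊Real.exp a⌋₊ : ℝ) + 1) ≤ Real.log (Real.exp a * (1 + Real.exp (-a))) := by
        refine Real.log_le_log (by positivity) ?_
        rw [mul_add, mul_one, ← Real.exp_add, add_neg_cancel, Real.exp_zero]
        linarith
      rw [Real.log_mul (Real.exp_pos a).ne' (by positivity), Real.log_exp] at h5
      have h6 := Real.log_le_sub_one_of_pos (show 0 < 1 + Real.exp (-a) by positivity)
      linarith
    linarith
  · rcases (floor_le_floor h).eq_or_lt with he | hl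
    · rw [he]
      simp only [Finset.Ioc_self, Finset.sum_empty]
      have := (Real.exp_pos (-a)).le
      linarith
    · have h1 := sum_hi hl
      obtain ⟨h2, h3, h4⟩ := log_hi hl
      linarith

theorem sum_inv_Ic_le {a b : ℝ} (h : a ≤ b) : ∑ n ∈ Ic a b, 1 / (n : ℝ) ≤ b - a + 1 := by
  rw [Ic_eq]
  rcases (floor_le_floor h).eq_or_lt with he | hl
  · rw [he]
    simp only [Finset.Ioc_self, Finset.sum_empty]
    linarith
  · have h1 := sum_hi hl
    obtain ⟨h2, h3, h4⟩ := log_hi hl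
    have h5 : 1 / ((⌊Real.exp a⌋₊ : ℝ) + 1) ≤ 1 := by
      rw [div_le_one (by positivity)]
      have : (0 : ℝ) ≤ ⌊Real.exp a⌋₊ := Nat.cast_nonneg _
      linarith
    linarith

private theorem sum_dvd (a b : ℝ) {d : ℕ} (hd : 0 < d) :
    ∑ n ∈ (Ic a b).filter (d ∣ ·), 1 / (n : ℝ) =
      (∑ m ∈ Ic (a - Real.log d) (b - Real.log d), 1 / (m : ℝ)) / d := by
  have hd' : (0 : ℝ) < d := by exact_mod_cast hd
  have e : (Ic a b).filter (d ∣ ·) = (Ic (a - Real.log d) (b - Real.log d)).image (d * ·) := by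
    ext n
    rw [Finset.mem_filter, Finset.mem_image]
    constructor
    · rintro ⟨hn, m, rfl⟩
      have h1 := one_le_of_mem hn
      have hm : 1 ≤ m := by
        rcases Nat.eq_zero_or_pos m with h0 | h0
        · rw [h0, mul_zero] at h1
          omega
        · exact h0
      have hm' : (0 : ℝ) < m := by exact_mod_cast hm
      refine ⟨m, ?_, rfl⟩
      rw [mem_Ic_log hm]
      rw [mem_Ic_log h1, Nat.cast_mul, Real.log_mul hd'.ne' hm'.ne'] at hn
      constructor <;> linarith [hn.1, hn.2]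
    · rintro ⟨m, hm, rfl⟩
      have h1 := one_le_of_mem hm
      have hm' : (0 : ℝ) < m := by exact_mod_cast h1
      refine ⟨?_, dvd_mul_right _ _⟩
      rw [mem_Ic_log h1] at hm
      show d * m ∈ Ic a b
      rw [mem_Ic_log (Nat.mul_pos hd h1), Nat.cast_mul, Real.log_mul hd'.ne' hm'.ne']
      constructor <;> linarith [hm.1, hm.2]
  rw [e, Finset.sum_image, Finset.sum_div]
  · refine Finset.sum_congr rfl fun m hm => ?_
    rw [Nat.cast_mul]
    have hm' : (0 : ℝ) < m := by exact_mod_cast one_le_of_mem hm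
    field_simp
  · intro x _ y _ hxy
    exact Nat.eq_of_mul_eq_mul_left hd hxy

theorem sum_inv_Ic_dvd {a b : ℝ} (h : a ≤ b) {d : ℕ} (hd : 0 < d) :
    |∑ n ∈ (Ic a b).filter (d ∣ ·), 1 / (n : ℝ) - (b - a) / d| ≤ Real.exp (-a) := by
  have hd' : (0 : ℝ) < d := by exact_mod_cast hd
  have h1 := sum_inv_Ic (show a - Real.log d ≤ b - Real.log d by linarith)
  rw [sum_dvd a b hd, ← sub_div, abs_div, abs_of_pos hd', div_le_iff₀ hd']
  have h2 : Real.exp (-(a - Real.log d)) = Real.exp (-a) * d := by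
    rw [neg_sub, sub_eq_add_neg, add_comm, Real.exp_add, Real.exp_log hd']
  rw [h2] at h1
  have h3 : b - Real.log d - (a - Real.log d) = b - a := by ring
  rw [h3] at h1
  exact h1

theorem sum_inv_Ic_dvd_le {a b : ℝ} (h : a ≤ b) {d : ℕ} (hd : 0 < d) :
    ∑ n ∈ (Ic a b).filter (d ∣ ·), 1 / (n : ℝ) ≤ (b - a + 1) / d := by
  have hd' : (0 : ℝ) < d := by exact_mod_cast hd
  have h1 := sum_inv_Ic_le (show a - Real.log d ≤ b - Real.log d by linarith)
  rw [sum_dvd a b hd]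
  refine div_le_div_of_nonneg_right ?_ hd'.le
  linarith

private theorem cell {H : ℕ} (hH : 1 ≤ H) {c p : ℕ} (hp : 1 ≤ p) :
    p ∈ Ic ((c : ℝ) / H) (((c : ℝ) + 1) / H) ↔ (c : ℝ) < H * Real.log p ∧ H * Real.log p ≤ c + 1 := by
  have hH' : (0 : ℝ) < H := by exact_mod_cast hH
  rw [mem_Ic_log hp, div_lt_iff₀ hH', le_div_iff₀ hH', mul_comm]

/-- Cells of a block. -/
theorem Bk_eq {H : ℕ} (hH : 1 ≤ H) (a b : ℕ) : Bk a b = (Ico (H * a) (H * b)).biUnion (Cl H) := by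
  have hH' : (0 : ℝ) < H := by exact_mod_cast hH
  ext p
  rw [Finset.mem_biUnion]
  unfold Bk Cl
  constructor
  · intro hp
    obtain ⟨h1, h2⟩ := Finset.mem_filter.1 hp
    have hp1 := h2.one_lt.le
    obtain ⟨h3, h4⟩ := (mem_Ic_log hp1).1 h1
    have h5 : ((H * a : ℕ) : ℝ) < H * Real.log p := by
      push_cast
      exact mul_lt_mul_of_pos_left h3 hH'
    have h6 : H * Real.log p ≤ ((H * b : ℕ) : ℝ) := by
      push_cast
      exact mul_le_mul_of_nonneg_left h4 hH'.le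
    have h7 : H * a < ⌈H * Real.log p⌉₊ := Nat.lt_ceil.2 h5
    have h8 : ⌈H * Real.log p⌉₊ ≤ H * b := Nat.ceil_le.2 h6
    obtain ⟨c, hc⟩ : ∃ c, ⌈H * Real.log p⌉₊ = c + 1 := ⟨⌈H * Real.log p⌉₊ - 1, by omega⟩
    refine ⟨c, Finset.mem_Ico.2 ⟨by omega, by omega⟩, Finset.mem_filter.2 ⟨?_, h2⟩⟩
    rw [cell hH hp1]
    constructor
    · exact Nat.lt_ceil.1 (by omega)
    · have h9 := Nat.le_ceil (H * Real.log p)
      rw [hc] at h9
      exact_mod_cast h9
  · rintro ⟨c, hc, hp⟩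
    obtain ⟨hc1, hc2⟩ := Finset.mem_Ico.1 hc
    obtain ⟨h1, h2⟩ := Finset.mem_filter.1 hp
    have hp1 := h2.one_lt.le
    obtain ⟨h3, h4⟩ := (cell hH hp1).1 h1
    refine Finset.mem_filter.2 ⟨(mem_Ic_log hp1).2 ⟨?_, ?_⟩, h2⟩
    · have h5 : ((H * a : ℕ) : ℝ) ≤ c := by exact_mod_cast hc1
      push_cast at h5
      exact lt_of_mul_lt_mul_left (lt_of_le_of_lt h5 h3) hH'.le
    · have h5 : ((c + 1 : ℕ) : ℝ) ≤ ((H * b : ℕ) : ℝ) := by exact_mod_cast hc2
      push_cast at h5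
      exact le_of_mul_le_mul_left (le_trans h4 h5) hH'

theorem Cl_disj {H : ℕ} (hH : 1 ≤ H) {c c' : ℕ} (h : c ≠ c') : Disjoint (Cl H c) (Cl H c') := by
  rw [Finset.disjoint_left]
  intro p hp hp'
  unfold Cl at hp hp'
  obtain ⟨h1, h2⟩ := Finset.mem_filter.1 hp
  obtain ⟨h1', _⟩ := Finset.mem_filter.1 hp'
  have hp1 := h2.one_lt.le
  obtain ⟨h3, h4⟩ := (cell hH hp1).1 h1
  obtain ⟨h3', h4'⟩ := (cell hH hp1).1 h1'
  apply h
  have h5 : (c : ℝ) < (c' : ℝ) + 1 := lt_of_lt_of_le h3 h4'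
  have h6 : (c' : ℝ) < (c : ℝ) + 1 := lt_of_lt_of_le h3' h4
  have h7 : c < c' + 1 := by exact_mod_cast h5
  have h8 : c' < c + 1 := by exact_mod_cast h6
  omega

end MRT
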