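import Mathlib

/-!
# Project MRT (MP_a4fdfa_an): means of real completely multiplicative functions in short intervals: definitions
-/

set_option autoImplicit false

namespace MRT

open Finset

/-- `n^{-it}`. -/
noncomputable def cp (n : ℕ) (t : ℝ) : ℂ := Complex.exp ((-(t * Real.log n) : ℝ) * Complex.I)

/-- `e(x) = exp(2 π i x)`. -/
noncomputable def ee (x : ℝ) : ℂ := Complex.exp ((2 * Real.pi * x : ℝ) * Complex.I)

/-- Dirichlet polynomial `∑ a_n n^{-1-it}`. -/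
noncomputable def Dp (s : Finset ℕ) (a : ℕ → ℂ) (t : ℝ) : ℂ := ∑ n ∈ s, a n / n * cp n t

/-- The `n` with `e^a < n ≤ e^b`. -/
noncomputable def Ic (a b : ℝ) : Finset ℕ := (range (⌊Real.exp b⌋₊ + 1)).filter fun n => Real.exp a < n

/-- Real completely multiplicative functions with values `± 1` on the positive integers. -/
structure CMr (f : ℕ → ℝ) : Prop where
  sgn : ∀ n, 0 < n → f n = 1 ∨ f n = -1
  mul : ∀ a b, 0 < a → 0 < b → f (a * b) = f a * f b

/-- Complex completely multiplicative functions bounded by `1`. -/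
structure CMc (g : ℕ → ℂ) : Prop where
  one : g 1 = 1
  bd : ∀ n, 0 < n → ‖g n‖ ≤ 1
  mul : ∀ a b, 0 < a → 0 < b → g (a * b) = g a * g b

/-- `∑_{e^v < n ≤ e^{v+1}} f(n) n^{-1-it}`. -/
noncomputable def Av (f : ℕ → ℝ) (v t : ℝ) : ℂ := Dp (Ic v (v + 1)) (fun n => (f n : ℂ)) t

/-- The primes with `e^{c/H} < p ≤ e^{(c+1)/H}`. -/
noncomputable def Cl (H c : ℕ) : Finset ℕ := (Ic ((c : ℝ) / H) (((c : ℝ) + 1) / H)).filter Nat.Prime

/-- The prime polynomial of a cell. -/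
noncomputable def Qc (f : ℕ → ℝ) (H c : ℕ) (t : ℝ) : ℂ := Dp (Cl H c) (fun n => (f n : ℂ)) t

/-- The primes with `e^a < p ≤ e^b`. -/
noncomputable def Bk (a b : ℕ) : Finset ℕ := (Ic (a : ℝ) (b : ℝ)).filter Nat.Prime

/-- `∑_{p ∈ P} 1/p`. -/
noncomputable def Ws (P : Finset ℕ) : ℝ := ∑ p ∈ P, 1 / (p : ℝ)

/-- Number of the `p ∈ P` which divide `n`. -/
def om (P : Finset ℕ) (n : ℕ) : ℕ := (P.filter fun p => p ∣ n).card

/-- `1`-spaced finite sets. -/
def Sp (S : Finset ℝ) : Prop := ∀ t ∈ S, ∀ t' ∈ S, t ≠ t' → 1 ≤ |t - t'|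

/-- The weight `(2 - |H (y - x)|)⁺`. -/
noncomputable def trw (H x y : ℝ) : ℝ := max 0 (2 - |H * (y - x)|)

/-- Smooth exponential sums. -/
noncomputable def kk (H x u : ℝ) : ℂ := ∑ n ∈ Ic (x - 3) (x + 3), ((trw H x (Real.log n) / n : ℝ) : ℂ) * cp n u

/-- `∫ (2 - |s|)⁺ e^{-ius/H} ds / H`. -/
noncomputable def jj (H u : ℝ) : ℝ := if u = 0 then 4 / H else 2 * H * (1 - Real.cos (2 * u / H)) / u ^ 2

end MRT
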