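import Pool.Agent.MRT.Bas

/-!
# MRT-Dua: duality
-/

set_option autoImplicit false

namespace MRT

open Finset

theorem dual (s s' : Finset ℕ) (w : ℕ → ℝ) (a : ℕ → ℂ) (𝒯 : Finset ℝ) {M : ℝ} (hM0 : 0 ≤ M) (hw0 : ∀ n ∈ s', 0 ≤ w n) (hs : s ⊆ s')
    (hw : ∀ n ∈ s, 1 / (n : ℝ) ≤ w n) (hM : ∀ t ∈ 𝒯, ∑ t' ∈ 𝒯, ‖∑ n ∈ s', (w n : ℂ) * cp n (t - t')‖ ≤ M) :
    ∑ t ∈ 𝒯, ‖Dp s a t‖ ^ 2 ≤ M * ∑ n ∈ s, ‖a n‖ ^ 2 / n := by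
  obtain ⟨A, hA⟩ : ∃ A : ℝ → ℂ, A = Dp s a := ⟨_, rfl⟩
  obtain ⟨k, hk⟩ : ∃ k : ℝ → ℂ, ∀ u, k u = ∑ n ∈ s', (w n : ℂ) * cp n u := ⟨_, fun _ => rfl⟩
  obtain ⟨B, hB⟩ : ∃ B : ℕ → ℂ, ∀ n, B n = ∑ t ∈ 𝒯, (starRingEnd ℂ) (A t) * cp n t := ⟨_, fun _ => rfl⟩
  obtain ⟨S, hS⟩ : ∃ S : ℝ, S = ∑ t ∈ 𝒯, ‖A t‖ ^ 2 := ⟨_, rfl⟩
  obtain ⟨N, hN⟩ : ∃ N : ℝ, N = ∑ n ∈ s, ‖a n‖ ^ 2 / n := ⟨_, rfl⟩
  rw [← hA, ← hS, ← hN]
  have hS0 : 0 ≤ S := by rw [hS]; positivity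
  have hN0 : 0 ≤ N := by rw [hN]; positivity
  have hsq : ∀ z : ℂ, ((‖z‖ : ℝ) : ℂ) ^ 2 = z * (starRingEnd ℂ) z := by
    intro z
    rw [Complex.mul_conj, Complex.normSq_eq_norm_sq]
    push_cast
    rfl
  have e1 : (S : ℂ) = ∑ n ∈ s, (a n / n) * B n := by
    rw [hS]
    push_cast
    have h1 : ∀ t ∈ 𝒯, ((‖A t‖ : ℝ) : ℂ) ^ 2 = ∑ n ∈ s, (starRingEnd ℂ) (A t) * (a n / n * cp n t) := by
      intro t _
      rw [← Finset.mul_sum]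
      have h2 : ∑ n ∈ s, a n / n * cp n t = A t := by rw [hA]; rfl
      rw [h2, hsq, mul_comm]
    rw [Finset.sum_congr rfl h1, Finset.sum_comm]
    refine Finset.sum_congr rfl fun n _ => ?_
    rw [hB, Finset.mul_sum]
    refine Finset.sum_congr rfl fun t _ => ?_
    ring
  have e2 : S ≤ ∑ n ∈ s, (‖a n‖ / n) * ‖B n‖ := by
    have h1 : ‖(S : ℂ)‖ = S := by rw [Complex.norm_real, Real.norm_of_nonneg hS0]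
    rw [← h1, e1]
    refine (norm_sum_le _ _).trans (le_of_eq ?_)
    refine Finset.sum_congr rfl fun n _ => ?_
    rw [norm_mul, norm_div, Complex.norm_natCast]
  have e3 : (∑ n ∈ s, (‖a n‖ / n) * ‖B n‖) ^ 2 ≤ N * ∑ n ∈ s, (1 / (n : ℝ)) * ‖B n‖ ^ 2 := by
    have h1 := Finset.sum_mul_sq_le_sq_mul_sq s (fun n : ℕ => ‖a n‖ / √(n : ℝ)) (fun n : ℕ => ‖B n‖ / √(n : ℝ))
    have h2 : ∑ n ∈ s, (‖a n‖ / √(n : ℝ)) * (‖B n‖ / √(n : ℝ)) = ∑ n ∈ s, (‖a n‖ / n) * ‖B n‖ := by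
      refine Finset.sum_congr rfl fun n _ => ?_
      rw [div_mul_div_comm, Real.mul_self_sqrt (Nat.cast_nonneg n)]
      ring
    have h3 : ∑ n ∈ s, (‖a n‖ / √(n : ℝ)) ^ 2 = N := by
      rw [hN]
      refine Finset.sum_congr rfl fun n _ => ?_
      rw [div_pow, Real.sq_sqrt (Nat.cast_nonneg n)]
    have h4 : ∑ n ∈ s, (‖B n‖ / √(n : ℝ)) ^ 2 = ∑ n ∈ s, (1 / (n : ℝ)) * ‖B n‖ ^ 2 := by
      refine Finset.sum_congr rfl fun n _ => ?_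
      rw [div_pow, Real.sq_sqrt (Nat.cast_nonneg n)]
      ring
    rw [h2, h3, h4] at h1
    exact h1
  have e4 : ∑ n ∈ s, (1 / (n : ℝ)) * ‖B n‖ ^ 2 ≤ ∑ n ∈ s', w n * ‖B n‖ ^ 2 := by
    refine (Finset.sum_le_sum fun n hn => mul_le_mul_of_nonneg_right (hw n hn) (sq_nonneg _)).trans ?_
    exact Finset.sum_le_sum_of_subset_of_nonneg hs fun n hn _ => mul_nonneg (hw0 n hn) (sq_nonneg _)
  have e5 : ((∑ n ∈ s', w n * ‖B n‖ ^ 2 : ℝ) : ℂ) =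
      ∑ t ∈ 𝒯, ∑ t' ∈ 𝒯, (starRingEnd ℂ) (A t) * A t' * k (t - t') := by
    push_cast
    have h1 : ∀ n, ((‖B n‖ : ℝ) : ℂ) ^ 2 =
        ∑ t ∈ 𝒯, ∑ t' ∈ 𝒯, (starRingEnd ℂ) (A t) * A t' * cp n (t - t') := by
      intro n
      rw [hsq, hB, map_sum, Finset.sum_mul_sum]
      refine Finset.sum_congr rfl fun t _ => Finset.sum_congr rfl fun t' _ => ?_
      rw [map_mul, Complex.conj_conj, cp_conj, sub_eq_add_neg, cp_add]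
      ring
    have h2 : ∀ n ∈ s', (w n : ℂ) * ((‖B n‖ : ℝ) : ℂ) ^ 2 =
        ∑ t ∈ 𝒯, ∑ t' ∈ 𝒯, (starRingEnd ℂ) (A t) * A t' * ((w n : ℂ) * cp n (t - t')) := by
      intro n _
      rw [h1, Finset.mul_sum]
      refine Finset.sum_congr rfl fun t _ => ?_
      rw [Finset.mul_sum]
      refine Finset.sum_congr rfl fun t' _ => ?_
      ring
    rw [Finset.sum_congr rfl h2, Finset.sum_comm]
    refine Finset.sum_congr rfl fun t _ => ?_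
    rw [Finset.sum_comm]
    refine Finset.sum_congr rfl fun t' _ => ?_
    rw [hk, Finset.mul_sum]
  have hksym : ∀ u, ‖k (-u)‖ = ‖k u‖ := by
    intro u
    have h1 : k (-u) = (starRingEnd ℂ) (k u) := by
      rw [hk, hk, map_sum]
      refine Finset.sum_congr rfl fun n _ => ?_
      rw [map_mul, Complex.conj_ofReal, cp_conj]
    rw [h1, Complex.norm_conj]
  have hM' : ∀ t ∈ 𝒯, ∑ t' ∈ 𝒯, ‖k (t - t')‖ ≤ M := by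
    intro t ht
    refine le_trans (le_of_eq ?_) (hM t ht)
    refine Finset.sum_congr rfl fun t' _ => ?_
    rw [hk]
  have e6 : ∑ n ∈ s', w n * ‖B n‖ ^ 2 ≤ M * S := by
    have h1 : ∑ n ∈ s', w n * ‖B n‖ ^ 2 ≤ ‖((∑ n ∈ s', w n * ‖B n‖ ^ 2 : ℝ) : ℂ)‖ := by
      rw [Complex.norm_real]
      exact le_abs_self _
    refine h1.trans ?_
    rw [e5]
    have h2 : ‖∑ t ∈ 𝒯, ∑ t' ∈ 𝒯, (starRingEnd ℂ) (A t) * A t' * k (t - t')‖ ≤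
        ∑ t ∈ 𝒯, ∑ t' ∈ 𝒯, (‖A t‖ ^ 2 / 2 * ‖k (t - t')‖ + ‖A t'‖ ^ 2 / 2 * ‖k (t - t')‖) := by
      refine (norm_sum_le _ _).trans (Finset.sum_le_sum fun t _ => ?_)
      refine (norm_sum_le _ _).trans (Finset.sum_le_sum fun t' _ => ?_)
      rw [norm_mul, norm_mul, Complex.norm_conj, ← add_mul]
      refine mul_le_mul_of_nonneg_right ?_ (norm_nonneg _)
      nlinarith [sq_nonneg (‖A t‖ - ‖A t'‖)]
    refine h2.trans ?_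
    have h3 : ∑ t ∈ 𝒯, ∑ t' ∈ 𝒯, (‖A t‖ ^ 2 / 2 * ‖k (t - t')‖ + ‖A t'‖ ^ 2 / 2 * ‖k (t - t')‖) =
        ∑ t ∈ 𝒯, ‖A t‖ ^ 2 / 2 * ∑ t' ∈ 𝒯, ‖k (t - t')‖ +
          ∑ t' ∈ 𝒯, ‖A t'‖ ^ 2 / 2 * ∑ t ∈ 𝒯, ‖k (t - t')‖ := by
      rw [Finset.sum_congr rfl fun t _ => Finset.sum_add_distrib, Finset.sum_add_distrib]
      congr 1
      · refine Finset.sum_congr rfl fun t _ => ?_
        rw [Finset.mul_sum]
      · rw [Finset.sum_comm]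
        refine Finset.sum_congr rfl fun t _ => ?_
        rw [Finset.mul_sum]
    rw [h3]
    have h4 : ∑ t ∈ 𝒯, ‖A t‖ ^ 2 / 2 * ∑ t' ∈ 𝒯, ‖k (t - t')‖ ≤ M * S / 2 := by
      have h5 : ∑ t ∈ 𝒯, ‖A t‖ ^ 2 / 2 * ∑ t' ∈ 𝒯, ‖k (t - t')‖ ≤ ∑ t ∈ 𝒯, ‖A t‖ ^ 2 / 2 * M :=
        Finset.sum_le_sum fun t ht => mul_le_mul_of_nonneg_left (hM' t ht) (by positivity)
      refine h5.trans (le_of_eq ?_)
      rw [← Finset.sum_mul, ← Finset.sum_div, ← hS]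
      ring
    have h6 : ∑ t' ∈ 𝒯, ‖A t'‖ ^ 2 / 2 * ∑ t ∈ 𝒯, ‖k (t - t')‖ ≤ M * S / 2 := by
      have h5 : ∑ t' ∈ 𝒯, ‖A t'‖ ^ 2 / 2 * ∑ t ∈ 𝒯, ‖k (t - t')‖ ≤ ∑ t ∈ 𝒯, ‖A t‖ ^ 2 / 2 * M := by
        refine Finset.sum_le_sum fun t' ht' => mul_le_mul_of_nonneg_left ?_ (by positivity)
        refine le_trans (le_of_eq ?_) (hM' t' ht')
        refine Finset.sum_congr rfl fun t _ => ?_
        rw [← hksym, neg_sub]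
      refine h5.trans (le_of_eq ?_)
      rw [← Finset.sum_mul, ← Finset.sum_div, ← hS]
      ring
    linarith
  have e7 : S ^ 2 ≤ N * (M * S) := by
    calc S ^ 2 ≤ (∑ n ∈ s, (‖a n‖ / n) * ‖B n‖) ^ 2 := pow_le_pow_left₀ hS0 e2 2
      _ ≤ N * ∑ n ∈ s, (1 / (n : ℝ)) * ‖B n‖ ^ 2 := e3
      _ ≤ N * (M * S) := mul_le_mul_of_nonneg_left (e4.trans e6) hN0
  rcases eq_or_lt_of_le hS0 with h0 | h0
  · rw [← h0]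
    exact mul_nonneg hM0 hN0
  · have h1 : S * S ≤ (M * N) * S := by nlinarith
    exact le_of_mul_le_mul_right h1 h0

end MRT
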