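import Pool.Agent.MRT.Mva

/-!
# MRT-EnA: short averages and smoothed sums

`SK f K x = (1/K) ∑_{x < n ≤ x+K} f n`.
-/

set_option autoImplicit false

namespace MRT

open Finset MeasureTheory

noncomputable def SK (f : ℕ → ℝ) (K x : ℕ) : ℝ := (∑ n ∈ Ioc x (x + K), f n) / K

/-- Gaussian weight -/
private noncomputable def gk (T z y : ℝ) : ℝ := Real.exp (-(T * (z - y)) ^ 2 / 2)

private theorem gk_nonneg (T z y : ℝ) : 0 ≤ gk T z y := (Real.exp_pos _).le

private theorem gk_cont (T z : ℝ) : Continuous (gk T z) := by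
  unfold gk
  fun_prop

private theorem gk_int {T : ℝ} (hT : 0 < T) (z : ℝ) :
    Integrable (gk T z) ∧ ∫ y, gk T z y = Real.sqrt (2 * Real.pi) / T := by
  have h1 : gk T z = fun y => (fun u : ℝ => Real.exp (-(T ^ 2 / 2) * u ^ 2)) (y - z) := by
    funext y
    unfold gk
    congr 1
    ring
  have hb : 0 < T ^ 2 / 2 := by positivity
  constructor
  · rw [h1]
    exact (integrable_exp_neg_mul_sq hb).comp_sub_right z
  · rw [h1, integral_sub_right_eq_self (fun u : ℝ => Real.exp (-(T ^ 2 / 2) * u ^ 2)) z, integral_gaussian]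
    have h2 : Real.pi / (T ^ 2 / 2) = (2 * Real.pi) / T ^ 2 := by
      field_simp
    rw [h2, Real.sqrt_div (by positivity), Real.sqrt_sq hT.le]

private theorem gk_le {T z A y : ℝ} (h : 0 ≤ (z - A) * (A - y)) :
    gk T z y ≤ Real.exp (-(T * (z - A)) ^ 2 / 2) * gk T A y := by
  unfold gk
  rw [← Real.exp_add]
  apply Real.exp_le_exp.2
  have h1 : -(T * (z - A)) ^ 2 / 2 + -(T * (A - y)) ^ 2 / 2 - -(T * (z - y)) ^ 2 / 2 = T ^ 2 * ((z - A) * (A - y)) := by
    ring
  have h2 : 0 ≤ T ^ 2 * ((z - A) * (A - y)) := by positivity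
  linarith

private theorem gk_set {T : ℝ} (hT : 0 < T) {z A : ℝ} {S : Set ℝ} (hS : MeasurableSet S)
    (h : ∀ y ∈ S, 0 ≤ (z - A) * (A - y)) :
    ∫ y in S, gk T z y ≤ Real.exp (-(T * (z - A)) ^ 2 / 2) * (Real.sqrt (2 * Real.pi) / T) := by
  obtain ⟨hi, -⟩ := gk_int hT z
  obtain ⟨hi', h2⟩ := gk_int hT A
  calc ∫ y in S, gk T z y ≤ ∫ y in S, Real.exp (-(T * (z - A)) ^ 2 / 2) * gk T A y :=
        setIntegral_mono_on hi.integrableOn (hi'.const_mul _).integrableOn hS fun y hy => gk_le (h y hy)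
    _ = Real.exp (-(T * (z - A)) ^ 2 / 2) * ∫ y in S, gk T A y := integral_const_mul _ _
    _ ≤ Real.exp (-(T * (z - A)) ^ 2 / 2) * ∫ y, gk T A y := by
        refine mul_le_mul_of_nonneg_left ?_ (Real.exp_pos _).le
        exact setIntegral_le_integral hi' (Filter.Eventually.of_forall fun y => gk_nonneg T A y)
    _ = _ := by rw [h2]

private theorem gk_ind {T : ℝ} (hT : 0 < T) {z A B : ℝ} (hAB : A ≤ B) :
    |(∫ y in A..B, gk T z y) - (if A < z ∧ z ≤ B then Real.sqrt (2 * Real.pi) / T else 0)| ≤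
      (Real.exp (-(T * (z - A)) ^ 2 / 2) + Real.exp (-(T * (z - B)) ^ 2 / 2)) * (Real.sqrt (2 * Real.pi) / T) := by
  obtain ⟨hi, h2⟩ := gk_int hT z
  have hG : 0 < Real.sqrt (2 * Real.pi) / T := by positivity
  have e1 := Real.exp_pos (-(T * (z - A)) ^ 2 / 2)
  have e2 := Real.exp_pos (-(T * (z - B)) ^ 2 / 2)
  have h0 : 0 ≤ ∫ y in A..B, gk T z y := intervalIntegral.integral_nonneg hAB fun y _ => gk_nonneg T z y
  have hIoc : ∫ y in A..B, gk T z y = ∫ y in Set.Ioc A B, gk T z y := intervalIntegral.integral_of_le hAB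
  split_ifs with hz
  · have h3 := intervalIntegral.integral_Iic_sub_Iic (a := A) (b := B) (f := gk T z) (μ := volume)
      hi.integrableOn hi.integrableOn
    have h4 := intervalIntegral.integral_Iic_add_Ioi (b := B) (f := gk T z) (μ := volume)
      hi.integrableOn hi.integrableOn
    have h5 : ∫ y in Set.Iic A, gk T z y ≤ _ := gk_set hT (z := z) (A := A) measurableSet_Iic (by
      intro y hy
      have h6 : y ≤ A := hy
      exact mul_nonneg (by linarith [hz.1]) (by linarith))
    have h7 : ∫ y in Set.Ioi B, gk T z y ≤ _ := gk_set hT (z := z) (A := B) measurableSet_Ioi (by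
      intro y hy
      have h6 : B < y := hy
      exact mul_nonneg_of_nonpos_of_nonpos (by linarith [hz.2]) (by linarith))
    have h8 : 0 ≤ ∫ y in Set.Iic A, gk T z y := integral_nonneg fun y => gk_nonneg T z y
    have h9 : 0 ≤ ∫ y in Set.Ioi B, gk T z y := integral_nonneg fun y => gk_nonneg T z y
    rw [abs_le]
    constructor
    · rw [add_mul]
      linarith
    · have h10 : 0 ≤ (Real.exp (-(T * (z - A)) ^ 2 / 2) + Real.exp (-(T * (z - B)) ^ 2 / 2)) * (Real.sqrt (2 * Real.pi) / T) := by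
        positivity
      linarith
  · rw [sub_zero, abs_of_nonneg h0, hIoc, add_mul]
    rw [not_and_or, not_lt, not_le] at hz
    rcases hz with hz | hz
    · have h5 := gk_set hT (z := z) (A := A) (S := Set.Ioc A B) measurableSet_Ioc (by
        intro y hy
        exact mul_nonneg_of_nonpos_of_nonpos (by linarith) (by linarith [hy.1]))
      have h6 := mul_pos e2 hG
      linarith
    · have h5 := gk_set hT (z := z) (A := B) (S := Set.Ioc A B) measurableSet_Ioc (by
        intro y hy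
        exact mul_nonneg (by linarith) (by linarith [hy.2]))
      have h6 := mul_pos e1 hG
      linarith

private theorem sum_geo {a : ℝ} (ha : 1 ≤ a) (x : ℕ) (s : Finset ℕ) :
    ∑ n ∈ s, Real.exp (-(|(n : ℝ) - x| / a)) ≤ 4 * a := by
  have ha0 : 0 < a := by linarith
  set r := Real.exp (-(1 / a)) with hr
  have hr0 : 0 ≤ r := (Real.exp_pos _).le
  have hr1 : r < 1 := by
    rw [hr, Real.exp_lt_one_iff]
    have : 0 < 1 / a := by positivity
    linarith
  have hpow : ∀ j : ℕ, Real.exp (-((j : ℝ) / a)) = r ^ j := by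
    intro j
    rw [hr, ← Real.exp_nat_mul]
    congr 1
    ring
  have hbound : (1 - r)⁻¹ ≤ 2 * a := by
    have h1 : r ≤ 1 / (1 + 1 / a) := by
      rw [hr, Real.exp_neg, ← one_div]
      apply one_div_le_one_div_of_le (by positivity)
      have := Real.add_one_le_exp (1 / a)
      linarith
    have h2 : 1 / (1 + 1 / a) = 1 - 1 / (a + 1) := by
      field_simp
      ring
    have h3 : 1 / (a + 1) ≤ 1 - r := by linarith
    have h4 : 0 < 1 / (a + 1) := by positivity
    calc (1 - r)⁻¹ ≤ (1 / (a + 1))⁻¹ := inv_anti₀ h4 h3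
      _ = a + 1 := by rw [one_div, inv_inv]
      _ ≤ 2 * a := by linarith
  have hgeo : ∀ t : Finset ℕ, ∑ j ∈ t, r ^ j ≤ 2 * a := by
    intro t
    refine le_trans ?_ hbound
    rw [← tsum_geometric_of_lt_one hr0 hr1]
    exact Summable.sum_le_tsum t (fun j _ => pow_nonneg hr0 j) (summable_geometric_of_lt_one hr0 hr1)
  have hsplit : ∑ n ∈ s, Real.exp (-(|(n : ℝ) - x| / a)) =
      ∑ n ∈ s.filter (fun n => x ≤ n), Real.exp (-(|(n : ℝ) - x| / a)) +
        ∑ n ∈ s.filter (fun n => ¬ x ≤ n), Real.exp (-(|(n : ℝ) - x| / a)) :=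
    (Finset.sum_filter_add_sum_filter_not s _ _).symm
  rw [hsplit]
  have h1 : ∑ n ∈ s.filter (fun n => x ≤ n), Real.exp (-(|(n : ℝ) - x| / a)) ≤ 2 * a := by
    have h2 : ∑ n ∈ s.filter (fun n => x ≤ n), Real.exp (-(|(n : ℝ) - x| / a)) =
        ∑ j ∈ (s.filter (fun n => x ≤ n)).image (fun n => n - x), r ^ j := by
      rw [Finset.sum_image]
      · refine Finset.sum_congr rfl fun n hn => ?_
        have h3 : x ≤ n := (mem_filter.1 hn).2
        rw [← hpow, Nat.cast_sub h3, abs_of_nonneg]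
        have : (x : ℝ) ≤ n := by exact_mod_cast h3
        linarith
      · intro n hn m hm h
        have h3 : x ≤ n := (mem_filter.1 hn).2
        have h4 : x ≤ m := (mem_filter.1 hm).2
        have h5 : n - x = m - x := h
        omega
    rw [h2]
    exact hgeo _
  have h2 : ∑ n ∈ s.filter (fun n => ¬ x ≤ n), Real.exp (-(|(n : ℝ) - x| / a)) ≤ 2 * a := by
    have h2 : ∑ n ∈ s.filter (fun n => ¬ x ≤ n), Real.exp (-(|(n : ℝ) - x| / a)) =
        ∑ j ∈ (s.filter (fun n => ¬ x ≤ n)).image (fun n => x - n), r ^ j := by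
      rw [Finset.sum_image]
      · refine Finset.sum_congr rfl fun n hn => ?_
        have h3 : n < x := not_le.1 (mem_filter.1 hn).2
        rw [← hpow, Nat.cast_sub h3.le, abs_of_nonpos, neg_sub]
        have : (n : ℝ) ≤ x := by exact_mod_cast h3.le
        linarith
      · intro n hn m hm h
        have h3 : n < x := not_le.1 (mem_filter.1 hn).2
        have h4 : m < x := not_le.1 (mem_filter.1 hm).2
        have h5 : x - n = x - m := h
        omega
    rw [h2]
    exact hgeo _
  linarith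

private theorem lgap {a b Y : ℝ} (ha : 0 < a) (hb : 0 < b) (haY : a ≤ Y) (hbY : b ≤ Y) :
    |a - b| / Y ≤ |Real.log a - Real.log b| := by
  have key : ∀ a b : ℝ, 0 < a → a ≤ b → b ≤ Y → (b - a) / Y ≤ Real.log b - Real.log a := by
    intro a b ha hab hbY
    have hb : 0 < b := lt_of_lt_of_le ha hab
    have h1 := Real.log_le_sub_one_of_pos (div_pos ha hb)
    rw [Real.log_div ha.ne' hb.ne'] at h1
    have h2 : (b - a) / Y ≤ (b - a) / b := div_le_div_of_nonneg_left (by linarith) hb hbY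
    have h3 : (b - a) / b = 1 - a / b := by
      field_simp
    linarith
  rcases le_total a b with h | h
  · have h1 := key a b ha h hbY
    rw [abs_of_nonpos (by linarith), abs_of_nonpos (by linarith [Real.log_le_log ha h]), neg_sub, neg_sub]
    exact h1
  · have h1 := key b a hb h haY
    rw [abs_of_nonneg (by linarith), abs_of_nonneg (by linarith [Real.log_le_log hb h])]
    exact h1

private theorem sum_gauss {T Y a : ℝ} (hT : 0 < T) (ha : 1 ≤ a) (hY : T * a = Y) {x : ℕ} (hx : 0 < x) (hxY : (x : ℝ) ≤ Y)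
    {s : Finset ℕ} (hs : ∀ n ∈ s, 1 ≤ n ∧ (n : ℝ) ≤ Y) :
    ∑ n ∈ s, Real.exp (-(T * (Real.log n - Real.log x)) ^ 2 / 2) ≤ 8 * a := by
  have ha0 : 0 < a := by linarith
  have hY0 : 0 < Y := by rw [← hY]; positivity
  have h1 : ∀ n ∈ s, Real.exp (-(T * (Real.log n - Real.log x)) ^ 2 / 2) ≤ 2 * Real.exp (-(|(n : ℝ) - x| / a)) := by
    intro n hn
    have hn0 : (0 : ℝ) < n := by exact_mod_cast (hs n hn).1
    have hx0 : (0 : ℝ) < x := by exact_mod_cast hx
    have h2 := lgap hn0 hx0 (hs n hn).2 hxY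
    set u := |(n : ℝ) - x| / a with hu
    have hu0 : 0 ≤ u := by positivity
    have h3 : u ≤ |T * (Real.log n - Real.log x)| := by
      rw [abs_mul, abs_of_pos hT]
      calc u = T * (|(n : ℝ) - x| / Y) := by
            rw [hu, ← hY]
            field_simp
        _ ≤ _ := mul_le_mul_of_nonneg_left h2 hT.le
    have h4 : u ^ 2 ≤ (T * (Real.log n - Real.log x)) ^ 2 := by
      rw [← sq_abs (T * (Real.log n - Real.log x))]
      exact pow_le_pow_left₀ hu0 h3 2
    have h5 : Real.exp (1 / 2) ≤ 2 := by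
      have h6 : Real.exp (1 / 2) ^ 2 ≤ 2 ^ 2 := by
        rw [← Real.exp_nat_mul]
        have := Real.exp_one_lt_d9
        norm_num
        linarith
      exact (pow_le_pow_iff_left₀ (Real.exp_pos _).le (by norm_num) (by norm_num)).1 h6
    calc Real.exp (-(T * (Real.log n - Real.log x)) ^ 2 / 2) ≤ Real.exp (1 / 2 + -u) := by
          apply Real.exp_le_exp.2
          nlinarith [sq_nonneg (u - 1)]
      _ = Real.exp (1 / 2) * Real.exp (-u) := Real.exp_add _ _
      _ ≤ 2 * Real.exp (-u) := mul_le_mul_of_nonneg_right h5 (Real.exp_pos _).le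
  refine (Finset.sum_le_sum h1).trans ?_
  rw [← Finset.mul_sum]
  have h2 := sum_geo ha x s
  linarith

theorem sk_le : ∃ C : ℝ, 0 < C ∧ ∀ f : ℕ → ℝ, CMr f → ∀ K : ℕ, 1 ≤ K → ∀ h v : ℝ, 1 ≤ h → h ≤ K → (K : ℝ) ≤ Real.exp v → ∀ x ∈ Ic v (v + 1),
    |SK f K x| ≤ C * (Real.exp v / h * x / K) * (∫ y in (Real.log x)..(Real.log (x + K)), ‖Sm (Ic (v - 1) (v + 2)) (fun n => (f n : ℂ)) (Real.exp v / h) y‖) +
      C * (h / K + K / Real.exp v) := by
  refine ⟨1 + 16 * (Real.exp 2 * Real.exp 2), by positivity, ?_⟩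
  intro f hf K hK h v hh hhK hKv x hx
  have hx1 := one_le_of_mem hx
  rw [mem_Ic] at hx
  obtain ⟨hxv, hxv1⟩ := hx
  have hx0 : (0 : ℝ) < x := by exact_mod_cast hx1
  have hK0 : (0 : ℝ) < K := by exact_mod_cast hK
  have hh0 : 0 < h := by linarith
  have hev := Real.exp_pos v
  set T := Real.exp v / h with hT
  have hT0 : 0 < T := by positivity
  set s := Ic (v - 1) (v + 2) with hs
  set A := Real.log x with hA
  set B := Real.log ((x : ℝ) + K) with hB
  have hAB : A ≤ B := Real.log_le_log hx0 (by linarith)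
  set G := Real.sqrt (2 * Real.pi) / T with hG
  have hG0 : 0 < G := by positivity
  set a := Real.exp 2 * h with ha
  have he2 : 1 ≤ Real.exp 2 := Real.one_le_exp (by norm_num)
  have ha1 : 1 ≤ a := by nlinarith
  have hY : T * a = Real.exp (v + 2) := by
    rw [hT, ha, Real.exp_add]
    field_simp
  have hxK : (x : ℝ) + K ≤ Real.exp (v + 2) := by
    have h1 : Real.exp (v + 1) = Real.exp v * Real.exp 1 := Real.exp_add _ _
    have h2 : Real.exp (v + 2) = Real.exp v * (Real.exp 1 * Real.exp 1) := by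
      rw [← Real.exp_add, ← Real.exp_add]
      norm_num
    have h3 : (2 : ℝ) ≤ Real.exp 1 := by
      have := Real.add_one_le_exp (1 : ℝ)
      linarith
    rw [h1] at hxv1
    rw [h2]
    nlinarith
  have hsY : ∀ n ∈ s, 1 ≤ n ∧ (n : ℝ) ≤ Real.exp (v + 2) := fun n hn => ⟨one_le_of_mem hn, (mem_Ic.1 hn).2⟩
  have hS1 := sum_gauss hT0 ha1 hY hx1 (by linarith) hsY
  have hS2 := sum_gauss hT0 ha1 hY (x := x + K) (by omega) (by push_cast; exact hxK) hsY
  have hBc : Real.log ((x + K : ℕ) : ℝ) = B := by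
    rw [hB]
    push_cast
    rfl
  rw [hBc] at hS2
  -- the real smoothed sum
  have hSm : ∀ y, ‖Sm s (fun n => (f n : ℂ)) T y‖ = |∑ n ∈ s, f n / n * gk T (Real.log n) y| := by
    intro y
    have h1 : Sm s (fun n => (f n : ℂ)) T y = ((∑ n ∈ s, f n / n * gk T (Real.log n) y : ℝ) : ℂ) := by
      unfold Sm gk
      push_cast
      rfl
    rw [h1, Complex.norm_real, Real.norm_eq_abs]
  have hint : ∑ n ∈ s, f n / n * (∫ y in A..B, gk T (Real.log n) y) = ∫ y in A..B, ∑ n ∈ s, f n / n * gk T (Real.log n) y := by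
    rw [intervalIntegral.integral_finsetSum]
    · refine Finset.sum_congr rfl fun n _ => ?_
      rw [intervalIntegral.integral_const_mul]
    · intro n _
      exact ((gk_cont T (Real.log n)).const_mul _).intervalIntegrable _ _
  have hI : |∑ n ∈ s, f n / n * (∫ y in A..B, gk T (Real.log n) y)| ≤ ∫ y in A..B, ‖Sm s (fun n => (f n : ℂ)) T y‖ := by
    rw [hint]
    refine (intervalIntegral.abs_integral_le_integral_abs hAB).trans (le_of_eq ?_)
    congr 1
    funext y
    exact (hSm y).symm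
  -- the indicator
  have hind : ∑ n ∈ s, f n / n * (if A < Real.log n ∧ Real.log n ≤ B then G else 0) = G * ∑ n ∈ Ioc x (x + K), f n / n := by
    have h1 : ∀ n ∈ s, f n / n * (if A < Real.log n ∧ Real.log n ≤ B then G else 0) =
        if n ∈ Ioc x (x + K) then G * (f n / n) else 0 := by
      intro n hn
      have hn0 : (0 : ℝ) < n := by exact_mod_cast (hsY n hn).1
      have h2 : (A < Real.log n ∧ Real.log n ≤ B) ↔ n ∈ Ioc x (x + K) := by
        rw [mem_Ioc, hA, hB, Real.log_lt_log_iff hx0 hn0, Real.log_le_log_iff hn0 (by linarith)]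
        constructor
        · rintro ⟨h3, h4⟩
          exact ⟨by exact_mod_cast h3, by exact_mod_cast h4⟩
        · rintro ⟨h3, h4⟩
          exact ⟨by exact_mod_cast h3, by exact_mod_cast h4⟩
      by_cases h3 : n ∈ Ioc x (x + K)
      · rw [if_pos (h2.2 h3), if_pos h3, mul_comm]
      · rw [if_neg (fun h4 => h3 (h2.1 h4)), if_neg h3, mul_zero]
    rw [Finset.sum_congr rfl h1, ← Finset.sum_filter, Finset.mul_sum]
    refine Finset.sum_congr ?_ fun _ _ => rfl
    ext n
    rw [mem_filter]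
    constructor
    · exact fun h => h.2
    · intro hn
      refine ⟨?_, hn⟩
      rw [mem_Ioc] at hn
      rw [hs, mem_Ic]
      have h3 : (x : ℝ) < n := by exact_mod_cast hn.1
      have h4 : (n : ℝ) ≤ x + K := by exact_mod_cast hn.2
      refine ⟨?_, by linarith⟩
      have h5 : Real.exp (v - 1) ≤ Real.exp v := Real.exp_le_exp.2 (by linarith)
      linarith
  have hfn : ∀ n : ℕ, 0 < n → |f n| ≤ 1 := by
    intro n hn
    rcases hf.sgn n hn with h1 | h1
    · rw [h1]; norm_num
    · rw [h1]; norm_num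
  have hdiff : |G * ∑ n ∈ Ioc x (x + K), f n / n| ≤ (∫ y in A..B, ‖Sm s (fun n => (f n : ℂ)) T y‖) +
      G * (Real.exp (1 - v) * (16 * a)) := by
    rw [← hind]
    have h1 : ∑ n ∈ s, f n / n * (if A < Real.log n ∧ Real.log n ≤ B then G else 0) =
        ∑ n ∈ s, f n / n * (∫ y in A..B, gk T (Real.log n) y) -
          ∑ n ∈ s, f n / n * ((∫ y in A..B, gk T (Real.log n) y) - (if A < Real.log n ∧ Real.log n ≤ B then G else 0)) := by
      rw [← Finset.sum_sub_distrib]
      refine Finset.sum_congr rfl fun n _ => ?_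
      ring
    rw [h1]
    refine (abs_sub _ _).trans ?_
    refine add_le_add hI ?_
    refine (Finset.abs_sum_le_sum_abs _ _).trans ?_
    have h2 : ∀ n ∈ s, |f n / n * ((∫ y in A..B, gk T (Real.log n) y) - (if A < Real.log n ∧ Real.log n ≤ B then G else 0))| ≤
        Real.exp (1 - v) * ((Real.exp (-(T * (Real.log n - A)) ^ 2 / 2) + Real.exp (-(T * (Real.log n - B)) ^ 2 / 2)) * G) := by
      intro n hn
      have hn1 := (hsY n hn).1
      have hn0 : (0 : ℝ) < n := by exact_mod_cast hn1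
      rw [abs_mul]
      refine mul_le_mul ?_ (gk_ind hT0 hAB) (abs_nonneg _) (Real.exp_pos _).le
      rw [abs_div, abs_of_pos hn0]
      have h3 : Real.exp (v - 1) < n := (mem_Ic.1 hn).1
      have h4 : Real.exp (1 - v) = 1 / Real.exp (v - 1) := by
        rw [one_div, ← Real.exp_neg]
        congr 1
        ring
      rw [h4]
      exact div_le_div₀ zero_le_one (hfn n hn1) (Real.exp_pos _) h3.le
    refine (Finset.sum_le_sum h2).trans ?_
    rw [← Finset.mul_sum, ← Finset.sum_mul, Finset.sum_add_distrib]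
    have h3 : (∑ n ∈ s, Real.exp (-(T * (Real.log n - A)) ^ 2 / 2)) + ∑ n ∈ s, Real.exp (-(T * (Real.log n - B)) ^ 2 / 2) ≤ 16 * a := by
      linarith
    have h4 := Real.exp_pos (1 - v)
    calc Real.exp (1 - v) * (((∑ n ∈ s, Real.exp (-(T * (Real.log n - A)) ^ 2 / 2)) + ∑ n ∈ s, Real.exp (-(T * (Real.log n - B)) ^ 2 / 2)) * G)
        ≤ Real.exp (1 - v) * (16 * a * G) := by
          refine mul_le_mul_of_nonneg_left ?_ h4.le
          exact mul_le_mul_of_nonneg_right h3 hG0.le
      _ = _ := by ring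
  -- conclusion
  have hW : |∑ n ∈ Ioc x (x + K), f n / n| ≤ T * (∫ y in A..B, ‖Sm s (fun n => (f n : ℂ)) T y‖) + Real.exp (1 - v) * (16 * a) := by
    rw [abs_mul, abs_of_pos hG0] at hdiff
    have h0 : 0 ≤ ∫ y in A..B, ‖Sm s (fun n => (f n : ℂ)) T y‖ := intervalIntegral.integral_nonneg hAB fun y _ => norm_nonneg _
    have h1 : |∑ n ∈ Ioc x (x + K), f n / n| ≤ (∫ y in A..B, ‖Sm s (fun n => (f n : ℂ)) T y‖) / G + Real.exp (1 - v) * (16 * a) := by
      have h2 : |∑ n ∈ Ioc x (x + K), f n / n| ≤ ((∫ y in A..B, ‖Sm s (fun n => (f n : ℂ)) T y‖) +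
          G * (Real.exp (1 - v) * (16 * a))) / G := by
        rw [le_div_iff₀ hG0, mul_comm]
        exact hdiff
      refine h2.trans (le_of_eq ?_)
      field_simp
    refine h1.trans (add_le_add ?_ le_rfl)
    rw [div_le_iff₀ hG0]
    have h2 : 1 ≤ T * G := by
      have h3 : T * G = Real.sqrt (2 * Real.pi) := by
        rw [hG]
        field_simp
      rw [h3, Real.one_le_sqrt]
      have := Real.pi_gt_three
      linarith
    calc (∫ y in A..B, ‖Sm s (fun n => (f n : ℂ)) T y‖) = (∫ y in A..B, ‖Sm s (fun n => (f n : ℂ)) T y‖) * 1 := (mul_one _).symm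
      _ ≤ (∫ y in A..B, ‖Sm s (fun n => (f n : ℂ)) T y‖) * (T * G) := mul_le_mul_of_nonneg_left h2 h0
      _ = _ := by ring
  have hSK : |SK f K x - x / K * ∑ n ∈ Ioc x (x + K), f n / n| ≤ K / Real.exp v := by
    have h1 : SK f K x - x / K * ∑ n ∈ Ioc x (x + K), f n / n = ∑ n ∈ Ioc x (x + K), (f n / K * ((n - x) / n)) := by
      unfold SK
      rw [Finset.sum_div, Finset.mul_sum, ← Finset.sum_sub_distrib]
      refine Finset.sum_congr rfl fun n hn => ?_
      have hn0 : (n : ℝ) ≠ 0 := by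
        have : x < n := (mem_Ioc.1 hn).1
        exact_mod_cast (by omega : n ≠ 0)
      field_simp
    rw [h1]
    refine (Finset.abs_sum_le_sum_abs _ _).trans ?_
    have h2 : ∀ n ∈ Ioc x (x + K), |f n / K * (((n : ℝ) - x) / n)| ≤ 1 / K * (K / Real.exp v) := by
      intro n hn
      rw [mem_Ioc] at hn
      have h3 : (x : ℝ) < n := by exact_mod_cast hn.1
      have h4 : (n : ℝ) ≤ x + K := by exact_mod_cast hn.2
      have hn0 : (0 : ℝ) < n := by linarith
      rw [abs_mul, abs_div, abs_div, abs_of_pos hK0, abs_of_pos hn0, abs_of_nonneg (by linarith : (0 : ℝ) ≤ n - x)]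
      refine mul_le_mul ?_ ?_ (by apply div_nonneg <;> linarith) (by positivity)
      · exact div_le_div_of_nonneg_right (hfn n (by omega)) hK0.le
      · exact div_le_div₀ hK0.le (by linarith) hev (by linarith)
    refine (Finset.sum_le_sum h2).trans (le_of_eq ?_)
    rw [Finset.sum_const, Nat.card_Ioc, nsmul_eq_mul]
    have h3 : ((x + K - x : ℕ) : ℝ) = K := by
      congr 1
      omega
    rw [h3]
    field_simp
  have h0 : 0 ≤ ∫ y in A..B, ‖Sm s (fun n => (f n : ℂ)) T y‖ := intervalIntegral.integral_nonneg hAB fun y _ => norm_nonneg _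
  set J := ∫ y in A..B, ‖Sm s (fun n => (f n : ℂ)) T y‖ with hJ
  have h1 : |SK f K x| ≤ x / K * (T * J + Real.exp (1 - v) * (16 * a)) + K / Real.exp v := by
    have h2 : |SK f K x| ≤ |SK f K x - x / K * ∑ n ∈ Ioc x (x + K), f n / n| + |x / K * ∑ n ∈ Ioc x (x + K), f n / n| := by
      have h3 := abs_add_le (SK f K x - x / K * ∑ n ∈ Ioc x (x + K), f n / n) (x / K * ∑ n ∈ Ioc x (x + K), f n / n)
      rw [sub_add_cancel] at h3
      exact h3
    have h3 : |x / K * ∑ n ∈ Ioc x (x + K), f n / n| ≤ x / K * (T * J + Real.exp (1 - v) * (16 * a)) := by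
      rw [abs_mul, abs_of_pos (by positivity : (0 : ℝ) < x / K)]
      exact mul_le_mul_of_nonneg_left hW (by positivity)
    linarith
  refine h1.trans ?_
  have h2 : x / K * (Real.exp (1 - v) * (16 * a)) ≤ 16 * (Real.exp 2 * Real.exp 2) * (h / K) := by
    have h3 : (x : ℝ) * Real.exp (1 - v) ≤ Real.exp 2 := by
      calc (x : ℝ) * Real.exp (1 - v) ≤ Real.exp (v + 1) * Real.exp (1 - v) :=
            mul_le_mul_of_nonneg_right hxv1 (Real.exp_pos _).le
        _ = Real.exp 2 := by
            rw [← Real.exp_add]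
            congr 1
            ring
    calc x / K * (Real.exp (1 - v) * (16 * a)) = (x * Real.exp (1 - v)) * (16 * (Real.exp 2 * (h / K))) := by
          rw [ha]
          ring
      _ ≤ Real.exp 2 * (16 * (Real.exp 2 * (h / K))) := mul_le_mul_of_nonneg_right h3 (by positivity)
      _ = _ := by ring
  have h3 : x / K * (T * J) = T * x / K * J := by ring
  have h4 : 0 ≤ T * x / K * J := by positivity
  have h5 : 0 ≤ h / K := by positivity
  have h6 : 0 ≤ K / Real.exp v := by positivity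
  have h7 : 0 ≤ 16 * (Real.exp 2 * Real.exp 2) := by positivity
  have h8 := mul_nonneg h7 h4
  have h9 := mul_nonneg h7 h6
  calc x / K * (T * J + Real.exp (1 - v) * (16 * a)) + K / Real.exp v
      = T * x / K * J + x / K * (Real.exp (1 - v) * (16 * a)) + K / Real.exp v := by
        rw [mul_add, h3]
    _ ≤ (1 + 16 * (Real.exp 2 * Real.exp 2)) * (T * x / K) * J + (1 + 16 * (Real.exp 2 * Real.exp 2)) * (h / K + K / Real.exp v) := by
        linarith

end MRT
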