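import Pool.Agent.MRT.EnA

/-!
# MRT-EnB: energy in short intervals and mean squares of Dirichlet polynomials
-/

set_option autoImplicit false

namespace MRT

open Finset MeasureTheory

private theorem enb_cont (s : Finset ℕ) (a : ℕ → ℂ) (T : ℝ) : Continuous (Sm s a T) := by
  unfold Sm
  refine continuous_finset_sum _ fun n _ => continuous_const.mul (Complex.continuous_ofReal.comp ?_)
  fun_prop

private theorem enb_cs {g : ℝ → ℝ} (hg : Continuous g) {a b : ℝ} (hab : a < b) :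
    (∫ y in a..b, g y) ^ 2 ≤ (b - a) * ∫ y in a..b, g y ^ 2 := by
  obtain ⟨l, hl⟩ : ∃ l : ℝ, l = (∫ y in a..b, g y) / (b - a) := ⟨_, rfl⟩
  have hba : 0 < b - a := sub_pos.2 hab
  have hI : ∫ y in a..b, g y = l * (b - a) := by
    rw [hl, div_mul_cancel₀ _ hba.ne']
  have i1 : IntervalIntegrable (fun y => g y ^ 2) volume a b := (hg.pow 2).intervalIntegrable _ _
  have i2 : IntervalIntegrable (fun y => 2 * l * g y) volume a b :=
    (continuous_const.mul hg).intervalIntegrable _ _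
  have i3 : IntervalIntegrable (fun _ : ℝ => l ^ 2) volume a b := continuous_const.intervalIntegrable _ _
  have h0 : 0 ≤ ∫ y in a..b, (g y ^ 2 - 2 * l * g y + l ^ 2) :=
    intervalIntegral.integral_nonneg hab.le fun y _ => by nlinarith [sq_nonneg (g y - l)]
  rw [intervalIntegral.integral_add (i1.sub i2) i3, intervalIntegral.integral_sub i1 i2,
    intervalIntegral.integral_const_mul, intervalIntegral.integral_const, hI, smul_eq_mul] at h0
  rw [hI]
  nlinarith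

private theorem enb_card (s : Finset ℕ) (hs : ∀ x ∈ s, 1 ≤ x) {K : ℕ} (y : ℝ) :
    (s.filter fun x : ℕ => y ∈ Set.Ioc (Real.log x) (Real.log ((x : ℝ) + K))).card ≤ K := by
  have h1 : (s.filter fun x : ℕ => y ∈ Set.Ioc (Real.log x) (Real.log ((x : ℝ) + K))) ⊆
      Finset.Ico (⌈Real.exp y⌉₊ - K) ⌈Real.exp y⌉₊ := by
    intro x hx
    obtain ⟨hxs, h2, h3⟩ := Finset.mem_filter.1 hx
    have hx0 : (0 : ℝ) < x := by exact_mod_cast hs x hxs
    have hK0 : (0 : ℝ) ≤ K := Nat.cast_nonneg K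
    rw [Real.log_lt_iff_lt_exp hx0] at h2
    rw [Real.le_log_iff_exp_le (by linarith)] at h3
    rw [Finset.mem_Ico]
    have h4 : x < ⌈Real.exp y⌉₊ := Nat.lt_ceil.2 h2
    have h5 : ⌈Real.exp y⌉₊ ≤ x + K := by
      rw [Nat.ceil_le]
      push_cast
      exact h3
    omega
  refine (Finset.card_le_card h1).trans ?_
  rw [Nat.card_Ico]
  omega

private theorem enb_sum {g : ℝ → ℝ} (hg : Integrable g) (hg0 : ∀ y, 0 ≤ g y) (s : Finset ℕ) (hs : ∀ x ∈ s, 1 ≤ x)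
    (K : ℕ) : ∑ x ∈ s, ∫ y in (Real.log x)..(Real.log ((x : ℝ) + K)), g y ≤ K * ∫ y, g y := by
  have h1 : ∀ x ∈ s, ∫ y in (Real.log x)..(Real.log ((x : ℝ) + K)), g y =
      ∫ y, (Set.Ioc (Real.log x) (Real.log ((x : ℝ) + K))).indicator g y := by
    intro x hx
    have hx0 : (0 : ℝ) < x := by exact_mod_cast hs x hx
    have hK0 : (0 : ℝ) ≤ K := Nat.cast_nonneg K
    rw [intervalIntegral.integral_of_le (Real.log_le_log hx0 (by linarith)),
      integral_indicator measurableSet_Ioc]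
  rw [Finset.sum_congr rfl h1, ← integral_finset_sum _ fun x _ => hg.indicator measurableSet_Ioc,
    ← integral_const_mul]
  refine integral_mono (integrable_finset_sum _ fun x _ => hg.indicator measurableSet_Ioc)
    (hg.const_mul _) fun y => ?_
  have h2 : ∑ x ∈ s, (Set.Ioc (Real.log x) (Real.log ((x : ℝ) + K))).indicator g y =
      ((s.filter fun x : ℕ => y ∈ Set.Ioc (Real.log x) (Real.log ((x : ℝ) + K))).card : ℝ) * g y := by
    simp only [Set.indicator_apply]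
    rw [← Finset.sum_filter, Finset.sum_const, nsmul_eq_mul]
  show ∑ x ∈ s, (Set.Ioc (Real.log x) (Real.log ((x : ℝ) + K))).indicator g y ≤ K * g y
  rw [h2]
  refine mul_le_mul_of_nonneg_right ?_ (hg0 y)
  exact_mod_cast enb_card s hs y

theorem energy : ∃ C : ℝ, 0 < C ∧ ∀ f : ℕ → ℝ, CMr f → ∀ K : ℕ, 1 ≤ K → ∀ h v : ℝ, 1 ≤ h → h ≤ K → (K : ℝ) ≤ Real.exp v →
    ∑ x ∈ Ic v (v + 1), SK f K x ^ 2 / x ≤
      C * ((∫ t : ℝ, ‖Dp (Ic (v - 1) (v + 2)) (fun n => (f n : ℂ)) t‖ ^ 2 * Real.exp (-(t / (Real.exp v / h)) ^ 2)) + (h / K + K / Real.exp v) ^ 2) := by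
  obtain ⟨C0, hC0, hsk⟩ := sk_le
  refine ⟨4 * C0 ^ 2, by positivity, ?_⟩
  intro f hf K hK h v hh hhK hKv
  have hK0 : (0 : ℝ) < K := by exact_mod_cast hK
  have hh0 : 0 < h := by linarith
  have hev := Real.exp_pos v
  obtain ⟨T, hT⟩ : ∃ T : ℝ, T = Real.exp v / h := ⟨_, rfl⟩
  have hT0 : 0 < T := by
    rw [hT]
    positivity
  obtain ⟨E, hE⟩ : ∃ E : ℝ, E = h / K + K / Real.exp v := ⟨_, rfl⟩
  have hs : ∀ n ∈ Ic (v - 1) (v + 2), 1 ≤ n := fun n hn => one_le_of_mem hn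
  have hs' : ∀ n ∈ Ic v (v + 1), 1 ≤ n := fun n hn => one_le_of_mem hn
  obtain ⟨g, hgd⟩ : ∃ g : ℝ → ℝ, g = fun y => ‖Sm (Ic (v - 1) (v + 2)) (fun n => (f n : ℂ)) T y‖ := ⟨_, rfl⟩
  have hgc : Continuous g := by
    rw [hgd]
    exact (enb_cont _ _ _).norm
  have hgi : Integrable fun y => g y ^ 2 := by
    rw [hgd]
    exact integrable_Sm hs _ hT0
  have hid := gauss_id hs (fun n => (f n : ℂ)) hT0
  have hid' : T ^ 2 * ∫ y, g y ^ 2 =
      ∫ t : ℝ, ‖Dp (Ic (v - 1) (v + 2)) (fun n => (f n : ℂ)) t‖ ^ 2 * Real.exp (-(t / T) ^ 2) := by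
    rw [hgd]
    exact hid
  rw [← hT, ← hE, ← hid']
  have hterm : ∀ x ∈ Ic v (v + 1), SK f K x ^ 2 / x ≤
      2 * C0 ^ 2 * T ^ 2 / K * (∫ y in (Real.log x)..(Real.log ((x : ℝ) + K)), g y ^ 2) +
        2 * C0 ^ 2 * E ^ 2 * (1 / (x : ℝ)) := by
    intro x hx
    have hx0 : (0 : ℝ) < x := by exact_mod_cast hs' x hx
    have h1 := hsk f hf K hK h v hh hhK hKv x hx
    rw [← hT, ← hE] at h1
    obtain ⟨J, hJ⟩ : ∃ J : ℝ, J = ∫ y in (Real.log x)..(Real.log ((x : ℝ) + K)), g y := ⟨_, rfl⟩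
    have h1' : |SK f K x| ≤ C0 * (T * x / K) * J + C0 * E := by
      rw [hJ, hgd]
      exact h1
    have hlt : Real.log x < Real.log ((x : ℝ) + K) := Real.log_lt_log hx0 (by linarith)
    have h2 := enb_cs hgc hlt
    rw [← hJ] at h2
    obtain ⟨I, hI⟩ : ∃ I : ℝ, I = ∫ y in (Real.log x)..(Real.log ((x : ℝ) + K)), g y ^ 2 := ⟨_, rfl⟩
    rw [← hI] at h2 ⊢
    have hI0 : 0 ≤ I := by
      rw [hI]
      exact intervalIntegral.integral_nonneg hlt.le fun y _ => sq_nonneg _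
    have h3 : Real.log ((x : ℝ) + K) - Real.log x ≤ K / x := by
      have h4 := Real.log_le_sub_one_of_pos (show 0 < ((x : ℝ) + K) / x by positivity)
      rw [Real.log_div (by positivity) hx0.ne'] at h4
      have h5 : ((x : ℝ) + K) / x - 1 = K / x := by
        field_simp
        ring
      linarith
    have h4 : J ^ 2 ≤ K / x * I := h2.trans (mul_le_mul_of_nonneg_right h3 hI0)
    have h5 : SK f K x ^ 2 ≤ 2 * (C0 * (T * x / K)) ^ 2 * J ^ 2 + 2 * (C0 * E) ^ 2 := by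
      have h6 : SK f K x ^ 2 ≤ (C0 * (T * x / K) * J + C0 * E) ^ 2 := by
        rw [← sq_abs (SK f K x)]
        exact pow_le_pow_left₀ (abs_nonneg _) h1' 2
      nlinarith [sq_nonneg (C0 * (T * x / K) * J - C0 * E)]
    have h6 : 2 * (C0 * (T * x / K)) ^ 2 * J ^ 2 ≤ 2 * (C0 * (T * x / K)) ^ 2 * (K / x * I) :=
      mul_le_mul_of_nonneg_left h4 (by positivity)
    have h7 : SK f K x ^ 2 / x ≤ (2 * (C0 * (T * x / K)) ^ 2 * (K / x * I) + 2 * (C0 * E) ^ 2) / x :=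
      div_le_div_of_nonneg_right (by linarith) hx0.le
    refine h7.trans (le_of_eq ?_)
    field_simp
  refine (Finset.sum_le_sum hterm).trans ?_
  rw [Finset.sum_add_distrib, ← Finset.mul_sum, ← Finset.mul_sum]
  have hA := enb_sum hgi (fun y => sq_nonneg _) (Ic v (v + 1)) hs' K
  have hB := sum_inv_Ic_le (show v ≤ v + 1 by linarith)
  have hB' : ∑ n ∈ Ic v (v + 1), 1 / (n : ℝ) ≤ 2 := by linarith
  have hc1 : 0 ≤ 2 * C0 ^ 2 * T ^ 2 / K := by positivity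
  have hc2 : 0 ≤ 2 * C0 ^ 2 * E ^ 2 := by positivity
  have h1 := mul_le_mul_of_nonneg_left hA hc1
  have h2 := mul_le_mul_of_nonneg_left hB' hc2
  have h3 : 2 * C0 ^ 2 * T ^ 2 / K * (K * ∫ y, g y ^ 2) = 2 * C0 ^ 2 * (T ^ 2 * ∫ y, g y ^ 2) := by
    field_simp
  rw [h3] at h1
  have hg0 : 0 ≤ ∫ y, g y ^ 2 := integral_nonneg fun y => sq_nonneg _
  have h4 : 0 ≤ C0 ^ 2 * (T ^ 2 * ∫ y, g y ^ 2) := by positivity
  have h5 : 0 ≤ C0 ^ 2 * E ^ 2 := by positivity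
  nlinarith

end MRT
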