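import Pool.Agent.MRT.EsK

/-!
# MRT-Es2: second differences
-/

set_option autoImplicit false

namespace MRT

open Finset

private theorem e2_one (x : ℝ) : ‖ee x‖ = 1 := by
  unfold ee
  exact Complex.norm_exp_ofReal_mul_I _

private theorem e2_conj (x : ℝ) : (starRingEnd ℂ) (ee x) = ee (-x) := by
  unfold ee
  rw [← Complex.exp_conj, map_mul, Complex.conj_ofReal, Complex.conj_I]
  congr 1
  push_cast
  ring

private theorem e2_triv (F : ℕ → ℝ) (s : Finset ℕ) : ‖∑ n ∈ s, ee (F n)‖ ≤ s.card := by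
  refine (norm_sum_le _ _).trans ?_
  rw [Finset.sum_congr rfl fun n _ => e2_one (F n), Finset.sum_const, nsmul_eq_mul, mul_one]

/-- thresholds -/
private theorem e2_thr {δ : ℕ → ℝ} {M : ℕ} (hδ : ∀ a b, a ≤ b → b < M → δ a ≤ δ b) (c : ℝ) :
    ∃ T ≤ M, (∀ n < T, δ n < c) ∧ ∀ n, T ≤ n → n < M → c ≤ δ n := by
  classical
  have hex : ∃ n, M ≤ n ∨ c ≤ δ n := ⟨M, Or.inl le_rfl⟩
  refine ⟨Nat.find hex, Nat.find_min' hex (Or.inl le_rfl), fun n hn => ?_, fun n hn hnM => ?_⟩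
  · have h := Nat.find_min hex hn
    push Not at h
    exact h.2
  · rcases Nat.find_spec hex with h | h
    · omega
    · exact h.trans (hδ _ _ hn hnM)

private theorem e2_pos {F : ℕ → ℝ} {N : ℕ} {L A : ℝ} (h0 : 0 < L) (h1 : L ≤ 1 / 4) (hA : 1 ≤ A)
    (hd : ∀ n, n + 2 < N → L ≤ F (n + 2) - 2 * F (n + 1) + F n ∧
      F (n + 2) - 2 * F (n + 1) + F n ≤ A * L) :
    ‖∑ n ∈ range N, ee (F n)‖ ≤ 50 * A * (L * N + 1) / √L := by
  obtain ⟨θ, hθ⟩ : ∃ θ, θ = √L := ⟨_, rfl⟩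
  have hθ0 : 0 < θ := by
    rw [hθ]
    exact Real.sqrt_pos.2 h0
  have hθ2 : θ * θ = L := by
    rw [hθ]
    exact Real.mul_self_sqrt h0.le
  have hθ1 : θ ≤ 1 / 2 := by
    nlinarith
  rw [← hθ]
  have hbig : (1 : ℝ) ≤ 50 * A * (L * N + 1) / θ := by
    rw [le_div_iff₀ hθ0]
    have h2 : 0 ≤ L * N := mul_nonneg h0.le (Nat.cast_nonneg N)
    nlinarith [mul_nonneg (le_trans zero_le_one hA) h2]
  by_cases hN : N ≤ 1
  · refine (e2_triv F (range N)).trans ?_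
    rw [card_range]
    refine le_trans ?_ hbig
    exact_mod_cast hN
  push Not at hN
  obtain ⟨M, rfl⟩ : ∃ M, N = M + 1 := ⟨N - 1, by omega⟩
  have hM : 1 ≤ M := by omega
  obtain ⟨δ, hδe⟩ : ∃ δ : ℕ → ℝ, δ = fun n => F (n + 1) - F n := ⟨_, rfl⟩
  have hstep : ∀ n, n + 1 < M → L ≤ δ (n + 1) - δ n ∧ δ (n + 1) - δ n ≤ A * L := by
    intro n hn
    have h2 := hd n (by omega)
    rw [hδe]
    dsimp only
    constructor
    · linarith [h2.1]
    · linarith [h2.2]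
  have hinc : ∀ a k, a + k < M → L * k ≤ δ (a + k) - δ a ∧ δ (a + k) - δ a ≤ A * L * k := by
    intro a k
    induction k with
    | zero =>
      intro _
      simp
    | succ k ih =>
      intro hk
      have h2 := ih (by omega)
      have h3 := hstep (a + k) (by omega)
      push_cast
      have h4 : a + (k + 1) = a + k + 1 := by ring
      rw [h4]
      constructor
      · linarith [h2.1, h3.1]
      · linarith [h2.2, h3.2]
  have hmono : ∀ a b, a ≤ b → b < M → δ a ≤ δ b := by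
    intro a b hab hb
    obtain ⟨k, rfl⟩ := Nat.exists_eq_add_of_le hab
    have h2 := (hinc a k hb).1
    have h3 : 0 ≤ L * k := mul_nonneg h0.le (Nat.cast_nonneg k)
    linarith
  choose T hT1 hT2 hT3 using e2_thr hmono
  have hTm : ∀ c d, c ≤ d → T c ≤ T d := by
    intro c d hcd
    by_contra h
    push Not at h
    have h2 := hT3 d (T d) le_rfl (h.trans_le (hT1 c))
    have h3 := hT2 c (T d) h
    linarith
  have hsum : ∀ c d, c ≤ d → ∑ n ∈ range (T d), ee (F n) - ∑ n ∈ range (T c), ee (F n) =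
      ∑ n ∈ Ico (T c) (T d), ee (F n) := by
    intro c d hcd
    rw [Finset.sum_Ico_eq_sub _ (hTm c d hcd)]
  have hshort : ∀ c d, c ≤ d → d - c ≤ θ →
      ‖∑ n ∈ range (T d), ee (F n) - ∑ n ∈ range (T c), ee (F n)‖ ≤ 1 / θ + 1 := by
    intro c d hcd hdc
    rw [hsum c d hcd]
    refine (e2_triv F _).trans ?_
    rw [Nat.card_Ico]
    rcases Nat.eq_or_lt_of_le (hTm c d hcd) with h | h
    · rw [h, Nat.sub_self, Nat.cast_zero]
      positivity
    · obtain ⟨k, hk⟩ : ∃ k, T d = T c + k + 1 := ⟨T d - T c - 1, by omega⟩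
      have h2 := hT1 d
      have h3 := (hinc (T c) k (by omega)).1
      have h4 := hT2 d (T c + k) (by omega)
      have h5 := hT3 c (T c) le_rfl (by omega)
      have h6 : L * k ≤ θ := by linarith
      have h7 : T d - T c = k + 1 := by omega
      rw [h7]
      push_cast
      have h8 : (k : ℝ) ≤ 1 / θ := by
        rw [le_div_iff₀ hθ0]
        rw [← hθ2] at h6
        by_contra h9
        push Not at h9
        nlinarith
      linarith
  have hlong : ∀ k : ℤ, ‖∑ n ∈ range (T ((k : ℝ) + 1 - θ)), ee (F n) -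
      ∑ n ∈ range (T ((k : ℝ) + θ)), ee (F n)‖ ≤ 3 / θ := by
    intro k
    have hcd : (k : ℝ) + θ ≤ (k : ℝ) + 1 - θ := by linarith
    rw [hsum _ _ hcd, Finset.sum_Ico_eq_sum_range]
    have hTT := hTm _ _ hcd
    have hTM := hT1 ((k : ℝ) + 1 - θ)
    have h2 : ∀ n, n + 1 < T ((k : ℝ) + 1 - θ) - T ((k : ℝ) + θ) →
        (k : ℝ) + θ ≤ δ (T ((k : ℝ) + θ) + n) ∧ δ (T ((k : ℝ) + θ) + n) < (k : ℝ) + 1 - θ := by
      intro n hn
      exact ⟨hT3 _ _ (by omega) (by omega), hT2 _ _ (by omega)⟩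
    refine kusmin (F := fun n => F (T ((k : ℝ) + θ) + n)) hθ0 hθ1 k ?_ (Or.inl ?_)
    · intro n hn
      obtain ⟨h3, h4⟩ := h2 n hn
      rw [hδe] at h3 h4
      dsimp only at h3 h4 ⊢
      rw [← add_assoc]
      constructor
      · linarith
      · linarith
    · intro n hn
      have h3 := hmono (T ((k : ℝ) + θ) + n) (T ((k : ℝ) + θ) + n + 1) (by omega) (by omega)
      rw [hδe] at h3
      dsimp only at h3 ⊢
      have h4 : T ((k : ℝ) + θ) + (n + 1) = T ((k : ℝ) + θ) + n + 1 := by ring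
      have h5 : T ((k : ℝ) + θ) + (n + 2) = T ((k : ℝ) + θ) + n + 1 + 1 := by ring
      rw [h4, h5]
      exact h3
  have hblock : ∀ k : ℤ, ‖∑ n ∈ range (T ((k : ℝ) + 1)), ee (F n) -
      ∑ n ∈ range (T (k : ℝ)), ee (F n)‖ ≤ 7 / θ := by
    intro k
    have h2 := hlong k
    have h3 := hshort (k : ℝ) ((k : ℝ) + θ) (by linarith) (by linarith)
    have h4 := hshort ((k : ℝ) + 1 - θ) ((k : ℝ) + 1) (by linarith) (by linarith)
    have h5 : ∑ n ∈ range (T ((k : ℝ) + 1)), ee (F n) - ∑ n ∈ range (T (k : ℝ)), ee (F n) =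
        (∑ n ∈ range (T ((k : ℝ) + 1)), ee (F n) - ∑ n ∈ range (T ((k : ℝ) + 1 - θ)), ee (F n)) +
        ((∑ n ∈ range (T ((k : ℝ) + 1 - θ)), ee (F n) - ∑ n ∈ range (T ((k : ℝ) + θ)), ee (F n)) +
        (∑ n ∈ range (T ((k : ℝ) + θ)), ee (F n) - ∑ n ∈ range (T (k : ℝ)), ee (F n))) := by ring
    rw [h5]
    refine (norm_add_le _ _).trans ?_
    have h6 := norm_add_le
      (∑ n ∈ range (T ((k : ℝ) + 1 - θ)), ee (F n) - ∑ n ∈ range (T ((k : ℝ) + θ)), ee (F n))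
      (∑ n ∈ range (T ((k : ℝ) + θ)), ee (F n) - ∑ n ∈ range (T (k : ℝ)), ee (F n))
    have h7 : (2 : ℝ) ≤ 1 / θ := by
      rw [le_div_iff₀ hθ0]
      linarith
    have h8 : 7 / θ = 3 / θ + (1 / θ + 1 / θ) + (1 / θ + 1 / θ) := by ring
    rw [h8]
    linarith
  obtain ⟨K0, hK0⟩ : ∃ K : ℤ, K = ⌊δ 0⌋ := ⟨_, rfl⟩
  obtain ⟨K1, hK1⟩ : ∃ K : ℤ, K = ⌊δ (M - 1)⌋ := ⟨_, rfl⟩
  have hK01 : K0 ≤ K1 := by
    rw [hK0, hK1]
    exact Int.floor_le_floor (hmono 0 (M - 1) (Nat.zero_le _) (by omega))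
  obtain ⟨m, hm⟩ : ∃ m : ℕ, (m : ℤ) = K1 + 1 - K0 := ⟨(K1 + 1 - K0).toNat, Int.toNat_of_nonneg (by omega)⟩
  have hmr : (m : ℝ) = (K1 : ℝ) + 1 - K0 := by exact_mod_cast hm
  have hT0 : T (K0 : ℝ) = 0 := by
    by_contra h
    have h2 := hT2 (K0 : ℝ) 0 (Nat.pos_of_ne_zero h)
    rw [hK0] at h2
    exact absurd (Int.floor_le (δ 0)) (not_le.2 h2)
  have hTM : T ((K0 : ℝ) + m) = M := by
    by_contra h
    have h2 := lt_of_le_of_ne (hT1 ((K0 : ℝ) + m)) h
    have h3 := hT3 ((K0 : ℝ) + m) _ le_rfl h2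
    have h4 := hmono _ (M - 1) (Nat.le_sub_one_of_lt h2) (by omega)
    have h5 := Int.lt_floor_add_one (δ (M - 1))
    rw [← hK1] at h5
    rw [hmr] at h3 h4
    linarith
  have htel : ∑ n ∈ range M, ee (F n) = ∑ j ∈ range m,
      (∑ n ∈ range (T (((K0 + j : ℤ) : ℝ) + 1)), ee (F n) -
        ∑ n ∈ range (T ((K0 + j : ℤ) : ℝ)), ee (F n)) := by
    have h2 := Finset.sum_range_sub (fun j : ℕ => ∑ n ∈ range (T ((K0 : ℝ) + j)), ee (F n)) m
    rw [hTM, Nat.cast_zero, add_zero, hT0, Finset.range_zero, Finset.sum_empty, sub_zero] at h2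
    rw [← h2]
    refine Finset.sum_congr rfl fun j _ => ?_
    push_cast
    rw [add_assoc]
  have hMs : ‖∑ n ∈ range M, ee (F n)‖ ≤ m * (7 / θ) := by
    rw [htel]
    refine (norm_sum_le _ _).trans ?_
    refine (Finset.sum_le_sum fun (j : ℕ) _ => hblock (K0 + (j : ℤ))).trans ?_
    rw [Finset.sum_const, card_range, nsmul_eq_mul]
  have hmle : (m : ℝ) ≤ A * L * M + 2 := by
    have h2 := Int.floor_le (δ (M - 1))
    have h3 := Int.lt_floor_add_one (δ 0)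
    rw [← hK1] at h2
    rw [← hK0] at h3
    have h4 := (hinc 0 (M - 1) (by omega)).2
    rw [zero_add] at h4
    have h5 : ((M - 1 : ℕ) : ℝ) ≤ M := by exact_mod_cast Nat.sub_le M 1
    have h6 : A * L * ((M - 1 : ℕ) : ℝ) ≤ A * L * M :=
      mul_le_mul_of_nonneg_left h5 (mul_nonneg (le_trans zero_le_one hA) h0.le)
    rw [hmr]
    linarith
  rw [Finset.sum_range_succ]
  refine (norm_add_le _ _).trans ?_
  rw [e2_one]
  have h2 : (m : ℝ) * (7 / θ) + 1 = (7 * m + θ) / θ := by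
    field_simp
  refine (add_le_add_left hMs 1).trans ?_
  rw [h2]
  refine div_le_div_of_nonneg_right ?_ hθ0.le
  push_cast
  have h3 : 0 ≤ A * L := mul_nonneg (le_trans zero_le_one hA) h0.le
  have h4 : 0 ≤ A * L * M := mul_nonneg h3 (Nat.cast_nonneg M)
  nlinarith

theorem second_diff {F : ℕ → ℝ} {N : ℕ} {L A s : ℝ} (hs : s = 1 ∨ s = -1) (h0 : 0 < L) (h1 : L ≤ 1) (hA : 1 ≤ A)
    (hd : ∀ n, n + 2 < N → L ≤ s * (F (n + 2) - 2 * F (n + 1) + F n) ∧ s * (F (n + 2) - 2 * F (n + 1) + F n) ≤ A * L) :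
    ‖∑ n ∈ range N, ee (F n)‖ ≤ 50 * A * (L * N + 1) / √L := by
  by_cases hL : L ≤ 1 / 4
  · rcases hs with rfl | rfl
    · exact e2_pos h0 hL hA fun n hn => by simpa using hd n hn
    · have h2 := e2_pos (F := fun n => -F n) (N := N) h0 hL hA fun n hn => by
        have h3 := hd n hn
        constructor
        · linarith [h3.1]
        · linarith [h3.2]
      have h3 : ‖∑ n ∈ range N, ee (F n)‖ = ‖∑ n ∈ range N, ee (-F n)‖ := by
        rw [← Complex.norm_conj (∑ n ∈ range N, ee (F n)), map_sum,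
          Finset.sum_congr rfl fun n _ => e2_conj (F n)]
      rw [h3]
      exact h2
  · push Not at hL
    refine (e2_triv F (range N)).trans ?_
    rw [card_range]
    have h2 : 0 < √L := Real.sqrt_pos.2 h0
    have h3 : √L ≤ 1 := Real.sqrt_le_one.2 h1
    rw [le_div_iff₀ h2]
    have h4 : (0 : ℝ) ≤ N := Nat.cast_nonneg N
    have h5 : (N : ℝ) * √L ≤ N := by
      calc (N : ℝ) * √L ≤ N * 1 := mul_le_mul_of_nonneg_left h3 h4
        _ = N := mul_one _
    have h6 : 0 ≤ L * N := mul_nonneg h0.le h4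
    have h7 : (N : ℝ) ≤ 4 * (L * N) := by nlinarith
    have h8 : L * N + 1 ≤ A * (L * N + 1) := by nlinarith
    nlinarith

end MRT
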