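import Pool.Agent.MRT.Bas

/-!
# MRT-EsV: the inequality of van der Corput

Shift and average, then the inequality of Cauchy and Schwarz; the correlations are grouped by the difference
of the shifts.
-/

set_option autoImplicit false

namespace MRT

open Finset

private noncomputable def vy (z : ℕ → ℂ) (N h m : ℕ) : ℂ := if h ≤ m ∧ m - h < N then z (m - h) else 0

private theorem v_sum {N h M : ℕ} (f : ℕ → ℂ) (hM : N + h ≤ M) :
    ∑ m ∈ range M, (if h ≤ m ∧ m - h < N then f m else 0) = ∑ n ∈ range N, f (n + h) := by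
  rw [← Finset.sum_filter]
  symm
  refine Finset.sum_nbij' (fun n => n + h) (fun m => m - h) ?_ ?_ ?_ ?_ ?_
  · intro n hn
    rw [mem_range] at hn
    rw [mem_filter, mem_range]
    refine ⟨by omega, by omega, by omega⟩
  · intro m hm
    rw [mem_filter, mem_range] at hm
    rw [mem_range]
    exact hm.2.2
  · intro n _
    exact Nat.add_sub_cancel n h
  · intro m hm
    rw [mem_filter, mem_range] at hm
    exact Nat.sub_add_cancel hm.2.1
  · intro n _
    rfl

private theorem v_sum1 (z : ℕ → ℂ) {N H h : ℕ} (hh : h < H) :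
    ∑ m ∈ range (N + H), vy z N h m = ∑ n ∈ range N, z n := by
  unfold vy
  rw [v_sum (fun m => z (m - h)) (by omega)]
  refine Finset.sum_congr rfl fun n _ => ?_
  rw [Nat.add_sub_cancel]

private noncomputable def vc (z : ℕ → ℂ) (N d : ℕ) : ℝ :=
  ‖∑ n ∈ range (N - d), z (n + d) * (starRingEnd ℂ) (z n)‖

private theorem v_cor (z : ℕ → ℂ) {N H h h' : ℕ} (hle : h ≤ h') (hh : h' < H) :
    ‖∑ m ∈ range (N + H), vy z N h m * (starRingEnd ℂ) (vy z N h' m)‖ = vc z N (h' - h) := by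
  unfold vc
  congr 1
  have h1 : ∀ m ∈ range (N + H), vy z N h m * (starRingEnd ℂ) (vy z N h' m) =
      if h' ≤ m ∧ m - h' < N - (h' - h) then z (m - h) * (starRingEnd ℂ) (z (m - h')) else 0 := by
    intro m _
    unfold vy
    by_cases h2 : h' ≤ m ∧ m - h' < N - (h' - h)
    · rw [if_pos h2, if_pos (by omega), if_pos (by omega)]
    · rw [if_neg h2]
      by_cases h3 : h' ≤ m ∧ m - h' < N
      · rw [if_neg (by omega : ¬ (h ≤ m ∧ m - h < N)), zero_mul]
      · rw [if_neg h3, map_zero, mul_zero]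
  rw [Finset.sum_congr rfl h1, v_sum (fun m => z (m - h) * (starRingEnd ℂ) (z (m - h'))) (by omega)]
  refine Finset.sum_congr rfl fun n _ => ?_
  rw [Nat.add_sub_cancel, Nat.add_sub_assoc hle]

private theorem v_cor' (z : ℕ → ℂ) {N H h h' : ℕ} (hle : h' ≤ h) (hh : h < H) :
    ‖∑ m ∈ range (N + H), vy z N h m * (starRingEnd ℂ) (vy z N h' m)‖ = vc z N (h - h') := by
  rw [← v_cor z hle hh, ← RCLike.norm_conj (∑ m ∈ range (N + H), vy z N h m * _), map_sum]
  congr 1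
  refine Finset.sum_congr rfl fun m _ => ?_
  rw [map_mul, Complex.conj_conj, mul_comm]

private theorem vc_nonneg (z : ℕ → ℂ) (N d : ℕ) : 0 ≤ vc z N d := norm_nonneg _

private theorem vc_zero {z : ℕ → ℂ} (hz : ∀ n, ‖z n‖ ≤ 1) (N : ℕ) : vc z N 0 ≤ N := by
  unfold vc
  refine (norm_sum_le _ _).trans ?_
  have h1 : ∀ n ∈ range (N - 0), ‖z (n + 0) * (starRingEnd ℂ) (z n)‖ ≤ 1 := by
    intro n _
    rw [norm_mul, RCLike.norm_conj]
    exact mul_le_one₀ (hz _) (norm_nonneg _) (hz _)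
  refine (Finset.sum_le_sum h1).trans ?_
  simp

private theorem v_row {z : ℕ → ℂ} (hz : ∀ n, ‖z n‖ ≤ 1) {N H h : ℕ} (hh : h < H) :
    ∑ h' ∈ range H, ‖∑ m ∈ range (N + H), vy z N h m * (starRingEnd ℂ) (vy z N h' m)‖ ≤
      N + 2 * ∑ d ∈ Ico 1 H, vc z N d := by
  rw [← Finset.sum_range_add_sum_Ico _ hh.le, Finset.sum_eq_sum_Ico_succ_bot hh]
  have h1 : ∑ h' ∈ range h, ‖∑ m ∈ range (N + H), vy z N h m * (starRingEnd ℂ) (vy z N h' m)‖ ≤
      ∑ d ∈ Ico 1 H, vc z N d := by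
    have h2 : ∑ h' ∈ range h, ‖∑ m ∈ range (N + H), vy z N h m * (starRingEnd ℂ) (vy z N h' m)‖ =
        ∑ h' ∈ range h, vc z N (h - h') := by
      refine Finset.sum_congr rfl fun h' hh' => ?_
      exact v_cor' z (mem_range.1 hh').le hh
    have h3 : ∑ h' ∈ range h, vc z N (h - h') = ∑ d ∈ (range h).image (fun h' => h - h'), vc z N d := by
      rw [Finset.sum_image]
      intro a ha b hb hab
      have ha' := mem_range.1 (Finset.mem_coe.1 ha)
      have hb' := mem_range.1 (Finset.mem_coe.1 hb)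
      simp only at hab
      omega
    rw [h2, h3]
    refine Finset.sum_le_sum_of_subset_of_nonneg ?_ fun d _ _ => vc_nonneg z N d
    intro d hd
    obtain ⟨a, ha, rfl⟩ := mem_image.1 hd
    have ha' := mem_range.1 ha
    rw [mem_Ico]
    omega
  have h4 : ‖∑ m ∈ range (N + H), vy z N h m * (starRingEnd ℂ) (vy z N h m)‖ ≤ N := by
    rw [v_cor z le_rfl hh, Nat.sub_self]
    exact vc_zero hz N
  have h5 : ∑ h' ∈ Ico (h + 1) H,
      ‖∑ m ∈ range (N + H), vy z N h m * (starRingEnd ℂ) (vy z N h' m)‖ ≤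
      ∑ d ∈ Ico 1 H, vc z N d := by
    have h2 : ∑ h' ∈ Ico (h + 1) H,
        ‖∑ m ∈ range (N + H), vy z N h m * (starRingEnd ℂ) (vy z N h' m)‖ =
        ∑ h' ∈ Ico (h + 1) H, vc z N (h' - h) := by
      refine Finset.sum_congr rfl fun h' hh' => ?_
      have h6 := mem_Ico.1 hh'
      exact v_cor z (by omega) h6.2
    have h3 : ∑ h' ∈ Ico (h + 1) H, vc z N (h' - h) =
        ∑ d ∈ (Ico (h + 1) H).image (fun h' => h' - h), vc z N d := by
      rw [Finset.sum_image]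
      intro a ha b hb hab
      have ha' := mem_Ico.1 (Finset.mem_coe.1 ha)
      have hb' := mem_Ico.1 (Finset.mem_coe.1 hb)
      simp only at hab
      omega
    rw [h2, h3]
    refine Finset.sum_le_sum_of_subset_of_nonneg ?_ fun d _ _ => vc_nonneg z N d
    intro d hd
    obtain ⟨a, ha, rfl⟩ := mem_image.1 hd
    have ha' := mem_Ico.1 ha
    rw [mem_Ico]
    omega
  linarith

theorem vdc_ineq {z : ℕ → ℂ} (hz : ∀ n, ‖z n‖ ≤ 1) (N : ℕ) {H : ℕ} (hH : 1 ≤ H) :
    ‖∑ n ∈ range N, z n‖ ^ 2 * H ≤ (N + H) * (N + 2 * ∑ h ∈ Ico 1 H, ‖∑ n ∈ range (N - h), z (n + h) * (starRingEnd ℂ) (z n)‖) := by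
  have hrow := fun h (hh : h ∈ range H) => v_row hz (N := N) (mem_range.1 hh)
  -- the averages
  have h1 : ∑ m ∈ range (N + H), ∑ h ∈ range H, vy z N h m = H * ∑ n ∈ range N, z n := by
    rw [Finset.sum_comm, Finset.sum_congr rfl fun h hh => v_sum1 z (mem_range.1 hh),
      Finset.sum_const, card_range, nsmul_eq_mul]
  have h2 : ∑ m ∈ range (N + H), ‖∑ h ∈ range H, vy z N h m‖ ^ 2 ≤
      H * (N + 2 * ∑ d ∈ Ico 1 H, vc z N d) := by
    have h3 : ((∑ m ∈ range (N + H), ‖∑ h ∈ range H, vy z N h m‖ ^ 2 : ℝ) : ℂ) =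
        ∑ h ∈ range H, ∑ h' ∈ range H,
          ∑ m ∈ range (N + H), vy z N h m * (starRingEnd ℂ) (vy z N h' m) := by
      rw [Complex.ofReal_sum]
      have h4 : ∀ m ∈ range (N + H), ((‖∑ h ∈ range H, vy z N h m‖ ^ 2 : ℝ) : ℂ) =
          ∑ h ∈ range H, ∑ h' ∈ range H, vy z N h m * (starRingEnd ℂ) (vy z N h' m) := by
        intro m _
        rw [← Complex.normSq_eq_norm_sq, ← Complex.mul_conj, map_sum, Finset.sum_mul_sum]
      rw [Finset.sum_congr rfl h4, Finset.sum_comm]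
      refine Finset.sum_congr rfl fun h _ => ?_
      rw [Finset.sum_comm]
    have h5 : ∑ m ∈ range (N + H), ‖∑ h ∈ range H, vy z N h m‖ ^ 2 =
        ‖((∑ m ∈ range (N + H), ‖∑ h ∈ range H, vy z N h m‖ ^ 2 : ℝ) : ℂ)‖ := by
      rw [Complex.norm_real, Real.norm_of_nonneg]
      exact Finset.sum_nonneg fun m _ => by positivity
    rw [h5, h3]
    refine (norm_sum_le _ _).trans ?_
    have h6 : ∀ h ∈ range H, ‖∑ h' ∈ range H,
        ∑ m ∈ range (N + H), vy z N h m * (starRingEnd ℂ) (vy z N h' m)‖ ≤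
        N + 2 * ∑ d ∈ Ico 1 H, vc z N d := fun h hh => (norm_sum_le _ _).trans (hrow h hh)
    refine (Finset.sum_le_sum h6).trans ?_
    rw [Finset.sum_const, card_range, nsmul_eq_mul]
  have h7 : (H * ‖∑ n ∈ range N, z n‖) ^ 2 ≤
      (N + H) * ∑ m ∈ range (N + H), ‖∑ h ∈ range H, vy z N h m‖ ^ 2 := by
    have h8 : (H * ‖∑ n ∈ range N, z n‖ : ℝ) ≤ ∑ m ∈ range (N + H), ‖∑ h ∈ range H, vy z N h m‖ := by
      have h9 := norm_sum_le (range (N + H)) fun m => ∑ h ∈ range H, vy z N h m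
      rw [h1, norm_mul, Complex.norm_natCast] at h9
      exact h9
    have h10 := sq_sum_le_card_mul_sum_sq (s := range (N + H))
      (f := fun m => ‖∑ h ∈ range H, vy z N h m‖)
    rw [card_range] at h10
    push_cast at h10
    refine (pow_le_pow_left₀ (by positivity) h8 2).trans h10
  have hH' : (0 : ℝ) < H := by exact_mod_cast hH
  have h11 : (H * ‖∑ n ∈ range N, z n‖) ^ 2 ≤
      (N + H) * (H * (N + 2 * ∑ d ∈ Ico 1 H, vc z N d)) :=
    h7.trans (mul_le_mul_of_nonneg_left h2 (by positivity))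
  show ‖∑ n ∈ range N, z n‖ ^ 2 * H ≤ (N + H) * (N + 2 * ∑ d ∈ Ico 1 H, vc z N d)
  refine le_of_mul_le_mul_left ?_ hH'
  calc (H : ℝ) * (‖∑ n ∈ range N, z n‖ ^ 2 * H) = (H * ‖∑ n ∈ range N, z n‖) ^ 2 := by ring
    _ ≤ (N + H) * (H * (N + 2 * ∑ d ∈ Ico 1 H, vc z N d)) := h11
    _ = H * ((N + H) * (N + 2 * ∑ d ∈ Ico 1 H, vc z N d)) := by ring

end MRT
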