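import Pool.Agent.MRT.Es2
import Pool.Agent.MRT.EsV

/-!
# MRT-EsI: `k`-th differences, power saving

PLAN.  Induction on `k ≥ 2` (for all `σ`, `A`).  `k = 2`: `second_diff`: `50 A (L N + 1)/√L ≤ 50 A (A X √L + 1/√L) ≤ K X^{1 - min (σ/2) (1/4)}`.  Step: `H = ⌈X^{σ/2}⌉`; `F_h n = F (n + h) - F n` has `dk F_h k n = ∑_{j < h} dk F (k+1) (n + j)`, so `s dk F_h k n ∈ [h L, A h L]` for `n + k < N - h`, and
`X^{-3/2} ≤ h L ≤ X^{-σ/2}` for `1 ≤ h < H` (`h ≤ X^{σ/2}`); induction hypothesis with `σ/2`: the inner sums of `vdc_ineq` (`z n = ee (F n)`) are at most `K' X^{1-c'}`: `|∑|² ≤ ((N + H)/H) (N + 2 H K' X^{1-c'}) ≤ C (X^{2 - σ/2} + X^{2 - c'})`.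
-/

set_option autoImplicit false

namespace MRT

open Finset

/-- Iterated forward differences. -/
def dk (F : ℕ → ℝ) : ℕ → ℕ → ℝ
  | 0, n => F n
  | k + 1, n => dk F k (n + 1) - dk F k n

private theorem dk_sub (F G : ℕ → ℝ) (k n : ℕ) : dk (fun n => F n - G n) k n = dk F k n - dk G k n := by
  induction k generalizing n with
  | zero => rfl
  | succ k ih => simp only [dk, ih]; ring

private theorem dk_shift (F : ℕ → ℝ) (h k n : ℕ) : dk (fun n => F (n + h)) k n = dk F k (n + h) := by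
  induction k generalizing n with
  | zero => rfl
  | succ k ih =>
    simp only [dk, ih]
    rw [show n + 1 + h = n + h + 1 by ring]

private theorem dk_fh (F : ℕ → ℝ) (h k n : ℕ) : dk (fun n => F (n + h) - F n) k n = ∑ j ∈ range h, dk F (k + 1) (n + j) := by
  rw [dk_sub, dk_shift]
  induction h with
  | zero => simp
  | succ h ih =>
    rw [sum_range_succ, ← ih]
    simp only [dk]
    rw [show n + (h + 1) = n + h + 1 by ring]
    ring

private theorem norm_ee (x : ℝ) : ‖ee x‖ = 1 := by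
  rw [ee]; exact Complex.norm_exp_ofReal_mul_I _

private theorem ee_mul_conj (x y : ℝ) : ee x * (starRingEnd ℂ) (ee y) = ee (x - y) := by
  rw [ee, ee, ee, ← Complex.exp_conj, ← Complex.exp_add]
  congr 1
  simp only [map_mul, Complex.conj_ofReal, Complex.conj_I]
  push_cast
  ring

private theorem two_case : ∀ σ : ℝ, 0 < σ → σ ≤ 1 / 2 → ∀ A : ℝ, 1 ≤ A → ∃ c : ℝ, 0 < c ∧ c ≤ 1 / 4 ∧ ∃ K : ℝ, 0 < K ∧
    ∀ X : ℝ, 1 ≤ X → ∀ N : ℕ, (N : ℝ) ≤ A * X → ∀ (F : ℕ → ℝ) (L : ℝ), X ^ (-(3 / 2) : ℝ) ≤ L → L ≤ X ^ (-σ) → ∀ s : ℝ, s = 1 ∨ s = -1 →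
      (∀ n, n + 2 < N → L ≤ s * dk F 2 n ∧ s * dk F 2 n ≤ A * L) → ‖∑ n ∈ range N, ee (F n)‖ ≤ K * X ^ (1 - c) := by
  intro σ hσ hσ' A hA
  refine ⟨σ / 2, by positivity, by linarith, 50 * A * (A + 1), by positivity, ?_⟩
  intro X hX N hN F L hL1 hL2 s hs hd
  have hX0 : 0 < X := by linarith
  have hL0 : 0 < L := lt_of_lt_of_le (Real.rpow_pos_of_pos hX0 _) hL1
  have hL1' : L ≤ 1 := hL2.trans (Real.rpow_le_one_of_one_le_of_nonpos hX (by linarith))
  have h1 := second_diff (F := F) (N := N) hs hL0 hL1' hA (fun n hn => by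
    have h := hd n hn
    simp only [dk] at h
    have e : F (n + 1 + 1) - F (n + 1) - (F (n + 1) - F n) = F (n + 2) - 2 * F (n + 1) + F n := by ring
    rw [e] at h
    exact h)
  refine h1.trans ?_
  have hs0 : 0 < √L := Real.sqrt_pos.2 hL0
  have hsq : √L * √L = L := Real.mul_self_sqrt hL0.le
  -- √L ≤ X^(-σ/2)
  have hs1 : √L ≤ X ^ (-(σ / 2)) := by
    rw [Real.sqrt_le_left (Real.rpow_nonneg hX0.le _), ← Real.rpow_natCast, ← Real.rpow_mul hX0.le]
    refine hL2.trans (le_of_eq ?_)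
    congr 1
    push_cast
    ring
  -- 1/√L ≤ X^(3/4)
  have hs2 : 1 / √L ≤ X ^ (3 / 4 : ℝ) := by
    have h2 : X ^ (-(3 / 4) : ℝ) ≤ √L := by
      apply Real.le_sqrt_of_sq_le
      rw [← Real.rpow_natCast, ← Real.rpow_mul hX0.le]
      refine le_trans (le_of_eq ?_) hL1
      congr 1
      push_cast
      ring
    rw [div_le_iff₀ hs0]
    calc (1 : ℝ) = X ^ (3 / 4 : ℝ) * X ^ (-(3 / 4) : ℝ) := by
          rw [← Real.rpow_add hX0]; norm_num
      _ ≤ X ^ (3 / 4 : ℝ) * √L := mul_le_mul_of_nonneg_left h2 (Real.rpow_nonneg hX0.le _)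
  have h3 : (L * N + 1) / √L = √L * N + 1 / √L := by
    rw [add_div]
    congr 1
    rw [div_eq_iff hs0.ne']
    calc L * N = √L * √L * N := by rw [hsq]
      _ = _ := by ring
  have h4 : √L * N ≤ A * X ^ (1 - σ / 2) := by
    calc √L * N ≤ X ^ (-(σ / 2)) * (A * X) := mul_le_mul hs1 hN (by positivity) (Real.rpow_nonneg hX0.le _)
      _ = A * (X ^ (-(σ / 2)) * X ^ (1 : ℝ)) := by rw [Real.rpow_one]; ring
      _ = A * X ^ (1 - σ / 2) := by rw [← Real.rpow_add hX0]; congr 2; ring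
  have h5 : 1 / √L ≤ X ^ (1 - σ / 2) := hs2.trans (Real.rpow_le_rpow_of_exponent_le hX (by linarith))
  calc 50 * A * (L * N + 1) / √L = 50 * A * ((L * N + 1) / √L) := by ring
    _ = 50 * A * (√L * N + 1 / √L) := by rw [h3]
    _ ≤ 50 * A * (A * X ^ (1 - σ / 2) + X ^ (1 - σ / 2)) := by
        apply mul_le_mul_of_nonneg_left (add_le_add h4 h5) (by positivity)
    _ = 50 * A * (A + 1) * X ^ (1 - σ / 2) := by ring

theorem kth_diff (k : ℕ) (hk : 2 ≤ k) : ∀ σ : ℝ, 0 < σ → σ ≤ 1 / 2 → ∀ A : ℝ, 1 ≤ A → ∃ c : ℝ, 0 < c ∧ c ≤ 1 / 4 ∧ ∃ K : ℝ, 0 < K ∧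
    ∀ X : ℝ, 1 ≤ X → ∀ N : ℕ, (N : ℝ) ≤ A * X → ∀ (F : ℕ → ℝ) (L : ℝ), X ^ (-(3 / 2) : ℝ) ≤ L → L ≤ X ^ (-σ) → ∀ s : ℝ, s = 1 ∨ s = -1 →
      (∀ n, n + k < N → L ≤ s * dk F k n ∧ s * dk F k n ≤ A * L) → ‖∑ n ∈ range N, ee (F n)‖ ≤ K * X ^ (1 - c) := by
  induction k, hk using Nat.le_induction with
  | base => exact two_case
  | succ k hk ih =>
    intro σ hσ hσ' A hA
    obtain ⟨c, hc0, hc1, K, hK0, hK⟩ := ih (σ / 2) (by positivity) (by linarith) A hA
    set e : ℝ := min (σ / 2) c with he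
    have he0 : 0 < e := lt_min (by positivity) hc0
    refine ⟨e / 2, by positivity, ?_, √(8 * A ^ 2 * (1 + 2 * K) + 1), by positivity, ?_⟩
    · have : e ≤ c := min_le_right _ _
      linarith
    intro X hX N hN F L hL1 hL2 s hs hd
    have hX0 : 0 < X := by linarith
    have hL0 : 0 < L := lt_of_lt_of_le (Real.rpow_pos_of_pos hX0 _) hL1
    set Y : ℝ := X ^ (σ / 2) with hY
    have hY1 : 1 ≤ Y := Real.one_le_rpow hX (by positivity)
    set H : ℕ := ⌈Y⌉₊ with hH
    have hYH : Y ≤ H := Nat.le_ceil _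
    have hH1 : 1 ≤ H := Nat.one_le_ceil_iff.2 (by linarith)
    have hHY : (H : ℝ) ≤ 2 * Y := by
      have := Nat.ceil_lt_add_one (show 0 ≤ Y by linarith)
      linarith
    have hYX : Y ≤ X := by
      calc Y ≤ X ^ (1 : ℝ) := Real.rpow_le_rpow_of_exponent_le hX (by linarith)
        _ = X := Real.rpow_one X
    have hinner : ∀ h ∈ Ico 1 H, ‖∑ n ∈ range (N - h), ee (F (n + h)) * (starRingEnd ℂ) (ee (F n))‖ ≤ K * X ^ (1 - c) := by
      intro h hh
      rw [mem_Ico] at hh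
      have hh1 : (1 : ℝ) ≤ h := by exact_mod_cast hh.1
      have hhY : (h : ℝ) ≤ Y := by
        have : h < ⌈Y⌉₊ := hh.2
        exact (Nat.lt_ceil.1 this).le
      simp only [ee_mul_conj]
      refine hK X hX (N - h) ?_ (fun n => F (n + h) - F n) (h * L) ?_ ?_ s hs ?_
      · refine le_trans ?_ hN
        exact_mod_cast Nat.sub_le _ _
      · exact hL1.trans (le_mul_of_one_le_left hL0.le hh1)
      · calc (h : ℝ) * L ≤ Y * X ^ (-σ) := mul_le_mul hhY hL2 hL0.le (by linarith)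
          _ = X ^ (-(σ / 2)) := by rw [hY, ← Real.rpow_add hX0]; congr 1; ring
      · intro n hn
        rw [dk_fh]
        have hterm : ∀ j ∈ range h, L ≤ s * dk F (k + 1) (n + j) ∧ s * dk F (k + 1) (n + j) ≤ A * L := by
          intro j hj
          rw [mem_range] at hj
          exact hd (n + j) (by omega)
        rw [mul_sum]
        constructor
        · calc (h : ℝ) * L = ∑ j ∈ range h, L := by rw [sum_const, card_range, nsmul_eq_mul]
            _ ≤ _ := sum_le_sum fun j hj => (hterm j hj).1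
        · calc ∑ j ∈ range h, s * dk F (k + 1) (n + j) ≤ ∑ j ∈ range h, A * L := sum_le_sum fun j hj => (hterm j hj).2
            _ = A * (h * L) := by rw [sum_const, card_range, nsmul_eq_mul]; ring
    have hv := vdc_ineq (z := fun n => ee (F n)) (fun n => (norm_ee _).le) N hH1
    have hsum : ∑ h ∈ Ico 1 H, ‖∑ n ∈ range (N - h), ee (F (n + h)) * (starRingEnd ℂ) (ee (F n))‖ ≤ H * (K * X ^ (1 - c)) := by
      refine (sum_le_sum hinner).trans ?_
      rw [sum_const, nsmul_eq_mul]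
      refine mul_le_mul_of_nonneg_right ?_ (by positivity)
      rw [Nat.card_Ico]
      exact_mod_cast Nat.sub_le _ _
    have hH0 : (0 : ℝ) < H := by exact_mod_cast hH1
    have hN0 : (0 : ℝ) ≤ N := Nat.cast_nonneg _
    set S : ℝ := ‖∑ n ∈ range N, ee (F n)‖ with hS
    have h1 : S ^ 2 * H ≤ (N + H) * (N + 2 * (H * (K * X ^ (1 - c)))) := by
      refine hv.trans (mul_le_mul_of_nonneg_left ?_ (by positivity))
      linarith
    have h2 : (N : ℝ) + H ≤ 3 * A * X := by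
      have : (H : ℝ) ≤ 2 * X := hHY.trans (by linarith)
      nlinarith
    have h3 : S ^ 2 ≤ 3 * A * X * (A * X / H + 2 * (K * X ^ (1 - c))) := by
      have h4 : S ^ 2 = S ^ 2 * H / H := by field_simp
      rw [h4, div_le_iff₀ hH0]
      calc S ^ 2 * H ≤ (N + H) * (N + 2 * (H * (K * X ^ (1 - c)))) := h1
        _ ≤ (3 * A * X) * (A * X + 2 * (H * (K * X ^ (1 - c)))) := by
            apply mul_le_mul h2 (by linarith) (by positivity) (by positivity)
        _ = 3 * A * X * (A * X / H + 2 * (K * X ^ (1 - c))) * H := by field_simp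
    have h5 : A * X / H ≤ A * X ^ (1 - e) := by
      have h6 : A * X / H ≤ A * X / Y := by
        apply div_le_div_of_nonneg_left (by positivity) (by linarith) hYH
      refine h6.trans ?_
      have h7 : X / Y = X ^ (1 - σ / 2) := by
        rw [hY, Real.rpow_sub hX0, Real.rpow_one]
      rw [mul_div_assoc, h7]
      apply mul_le_mul_of_nonneg_left _ (by linarith)
      apply Real.rpow_le_rpow_of_exponent_le hX
      have : e ≤ σ / 2 := min_le_left _ _
      linarith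
    have h6 : X ^ (1 - c) ≤ X ^ (1 - e) := by
      apply Real.rpow_le_rpow_of_exponent_le hX
      have : e ≤ c := min_le_right _ _
      linarith
    have hXe : 0 < X ^ (1 - e) := Real.rpow_pos_of_pos hX0 _
    have h7 : S ^ 2 ≤ (8 * A ^ 2 * (1 + 2 * K) + 1) * (X * X ^ (1 - e)) := by
      calc S ^ 2 ≤ 3 * A * X * (A * X ^ (1 - e) + 2 * (K * X ^ (1 - e))) := by
            refine h3.trans (mul_le_mul_of_nonneg_left ?_ (by positivity))
            have := mul_le_mul_of_nonneg_left h6 hK0.le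
            linarith
        _ = (3 * A ^ 2 + 6 * A * K) * (X * X ^ (1 - e)) := by ring
        _ ≤ _ := by
            apply mul_le_mul_of_nonneg_right _ (by positivity)
            nlinarith [mul_nonneg (show (0 : ℝ) ≤ A by linarith) hK0.le, mul_nonneg (mul_nonneg (show (0 : ℝ) ≤ A by linarith) hK0.le) (show (0 : ℝ) ≤ A - 1 by linarith)]
    have h8 : X * X ^ (1 - e) = (X ^ (1 - e / 2)) ^ 2 := by
      rw [← Real.rpow_natCast, ← Real.rpow_mul hX0.le]
      nth_rewrite 1 [← Real.rpow_one X]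
      rw [← Real.rpow_add hX0]
      congr 1
      push_cast
      ring
    rw [h8] at h7
    have h9 : 0 ≤ 8 * A ^ 2 * (1 + 2 * K) + 1 := by positivity
    calc S = √(S ^ 2) := (Real.sqrt_sq (norm_nonneg _)).symm
      _ ≤ √((8 * A ^ 2 * (1 + 2 * K) + 1) * (X ^ (1 - e / 2)) ^ 2) := Real.sqrt_le_sqrt h7
      _ = √(8 * A ^ 2 * (1 + 2 * K) + 1) * X ^ (1 - e / 2) := by
          rw [Real.sqrt_mul h9, Real.sqrt_sq (Real.rpow_nonneg hX0.le _)]

end MRT
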