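import Pool.Agent.MRT.Bas
import Pool.Agent.Helper98.Bern.KL

/-!
# MRT-EsK: the inequality of Kusmin–Landau (discrete form)
-/

set_option autoImplicit false

namespace MRT

open Finset

private theorem ek_ee (x : ℝ) : ee x = Pool.Agent.Helper98.Bern.ee x := by
  rw [Pool.Agent.Helper98.Bern.ee_eq]
  rfl

private theorem ek_inc {F : ℕ → ℝ} {N : ℕ} {θ : ℝ} (h0 : 0 < θ) (h1 : θ ≤ 1 / 2) (k : ℤ)
    (hb : ∀ n, n + 1 < N → θ ≤ F (n + 1) - F n - k ∧ F (n + 1) - F n - k ≤ 1 - θ)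
    (hm : ∀ n, n + 2 < N → F (n + 1) - F n ≤ F (n + 2) - F (n + 1)) :
    ‖∑ n ∈ range N, ee (F n)‖ ≤ 3 / θ := by
  have h3 : 2 / θ + 1 ≤ 3 / θ := by
    rw [← sub_nonneg]
    have h4 : 3 / θ - (2 / θ + 1) = (1 - θ) / θ := by
      field_simp
      ring
    rw [h4]
    exact div_nonneg (by linarith) h0.le
  cases N with
  | zero =>
    rw [range_zero, sum_empty, norm_zero]
    positivity
  | succ M =>
    rw [sum_range_succ]
    have h5 := Pool.Agent.Helper98.Bern.kusmin_landau F 0 M k θ h0 h1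
      (fun j _ hj => hm j (by omega))
      (fun j _ hj => ⟨by linarith [(hb j (by omega)).1], by linarith [(hb j (by omega)).2]⟩)
    have h6 : ∑ n ∈ range M, ee (F n) = ∑ n ∈ Ico 0 M, Pool.Agent.Helper98.Bern.ee (F n) := by
      rw [← range_eq_Ico]
      exact sum_congr rfl fun n _ => ek_ee _
    have h7 : ‖ee (F M)‖ = 1 := by
      rw [ek_ee]
      exact Pool.Agent.Helper98.Bern.norm_ee _
    calc ‖∑ n ∈ range M, ee (F n) + ee (F M)‖ ≤ ‖∑ n ∈ range M, ee (F n)‖ + ‖ee (F M)‖ := norm_add_le _ _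
      _ ≤ 2 / θ + 1 := by
        rw [h7, h6]
        linarith
      _ ≤ 3 / θ := h3

theorem kusmin {F : ℕ → ℝ} {N : ℕ} {θ : ℝ} (h0 : 0 < θ) (h1 : θ ≤ 1 / 2) (k : ℤ)
    (hb : ∀ n, n + 1 < N → θ ≤ F (n + 1) - F n - k ∧ F (n + 1) - F n - k ≤ 1 - θ)
    (hm : (∀ n, n + 2 < N → F (n + 1) - F n ≤ F (n + 2) - F (n + 1)) ∨ (∀ n, n + 2 < N → F (n + 2) - F (n + 1) ≤ F (n + 1) - F n)) :
    ‖∑ n ∈ range N, ee (F n)‖ ≤ 3 / θ := by
  rcases hm with hm | hm
  · exact ek_inc h0 h1 k hb hm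
  · have h2 := ek_inc (F := fun n => -F n) (N := N) h0 h1 (-k - 1)
      (fun n hn => by
        obtain ⟨h3, h4⟩ := hb n hn
        push_cast
        constructor
        · linarith
        · linarith)
      (fun n hn => by linarith [hm n hn])
    have h5 : ∑ n ∈ range N, ee (-F n) = star (∑ n ∈ range N, ee (F n)) := by
      rw [star_sum]
      refine sum_congr rfl fun n _ => ?_
      rw [ek_ee, ek_ee]
      exact Pool.Agent.Helper98.Bern.ee_neg _
    rw [h5, norm_star] at h2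
    exact h2

end MRT
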