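import Pool.Agent.MRT.LsD

/-!
# MRT-EuA: Euler product
-/

set_option autoImplicit false

namespace MRT

open Finset

private theorem eua_pt {z : ℂ} {r : ℝ} (h : ‖z‖ ≤ r) (hr : r ≤ 1 / 2) :
    ‖-Complex.log (1 - z) - z‖ ≤ r ^ 2 := by
  have h1 : ‖-z‖ < 1 := by
    rw [norm_neg]
    linarith
  have h2 := Complex.norm_log_one_add_sub_self_le h1
  have e : -Complex.log (1 - z) - z = -(Complex.log (1 + -z) - -z) := by
    rw [← sub_eq_add_neg]
    ring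
  rw [e, norm_neg]
  refine h2.trans ?_
  rw [norm_neg]
  have h3 : (1 - ‖z‖)⁻¹ ≤ 2 := by
    rw [inv_le_comm₀ (by linarith) (by norm_num)]
    linarith
  have h4 : ‖z‖ ^ 2 * (1 - ‖z‖)⁻¹ ≤ ‖z‖ ^ 2 * 2 := mul_le_mul_of_nonneg_left h3 (sq_nonneg _)
  have h5 : ‖z‖ ^ 2 ≤ r ^ 2 := pow_le_pow_left₀ (norm_nonneg _) h 2
  linarith

private noncomputable def euaF (g : ℕ → ℂ) (hg : CMc g) (σ : ℝ) : ℕ →*₀ ℂ where
  toFun n := if n = 0 then 0 else g n * (((n : ℝ) ^ (-σ) : ℝ) : ℂ)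
  map_zero' := if_pos rfl
  map_one' := by
    rw [if_neg one_ne_zero, hg.one, Nat.cast_one, Real.one_rpow, one_mul, Complex.ofReal_one]
  map_mul' a b := by
    by_cases ha : a = 0
    · simp [ha]
    · by_cases hb : b = 0
      · simp [hb]
      · rw [if_neg (mul_ne_zero ha hb), if_neg ha, if_neg hb,
          hg.mul a b (Nat.pos_of_ne_zero ha) (Nat.pos_of_ne_zero hb), Nat.cast_mul,
          Real.mul_rpow (Nat.cast_nonneg _) (Nat.cast_nonneg _), Complex.ofReal_mul]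
        ring

private theorem euaF_apply (g : ℕ → ℂ) (hg : CMc g) {σ : ℝ} (hσ : 1 < σ) (n : ℕ) :
    euaF g hg σ n = g n * (((n : ℝ) ^ (-σ) : ℝ) : ℂ) := by
  show (if n = 0 then 0 else g n * (((n : ℝ) ^ (-σ) : ℝ) : ℂ)) = _
  by_cases hn : n = 0
  · rw [if_pos hn, hn, Nat.cast_zero, Real.zero_rpow (by linarith), Complex.ofReal_zero, mul_zero]
  · rw [if_neg hn]

private theorem euaF_norm (g : ℕ → ℂ) (hg : CMc g) {σ : ℝ} (hσ : 1 < σ) (n : ℕ) :
    ‖euaF g hg σ n‖ ≤ (n : ℝ) ^ (-σ) := by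
  have h0 : (0 : ℝ) ≤ (n : ℝ) ^ (-σ) := Real.rpow_nonneg (Nat.cast_nonneg _) _
  show ‖(if n = 0 then 0 else g n * (((n : ℝ) ^ (-σ) : ℝ) : ℂ))‖ ≤ _
  by_cases hn : n = 0
  · rw [if_pos hn, norm_zero]
    exact h0
  · rw [if_neg hn, norm_mul, Complex.norm_real, Real.norm_of_nonneg h0]
    have h1 := hg.bd n (Nat.pos_of_ne_zero hn)
    nlinarith

theorem euler : ∃ C : ℝ, 0 < C ∧ ∀ g : ℕ → ℂ, CMc g → ∀ σ : ℝ, 1 < σ →
    (Summable fun p : Nat.Primes => (g p).re * ((p : ℕ) : ℝ) ^ (-σ)) ∧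
    ‖LS g σ 0‖ ≤ C * Real.exp (∑' p : Nat.Primes, (g p).re * ((p : ℕ) : ℝ) ^ (-σ)) ∧
    Real.exp (∑' p : Nat.Primes, (g p).re * ((p : ℕ) : ℝ) ^ (-σ)) ≤ C * ‖LS g σ 0‖ := by
  have hS2 : Summable fun n : ℕ => ((n : ℝ) ^ 2)⁻¹ := Real.summable_nat_pow_inv.2 (by norm_num)
  refine ⟨Real.exp (∑' n : ℕ, ((n : ℝ) ^ 2)⁻¹), Real.exp_pos _, fun g hg σ hσ => ?_⟩
  obtain ⟨F, hF⟩ : ∃ F, F = euaF g hg σ := ⟨_, rfl⟩
  have hFn : ∀ n : ℕ, ‖F n‖ ≤ (n : ℝ) ^ (-σ) := by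
    intro n
    rw [hF]
    exact euaF_norm g hg hσ n
  have hFa : ∀ n : ℕ, F n = g n * (((n : ℝ) ^ (-σ) : ℝ) : ℂ) := by
    intro n
    rw [hF]
    exact euaF_apply g hg hσ n
  have hsumr : Summable fun n : ℕ => (n : ℝ) ^ (-σ) := Real.summable_nat_rpow.2 (by linarith)
  have hsum : Summable fun n => ‖F n‖ := Summable.of_nonneg_of_le (fun _ => norm_nonneg _) hFn hsumr
  have hE := EulerProduct.exp_tsum_primes_log_eq_tsum hsum
  have hLS : LS g σ 0 = ∑' n : ℕ, F n := by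
    unfold LS
    refine tsum_congr fun n => ?_
    rw [cp_zero, mul_one, hFa]
  rw [← hE] at hLS
  -- summability over the primes
  have s1 : Summable fun p : Nat.Primes => F p :=
    hsum.of_norm.comp_injective (i := fun p : Nat.Primes => (p : ℕ)) Subtype.val_injective
  have s2 : Summable fun p : Nat.Primes => -Complex.log (1 - F p) :=
    (hsum.of_norm.clog_one_sub.neg).comp_injective (i := fun p : Nat.Primes => (p : ℕ))
      Subtype.val_injective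
  have s3 : Summable fun p : Nat.Primes => (((p : ℕ) : ℝ) ^ 2)⁻¹ :=
    hS2.comp_injective (i := fun p : Nat.Primes => (p : ℕ)) Subtype.val_injective
  have hre : ∀ p : Nat.Primes, (F p).re = (g p).re * ((p : ℕ) : ℝ) ^ (-σ) := by
    intro p
    rw [hFa, Complex.re_mul_ofReal]
  have s4 : Summable fun p : Nat.Primes => (g p).re * ((p : ℕ) : ℝ) ^ (-σ) := by
    have h1 : Summable fun p : Nat.Primes => (F p).re :=
      (Complex.hasSum_re s1.hasSum).summable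
    exact h1.congr fun p => hre p
  have hpt : ∀ p : Nat.Primes, ‖-Complex.log (1 - F p) - F p‖ ≤ (((p : ℕ) : ℝ) ^ 2)⁻¹ := by
    intro p
    have hp2 : (2 : ℝ) ≤ ((p : ℕ) : ℝ) := by exact_mod_cast p.2.two_le
    have h1 : ‖F p‖ ≤ (((p : ℕ) : ℝ))⁻¹ := by
      refine (hFn p).trans ?_
      rw [← Real.rpow_neg_one]
      exact Real.rpow_le_rpow_of_exponent_le (by linarith) (by linarith)
    have h2 : (((p : ℕ) : ℝ))⁻¹ ≤ 1 / 2 := by
      rw [← one_div]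
      exact one_div_le_one_div_of_le (by norm_num) hp2
    have h3 := eua_pt h1 h2
    rwa [inv_pow] at h3
  have s5 : Summable fun p : Nat.Primes => ‖-Complex.log (1 - F p) - F p‖ :=
    Summable.of_nonneg_of_le (fun _ => norm_nonneg _) hpt s3
  have h6 : ‖(∑' p : Nat.Primes, -Complex.log (1 - F p)) - ∑' p : Nat.Primes, F p‖ ≤
      ∑' n : ℕ, ((n : ℝ) ^ 2)⁻¹ := by
    rw [← s2.tsum_sub s1]
    refine (norm_tsum_le_tsum_norm s5).trans ((s5.tsum_le_tsum hpt s3).trans ?_)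
    exact s3.tsum_le_tsum_of_inj (fun p : Nat.Primes => (p : ℕ)) Subtype.val_injective
      (fun c _ => by positivity) (fun _ => le_refl _) hS2
  have h7 : (∑' p : Nat.Primes, F p).re = ∑' p : Nat.Primes, (g p).re * ((p : ℕ) : ℝ) ^ (-σ) := by
    rw [Complex.re_tsum s1]
    exact tsum_congr hre
  have h8 : |(∑' p : Nat.Primes, -Complex.log (1 - F p)).re -
      ∑' p : Nat.Primes, (g p).re * ((p : ℕ) : ℝ) ^ (-σ)| ≤ ∑' n : ℕ, ((n : ℝ) ^ 2)⁻¹ := by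
    rw [← h7, ← Complex.sub_re]
    exact (Complex.abs_re_le_norm _).trans h6
  obtain ⟨h9, h10⟩ := abs_le.1 h8
  refine ⟨s4, ?_, ?_⟩
  · rw [hLS, Complex.norm_exp, ← Real.exp_add]
    exact Real.exp_le_exp.2 (by linarith)
  · rw [hLS, Complex.norm_exp, ← Real.exp_add]
    exact Real.exp_le_exp.2 (by linarith)

end MRT
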