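import Pool.Agent.MRT.EuA

/-!
# MRT-EuB: bounds for the Dirichlet series of a real function by the zeta function
-/

set_option autoImplicit false

namespace MRT

open Finset

/-- `∑_{f p = -1} p^{-1-1/V}`. -/
noncomputable def Neg (f : ℕ → ℝ) (V : ℝ) : ℝ := ∑' p : Nat.Primes, if f p = -1 then ((p : ℕ) : ℝ) ^ (-(1 + 1 / V)) else 0

theorem cmc_twist {f : ℕ → ℝ} (hf : CMr f) (t : ℝ) : CMc fun n => (f n : ℂ) * cp n t := by
  have h1 : f 1 = 1 := by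
    have h2 := hf.mul 1 1 one_pos one_pos
    rcases hf.sgn 1 one_pos with h | h
    · exact h
    · rw [mul_one, h] at h2
      norm_num at h2
  refine ⟨?_, ?_, ?_⟩
  · show (f 1 : ℂ) * cp 1 t = 1
    rw [h1]
    simp [cp]
  · intro n hn
    show ‖(f n : ℂ) * cp n t‖ ≤ 1
    rw [norm_mul, norm_cp, mul_one]
    rcases hf.sgn n hn with h | h <;> simp [h]
  · intro a b ha hb
    show (f (a * b) : ℂ) * cp (a * b) t = (f a : ℂ) * cp a t * ((f b : ℂ) * cp b t)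
    rw [hf.mul a b ha hb, cp_mul ha hb]
    push_cast
    ring

private theorem re_cp (n : ℕ) (t : ℝ) : (cp n t).re = Real.cos (t * Real.log n) := by
  unfold cp
  rw [Complex.exp_ofReal_mul_I_re, Real.cos_neg]

private theorem eul : ∃ C : ℝ, 0 < C ∧ ∀ f : ℕ → ℝ, CMr f → ∀ V : ℝ, 1 ≤ V → ∀ t : ℝ,
    (Summable fun p : Nat.Primes => f p * Real.cos (t * Real.log (p : ℕ)) *
      ((p : ℕ) : ℝ) ^ (-(1 + 1 / V))) ∧
    ‖LS (fun n => (f n : ℂ)) (1 + 1 / V) t‖ ≤ C * Real.exp (∑' p : Nat.Primes,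
      f p * Real.cos (t * Real.log (p : ℕ)) * ((p : ℕ) : ℝ) ^ (-(1 + 1 / V))) ∧
    Real.exp (∑' p : Nat.Primes, f p * Real.cos (t * Real.log (p : ℕ)) *
      ((p : ℕ) : ℝ) ^ (-(1 + 1 / V))) ≤ C * ‖LS (fun n => (f n : ℂ)) (1 + 1 / V) t‖ := by
  obtain ⟨C, hC, h⟩ := euler
  refine ⟨C, hC, fun f hf V hV t => ?_⟩
  have hV0 : 0 < V := by linarith
  have h1 := h _ (cmc_twist hf t) (1 + 1 / V) (by
    have : 0 < 1 / V := by positivity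
    linarith)
  have h2 : ∀ n : ℕ, ((f n : ℂ) * cp n t).re = f n * Real.cos (t * Real.log n) := by
    intro n
    rw [Complex.re_ofReal_mul, re_cp]
  rw [ls_twist, add_zero] at h1
  simp only [h2] at h1
  exact h1

private theorem cmr_one : CMr fun _ => (1 : ℝ) := ⟨fun _ _ => Or.inl rfl, fun _ _ _ _ => (mul_one 1).symm⟩

private theorem eul_one : ∃ C : ℝ, 0 < C ∧ ∀ V : ℝ, 1 ≤ V →
    (Summable fun p : Nat.Primes => ((p : ℕ) : ℝ) ^ (-(1 + 1 / V))) ∧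
    Real.exp (∑' p : Nat.Primes, ((p : ℕ) : ℝ) ^ (-(1 + 1 / V))) ≤ C * V := by
  obtain ⟨C, hC, h⟩ := eul
  refine ⟨C * 2, by positivity, fun V hV => ?_⟩
  obtain ⟨h1, -, h3⟩ := h _ cmr_one V hV 0
  simp only [zero_mul, Real.cos_zero, mul_one, one_mul] at h1 h3
  refine ⟨h1, h3.trans ?_⟩
  have h4 : LS (fun _ => ((1 : ℝ) : ℂ)) (1 + 1 / V) 0 =
      ((∑' n : ℕ, (n : ℝ) ^ (-(1 + 1 / V)) : ℝ) : ℂ) := by
    unfold LS
    rw [Complex.ofReal_tsum]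
    refine tsum_congr fun n => ?_
    rw [cp_zero, mul_one, Complex.ofReal_one, one_mul]
  have h5 : 0 ≤ ∑' n : ℕ, (n : ℝ) ^ (-(1 + 1 / V)) := tsum_nonneg fun n => by positivity
  rw [h4, Complex.norm_real, Real.norm_of_nonneg h5]
  have h6 := (ls_one hV).1
  have h7 : ∑' n : ℕ, (n : ℝ) ^ (-(1 + 1 / V)) ≤ 2 * V := by linarith
  calc C * ∑' n : ℕ, (n : ℝ) ^ (-(1 + 1 / V)) ≤ C * (2 * V) := mul_le_mul_of_nonneg_left h7 hC.le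
    _ = C * 2 * V := by ring

private theorem cast_one' : (fun _ : ℕ => ((1 : ℝ) : ℂ)) = fun _ => 1 := by
  funext n
  exact Complex.ofReal_one

theorem eu_big : ∃ C : ℝ, 0 < C ∧ ∀ f : ℕ → ℝ, CMr f → ∀ V : ℝ, 1 ≤ V → ∀ t : ℝ,
    ‖LS (fun n => (f n : ℂ)) (1 + 1 / V) t‖ ≤ C * V ^ (3 / 4 : ℝ) * ‖LS (fun _ => 1) (1 + 1 / V) (2 * t)‖ ^ (1 / 4 : ℝ) := by
  obtain ⟨C, hC, h⟩ := eul
  obtain ⟨D, hD, h'⟩ := eul_one
  refine ⟨C * D ^ (3 / 4 : ℝ) * C ^ (1 / 4 : ℝ), by positivity, fun f hf V hV t => ?_⟩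
  have hV0 : 0 < V := by linarith
  obtain ⟨f1, f2, -⟩ := h f hf V hV t
  obtain ⟨g1, -, g3⟩ := h _ cmr_one V hV (2 * t)
  obtain ⟨p1, p2⟩ := h' V hV
  rw [cast_one'] at g3
  simp only [one_mul] at g1 g3
  obtain ⟨F, hF⟩ : ∃ F : ℝ, F = ∑' p : Nat.Primes, f p * Real.cos (t * Real.log (p : ℕ)) *
      ((p : ℕ) : ℝ) ^ (-(1 + 1 / V)) := ⟨_, rfl⟩
  obtain ⟨Z, hZ⟩ : ∃ Z : ℝ, Z = ∑' p : Nat.Primes, Real.cos (2 * t * Real.log (p : ℕ)) *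
      ((p : ℕ) : ℝ) ^ (-(1 + 1 / V)) := ⟨_, rfl⟩
  obtain ⟨P, hP⟩ : ∃ P : ℝ, P = ∑' p : Nat.Primes, ((p : ℕ) : ℝ) ^ (-(1 + 1 / V)) := ⟨_, rfl⟩
  have hle : F ≤ 3 / 4 * P + 1 / 4 * Z := by
    rw [hF, hP, hZ, ← tsum_mul_left, ← tsum_mul_left,
      ← (p1.mul_left (3 / 4)).tsum_add (g1.mul_left (1 / 4))]
    refine f1.tsum_le_tsum (fun p => ?_) ((p1.mul_left (3 / 4)).add (g1.mul_left (1 / 4)))
    have hw : 0 ≤ ((p : ℕ) : ℝ) ^ (-(1 + 1 / V)) := by positivity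
    obtain ⟨w, hwd⟩ : ∃ w : ℝ, w = ((p : ℕ) : ℝ) ^ (-(1 + 1 / V)) := ⟨_, rfl⟩
    rw [← hwd] at hw ⊢
    have h2 : Real.cos (2 * t * Real.log (p : ℕ)) = 2 * Real.cos (t * Real.log (p : ℕ)) ^ 2 - 1 := by
      rw [mul_assoc, Real.cos_two_mul]
    obtain ⟨c, hc⟩ : ∃ c : ℝ, c = Real.cos (t * Real.log (p : ℕ)) := ⟨_, rfl⟩
    rw [h2, ← hc]
    have h3 : f p * c ≤ 3 / 4 + 1 / 4 * (2 * c ^ 2 - 1) := by
      rcases hf.sgn p p.2.pos with h4 | h4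
      · rw [h4]
        nlinarith [sq_nonneg (c - 1)]
      · rw [h4]
        nlinarith [sq_nonneg (c + 1)]
    calc f p * c * w ≤ (3 / 4 + 1 / 4 * (2 * c ^ 2 - 1)) * w := mul_le_mul_of_nonneg_right h3 hw
      _ = 3 / 4 * w + 1 / 4 * ((2 * c ^ 2 - 1) * w) := by ring
  rw [← hF] at f2
  rw [← hZ] at g3
  rw [← hP] at p2
  have e1 : Real.exp F ≤ (D * V) ^ (3 / 4 : ℝ) *
      (C * ‖LS (fun _ => 1) (1 + 1 / V) (2 * t)‖) ^ (1 / 4 : ℝ) := by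
    calc Real.exp F ≤ Real.exp (3 / 4 * P + 1 / 4 * Z) := Real.exp_le_exp.2 hle
      _ = Real.exp P ^ (3 / 4 : ℝ) * Real.exp Z ^ (1 / 4 : ℝ) := by
        rw [Real.exp_add, ← Real.exp_mul, ← Real.exp_mul, mul_comm (3 / 4) P, mul_comm (1 / 4) Z]
      _ ≤ _ := mul_le_mul (Real.rpow_le_rpow (Real.exp_pos _).le p2 (by norm_num))
          (Real.rpow_le_rpow (Real.exp_pos _).le g3 (by norm_num)) (by positivity) (by positivity)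
  rw [Real.mul_rpow hD.le hV0.le, Real.mul_rpow hC.le (norm_nonneg _)] at e1
  refine (f2.trans (mul_le_mul_of_nonneg_left e1 hC.le)).trans (le_of_eq ?_)
  ring

theorem eu_small : ∃ C : ℝ, 0 < C ∧ ∀ f : ℕ → ℝ, CMr f → ∀ V : ℝ, 1 ≤ V → ∀ t : ℝ,
    ‖LS (fun n => (f n : ℂ)) (1 + 1 / V) t‖ * ‖LS (fun _ => 1) (1 + 1 / V) t‖ ≤ C * V ^ 2 * Real.exp (-2 * Neg f V) := by
  obtain ⟨C, hC, h⟩ := eul
  obtain ⟨D, hD, h'⟩ := eul_one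
  refine ⟨C ^ 2 * D ^ 2, by positivity, fun f hf V hV t => ?_⟩
  have hV0 : 0 < V := by linarith
  obtain ⟨f1, f2, -⟩ := h f hf V hV t
  obtain ⟨g1, g2, -⟩ := h _ cmr_one V hV t
  obtain ⟨p1, p2⟩ := h' V hV
  rw [cast_one'] at g2
  simp only [one_mul] at g1 g2
  have hN : Summable fun p : Nat.Primes =>
      if f p = -1 then ((p : ℕ) : ℝ) ^ (-(1 + 1 / V)) else 0 := by
    refine Summable.of_nonneg_of_le (fun p => ?_) (fun p => ?_) p1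
    · split_ifs <;> positivity
    · split_ifs
      · exact le_rfl
      · positivity
  obtain ⟨F, hF⟩ : ∃ F : ℝ, F = ∑' p : Nat.Primes, f p * Real.cos (t * Real.log (p : ℕ)) *
      ((p : ℕ) : ℝ) ^ (-(1 + 1 / V)) := ⟨_, rfl⟩
  obtain ⟨Z, hZ⟩ : ∃ Z : ℝ, Z = ∑' p : Nat.Primes, Real.cos (t * Real.log (p : ℕ)) *
      ((p : ℕ) : ℝ) ^ (-(1 + 1 / V)) := ⟨_, rfl⟩
  obtain ⟨P, hP⟩ : ∃ P : ℝ, P = ∑' p : Nat.Primes, ((p : ℕ) : ℝ) ^ (-(1 + 1 / V)) := ⟨_, rfl⟩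
  have hle : F + Z + 2 * Neg f V ≤ 2 * P := by
    unfold Neg
    rw [hF, hP, hZ, ← tsum_mul_left, ← tsum_mul_left, ← f1.tsum_add g1,
      ← (f1.add g1).tsum_add (hN.mul_left 2)]
    refine ((f1.add g1).add (hN.mul_left 2)).tsum_le_tsum (fun p => ?_) (p1.mul_left 2)
    have hw : 0 ≤ ((p : ℕ) : ℝ) ^ (-(1 + 1 / V)) := by positivity
    obtain ⟨w, hwd⟩ : ∃ w : ℝ, w = ((p : ℕ) : ℝ) ^ (-(1 + 1 / V)) := ⟨_, rfl⟩
    rw [← hwd] at hw ⊢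
    have hc := Real.cos_le_one (t * Real.log (p : ℕ))
    obtain ⟨c, hc'⟩ : ∃ c : ℝ, c = Real.cos (t * Real.log (p : ℕ)) := ⟨_, rfl⟩
    rw [← hc'] at hc ⊢
    rcases hf.sgn p p.2.pos with h4 | h4
    · rw [h4, if_neg (by norm_num)]
      nlinarith
    · rw [h4, if_pos rfl]
      linarith
  rw [← hF] at f2
  rw [← hZ] at g2
  rw [← hP] at p2
  have e1 : Real.exp F * Real.exp Z ≤ (D * V) ^ 2 * Real.exp (-2 * Neg f V) := by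
    rw [← Real.exp_add]
    calc Real.exp (F + Z) ≤ Real.exp (2 * P + -2 * Neg f V) := Real.exp_le_exp.2 (by linarith)
      _ = Real.exp P ^ 2 * Real.exp (-2 * Neg f V) := by
        rw [Real.exp_add, ← Real.exp_nat_mul]
        norm_num
      _ ≤ _ := mul_le_mul_of_nonneg_right (pow_le_pow_left₀ (Real.exp_pos _).le p2 2)
          (Real.exp_pos _).le
  calc ‖LS (fun n => (f n : ℂ)) (1 + 1 / V) t‖ * ‖LS (fun _ => 1) (1 + 1 / V) t‖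
      ≤ C * Real.exp F * (C * Real.exp Z) := mul_le_mul f2 g2 (norm_nonneg _) (by positivity)
    _ = C ^ 2 * (Real.exp F * Real.exp Z) := by ring
    _ ≤ C ^ 2 * ((D * V) ^ 2 * Real.exp (-2 * Neg f V)) :=
        mul_le_mul_of_nonneg_left e1 (by positivity)
    _ = C ^ 2 * D ^ 2 * V ^ 2 * Real.exp (-2 * Neg f V) := by ring

end MRT
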