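import Pool.Agent.MRT.Bas

/-!
# MRT-Fac: the factorisation identity

`rr H a b v n` = number of primes `p ∣ n` of the block (in the cell `c`) with `n / p ∈ Ic (v - c/H) (v + 1 - c/H)`.
-/

set_option autoImplicit false

namespace MRT

open Finset

open Classical in
noncomputable def rr (H a b : ℕ) (v : ℝ) (n : ℕ) : ℕ :=
  ∑ c ∈ Ico (H * a) (H * b), ((Cl H c).filter fun p => p ∣ n ∧ n / p ∈ Ic (v - (c : ℝ) / H) (v - (c : ℝ) / H + 1)).card

private theorem cl_log {H : ℕ} {c p : ℕ} (hp : p ∈ Cl H c) :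
    1 ≤ p ∧ (c : ℝ) / H < Real.log p ∧ Real.log p ≤ (c : ℝ) / H + 1 / H := by
  unfold Cl at hp
  have h1 := (Finset.mem_filter.1 hp).1
  have h2 := one_le_of_mem h1
  have h3 := (mem_Ic_log h2).1 h1
  refine ⟨h2, h3.1, ?_⟩
  rw [← add_div]
  exact h3.2

private theorem quo_log {p n : ℕ} (hp : 1 ≤ p) (hn : 1 ≤ n) (h : p ∣ n) :
    1 ≤ n / p ∧ Real.log ((n / p : ℕ) : ℝ) = Real.log n - Real.log p := by
  obtain ⟨m, rfl⟩ := h
  have hm : 0 < m := by
    rcases Nat.eq_zero_or_pos m with h0 | h0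
    · rw [h0, mul_zero] at hn
      omega
    · exact h0
  rw [Nat.mul_div_cancel_left m (by omega)]
  refine ⟨hm, ?_⟩
  have hp' : (p : ℝ) ≠ 0 := by
    have : p ≠ 0 := by omega
    exact_mod_cast this
  have hm' : (m : ℝ) ≠ 0 := by exact_mod_cast hm.ne'
  rw [Nat.cast_mul, Real.log_mul hp' hm']
  ring

private theorem fac_p {F : ℕ → ℂ} {H : ℕ} (hH : 1 ≤ H) {c p : ℕ} (hp : p ∈ Cl H c) (v : ℝ) :
    ∑ m ∈ Ic (v - (c : ℝ) / H) (v - (c : ℝ) / H + 1), F (p * m) =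
      ∑ n ∈ Ic v (v + 2), if p ∣ n ∧ n / p ∈ Ic (v - (c : ℝ) / H) (v - (c : ℝ) / H + 1) then F n
        else 0 := by
  classical
  obtain ⟨hp1, hp2, hp3⟩ := cl_log hp
  have hH' : (1 : ℝ) ≤ H := by exact_mod_cast hH
  have hH1 : 1 / (H : ℝ) ≤ 1 := by
    rw [div_le_one (by linarith)]
    exact hH'
  rw [← Finset.sum_filter]
  have e : (Ic v (v + 2)).filter (fun n => p ∣ n ∧ n / p ∈ Ic (v - (c : ℝ) / H)
      (v - (c : ℝ) / H + 1)) = (Ic (v - (c : ℝ) / H) (v - (c : ℝ) / H + 1)).image (p * ·) := by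
    ext n
    rw [Finset.mem_filter, Finset.mem_image]
    constructor
    · rintro ⟨_, h2, h3⟩
      exact ⟨n / p, h3, Nat.mul_div_cancel' h2⟩
    · rintro ⟨m, hm, rfl⟩
      have hm1 := one_le_of_mem hm
      have hpm : 1 ≤ p * m := Nat.mul_pos hp1 hm1
      obtain ⟨h4, h5⟩ := (mem_Ic_log hm1).1 hm
      have hp' : (p : ℝ) ≠ 0 := by
        have : p ≠ 0 := by omega
        exact_mod_cast this
      have hm' : (m : ℝ) ≠ 0 := by
        have : m ≠ 0 := by omega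
        exact_mod_cast this
      refine ⟨?_, dvd_mul_right _ _, ?_⟩
      · rw [mem_Ic_log hpm, Nat.cast_mul, Real.log_mul hp' hm']
        constructor <;> linarith
      · rw [Nat.mul_div_cancel_left m (by omega)]
        exact hm
  rw [e, Finset.sum_image]
  intro x _ y _ hxy
  exact Nat.eq_of_mul_eq_mul_left hp1 hxy

theorem fac_eq {f : ℕ → ℝ} (hf : CMr f) {H : ℕ} (hH : 1 ≤ H) (a b : ℕ) (v t : ℝ) :
    ∑ c ∈ Ico (H * a) (H * b), Qc f H c t * Av f (v - (c : ℝ) / H) t =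
      Dp (Ic v (v + 2)) (fun n => ((f n * rr H a b v n : ℝ) : ℂ)) t := by
  classical
  set F : ℕ → ℂ := fun n => (f n : ℂ) / n * cp n t with hF
  have h1 : ∀ c, Qc f H c t * Av f (v - (c : ℝ) / H) t =
      ∑ n ∈ Ic v (v + 2), ∑ p ∈ Cl H c,
        if p ∣ n ∧ n / p ∈ Ic (v - (c : ℝ) / H) (v - (c : ℝ) / H + 1) then F n else 0 := by
    intro c
    rw [Finset.sum_comm]
    unfold Qc Av Dp
    rw [Finset.sum_mul_sum]
    refine Finset.sum_congr rfl fun p hp => ?_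
    rw [← fac_p hH hp v]
    refine Finset.sum_congr rfl fun m hm => ?_
    have hp1 := (cl_log hp).1
    have hm1 := one_le_of_mem hm
    rw [hF]
    simp only
    rw [hf.mul p m hp1 hm1, cp_mul hp1 hm1]
    push_cast
    have hp' : (p : ℂ) ≠ 0 := by
      have : p ≠ 0 := by omega
      exact_mod_cast this
    have hm' : (m : ℂ) ≠ 0 := by
      have : m ≠ 0 := by omega
      exact_mod_cast this
    field_simp
  rw [Finset.sum_congr rfl fun c _ => h1 c, Finset.sum_comm]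
  unfold Dp
  refine Finset.sum_congr rfl fun n _ => ?_
  have h2 : (rr H a b v n : ℂ) = ∑ c ∈ Ico (H * a) (H * b), ∑ p ∈ Cl H c,
      if p ∣ n ∧ n / p ∈ Ic (v - (c : ℝ) / H) (v - (c : ℝ) / H + 1) then (1 : ℂ) else 0 := by
    unfold rr
    push_cast
    refine Finset.sum_congr rfl fun c _ => ?_
    rw [Finset.card_filter]
    push_cast
    rfl
  have h3 : (((f n * rr H a b v n : ℝ) : ℂ)) / n * cp n t = (rr H a b v n : ℂ) * F n := by
    rw [hF]
    push_cast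
    ring
  rw [h3, h2, Finset.sum_mul]
  refine Finset.sum_congr rfl fun c _ => ?_
  rw [Finset.sum_mul]
  refine Finset.sum_congr rfl fun p _ => ?_
  split_ifs <;> simp

private theorem om_eq {H : ℕ} (hH : 1 ≤ H) (a b n : ℕ) :
    om (Bk a b) n = ∑ c ∈ Ico (H * a) (H * b), ((Cl H c).filter fun p => p ∣ n).card := by
  classical
  unfold om
  rw [Bk_eq hH, Finset.filter_biUnion, Finset.card_biUnion]
  intro c _ c' _ h
  exact Finset.disjoint_filter_filter (Cl_disj hH h)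

theorem rr_le {H : ℕ} (hH : 1 ≤ H) (a b : ℕ) (v : ℝ) (n : ℕ) : rr H a b v n ≤ om (Bk a b) n := by
  rw [om_eq hH]
  unfold rr
  refine Finset.sum_le_sum fun c _ => Finset.card_le_card ?_
  intro p hp
  rw [Finset.mem_filter] at hp ⊢
  exact ⟨hp.1, hp.2.1⟩

theorem rr_eq {H : ℕ} (hH : 1 ≤ H) (a b : ℕ) {v : ℝ} {n : ℕ} (hn : 1 ≤ n) (h1 : v + 1 / H < Real.log n) (h2 : Real.log n ≤ v + 1) :
    rr H a b v n = om (Bk a b) n := by
  rw [om_eq hH]
  unfold rr
  refine Finset.sum_congr rfl fun c _ => ?_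
  congr 1
  ext p
  rw [Finset.mem_filter, Finset.mem_filter]
  constructor
  · rintro ⟨h3, h4, _⟩
    exact ⟨h3, h4⟩
  · rintro ⟨h3, h4⟩
    obtain ⟨hp1, hp2, hp3⟩ := cl_log h3
    obtain ⟨hq1, hq2⟩ := quo_log hp1 hn h4
    refine ⟨h3, h4, ?_⟩
    rw [mem_Ic_log hq1, hq2]
    constructor <;> linarith

theorem rr_zero {H : ℕ} (hH : 1 ≤ H) (a b : ℕ) {v : ℝ} {n : ℕ} (hn : 1 ≤ n) (h : Real.log n ≤ v ∨ v + 1 + 1 / H < Real.log n) :
    rr H a b v n = 0 := by
  have _ := hH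
  unfold rr
  refine Finset.sum_eq_zero fun c _ => ?_
  rw [Finset.card_eq_zero, Finset.filter_eq_empty_iff]
  rintro p hp ⟨h4, h5⟩
  obtain ⟨hp1, hp2, hp3⟩ := cl_log hp
  obtain ⟨hq1, hq2⟩ := quo_log hp1 hn h4
  rw [mem_Ic_log hq1, hq2] at h5
  rcases h with h | h
  · linarith [h5.1]
  · linarith [h5.2]

private theorem sum_ite_le {I S : Finset ℕ} {g : ℕ → ℝ} (hg : ∀ n, 0 ≤ g n) (P : ℕ → Prop)
    [DecidablePred P] (hP : ∀ n, P n → n ∈ S) :
    ∑ n ∈ I, (if P n then g n else 0) ≤ ∑ n ∈ S, g n := by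
  rw [← Finset.sum_filter]
  refine Finset.sum_le_sum_of_subset_of_nonneg ?_ fun n _ _ => hg n
  intro n hn
  exact hP n (Finset.mem_filter.1 hn).2

open Classical in
theorem coef_sq {H : ℕ} (hH : 1 ≤ H) (a b : ℕ) (v : ℝ) :
    ∑ n ∈ Ic v (v + 2), ((if n ∈ Ic v (v + 1) then Ws (Bk a b) else 0) - rr H a b v n) ^ 2 / n ≤
      2 * ∑ n ∈ Ic v (v + 1), ((om (Bk a b) n : ℝ) - Ws (Bk a b)) ^ 2 / n +
      2 * ∑ n ∈ Ic v (v + 1 / H), (om (Bk a b) n : ℝ) ^ 2 / n + 2 * ∑ n ∈ Ic (v + 1) (v + 1 + 1 / H), (om (Bk a b) n : ℝ) ^ 2 / n := by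
  set W := Ws (Bk a b) with hW
  have g1 : ∀ n : ℕ, 0 ≤ ((om (Bk a b) n : ℝ) - W) ^ 2 / n := fun n => by positivity
  have g2 : ∀ n : ℕ, 0 ≤ (om (Bk a b) n : ℝ) ^ 2 / n := fun n => by positivity
  have key : ∀ n ∈ Ic v (v + 2), ((if n ∈ Ic v (v + 1) then W else 0) - (rr H a b v n : ℝ)) ^ 2 / n ≤
      2 * (if n ∈ Ic v (v + 1) then ((om (Bk a b) n : ℝ) - W) ^ 2 / n else 0) +
      2 * (if n ∈ Ic v (v + 1 / H) then (om (Bk a b) n : ℝ) ^ 2 / n else 0) +
      2 * (if n ∈ Ic (v + 1) (v + 1 + 1 / H) then (om (Bk a b) n : ℝ) ^ 2 / n else 0) := by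
    intro n hn
    have hn1 := one_le_of_mem hn
    have hn' : (0 : ℝ) < n := by exact_mod_cast hn1
    obtain ⟨hl1, hl2⟩ := (mem_Ic_log hn1).1 hn
    have hr1 : (0 : ℝ) ≤ rr H a b v n := Nat.cast_nonneg _
    have hr2 : (rr H a b v n : ℝ) ≤ om (Bk a b) n := by exact_mod_cast rr_le hH a b v n
    have hx1 := g1 n
    have hx2 := g2 n
    by_cases hA : n ∈ Ic v (v + 1)
    · have hA' := ((mem_Ic_log hn1).1 hA).2
      simp only [if_pos hA]
      by_cases hB : n ∈ Ic v (v + 1 / H)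
      · simp only [if_pos hB]
        have h3 : (W - (rr H a b v n : ℝ)) ^ 2 / n ≤
            2 * (((om (Bk a b) n : ℝ) - W) ^ 2 / n) + 2 * ((om (Bk a b) n : ℝ) ^ 2 / n) := by
          rw [← mul_div_assoc, ← mul_div_assoc, ← add_div]
          refine div_le_div_of_nonneg_right ?_ hn'.le
          nlinarith [sq_nonneg ((W - om (Bk a b) n) - (om (Bk a b) n - (rr H a b v n : ℝ))),
            mul_nonneg hr1 (sub_nonneg.2 hr2)]
        split_ifs <;> linarith
      · have h4 : rr H a b v n = om (Bk a b) n := by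
          refine rr_eq hH a b hn1 ?_ hA'
          by_contra hc
          exact hB ((mem_Ic_log hn1).2 ⟨hl1, not_lt.1 hc⟩)
        simp only [if_neg hB]
        rw [h4]
        have h5 : (W - (om (Bk a b) n : ℝ)) ^ 2 / n = ((om (Bk a b) n : ℝ) - W) ^ 2 / n := by
          congr 1
          ring
        rw [h5]
        split_ifs <;> linarith
    · simp only [if_neg hA]
      have hA' : v + 1 < Real.log n := by
        by_contra hc
        exact hA ((mem_Ic_log hn1).2 ⟨hl1, not_lt.1 hc⟩)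
      by_cases hC : n ∈ Ic (v + 1) (v + 1 + 1 / H)
      · simp only [if_pos hC]
        have h6 : (0 - (rr H a b v n : ℝ)) ^ 2 / n ≤ (om (Bk a b) n : ℝ) ^ 2 / n := by
          refine div_le_div_of_nonneg_right ?_ hn'.le
          nlinarith
        split_ifs <;> linarith
      · have h7 : rr H a b v n = 0 := by
          refine rr_zero hH a b hn1 (Or.inr ?_)
          by_contra hc
          exact hC ((mem_Ic_log hn1).2 ⟨hA', not_lt.1 hc⟩)
        simp only [if_neg hC, h7]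
        split_ifs <;> simp <;> linarith
  refine (Finset.sum_le_sum key).trans ?_
  rw [Finset.sum_add_distrib, Finset.sum_add_distrib, ← Finset.mul_sum, ← Finset.mul_sum,
    ← Finset.mul_sum]
  have s1 := sum_ite_le (I := Ic v (v + 2)) (S := Ic v (v + 1)) g1 (fun n => n ∈ Ic v (v + 1))
    (fun n h => h)
  have s2 := sum_ite_le (I := Ic v (v + 2)) (S := Ic v (v + 1 / H)) g2
    (fun n => n ∈ Ic v (v + 1 / H)) (fun n h => h)
  have s3 := sum_ite_le (I := Ic v (v + 2)) (S := Ic (v + 1) (v + 1 + 1 / H)) g2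
    (fun n => n ∈ Ic (v + 1) (v + 1 + 1 / H)) (fun n h => h)
  linarith

end MRT
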