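import Pool.Agent.MRT.LsD
import Pool.Agent.MRT.Che
import Pool.Agent.MRT.Mvb

/-!
# MRT-HaA: the series of `Λ g`

`conv` is Dirichlet convolution (`g log = (Λ g) * g`); `lam_gauss` and `log_gauss` are Gaussian mean squares,
estimated by finite sums.
-/

set_option autoImplicit false

namespace MRT

open Finset MeasureTheory

private theorem gbd {g : ℕ → ℂ} (hg : CMc g) : ∀ n, 0 < n → ‖g n‖ ≤ 1 * (1 + Real.log n) ^ 0 := by
  intro n hn
  rw [pow_zero, mul_one]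
  exact hg.bd n hn

private theorem lbd {g : ℕ → ℂ} (hg : CMc g) :
    ∀ n, 0 < n → ‖(ArithmeticFunction.vonMangoldt n : ℂ) * g n‖ ≤ 1 * (1 + Real.log n) ^ 1 := by
  intro n hn
  have h1 : (0 : ℝ) ≤ Real.log n := Real.log_natCast_nonneg n
  have h2 : ‖(ArithmeticFunction.vonMangoldt n : ℂ)‖ = ArithmeticFunction.vonMangoldt n := by
    rw [Complex.norm_real, Real.norm_of_nonneg ArithmeticFunction.vonMangoldt_nonneg]
  have h3 : ArithmeticFunction.vonMangoldt n ≤ Real.log n := ArithmeticFunction.vonMangoldt_le_log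
  rw [norm_mul, h2, pow_one, one_mul]
  have h4 := mul_le_mul h3 (hg.bd n hn) (norm_nonneg _) h1
  linarith

private theorem logbd {g : ℕ → ℂ} (hg : CMc g) :
    ∀ n, 0 < n → ‖g n * (Real.log n : ℂ)‖ ≤ 1 * (1 + Real.log n) ^ 1 := by
  intro n hn
  have h1 : (0 : ℝ) ≤ Real.log n := Real.log_natCast_nonneg n
  rw [norm_mul, Complex.norm_real, Real.norm_of_nonneg h1, pow_one, one_mul]
  have h4 := mul_le_mul (hg.bd n hn) (le_refl (Real.log n)) h1 zero_le_one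
  linarith

private theorem ls_term (a : ℕ → ℂ) {σ : ℝ} (hσ : 1 < σ) (τ : ℝ) (n : ℕ) :
    a n * (((n : ℝ) ^ (-σ) : ℝ) : ℂ) * cp n τ = LSeries.term a ((σ : ℂ) + (τ : ℂ) * Complex.I) n := by
  rcases Nat.eq_zero_or_pos n with rfl | hn
  · rw [LSeries.term_zero, Nat.cast_zero, Real.zero_rpow (by linarith), Complex.ofReal_zero]
    ring
  · have hn0 : (n : ℂ) ≠ 0 := by exact_mod_cast hn.ne'
    rw [LSeries.term_of_ne_zero hn.ne', cp_eq_cpow hn, Complex.ofReal_cpow (Nat.cast_nonneg n),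
      Complex.ofReal_natCast, mul_assoc, ← Complex.cpow_add _ _ hn0, div_eq_mul_inv, ← Complex.cpow_neg]
    congr 2
    push_cast
    ring

private theorem ls_eq (a : ℕ → ℂ) {σ : ℝ} (hσ : 1 < σ) (τ : ℝ) :
    LS a σ τ = LSeries a ((σ : ℂ) + (τ : ℂ) * Complex.I) := by
  unfold LS LSeries
  exact tsum_congr fun n => ls_term a hσ τ n

private theorem ls_sum {a : ℕ → ℂ} {C : ℝ} {k : ℕ} (ha : ∀ n, 0 < n → ‖a n‖ ≤ C * (1 + Real.log n) ^ k) {σ : ℝ}
    (hσ : 1 < σ) (τ : ℝ) : LSeriesSummable a ((σ : ℂ) + (τ : ℂ) * Complex.I) := by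
  have h1 := (ls_summable ha hσ τ).of_norm
  unfold LSeriesSummable
  rw [← funext (ls_term a hσ τ)]
  exact h1

theorem conv {g : ℕ → ℂ} (hg : CMc g) {σ : ℝ} (hσ : 1 < σ) (τ : ℝ) :
    LS (fun n => g n * Real.log n) σ τ = LS (fun n => (ArithmeticFunction.vonMangoldt n : ℂ) * g n) σ τ * LS g σ τ := by
  rw [ls_eq _ hσ, ls_eq _ hσ, ls_eq _ hσ,
    ← LSeries_convolution' (ls_sum (lbd hg) hσ τ) (ls_sum (gbd hg) hσ τ)]
  refine LSeries_congr (fun {n} hn => ?_) _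
  rw [LSeries.convolution_def]
  have h1 : ∀ p ∈ n.divisorsAntidiagonal,
      (ArithmeticFunction.vonMangoldt p.1 : ℂ) * g p.1 * g p.2 = g n * (ArithmeticFunction.vonMangoldt p.1 : ℂ) := by
    intro p hp
    rw [Nat.mem_divisorsAntidiagonal] at hp
    have hp1 : 0 < p.1 := Nat.pos_of_ne_zero fun h => hp.2 (by rw [← hp.1, h, zero_mul])
    have hp2 : 0 < p.2 := Nat.pos_of_ne_zero fun h => hp.2 (by rw [← hp.1, h, mul_zero])
    rw [← hp.1, hg.mul _ _ hp1 hp2]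
    ring
  show g n * (Real.log n : ℂ) = ∑ p ∈ n.divisorsAntidiagonal,
    (ArithmeticFunction.vonMangoldt p.1 : ℂ) * g p.1 * g p.2
  rw [Finset.sum_congr rfl h1, ← Finset.mul_sum,
    Nat.sum_divisorsAntidiagonal (f := fun d _ => (ArithmeticFunction.vonMangoldt d : ℂ)),
    ← ArithmeticFunction.vonMangoldt_sum, Complex.ofReal_sum]

private theorem gauss_eq {L : ℝ} (τ : ℝ) : Real.exp (-(τ / L) ^ 2) = Real.exp (-(1 / L ^ 2) * τ ^ 2) := by
  congr 1
  ring

private theorem gauss_int {L : ℝ} (hL : 0 < L) : Integrable fun τ : ℝ => Real.exp (-(τ / L) ^ 2) := by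
  simp_rw [gauss_eq]
  exact integrable_exp_neg_mul_sq (by positivity)

private theorem gauss_val {L : ℝ} (hL : 0 < L) :
    ∫ τ : ℝ, Real.exp (-(τ / L) ^ 2) = Real.sqrt Real.pi * L := by
  simp_rw [gauss_eq]
  rw [integral_gaussian]
  have h1 : Real.pi / (1 / L ^ 2) = Real.pi * L ^ 2 := by
    field_simp
  rw [h1, Real.sqrt_mul Real.pi_pos.le, Real.sqrt_sq hL.le]

private theorem fin_to {a : ℕ → ℂ} {C : ℝ} {k : ℕ} (ha : ∀ n, 0 < n → ‖a n‖ ≤ C * (1 + Real.log n) ^ k) {σ : ℝ}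
    (hσ : 1 < σ) {L B : ℝ} (hL : 0 < L)
    (hB : ∀ N : ℕ, ∫ τ : ℝ, ‖Dp (Icc 1 N) (fun n => a n * (((n : ℝ) ^ (1 - σ) : ℝ) : ℂ)) τ‖ ^ 2 *
      Real.exp (-(τ / L) ^ 2) ≤ B) :
    (Integrable fun τ : ℝ => ‖LS a σ τ‖ ^ 2 * Real.exp (-(τ / L) ^ 2)) ∧
      ∫ τ : ℝ, ‖LS a σ τ‖ ^ 2 * Real.exp (-(τ / L) ^ 2) ≤ 2 * B + 2 * (Real.sqrt Real.pi * L) := by
  obtain ⟨N, hN⟩ := ls_tendsto ha hσ 1 one_pos
  obtain ⟨P, hP⟩ : ∃ P, P = Dp (Icc 1 N) (fun n => a n * (((n : ℝ) ^ (1 - σ) : ℝ) : ℂ)) := ⟨_, rfl⟩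
  have h0 : ∀ τ, ‖LS a σ τ‖ ≤ ‖P τ‖ + 1 := by
    intro τ
    have h1 := hN N le_rfl τ
    rw [← hP] at h1
    calc ‖LS a σ τ‖ = ‖(LS a σ τ - P τ) + P τ‖ := by rw [sub_add_cancel]
      _ ≤ ‖LS a σ τ - P τ‖ + ‖P τ‖ := norm_add_le _ _
      _ ≤ ‖P τ‖ + 1 := by linarith
  have h1 : ∀ τ, ‖LS a σ τ‖ ^ 2 * Real.exp (-(τ / L) ^ 2) ≤
      2 * (‖P τ‖ ^ 2 * Real.exp (-(τ / L) ^ 2)) + 2 * Real.exp (-(τ / L) ^ 2) := by
    intro τ
    have h2 : ‖LS a σ τ‖ ^ 2 ≤ 2 * ‖P τ‖ ^ 2 + 2 := by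
      have h3 := pow_le_pow_left₀ (norm_nonneg _) (h0 τ) 2
      nlinarith [sq_nonneg (‖P τ‖ - 1)]
    have h3 := mul_le_mul_of_nonneg_right h2 (Real.exp_pos (-(τ / L) ^ 2)).le
    linarith
  have hi1 : Integrable fun τ : ℝ => ‖P τ‖ ^ 2 * Real.exp (-(τ / L) ^ 2) := by
    rw [hP]
    exact integrable_Dp _ _ hL
  have hi2 : Integrable fun τ : ℝ => 2 * (‖P τ‖ ^ 2 * Real.exp (-(τ / L) ^ 2)) + 2 * Real.exp (-(τ / L) ^ 2) :=
    (hi1.const_mul 2).add ((gauss_int hL).const_mul 2)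
  have hi : Integrable fun τ : ℝ => ‖LS a σ τ‖ ^ 2 * Real.exp (-(τ / L) ^ 2) := by
    refine hi2.mono' ?_ (Filter.Eventually.of_forall fun τ => ?_)
    · refine Continuous.aestronglyMeasurable ?_
      have := ls_cont ha hσ
      fun_prop
    · rw [Real.norm_of_nonneg (by positivity)]
      exact h1 τ
  refine ⟨hi, (integral_mono hi hi2 h1).trans ?_⟩
  rw [integral_add (hi1.const_mul 2) ((gauss_int hL).const_mul 2), integral_const_mul, integral_const_mul,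
    gauss_val hL]
  have h5 := hB N
  rw [← hP] at h5
  linarith

/-- a sum over `Icc 1 N` is at most the sum over the logarithmic cells -/
private theorem cells (f : ℕ → ℝ) (hf : ∀ n, 0 ≤ f n) (h1 : f 1 = 0) (N : ℕ) :
    ∑ n ∈ Icc 1 N, f n ≤ ∑ k ∈ range N, ∑ n ∈ Ic k (k + 1), f n := by
  have h2 : ∀ n ∈ Icc 1 N, f n ≤ ∑ k ∈ range N, (if n ∈ Ic (k : ℝ) ((k : ℝ) + 1) then f n else 0) := by
    intro n hn
    rw [mem_Icc] at hn
    rcases Nat.lt_or_ge 1 n with h | h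
    · have hlog : 0 < Real.log n := Real.log_pos (by exact_mod_cast h)
      obtain ⟨k, hk⟩ : ∃ k : ℕ, k + 1 = ⌈Real.log n⌉₊ :=
        ⟨⌈Real.log n⌉₊ - 1, Nat.sub_add_cancel (Nat.one_le_ceil_iff.2 hlog)⟩
      have hk1 : Real.log n ≤ (k : ℝ) + 1 := by
        have := Nat.le_ceil (Real.log n)
        rw [← hk] at this
        exact_mod_cast this
      have hk2 : (k : ℝ) < Real.log n := by
        have : k < ⌈Real.log n⌉₊ := by omega
        exact Nat.lt_ceil.1 this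
      have hkN : k < N := by
        have h3 : (k : ℝ) < n := by
          have := Real.log_le_sub_one_of_pos (x := (n : ℝ)) (by exact_mod_cast (by omega : 0 < n))
          linarith
        have h4 : k < n := by exact_mod_cast h3
        omega
      have hmem : n ∈ Ic (k : ℝ) ((k : ℝ) + 1) := (mem_Ic_log (by omega)).2 ⟨hk2, hk1⟩
      have h5 := Finset.single_le_sum (f := fun k : ℕ => if n ∈ Ic (k : ℝ) ((k : ℝ) + 1) then f n else 0)
        (fun i _ => by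
          show (0 : ℝ) ≤ if n ∈ Ic (i : ℝ) ((i : ℝ) + 1) then f n else 0
          split_ifs
          · exact hf n
          · exact le_rfl) (mem_range.2 hkN)
      simp only [if_pos hmem] at h5
      exact h5
    · have : n = 1 := by omega
      rw [this, h1]
      exact Finset.sum_nonneg fun i _ => by split_ifs <;> exact le_rfl
  refine (Finset.sum_le_sum h2).trans ?_
  rw [Finset.sum_comm]
  refine Finset.sum_le_sum fun k _ => ?_
  rw [← Finset.sum_filter]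
  exact Finset.sum_le_sum_of_subset_of_nonneg (fun n hn => (mem_filter.1 hn).2) fun n _ _ => hf n

private theorem exp_half (i : ℕ) : Real.exp (-(i : ℝ)) ≤ (1 / 2) ^ i := by
  have h1 : Real.exp (-1) ≤ 1 / 2 := by
    rw [Real.exp_neg, ← one_div]
    refine one_div_le_one_div_of_le (by norm_num) ?_
    have := Real.add_one_le_exp (1 : ℝ)
    linarith
  have h2 : Real.exp (-(i : ℝ)) = Real.exp (-1) ^ i := by
    rw [← Real.exp_nat_mul]
    congr 1
    ring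
  rw [h2]
  exact pow_le_pow_left₀ (Real.exp_pos _).le h1 i

private theorem sum_abs (J N : ℕ) : ∑ k ∈ range N, Real.exp (-|(J : ℝ) - k|) ≤ 4 := by
  have h1 : ∀ M : ℕ, ∑ i ∈ range M, Real.exp (-(i : ℝ)) ≤ 2 := fun M =>
    (Finset.sum_le_sum fun i _ => exp_half i).trans (sum_geometric_two_le M)
  have h2 : range N ⊆ range (J + 1) ∪ Ico (J + 1) (J + 1 + N) := by
    intro k hk
    rw [mem_range] at hk
    rw [mem_union, mem_range, mem_Ico]
    omega
  refine (Finset.sum_le_sum_of_subset_of_nonneg h2 fun _ _ _ => (Real.exp_pos _).le).trans ?_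
  have hdisj : Disjoint (range (J + 1)) (Ico (J + 1) (J + 1 + N)) := by
    rw [Finset.disjoint_left]
    intro k hk hk'
    rw [mem_range] at hk
    rw [mem_Ico] at hk'
    omega
  rw [Finset.sum_union hdisj]
  have h3 : ∑ k ∈ range (J + 1), Real.exp (-|(J : ℝ) - k|) ≤ 2 := by
    rw [← Finset.sum_range_reflect]
    refine le_trans (Finset.sum_le_sum fun i hi => ?_) (h1 (J + 1))
    rw [mem_range] at hi
    have h4 : ((J + 1 - 1 - i : ℕ) : ℝ) = J - i := by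
      rw [Nat.add_sub_cancel, Nat.cast_sub (by omega)]
    rw [h4, sub_sub_cancel, Nat.abs_cast]
  have h5 : ∑ k ∈ Ico (J + 1) (J + 1 + N), Real.exp (-|(J : ℝ) - k|) ≤ 2 := by
    rw [Finset.sum_Ico_eq_sum_range]
    refine le_trans (Finset.sum_le_sum fun i _ => ?_) (h1 (J + 1 + N - (J + 1)))
    refine Real.exp_le_exp.2 (neg_le_neg ?_)
    push_cast
    rw [abs_sub_comm, abs_of_nonneg (by linarith [Nat.cast_nonneg (α := ℝ) i])]
    linarith
  linarith

/-- the inner sum -/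
private theorem inner_le {C : ℝ} (hC : 0 < C)
    (hlam : ∀ u : ℝ, ∑ n ∈ Ic u (u + 1), ArithmeticFunction.vonMangoldt n / (n : ℝ) ≤ C) (N : ℕ) {y : ℝ} (hy : 0 ≤ y) :
    ∑ m ∈ Icc 1 N, ArithmeticFunction.vonMangoldt m / (m : ℝ) * Real.exp (-(y - Real.log m) ^ 2 / 4) ≤
      C * (4 * Real.exp 3) := by
  obtain ⟨J, hJ⟩ : ∃ J : ℕ, J = ⌊y⌋₊ := ⟨_, rfl⟩
  have hJ1 : (J : ℝ) ≤ y := by rw [hJ]; exact Nat.floor_le hy
  have hJ2 : y < J + 1 := by rw [hJ]; exact Nat.lt_floor_add_one y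
  refine (cells (fun m => ArithmeticFunction.vonMangoldt m / (m : ℝ) * Real.exp (-(y - Real.log m) ^ 2 / 4))
    (fun n => mul_nonneg (div_nonneg ArithmeticFunction.vonMangoldt_nonneg (Nat.cast_nonneg _))
      (Real.exp_pos _).le) (by simp) N).trans ?_
  have h1 : ∀ k ∈ range N, ∑ m ∈ Ic (k : ℝ) ((k : ℝ) + 1), ArithmeticFunction.vonMangoldt m / (m : ℝ) *
      Real.exp (-(y - Real.log m) ^ 2 / 4) ≤ C * Real.exp 3 * Real.exp (-|(J : ℝ) - k|) := by
    intro k _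
    have h2 : ∀ m ∈ Ic (k : ℝ) ((k : ℝ) + 1), ArithmeticFunction.vonMangoldt m / (m : ℝ) *
        Real.exp (-(y - Real.log m) ^ 2 / 4) ≤
        ArithmeticFunction.vonMangoldt m / (m : ℝ) * (Real.exp 3 * Real.exp (-|(J : ℝ) - k|)) := by
      intro m hm
      refine mul_le_mul_of_nonneg_left ?_
        (div_nonneg ArithmeticFunction.vonMangoldt_nonneg (Nat.cast_nonneg _))
      obtain ⟨h3, h4⟩ := (mem_Ic_log (one_le_of_mem hm)).1 hm
      rw [← Real.exp_add]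
      refine Real.exp_le_exp.2 ?_
      have h5 : -(y - Real.log m) ^ 2 / 4 ≤ 1 - |y - Real.log m| := by
        have h6 := sq_nonneg (|y - Real.log m| / 2 - 1)
        have h7 := sq_abs (y - Real.log m)
        nlinarith
      have h6 : |(J : ℝ) - k| ≤ |y - Real.log m| + 2 := by
        have h7 : (J : ℝ) - k = (y - Real.log m) + ((J - y) + (Real.log m - k)) := by ring
        rw [h7]
        refine (abs_add_le _ _).trans (add_le_add le_rfl ?_)
        rw [abs_le]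
        constructor <;> linarith
      linarith
    refine (Finset.sum_le_sum h2).trans ?_
    rw [← Finset.sum_mul]
    have h3 := mul_le_mul_of_nonneg_right (hlam k)
      (mul_pos (Real.exp_pos 3) (Real.exp_pos (-|(J : ℝ) - k|))).le
    linarith
  refine (Finset.sum_le_sum h1).trans ?_
  rw [← Finset.mul_sum]
  have h2 := mul_le_mul_of_nonneg_left (sum_abs J N) (mul_pos hC (Real.exp_pos 3)).le
  linarith

private theorem geom_le {V : ℝ} (hV : 1 ≤ V) (N : ℕ) : ∑ k ∈ range N, Real.exp (-(k : ℝ) / V) ≤ 2 * V := by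
  have hV0 : 0 < V := by linarith
  obtain ⟨r, hr⟩ : ∃ r, r = Real.exp (-1 / V) := ⟨_, rfl⟩
  have h1 : ∀ k ∈ range N, Real.exp (-(k : ℝ) / V) = r ^ k := by
    intro k _
    rw [hr, ← Real.exp_nat_mul]
    congr 1
    ring
  rw [Finset.sum_congr rfl h1]
  have h2 : r * (1 + 1 / V) ≤ 1 := by
    have h3 : 1 + 1 / V ≤ Real.exp (1 / V) := by
      have := Real.add_one_le_exp (1 / V)
      linarith
    have h4 : r * Real.exp (1 / V) = 1 := by
      rw [hr, ← Real.exp_add, ← Real.exp_zero]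
      congr 1
      ring
    have h5 := mul_le_mul_of_nonneg_left h3 (show (0 : ℝ) ≤ r by rw [hr]; exact (Real.exp_pos _).le)
    linarith
  have hr0 : 0 < r := by rw [hr]; exact Real.exp_pos _
  have h3 : 1 ≤ (1 - r) * (2 * V) := by
    have h4 : r * (V + 1) ≤ V := by
      have := mul_le_mul_of_nonneg_right h2 hV0.le
      have h5 : r * (1 + 1 / V) * V = r * (V + 1) := by field_simp
      linarith
    have h6 : r ≤ V / (V + 1) := by
      rw [le_div_iff₀ (by linarith)]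
      exact h4
    have h7 : 1 / (V + 1) ≤ 1 - r := by
      have : V / (V + 1) + 1 / (V + 1) = 1 := by field_simp
      linarith
    have h8 : 1 ≤ 1 / (V + 1) * (2 * V) := by
      rw [div_mul_eq_mul_div, le_div_iff₀ (by linarith)]
      linarith
    have h9 := mul_le_mul_of_nonneg_right h7 (show (0 : ℝ) ≤ 2 * V by linarith)
    linarith
  have h4 := geom_sum_mul_neg r N
  have h5 : (∑ i ∈ range N, r ^ i) * (1 - r) ≤ 1 := by
    rw [h4]
    have := pow_pos hr0 N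
    linarith
  have h6 : 0 ≤ ∑ i ∈ range N, r ^ i := Finset.sum_nonneg fun i _ => (pow_pos hr0 i).le
  calc ∑ i ∈ range N, r ^ i = (∑ i ∈ range N, r ^ i) * 1 := (mul_one _).symm
    _ ≤ (∑ i ∈ range N, r ^ i) * ((1 - r) * (2 * V)) := mul_le_mul_of_nonneg_left h3 h6
    _ = ((∑ i ∈ range N, r ^ i) * (1 - r)) * (2 * V) := by ring
    _ ≤ 1 * (2 * V) := mul_le_mul_of_nonneg_right h5 (by linarith)
    _ = 2 * V := one_mul _

private theorem rpow_exp {n : ℕ} (hn : 1 ≤ n) (x : ℝ) : (n : ℝ) ^ x = Real.exp (Real.log n * x) :=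
  Real.rpow_def_of_pos (by exact_mod_cast hn) x

/-- the outer sum -/
private theorem outer_le {C : ℝ} (hC : 0 < C)
    (hlam : ∀ u : ℝ, ∑ n ∈ Ic u (u + 1), ArithmeticFunction.vonMangoldt n / (n : ℝ) ≤ C) (N : ℕ) {V : ℝ}
    (hV : 1 ≤ V) :
    ∑ n ∈ Icc 1 N, ArithmeticFunction.vonMangoldt n / (n : ℝ) * (n : ℝ) ^ (1 - (1 + 1 / V)) ≤ C * (2 * V) := by
  have hV0 : 0 < V := by linarith
  refine (cells (fun n => ArithmeticFunction.vonMangoldt n / (n : ℝ) * (n : ℝ) ^ (1 - (1 + 1 / V)))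
    (fun n => mul_nonneg (div_nonneg ArithmeticFunction.vonMangoldt_nonneg (Nat.cast_nonneg _))
      (Real.rpow_nonneg (Nat.cast_nonneg _) _)) (by simp) N).trans ?_
  have h1 : ∀ k ∈ range N, ∑ n ∈ Ic (k : ℝ) ((k : ℝ) + 1), ArithmeticFunction.vonMangoldt n / (n : ℝ) *
      (n : ℝ) ^ (1 - (1 + 1 / V)) ≤ C * Real.exp (-(k : ℝ) / V) := by
    intro k _
    have h2 : ∀ n ∈ Ic (k : ℝ) ((k : ℝ) + 1), ArithmeticFunction.vonMangoldt n / (n : ℝ) *
        (n : ℝ) ^ (1 - (1 + 1 / V)) ≤ ArithmeticFunction.vonMangoldt n / (n : ℝ) * Real.exp (-(k : ℝ) / V) := by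
      intro n hn
      refine mul_le_mul_of_nonneg_left ?_
        (div_nonneg ArithmeticFunction.vonMangoldt_nonneg (Nat.cast_nonneg _))
      have hn1 := one_le_of_mem hn
      obtain ⟨h3, h4⟩ := (mem_Ic_log hn1).1 hn
      rw [rpow_exp hn1]
      refine Real.exp_le_exp.2 ?_
      have h5 : Real.log n * (1 - (1 + 1 / V)) = -(Real.log n) / V := by ring
      rw [h5]
      exact div_le_div_of_nonneg_right (by linarith) hV0.le
    refine (Finset.sum_le_sum h2).trans ?_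
    rw [← Finset.sum_mul]
    exact mul_le_mul_of_nonneg_right (hlam k) (Real.exp_pos _).le
  refine (Finset.sum_le_sum h1).trans ?_
  rw [← Finset.mul_sum]
  exact mul_le_mul_of_nonneg_left (geom_le hV N) hC.le

private theorem lam_fin : ∃ C : ℝ, 0 < C ∧ ∀ g : ℕ → ℂ, CMc g → ∀ V L : ℝ, 1 ≤ V → 1 ≤ L → ∀ N : ℕ,
    ∫ τ : ℝ, ‖Dp (Icc 1 N) (fun n => (ArithmeticFunction.vonMangoldt n : ℂ) * g n *
      (((n : ℝ) ^ (1 - (1 + 1 / V)) : ℝ) : ℂ)) τ‖ ^ 2 * Real.exp (-(τ / L) ^ 2) ≤ C * L * V := by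
  obtain ⟨C, hC, hlam⟩ := lam_le
  refine ⟨Real.sqrt Real.pi * (C * (4 * Real.exp 3) * (C * 2)), by
    have : 0 < Real.sqrt Real.pi := Real.sqrt_pos.2 Real.pi_pos
    positivity, ?_⟩
  intro g hg V L hV hL N
  have hL0 : 0 < L := by linarith
  have hV0 : 0 < V := by linarith
  obtain ⟨b, hb⟩ : ∃ b : ℕ → ℂ, b = fun n => (ArithmeticFunction.vonMangoldt n : ℂ) * g n *
    (((n : ℝ) ^ (1 - (1 + 1 / V)) : ℝ) : ℂ) := ⟨_, rfl⟩
  rw [← hb]
  have hbn : ∀ n ∈ Icc 1 N, ‖b n / n‖ ≤ ArithmeticFunction.vonMangoldt n / (n : ℝ) *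
      (n : ℝ) ^ (1 - (1 + 1 / V)) := by
    intro n hn
    rw [mem_Icc] at hn
    rw [hb]
    simp only []
    rw [norm_div, norm_mul, norm_mul, Complex.norm_real, Complex.norm_real, Complex.norm_natCast,
      Real.norm_of_nonneg ArithmeticFunction.vonMangoldt_nonneg,
      Real.norm_of_nonneg (Real.rpow_nonneg (Nat.cast_nonneg n) _)]
    have h1 := hg.bd n (by omega)
    have h2 : (0 : ℝ) ≤ ArithmeticFunction.vonMangoldt n / (n : ℝ) * (n : ℝ) ^ (1 - (1 + 1 / V)) :=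
      mul_nonneg (div_nonneg ArithmeticFunction.vonMangoldt_nonneg (Nat.cast_nonneg _))
        (Real.rpow_nonneg (Nat.cast_nonneg _) _)
    have h3 := mul_le_mul_of_nonneg_left h1 h2
    rw [mul_one] at h3
    refine le_trans (le_of_eq ?_) h3
    ring
  have hbm : ∀ n ∈ Icc 1 N, ‖b n / n‖ ≤ ArithmeticFunction.vonMangoldt n / (n : ℝ) := by
    intro n hn
    refine (hbn n hn).trans ?_
    rw [mem_Icc] at hn
    refine mul_le_of_le_one_right
      (div_nonneg ArithmeticFunction.vonMangoldt_nonneg (Nat.cast_nonneg _)) ?_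
    refine Real.rpow_le_one_of_one_le_of_nonpos (by exact_mod_cast hn.1) ?_
    have : 0 < 1 / V := by positivity
    linarith
  obtain ⟨I, hI⟩ : ∃ I : ℝ, I = ∫ τ : ℝ, ‖Dp (Icc 1 N) b τ‖ ^ 2 * Real.exp (-(τ / L) ^ 2) := ⟨_, rfl⟩
  rw [← hI]
  have hgd := gauss_double (s := Icc 1 N) (fun n hn => (mem_Icc.1 hn).1) b hL0
  rw [← hI] at hgd
  have h1 : I ≤ ‖(I : ℂ)‖ := by
    rw [Complex.norm_real]
    exact le_abs_self I
  refine h1.trans ?_
  rw [hgd, norm_mul, Complex.norm_real, Real.norm_of_nonneg (by positivity)]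
  have h2 : ‖∑ n ∈ Icc 1 N, ∑ m ∈ Icc 1 N, b n / n * (starRingEnd ℂ) (b m / m) *
      ((Real.exp (-(L * (Real.log n - Real.log m)) ^ 2 / 4) : ℝ) : ℂ)‖ ≤
      C * (4 * Real.exp 3) * (C * (2 * V)) := by
    refine (norm_sum_le _ _).trans ?_
    have h3 : ∀ n ∈ Icc 1 N, ‖∑ m ∈ Icc 1 N, b n / n * (starRingEnd ℂ) (b m / m) *
        ((Real.exp (-(L * (Real.log n - Real.log m)) ^ 2 / 4) : ℝ) : ℂ)‖ ≤
        ArithmeticFunction.vonMangoldt n / (n : ℝ) * (n : ℝ) ^ (1 - (1 + 1 / V)) * (C * (4 * Real.exp 3)) := by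
      intro n hn
      refine (norm_sum_le _ _).trans ?_
      have h4 : ∀ m ∈ Icc 1 N, ‖b n / n * (starRingEnd ℂ) (b m / m) *
          ((Real.exp (-(L * (Real.log n - Real.log m)) ^ 2 / 4) : ℝ) : ℂ)‖ ≤
          ArithmeticFunction.vonMangoldt n / (n : ℝ) * (n : ℝ) ^ (1 - (1 + 1 / V)) *
          (ArithmeticFunction.vonMangoldt m / (m : ℝ) * Real.exp (-(Real.log n - Real.log m) ^ 2 / 4)) := by
        intro m hm
        rw [norm_mul, norm_mul, Complex.norm_conj, Complex.norm_real, Real.norm_of_nonneg (Real.exp_pos _).le,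
          mul_assoc]
        refine mul_le_mul (hbn n hn) ?_ (mul_nonneg (norm_nonneg _) (Real.exp_pos _).le) ?_
        · refine mul_le_mul (hbm m hm) ?_ (Real.exp_pos _).le
            (div_nonneg ArithmeticFunction.vonMangoldt_nonneg (Nat.cast_nonneg _))
          refine Real.exp_le_exp.2 ?_
          have h5 : (Real.log n - Real.log m) ^ 2 ≤ (L * (Real.log n - Real.log m)) ^ 2 := by
            rw [mul_pow]
            have h6 : 1 ≤ L ^ 2 := one_le_pow₀ hL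
            nlinarith [sq_nonneg (Real.log n - Real.log m)]
          linarith
        · exact mul_nonneg (div_nonneg ArithmeticFunction.vonMangoldt_nonneg (Nat.cast_nonneg _))
            (Real.rpow_nonneg (Nat.cast_nonneg _) _)
      refine (Finset.sum_le_sum h4).trans ?_
      rw [← Finset.mul_sum]
      refine mul_le_mul_of_nonneg_left (inner_le hC hlam N (Real.log_natCast_nonneg n)) ?_
      exact mul_nonneg (div_nonneg ArithmeticFunction.vonMangoldt_nonneg (Nat.cast_nonneg _))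
        (Real.rpow_nonneg (Nat.cast_nonneg _) _)
    refine (Finset.sum_le_sum h3).trans ?_
    rw [← Finset.sum_mul, mul_comm]
    exact mul_le_mul_of_nonneg_left (outer_le hC hlam N hV) (by positivity)
  have h3 := mul_le_mul_of_nonneg_left h2 (show (0 : ℝ) ≤ Real.sqrt Real.pi * L by positivity)
  refine h3.trans (le_of_eq ?_)
  ring

theorem lam_gauss : ∃ C : ℝ, 0 < C ∧ ∀ g : ℕ → ℂ, CMc g → ∀ V L : ℝ, 1 ≤ V → 1 ≤ L →
    (Integrable fun τ : ℝ => ‖LS (fun n => (ArithmeticFunction.vonMangoldt n : ℂ) * g n) (1 + 1 / V) τ‖ ^ 2 * Real.exp (-(τ / L) ^ 2)) ∧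
    ∫ τ : ℝ, ‖LS (fun n => (ArithmeticFunction.vonMangoldt n : ℂ) * g n) (1 + 1 / V) τ‖ ^ 2 * Real.exp (-(τ / L) ^ 2) ≤ C * L * V := by
  obtain ⟨C, hC, hfin⟩ := lam_fin
  have hpi : 0 < Real.sqrt Real.pi := Real.sqrt_pos.2 Real.pi_pos
  refine ⟨2 * C + 2 * Real.sqrt Real.pi, by positivity, ?_⟩
  intro g hg V L hV hL
  have hL0 : 0 < L := by linarith
  have hV0 : 0 < V := by linarith
  have hσ : 1 < 1 + 1 / V := by
    have : 0 < 1 / V := by positivity
    linarith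
  obtain ⟨h1, h2⟩ := fin_to (lbd hg) hσ hL0 (hfin g hg V L hV hL)
  refine ⟨h1, h2.trans ?_⟩
  have h3 : Real.sqrt Real.pi * L ≤ Real.sqrt Real.pi * L * V :=
    le_mul_of_one_le_right (by positivity) hV
  nlinarith

theorem log_gauss : ∃ C : ℝ, 0 < C ∧ ∀ g : ℕ → ℂ, CMc g → ∀ V L : ℝ, 1 ≤ V → 1 ≤ L →
    (Integrable fun τ : ℝ => ‖LS (fun n => g n * Real.log n) (1 + 1 / V) τ‖ ^ 2 * Real.exp (-(τ / L) ^ 2)) ∧
    ∫ τ : ℝ, ‖LS (fun n => g n * Real.log n) (1 + 1 / V) τ‖ ^ 2 * Real.exp (-(τ / L) ^ 2) ≤ C * L * V ^ 3 := by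
  obtain ⟨C₁, hC₁, hm⟩ := mvt_gauss
  obtain ⟨C₂, hC₂, hl⟩ := ls_log2
  have hpi : 0 < Real.sqrt Real.pi := Real.sqrt_pos.2 Real.pi_pos
  refine ⟨2 * (C₁ * (2 * C₂)) + 2 * Real.sqrt Real.pi, by positivity, ?_⟩
  intro g hg V L hV hL
  have hL0 : 0 < L := by linarith
  have hV0 : 0 < V := by linarith
  have hσ : 1 < 1 + 1 / V := by
    have : 0 < 1 / V := by positivity
    linarith
  have hfin : ∀ N : ℕ, ∫ τ : ℝ, ‖Dp (Icc 1 N) (fun n => g n * (Real.log n : ℂ) *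
      (((n : ℝ) ^ (1 - (1 + 1 / V)) : ℝ) : ℂ)) τ‖ ^ 2 * Real.exp (-(τ / L) ^ 2) ≤
      C₁ * (2 * C₂) * L * V ^ 3 := by
    intro N
    refine (hm (Icc 1 N) _ L hL fun n hn => (mem_Icc.1 hn).1).trans ?_
    have h1 : ∑ n ∈ Icc 1 N, ‖g n * (Real.log n : ℂ) * (((n : ℝ) ^ (1 - (1 + 1 / V)) : ℝ) : ℂ)‖ ^ 2 / n *
        (1 + L / n) ≤ ∑ n ∈ Icc 1 N, (2 * L) * (Real.log n ^ 2 * (n : ℝ) ^ (-(1 + 1 / V))) := by
      refine Finset.sum_le_sum fun n hn => ?_
      rw [mem_Icc] at hn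
      have hn1 : (1 : ℝ) ≤ n := by exact_mod_cast hn.1
      have hn0 : (0 : ℝ) < n := by linarith
      have hlog : (0 : ℝ) ≤ Real.log n := Real.log_natCast_nonneg n
      have h2 : ‖g n * (Real.log n : ℂ) * (((n : ℝ) ^ (1 - (1 + 1 / V)) : ℝ) : ℂ)‖ ≤
          Real.log n * (n : ℝ) ^ (1 - (1 + 1 / V)) := by
        rw [norm_mul, norm_mul, Complex.norm_real, Complex.norm_real, Real.norm_of_nonneg hlog,
          Real.norm_of_nonneg (Real.rpow_nonneg hn0.le _)]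
        refine mul_le_mul_of_nonneg_right ?_ (Real.rpow_nonneg hn0.le _)
        have := mul_le_mul_of_nonneg_right (hg.bd n (by omega)) hlog
        rw [one_mul] at this
        exact this
      have h3 := pow_le_pow_left₀ (norm_nonneg _) h2 2
      have h4 : (Real.log n * (n : ℝ) ^ (1 - (1 + 1 / V))) ^ 2 / n ≤ Real.log n ^ 2 * (n : ℝ) ^ (-(1 + 1 / V)) := by
        have h5 : (Real.log n * (n : ℝ) ^ (1 - (1 + 1 / V))) ^ 2 / n =
            Real.log n ^ 2 * (n : ℝ) ^ (-(1 + 2 / V)) := by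
          rw [mul_pow, ← Real.rpow_natCast ((n : ℝ) ^ (1 - (1 + 1 / V))) 2, ← Real.rpow_mul hn0.le, mul_div_assoc]
          congr 1
          rw [div_eq_iff hn0.ne']
          conv_rhs => rw [← Real.rpow_one (n : ℝ), ← Real.rpow_mul hn0.le, ← Real.rpow_add hn0]
          congr 1
          push_cast
          ring
        rw [h5]
        refine mul_le_mul_of_nonneg_left ?_ (sq_nonneg _)
        refine Real.rpow_le_rpow_of_exponent_le hn1 ?_
        have : 1 / V ≤ 2 / V := div_le_div_of_nonneg_right (by norm_num) hV0.le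
        linarith
      have h6 : 1 + L / n ≤ 2 * L := by
        have : L / n ≤ L := div_le_self hL0.le hn1
        linarith
      have h7 : ‖g n * (Real.log n : ℂ) * (((n : ℝ) ^ (1 - (1 + 1 / V)) : ℝ) : ℂ)‖ ^ 2 / n ≤
          Real.log n ^ 2 * (n : ℝ) ^ (-(1 + 1 / V)) :=
        (div_le_div_of_nonneg_right h3 hn0.le).trans h4
      rw [mul_comm (2 * L)]
      exact mul_le_mul h7 h6 (by positivity) (by positivity)
    have h8 := mul_le_mul_of_nonneg_left h1 hC₁.le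
    refine h8.trans ?_
    rw [← Finset.mul_sum]
    have h9 := mul_le_mul_of_nonneg_left (hl V hV N) (show (0 : ℝ) ≤ C₁ * (2 * L) by positivity)
    linarith
  obtain ⟨h1, h2⟩ := fin_to (logbd hg) hσ hL0 hfin
  refine ⟨h1, h2.trans ?_⟩
  have h3 : Real.sqrt Real.pi * L ≤ Real.sqrt Real.pi * L * V ^ 3 :=
    le_mul_of_one_le_right (by positivity) (one_le_pow₀ hV)
  nlinarith

end MRT
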