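import Pool.Agent.MRT.HaA

/-!
# MRT-HaC: Halász, the mean square of the derivative

PLAN.  `conv`; for `|τ| ≤ L²`: `‖F'‖² ≤ B² ‖Λ-series‖²` (`lam_gauss`); for `|τ| > L²`: `e^{-(τ/L)²} ≤ e^{-L²/2} e^{-(τ/(√2 L))²}` (`(τ/L)²/2 ≥ L²/2`), `log_gauss` for `√2 L`.
-/

set_option autoImplicit false

namespace MRT

open MeasureTheory

theorem hal_int : ∃ C : ℝ, 0 < C ∧ ∀ g : ℕ → ℂ, CMc g → ∀ V L B : ℝ, 1 ≤ V → 1 ≤ L → 0 ≤ B →
    (∀ τ : ℝ, |τ| ≤ L ^ 2 → ‖LS g (1 + 1 / V) τ‖ ≤ B) →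
    ∫ τ : ℝ, ‖LS (fun n => g n * Real.log n) (1 + 1 / V) τ‖ ^ 2 * Real.exp (-(τ / L) ^ 2) ≤
      C * (B ^ 2 * L * V + L * Real.exp (-L ^ 2 / 2) * V ^ 3) := by
  obtain ⟨C1, hC1, H1⟩ := lam_gauss
  obtain ⟨C2, hC2, H2⟩ := log_gauss
  refine ⟨C1 + 2 * C2, by positivity, ?_⟩
  intro g hg V L B hV hL hB hLS
  have hV0 : 0 < V := by linarith
  have hL0 : 0 < L := by linarith
  have hσ : 1 < 1 + 1 / V := by
    have : 0 < 1 / V := by positivity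
    linarith
  have hs2 : 1 ≤ Real.sqrt 2 := by
    rw [Real.one_le_sqrt]
    norm_num
  have hs2' : Real.sqrt 2 ≤ 2 := by
    rw [Real.sqrt_le_left (by norm_num)]
    norm_num
  have hsq : Real.sqrt 2 ^ 2 = 2 := Real.sq_sqrt (by norm_num)
  have hM : 1 ≤ Real.sqrt 2 * L := by nlinarith
  obtain ⟨i1, h1⟩ := H1 g hg V L hV hL
  obtain ⟨i0, _⟩ := H2 g hg V L hV hL
  obtain ⟨i2, h2⟩ := H2 g hg V (Real.sqrt 2 * L) hV hM
  have key : ∀ τ : ℝ, ‖LS (fun n => g n * Real.log n) (1 + 1 / V) τ‖ ^ 2 *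
      Real.exp (-(τ / L) ^ 2) ≤
      B ^ 2 * (‖LS (fun n => (ArithmeticFunction.vonMangoldt n : ℂ) * g n) (1 + 1 / V) τ‖ ^ 2 *
        Real.exp (-(τ / L) ^ 2)) + Real.exp (-L ^ 2 / 2) *
        (‖LS (fun n => g n * Real.log n) (1 + 1 / V) τ‖ ^ 2 *
          Real.exp (-(τ / (Real.sqrt 2 * L)) ^ 2)) := by
    intro τ
    by_cases hτ : |τ| ≤ L ^ 2
    · have e1 : ‖LS (fun n => g n * Real.log n) (1 + 1 / V) τ‖ ^ 2 ≤
          B ^ 2 * ‖LS (fun n => (ArithmeticFunction.vonMangoldt n : ℂ) * g n) (1 + 1 / V) τ‖ ^ 2 := by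
        rw [conv hg hσ τ, norm_mul, mul_pow, mul_comm]
        refine mul_le_mul_of_nonneg_right ?_ (sq_nonneg _)
        exact pow_le_pow_left₀ (norm_nonneg _) (hLS τ hτ) 2
      have e2 := mul_le_mul_of_nonneg_right e1 (Real.exp_pos (-(τ / L) ^ 2)).le
      have e3 : 0 ≤ Real.exp (-L ^ 2 / 2) *
        (‖LS (fun n => g n * Real.log n) (1 + 1 / V) τ‖ ^ 2 *
          Real.exp (-(τ / (Real.sqrt 2 * L)) ^ 2)) := by positivity
      rw [mul_assoc] at e2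
      linarith
    · have hτ' : L ^ 2 < |τ| := not_le.mp hτ
      have e1 : L ^ 4 ≤ τ ^ 2 := by
        have h3 := pow_le_pow_left₀ (by positivity) hτ'.le 2
        rw [sq_abs] at h3
        calc L ^ 4 = (L ^ 2) ^ 2 := by ring
          _ ≤ τ ^ 2 := h3
      have e2 : Real.exp (-(τ / L) ^ 2) ≤
          Real.exp (-L ^ 2 / 2) * Real.exp (-(τ / (Real.sqrt 2 * L)) ^ 2) := by
        rw [← Real.exp_add]
        refine Real.exp_le_exp.mpr ?_
        have e4 : (τ / (Real.sqrt 2 * L)) ^ 2 = (τ / L) ^ 2 / 2 := by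
          rw [div_pow, mul_pow, hsq, div_pow]
          field_simp
        have e5 : L ^ 2 ≤ (τ / L) ^ 2 := by
          rw [div_pow, le_div_iff₀ (by positivity)]
          calc L ^ 2 * L ^ 2 = L ^ 4 := by ring
            _ ≤ τ ^ 2 := e1
        rw [e4]
        linarith
      have e3 := mul_le_mul_of_nonneg_left e2
        (sq_nonneg ‖LS (fun n => g n * Real.log n) (1 + 1 / V) τ‖)
      have e6 : 0 ≤ B ^ 2 *
        (‖LS (fun n => (ArithmeticFunction.vonMangoldt n : ℂ) * g n) (1 + 1 / V) τ‖ ^ 2 *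
        Real.exp (-(τ / L) ^ 2)) := by positivity
      have e7 : ‖LS (fun n => g n * Real.log n) (1 + 1 / V) τ‖ ^ 2 *
          (Real.exp (-L ^ 2 / 2) * Real.exp (-(τ / (Real.sqrt 2 * L)) ^ 2)) =
          Real.exp (-L ^ 2 / 2) * (‖LS (fun n => g n * Real.log n) (1 + 1 / V) τ‖ ^ 2 *
          Real.exp (-(τ / (Real.sqrt 2 * L)) ^ 2)) := by ring
      rw [e7] at e3
      linarith
  refine (integral_mono i0 ((i1.const_mul _).add (i2.const_mul _)) key).trans ?_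
  have e0 := integral_add (i1.const_mul (B ^ 2)) (i2.const_mul (Real.exp (-L ^ 2 / 2)))
  refine (le_of_eq e0).trans ?_
  rw [integral_const_mul, integral_const_mul]
  have k1 := mul_le_mul_of_nonneg_left h1 (sq_nonneg B)
  have k2 := mul_le_mul_of_nonneg_left h2 (Real.exp_pos (-L ^ 2 / 2)).le
  have k3 : Real.exp (-L ^ 2 / 2) * (C2 * (Real.sqrt 2 * L) * V ^ 3) ≤
      2 * C2 * (L * Real.exp (-L ^ 2 / 2) * V ^ 3) := by
    have : 0 ≤ C2 * (L * Real.exp (-L ^ 2 / 2) * V ^ 3) := by positivity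
    calc Real.exp (-L ^ 2 / 2) * (C2 * (Real.sqrt 2 * L) * V ^ 3) =
        Real.sqrt 2 * (C2 * (L * Real.exp (-L ^ 2 / 2) * V ^ 3)) := by ring
      _ ≤ 2 * (C2 * (L * Real.exp (-L ^ 2 / 2) * V ^ 3)) := mul_le_mul_of_nonneg_right hs2' this
      _ = 2 * C2 * (L * Real.exp (-L ^ 2 / 2) * V ^ 3) := by ring
  have k4 : 0 ≤ C1 * (L * Real.exp (-L ^ 2 / 2) * V ^ 3) := by positivity
  have k5 : 0 ≤ 2 * C2 * (B ^ 2 * L * V) := by positivity
  have k6 : B ^ 2 * (C1 * L * V) = C1 * (B ^ 2 * L * V) := by ring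
  rw [k6] at k1
  have k7 : (C1 + 2 * C2) * (B ^ 2 * L * V + L * Real.exp (-L ^ 2 / 2) * V ^ 3) =
      C1 * (B ^ 2 * L * V) + C1 * (L * Real.exp (-L ^ 2 / 2) * V ^ 3) +
      2 * C2 * (B ^ 2 * L * V) + 2 * C2 * (L * Real.exp (-L ^ 2 / 2) * V ^ 3) := by ring
  rw [k7]
  linarith

end MRT
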