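import Pool.Agent.MRT.HaA

/-!
# MRT-HaD: Halász, from the series to logarithmic means

`Ag g u = ∑_{e^u < n ≤ e^{u+1}} g(n)/n`; comparison with Gaussian smoothed sums, Plancherel, limit `N → ∞`.
-/

set_option autoImplicit false

namespace MRT

open Finset MeasureTheory

/-- the Gaussian kernel -/
private noncomputable def gk (L x : ℝ) : ℝ := Real.exp (-(L * x) ^ 2 / 2)

private theorem gk_pos (L x : ℝ) : 0 < gk L x := Real.exp_pos _

private theorem gk_neg (L x : ℝ) : gk L (-x) = gk L x := by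
  unfold gk
  congr 1
  ring

private theorem gk_cont (L : ℝ) : Continuous (gk L) := by
  unfold gk
  fun_prop

private theorem gk_int (L a b : ℝ) : IntervalIntegrable (gk L) volume a b := (gk_cont L).intervalIntegrable a b

private noncomputable def gP (L x : ℝ) : ℝ := ∫ t in (0 : ℝ)..x, gk L t

/-- half of the mass -/
private noncomputable def gM (L : ℝ) : ℝ := Real.sqrt (2 * Real.pi) / (2 * L)

private theorem gM_pos {L : ℝ} (hL : 0 < L) : 0 < gM L := by
  unfold gM
  have := Real.pi_pos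
  positivity

private theorem gP_sub (L x y : ℝ) : gP L y - gP L x = ∫ t in x..y, gk L t := by
  unfold gP
  rw [sub_eq_iff_eq_add, add_comm, intervalIntegral.integral_add_adjacent_intervals (gk_int L 0 x) (gk_int L x y)]

private theorem gP_mono (L : ℝ) : Monotone (gP L) := by
  intro x y h
  have h1 := gP_sub L x y
  have h2 : 0 ≤ ∫ t in x..y, gk L t := intervalIntegral.integral_nonneg h fun t _ => (gk_pos L t).le
  linarith

private theorem gP_neg (L x : ℝ) : gP L (-x) = -gP L x := by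
  unfold gP
  have h1 := intervalIntegral.integral_comp_neg (a := 0) (b := x) (gk L)
  rw [neg_zero, intervalIntegral.integral_congr (fun t _ => gk_neg L t)] at h1
  have h2 := intervalIntegral.integral_symm (f := gk L) (μ := volume) (-x) 0
  linarith

private theorem gP_lim {L : ℝ} (hL : 0 < L) : Filter.Tendsto (gP L) Filter.atTop (nhds (gM L)) := by
  have h1 : ∫ x in Set.Ioi (0 : ℝ), gk L x = gM L := by
    have h2 := integral_gaussian_Ioi (L ^ 2 / 2)
    have h3 : ∀ x : ℝ, gk L x = Real.exp (-(L ^ 2 / 2) * x ^ 2) := by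
      intro x
      unfold gk
      congr 1
      ring
    rw [funext h3, h2]
    unfold gM
    have h4 : Real.pi / (L ^ 2 / 2) = (2 * Real.pi) / L ^ 2 := by
      field_simp
    rw [h4, Real.sqrt_div (by positivity), Real.sqrt_sq hL.le]
    field_simp
  have h5 : IntegrableOn (gk L) (Set.Ioi 0) := by
    have h2 := integrable_exp_neg_mul_sq (show 0 < L ^ 2 / 2 by positivity)
    refine (h2.congr ?_).integrableOn
    refine Filter.Eventually.of_forall fun x => ?_
    unfold gk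
    dsimp only
    congr 1
    ring
  have h6 := intervalIntegral_tendsto_integral_Ioi (0 : ℝ) h5 Filter.tendsto_id
  rw [h1] at h6
  exact h6

private theorem gP_le {L : ℝ} (hL : 0 < L) (x : ℝ) : gP L x ≤ gM L :=
  (gP_mono L).ge_of_tendsto (gP_lim hL) x

private theorem gP_ge {L : ℝ} (hL : 0 < L) {x : ℝ} (hx : 0 ≤ x) : gM L - gM L * gk L x ≤ gP L x := by
  have h1 : ∀ R, x ≤ R → gP L R ≤ gP L x + gM L * gk L x := by
    intro R hR
    have h2 := gP_sub L x R
    have h3 : ∫ t in x..R, gk L t = ∫ t in (0 : ℝ)..(R - x), gk L (t + x) := by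
      rw [intervalIntegral.integral_comp_add_right, zero_add, sub_add_cancel]
    have h4 : ∫ t in (0 : ℝ)..(R - x), gk L (t + x) ≤ ∫ t in (0 : ℝ)..(R - x), gk L x * gk L t := by
      refine intervalIntegral.integral_mono_on (by linarith) ?_ ?_ ?_
      · exact ((gk_cont L).comp (continuous_id.add continuous_const)).intervalIntegrable _ _
      · exact ((gk_cont L).const_smul (gk L x)).intervalIntegrable _ _
      · intro t ht
        unfold gk
        rw [← Real.exp_add]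
        refine Real.exp_le_exp.2 ?_
        have h5 : 0 ≤ L ^ 2 * (t * x) := by
          have := ht.1
          positivity
        nlinarith
    rw [intervalIntegral.integral_const_mul] at h4
    have h5 := gP_le hL (R - x)
    have h6 : gk L x * (∫ t in (0 : ℝ)..(R - x), gk L t) ≤ gk L x * gM L :=
      mul_le_mul_of_nonneg_left h5 (gk_pos L x).le
    linarith
  have h7 : gM L ≤ gP L x + gM L * gk L x := by
    refine le_of_tendsto (gP_lim hL) ?_
    filter_upwards [Filter.eventually_ge_atTop x] with R hR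
    exact h1 R hR
  linarith

/-- the smoothed indicator of `(u, u + 1]` -/
private noncomputable def gD (L u z : ℝ) : ℝ := (gP L (u + 1 - z) - gP L (u - z)) / (2 * gM L)

private theorem gD_int (L u z : ℝ) : ∫ y in u..(u + 1), gk L (z - y) = gP L (u + 1 - z) - gP L (u - z) := by
  rw [gP_sub, ← intervalIntegral.integral_comp_sub_right]
  refine intervalIntegral.integral_congr fun y _ => ?_
  show gk L (z - y) = gk L (y - z)
  rw [← gk_neg, neg_sub]

private theorem gD_near {L : ℝ} (hL : 0 < L) (u z : ℝ) :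
    |gD L u z - (if u < z ∧ z ≤ u + 1 then 1 else 0)| ≤ gk L (z - u) + gk L (z - (u + 1)) := by
  have hM := gM_pos hL
  have p1 := gk_pos L (z - u)
  have p2 := gk_pos L (z - (u + 1))
  have e1 : gk L (u + 1 - z) = gk L (z - (u + 1)) := by
    rw [← gk_neg]
    congr 1
    ring
  have e2 : gk L (u - z) = gk L (z - u) := by
    rw [← gk_neg, neg_sub]
  have n1 : gP L (u - z) = -gP L (z - u) := by
    rw [← gP_neg, neg_sub]
  have n2 : gP L (u + 1 - z) = -gP L (z - (u + 1)) := by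
    rw [← gP_neg]
    congr 1
    ring
  unfold gD
  by_cases h : u < z ∧ z ≤ u + 1
  · rw [if_pos h]
    have h1 := gP_ge hL (show 0 ≤ u + 1 - z by linarith [h.2])
    have h2 := gP_ge hL (show 0 ≤ z - u by linarith [h.1])
    have h3 := gP_le hL (u + 1 - z)
    have h4 := gP_le hL (z - u)
    rw [e1] at h1
    have h5 : (gP L (u + 1 - z) - gP L (u - z)) / (2 * gM L) - 1 =
        (gP L (u + 1 - z) - gP L (u - z) - 2 * gM L) / (2 * gM L) := by
      field_simp
    rw [h5, abs_div, abs_of_pos (show 0 < 2 * gM L by linarith), div_le_iff₀ (by linarith), n1, abs_le]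
    constructor
    · nlinarith
    · nlinarith
  · rw [if_neg h, sub_zero, abs_div, abs_of_pos (show 0 < 2 * gM L by linarith), div_le_iff₀ (by linarith)]
    have h0 : 0 ≤ gP L (u + 1 - z) - gP L (u - z) := sub_nonneg.2 (gP_mono L (by linarith))
    rw [abs_of_nonneg h0]
    by_cases hz : z ≤ u
    · have h1 := gP_ge hL (show 0 ≤ u - z by linarith)
      have h3 := gP_le hL (u + 1 - z)
      rw [e2] at h1
      nlinarith
    · have hz' : u + 1 < z := by
        by_contra h1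
        exact h ⟨lt_of_not_ge hz, not_lt.1 h1⟩
      have h1 := gP_ge hL (show 0 ≤ z - (u + 1) by linarith)
      have h3 := gP_le hL (z - u)
      rw [n1, n2]
      nlinarith


private theorem sum_cover {ι : Type} (s : Finset ℕ) (t : Finset ι) (A : ι → Finset ℕ) (F : ℕ → ℝ) (hF : ∀ n, 0 ≤ F n)
    (h : ∀ n ∈ s, ∃ k ∈ t, n ∈ A k) : ∑ n ∈ s, F n ≤ ∑ k ∈ t, ∑ n ∈ A k, F n := by
  classical
  calc ∑ n ∈ s, F n ≤ ∑ n ∈ s, ∑ k ∈ t, (if n ∈ A k then F n else 0) := by
        refine sum_le_sum fun n hn => ?_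
        obtain ⟨k, hk, hnk⟩ := h n hn
        have h1 := single_le_sum (f := fun k => if n ∈ A k then F n else 0) (s := t) (fun k _ => by
          split_ifs
          · exact hF n
          · exact le_rfl) hk
        rwa [if_pos hnk] at h1
    _ = ∑ k ∈ t, ∑ n ∈ s, (if n ∈ A k then F n else 0) := sum_comm
    _ ≤ ∑ k ∈ t, ∑ n ∈ A k, F n := by
        refine sum_le_sum fun k _ => ?_
        rw [← sum_filter]
        exact sum_le_sum_of_subset_of_nonneg (fun n hn => (mem_filter.1 hn).2) fun n _ _ => hF n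

private theorem hd_geo (K : ℕ) : ∑ k ∈ range K, Real.exp (-(k : ℝ)) ≤ 2 := by
  refine le_trans (sum_le_sum fun k _ => ?_) (sum_geometric_two_le K)
  have h1 : Real.exp (-(k : ℝ)) = Real.exp (-1) ^ k := by
    rw [← Real.exp_nat_mul]
    congr 1
    ring
  rw [h1]
  refine pow_le_pow_left₀ (Real.exp_pos _).le ?_ k
  rw [Real.exp_neg, ← one_div]
  refine one_div_le_one_div_of_le two_pos ?_
  have := Real.add_one_le_exp 1
  linarith

private theorem hd_coef (k : ℕ) : ((k : ℝ) + 1) * Real.exp (-(k : ℝ) ^ 2 / 2) * Real.exp (k + 1) ≤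
    Real.exp 6 * Real.exp (-(k : ℝ)) := by
  have h1 : (k : ℝ) + 1 ≤ Real.exp k := Real.add_one_le_exp _
  have h2 : ((k : ℝ) + 1) * Real.exp (-(k : ℝ) ^ 2 / 2) * Real.exp (k + 1) ≤
      Real.exp k * Real.exp (-(k : ℝ) ^ 2 / 2) * Real.exp (k + 1) :=
    mul_le_mul_of_nonneg_right (mul_le_mul_of_nonneg_right h1 (Real.exp_pos _).le) (Real.exp_pos _).le
  refine h2.trans ?_
  rw [← Real.exp_add, ← Real.exp_add, ← Real.exp_add]
  refine Real.exp_le_exp.2 ?_
  nlinarith [sq_nonneg ((k : ℝ) - 3)]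

private theorem hd_F_nonneg (L w : ℝ) (n : ℕ) : 0 ≤ Real.log n / n * gk L (Real.log n - w) :=
  mul_nonneg (div_nonneg (Real.log_natCast_nonneg n) (Nat.cast_nonneg n)) (gk_pos _ _).le

private theorem hd_sum_le {a b : ℝ} (h : a ≤ b) : ∑ n ∈ Ic a b, 1 / (n : ℝ) ≤ b - a + Real.exp (-a) := by
  have := (abs_le.1 (sum_inv_Ic h)).2
  linarith

private theorem hd_up {L w : ℝ} (hL : 1 ≤ L) (hw : 0 ≤ w) (k : ℕ) :
    ∑ n ∈ Ic (w + k / L) (w + (k + 1) / L), Real.log n / n * gk L (Real.log n - w) ≤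
      (w + 1) * (1 / L + Real.exp (-w)) * (Real.exp 6 * Real.exp (-(k : ℝ))) := by
  have hL0 : 0 < L := by linarith
  have hk : (0 : ℝ) ≤ k := Nat.cast_nonneg k
  have h1 : ∀ n ∈ Ic (w + k / L) (w + (k + 1) / L), Real.log n / n * gk L (Real.log n - w) ≤
      (w + 1) * (((k : ℝ) + 1) * Real.exp (-(k : ℝ) ^ 2 / 2)) * (1 / n) := by
    intro n hn
    have hn1 := one_le_of_mem hn
    have hn0 : (0 : ℝ) < n := by exact_mod_cast hn1
    obtain ⟨h2, h3⟩ := (mem_Ic_log hn1).1 hn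
    have h4 : ((k : ℝ) + 1) / L ≤ k + 1 := by
      rw [div_le_iff₀ hL0]
      nlinarith
    have h5 : Real.log n ≤ (w + 1) * (k + 1) := by nlinarith
    have h6 : gk L (Real.log n - w) ≤ Real.exp (-(k : ℝ) ^ 2 / 2) := by
      unfold gk
      refine Real.exp_le_exp.2 ?_
      have h7 : (k : ℝ) ≤ L * (Real.log n - w) := by
        have h8 : (k : ℝ) / L ≤ Real.log n - w := by linarith
        rw [div_le_iff₀ hL0] at h8
        linarith
      have := pow_le_pow_left₀ hk h7 2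
      linarith
    have h7 : Real.log n * gk L (Real.log n - w) ≤ (w + 1) * (k + 1) * Real.exp (-(k : ℝ) ^ 2 / 2) :=
      mul_le_mul h5 h6 (gk_pos _ _).le (by positivity)
    calc Real.log n / n * gk L (Real.log n - w) = Real.log n * gk L (Real.log n - w) * (1 / n) := by ring
      _ ≤ (w + 1) * (k + 1) * Real.exp (-(k : ℝ) ^ 2 / 2) * (1 / n) :=
        mul_le_mul_of_nonneg_right h7 (by positivity)
      _ = _ := by ring
  refine (sum_le_sum h1).trans ?_
  rw [← mul_sum]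
  have h8 : (k : ℝ) / L ≤ (k + 1) / L := div_le_div_of_nonneg_right (by linarith) hL0.le
  have h9 := hd_sum_le (show w + (k : ℝ) / L ≤ w + (k + 1) / L by linarith)
  have h10 : w + ((k : ℝ) + 1) / L - (w + k / L) = 1 / L := by
    field_simp
    ring
  have h11 : Real.exp (-(w + (k : ℝ) / L)) ≤ Real.exp (-w) := by
    refine Real.exp_le_exp.2 ?_
    have : 0 ≤ (k : ℝ) / L := by positivity
    linarith
  rw [h10] at h9
  have h12 : ∑ n ∈ Ic (w + k / L) (w + (k + 1) / L), 1 / (n : ℝ) ≤ 1 / L + Real.exp (-w) := by linarith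
  have h13 := hd_coef k
  have h14 : (1 : ℝ) ≤ Real.exp (k + 1) := Real.one_le_exp (by linarith)
  have h15 : ((k : ℝ) + 1) * Real.exp (-(k : ℝ) ^ 2 / 2) ≤ Real.exp 6 * Real.exp (-(k : ℝ)) := by
    refine le_trans ?_ h13
    have h16 : 0 ≤ ((k : ℝ) + 1) * Real.exp (-(k : ℝ) ^ 2 / 2) := by positivity
    nlinarith
  calc (w + 1) * (((k : ℝ) + 1) * Real.exp (-(k : ℝ) ^ 2 / 2)) * ∑ n ∈ Ic (w + k / L) (w + (k + 1) / L), 1 / (n : ℝ)
      ≤ (w + 1) * (Real.exp 6 * Real.exp (-(k : ℝ))) * (1 / L + Real.exp (-w)) := by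
        refine mul_le_mul (mul_le_mul_of_nonneg_left h15 (by linarith)) h12 ?_ (by positivity)
        exact sum_nonneg fun n _ => by positivity
    _ = _ := by ring

private theorem hd_dn {L w : ℝ} (hL : 1 ≤ L) (hw : 0 ≤ w) (k : ℕ) :
    ∑ n ∈ Ic (w - (k + 1) / L) (w - k / L), Real.log n / n * gk L (Real.log n - w) ≤
      (w + 1) * (1 / L + Real.exp (-w)) * (Real.exp 6 * Real.exp (-(k : ℝ))) := by
  have hL0 : 0 < L := by linarith
  have hk : (0 : ℝ) ≤ k := Nat.cast_nonneg k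
  have h0 : 0 ≤ (k : ℝ) / L := by positivity
  have h4 : ((k : ℝ) + 1) / L ≤ k + 1 := by
    rw [div_le_iff₀ hL0]
    nlinarith
  have h1 : ∀ n ∈ Ic (w - (k + 1) / L) (w - k / L), Real.log n / n * gk L (Real.log n - w) ≤
      (w + 1) * (((k : ℝ) + 1) * Real.exp (-(k : ℝ) ^ 2 / 2)) * (1 / n) := by
    intro n hn
    have hn1 := one_le_of_mem hn
    have hn0 : (0 : ℝ) < n := by exact_mod_cast hn1
    obtain ⟨h2, h3⟩ := (mem_Ic_log hn1).1 hn
    have h5 : Real.log n ≤ (w + 1) * (k + 1) := by nlinarith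
    have h6 : gk L (Real.log n - w) ≤ Real.exp (-(k : ℝ) ^ 2 / 2) := by
      unfold gk
      refine Real.exp_le_exp.2 ?_
      have h7 : (k : ℝ) ≤ L * (w - Real.log n) := by
        have h8 : (k : ℝ) / L ≤ w - Real.log n := by linarith
        rw [div_le_iff₀ hL0] at h8
        linarith
      have h8 := pow_le_pow_left₀ hk h7 2
      have h9 : (L * (Real.log n - w)) ^ 2 = (L * (w - Real.log n)) ^ 2 := by ring
      rw [h9]
      linarith
    have h7 : Real.log n * gk L (Real.log n - w) ≤ (w + 1) * (k + 1) * Real.exp (-(k : ℝ) ^ 2 / 2) :=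
      mul_le_mul h5 h6 (gk_pos _ _).le (by positivity)
    calc Real.log n / n * gk L (Real.log n - w) = Real.log n * gk L (Real.log n - w) * (1 / n) := by ring
      _ ≤ (w + 1) * (k + 1) * Real.exp (-(k : ℝ) ^ 2 / 2) * (1 / n) :=
        mul_le_mul_of_nonneg_right h7 (by positivity)
      _ = _ := by ring
  refine (sum_le_sum h1).trans ?_
  rw [← mul_sum]
  have h8 : (k : ℝ) / L ≤ (k + 1) / L := div_le_div_of_nonneg_right (by linarith) hL0.le
  have h9 := hd_sum_le (show w - ((k : ℝ) + 1) / L ≤ w - k / L by linarith)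
  have h10 : w - (k : ℝ) / L - (w - (k + 1) / L) = 1 / L := by
    field_simp
    ring
  have h11 : Real.exp (-(w - ((k : ℝ) + 1) / L)) ≤ Real.exp (-w) * Real.exp (k + 1) := by
    rw [← Real.exp_add]
    exact Real.exp_le_exp.2 (by linarith)
  rw [h10] at h9
  have h14 : (1 : ℝ) ≤ Real.exp (k + 1) := Real.one_le_exp (by linarith)
  have h12 : ∑ n ∈ Ic (w - (k + 1) / L) (w - k / L), 1 / (n : ℝ) ≤ (1 / L + Real.exp (-w)) * Real.exp (k + 1) := by
    have h16 : 0 < 1 / L := by positivity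
    nlinarith
  have h13 := hd_coef k
  calc (w + 1) * (((k : ℝ) + 1) * Real.exp (-(k : ℝ) ^ 2 / 2)) * ∑ n ∈ Ic (w - (k + 1) / L) (w - k / L), 1 / (n : ℝ)
      ≤ (w + 1) * (((k : ℝ) + 1) * Real.exp (-(k : ℝ) ^ 2 / 2)) * ((1 / L + Real.exp (-w)) * Real.exp (k + 1)) :=
        mul_le_mul_of_nonneg_left h12 (by positivity)
    _ = (w + 1) * (1 / L + Real.exp (-w)) * (((k : ℝ) + 1) * Real.exp (-(k : ℝ) ^ 2 / 2) * Real.exp (k + 1)) := by ring
    _ ≤ _ := mul_le_mul_of_nonneg_left h13 (by positivity)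

private theorem hd_T {L w : ℝ} (hL : 1 ≤ L) (hw : 0 ≤ w) (N : ℕ) :
    ∑ n ∈ Icc 1 N, Real.log n / n * gk L (Real.log n - w) ≤
      4 * Real.exp 6 * ((w + 1) * (1 / L + Real.exp (-w))) := by
  have hL0 : 0 < L := by linarith
  obtain ⟨K, hK⟩ : ∃ K : ℕ, L * (Real.log N + w) < K := exists_nat_gt _
  have hlN : 0 ≤ Real.log N := Real.log_natCast_nonneg N
  have hlog : ∀ n ∈ Icc 1 N, Real.log n ≤ Real.log N := by
    intro n hn
    rw [mem_Icc] at hn
    have hn0 : (0 : ℝ) < n := by exact_mod_cast hn.1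
    exact Real.log_le_log hn0 (by exact_mod_cast hn.2)
  rw [← sum_filter_add_sum_filter_not (Icc 1 N) (fun n : ℕ => w < Real.log n)]
  have h1 : ∑ n ∈ (Icc 1 N).filter (fun n : ℕ => w < Real.log n), Real.log n / n * gk L (Real.log n - w) ≤
      ∑ k ∈ range K, ∑ n ∈ Ic (w + k / L) (w + (k + 1) / L), Real.log n / n * gk L (Real.log n - w) := by
    refine sum_cover _ _ _ _ (hd_F_nonneg L w) ?_
    intro n hn
    rw [mem_filter] at hn
    have hn1 := (mem_Icc.1 hn.1).1
    have h2 := hlog n hn.1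
    have hx : 0 < L * (Real.log n - w) := mul_pos hL0 (by linarith [hn.2])
    have hc := Nat.ceil_lt_add_one hx.le
    have hc' := Nat.le_ceil (L * (Real.log n - w))
    have hc0 : 0 < ⌈L * (Real.log n - w)⌉₊ := Nat.ceil_pos.2 hx
    obtain ⟨k, hk⟩ : ∃ k, ⌈L * (Real.log n - w)⌉₊ = k + 1 := ⟨⌈L * (Real.log n - w)⌉₊ - 1, by omega⟩
    rw [hk] at hc hc'
    push_cast at hc hc'
    refine ⟨k, ?_, ?_⟩
    · rw [mem_range]
      have h3 : (k : ℝ) < K := by nlinarith
      exact_mod_cast h3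
    · rw [mem_Ic_log hn1]
      constructor
      · have h3 : (k : ℝ) / L < Real.log n - w := by
          rw [div_lt_iff₀ hL0]
          linarith
        linarith
      · have h3 : Real.log n - w ≤ ((k : ℝ) + 1) / L := by
          rw [le_div_iff₀ hL0]
          linarith
        linarith
  have h2 : ∑ n ∈ (Icc 1 N).filter (fun n : ℕ => ¬ w < Real.log n), Real.log n / n * gk L (Real.log n - w) ≤
      ∑ k ∈ range K, ∑ n ∈ Ic (w - (k + 1) / L) (w - k / L), Real.log n / n * gk L (Real.log n - w) := by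
    refine sum_cover _ _ _ _ (hd_F_nonneg L w) ?_
    intro n hn
    rw [mem_filter, not_lt] at hn
    have hn1 := (mem_Icc.1 hn.1).1
    have h3 : 0 ≤ Real.log n := Real.log_natCast_nonneg n
    have hx : 0 ≤ L * (w - Real.log n) := mul_nonneg hL0.le (by linarith [hn.2])
    have hc := Nat.floor_le hx
    have hc' := Nat.lt_floor_add_one (L * (w - Real.log n))
    refine ⟨⌊L * (w - Real.log n)⌋₊, ?_, ?_⟩
    · rw [mem_range]
      have h4 : ((⌊L * (w - Real.log n)⌋₊ : ℕ) : ℝ) < K := by nlinarith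
      exact_mod_cast h4
    · rw [mem_Ic_log hn1]
      constructor
      · have h4 : w - Real.log n < ((⌊L * (w - Real.log n)⌋₊ : ℝ) + 1) / L := by
          rw [lt_div_iff₀ hL0]
          linarith
        linarith
      · have h4 : (⌊L * (w - Real.log n)⌋₊ : ℝ) / L ≤ w - Real.log n := by
          rw [div_le_iff₀ hL0]
          linarith
        linarith
  have h3 : ∑ k ∈ range K, ∑ n ∈ Ic (w + k / L) (w + (k + 1) / L), Real.log n / n * gk L (Real.log n - w) ≤
      (w + 1) * (1 / L + Real.exp (-w)) * (Real.exp 6 * 2) := by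
    refine (sum_le_sum fun k _ => hd_up hL hw k).trans ?_
    rw [← mul_sum, ← mul_sum]
    exact mul_le_mul_of_nonneg_left (mul_le_mul_of_nonneg_left (hd_geo K) (Real.exp_pos _).le) (by positivity)
  have h4 : ∑ k ∈ range K, ∑ n ∈ Ic (w - (k + 1) / L) (w - k / L), Real.log n / n * gk L (Real.log n - w) ≤
      (w + 1) * (1 / L + Real.exp (-w)) * (Real.exp 6 * 2) := by
    refine (sum_le_sum fun k _ => hd_dn hL hw k).trans ?_
    rw [← mul_sum, ← mul_sum]
    exact mul_le_mul_of_nonneg_left (mul_le_mul_of_nonneg_left (hd_geo K) (Real.exp_pos _).le) (by positivity)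
  linarith


noncomputable def Ag (g : ℕ → ℂ) (u : ℝ) : ℂ := ∑ n ∈ Ic u (u + 1), g n / n

theorem av_eq (f : ℕ → ℝ) (v t : ℝ) : Av f v t = Ag (fun n => (f n : ℂ) * cp n t) v := by
  unfold Av Ag Dp
  refine sum_congr rfl fun n _ => ?_
  ring

theorem ag_le {g : ℕ → ℂ} (hg : CMc g) (u : ℝ) : ‖Ag g u‖ ≤ 2 := by
  unfold Ag
  refine (norm_sum_le _ _).trans ?_
  have h1 : ∀ n ∈ Ic u (u + 1), ‖g n / n‖ ≤ 1 / (n : ℝ) := by
    intro n hn
    have hn1 := one_le_of_mem hn
    have hn0 : (0 : ℝ) < n := by exact_mod_cast hn1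
    rw [norm_div, Complex.norm_natCast]
    exact div_le_div_of_nonneg_right (hg.bd n hn1) hn0.le
  refine (sum_le_sum h1).trans ?_
  have h2 := sum_inv_Ic_le (show u ≤ u + 1 by linarith)
  linarith

/-- the coefficients -/
private noncomputable def hc (g : ℕ → ℂ) (V : ℝ) (n : ℕ) : ℂ :=
  g n * Real.log n * (((n : ℝ) ^ (-(1 / V)) : ℝ) : ℂ)

private theorem hc_rpow {n : ℕ} (hn : 1 ≤ n) (V : ℝ) : (n : ℝ) ^ (-(1 / V)) = Real.exp (-(Real.log n / V)) := by
  have hn0 : (0 : ℝ) < n := by exact_mod_cast hn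
  rw [Real.rpow_def_of_pos hn0]
  congr 1
  ring

private theorem hc_norm {g : ℕ → ℂ} (hg : CMc g) {V : ℝ} (hV : 1 ≤ V) {n : ℕ} (hn : 1 ≤ n) :
    ‖hc g V n‖ ≤ Real.log n := by
  have hl : 0 ≤ Real.log n := Real.log_natCast_nonneg n
  unfold hc
  rw [norm_mul, norm_mul, Complex.norm_real, Complex.norm_real, hc_rpow hn, Real.norm_of_nonneg hl,
    Real.norm_of_nonneg (Real.exp_pos _).le]
  have h1 : Real.exp (-(Real.log n / V)) ≤ 1 := by
    rw [Real.exp_le_one_iff]
    have : 0 ≤ Real.log n / V := by positivity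
    linarith
  have h2 := hg.bd n hn
  have h3 : ‖g n‖ * Real.log n ≤ Real.log n := by
    have := mul_le_mul_of_nonneg_right h2 hl
    linarith
  calc ‖g n‖ * Real.log n * Real.exp (-(Real.log n / V)) ≤ ‖g n‖ * Real.log n * 1 :=
        mul_le_mul_of_nonneg_left h1 (by positivity)
    _ ≤ _ := by linarith

private theorem exp_lip {a b : ℝ} (ha : 0 ≤ a) (hab : a ≤ b) : |Real.exp (-b) - Real.exp (-a)| ≤ b - a := by
  have h1 : Real.exp (-b) ≤ Real.exp (-a) := Real.exp_le_exp.2 (by linarith)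
  have h2 : Real.exp (-b) = Real.exp (-a) * Real.exp (-(b - a)) := by
    rw [← Real.exp_add]
    congr 1
    ring
  have h3 := Real.add_one_le_exp (-(b - a))
  have h4 : Real.exp (-a) ≤ 1 := Real.exp_le_one_iff.2 (by linarith)
  have h5 := Real.exp_pos (-a)
  rw [abs_of_nonpos (by linarith), h2]
  nlinarith

private theorem hc_close {V u z : ℝ} (hV : 1 ≤ V) (hu : 0 ≤ u) (huV : u ≤ V) (h1 : u ≤ z) (h2 : z ≤ u + 1) :
    |z * Real.exp (-(z / V)) - u * Real.exp (-(u / V))| ≤ 2 := by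
  have hV0 : 0 < V := by linarith
  have h3 : z * Real.exp (-(z / V)) - u * Real.exp (-(u / V)) =
      (z - u) * Real.exp (-(z / V)) + u * (Real.exp (-(z / V)) - Real.exp (-(u / V))) := by ring
  rw [h3]
  have h4 := exp_lip (show 0 ≤ u / V by positivity) (div_le_div_of_nonneg_right h1 hV0.le)
  have h5 : z / V - u / V ≤ 1 / V := by
    rw [← sub_div]
    exact div_le_div_of_nonneg_right (by linarith) hV0.le
  have h6 : Real.exp (-(z / V)) ≤ 1 := by
    rw [Real.exp_le_one_iff]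
    have : 0 ≤ z / V := div_nonneg (by linarith) hV0.le
    linarith
  have h7 : |(z - u) * Real.exp (-(z / V))| ≤ 1 := by
    rw [abs_of_nonneg (mul_nonneg (by linarith) (Real.exp_pos _).le)]
    have := Real.exp_pos (-(z / V))
    nlinarith
  have h8 : |u * (Real.exp (-(z / V)) - Real.exp (-(u / V)))| ≤ 1 := by
    rw [abs_mul, abs_of_nonneg hu]
    have h9 : u * |Real.exp (-(z / V)) - Real.exp (-(u / V))| ≤ V * (1 / V) :=
      mul_le_mul huV (h4.trans h5) (abs_nonneg _) hV0.le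
    rwa [mul_one_div_cancel hV0.ne'] at h9
  have h9 := abs_add_le ((z - u) * Real.exp (-(z / V))) (u * (Real.exp (-(z / V)) - Real.exp (-(u / V))))
  linarith

/-- comparison with the weighted sum -/
private theorem hd_B {g : ℕ → ℂ} (hg : CMc g) {V u : ℝ} (hV : 1 ≤ V) (hu : 0 ≤ u) (huV : u ≤ V) :
    u * ‖Ag g u‖ ≤ Real.exp 1 * (‖∑ n ∈ Ic u (u + 1), hc g V n / n‖ + 4) := by
  have hV0 : 0 < V := by linarith
  have h1 : ‖((u * Real.exp (-(u / V)) : ℝ) : ℂ) * Ag g u - ∑ n ∈ Ic u (u + 1), hc g V n / n‖ ≤ 4 := by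
    unfold Ag
    rw [mul_sum, ← sum_sub_distrib]
    refine (norm_sum_le _ _).trans ?_
    have h2 : ∀ n ∈ Ic u (u + 1), ‖((u * Real.exp (-(u / V)) : ℝ) : ℂ) * (g n / n) - hc g V n / n‖ ≤ 2 * (1 / (n : ℝ)) := by
      intro n hn
      have hn1 := one_le_of_mem hn
      have hn0 : (0 : ℝ) < n := by exact_mod_cast hn1
      obtain ⟨h3, h4⟩ := (mem_Ic_log hn1).1 hn
      have h5 : ((u * Real.exp (-(u / V)) : ℝ) : ℂ) * (g n / n) - hc g V n / n =
          -(((Real.log n * Real.exp (-(Real.log n / V)) - u * Real.exp (-(u / V)) : ℝ) : ℂ) * (g n / n)) := by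
        unfold hc
        rw [hc_rpow hn1]
        push_cast
        ring
      rw [h5, norm_neg, norm_mul, Complex.norm_real, Real.norm_eq_abs, norm_div, Complex.norm_natCast]
      have h6 := hc_close hV hu huV h3.le h4
      have h7 : ‖g n‖ / n ≤ 1 / (n : ℝ) := div_le_div_of_nonneg_right (hg.bd n hn1) hn0.le
      exact mul_le_mul h6 h7 (by positivity) (by norm_num)
    refine (sum_le_sum h2).trans ?_
    rw [← mul_sum]
    have h3 := sum_inv_Ic_le (show u ≤ u + 1 by linarith)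
    linarith
  have h2 : ‖((u * Real.exp (-(u / V)) : ℝ) : ℂ) * Ag g u‖ ≤ ‖∑ n ∈ Ic u (u + 1), hc g V n / n‖ + 4 := by
    have := norm_sub_norm_le (((u * Real.exp (-(u / V)) : ℝ) : ℂ) * Ag g u) (∑ n ∈ Ic u (u + 1), hc g V n / n)
    linarith
  rw [norm_mul, Complex.norm_real, Real.norm_of_nonneg (mul_nonneg hu (Real.exp_pos _).le)] at h2
  have h3 : Real.exp (-1) ≤ Real.exp (-(u / V)) := by
    refine Real.exp_le_exp.2 ?_
    have : u / V ≤ 1 := (div_le_one hV0).2 huV
    linarith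
  have h4 : u * Real.exp (-1) * ‖Ag g u‖ ≤ u * Real.exp (-(u / V)) * ‖Ag g u‖ :=
    mul_le_mul_of_nonneg_right (mul_le_mul_of_nonneg_left h3 hu) (norm_nonneg _)
  have h5 : Real.exp 1 * Real.exp (-1) = 1 := by
    rw [← Real.exp_add, add_neg_cancel, Real.exp_zero]
  have h6 := mul_le_mul_of_nonneg_left (h4.trans h2) (Real.exp_pos 1).le
  have h7 : Real.exp 1 * (u * Real.exp (-1) * ‖Ag g u‖) = u * ‖Ag g u‖ := by
    calc Real.exp 1 * (u * Real.exp (-1) * ‖Ag g u‖) = (Real.exp 1 * Real.exp (-1)) * (u * ‖Ag g u‖) := by ring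
      _ = _ := by rw [h5, one_mul]
  rw [h7] at h6
  exact h6

private theorem sm_cont (s : Finset ℕ) (a : ℕ → ℂ) (L : ℝ) : Continuous (Sm s a L) := by
  unfold Sm
  refine continuous_finsetSum _ fun n _ => continuous_const.mul ?_
  exact Complex.continuous_ofReal.comp (by fun_prop)

private theorem hd_int (s : Finset ℕ) (a : ℕ → ℂ) {L : ℝ} (hL : 0 < L) (u : ℝ) :
    ∑ n ∈ s, a n / n * ((gD L u (Real.log n) : ℝ) : ℂ) =
      ((1 / (2 * gM L) : ℝ) : ℂ) * ∫ y in u..(u + 1), Sm s a L y := by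
  have h1 : ∀ n : ℕ, ∫ y in u..(u + 1), a n / n * ((Real.exp (-(L * (Real.log n - y)) ^ 2 / 2) : ℝ) : ℂ) =
      a n / n * ((gP L (u + 1 - Real.log n) - gP L (u - Real.log n) : ℝ) : ℂ) := by
    intro n
    rw [intervalIntegral.integral_const_mul, intervalIntegral.integral_ofReal, ← gD_int]
    rfl
  have h2 : ∫ y in u..(u + 1), Sm s a L y =
      ∑ n ∈ s, a n / n * ((gP L (u + 1 - Real.log n) - gP L (u - Real.log n) : ℝ) : ℂ) := by
    unfold Sm
    rw [intervalIntegral.integral_finsetSum]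
    · exact sum_congr rfl fun n _ => h1 n
    · intro n _
      refine Continuous.intervalIntegrable (continuous_const.mul ?_) _ _
      exact Complex.continuous_ofReal.comp (by fun_prop)
  rw [h2, mul_sum]
  refine sum_congr rfl fun n _ => ?_
  unfold gD
  have hM := gM_pos hL
  have hM' : ((gM L : ℝ) : ℂ) ≠ 0 := by exact_mod_cast hM.ne'
  push_cast
  field_simp

theorem ag_smooth : ∃ C : ℝ, 0 < C ∧ ∀ g : ℕ → ℂ, CMc g → ∀ V L u : ℝ, 1 ≤ V → 1 ≤ L → 0 ≤ u → u ≤ V → ∀ N : ℕ, Real.exp (u + 1) ≤ N →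
    u * ‖Ag g u‖ ≤ C * (L * ∫ y in u..(u + 1), ‖Sm (Icc 1 N) (fun n => g n * Real.log n * (((n : ℝ) ^ (-(1 / V)) : ℝ) : ℂ)) L y‖) +
      C * (1 + (u + 1) * (1 / L + Real.exp (-u))) := by
  refine ⟨Real.exp 1 * (12 * Real.exp 6), by positivity, ?_⟩
  intro g hg V L u hV hL hu huV N hN
  have hL0 : 0 < L := by linarith
  change u * ‖Ag g u‖ ≤ Real.exp 1 * (12 * Real.exp 6) * (L * ∫ y in u..(u + 1), ‖Sm (Icc 1 N) (hc g V) L y‖) + _
  have h1 := hd_B hg hV hu huV
  have h2 := hd_int (Icc 1 N) (hc g V) hL0 u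
  have hM := gM_pos hL0
  have hM1 : 1 / (2 * gM L) ≤ L := by
    unfold gM
    have hpi : 1 ≤ Real.sqrt (2 * Real.pi) := by
      rw [Real.one_le_sqrt]
      have := Real.pi_gt_three
      linarith
    rw [div_le_iff₀ (by positivity)]
    have h3 : L * (2 * (Real.sqrt (2 * Real.pi) / (2 * L))) = Real.sqrt (2 * Real.pi) := by
      field_simp
    rw [h3]
    exact hpi
  -- the sum over the interval
  have hB : ∑ n ∈ Ic u (u + 1), hc g V n / n =
      ∑ n ∈ Icc 1 N, hc g V n / n * (((if u < Real.log n ∧ Real.log n ≤ u + 1 then 1 else 0 : ℝ) : ℝ) : ℂ) := by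
    have h3 : Ic u (u + 1) = (Icc 1 N).filter fun n : ℕ => u < Real.log n ∧ Real.log n ≤ u + 1 := by
      ext n
      rw [mem_filter, mem_Icc]
      constructor
      · intro hn
        have hn1 := one_le_of_mem hn
        refine ⟨⟨hn1, ?_⟩, (mem_Ic_log hn1).1 hn⟩
        have h4 := (mem_Ic.1 hn).2
        exact_mod_cast h4.trans hN
      · rintro ⟨⟨hn1, _⟩, h4⟩
        exact (mem_Ic_log hn1).2 h4
    rw [h3, sum_filter]
    refine sum_congr rfl fun n _ => ?_
    split_ifs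
    · simp
    · simp
  have herr : ‖∑ n ∈ Ic u (u + 1), hc g V n / n - ∑ n ∈ Icc 1 N, hc g V n / n * ((gD L u (Real.log n) : ℝ) : ℂ)‖ ≤
      12 * Real.exp 6 * ((u + 1) * (1 / L + Real.exp (-u))) := by
    rw [hB, ← sum_sub_distrib]
    refine (norm_sum_le _ _).trans ?_
    have h3 : ∀ n ∈ Icc 1 N, ‖hc g V n / n * (((if u < Real.log n ∧ Real.log n ≤ u + 1 then 1 else 0 : ℝ) : ℝ) : ℂ) -
        hc g V n / n * ((gD L u (Real.log n) : ℝ) : ℂ)‖ ≤
        Real.log n / n * gk L (Real.log n - u) + Real.log n / n * gk L (Real.log n - (u + 1)) := by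
      intro n hn
      have hn1 := (mem_Icc.1 hn).1
      have hn0 : (0 : ℝ) < n := by exact_mod_cast hn1
      rw [← mul_sub, ← Complex.ofReal_sub, norm_mul, Complex.norm_real, Real.norm_eq_abs, norm_div,
        Complex.norm_natCast, ← mul_add, abs_sub_comm]
      refine mul_le_mul ?_ (gD_near hL0 u (Real.log n)) (abs_nonneg _) ?_
      · exact div_le_div_of_nonneg_right (hc_norm hg hV hn1) hn0.le
      · exact div_nonneg (Real.log_natCast_nonneg n) hn0.le
    refine (sum_le_sum h3).trans ?_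
    rw [sum_add_distrib]
    have h4 := hd_T hL hu N
    have h5 := hd_T hL (show 0 ≤ u + 1 by linarith) N
    have h6 : Real.exp (-(u + 1)) ≤ Real.exp (-u) := Real.exp_le_exp.2 (by linarith)
    have h7 : (u + 1 + 1) * (1 / L + Real.exp (-(u + 1))) ≤ 2 * ((u + 1) * (1 / L + Real.exp (-u))) := by
      have h8 : 0 < 1 / L := by positivity
      have h9 := Real.exp_pos (-(u + 1))
      calc (u + 1 + 1) * (1 / L + Real.exp (-(u + 1))) ≤ (2 * (u + 1)) * (1 / L + Real.exp (-u)) :=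
            mul_le_mul (by linarith) (by linarith) (by linarith) (by linarith)
        _ = _ := by ring
    have h8 : 4 * Real.exp 6 * ((u + 1 + 1) * (1 / L + Real.exp (-(u + 1)))) ≤
        4 * Real.exp 6 * (2 * ((u + 1) * (1 / L + Real.exp (-u)))) := mul_le_mul_of_nonneg_left h7 (by positivity)
    linarith
  have hI : ‖∫ y in u..(u + 1), Sm (Icc 1 N) (hc g V) L y‖ ≤ ∫ y in u..(u + 1), ‖Sm (Icc 1 N) (hc g V) L y‖ :=
    intervalIntegral.norm_integral_le_integral_norm (by linarith)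
  have hI0 : 0 ≤ ∫ y in u..(u + 1), ‖Sm (Icc 1 N) (hc g V) L y‖ :=
    intervalIntegral.integral_nonneg (by linarith) fun y _ => norm_nonneg _
  have hm : ‖∑ n ∈ Icc 1 N, hc g V n / n * ((gD L u (Real.log n) : ℝ) : ℂ)‖ ≤
      L * ∫ y in u..(u + 1), ‖Sm (Icc 1 N) (hc g V) L y‖ := by
    rw [h2, norm_mul, Complex.norm_real, Real.norm_of_nonneg (by positivity)]
    exact mul_le_mul hM1 hI (norm_nonneg _) hL0.le
  have h3 := norm_sub_norm_le (∑ n ∈ Ic u (u + 1), hc g V n / n)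
    (∑ n ∈ Icc 1 N, hc g V n / n * ((gD L u (Real.log n) : ℝ) : ℂ))
  have h4 : ‖∑ n ∈ Ic u (u + 1), hc g V n / n‖ ≤ L * (∫ y in u..(u + 1), ‖Sm (Icc 1 N) (hc g V) L y‖) +
      12 * Real.exp 6 * ((u + 1) * (1 / L + Real.exp (-u))) := by linarith
  have h5 : (1 : ℝ) ≤ Real.exp 6 := Real.one_le_exp (by norm_num)
  have hX : 0 ≤ L * ∫ y in u..(u + 1), ‖Sm (Icc 1 N) (hc g V) L y‖ := mul_nonneg hL0.le hI0
  have h6 : ‖∑ n ∈ Ic u (u + 1), hc g V n / n‖ + 4 ≤
      12 * Real.exp 6 * (L * ∫ y in u..(u + 1), ‖Sm (Icc 1 N) (hc g V) L y‖) +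
      12 * Real.exp 6 * (1 + (u + 1) * (1 / L + Real.exp (-u))) := by
    have h7 : L * (∫ y in u..(u + 1), ‖Sm (Icc 1 N) (hc g V) L y‖) ≤
        12 * Real.exp 6 * (L * ∫ y in u..(u + 1), ‖Sm (Icc 1 N) (hc g V) L y‖) :=
      le_mul_of_one_le_left hX (by linarith)
    linarith
  have h7 := mul_le_mul_of_nonneg_left h6 (Real.exp_pos 1).le
  refine h1.trans (h7.trans (le_of_eq ?_))
  ring


private theorem hd_window {h : ℝ → ℝ} (hc : Continuous h) (h0 : ∀ y, 0 ≤ h y) (hI : Integrable h) {V : ℝ} (hV : 0 ≤ V) :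
    ∫ u in (0 : ℝ)..V, (∫ y in u..(u + 1), h y) ≤ ∫ y : ℝ, h y := by
  have hii : ∀ a b : ℝ, IntervalIntegrable h volume a b := fun a b => hc.intervalIntegrable a b
  obtain ⟨F, hF⟩ : ∃ F : ℝ → ℝ, F = fun x => ∫ y in (0 : ℝ)..x, h y := ⟨_, rfl⟩
  have hFc : Continuous F := by
    rw [hF]
    exact intervalIntegral.continuous_primitive hii 0
  have hsub : ∀ a b : ℝ, ∫ y in a..b, h y = F b - F a := by
    intro a b
    rw [hF]
    have := intervalIntegral.integral_add_adjacent_intervals (hii 0 a) (hii a b)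
    dsimp only
    linarith
  have hFi : ∀ a b : ℝ, IntervalIntegrable F volume a b := fun a b => hFc.intervalIntegrable a b
  have hFi1 : IntervalIntegrable (fun u => F (u + 1)) volume 0 V :=
    (hFc.comp (continuous_id.add continuous_const)).intervalIntegrable _ _
  have h1 : ∫ u in (0 : ℝ)..V, (∫ y in u..(u + 1), h y) = (∫ u in (0 : ℝ)..V, F (u + 1)) - ∫ u in (0 : ℝ)..V, F u := by
    rw [← intervalIntegral.integral_sub hFi1 (hFi 0 V)]
    exact intervalIntegral.integral_congr fun u _ => hsub u (u + 1)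
  have h2 : ∫ u in (0 : ℝ)..V, F (u + 1) = ∫ u in (0 + 1 : ℝ)..(V + 1), F u :=
    intervalIntegral.integral_comp_add_right F 1
  have h3 := intervalIntegral.integral_interval_sub_interval_comm (hFi (0 + 1) (V + 1)) (hFi 0 V) (hFi (0 + 1) 0)
  have h4 : ∫ x in (0 : ℝ)..1, F (x + V) = ∫ x in (0 + V : ℝ)..(1 + V), F x :=
    intervalIntegral.integral_comp_add_right F V
  have hFi2 : IntervalIntegrable (fun u => F (u + V)) volume 0 1 :=
    (hFc.comp (continuous_id.add continuous_const)).intervalIntegrable _ _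
  have h5 : ∫ u in (0 : ℝ)..V, (∫ y in u..(u + 1), h y) = ∫ x in (0 : ℝ)..1, (F (x + V) - F x) := by
    rw [intervalIntegral.integral_sub hFi2 (hFi 0 1), h1, h2, h3, h4, zero_add, zero_add,
      intervalIntegral.integral_symm (0 : ℝ) 1, intervalIntegral.integral_symm V (V + 1), add_comm V 1]
    ring
  have h6 : ∫ x in (0 : ℝ)..1, (F (x + V) - F x) ≤ ∫ _x in (0 : ℝ)..1, (∫ y : ℝ, h y) := by
    refine intervalIntegral.integral_mono_on zero_le_one (hFi2.sub (hFi 0 1)) ?_ ?_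
    · exact continuous_const.intervalIntegrable _ _
    · intro x _
      rw [← hsub, intervalIntegral.integral_of_le (by linarith)]
      exact setIntegral_le_integral hI (Filter.Eventually.of_forall h0)
  rw [h5]
  refine h6.trans (le_of_eq ?_)
  rw [intervalIntegral.integral_const]
  simp

private theorem hd_cs {f : ℝ → ℝ} (hf : Continuous f) (u : ℝ) :
    (∫ y in u..(u + 1), f y) ^ 2 ≤ ∫ y in u..(u + 1), f y ^ 2 := by
  obtain ⟨m, hm⟩ : ∃ m, m = ∫ y in u..(u + 1), f y := ⟨_, rfl⟩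
  have h1 : 0 ≤ ∫ y in u..(u + 1), (f y - m) ^ 2 :=
    intervalIntegral.integral_nonneg (by linarith) fun y _ => sq_nonneg _
  have h2 : ∫ y in u..(u + 1), (f y - m) ^ 2 = (∫ y in u..(u + 1), f y ^ 2) - m ^ 2 := by
    have h3 : ∀ y : ℝ, (f y - m) ^ 2 = (f y ^ 2 - 2 * m * f y) + m ^ 2 := fun y => by ring
    have i1 : IntervalIntegrable (fun y => f y ^ 2) volume u (u + 1) := (hf.pow 2).intervalIntegrable _ _
    have i2 : IntervalIntegrable (fun y => 2 * m * f y) volume u (u + 1) :=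
      (continuous_const.mul hf).intervalIntegrable _ _
    have i3 : IntervalIntegrable (fun _ : ℝ => m ^ 2) volume u (u + 1) := continuous_const.intervalIntegrable _ _
    rw [intervalIntegral.integral_congr (fun y _ => h3 y), intervalIntegral.integral_add (i1.sub i2) i3,
      intervalIntegral.integral_sub i1 i2, intervalIntegral.integral_const_mul, intervalIntegral.integral_const, ← hm]
    simp only [add_sub_cancel_left, one_smul]
    ring
  rw [← hm]
  linarith

theorem hal_fin : ∃ C : ℝ, 0 < C ∧ ∀ g : ℕ → ℂ, CMc g → ∀ V L : ℝ, 1 ≤ V → 1 ≤ L →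
    ∫ u in (0 : ℝ)..V, u ^ 2 * ‖Ag g u‖ ^ 2 ≤
      C * ((∫ τ : ℝ, ‖LS (fun n => g n * Real.log n) (1 + 1 / V) τ‖ ^ 2 * Real.exp (-(τ / L) ^ 2)) + V ^ 3 / L ^ 2 + V) := by
  obtain ⟨C, hC, hs⟩ := ag_smooth
  obtain ⟨_, _, hlog⟩ := log_gauss
  refine ⟨24 * C ^ 2, by positivity, ?_⟩
  intro g hg V L hV hL
  have hV0 : 0 < V := by linarith
  have hL0 : 0 < L := by linarith
  have hJi := (hlog g hg V L hV hL).1
  obtain ⟨J, hJ⟩ : ∃ J, J = ∫ τ : ℝ, ‖LS (fun n => g n * Real.log n) (1 + 1 / V) τ‖ ^ 2 * Real.exp (-(τ / L) ^ 2) := ⟨_, rfl⟩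
  have hJ0 : 0 ≤ J := by
    rw [hJ]
    exact integral_nonneg fun τ => by positivity
  rw [← hJ]
  have ha : ∀ n : ℕ, 0 < n → ‖g n * Real.log n‖ ≤ 1 * (1 + Real.log n) ^ 1 := by
    intro n hn
    have hl : 0 ≤ Real.log n := Real.log_natCast_nonneg n
    rw [norm_mul, Complex.norm_real, Real.norm_of_nonneg hl, pow_one, one_mul]
    have := mul_le_mul_of_nonneg_right (hg.bd n hn) hl
    linarith
  obtain ⟨N₀, hN₀⟩ := ls_tendsto ha (show 1 < 1 + 1 / V by
    have : 0 < 1 / V := by positivity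
    linarith) (1 / L) (by positivity)
  obtain ⟨N, hN⟩ : ∃ N, N = max N₀ ⌈Real.exp (V + 1)⌉₊ := ⟨_, rfl⟩
  have hNe : Real.exp (V + 1) ≤ N := by
    refine (Nat.le_ceil _).trans ?_
    rw [hN]
    exact_mod_cast le_max_right _ _
  have hD := hN₀ N (by rw [hN]; exact le_max_left _ _)
  have hexp : (1 : ℝ) - (1 + 1 / V) = -(1 / V) := by ring
  rw [hexp] at hD
  change ∀ τ : ℝ, ‖LS (fun n => g n * Real.log n) (1 + 1 / V) τ - Dp (Icc 1 N) (hc g V) τ‖ ≤ 1 / L at hD
  have hs1 : ∀ n ∈ Icc 1 N, 1 ≤ n := fun n hn => (mem_Icc.1 hn).1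
  -- the integral of the smoothed sums
  have hgid := gauss_id hs1 (hc g V) hL0
  have hgauss : ∫ τ : ℝ, Real.exp (-(τ / L) ^ 2) = L * Real.sqrt Real.pi := by
    have h1 := integral_gaussian (1 / L ^ 2)
    have h2 : ∀ τ : ℝ, Real.exp (-(τ / L) ^ 2) = Real.exp (-(1 / L ^ 2) * τ ^ 2) := by
      intro τ
      congr 1
      field_simp
    rw [funext h2, h1]
    have h3 : Real.pi / (1 / L ^ 2) = L ^ 2 * Real.pi := by
      field_simp
    rw [h3, Real.sqrt_mul (by positivity), Real.sqrt_sq hL0.le]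
  have hgi : Integrable fun τ : ℝ => Real.exp (-(τ / L) ^ 2) := by
    have h1 := integrable_exp_neg_mul_sq (show 0 < 1 / L ^ 2 by positivity)
    refine h1.congr (Filter.Eventually.of_forall fun τ => ?_)
    dsimp only
    congr 1
    field_simp
  have hDJ : ∫ t : ℝ, ‖Dp (Icc 1 N) (hc g V) t‖ ^ 2 * Real.exp (-(t / L) ^ 2) ≤ 2 * J + 4 := by
    have h1 : ∀ t : ℝ, ‖Dp (Icc 1 N) (hc g V) t‖ ^ 2 * Real.exp (-(t / L) ^ 2) ≤
        2 * (‖LS (fun n => g n * Real.log n) (1 + 1 / V) t‖ ^ 2 * Real.exp (-(t / L) ^ 2)) +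
          2 * (1 / L) ^ 2 * Real.exp (-(t / L) ^ 2) := by
      intro t
      have h2 := hD t
      have h3 : ‖Dp (Icc 1 N) (hc g V) t‖ ≤ ‖LS (fun n => g n * Real.log n) (1 + 1 / V) t‖ + 1 / L := by
        have h4 := norm_sub_norm_le (Dp (Icc 1 N) (hc g V) t) (LS (fun n => g n * Real.log n) (1 + 1 / V) t)
        rw [norm_sub_rev] at h4
        linarith
      have h4 : ‖Dp (Icc 1 N) (hc g V) t‖ ^ 2 ≤ 2 * ‖LS (fun n => g n * Real.log n) (1 + 1 / V) t‖ ^ 2 + 2 * (1 / L) ^ 2 := by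
        have h5 := pow_le_pow_left₀ (norm_nonneg _) h3 2
        nlinarith [sq_nonneg (‖LS (fun n => g n * Real.log n) (1 + 1 / V) t‖ - 1 / L)]
      have h5 := mul_le_mul_of_nonneg_right h4 (Real.exp_pos (-(t / L) ^ 2)).le
      linarith
    have h2 := integral_mono (integrable_Dp (Icc 1 N) (hc g V) hL0) ((hJi.const_mul 2).add (hgi.const_mul (2 * (1 / L) ^ 2))) h1
    refine h2.trans ?_
    simp only [Pi.add_apply]
    rw [integral_add (hJi.const_mul 2) (hgi.const_mul (2 * (1 / L) ^ 2)), integral_const_mul, integral_const_mul,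
      hgauss, ← hJ]
    have h3 : 2 * (1 / L) ^ 2 * (L * Real.sqrt Real.pi) = 2 * Real.sqrt Real.pi / L := by
      field_simp
    have h4 : Real.sqrt Real.pi ≤ 2 := by
      rw [Real.sqrt_le_left two_pos.le]
      have := Real.pi_le_four
      linarith
    have h5 : 2 * Real.sqrt Real.pi / L ≤ 4 := by
      rw [div_le_iff₀ hL0]
      nlinarith
    rw [h3]
    linarith
  have hSc : Continuous fun y => ‖Sm (Icc 1 N) (hc g V) L y‖ := (sm_cont _ _ _).norm
  have hwin := hd_window (h := fun y => ‖Sm (Icc 1 N) (hc g V) L y‖ ^ 2) (hSc.pow 2) (fun y => sq_nonneg _)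
    (integrable_Sm hs1 (hc g V) hL0) hV0.le
  -- the pointwise bound
  have hpt : ∀ u ∈ Set.Icc (0 : ℝ) V, u ^ 2 * ‖Ag g u‖ ^ 2 ≤
      2 * C ^ 2 * L ^ 2 * (∫ y in u..(u + 1), ‖Sm (Icc 1 N) (hc g V) L y‖ ^ 2) + 2 * C ^ 2 * (8 + 8 * V ^ 2 / L ^ 2) := by
    intro u hu
    have h1 := hs g hg V L u hV hL hu.1 hu.2 N ((Real.exp_le_exp.2 (by linarith [hu.2])).trans hNe)
    change u * ‖Ag g u‖ ≤ C * (L * ∫ y in u..(u + 1), ‖Sm (Icc 1 N) (hc g V) L y‖) + _ at h1
    have h2 := hd_cs hSc u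
    have h3 : (u + 1) * Real.exp (-u) ≤ 1 := by
      rw [Real.exp_neg, ← div_eq_mul_inv, div_le_one (Real.exp_pos u)]
      exact Real.add_one_le_exp u
    have h4 : 1 + (u + 1) * (1 / L + Real.exp (-u)) ≤ 2 + 2 * V / L := by
      have h5 : (u + 1) * (1 / L) ≤ 2 * V / L := by
        rw [mul_one_div]
        exact div_le_div_of_nonneg_right (by linarith [hu.2]) hL0.le
      rw [mul_add]
      linarith
    have h5 : u * ‖Ag g u‖ ≤ C * (L * ∫ y in u..(u + 1), ‖Sm (Icc 1 N) (hc g V) L y‖) + C * (2 + 2 * V / L) := by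
      have := mul_le_mul_of_nonneg_left h4 hC.le
      linarith
    have h6 : 0 ≤ u * ‖Ag g u‖ := mul_nonneg hu.1 (norm_nonneg _)
    have h7 := pow_le_pow_left₀ h6 h5 2
    have h8 : (C * (L * ∫ y in u..(u + 1), ‖Sm (Icc 1 N) (hc g V) L y‖) + C * (2 + 2 * V / L)) ^ 2 ≤
        2 * C ^ 2 * L ^ 2 * (∫ y in u..(u + 1), ‖Sm (Icc 1 N) (hc g V) L y‖) ^ 2 + 2 * C ^ 2 * (2 + 2 * V / L) ^ 2 := by
      nlinarith [sq_nonneg (C * (L * ∫ y in u..(u + 1), ‖Sm (Icc 1 N) (hc g V) L y‖) - C * (2 + 2 * V / L))]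
    have h9 : (2 + 2 * V / L) ^ 2 ≤ 8 + 8 * V ^ 2 / L ^ 2 := by
      have h10 : 8 * V ^ 2 / L ^ 2 = 2 * (2 * V / L) ^ 2 := by
        field_simp
        ring
      rw [h10]
      nlinarith [sq_nonneg (2 - 2 * V / L)]
    have h10 := mul_le_mul_of_nonneg_left h2 (show 0 ≤ 2 * C ^ 2 * L ^ 2 by positivity)
    have h11 := mul_le_mul_of_nonneg_left h9 (show 0 ≤ 2 * C ^ 2 by positivity)
    rw [mul_pow] at h7
    linarith
  have hRc : Continuous fun u : ℝ => ∫ y in u..(u + 1), ‖Sm (Icc 1 N) (hc g V) L y‖ ^ 2 := by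
    have hii : ∀ a b : ℝ, IntervalIntegrable (fun y => ‖Sm (Icc 1 N) (hc g V) L y‖ ^ 2) volume a b :=
      fun a b => (hSc.pow 2).intervalIntegrable a b
    have h1 := intervalIntegral.continuous_primitive hii 0
    have h2 : (fun u : ℝ => ∫ y in u..(u + 1), ‖Sm (Icc 1 N) (hc g V) L y‖ ^ 2) =
        fun u => (∫ y in (0 : ℝ)..(u + 1), ‖Sm (Icc 1 N) (hc g V) L y‖ ^ 2) -
          ∫ y in (0 : ℝ)..u, ‖Sm (Icc 1 N) (hc g V) L y‖ ^ 2 := by
      funext u
      have := intervalIntegral.integral_add_adjacent_intervals (hii 0 u) (hii u (u + 1))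
      linarith
    rw [h2]
    exact (h1.comp (continuous_id.add continuous_const)).sub h1
  have hRi : IntervalIntegrable (fun u : ℝ => ∫ y in u..(u + 1), ‖Sm (Icc 1 N) (hc g V) L y‖ ^ 2) volume 0 V :=
    hRc.intervalIntegrable _ _
  have hRHS : ∫ u in (0 : ℝ)..V, (2 * C ^ 2 * L ^ 2 * (∫ y in u..(u + 1), ‖Sm (Icc 1 N) (hc g V) L y‖ ^ 2) +
      2 * C ^ 2 * (8 + 8 * V ^ 2 / L ^ 2)) ≤ 24 * C ^ 2 * (J + V ^ 3 / L ^ 2 + V) := by
    rw [intervalIntegral.integral_add (hRi.const_mul _) (continuous_const.intervalIntegrable _ _),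
      intervalIntegral.integral_const_mul, intervalIntegral.integral_const, smul_eq_mul, sub_zero]
    have h1 := mul_le_mul_of_nonneg_left hwin (show 0 ≤ 2 * C ^ 2 * L ^ 2 by positivity)
    have h2 : 2 * C ^ 2 * L ^ 2 * (∫ y : ℝ, ‖Sm (Icc 1 N) (hc g V) L y‖ ^ 2) ≤ 2 * C ^ 2 * (2 * J + 4) := by
      have h3 := mul_le_mul_of_nonneg_left (hgid.le.trans hDJ) (show 0 ≤ 2 * C ^ 2 by positivity)
      linarith
    have h3 : V * (2 * C ^ 2 * (8 + 8 * V ^ 2 / L ^ 2)) = 16 * C ^ 2 * V + 16 * C ^ 2 * (V ^ 3 / L ^ 2) := by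
      field_simp
      ring
    have h4 : 0 ≤ V ^ 3 / L ^ 2 := by positivity
    have h5 : 0 ≤ C ^ 2 := by positivity
    have h6 := mul_nonneg h5 hJ0
    have h7 := mul_nonneg h5 h4
    have h8 := mul_le_mul_of_nonneg_left hV h5
    rw [h3]
    linarith
  by_cases hI : IntervalIntegrable (fun u : ℝ => u ^ 2 * ‖Ag g u‖ ^ 2) volume 0 V
  · refine le_trans (intervalIntegral.integral_mono_on hV0.le hI ?_ hpt) hRHS
    exact (hRi.const_mul _).add (continuous_const.intervalIntegrable _ _)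
  · rw [intervalIntegral.integral_undef hI]
    have h4 : 0 ≤ V ^ 3 / L ^ 2 := by positivity
    positivity

end MRT
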