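import Pool.Agent.MRT.HaC
import Pool.Agent.MRT.HaD

/-!
# MRT-HaE: Halász in mean square

PLAN.  `hal_fin`, `hal_int` (`L₁`, `B = κ' V`): `∫_0^V u² ‖Ag‖² ≤ C (κ'² L₁ + L₁ e^{-L₁²/2} + 1/L₁² + 1/V²) V³ =: ρ V³`.  `∫_{ηV}^V ‖Ag‖² ≤ ρ V/η²`, `∫_0^{ηV} ‖Ag‖² ≤ 4 η V` (`ag_le`).  Choose `η = κ/8`, `L₁` large, `κ'` small, `V₀` large; `L = L₁²`.  (`u ↦ Ag g u` is a step function: measurable, bounded.)
-/

set_option autoImplicit false

namespace MRT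

open MeasureTheory

private theorem hae_mem {n : ℕ} {a b : ℝ} :
    n ∈ Ic a b ↔ Real.exp a < (n : ℝ) ∧ (n : ℝ) ≤ Real.exp b := by
  unfold Ic
  rw [Finset.mem_filter, Finset.mem_range, Nat.lt_succ_iff, Nat.le_floor_iff (Real.exp_pos b).le]
  exact and_comm

private noncomputable def hG (g : ℕ → ℂ) (N : ℕ) (u : ℝ) : ℂ :=
  ∑ n ∈ Finset.range N, if Real.exp u < (n : ℝ) ∧ (n : ℝ) ≤ Real.exp (u + 1) then g n / n else 0

private theorem hG_eq (g : ℕ → ℂ) {N : ℕ} {u V : ℝ} (hN : Real.exp (V + 1) + 1 ≤ N) (hu : u ≤ V) :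
    Ag g u = hG g N u := by
  unfold Ag hG
  rw [← Finset.sum_filter]
  refine Finset.sum_congr ?_ fun _ _ => rfl
  ext n
  rw [hae_mem, Finset.mem_filter, Finset.mem_range]
  constructor
  · intro h
    refine ⟨?_, h⟩
    have h1 : Real.exp (u + 1) ≤ Real.exp (V + 1) := Real.exp_le_exp.mpr (by linarith)
    have h2 : (n : ℝ) < N := by linarith [h.2]
    exact_mod_cast h2
  · exact fun h => h.2

private theorem hG_meas (g : ℕ → ℂ) (N : ℕ) : Measurable (hG g N) := by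
  unfold hG
  refine Finset.measurable_fun_sum _ fun n _ => ?_
  refine Measurable.ite ?_ measurable_const measurable_const
  refine MeasurableSet.inter ?_ ?_
  · exact measurableSet_lt Real.measurable_exp measurable_const
  · exact measurableSet_le measurable_const
      (Real.measurable_exp.comp (measurable_id.add_const 1))

private theorem hint {g : ℕ → ℂ} (hg : CMc g) {a b : ℝ} (hab : a ≤ b) :
    IntervalIntegrable (fun u => ‖Ag g u‖ ^ 2) volume a b := by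
  rw [intervalIntegrable_iff_integrableOn_Ioc_of_le hab]
  obtain ⟨N, hN⟩ := exists_nat_ge (Real.exp (b + 1) + 1)
  have hm : AEStronglyMeasurable (fun u => ‖Ag g u‖ ^ 2) (volume.restrict (Set.Ioc a b)) := by
    have h1 : AEStronglyMeasurable (fun u => ‖hG g N u‖ ^ 2) (volume.restrict (Set.Ioc a b)) :=
      ((hG_meas g N).norm.pow_const 2).aestronglyMeasurable
    refine h1.congr ?_
    refine (ae_restrict_iff' measurableSet_Ioc).mpr (Filter.Eventually.of_forall fun u hu => ?_)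
    show ‖hG g N u‖ ^ 2 = ‖Ag g u‖ ^ 2
    rw [hG_eq g hN hu.2]
  refine Integrable.of_bound hm 4 ?_
  refine Filter.Eventually.of_forall fun u => ?_
  rw [Real.norm_of_nonneg (by positivity)]
  have := ag_le hg u
  nlinarith [norm_nonneg (Ag g u)]

theorem hal_L2 (κ : ℝ) (hκ : 0 < κ) : ∃ κ' : ℝ, 0 < κ' ∧ ∃ L V₀ : ℝ, 1 ≤ L ∧ 1 ≤ V₀ ∧ ∀ V ≥ V₀, ∀ g : ℕ → ℂ, CMc g →
    (∀ τ : ℝ, |τ| ≤ L → ‖LS g (1 + 1 / V) τ‖ ≤ κ' * V) → ∫ u in (0 : ℝ)..V, ‖Ag g u‖ ^ 2 ≤ κ * V := by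
  obtain ⟨C1, hC1, H1⟩ := hal_int
  obtain ⟨C2, hC2, H2⟩ := hal_fin
  obtain ⟨η, hη, hη1, hη8⟩ : ∃ η : ℝ, 0 < η ∧ η ≤ 1 ∧ η ≤ κ / 8 :=
    ⟨min (κ / 8) 1, by positivity, min_le_right _ _, min_le_left _ _⟩
  obtain ⟨δ, hδ⟩ : ∃ δ : ℝ, δ = η ^ 2 * κ / 2 := ⟨_, rfl⟩
  have hδ0 : 0 < δ := by rw [hδ]; positivity
  obtain ⟨L₁, hL1, hL2, hL3⟩ : ∃ L₁ : ℝ, 1 ≤ L₁ ∧ 8 * C1 * C2 / δ ≤ L₁ ∧ 4 * C2 / δ ≤ L₁ :=
    ⟨max 1 (max (8 * C1 * C2 / δ) (4 * C2 / δ)), le_max_left _ _,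
      (le_max_left _ _).trans (le_max_right _ _), (le_max_right _ _).trans (le_max_right _ _)⟩
  have hL0 : 0 < L₁ := by linarith
  have hκ' : 0 < δ / (4 * C1 * C2 * L₁) := by positivity
  refine ⟨Real.sqrt (δ / (4 * C1 * C2 * L₁)), Real.sqrt_pos.mpr hκ', L₁ ^ 2,
    max 1 (4 * C2 / δ), one_le_pow₀ hL1, le_max_left _ _, ?_⟩
  intro V hV g hg hLS
  have hV1 : 1 ≤ V := (le_max_left _ _).trans hV
  have hV2 : 4 * C2 / δ ≤ V := (le_max_right _ _).trans hV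
  have hV0 : 0 < V := by linarith
  set κ' := Real.sqrt (δ / (4 * C1 * C2 * L₁)) with hk
  have hk2 : κ' ^ 2 = δ / (4 * C1 * C2 * L₁) := Real.sq_sqrt hκ'.le
  have h1 := H1 g hg V L₁ (κ' * V) hV1 hL1 (by positivity) hLS
  have h2 := H2 g hg V L₁ hV1 hL1
  -- the four terms
  have hexp : Real.exp (-L₁ ^ 2 / 2) ≤ 2 / L₁ ^ 2 := by
    have e1 : -L₁ ^ 2 / 2 = -(L₁ ^ 2 / 2) := by ring
    rw [e1, Real.exp_neg, inv_le_comm₀ (Real.exp_pos _) (by positivity), inv_div]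
    have := Real.add_one_le_exp (L₁ ^ 2 / 2)
    linarith
  have t1 : C2 * (C1 * ((κ' * V) ^ 2 * L₁ * V)) = δ / 4 * V ^ 3 := by
    rw [mul_pow, hk2]
    field_simp
  have t2 : C2 * (C1 * (L₁ * Real.exp (-L₁ ^ 2 / 2) * V ^ 3)) ≤ δ / 4 * V ^ 3 := by
    have e1 : C2 * (C1 * (L₁ * Real.exp (-L₁ ^ 2 / 2) * V ^ 3)) =
        (C2 * C1 * L₁ * V ^ 3) * Real.exp (-L₁ ^ 2 / 2) := by ring
    rw [e1]
    refine (mul_le_mul_of_nonneg_left hexp (by positivity)).trans ?_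
    have e2 : C2 * C1 * L₁ * V ^ 3 * (2 / L₁ ^ 2) = (8 * C1 * C2 / L₁) / 4 * V ^ 3 := by
      field_simp
      ring
    rw [e2]
    have e3 : 8 * C1 * C2 / L₁ ≤ δ := by
      rw [div_le_iff₀ hL0]
      rw [div_le_iff₀ hδ0] at hL2
      linarith
    have : 0 ≤ V ^ 3 := by positivity
    nlinarith
  have t3 : C2 * (V ^ 3 / L₁ ^ 2) ≤ δ / 4 * V ^ 3 := by
    have e1 : C2 * (V ^ 3 / L₁ ^ 2) = C2 / L₁ ^ 2 * V ^ 3 := by ring
    rw [e1]
    refine mul_le_mul_of_nonneg_right ?_ (by positivity)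
    rw [div_le_iff₀ (by positivity)]
    rw [div_le_iff₀ hδ0] at hL3
    nlinarith [mul_pos hδ0 hL0]
  have t4 : C2 * V ≤ δ / 4 * V ^ 3 := by
    rw [div_le_iff₀ hδ0] at hV2
    have e1 : C2 ≤ δ / 4 * V ^ 2 := by nlinarith [mul_pos hδ0 hV0]
    calc C2 * V ≤ δ / 4 * V ^ 2 * V := mul_le_mul_of_nonneg_right e1 hV0.le
      _ = δ / 4 * V ^ 3 := by ring
  have hX : ∫ u in (0 : ℝ)..V, u ^ 2 * ‖Ag g u‖ ^ 2 ≤ δ * V ^ 3 := by
    refine h2.trans ?_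
    have h3 := mul_le_mul_of_nonneg_left h1 hC2.le
    have e1 : C2 * ((∫ τ : ℝ, ‖LS (fun n => g n * Real.log n) (1 + 1 / V) τ‖ ^ 2 *
        Real.exp (-(τ / L₁) ^ 2)) + V ^ 3 / L₁ ^ 2 + V) =
        C2 * (∫ τ : ℝ, ‖LS (fun n => g n * Real.log n) (1 + 1 / V) τ‖ ^ 2 *
        Real.exp (-(τ / L₁) ^ 2)) + C2 * (V ^ 3 / L₁ ^ 2) + C2 * V := by ring
    have e2 : C2 * (C1 * ((κ' * V) ^ 2 * L₁ * V + L₁ * Real.exp (-L₁ ^ 2 / 2) * V ^ 3)) =
        C2 * (C1 * ((κ' * V) ^ 2 * L₁ * V)) +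
          C2 * (C1 * (L₁ * Real.exp (-L₁ ^ 2 / 2) * V ^ 3)) := by ring
    rw [e2] at h3
    rw [e1]
    linarith
  -- the splitting
  have hηV : 0 ≤ η * V := by positivity
  have hηV' : η * V ≤ V := by nlinarith
  have i1 := hint hg hηV
  have i2 := hint hg hηV'
  have j1 : IntervalIntegrable (fun u => u ^ 2 * ‖Ag g u‖ ^ 2) volume 0 (η * V) :=
    i1.continuousOn_mul (by fun_prop)
  have j2 : IntervalIntegrable (fun u => u ^ 2 * ‖Ag g u‖ ^ 2) volume (η * V) V :=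
    i2.continuousOn_mul (by fun_prop)
  rw [← intervalIntegral.integral_add_adjacent_intervals i1 i2]
  rw [← intervalIntegral.integral_add_adjacent_intervals j1 j2] at hX
  have k1 : ∫ u in (0 : ℝ)..(η * V), ‖Ag g u‖ ^ 2 ≤ 4 * (η * V) := by
    have := intervalIntegral.integral_mono_on hηV i1
      (intervalIntegrable_const (c := (4 : ℝ))) (fun u _ => by
        have := ag_le hg u
        nlinarith [norm_nonneg (Ag g u)])
    refine this.trans ?_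
    rw [intervalIntegral.integral_const, smul_eq_mul]
    linarith
  have k2 : 0 ≤ ∫ u in (0 : ℝ)..(η * V), u ^ 2 * ‖Ag g u‖ ^ 2 :=
    intervalIntegral.integral_nonneg hηV fun u _ => by positivity
  have k3 : ∫ u in (η * V)..V, ‖Ag g u‖ ^ 2 ≤
      ∫ u in (η * V)..V, (1 / (η * V) ^ 2) * (u ^ 2 * ‖Ag g u‖ ^ 2) := by
    refine intervalIntegral.integral_mono_on hηV' i2 (j2.const_mul _) fun u hu => ?_
    have hu1 : η * V ≤ u := hu.1
    have hpos : 0 < η * V := by positivity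
    have h3 : 1 ≤ (1 / (η * V) ^ 2) * u ^ 2 := by
      rw [one_div, ← div_eq_inv_mul, le_div_iff₀ (by positivity), one_mul]
      exact pow_le_pow_left₀ hpos.le hu1 2
    have h4 := mul_le_mul_of_nonneg_right h3 (sq_nonneg ‖Ag g u‖)
    rw [one_mul, mul_assoc] at h4
    exact h4
  rw [intervalIntegral.integral_const_mul] at k3
  have k4 : (1 / (η * V) ^ 2) * ∫ u in (η * V)..V, u ^ 2 * ‖Ag g u‖ ^ 2 ≤
      (1 / (η * V) ^ 2) * (δ * V ^ 3) :=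
    mul_le_mul_of_nonneg_left (by linarith) (by positivity)
  have k5 : (1 / (η * V) ^ 2) * (δ * V ^ 3) = κ / 2 * V := by
    rw [hδ]
    field_simp
  have k6 : 4 * (η * V) ≤ κ / 2 * V := by nlinarith
  linarith

end MRT
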