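import Pool.Agent.MRT.Bas

/-!
# MRT-Spc: spaced sets and discretisation
-/

set_option autoImplicit false

namespace MRT

open Finset MeasureTheory

private theorem gsum {H : ℝ} (hH : 1 ≤ H) (N : ℕ) :
    ∑ m ∈ range (N + 1), 1 / (1 + ((m : ℝ) / H) ^ 2) ≤ 1 + 2 * H - 2 * H ^ 2 / (H + N) := by
  have hH0 : 0 < H := by linarith
  induction N with
  | zero =>
    rw [Finset.sum_range_one]
    have h : 2 * H ^ 2 / (H + ((0 : ℕ) : ℝ)) = 2 * H := by
      rw [Nat.cast_zero, add_zero]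
      field_simp
    rw [h]
    simp
  | succ N ih =>
    rw [Finset.sum_range_succ]
    have hN : (0 : ℝ) ≤ N := Nat.cast_nonneg _
    have h1 : 1 / (1 + (((N + 1 : ℕ) : ℝ) / H) ^ 2) ≤
        2 * H ^ 2 / (H + N) - 2 * H ^ 2 / (H + ((N + 1 : ℕ) : ℝ)) := by
      push_cast
      have e1 : 1 / (1 + (((N : ℝ) + 1) / H) ^ 2) = H ^ 2 / (H ^ 2 + (N + 1) ^ 2) := by
        field_simp
      have e2 : 2 * H ^ 2 / (H + N) - 2 * H ^ 2 / (H + ((N : ℝ) + 1)) =
          2 * H ^ 2 / ((H + N) * (H + (N + 1))) := by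
        field_simp
        ring
      rw [e1, e2, div_le_div_iff₀ (by positivity) (by positivity)]
      have h2 : (H + N) * (H + (N + 1)) ≤ 2 * (H ^ 2 + (N + 1) ^ 2) := by
        nlinarith [sq_nonneg (H - (N + 1))]
      nlinarith [sq_nonneg H, mul_le_mul_of_nonneg_left h2 (sq_nonneg H)]
    linarith

private theorem half_sum {S : Finset ℝ} {f : ℝ → ℝ} (h0 : ∀ a ∈ S, 0 ≤ f a)
    (h1 : ∀ a ∈ S, ∀ b ∈ S, a ≠ b → 1 ≤ |f a - f b|) {H : ℝ} (hH : 1 ≤ H) :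
    ∑ a ∈ S, 1 / (1 + (f a / H) ^ 2) ≤ 3 * H := by
  have hH0 : 0 < H := by linarith
  have hinj : ∀ a ∈ S, ∀ b ∈ S, ⌊f a⌋₊ = ⌊f b⌋₊ → a = b := by
    intro a ha b hb hab
    by_contra hne
    have h2 := h1 a ha b hb hne
    have h3 := Nat.floor_le (h0 a ha)
    have h4 := Nat.floor_le (h0 b hb)
    have h5 := Nat.lt_floor_add_one (f a)
    have h6 := Nat.lt_floor_add_one (f b)
    rw [hab] at h3 h5
    have h7 : |f a - f b| < 1 := by
      rw [abs_lt]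
      constructor <;> linarith
    linarith
  have h2 : ∑ a ∈ S, 1 / (1 + (f a / H) ^ 2) ≤ ∑ a ∈ S, 1 / (1 + ((⌊f a⌋₊ : ℝ) / H) ^ 2) := by
    refine Finset.sum_le_sum fun a ha => ?_
    have h3 := Nat.floor_le (h0 a ha)
    refine one_div_le_one_div_of_le (by positivity) ?_
    have h4 : (⌊f a⌋₊ : ℝ) / H ≤ f a / H := div_le_div_of_nonneg_right h3 hH0.le
    have h5 : 0 ≤ (⌊f a⌋₊ : ℝ) / H := by positivity
    nlinarith
  have h3 : ∑ a ∈ S, 1 / (1 + ((⌊f a⌋₊ : ℝ) / H) ^ 2) =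
      ∑ m ∈ S.image (fun a => ⌊f a⌋₊), 1 / (1 + ((m : ℝ) / H) ^ 2) := by
    rw [Finset.sum_image hinj]
  obtain ⟨N, hN⟩ : ∃ N : ℕ, ∀ m ∈ S.image (fun a => ⌊f a⌋₊), m ≤ N :=
    ⟨(S.image (fun a => ⌊f a⌋₊)).sup id, fun m hm => Finset.le_sup (f := id) hm⟩
  have h4 : ∑ m ∈ S.image (fun a => ⌊f a⌋₊), 1 / (1 + ((m : ℝ) / H) ^ 2) ≤
      ∑ m ∈ range (N + 1), 1 / (1 + ((m : ℝ) / H) ^ 2) := by
    refine Finset.sum_le_sum_of_subset_of_nonneg ?_ fun m _ _ => by positivity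
    intro m hm
    exact Finset.mem_range.2 (Nat.lt_succ_of_le (hN m hm))
  have h5 := gsum hH N
  have h6 : 0 ≤ 2 * H ^ 2 / (H + N) := by positivity
  rw [h3] at h2
  linarith

theorem sp_sum : ∃ C : ℝ, 0 < C ∧ ∀ (𝒯 : Finset ℝ), Sp 𝒯 → ∀ H t : ℝ, 1 ≤ H → ∑ t' ∈ 𝒯, 1 / (1 + ((t - t') / H) ^ 2) ≤ C * H := by
  classical
  refine ⟨6, by norm_num, fun 𝒯 h𝒯 H t hH => ?_⟩
  rw [← Finset.sum_filter_add_sum_filter_not 𝒯 (fun x => x ≤ t)]
  have h1 := half_sum (S := 𝒯.filter (fun x => x ≤ t)) (f := fun x => t - x)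
    (fun a ha => sub_nonneg.2 (Finset.mem_filter.1 ha).2) (fun a ha b hb hab => by
      have h := h𝒯 a (Finset.mem_filter.1 ha).1 b (Finset.mem_filter.1 hb).1 hab
      have e : t - a - (t - b) = -(a - b) := by ring
      rw [e, abs_neg]
      exact h) hH
  have h2 := half_sum (S := 𝒯.filter (fun x => ¬ x ≤ t)) (f := fun x => x - t)
    (fun a ha => sub_nonneg.2 (not_le.1 (Finset.mem_filter.1 ha).2).le) (fun a ha b hb hab => by
      have h := h𝒯 a (Finset.mem_filter.1 ha).1 b (Finset.mem_filter.1 hb).1 hab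
      have e : a - t - (b - t) = a - b := by ring
      rw [e]
      exact h) hH
  have h3 : ∑ x ∈ 𝒯.filter (fun x => ¬ x ≤ t), 1 / (1 + ((t - x) / H) ^ 2) =
      ∑ x ∈ 𝒯.filter (fun x => ¬ x ≤ t), 1 / (1 + ((x - t) / H) ^ 2) := by
    refine Finset.sum_congr rfl fun x _ => ?_
    congr 2
    rw [div_pow, div_pow]
    congr 1
    ring
  rw [h3]
  linarith

theorem sp_card {𝒯 : Finset ℝ} (h : Sp 𝒯) {T : ℝ} (hT : 0 ≤ T) (h' : ∀ t ∈ 𝒯, |t| ≤ T) : (𝒯.card : ℝ) ≤ 2 * T + 2 := by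
  have hinj : ∀ a ∈ 𝒯, ∀ b ∈ 𝒯, ⌊a + T⌋₊ = ⌊b + T⌋₊ → a = b := by
    intro a ha b hb hab
    by_contra hne
    have h2 := h a ha b hb hne
    have ha0 := (abs_le.1 (h' a ha)).1
    have hb0 := (abs_le.1 (h' b hb)).1
    have h3 := Nat.floor_le (show 0 ≤ a + T by linarith)
    have h4 := Nat.floor_le (show 0 ≤ b + T by linarith)
    have h5 := Nat.lt_floor_add_one (a + T)
    have h6 := Nat.lt_floor_add_one (b + T)
    rw [hab] at h3 h5
    have h7 : |a - b| < 1 := by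
      rw [abs_lt]
      constructor <;> linarith
    linarith
  have h1 : 𝒯.card ≤ (range (⌊2 * T⌋₊ + 1)).card := by
    refine Finset.card_le_card_of_injOn (fun a => ⌊a + T⌋₊) ?_ hinj
    intro a ha
    have ha1 := (abs_le.1 (h' a ha)).2
    refine Finset.mem_coe.2 (Finset.mem_range.2 (Nat.lt_succ_of_le ?_))
    exact Nat.floor_le_floor (by linarith)
  rw [Finset.card_range] at h1
  have h2 : (𝒯.card : ℝ) ≤ ((⌊2 * T⌋₊ + 1 : ℕ) : ℝ) := by exact_mod_cast h1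
  push_cast at h2
  have h3 := Nat.floor_le (show 0 ≤ 2 * T by linarith)
  linarith

private theorem pick {U : Set ℝ} (hU : MeasurableSet U) {B : ℝ → ℂ} (hB : Continuous B) (n : ℤ)
    (hc : 0 < ∫ t in U ∩ Set.Ico (n : ℝ) (n + 1), ‖B t‖ ^ 2) :
    ∃ t ∈ U ∩ Set.Ico (n : ℝ) (n + 1), ∫ t in U ∩ Set.Ico (n : ℝ) (n + 1), ‖B t‖ ^ 2 ≤ ‖B t‖ ^ 2 := by
  set s := U ∩ Set.Ico (n : ℝ) (n + 1) with hs
  have hsI : s ⊆ Set.Ico (n : ℝ) (n + 1) := Set.inter_subset_right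
  have hv : volume s ≤ 1 := by
    refine (measure_mono hsI).trans ?_
    rw [Real.volume_Ico]
    simp
  have hfin : volume s ≠ ⊤ := (lt_of_le_of_lt hv (by simp)).ne
  have h0 : volume s ≠ 0 := by
    intro h
    have : ∫ t in s, ‖B t‖ ^ 2 = 0 := by
      rw [Measure.restrict_eq_zero.2 h]
      simp
    linarith
  have hint : IntegrableOn (fun t => ‖B t‖ ^ 2) s := by
    refine IntegrableOn.mono_set ?_ (hsI.trans Set.Ico_subset_Icc_self)
    exact ((hB.norm.pow 2).continuousOn).integrableOn_Icc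
  obtain ⟨x, hx, hle⟩ := exists_setAverage_le h0 hfin hint
  refine ⟨x, hx, le_trans ?_ hle⟩
  rw [setAverage_eq, smul_eq_mul]
  have hr1 : volume.real s ≤ 1 := by
    have := ENNReal.toReal_mono (by simp) hv
    simpa [Measure.real] using this
  have hr0 : 0 < volume.real s := ENNReal.toReal_pos h0 hfin
  have hr2 : 1 ≤ (volume.real s)⁻¹ := (one_le_inv₀ hr0).2 hr1
  nlinarith

theorem sp_int {U : Set ℝ} (hU : MeasurableSet U) {T : ℝ} (hT : U ⊆ Set.Icc (-T) T) {B : ℝ → ℂ} (hB : Continuous B) {M : ℝ}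
    (h : ∀ 𝒯 : Finset ℝ, Sp 𝒯 → (∀ t ∈ 𝒯, t ∈ U) → ∑ t ∈ 𝒯, ‖B t‖ ^ 2 ≤ M) : ∫ t in U, ‖B t‖ ^ 2 ≤ 2 * M := by
  classical
  set c : ℤ → ℝ := fun n => ∫ t in U ∩ Set.Ico (n : ℝ) (n + 1), ‖B t‖ ^ 2 with hc
  have hc0 : ∀ n, 0 ≤ c n := fun n => integral_nonneg fun t => by positivity
  have hpick : ∀ n : ℤ, ∃ t : ℝ, 0 < c n → t ∈ U ∩ Set.Ico (n : ℝ) (n + 1) ∧ c n ≤ ‖B t‖ ^ 2 := by
    intro n
    by_cases hn : 0 < c n
    · obtain ⟨t, h1, h2⟩ := pick hU hB n hn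
      exact ⟨t, fun _ => ⟨h1, h2⟩⟩
    · exact ⟨0, fun h' => absurd h' hn⟩
  choose t ht using hpick
  obtain ⟨K, hK⟩ : ∃ K : ℤ, T + 1 ≤ K := ⟨⌈T + 1⌉, Int.le_ceil _⟩
  set I : Finset ℤ := Finset.Ico (-K) K with hI
  have hUeq : U = ⋃ n ∈ I, U ∩ Set.Ico (n : ℝ) (n + 1) := by
    ext x
    simp only [Set.mem_iUnion, Set.mem_inter_iff, exists_prop]
    constructor
    · intro hx
      obtain ⟨h1, h2⟩ := hT hx
      refine ⟨⌊x⌋, ?_, hx, Int.floor_le x, Int.lt_floor_add_one x⟩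
      rw [hI, Finset.mem_Ico]
      constructor
      · refine Int.le_floor.2 ?_
        push_cast
        linarith
      · refine Int.floor_lt.2 ?_
        linarith
    · rintro ⟨n, _, hx, _⟩
      exact hx
  have hsum : ∫ t in U, ‖B t‖ ^ 2 = ∑ n ∈ I, c n := by
    have h1 := integral_biUnion_finset (μ := volume) (f := fun t => ‖B t‖ ^ 2) I
      (s := fun n : ℤ => U ∩ Set.Ico (n : ℝ) (n + 1))
      (fun n _ => hU.inter measurableSet_Ico) (by
        intro n _ m _ hnm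
        rw [Function.onFun, Set.disjoint_left]
        rintro x ⟨_, hx1, hx2⟩ ⟨_, hx3, hx4⟩
        apply hnm
        have h5 : (n : ℝ) < (m : ℝ) + 1 := lt_of_le_of_lt hx1 hx4
        have h6 : (m : ℝ) < (n : ℝ) + 1 := lt_of_le_of_lt hx3 hx2
        have h7 : n < m + 1 := by exact_mod_cast h5
        have h8 : m < n + 1 := by exact_mod_cast h6
        omega) (fun n _ => by
        refine IntegrableOn.mono_set ?_
          (Set.inter_subset_right.trans Set.Ico_subset_Icc_self)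
        exact ((hB.norm.pow 2).continuousOn).integrableOn_Icc)
    rw [← hUeq] at h1
    exact h1
  have hpar : ∀ r : ℤ, ∑ n ∈ I.filter (fun n => n % 2 = r), c n ≤ M := by
    intro r
    have h1 : ∑ n ∈ I.filter (fun n => n % 2 = r), c n =
        ∑ n ∈ (I.filter (fun n => n % 2 = r)).filter (fun n => 0 < c n), c n := by
      rw [Finset.sum_filter (p := fun n => 0 < c n)]
      refine Finset.sum_congr rfl fun n _ => ?_
      split_ifs with h2
      · rfl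
      · exact le_antisymm (not_lt.1 h2) (hc0 n)
    rw [h1]
    set E := (I.filter (fun n => n % 2 = r)).filter (fun n => 0 < c n) with hE
    have hsp : ∀ n ∈ E, ∀ m ∈ E, n ≠ m → 1 ≤ |t n - t m| := by
      intro n hn m hm hnm
      obtain ⟨hn1, hn2⟩ := Finset.mem_filter.1 hn
      obtain ⟨hm1, hm2⟩ := Finset.mem_filter.1 hm
      have hn3 := (Finset.mem_filter.1 hn1).2
      have hm3 := (Finset.mem_filter.1 hm1).2
      obtain ⟨⟨_, a1, a2⟩, _⟩ := ht n hn2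
      obtain ⟨⟨_, b1, b2⟩, _⟩ := ht m hm2
      rcases lt_or_gt_of_ne hnm with hlt | hlt
      · have h3 : n + 2 ≤ m := by omega
        have h4 : (n : ℝ) + 2 ≤ m := by exact_mod_cast h3
        rw [abs_sub_comm]
        refine le_trans ?_ (le_abs_self _)
        linarith
      · have h3 : m + 2 ≤ n := by omega
        have h4 : (m : ℝ) + 2 ≤ n := by exact_mod_cast h3
        refine le_trans ?_ (le_abs_self _)
        linarith
    have hinj : ∀ n ∈ E, ∀ m ∈ E, t n = t m → n = m := by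
      intro n hn m hm hnm
      by_contra hne
      have h3 := hsp n hn m hm hne
      rw [hnm, sub_self, abs_zero] at h3
      linarith
    have h2 : ∑ n ∈ E, c n ≤ ∑ n ∈ E, ‖B (t n)‖ ^ 2 :=
      Finset.sum_le_sum fun n hn => (ht n (Finset.mem_filter.1 hn).2).2
    refine h2.trans ?_
    have h3 : ∑ n ∈ E, ‖B (t n)‖ ^ 2 = ∑ x ∈ E.image t, ‖B x‖ ^ 2 := by
      rw [Finset.sum_image hinj]
    rw [h3]
    refine h _ ?_ ?_
    · intro x hx y hy hxy
      obtain ⟨n, hn, rfl⟩ := Finset.mem_image.1 hx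
      obtain ⟨m, hm, rfl⟩ := Finset.mem_image.1 hy
      refine hsp n hn m hm ?_
      rintro rfl
      exact hxy rfl
    · intro x hx
      obtain ⟨n, hn, rfl⟩ := Finset.mem_image.1 hx
      exact (ht n (Finset.mem_filter.1 hn).2).1.1
  have hsplit : ∑ n ∈ I, c n = ∑ n ∈ I.filter (fun n => n % 2 = 0), c n +
      ∑ n ∈ I.filter (fun n => n % 2 = 1), c n := by
    rw [← Finset.sum_filter_add_sum_filter_not I (fun n => n % 2 = 0)]
    congr 1
    refine Finset.sum_congr ?_ fun _ _ => rfl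
    ext n
    rw [Finset.mem_filter, Finset.mem_filter]
    have : ¬ n % 2 = 0 ↔ n % 2 = 1 := by omega
    rw [this]
  rw [hsum, hsplit]
  have h1 := hpar 0
  have h2 := hpar 1
  linarith

theorem sp_meas {U : Set ℝ} (hU : MeasurableSet U) {T : ℝ} (hT : U ⊆ Set.Icc (-T) T) {R : ℝ}
    (h : ∀ 𝒯 : Finset ℝ, Sp 𝒯 → (∀ t ∈ 𝒯, t ∈ U) → (𝒯.card : ℝ) ≤ R) : (volume U).toReal ≤ 2 * R := by
  have h1 := sp_int hU hT (B := fun _ => (1 : ℂ)) continuous_const (M := R) (by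
    intro 𝒯 h2 h3
    have h4 := h 𝒯 h2 h3
    simpa using h4)
  simpa [Measure.real] using h1

end MRT
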