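import Pool.Agent.MRT.KkB
import Pool.Agent.MRT.Dua
import Pool.Agent.MRT.Spc

/-!
# MRT-Hmi: large values, integers
-/

set_option autoImplicit false

namespace MRT

open Finset

theorem hmi : ∃ C : ℝ, 0 < C ∧ ∀ x Y : ℝ, 0 ≤ x → 0 ≤ Y → 2 * Y ≤ Real.exp (3 * x / 2) → ∀ 𝒯 : Finset ℝ, Sp 𝒯 → (∀ t ∈ 𝒯, |t| ≤ Y) → ∀ a : ℕ → ℂ,
    ∑ t ∈ 𝒯, ‖Dp (Ic x (x + 1)) a t‖ ^ 2 ≤
      C * (1 + 𝒯.card * (Real.exp (-x / 2) + √Y * Real.exp (-x))) * ∑ n ∈ Ic x (x + 1), ‖a n‖ ^ 2 / n := by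
  obtain ⟨C0, hC0, hk⟩ := kk_hmi
  obtain ⟨C1, hC1, hs⟩ := sp_sum
  refine ⟨C0 * (C1 + 2), by positivity, ?_⟩
  intro x Y hx hY hYx 𝒯 hT hTY a
  have hE : 0 ≤ 𝒯.card * (Real.exp (-x / 2) + √Y * Real.exp (-x)) := by positivity
  refine dual (Ic x (x + 1)) (Ic (x + 1 / 2 - 3) (x + 1 / 2 + 3))
    (fun n => trw 1 (x + 1 / 2) (Real.log n) / n) a 𝒯 (by positivity) ?_ ?_ ?_ ?_
  · intro n _
    exact div_nonneg (trw_nonneg _ _ _) (Nat.cast_nonneg n)
  · intro n hn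
    rw [mem_Ic] at hn ⊢
    refine ⟨lt_of_le_of_lt (Real.exp_le_exp.2 (by linarith)) hn.1,
      hn.2.trans (Real.exp_le_exp.2 (by linarith))⟩
  · intro n hn
    have h1 := one_le_of_mem hn
    rw [mem_Ic_log h1] at hn
    refine div_le_div_of_nonneg_right ?_ (Nat.cast_nonneg n)
    unfold trw
    refine le_max_of_le_right ?_
    have h2 : |1 * (Real.log n - (x + 1 / 2))| ≤ 1 / 2 := by
      rw [one_mul, abs_le]
      constructor <;> linarith [hn.1, hn.2]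
    linarith
  · intro t ht
    have h1 : ∀ t' ∈ 𝒯, ‖∑ n ∈ Ic (x + 1 / 2 - 3) (x + 1 / 2 + 3),
        ((trw 1 (x + 1 / 2) (Real.log n) / n : ℝ) : ℂ) * cp n (t - t')‖ ≤
        C0 * (1 / (1 + ((t - t') / 1) ^ 2)) +
          C0 * (Real.exp (-x / 2) + 2 * (√Y * Real.exp (-x))) := by
      intro t' ht'
      have h2 : |t - t'| ≤ 2 * Y := by
        have h3 := abs_sub t t'
        have h4 := hTY t ht
        have h5 := hTY t' ht'
        linarith
      have h3 := hk (x + 1 / 2) (t - t') (by linarith)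
        (h2.trans (hYx.trans (Real.exp_le_exp.2 (by linarith))))
      refine h3.trans ?_
      rw [← mul_add]
      refine mul_le_mul_of_nonneg_left ?_ hC0.le
      have h4 : Real.exp (-(x + 1 / 2) / 2) ≤ Real.exp (-x / 2) :=
        Real.exp_le_exp.2 (by linarith)
      have h5 : √|t - t'| * Real.exp (-(x + 1 / 2)) ≤ 2 * (√Y * Real.exp (-x)) := by
        have h6 : √|t - t'| ≤ 2 * √Y := by
          rw [Real.sqrt_le_left (by positivity), mul_pow, Real.sq_sqrt hY]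
          linarith
        have h7 : Real.exp (-(x + 1 / 2)) ≤ Real.exp (-x) := Real.exp_le_exp.2 (by linarith)
        calc √|t - t'| * Real.exp (-(x + 1 / 2)) ≤ (2 * √Y) * Real.exp (-x) :=
              mul_le_mul h6 h7 (Real.exp_pos _).le (by positivity)
          _ = 2 * (√Y * Real.exp (-x)) := by ring
      rw [div_one]
      linarith
    refine (Finset.sum_le_sum h1).trans ?_
    rw [Finset.sum_add_distrib, Finset.sum_const, nsmul_eq_mul, ← Finset.mul_sum]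
    have h2 := hs 𝒯 hT 1 t le_rfl
    have h3 : C0 * ∑ t' ∈ 𝒯, 1 / (1 + ((t - t') / 1) ^ 2) ≤ C0 * (C1 * 1) :=
      mul_le_mul_of_nonneg_left h2 hC0.le
    have h4 : (𝒯.card : ℝ) * (C0 * (Real.exp (-x / 2) + 2 * (√Y * Real.exp (-x)))) ≤
        C0 * 2 * (𝒯.card * (Real.exp (-x / 2) + √Y * Real.exp (-x))) := by
      have h5 : Real.exp (-x / 2) + 2 * (√Y * Real.exp (-x)) ≤
          2 * (Real.exp (-x / 2) + √Y * Real.exp (-x)) := by
        have := Real.exp_pos (-x / 2)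
        linarith
      have h6 : 0 ≤ (𝒯.card : ℝ) * C0 := by positivity
      calc (𝒯.card : ℝ) * (C0 * (Real.exp (-x / 2) + 2 * (√Y * Real.exp (-x)))) =
            (𝒯.card * C0) * (Real.exp (-x / 2) + 2 * (√Y * Real.exp (-x))) := by ring
        _ ≤ (𝒯.card * C0) * (2 * (Real.exp (-x / 2) + √Y * Real.exp (-x))) :=
            mul_le_mul_of_nonneg_left h5 h6
        _ = _ := by ring
    have h7 : 0 ≤ C0 * C1 * (𝒯.card * (Real.exp (-x / 2) + √Y * Real.exp (-x))) := by positivity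
    have h8 : C0 * (C1 + 2) * (1 + 𝒯.card * (Real.exp (-x / 2) + √Y * Real.exp (-x))) =
        C0 * (C1 * 1) + C0 * 2 * (𝒯.card * (Real.exp (-x / 2) + √Y * Real.exp (-x))) +
          C0 * C1 * (𝒯.card * (Real.exp (-x / 2) + √Y * Real.exp (-x))) + 2 * C0 := by ring
    rw [h8]
    linarith

end MRT
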