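import Pool.Agent.MRT.BrT
import Pool.Agent.MRT.Dua
import Pool.Agent.MRT.Spc

/-!
# MRT-Hmp: large values, primes

Duality with the sieve weights of `sieve_sum`.
-/

set_option autoImplicit false

namespace MRT

open Finset

private theorem hp_cell {H c p : ℕ} (hH : 1 ≤ H) (hc : 1 ≤ c) (hp : p ∈ Cl H c) {x c₁ : ℝ}
    (hx : x = ((c : ℝ) + 1 / 2) / H) (hc₁ : c₁ ≤ 1 / 8) {ρ : ℕ → ℝ} (hρ1 : ρ 1 = 1)
    (hρ : ∀ d : ℕ, Real.exp (c₁ * x) < d → ρ d = 0) :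
    p ∈ Ic (x - 3) (x + 3) ∧
      1 / (p : ℝ) ≤ (∑ d ∈ p.divisors, ρ d) ^ 2 * (trw H x (Real.log p) / p) := by
  have hH0 : (1 : ℝ) ≤ H := by exact_mod_cast hH
  have hHp : (0 : ℝ) < H := by linarith
  have hc0 : (1 : ℝ) ≤ c := by exact_mod_cast hc
  unfold Cl at hp
  rw [Finset.mem_filter] at hp
  obtain ⟨hp1, hp2⟩ := hp
  have hpp : 1 ≤ p := hp2.one_lt.le
  have hp0 : (0 : ℝ) < p := by exact_mod_cast hpp
  have hl := (mem_Ic_log hpp).1 hp1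
  have hHx : H * x = c + 1 / 2 := by rw [hx]; field_simp
  have l1 : (c : ℝ) < H * Real.log p := by
    have := hl.1
    rw [div_lt_iff₀ hHp] at this
    linarith
  have l2 : H * Real.log p ≤ (c : ℝ) + 1 := by
    have := hl.2
    rw [le_div_iff₀ hHp] at this
    linarith
  constructor
  · rw [mem_Ic_log hpp]
    constructor
    · by_contra hcon
      push Not at hcon
      have : H * Real.log p ≤ H * (x - 3) := mul_le_mul_of_nonneg_left hcon hHp.le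
      nlinarith
    · by_contra hcon
      push Not at hcon
      have : H * (x + 3) ≤ H * Real.log p := mul_le_mul_of_nonneg_left hcon.le hHp.le
      nlinarith
  · have h1 : ρ p = 0 := by
      apply hρ
      have h2 : c₁ * x ≤ (c : ℝ) / H := by
        have hx0 : 0 ≤ x := by rw [hx]; positivity
        have h3 : c₁ * x ≤ 1 / 8 * x := mul_le_mul_of_nonneg_right hc₁ hx0
        have h4 : 1 / 8 * x ≤ (c : ℝ) / H := by
          rw [hx, le_div_iff₀ hHp]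
          have h5 : 1 / 8 * (((c : ℝ) + 1 / 2) / H) * H = 1 / 8 * ((c : ℝ) + 1 / 2) := by field_simp
          rw [h5]
          linarith
        linarith
      exact lt_of_le_of_lt (Real.exp_le_exp.2 h2) (mem_Ic.1 hp1).1
    have h2 : ∑ d ∈ p.divisors, ρ d = 1 := by
      rw [hp2.sum_divisors, h1, hρ1]
      ring
    have h3 : 1 ≤ trw H x (Real.log p) := by
      unfold trw
      refine le_max_of_le_right ?_
      have h4 : |H * (Real.log p - x)| ≤ 1 := by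
        rw [abs_le]
        constructor <;> linarith
      linarith
    rw [h2, one_pow, one_mul]
    exact div_le_div_of_nonneg_right h3 hp0.le

theorem hmp (ε θ : ℝ) (hε : 0 < ε) (hθ : 0 < θ) (H : ℕ) (hH : 1 ≤ H) : ∃ R : ℝ, 0 < R ∧ ∃ v₀ : ℝ, ∀ v ≥ v₀, ∀ f : ℕ → ℝ, CMr f → ∀ c : ℕ,
    ε * v * H ≤ c → (c : ℝ) ≤ v * H → ∀ 𝒯 : Finset ℝ, Sp 𝒯 → (∀ t ∈ 𝒯, |t| ≤ Real.exp v ∧ θ / c ≤ ‖Qc f H c t‖) → (𝒯.card : ℝ) ≤ R := by
  obtain ⟨C₂, hC₂, hsp⟩ := sp_sum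
  obtain ⟨C₀, hC₀, hsv⟩ := sieve_sum
  obtain ⟨C₁, hC₁, hbr⟩ := brun
  obtain ⟨K, hK⟩ : ∃ K : ℕ, 2 / ε ≤ K := ⟨⌈2 / ε⌉₊, Nat.le_ceil _⟩
  have hK2 : 2 ≤ K * ε := by rwa [div_le_iff₀ hε] at hK
  obtain ⟨c₁, hc₁, hc₁', hsv⟩ := hsv K
  have hH0 : (1 : ℝ) ≤ H := by exact_mod_cast hH
  have hHp : (0 : ℝ) < H := by linarith
  obtain ⟨x₀, hx₀, hsv⟩ := hsv H hH0
  obtain ⟨c₀, hc₀, hbr⟩ := hbr H hH
  obtain ⟨X, hX⟩ : ∃ X : ℝ, X = 4 * C₁ * H / (c₁ ^ 2 * θ ^ 2) := ⟨_, rfl⟩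
  have hX0 : 0 < X := by rw [hX]; positivity
  refine ⟨2 * C₁ * C₀ * C₂ * H / (c₁ * θ ^ 2), by positivity, 1 + (c₀ + x₀ + X) / ε, ?_⟩
  intro v hv f hf c hc1 hc2 𝒯 hT hQ
  have hq0 : 0 ≤ (c₀ + x₀ + X) / ε := by positivity
  have hv1 : 1 ≤ v := by linarith
  have hεv : c₀ + x₀ + X ≤ ε * v := by
    have h1 : (c₀ + x₀ + X) / ε ≤ v := by linarith
    rw [div_le_iff₀ hε] at h1
    linarith
  have hεv0 : 0 < ε * v := by positivity
  have hcv : ε * v ≤ c := by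
    refine le_trans ?_ hc1
    exact le_mul_of_one_le_right hεv0.le hH0
  have hcc : c₀ ≤ c := by
    have h1 : (c₀ : ℝ) ≤ c := by linarith
    exact_mod_cast h1
  have hc1' : 1 ≤ c := hc₀.trans hcc
  have hcp : (0 : ℝ) < c := by exact_mod_cast hc1'
  obtain ⟨x, hx⟩ : ∃ x : ℝ, x = ((c : ℝ) + 1 / 2) / H := ⟨_, rfl⟩
  have hxc : (c : ℝ) / H ≤ x := by
    rw [hx]
    exact div_le_div_of_nonneg_right (by linarith) hHp.le
  have hcxH : (c : ℝ) ≤ x * H := by rwa [div_le_iff₀ hHp] at hxc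
  have hxv : ε * v ≤ x := by
    refine le_trans ?_ hxc
    rw [le_div_iff₀ hHp]
    exact hc1
  have hxx : x₀ ≤ x := by
    have : (0 : ℝ) ≤ c₀ := Nat.cast_nonneg _
    linarith
  have hxX : X ≤ x := by
    have : (0 : ℝ) ≤ c₀ := Nat.cast_nonneg _
    linarith
  have hxp : 0 < x := by linarith
  obtain ⟨ρ, hρ1, hρ, hSS⟩ := hsv x hxx
  -- the kernel
  have hker : ∀ t ∈ 𝒯, ∀ t' ∈ 𝒯, ‖SS ρ H x (t - t')‖ ≤
      C₀ / (c₁ * x) * (1 / H) / (1 + ((t - t') / H) ^ 2) + Real.exp (-c₁ * x) := by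
    intro t ht t' ht'
    apply hSS
    have h1 : |t - t'| ≤ 2 * Real.exp v := by
      have := abs_sub t t'
      have h2 := (hQ t ht).1
      have h3 := (hQ t' ht').1
      linarith
    have h2 : 2 ≤ Real.exp v := by
      have := Real.add_one_le_exp v
      linarith
    have h3 : 2 * Real.exp v ≤ Real.exp (2 * v) := by
      have h4 : Real.exp (2 * v) = Real.exp v * Real.exp v := by rw [← Real.exp_add]; ring_nf
      rw [h4]
      exact mul_le_mul_of_nonneg_right h2 (Real.exp_pos v).le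
    have h4 : Real.exp (2 * v) ≤ Real.exp (K * x) := by
      apply Real.exp_le_exp.2
      have h5 : (K : ℝ) * (ε * v) ≤ K * x := mul_le_mul_of_nonneg_left hxv (Nat.cast_nonneg _)
      have h6 : 2 * v ≤ (K * ε) * v := mul_le_mul_of_nonneg_right hK2 (by linarith)
      nlinarith
    linarith
  obtain ⟨M, hM⟩ : ∃ M : ℝ, M = C₀ * C₂ / (c₁ * x) + 𝒯.card * Real.exp (-c₁ * x) := ⟨_, rfl⟩
  have hM0 : 0 ≤ M := by rw [hM]; positivity
  have hrow : ∀ t ∈ 𝒯, ∑ t' ∈ 𝒯, ‖SS ρ H x (t - t')‖ ≤ M := by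
    intro t ht
    refine (Finset.sum_le_sum fun t' ht' => hker t ht t' ht').trans ?_
    rw [Finset.sum_add_distrib, Finset.sum_const, nsmul_eq_mul, hM]
    refine add_le_add ?_ le_rfl
    have h1 : ∀ t' ∈ 𝒯, C₀ / (c₁ * x) * (1 / H) / (1 + ((t - t') / H) ^ 2) =
        (C₀ / (c₁ * x) * (1 / H)) * (1 / (1 + ((t - t') / H) ^ 2)) := by
      intro t' _
      ring
    rw [Finset.sum_congr rfl h1, ← Finset.mul_sum]
    refine (mul_le_mul_of_nonneg_left (hsp 𝒯 hT H t hH0) (by positivity)).trans (le_of_eq ?_)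
    field_simp
  have hd := dual (Cl H c) (Ic (x - 3) (x + 3))
    (fun n => (∑ d ∈ n.divisors, ρ d) ^ 2 * (trw H x (Real.log n) / n)) (fun n => (f n : ℂ)) 𝒯 hM0
    (fun n _ => mul_nonneg (sq_nonneg _) (div_nonneg (le_max_left _ _) (Nat.cast_nonneg _)))
    (fun p hp => (hp_cell hH hc1' hp hx hc₁' hρ1 hρ).1)
    (fun p hp => (hp_cell hH hc1' hp hx hc₁' hρ1 hρ).2) hrow
  have hN : ∑ n ∈ Cl H c, ‖(f n : ℂ)‖ ^ 2 / n ≤ C₁ / c := by
    refine le_trans (le_of_eq ?_) (hbr c hcc)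
    unfold Ws
    refine Finset.sum_congr rfl fun n hn => ?_
    have hn0 : 0 < n := by
      unfold Cl at hn
      exact (Finset.mem_filter.1 hn).2.pos
    have h1 : ‖(f n : ℂ)‖ = 1 := by
      rw [Complex.norm_real]
      rcases hf.sgn n hn0 with h | h <;> rw [h] <;> simp
    rw [h1, one_pow]
  have hlow : 𝒯.card * (θ / c) ^ 2 ≤ ∑ t ∈ 𝒯, ‖Dp (Cl H c) (fun n => (f n : ℂ)) t‖ ^ 2 := by
    rw [← nsmul_eq_mul, ← Finset.sum_const]
    refine Finset.sum_le_sum fun t ht => ?_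
    exact pow_le_pow_left₀ (by positivity) (hQ t ht).2 2
  have h1 : 𝒯.card * (θ / c) ^ 2 ≤ M * (C₁ / c) :=
    hlow.trans (hd.trans (mul_le_mul_of_nonneg_left hN hM0))
  have h2 : 𝒯.card * θ ^ 2 ≤ M * C₁ * c := by
    have h3 : 𝒯.card * (θ / c) ^ 2 * (c : ℝ) ^ 2 ≤ M * (C₁ / c) * (c : ℝ) ^ 2 :=
      mul_le_mul_of_nonneg_right h1 (by positivity)
    have h4 : 𝒯.card * (θ / c) ^ 2 * (c : ℝ) ^ 2 = 𝒯.card * θ ^ 2 := by field_simp
    have h5 : M * (C₁ / c) * (c : ℝ) ^ 2 = M * C₁ * c := by field_simp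
    rwa [h4, h5] at h3
  have h3 : C₀ * C₂ / (c₁ * x) * C₁ * c ≤ C₁ * C₀ * C₂ * H / c₁ := by
    have h4 : C₀ * C₂ / (c₁ * x) * C₁ * c ≤ C₀ * C₂ / (c₁ * x) * C₁ * (x * H) :=
      mul_le_mul_of_nonneg_left hcxH (by positivity)
    refine h4.trans (le_of_eq ?_)
    field_simp
  have h4 : Real.exp (-c₁ * x) * C₁ * c ≤ θ ^ 2 / 2 := by
    have h5 : Real.exp (-c₁ * x) ≤ 2 / (c₁ * x) ^ 2 := by
      have h6 : (c₁ * x) ^ 2 / 2 ≤ Real.exp (c₁ * x) := by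
        have := Real.quadratic_le_exp_of_nonneg (x := c₁ * x) (by positivity)
        have h7 : 0 ≤ c₁ * x := by positivity
        linarith
      have h8 : 0 < (c₁ * x) ^ 2 / 2 := by positivity
      have h7 : Real.exp (-c₁ * x) = (Real.exp (c₁ * x))⁻¹ := by rw [← Real.exp_neg]; ring_nf
      rw [h7]
      refine (inv_anti₀ h8 h6).trans (le_of_eq ?_)
      rw [inv_div]
    have h6 : Real.exp (-c₁ * x) * C₁ * c ≤ 2 / (c₁ * x) ^ 2 * C₁ * (x * H) :=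
      mul_le_mul (mul_le_mul_of_nonneg_right h5 hC₁.le) hcxH hcp.le (by positivity)
    refine h6.trans ?_
    have h7 : 2 / (c₁ * x) ^ 2 * C₁ * (x * H) = 2 * C₁ * H / (c₁ ^ 2 * x) := by field_simp
    rw [h7, div_le_iff₀ (by positivity)]
    have h8 : 4 * C₁ * H ≤ x * (c₁ ^ 2 * θ ^ 2) := by
      have h9 := hxX
      rw [hX, div_le_iff₀ (by positivity)] at h9
      exact h9
    nlinarith
  have h5 : 𝒯.card * θ ^ 2 ≤ C₁ * C₀ * C₂ * H / c₁ + 𝒯.card * (θ ^ 2 / 2) := by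
    have h6 : M * C₁ * c = C₀ * C₂ / (c₁ * x) * C₁ * c +
        𝒯.card * (Real.exp (-c₁ * x) * C₁ * c) := by
      rw [hM]
      ring
    rw [h6] at h2
    have h7 : 𝒯.card * (Real.exp (-c₁ * x) * C₁ * c) ≤ 𝒯.card * (θ ^ 2 / 2) :=
      mul_le_mul_of_nonneg_left h4 (Nat.cast_nonneg _)
    linarith
  rw [le_div_iff₀ (by positivity)]
  have h6 : C₁ * C₀ * C₂ * H / c₁ * c₁ = C₁ * C₀ * C₂ * H := by field_simp
  have h7 : (𝒯.card * θ ^ 2) * c₁ ≤ (C₁ * C₀ * C₂ * H / c₁ + 𝒯.card * (θ ^ 2 / 2)) * c₁ :=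
    mul_le_mul_of_nonneg_right h5 hc₁.le
  nlinarith

end MRT
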