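import Pool.Agent.MRT.TkF

/-!
# MRT-ItA: the first set of frequencies
-/

set_option autoImplicit false

namespace MRT

open Finset MeasureTheory

private theorem ia_set {g : ℝ → ℝ} (hg : Continuous g) (h0 : ∀ t, 0 ≤ g t) {T : ℝ} (hT : 0 ≤ T)
    {G : Set ℝ} (hGT : G ⊆ Set.Icc (-T) T) : ∫ t in G, g t ≤ ∫ t in (-T)..T, g t := by
  rw [intervalIntegral.integral_of_le (by linarith), ← integral_Icc_eq_integral_Ioc]
  exact setIntegral_mono_set hg.continuousOn.integrableOn_Icc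
    (Filter.Eventually.of_forall fun t => h0 t) hGT.eventuallyLE

private theorem ia_two (x y : ℂ) : ‖x + y‖ ^ 2 ≤ 2 * ‖x‖ ^ 2 + 2 * ‖y‖ ^ 2 := by
  have h1 := norm_add_le x y
  have h2 : ‖x + y‖ ^ 2 ≤ (‖x‖ + ‖y‖) ^ 2 := pow_le_pow_left₀ (norm_nonneg _) h1 2
  nlinarith [sq_nonneg (‖x‖ - ‖y‖)]

/-- mean square of a short piece -/
private theorem ia_piece {C : ℝ} (hC : 0 < C)
    (h : ∀ (s : Finset ℕ) (a : ℕ → ℂ) (T : ℝ), 1 ≤ T → (∀ n ∈ s, 1 ≤ n) →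
      ∫ t in (-T)..T, ‖Dp s a t‖ ^ 2 ≤ C * ∑ n ∈ s, ‖a n‖ ^ 2 / n * (1 + T / n))
    {f : ℕ → ℝ} (hf : CMr f) {w T : ℝ} (hT : 1 ≤ T) (hw : T ≤ Real.exp w) :
    ∫ t in (-T)..T, ‖Av f w t‖ ^ 2 ≤ 4 * C := by
  have h1 := h (Ic w (w + 1)) (fun n => (f n : ℂ)) T hT fun n hn => one_le_of_mem hn
  refine h1.trans ?_
  have h2 : ∑ n ∈ Ic w (w + 1), ‖(f n : ℂ)‖ ^ 2 / n * (1 + T / n) ≤
      ∑ n ∈ Ic w (w + 1), 2 * (1 / (n : ℝ)) := by
    refine Finset.sum_le_sum fun n hn => ?_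
    have h3 : 1 ≤ n := one_le_of_mem hn
    have h4 : (0 : ℝ) < n := by exact_mod_cast h3
    have h5 : ‖(f n : ℂ)‖ ^ 2 = 1 := by
      rw [Complex.norm_real]
      rcases hf.sgn n h3 with h6 | h6
      · rw [h6]; norm_num
      · rw [h6]; norm_num
    have h6 : T / n ≤ 1 := by
      rw [div_le_one h4]
      exact hw.trans (mem_Ic.1 hn).1.le
    rw [h5, mul_comm 2 (1 / (n : ℝ))]
    exact mul_le_mul_of_nonneg_left (by linarith) (by positivity)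
  have h3 : ∑ n ∈ Ic w (w + 1), 2 * (1 / (n : ℝ)) ≤ 4 := by
    rw [← Finset.mul_sum]
    have h4 := sum_inv_Ic_le (a := w) (b := w + 1) (by linarith)
    linarith
  calc C * ∑ n ∈ Ic w (w + 1), ‖(f n : ℂ)‖ ^ 2 / n * (1 + T / n) ≤ C * 4 :=
        mul_le_mul_of_nonneg_left (h2.trans h3) hC.le
    _ = 4 * C := mul_comm _ _

theorem it_first : ∃ C : ℝ, 0 < C ∧ ∀ f : ℕ → ℝ, CMr f → ∀ H a b : ℕ, 1 ≤ H → a < b → 1 ≤ Ws (Bk a b) → ∀ α v T : ℝ, 0 ≤ α → 1 ≤ T →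
    T * Real.exp b ≤ Real.exp v → Real.exp (2 * b) * H ≤ Real.exp v → ∀ G : Set ℝ, MeasurableSet G → G ⊆ Set.Icc (-T) T →
    (∀ t ∈ G, ∀ c ∈ Ico (H * a) (H * b), ‖Qc f H c t‖ ≤ Real.exp (-α * ((c : ℝ) / H))) →
      ∫ t in G, ‖Av f v t‖ ^ 2 ≤ C * (1 / Ws (Bk a b) + 1 / H) + C * ((H * b) ^ 2 * Real.exp (-2 * α * a)) := by
  obtain ⟨C1, hC1, h1⟩ := tkf
  obtain ⟨C2, hC2, h2⟩ := mvt
  refine ⟨2 * C1 + 8 * C2, by positivity, ?_⟩
  intro f hf H a b hH hab hW α v T hα hT hTb hHb G hG hGT hQ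
  have hT0 : 0 ≤ T := by linarith
  have hH0 : (0 : ℝ) < H := by exact_mod_cast hH
  have hW0 : (0 : ℝ) < Ws (Bk a b) := by linarith
  have hTv : T ≤ Real.exp v := by
    refine le_trans ?_ hTb
    have h3 : 1 ≤ Real.exp (b : ℝ) := Real.one_le_exp (Nat.cast_nonneg b)
    nlinarith
  have hAc : ∀ w, Continuous (Av f w) := fun w => cont_Dp _ _
  have hQc : ∀ c, Continuous (Qc f H c) := fun c => cont_Dp _ _
  obtain ⟨S, hS⟩ : ∃ S : ℝ → ℂ, S = fun t => ∑ c ∈ Ico (H * a) (H * b),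
      Qc f H c t * Av f (v - (c : ℝ) / H) t := ⟨_, rfl⟩
  have hSc : Continuous S := by
    rw [hS]
    exact continuous_finsetSum _ fun c _ => (hQc c).mul (hAc _)
  have hErS : ∀ t, Er f H a b v t = Av f v t - S t / (Ws (Bk a b) : ℂ) := by
    intro t
    rw [hS]
    rfl
  have hErc : Continuous (Er f H a b v) := by
    rw [funext hErS]
    exact (hAc v).sub (hSc.div_const _)
  have hint : ∀ g : ℝ → ℝ, Continuous g → IntegrableOn g G := fun g hg =>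
    (hg.continuousOn.integrableOn_Icc (a := -T) (b := T)).mono_set hGT
  have hc1 : Continuous fun t => 2 * ‖Er f H a b v t‖ ^ 2 := by fun_prop
  have hc2 : Continuous fun t => 2 * ‖S t‖ ^ 2 := by fun_prop
  have hc3 : Continuous fun t => ‖Av f v t‖ ^ 2 := ((hAc v).norm).pow 2
  have hpt : ∀ t, ‖Av f v t‖ ^ 2 ≤ 2 * ‖Er f H a b v t‖ ^ 2 + 2 * ‖S t‖ ^ 2 := by
    intro t
    have h3 : Av f v t = Er f H a b v t + S t / (Ws (Bk a b) : ℂ) := by
      rw [hErS]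
      ring
    rw [h3]
    refine (ia_two _ _).trans ?_
    have h4 : ‖S t / (Ws (Bk a b) : ℂ)‖ ≤ ‖S t‖ := by
      rw [norm_div, Complex.norm_real, Real.norm_of_nonneg hW0.le]
      exact div_le_self (norm_nonneg _) hW
    have h5 := pow_le_pow_left₀ (norm_nonneg _) h4 2
    linarith
  have hstep1 : ∫ t in G, ‖Av f v t‖ ^ 2 ≤
      (∫ t in G, 2 * ‖Er f H a b v t‖ ^ 2) + ∫ t in G, 2 * ‖S t‖ ^ 2 := by
    rw [← integral_add (hint _ hc1) (hint _ hc2)]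
    exact integral_mono (hint _ hc3) ((hint _ hc1).add (hint _ hc2)) hpt
  have hstep2 : ∫ t in G, 2 * ‖Er f H a b v t‖ ^ 2 ≤ 2 * (C1 * (1 / Ws (Bk a b) + 1 / H)) := by
    refine (ia_set hc1 (fun t => by positivity) hT0 hGT).trans ?_
    rw [intervalIntegral.integral_const_mul]
    exact mul_le_mul_of_nonneg_left (h1 f hf H a b hH hab hW v T hHb hT hTv) (by norm_num)
  obtain ⟨κ, hκ⟩ : ∃ κ : ℝ, κ = (H * b : ℝ) * Real.exp (-2 * α * a) := ⟨_, rfl⟩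
  have hκ0 : 0 ≤ κ := by
    rw [hκ]
    positivity
  have hcard : ((Ico (H * a) (H * b)).card : ℝ) ≤ (H * b : ℝ) := by
    rw [Nat.card_Ico]
    have h3 : H * b - H * a ≤ H * b := Nat.sub_le _ _
    exact_mod_cast h3
  have hG2 : ∀ t ∈ G, ‖S t‖ ^ 2 ≤
      κ * ∑ c ∈ Ico (H * a) (H * b), ‖Av f (v - (c : ℝ) / H) t‖ ^ 2 := by
    intro t ht
    have h3 : ‖S t‖ ≤ ∑ c ∈ Ico (H * a) (H * b), ‖Qc f H c t * Av f (v - (c : ℝ) / H) t‖ := by
      rw [hS]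
      exact norm_sum_le _ _
    have h4 := pow_le_pow_left₀ (norm_nonneg _) h3 2
    refine h4.trans (sq_sum_le_card_mul_sum_sq.trans ?_)
    have h5 : ∑ c ∈ Ico (H * a) (H * b), ‖Qc f H c t * Av f (v - (c : ℝ) / H) t‖ ^ 2 ≤
        ∑ c ∈ Ico (H * a) (H * b),
          Real.exp (-2 * α * a) * ‖Av f (v - (c : ℝ) / H) t‖ ^ 2 := by
      refine Finset.sum_le_sum fun c hc => ?_
      rw [norm_mul, mul_pow]
      refine mul_le_mul_of_nonneg_right ?_ (by positivity)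
      have h6 := pow_le_pow_left₀ (norm_nonneg _) (hQ t ht c hc) 2
      refine h6.trans ?_
      rw [← Real.exp_nat_mul, Real.exp_le_exp]
      have h7 : (a : ℝ) ≤ (c : ℝ) / H := by
        rw [le_div_iff₀ hH0]
        have h8 := (Finset.mem_Ico.1 hc).1
        have h9 : ((H * a : ℕ) : ℝ) ≤ c := by exact_mod_cast h8
        push_cast at h9
        linarith
      have h8 := mul_le_mul_of_nonneg_left h7 hα
      push_cast
      linarith
    rw [← Finset.mul_sum] at h5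
    have h6 : 0 ≤ Real.exp (-2 * α * a) *
        ∑ c ∈ Ico (H * a) (H * b), ‖Av f (v - (c : ℝ) / H) t‖ ^ 2 := by positivity
    calc _ ≤ (H * b : ℝ) * (Real.exp (-2 * α * a) *
          ∑ c ∈ Ico (H * a) (H * b), ‖Av f (v - (c : ℝ) / H) t‖ ^ 2) :=
          mul_le_mul hcard h5 (by positivity) (by positivity)
      _ = _ := by rw [hκ]; ring
  have hc4 : ∀ c : ℕ, Continuous fun t => ‖Av f (v - (c : ℝ) / H) t‖ ^ 2 := fun c =>
    ((hAc _).norm).pow 2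
  have hc5 : Continuous fun t => κ * ∑ c ∈ Ico (H * a) (H * b), ‖Av f (v - (c : ℝ) / H) t‖ ^ 2 :=
    continuous_const.mul (continuous_finsetSum _ fun c _ => hc4 c)
  have hpiece : ∀ c ∈ Ico (H * a) (H * b), ∫ t in G, ‖Av f (v - (c : ℝ) / H) t‖ ^ 2 ≤ 4 * C2 := by
    intro c hc
    refine (ia_set (hc4 c) (fun t => by positivity) hT0 hGT).trans (ia_piece hC2 h2 hf hT ?_)
    have h3 : (c : ℝ) / H ≤ b := by
      rw [div_le_iff₀ hH0]
      have h4 := (Finset.mem_Ico.1 hc).2.le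
      have h5 : (c : ℝ) ≤ ((H * b : ℕ) : ℝ) := by exact_mod_cast h4
      push_cast at h5
      linarith
    have h4 : T ≤ Real.exp (v - b) := by
      rw [Real.exp_sub, le_div_iff₀ (Real.exp_pos _)]
      exact hTb
    exact h4.trans (Real.exp_le_exp.2 (by linarith))
  have hstep3 : ∫ t in G, 2 * ‖S t‖ ^ 2 ≤ 8 * C2 * ((H * b) ^ 2 * Real.exp (-2 * α * a)) := by
    rw [integral_const_mul]
    have h3 : ∫ t in G, ‖S t‖ ^ 2 ≤
        ∫ t in G, κ * ∑ c ∈ Ico (H * a) (H * b), ‖Av f (v - (c : ℝ) / H) t‖ ^ 2 :=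
      setIntegral_mono_on (hint _ (hSc.norm.pow 2)) (hint _ hc5) hG hG2
    rw [integral_const_mul, integral_finsetSum _ fun c _ => hint _ (hc4 c)] at h3
    have h4 : ∑ c ∈ Ico (H * a) (H * b), ∫ t in G, ‖Av f (v - (c : ℝ) / H) t‖ ^ 2 ≤
        (H * b : ℝ) * (4 * C2) := by
      refine (Finset.sum_le_sum hpiece).trans ?_
      rw [Finset.sum_const, nsmul_eq_mul]
      exact mul_le_mul_of_nonneg_right hcard (by positivity)
    have h5 := mul_le_mul_of_nonneg_left h4 hκ0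
    have h6 : κ * ((H * b : ℝ) * (4 * C2)) = 4 * C2 * ((H * b) ^ 2 * Real.exp (-2 * α * a)) := by
      rw [hκ]
      ring
    linarith
  have h3 : 0 ≤ C2 * (1 / Ws (Bk a b) + 1 / H) := by positivity
  have h4 : 0 ≤ C1 * (((H : ℝ) * b) ^ 2 * Real.exp (-2 * α * a)) := by positivity
  calc _ ≤ 2 * (C1 * (1 / Ws (Bk a b) + 1 / H)) +
        8 * C2 * ((H * b) ^ 2 * Real.exp (-2 * α * a)) :=
        hstep1.trans (add_le_add hstep2 hstep3)
    _ ≤ _ := by linarith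

end MRT
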