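import Pool.Agent.MRT.Mvb

/-!
# MRT-Mom: moments of a prime polynomial
-/

set_option autoImplicit false

namespace MRT

open Finset MeasureTheory

/-- the product of a tuple of primes and a number -/
private def Ph (l : ℕ) (q : (Fin l → ℕ) × ℕ) : ℕ := (∏ i, q.1 i) * q.2

/-- tuples -/
private def Ix (P M : Finset ℕ) (l : ℕ) : Finset ((Fin l → ℕ) × ℕ) := (Fintype.piFinset fun _ : Fin l => P) ×ˢ M

private theorem mem_Ix {P M : Finset ℕ} {l : ℕ} {q : (Fin l → ℕ) × ℕ} : q ∈ Ix P M l ↔ (∀ i, q.1 i ∈ P) ∧ q.2 ∈ M := by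
  unfold Ix
  rw [mem_product, Fintype.mem_piFinset]

private theorem mo_pos {P M : Finset ℕ} (hP : ∀ p ∈ P, p.Prime) (hM : ∀ m ∈ M, 1 ≤ m) {l : ℕ} {q : (Fin l → ℕ) × ℕ}
    (hq : q ∈ Ix P M l) : 0 < ∏ i, q.1 i ∧ 0 < q.2 := by
  rw [mem_Ix] at hq
  exact ⟨Finset.prod_pos fun i _ => (hP _ (hq.1 i)).pos, hM _ hq.2⟩

private theorem mo_prod {P M : Finset ℕ} (hP : ∀ p ∈ P, p.Prime) (hM : ∀ m ∈ M, 1 ≤ m) (g b : ℕ → ℂ) (l : ℕ) (t : ℝ) :
    Dp P g t ^ l * Dp M b t = ∑ q ∈ Ix P M l, ((∏ i, g (q.1 i)) * b q.2) / (Ph l q : ℂ) * cp (Ph l q) t := by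
  have h1 : Dp P g t ^ l = ∑ p ∈ Fintype.piFinset fun _ : Fin l => P, ∏ i, (g (p i) / (p i : ℂ) * cp (p i) t) := by
    have h2 := Finset.prod_univ_sum (fun _ : Fin l => P) (fun _ p => g p / (p : ℂ) * cp p t)
    rw [← h2, Finset.prod_const, Finset.card_univ, Fintype.card_fin]
    rfl
  rw [h1]
  unfold Dp
  rw [Finset.sum_mul_sum, ← Finset.sum_product']
  refine Finset.sum_congr rfl fun q hq => ?_
  have hq' : q ∈ Ix P M l := hq
  obtain ⟨h3, h4⟩ := mo_pos hP hM hq'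
  rw [mem_Ix] at hq'
  have h5 : cp (∏ i, q.1 i) t = ∏ i, cp (q.1 i) t := by
    have key : ∀ s : Finset (Fin l), cp (∏ i ∈ s, q.1 i) t = ∏ i ∈ s, cp (q.1 i) t := by
      intro s
      induction s using Finset.induction_on with
      | empty =>
        rw [Finset.prod_empty, Finset.prod_empty]
        unfold cp
        simp
      | insert a s ha ih =>
        rw [Finset.prod_insert ha, Finset.prod_insert ha, cp_mul (hP _ (hq'.1 a)).pos
          (Finset.prod_pos fun i _ => (hP _ (hq'.1 i)).pos), ih]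
    exact key _
  unfold Ph
  rw [cp_mul h3 h4, h5, Finset.prod_mul_distrib, Finset.prod_div_distrib]
  push_cast
  ring

private theorem mo_count {P M : Finset ℕ} (hP : ∀ p ∈ P, p.Prime) (hM : ∀ m ∈ M, 1 ≤ m) {l : ℕ} {q : (Fin l → ℕ) × ℕ}
    (hq : q ∈ Ix P M l) : ((Ix P M l).filter fun q' => Ph l q' = Ph l q).card ≤ (l + om P q.2) ^ l := by
  have hD : (P.filter fun p => p ∣ Ph l q).card ≤ l + om P q.2 := by
    have h1 : (P.filter fun p => p ∣ Ph l q) ⊆ (Finset.univ.image q.1) ∪ (P.filter fun p => p ∣ q.2) := by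
      intro p hp
      rw [mem_filter] at hp
      rw [mem_union]
      have hpp := hP p hp.1
      rcases (hpp.dvd_mul).1 hp.2 with h2 | h2
      · left
        obtain ⟨i, -, h3⟩ := (hpp.prime.dvd_finsetProd_iff _).1 h2
        rw [mem_image]
        refine ⟨i, mem_univ _, ?_⟩
        exact ((Nat.prime_dvd_prime_iff_eq hpp (hP _ ((mem_Ix.1 hq).1 i))).1 h3).symm
      · right
        rw [mem_filter]
        exact ⟨hp.1, h2⟩
    refine (card_le_card h1).trans ((card_union_le _ _).trans ?_)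
    refine Nat.add_le_add ?_ le_rfl
    refine card_image_le.trans ?_
    rw [Finset.card_univ, Fintype.card_fin]
  refine le_trans ?_ (Nat.pow_le_pow_left hD l)
  have h2 : (Fintype.piFinset fun _ : Fin l => P.filter fun p => p ∣ Ph l q).card =
      (P.filter fun p => p ∣ Ph l q).card ^ l := by
    rw [Fintype.card_piFinset, Finset.prod_const, Finset.card_univ, Fintype.card_fin]
  rw [← h2]
  refine card_le_card_of_injOn Prod.fst ?_ ?_
  · intro q' hq'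
    rw [mem_coe, mem_filter] at hq'
    rw [mem_coe, Fintype.mem_piFinset]
    intro i
    rw [mem_filter]
    refine ⟨(mem_Ix.1 hq'.1).1 i, ?_⟩
    rw [← hq'.2]
    exact Dvd.dvd.mul_right (Finset.dvd_prod_of_mem _ (mem_univ i)) _
  · intro q1 h1 q2 h3 h4
    rw [mem_coe, mem_filter] at h1 h3
    have h5 : Ph l q1 = Ph l q2 := h1.2.trans h3.2.symm
    unfold Ph at h5
    have h6 : q1.1 = q2.1 := h4
    rw [h6] at h5
    have h7 := Nat.eq_of_mul_eq_mul_left (mo_pos hP hM h3.1).1 h5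
    exact Prod.ext h6 h7

private theorem mo_exp (l : ℕ) {x : ℝ} (hx : 0 ≤ x) : ((l : ℝ) + x) ^ l ≤ (l : ℝ) ^ l * Real.exp x := by
  rcases Nat.eq_zero_or_pos l with h | h
  · rw [h, pow_zero, pow_zero, one_mul]
    exact Real.one_le_exp hx
  · have hl : (0 : ℝ) < l := by exact_mod_cast h
    have h1 : (l : ℝ) + x = l * (1 + x / l) := by
      field_simp
    rw [h1, mul_pow]
    refine mul_le_mul_of_nonneg_left ?_ (by positivity)
    have h2 : 1 + x / l ≤ Real.exp (x / l) := by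
      rw [add_comm]
      exact Real.add_one_le_exp _
    calc (1 + x / l) ^ l ≤ Real.exp (x / l) ^ l := pow_le_pow_left₀ (by positivity) h2 l
      _ = Real.exp x := by
        rw [← Real.exp_nat_mul]
        congr 1
        field_simp

private theorem mo_gen {P M : Finset ℕ} (hP : ∀ p ∈ P, p.Prime) (hM : ∀ m ∈ M, 1 ≤ m) (g b : ℕ → ℂ)
    (hg : ∀ p ∈ P, ‖g p‖ ≤ 1) (hb : ∀ m ∈ M, ‖b m‖ ≤ 1) (l : ℕ) {E : ℝ} (hE0 : 0 < E)
    (hE : ∀ q ∈ Ix P M l, E ≤ (Ph l q : ℝ)) (hW : Ws P ≤ 1) {C : ℝ} (hC : 0 < C) {T : ℝ} (hT : 1 ≤ T)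
    (hmvt : ∀ (s : Finset ℕ) (a : ℕ → ℂ) (T : ℝ), 1 ≤ T → (∀ n ∈ s, 1 ≤ n) →
      ∫ t in (-T)..T, ‖Dp s a t‖ ^ 2 ≤ C * ∑ n ∈ s, ‖a n‖ ^ 2 / n * (1 + T / n)) :
    ∫ t in (-T)..T, ‖Dp P g t ^ l * Dp M b t‖ ^ 2 ≤
      C * ((l : ℝ) ^ l * (∑ m ∈ M, Real.exp (om P m) / m) * (1 + T / E)) := by
  classical
  set I := Ix P M l with hI
  set s := I.image (Ph l) with hs
  let c : (Fin l → ℕ) × ℕ → ℂ := fun q => (∏ i, g (q.1 i)) * b q.2
  let a : ℕ → ℂ := fun n => ∑ q ∈ I.filter (fun q => Ph l q = n), c q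
  let N : ℕ → ℕ := fun n => (I.filter (fun q => Ph l q = n)).card
  have hsum : ∀ F : ℕ → (Fin l → ℕ) × ℕ → ℂ,
      ∑ n ∈ s, ∑ q ∈ I.filter (fun q => Ph l q = n), F n q = ∑ q ∈ I, F (Ph l q) q := by
    intro F
    rw [← Finset.sum_fiberwise_of_maps_to (s := I) (t := s) (g := Ph l) (fun q hq => mem_image_of_mem _ hq)]
    refine Finset.sum_congr rfl fun n _ => Finset.sum_congr rfl fun q hq => ?_
    rw [(mem_filter.1 hq).2]
  have hsumR : ∀ F : ℕ → (Fin l → ℕ) × ℕ → ℝ,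
      ∑ n ∈ s, ∑ q ∈ I.filter (fun q => Ph l q = n), F n q = ∑ q ∈ I, F (Ph l q) q := by
    intro F
    rw [← Finset.sum_fiberwise_of_maps_to (s := I) (t := s) (g := Ph l) (fun q hq => mem_image_of_mem _ hq)]
    refine Finset.sum_congr rfl fun n _ => Finset.sum_congr rfl fun q hq => ?_
    rw [(mem_filter.1 hq).2]
  have hDp : ∀ t, Dp P g t ^ l * Dp M b t = Dp s a t := by
    intro t
    rw [mo_prod hP hM]
    unfold Dp
    have h1 : ∀ n ∈ s, a n / n * cp n t = ∑ q ∈ I.filter (fun q => Ph l q = n), c q / n * cp n t := by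
      intro n _
      show (∑ q ∈ I.filter (fun q => Ph l q = n), c q) / n * cp n t = _
      rw [Finset.sum_div, Finset.sum_mul]
    rw [Finset.sum_congr rfl h1, hsum (fun n q => c q / n * cp n t)]
  have hpos : ∀ n ∈ s, 1 ≤ n ∧ E ≤ n := by
    intro n hn
    obtain ⟨q, hq, rfl⟩ := mem_image.1 hn
    obtain ⟨h1, h2⟩ := mo_pos hP hM hq
    exact ⟨Nat.mul_pos h1 h2, hE q hq⟩
  have hc : ∀ q ∈ I, ‖c q‖ ≤ 1 := by
    intro q hq
    have hq' := mem_Ix.1 hq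
    show ‖(∏ i, g (q.1 i)) * b q.2‖ ≤ 1
    rw [norm_mul, norm_prod]
    refine mul_le_one₀ ?_ (norm_nonneg _) (hb _ hq'.2)
    exact Finset.prod_le_one (fun i _ => norm_nonneg _) fun i _ => hg _ (hq'.1 i)
  have ha : ∀ n, ‖a n‖ ≤ N n := by
    intro n
    refine (norm_sum_le _ _).trans ?_
    refine (Finset.sum_le_sum fun q hq => hc q (mem_filter.1 hq).1).trans ?_
    rw [Finset.sum_const, nsmul_eq_mul, mul_one]
  have hTE : 0 ≤ 1 + T / E := by positivity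
  have h1 := hmvt s a T hT fun n hn => (hpos n hn).1
  have h2 : ∫ t in (-T)..T, ‖Dp P g t ^ l * Dp M b t‖ ^ 2 = ∫ t in (-T)..T, ‖Dp s a t‖ ^ 2 := by
    congr 1
    ext t
    rw [hDp]
  rw [h2]
  refine h1.trans (mul_le_mul_of_nonneg_left ?_ hC.le)
  -- the sum
  have h3 : ∑ n ∈ s, ‖a n‖ ^ 2 / n * (1 + T / n) ≤ (∑ n ∈ s, (N n : ℝ) ^ 2 / n) * (1 + T / E) := by
    rw [Finset.sum_mul]
    refine Finset.sum_le_sum fun n hn => ?_
    obtain ⟨hn1, hnE⟩ := hpos n hn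
    have hn0 : (0 : ℝ) < n := by exact_mod_cast hn1
    refine mul_le_mul ?_ ?_ (by positivity) (by positivity)
    · exact div_le_div_of_nonneg_right (pow_le_pow_left₀ (norm_nonneg _) (ha n) 2) hn0.le
    · have h4 : T / n ≤ T / E := div_le_div_of_nonneg_left (by linarith) hE0 hnE
      linarith
  refine h3.trans (mul_le_mul_of_nonneg_right ?_ hTE)
  have h4 : ∑ n ∈ s, (N n : ℝ) ^ 2 / n = ∑ q ∈ I, (N (Ph l q) : ℝ) / (Ph l q : ℝ) := by
    rw [← hsumR (fun n _ => (N n : ℝ) / n)]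
    refine Finset.sum_congr rfl fun n _ => ?_
    rw [Finset.sum_const, nsmul_eq_mul]
    show (N n : ℝ) ^ 2 / n = (N n : ℝ) * _
    ring
  rw [h4]
  have h5 : ∀ q ∈ I, (N (Ph l q) : ℝ) / (Ph l q : ℝ) ≤
      (l : ℝ) ^ l * ((∏ i, 1 / (q.1 i : ℝ)) * (Real.exp (om P q.2) / q.2)) := by
    intro q hq
    obtain ⟨hq1, hq2⟩ := mo_pos hP hM hq
    have hq1' : (0 : ℝ) < ∏ i, (q.1 i : ℝ) := by
      have : (0 : ℝ) < ((∏ i, q.1 i : ℕ) : ℝ) := by exact_mod_cast hq1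
      rw [Nat.cast_prod] at this
      exact this
    have hq2' : (0 : ℝ) < q.2 := by exact_mod_cast hq2
    have h6 : (N (Ph l q) : ℝ) ≤ (l : ℝ) ^ l * Real.exp (om P q.2) := by
      refine le_trans ?_ (mo_exp l (Nat.cast_nonneg _))
      exact_mod_cast mo_count hP hM hq
    have h7 : (Ph l q : ℝ) = (∏ i, (q.1 i : ℝ)) * q.2 := by
      unfold Ph
      push_cast
      rfl
    have h8 : ∏ i, 1 / (q.1 i : ℝ) = 1 / ∏ i, (q.1 i : ℝ) := by
      rw [Finset.prod_div_distrib, Finset.prod_const_one]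
    rw [h7, h8, div_le_iff₀ (by positivity)]
    refine h6.trans (le_of_eq ?_)
    field_simp
  refine (Finset.sum_le_sum h5).trans ?_
  rw [← Finset.mul_sum]
  refine mul_le_mul_of_nonneg_left ?_ (by positivity)
  have h6 : ∑ q ∈ I, (∏ i, 1 / (q.1 i : ℝ)) * (Real.exp (om P q.2) / q.2) =
      Ws P ^ l * ∑ m ∈ M, Real.exp (om P m) / m := by
    have h7 := Finset.prod_univ_sum (fun _ : Fin l => P) (fun _ p => 1 / (p : ℝ))
    rw [Finset.prod_const, Finset.card_univ, Fintype.card_fin] at h7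
    have h8 : Ws P ^ l = ∑ p ∈ Fintype.piFinset fun _ : Fin l => P, ∏ i, 1 / ((p i : ℕ) : ℝ) := h7
    rw [h8, Finset.sum_mul_sum, ← Finset.sum_product']
    rfl
  rw [h6]
  have h9 : 0 ≤ ∑ m ∈ M, Real.exp (om P m) / m := Finset.sum_nonneg fun m _ => by positivity
  have h10 : 0 ≤ Ws P := Finset.sum_nonneg fun m _ => by positivity
  have h11 : Ws P ^ l ≤ 1 := pow_le_one₀ h10 hW
  exact mul_le_of_le_one_left h9 h11

/-- the sum of `e^{om}` -/
private theorem mo_om {P : Finset ℕ} (hP : ∀ p ∈ P, p.Prime) (hW : Ws P ≤ 1) (w : ℝ) :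
    ∑ m ∈ Ic w (w + 1), Real.exp (om P m) / m ≤ 2 * Real.exp 2 := by
  classical
  have he1 : 0 ≤ Real.exp 1 - 1 := by
    have := Real.add_one_le_exp (1 : ℝ)
    linarith
  have he2 : Real.exp 1 - 1 ≤ 2 := by
    have := Real.exp_one_lt_d9
    linarith
  have h1 : ∀ m : ℕ, Real.exp (om P m) = ∑ D ∈ P.powerset, if ∏ p ∈ D, p ∣ m then ∏ _p ∈ D, (Real.exp 1 - 1) else 0 := by
    intro m
    have h2 : Real.exp (om P m) = ∏ _p ∈ P.filter (fun p => p ∣ m), ((Real.exp 1 - 1) + 1) := by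
      rw [Finset.prod_const, sub_add_cancel, ← Real.exp_nat_mul, mul_one]
      rfl
    rw [h2, Finset.prod_add_one, ← Finset.sum_filter]
    refine Finset.sum_congr ?_ fun _ _ => rfl
    ext D
    rw [mem_powerset, mem_filter, mem_powerset]
    constructor
    · intro h
      have h3 : ∀ p ∈ D, p ∈ P ∧ p ∣ m := fun p hp => mem_filter.1 (h hp)
      refine ⟨fun p hp => (h3 p hp).1, ?_⟩
      exact Finset.prod_primes_dvd m (fun p hp => (hP p (h3 p hp).1).prime) fun p hp => (h3 p hp).2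
    · rintro ⟨h3, h4⟩ p hp
      rw [mem_filter]
      exact ⟨h3 hp, (Finset.dvd_prod_of_mem _ hp).trans h4⟩
  have h2 : ∑ m ∈ Ic w (w + 1), Real.exp (om P m) / m =
      ∑ D ∈ P.powerset, (∏ _p ∈ D, (Real.exp 1 - 1)) * ∑ m ∈ (Ic w (w + 1)).filter (fun m => ∏ p ∈ D, p ∣ m), 1 / (m : ℝ) := by
    have h3 : ∀ m ∈ Ic w (w + 1), Real.exp (om P m) / m =
        ∑ D ∈ P.powerset, (if ∏ p ∈ D, p ∣ m then ∏ _p ∈ D, (Real.exp 1 - 1) else 0) * (1 / (m : ℝ)) := by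
      intro m _
      rw [h1 m, ← Finset.sum_mul, mul_one_div]
    rw [Finset.sum_congr rfl h3, Finset.sum_comm]
    refine Finset.sum_congr rfl fun D _ => ?_
    rw [Finset.mul_sum, Finset.sum_filter]
    refine Finset.sum_congr rfl fun m _ => ?_
    split_ifs
    · rfl
    · rw [zero_mul]
  rw [h2]
  have h3 : ∀ D ∈ P.powerset, (∏ _p ∈ D, (Real.exp 1 - 1)) * ∑ m ∈ (Ic w (w + 1)).filter (fun m => ∏ p ∈ D, p ∣ m), 1 / (m : ℝ) ≤
      2 * ∏ p ∈ D, (Real.exp 1 - 1) / (p : ℝ) := by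
    intro D hD
    have hDpos : 0 < ∏ p ∈ D, p := Finset.prod_pos fun p hp => (hP p ((mem_powerset.1 hD) hp)).pos
    have h4 := sum_inv_Ic_dvd_le (a := w) (b := w + 1) (by linarith) hDpos
    have h5 : w + 1 - w + 1 = 2 := by ring
    rw [h5] at h4
    have h6 : 0 ≤ ∏ _p ∈ D, (Real.exp 1 - 1) := Finset.prod_nonneg fun _ _ => he1
    refine (mul_le_mul_of_nonneg_left h4 h6).trans (le_of_eq ?_)
    rw [Finset.prod_div_distrib]
    push_cast
    ring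
  refine (Finset.sum_le_sum h3).trans ?_
  rw [← Finset.mul_sum, ← Finset.prod_add_one]
  refine mul_le_mul_of_nonneg_left ?_ (by norm_num)
  have h4 : ∏ p ∈ P, ((Real.exp 1 - 1) / (p : ℝ) + 1) ≤ ∏ p ∈ P, Real.exp ((Real.exp 1 - 1) / (p : ℝ)) :=
    Finset.prod_le_prod (fun p _ => by positivity) fun p _ => Real.add_one_le_exp _
  refine h4.trans ?_
  rw [← Real.exp_sum]
  apply Real.exp_le_exp.2
  have h5 : ∑ p ∈ P, (Real.exp 1 - 1) / (p : ℝ) = (Real.exp 1 - 1) * Ws P := by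
    unfold Ws
    rw [Finset.mul_sum]
    refine Finset.sum_congr rfl fun p _ => ?_
    rw [mul_one_div]
  rw [h5]
  calc (Real.exp 1 - 1) * Ws P ≤ (Real.exp 1 - 1) * 1 := mul_le_mul_of_nonneg_left hW he1
    _ ≤ 2 := by linarith

private theorem cl_prime {H r : ℕ} : ∀ p ∈ Cl H r, p.Prime := fun _ hp => (mem_filter.1 hp).2

private theorem cl_low {H r p : ℕ} (hp : p ∈ Cl H r) : Real.exp ((r : ℝ) / H) ≤ p :=
  (mem_Ic.1 (mem_filter.1 hp).1).1.le

private theorem cm_norm {f : ℕ → ℝ} (hf : CMr f) {n : ℕ} (hn : 0 < n) : ‖(f n : ℂ)‖ ≤ 1 := by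
  rcases hf.sgn n hn with h | h
  · rw [h]; simp
  · rw [h]; simp

private theorem mo_low {H r l : ℕ} {M : Finset ℕ} {w : ℝ} (hM : ∀ m ∈ M, Real.exp w ≤ m) :
    ∀ q ∈ Ix (Cl H r) M l, Real.exp (l * ((r : ℝ) / H) + w) ≤ (Ph l q : ℝ) := by
  intro q hq
  have hq' := mem_Ix.1 hq
  unfold Ph
  rw [Real.exp_add, Real.exp_nat_mul]
  push_cast
  refine mul_le_mul ?_ (hM _ hq'.2) (Real.exp_pos _).le (Finset.prod_nonneg fun i _ => Nat.cast_nonneg _)
  have h1 : Real.exp ((r : ℝ) / H) ^ l = ∏ _i : Fin l, Real.exp ((r : ℝ) / H) := by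
    rw [Finset.prod_const, Finset.card_univ, Fintype.card_fin]
  rw [h1]
  exact Finset.prod_le_prod (fun i _ => (Real.exp_pos _).le) fun i _ => cl_low (hq'.1 i)

theorem mom : ∃ C : ℝ, 0 < C ∧ ∀ f : ℕ → ℝ, CMr f → ∀ H r l : ℕ, 1 ≤ H → Ws (Cl H r) ≤ 1 → ∀ w T : ℝ, 1 ≤ T →
    ∫ t in (-T)..T, ‖Qc f H r t ^ l * Av f w t‖ ^ 2 ≤ C * (l : ℝ) ^ l * (1 + T / Real.exp (l * ((r : ℝ) / H) + w)) := by
  obtain ⟨C, hC, hmvt⟩ := mvt
  refine ⟨C * (2 * Real.exp 2), by positivity, ?_⟩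
  intro f hf H r l hH hW w T hT
  have h1 := mo_gen (P := Cl H r) (M := Ic w (w + 1)) cl_prime (fun m hm => one_le_of_mem hm) (fun n => (f n : ℂ))
    (fun n => (f n : ℂ)) (fun p hp => cm_norm hf (cl_prime p hp).pos) (fun m hm => cm_norm hf (one_le_of_mem hm)) l
    (Real.exp_pos _) (mo_low (w := w) fun m hm => (mem_Ic.1 hm).1.le) hW hC hT hmvt
  refine h1.trans ?_
  have h2 := mo_om (P := Cl H r) cl_prime hW w
  have h3 : (0 : ℝ) ≤ 1 + T / Real.exp (l * ((r : ℝ) / H) + w) := by positivity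
  calc C * ((l : ℝ) ^ l * (∑ m ∈ Ic w (w + 1), Real.exp (om (Cl H r) m) / m) * (1 + T / Real.exp (l * ((r : ℝ) / H) + w)))
      ≤ C * ((l : ℝ) ^ l * (2 * Real.exp 2) * (1 + T / Real.exp (l * ((r : ℝ) / H) + w))) := by
        refine mul_le_mul_of_nonneg_left ?_ hC.le
        refine mul_le_mul_of_nonneg_right ?_ h3
        exact mul_le_mul_of_nonneg_left h2 (by positivity)
    _ = _ := by ring

theorem mom0 : ∃ C : ℝ, 0 < C ∧ ∀ f : ℕ → ℝ, CMr f → ∀ H r l : ℕ, 1 ≤ H → Ws (Cl H r) ≤ 1 → ∀ T : ℝ, 1 ≤ T →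
    ∫ t in (-T)..T, ‖Qc f H r t ^ l‖ ^ 2 ≤ C * (l : ℝ) ^ l * (1 + T / Real.exp (l * ((r : ℝ) / H))) := by
  obtain ⟨C, hC, hmvt⟩ := mvt
  refine ⟨C, hC, ?_⟩
  intro f hf H r l hH hW T hT
  have h1 := mo_gen (P := Cl H r) (M := {1}) cl_prime (fun m hm => (mem_singleton.1 hm).ge) (fun n => (f n : ℂ))
    (fun _ => 1) (fun p hp => cm_norm hf (cl_prime p hp).pos) (fun m hm => by rw [norm_one]) l
    (Real.exp_pos _) (mo_low (w := 0) fun m hm => by rw [mem_singleton.1 hm]; simp) hW hC hT hmvt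
  have h2 : ∀ t, Dp ({1} : Finset ℕ) (fun _ => 1) t = 1 := by
    intro t
    unfold Dp cp
    simp
  have h3 : om (Cl H r) 1 = 0 := by
    unfold om
    rw [card_eq_zero, filter_eq_empty_iff]
    intro p hp h
    exact (cl_prime p hp).one_lt.ne' (Nat.dvd_one.1 h)
  rw [sum_singleton, h3, add_zero] at h1
  have h4 : ∫ t in (-T)..T, ‖Qc f H r t ^ l‖ ^ 2 =
      ∫ t in (-T)..T, ‖Dp (Cl H r) (fun n => (f n : ℂ)) t ^ l * Dp ({1} : Finset ℕ) (fun _ => 1) t‖ ^ 2 := by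
    congr 1
    ext t
    rw [h2, mul_one]
    rfl
  rw [h4]
  refine h1.trans (le_of_eq ?_)
  simp
  ring

end MRT
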