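import Pool.Agent.MRT.TkF
import Pool.Agent.MRT.Mom

/-!
# MRT-ItB: one step of the iteration

Previous block `(H', a', b', α')`, present block `(H, a, b, α)`.

PLAN.  As in `it_first`, on `G`: `‖∑_c Q_c A_c‖² ≤ (H b) ∑_c e^{-2αc/H} ‖A_c‖²` and `1 ≤ ∑_r (e^{α' r/H'} ‖Q'_r t‖)^{2l}` for every `l`; `l = l(c, r) = ⌈(c/H)/(r/H')⌉₊`: `∫_G ‖∑‖² ≤ H b ∑_c ∑_r e^{-2αc/H + 2α' l r/H'} ∫_{-T}^T ‖Q'_r^l A_c‖²`, `mom`: `≤ 2 C l^l` (`l r/H' ≥ c/H`, `T ≤ e^v`; `hc`).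
`l r/H' ≤ c/H + b'`, `l ≤ (c/H)/a' + 1 ≤ 2 (c/H)/a' ≤ b`.., `l log l ≤ 2 (c/H)/a' * log b ≤ β (c/H)/4` (`β = α - α'`, `h1`).  Exponent `≤ -2β c/H + 2α' b' + β (c/H)/4 ≤ -(3/2) β a` (`α' ≤ 1/5`, `b' ≤ β a/2`: `2 α' b' ≤ β a/5`).  Number of pairs times `H b`: `H² b² H' b' ≤ H³ e^{3βa/8}` (`log b ≤ β a'/32 ≤ β a/8`, `b' ≤ b`).
-/

set_option autoImplicit false

namespace MRT

open Finset MeasureTheory

private theorem ib_num {H' H a' b' a b : ℕ} (hH' : 1 ≤ H') (hH : 1 ≤ H) (ha' : 1 ≤ a') (hab' : a' < b') (hba : b' ≤ a)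
    {α' α : ℝ} (hα' : 0 ≤ α') (hαα : α' < α) (h5 : α' ≤ 1 / 5) (hlog : Real.log b ≤ (α - α') * a' / 32)
    (hb' : (b' : ℝ) ≤ (α - α') * a / 2) {c r l : ℕ} (hc : H * a ≤ c) (hc' : c < H * b) (hr : H' * a' ≤ r)
    (hr' : r < H' * b') (hl : l = ⌈((c : ℝ) / H) / ((r : ℝ) / H')⌉₊) :
    (c : ℝ) / H ≤ l * ((r : ℝ) / H') ∧
      Real.exp (-2 * α * ((c : ℝ) / H)) * Real.exp (2 * α' * (l * ((r : ℝ) / H'))) * (l : ℝ) ^ l ≤
        Real.exp (-(3 / 2) * (α - α') * a) := by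
  have hHp : (0 : ℝ) < H := by exact_mod_cast hH
  have hHp' : (0 : ℝ) < H' := by exact_mod_cast hH'
  have hap' : (1 : ℝ) ≤ a' := by exact_mod_cast ha'
  have hβ : 0 < α - α' := sub_pos.2 hαα
  obtain ⟨y, hy⟩ : ∃ y : ℝ, y = (c : ℝ) / H := ⟨_, rfl⟩
  obtain ⟨z, hz⟩ : ∃ z : ℝ, z = (r : ℝ) / H' := ⟨_, rfl⟩
  rw [← hy, ← hz] at hl
  rw [← hy, ← hz]
  have y1 : (a : ℝ) ≤ y := by
    rw [hy, le_div_iff₀ hHp, mul_comm]
    exact_mod_cast hc
  have y2 : y ≤ b := by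
    rw [hy, div_le_iff₀ hHp, mul_comm]
    exact_mod_cast hc'.le
  have z1 : (a' : ℝ) ≤ z := by
    rw [hz, le_div_iff₀ hHp', mul_comm]
    exact_mod_cast hr
  have z2 : z ≤ b' := by
    rw [hz, div_le_iff₀ hHp', mul_comm]
    exact_mod_cast hr'.le
  have haa : (a' : ℝ) ≤ a := by exact_mod_cast (hab'.le.trans hba)
  have hz0 : 0 < z := by linarith
  have hy0 : 0 < y := by linarith
  have ha0 : (0 : ℝ) < a := by linarith
  have hq0 : 0 < y / z := div_pos hy0 hz0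
  have l1 : y / z ≤ l := by
    rw [hl]
    exact Nat.le_ceil _
  have l2 : (l : ℝ) < y / z + 1 := by
    rw [hl]
    exact Nat.ceil_lt_add_one hq0.le
  have l0 : 1 ≤ l := by
    rw [hl]
    exact Nat.one_le_iff_ne_zero.2 (Nat.ceil_pos.2 hq0).ne'
  have l0' : (1 : ℝ) ≤ l := by exact_mod_cast l0
  have lb : l ≤ b := by
    rw [hl]
    refine Nat.ceil_le.2 ?_
    rw [div_le_iff₀ hz0]
    nlinarith
  have lb' : (l : ℝ) ≤ b := by exact_mod_cast lb
  have hyz : y ≤ l * z := (div_le_iff₀ hz0).1 l1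
  have hlz : l * z ≤ y + z := by
    have h1 : (l : ℝ) * z ≤ (y / z + 1) * z := mul_le_mul_of_nonneg_right l2.le hz0.le
    have h2 : (y / z + 1) * z = y + z := by
      rw [add_mul, div_mul_cancel₀ _ hz0.ne', one_mul]
    linarith
  refine ⟨hyz, ?_⟩
  have hll : Real.log l ≤ (α - α') * a' / 32 := (Real.log_le_log (by linarith) lb').trans hlog
  have hll0 : 0 ≤ Real.log l := Real.log_nonneg l0'
  have hl3 : (l : ℝ) ≤ 2 * y / a' := by
    have h1 : y / z ≤ y / a' := div_le_div_of_nonneg_left hy0.le (by linarith) z1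
    have h2 : 1 ≤ y / a' := by
      rw [le_div_iff₀ (by linarith)]
      linarith
    have h3 : 2 * y / a' = y / a' + y / a' := by ring
    linarith
  have hl4 : l * Real.log l ≤ (α - α') * y / 16 := by
    calc l * Real.log l ≤ (2 * y / a') * ((α - α') * a' / 32) :=
          mul_le_mul hl3 hll hll0 (by positivity)
      _ = (α - α') * y / 16 := by
          field_simp
          ring
  have e1 : (l : ℝ) ^ l = Real.exp (l * Real.log l) := by
    rw [Real.exp_nat_mul, Real.exp_log (by linarith)]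
  rw [e1, ← Real.exp_add, ← Real.exp_add]
  refine Real.exp_le_exp.2 ?_
  have h1 : 2 * α' * (l * z) ≤ 2 * α' * y + 2 * α' * b' := by
    have : α' * (l * z) ≤ α' * (y + b') := mul_le_mul_of_nonneg_left (by linarith) hα'
    linarith
  have h2 : 2 * α' * b' ≤ (α - α') * a / 5 := by
    have hb0 : (0 : ℝ) ≤ b' := Nat.cast_nonneg _
    have : α' * b' ≤ 1 / 5 * b' := mul_le_mul_of_nonneg_right h5 hb0
    linarith
  have h3 : (α - α') * a ≤ (α - α') * y := mul_le_mul_of_nonneg_left y1 hβ.le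
  have h4 : 0 ≤ (α - α') * a := by positivity
  have h6 : -2 * α * y + 2 * α' * y = -2 * ((α - α') * y) := by ring
  have h7 : -(3 / 2) * (α - α') * a = -(3 / 2) * ((α - α') * a) := by ring
  rw [h7]
  have h8 : (α - α') * y / 16 = ((α - α') * y) / 16 := rfl
  linarith

/-- Pointwise bound. -/
private theorem ib_pt {f : ℕ → ℝ} {H' a' b' H a b : ℕ} (hW : 1 ≤ Ws (Bk a b)) {α' α v t : ℝ}
    (L : ℕ → ℕ → ℕ)
    (h1 : ∃ r ∈ Ico (H' * a') (H' * b'), Real.exp (-α' * ((r : ℝ) / H')) < ‖Qc f H' r t‖)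
    (h2 : ∀ c ∈ Ico (H * a) (H * b), ‖Qc f H c t‖ ≤ Real.exp (-α * ((c : ℝ) / H))) :
    ‖Av f v t‖ ^ 2 ≤ 2 * ‖Er f H a b v t‖ ^ 2 + ∑ c ∈ Ico (H * a) (H * b), ∑ r ∈ Ico (H' * a') (H' * b'),
      2 * (H * b) * (Real.exp (-2 * α * ((c : ℝ) / H)) * Real.exp (2 * α' * (L c r * ((r : ℝ) / H')))) *
        ‖Qc f H' r t ^ L c r * Av f (v - (c : ℝ) / H) t‖ ^ 2 := by
  obtain ⟨S, hS⟩ : ∃ S : ℂ, S = ∑ c ∈ Ico (H * a) (H * b), Qc f H c t * Av f (v - (c : ℝ) / H) t := ⟨_, rfl⟩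
  have e1 : Av f v t = Er f H a b v t + S / (Ws (Bk a b) : ℂ) := by
    rw [Er, ← hS]
    ring
  have n1 : ‖S / (Ws (Bk a b) : ℂ)‖ ≤ ‖S‖ := by
    rw [norm_div, Complex.norm_real, Real.norm_eq_abs, abs_of_pos (by linarith)]
    exact div_le_self (norm_nonneg _) hW
  have n2 : ‖Av f v t‖ ≤ ‖Er f H a b v t‖ + ‖S‖ := by
    rw [e1]
    exact (norm_add_le _ _).trans (by linarith)
  have n3 : ‖Av f v t‖ ^ 2 ≤ 2 * ‖Er f H a b v t‖ ^ 2 + 2 * ‖S‖ ^ 2 := by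
    have h3 := pow_le_pow_left₀ (norm_nonneg _) n2 2
    nlinarith [sq_nonneg (‖Er f H a b v t‖ - ‖S‖)]
  have n4 : ‖S‖ ^ 2 ≤ (H * b) * ∑ c ∈ Ico (H * a) (H * b), (‖Qc f H c t‖ * ‖Av f (v - (c : ℝ) / H) t‖) ^ 2 := by
    have h3 : ‖S‖ ≤ ∑ c ∈ Ico (H * a) (H * b), ‖Qc f H c t‖ * ‖Av f (v - (c : ℝ) / H) t‖ := by
      rw [hS]
      refine (norm_sum_le _ _).trans (le_of_eq (Finset.sum_congr rfl fun c _ => norm_mul _ _))
    have h4 := pow_le_pow_left₀ (norm_nonneg _) h3 2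
    refine h4.trans ((sq_sum_le_card_mul_sum_sq).trans ?_)
    refine mul_le_mul_of_nonneg_right ?_ (Finset.sum_nonneg fun _ _ => sq_nonneg _)
    rw [Nat.card_Ico]
    have h5 : H * b - H * a ≤ H * b := Nat.sub_le _ _
    exact_mod_cast h5
  have n5 : ∀ c ∈ Ico (H * a) (H * b), (‖Qc f H c t‖ * ‖Av f (v - (c : ℝ) / H) t‖) ^ 2 ≤
      ∑ r ∈ Ico (H' * a') (H' * b'),
      (Real.exp (-2 * α * ((c : ℝ) / H)) * Real.exp (2 * α' * (L c r * ((r : ℝ) / H')))) *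
        ‖Qc f H' r t ^ L c r * Av f (v - (c : ℝ) / H) t‖ ^ 2 := by
    intro c hc
    obtain ⟨r, hr, hr1⟩ := h1
    refine le_trans ?_ (Finset.single_le_sum (f := fun r : ℕ => (Real.exp (-2 * α * ((c : ℝ) / H)) *
      Real.exp (2 * α' * (L c r * ((r : ℝ) / H')))) * ‖Qc f H' r t ^ L c r * Av f (v - (c : ℝ) / H) t‖ ^ 2)
      (fun _ _ => by positivity) hr)
    have k1 : (‖Qc f H c t‖) ^ 2 ≤ Real.exp (-2 * α * ((c : ℝ) / H)) := by
      have h3 := pow_le_pow_left₀ (norm_nonneg _) (h2 c hc) 2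
      rw [← Real.exp_nat_mul] at h3
      refine h3.trans (le_of_eq ?_)
      congr 1
      push_cast
      ring
    have k2 : 1 ≤ Real.exp (2 * α' * (L c r * ((r : ℝ) / H'))) * (‖Qc f H' r t‖ ^ L c r) ^ 2 := by
      have h3 : 1 ≤ Real.exp (α' * ((r : ℝ) / H')) * ‖Qc f H' r t‖ := by
        have h4 : Real.exp (α' * ((r : ℝ) / H')) * Real.exp (-α' * ((r : ℝ) / H')) = 1 := by
          rw [← Real.exp_add]
          have : α' * ((r : ℝ) / H') + -α' * ((r : ℝ) / H') = 0 := by ring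
          rw [this, Real.exp_zero]
        rw [← h4]
        exact mul_le_mul_of_nonneg_left hr1.le (Real.exp_pos _).le
      have h4 := one_le_pow₀ h3 (n := 2 * L c r)
      have h5 : (Real.exp (α' * ((r : ℝ) / H')) * ‖Qc f H' r t‖) ^ (2 * L c r) =
          Real.exp (2 * α' * (L c r * ((r : ℝ) / H'))) * (‖Qc f H' r t‖ ^ L c r) ^ 2 := by
        rw [mul_pow, ← Real.exp_nat_mul, ← pow_mul, mul_comm (L c r) 2]
        congr 2
        push_cast
        ring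
      rw [h5] at h4
      exact h4
    show _ ≤ (Real.exp (-2 * α * ((c : ℝ) / H)) *
      Real.exp (2 * α' * (L c r * ((r : ℝ) / H')))) * ‖Qc f H' r t ^ L c r * Av f (v - (c : ℝ) / H) t‖ ^ 2
    rw [norm_mul, norm_pow, mul_pow, mul_pow]
    have k3 : ‖Qc f H c t‖ ^ 2 * ‖Av f (v - (c : ℝ) / H) t‖ ^ 2 ≤
        Real.exp (-2 * α * ((c : ℝ) / H)) * ‖Av f (v - (c : ℝ) / H) t‖ ^ 2 :=
      mul_le_mul_of_nonneg_right k1 (sq_nonneg _)
    refine k3.trans ?_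
    have k4 : Real.exp (-2 * α * ((c : ℝ) / H)) * ‖Av f (v - (c : ℝ) / H) t‖ ^ 2 * 1 ≤
        Real.exp (-2 * α * ((c : ℝ) / H)) * ‖Av f (v - (c : ℝ) / H) t‖ ^ 2 *
          (Real.exp (2 * α' * (L c r * ((r : ℝ) / H'))) * (‖Qc f H' r t‖ ^ L c r) ^ 2) :=
      mul_le_mul_of_nonneg_left k2 (by positivity)
    rw [mul_one] at k4
    refine k4.trans (le_of_eq ?_)
    ring
  have n6 : 2 * ‖S‖ ^ 2 ≤ ∑ c ∈ Ico (H * a) (H * b), ∑ r ∈ Ico (H' * a') (H' * b'),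
      2 * (H * b) * (Real.exp (-2 * α * ((c : ℝ) / H)) * Real.exp (2 * α' * (L c r * ((r : ℝ) / H')))) *
        ‖Qc f H' r t ^ L c r * Av f (v - (c : ℝ) / H) t‖ ^ 2 := by
    have h3 : 2 * ‖S‖ ^ 2 ≤ 2 * ((H * b) * ∑ c ∈ Ico (H * a) (H * b), ∑ r ∈ Ico (H' * a') (H' * b'),
      (Real.exp (-2 * α * ((c : ℝ) / H)) * Real.exp (2 * α' * (L c r * ((r : ℝ) / H')))) *
        ‖Qc f H' r t ^ L c r * Av f (v - (c : ℝ) / H) t‖ ^ 2) := by
      refine mul_le_mul_of_nonneg_left (n4.trans ?_) (by norm_num)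
      exact mul_le_mul_of_nonneg_left (Finset.sum_le_sum n5) (by positivity)
    refine h3.trans (le_of_eq ?_)
    rw [Finset.mul_sum, Finset.mul_sum]
    refine Finset.sum_congr rfl fun c _ => ?_
    rw [Finset.mul_sum, Finset.mul_sum]
    refine Finset.sum_congr rfl fun r _ => ?_
    ring
  linarith

theorem it_step : ∃ C : ℝ, 0 < C ∧ ∀ f : ℕ → ℝ, CMr f → ∀ H' a' b' H a b : ℕ, 1 ≤ H' → H' ≤ H → 1 ≤ a' → a' < b' → b' ≤ a → a < b → 1 ≤ Ws (Bk a b) →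
    (∀ c, H' * a' ≤ c → Ws (Cl H' c) ≤ 1) → ∀ α' α : ℝ, 0 ≤ α' → α' < α → α' ≤ 1 / 5 → Real.log b ≤ (α - α') * a' / 32 → (b' : ℝ) ≤ (α - α') * a / 2 →
    ∀ v T : ℝ, 1 ≤ T → T ≤ Real.exp v → Real.exp (2 * b) * H ≤ Real.exp v → ∀ G : Set ℝ, MeasurableSet G → G ⊆ Set.Icc (-T) T →
    (∀ t ∈ G, (∃ r ∈ Ico (H' * a') (H' * b'), Real.exp (-α' * ((r : ℝ) / H')) < ‖Qc f H' r t‖) ∧
      ∀ c ∈ Ico (H * a) (H * b), ‖Qc f H c t‖ ≤ Real.exp (-α * ((c : ℝ) / H))) →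
      ∫ t in G, ‖Av f v t‖ ^ 2 ≤ C * (1 / Ws (Bk a b) + 1 / H) + C * (H ^ 3 * Real.exp (-(α - α') * a)) := by
  obtain ⟨C₁, hC₁, htk⟩ := tkf
  obtain ⟨C₂, hC₂, hmom⟩ := mom
  refine ⟨2 * C₁ + 4 * C₂, by positivity, ?_⟩
  intro f hf H' a' b' H a b hH' hHH ha' hab' hba hab hW hc α' α hα' hαα hα5 hlog hb' v T hT hTv hev G hG hGT hGt
  have hH : 1 ≤ H := hH'.trans hHH
  have hHp : (0 : ℝ) < H := by exact_mod_cast hH
  have hβ : 0 < α - α' := sub_pos.2 hαα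
  have hT0 : -T ≤ T := by linarith
  set L : ℕ → ℕ → ℕ := fun c r => ⌈((c : ℝ) / H) / ((r : ℝ) / H')⌉₊ with hL
  set K : ℕ → ℕ → ℝ := fun c r => 2 * (H * b) * (Real.exp (-2 * α * ((c : ℝ) / H)) *
    Real.exp (2 * α' * (L c r * ((r : ℝ) / H')))) with hK
  set M : ℕ → ℕ → ℝ → ℝ := fun c r t => ‖Qc f H' r t ^ L c r * Av f (v - (c : ℝ) / H) t‖ ^ 2 with hM
  have cAv : ∀ w, Continuous fun t => Av f w t := fun w => cont_Dp _ _
  have cQc : ∀ H c, Continuous fun t => Qc f H c t := fun H c => cont_Dp _ _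
  have cEr : Continuous fun t => Er f H a b v t := by
    unfold Er
    exact (cAv v).sub ((continuous_finset_sum _ fun c _ => (cQc H c).mul (cAv _)).div_const _)
  have cM : ∀ c r, Continuous (M c r) := fun c r => (((cQc H' r).pow _).mul (cAv _)).norm.pow 2
  have cE : Continuous fun t => 2 * ‖Er f H a b v t‖ ^ 2 := continuous_const.mul (cEr.norm.pow 2)
  have cS : Continuous fun t => ∑ c ∈ Ico (H * a) (H * b), ∑ r ∈ Ico (H' * a') (H' * b'), K c r * M c r t :=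
    continuous_finset_sum _ fun c _ => continuous_finset_sum _ fun r _ => continuous_const.mul (cM c r)
  have cF := cE.add cS
  have hK0 : ∀ c r, 0 ≤ K c r := fun c r => by
    rw [hK]
    positivity
  have hF0 : ∀ t, 0 ≤ 2 * ‖Er f H a b v t‖ ^ 2 + ∑ c ∈ Ico (H * a) (H * b), ∑ r ∈ Ico (H' * a') (H' * b'), K c r * M c r t :=
    fun t => add_nonneg (by positivity) (Finset.sum_nonneg fun c _ => Finset.sum_nonneg fun r _ =>
      mul_nonneg (hK0 c r) (sq_nonneg _))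
  have i1 : ∫ t in G, ‖Av f v t‖ ^ 2 ≤ ∫ t in G, (2 * ‖Er f H a b v t‖ ^ 2 +
      ∑ c ∈ Ico (H * a) (H * b), ∑ r ∈ Ico (H' * a') (H' * b'), K c r * M c r t) := by
    refine setIntegral_mono_on ?_ ?_ hG fun t ht => ?_
    · exact ((((cAv v).norm.pow 2).continuousOn).integrableOn_compact isCompact_Icc).mono_set hGT
    · exact ((cF.continuousOn).integrableOn_compact isCompact_Icc).mono_set hGT
    · exact ib_pt hW L (hGt t ht).1 (hGt t ht).2
  have i2 : ∫ t in G, (2 * ‖Er f H a b v t‖ ^ 2 +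
      ∑ c ∈ Ico (H * a) (H * b), ∑ r ∈ Ico (H' * a') (H' * b'), K c r * M c r t) ≤
      ∫ t in (-T)..T, (2 * ‖Er f H a b v t‖ ^ 2 +
      ∑ c ∈ Ico (H * a) (H * b), ∑ r ∈ Ico (H' * a') (H' * b'), K c r * M c r t) := by
    rw [intervalIntegral.integral_of_le hT0, ← integral_Icc_eq_integral_Ioc]
    refine setIntegral_mono_set ((cF.continuousOn).integrableOn_compact isCompact_Icc) ?_ ?_
    · exact Filter.Eventually.of_forall hF0
    · exact HasSubset.Subset.eventuallyLE hGT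
  have i3 : ∫ t in (-T)..T, (2 * ‖Er f H a b v t‖ ^ 2 +
      ∑ c ∈ Ico (H * a) (H * b), ∑ r ∈ Ico (H' * a') (H' * b'), K c r * M c r t) =
      2 * (∫ t in (-T)..T, ‖Er f H a b v t‖ ^ 2) +
        ∑ c ∈ Ico (H * a) (H * b), ∑ r ∈ Ico (H' * a') (H' * b'), K c r * ∫ t in (-T)..T, M c r t := by
    rw [intervalIntegral.integral_add (cE.intervalIntegrable _ _) (cS.intervalIntegrable _ _),
      intervalIntegral.integral_const_mul, intervalIntegral.integral_finset_sum]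
    · congr 1
      refine Finset.sum_congr rfl fun c _ => ?_
      rw [intervalIntegral.integral_finset_sum]
      · refine Finset.sum_congr rfl fun r _ => ?_
        rw [intervalIntegral.integral_const_mul]
      · intro r _
        exact (continuous_const.mul (cM c r)).intervalIntegrable _ _
    · intro c _
      exact (continuous_finset_sum _ fun r _ => continuous_const.mul (cM c r)).intervalIntegrable _ _
  have i4 : ∀ c ∈ Ico (H * a) (H * b), ∀ r ∈ Ico (H' * a') (H' * b'), K c r * ∫ t in (-T)..T, M c r t ≤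
      4 * C₂ * (H * b) * Real.exp (-(3 / 2) * (α - α') * a) := by
    intro c hcm r hrm
    rw [Finset.mem_Ico] at hcm hrm
    obtain ⟨m1, m2⟩ := ib_num (l := L c r) hH' hH ha' hab' hba hα' hαα hα5 hlog hb' hcm.1 hcm.2 hrm.1 hrm.2 rfl
    have m3 := hmom f hf H' r (L c r) hH' (hc r hrm.1) (v - (c : ℝ) / H) T hT
    have m4 : T / Real.exp (L c r * ((r : ℝ) / H') + (v - (c : ℝ) / H)) ≤ 1 := by
      rw [div_le_one (Real.exp_pos _)]
      exact hTv.trans (Real.exp_le_exp.2 (by linarith))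
    have m5 : ∫ t in (-T)..T, M c r t ≤ 2 * C₂ * (L c r : ℝ) ^ L c r := by
      refine m3.trans ?_
      have m6 : C₂ * (L c r : ℝ) ^ L c r * (1 + T / Real.exp (L c r * ((r : ℝ) / H') + (v - (c : ℝ) / H))) ≤
          C₂ * (L c r : ℝ) ^ L c r * 2 := mul_le_mul_of_nonneg_left (by linarith) (by positivity)
      linarith
    calc K c r * ∫ t in (-T)..T, M c r t ≤ K c r * (2 * C₂ * (L c r : ℝ) ^ L c r) :=
          mul_le_mul_of_nonneg_left m5 (hK0 c r)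
      _ = 4 * C₂ * (H * b) * (Real.exp (-2 * α * ((c : ℝ) / H)) *
            Real.exp (2 * α' * (L c r * ((r : ℝ) / H'))) * (L c r : ℝ) ^ L c r) := by
          rw [hK]
          ring
      _ ≤ _ := mul_le_mul_of_nonneg_left m2 (by positivity)
  have i5 : ∑ c ∈ Ico (H * a) (H * b), ∑ r ∈ Ico (H' * a') (H' * b'), K c r * ∫ t in (-T)..T, M c r t ≤
      (H * b) * ((H' * b') * (4 * C₂ * (H * b) * Real.exp (-(3 / 2) * (α - α') * a))) := by
    have j1 : ∀ (s : ℕ) (u w : ℕ) (X : ℝ) (g : ℕ → ℝ), 0 ≤ X → (∀ c ∈ Ico (s * u) (s * w), g c ≤ X) →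
        ∑ c ∈ Ico (s * u) (s * w), g c ≤ (s * w : ℝ) * X := by
      intro s u w X g hX hg
      refine (Finset.sum_le_card_nsmul _ _ _ hg).trans ?_
      rw [nsmul_eq_mul, Nat.card_Ico]
      refine mul_le_mul_of_nonneg_right ?_ hX
      have : s * w - s * u ≤ s * w := Nat.sub_le _ _
      exact_mod_cast this
    refine j1 H a b _ _ (by positivity) fun c hcm => ?_
    exact j1 H' a' b' _ _ (by positivity) fun r hrm => i4 c hcm r hrm
  have hbp : (0 : ℝ) < b := by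
    have : 0 < b := by omega
    exact_mod_cast this
  have hb3 : (b : ℝ) ^ 3 ≤ Real.exp (1 / 2 * ((α - α') * a)) := by
    have h1 : (b : ℝ) ≤ Real.exp ((α - α') * a / 32) := by
      rw [← Real.log_le_iff_le_exp hbp]
      refine hlog.trans ?_
      have haa : (a' : ℝ) ≤ a := by exact_mod_cast (hab'.le.trans hba)
      have : (α - α') * a' ≤ (α - α') * a := mul_le_mul_of_nonneg_left haa hβ.le
      linarith
    have h2 := pow_le_pow_left₀ hbp.le h1 3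
    rw [← Real.exp_nat_mul] at h2
    refine h2.trans (Real.exp_le_exp.2 ?_)
    have : 0 ≤ (α - α') * a := by positivity
    push_cast
    linarith
  have i6 : (H * b : ℝ) * ((H' * b') * (4 * C₂ * (H * b) * Real.exp (-(3 / 2) * (α - α') * a))) ≤
      4 * C₂ * (H ^ 3 * Real.exp (-(α - α') * a)) := by
    have h1 : ((H' : ℝ) * b') ≤ H * b := by
      have h2 : H' * b' ≤ H * b := Nat.mul_le_mul hHH (hba.trans hab.le)
      exact_mod_cast h2
    have h2 : Real.exp (-(3 / 2) * (α - α') * a) * Real.exp (1 / 2 * ((α - α') * a)) = Real.exp (-(α - α') * a) := by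
      rw [← Real.exp_add]
      congr 1
      ring
    calc (H * b : ℝ) * ((H' * b') * (4 * C₂ * (H * b) * Real.exp (-(3 / 2) * (α - α') * a)))
        ≤ (H * b : ℝ) * ((H * b) * (4 * C₂ * (H * b) * Real.exp (-(3 / 2) * (α - α') * a))) := by
          refine mul_le_mul_of_nonneg_left ?_ (by positivity)
          exact mul_le_mul_of_nonneg_right h1 (by positivity)
      _ = 4 * C₂ * H ^ 3 * Real.exp (-(3 / 2) * (α - α') * a) * (b : ℝ) ^ 3 := by ring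
      _ ≤ 4 * C₂ * H ^ 3 * Real.exp (-(3 / 2) * (α - α') * a) * Real.exp (1 / 2 * ((α - α') * a)) :=
          mul_le_mul_of_nonneg_left hb3 (by positivity)
      _ = _ := by rw [mul_assoc, h2]; ring
  have i7 := htk f hf H a b hH hab hW v T hev hT hTv
  have p1 : 0 ≤ 1 / Ws (Bk a b) + 1 / (H : ℝ) := by
    have : 0 < Ws (Bk a b) := by linarith
    positivity
  have p2 : 0 ≤ (H : ℝ) ^ 3 * Real.exp (-(α - α') * a) := by positivity
  have q1 : 2 * (C₁ * (1 / Ws (Bk a b) + 1 / (H : ℝ))) ≤ (2 * C₁ + 4 * C₂) * (1 / Ws (Bk a b) + 1 / (H : ℝ)) := by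
    nlinarith [mul_nonneg hC₂.le p1]
  have q2 : 4 * C₂ * (H ^ 3 * Real.exp (-(α - α') * a)) ≤ (2 * C₁ + 4 * C₂) * (H ^ 3 * Real.exp (-(α - α') * a)) := by
    nlinarith [mul_nonneg hC₁.le p2]
  linarith

end MRT
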