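import Pool.Agent.MRT.Mom
import Pool.Agent.MRT.Spc
import Pool.Agent.MRT.Che

/-!
# MRT-Lva: number of large values of the prime polynomials of the last block

One cell: large values persist on intervals of length `L / (2 (b + 1))`, then the moment bound `mom0` with `k = ⌈v / y⌉`.
-/

set_option autoImplicit false

namespace MRT

open Finset

private theorem qc_lip {f : ℕ → ℝ} (hf : CMr f) {H c b : ℕ} (hH : 1 ≤ H) (hc : c + 1 ≤ H * b)
    (hW : Ws (Cl H c) ≤ 1) (t u : ℝ) : ‖Qc f H c t - Qc f H c u‖ ≤ |t - u| * b := by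
  have hH0 : (0 : ℝ) < H := by exact_mod_cast hH
  have h1 : Qc f H c t - Qc f H c u = ∑ n ∈ Cl H c, ((f n : ℂ) / n * cp n t - (f n : ℂ) / n * cp n u) := by
    simp only [Qc, Dp]
    rw [← Finset.sum_sub_distrib]
  rw [h1]
  refine (norm_sum_le _ _).trans ?_
  have h2 : ∀ n ∈ Cl H c, ‖(f n : ℂ) / n * cp n t - (f n : ℂ) / n * cp n u‖ ≤ |t - u| * b * (1 / (n : ℝ)) := by
    intro n hn
    have hn' : n ∈ Ic ((c : ℝ) / H) (((c : ℝ) + 1) / H) := (Finset.mem_filter.1 hn).1
    have hn1 : 1 ≤ n := one_le_of_mem hn'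
    have hlog : Real.log n ≤ b := by
      have h3 := ((mem_Ic_log hn1).1 hn').2
      have h4 : ((c : ℝ) + 1) / H ≤ b := by
        rw [div_le_iff₀ hH0]
        have : ((c + 1 : ℕ) : ℝ) ≤ ((H * b : ℕ) : ℝ) := by exact_mod_cast hc
        push_cast at this
        linarith
      linarith
    have hlog0 : 0 ≤ Real.log n := Real.log_natCast_nonneg n
    have hcp : cp n t = cp n (t - u) * cp n u := by
      rw [← cp_add]
      congr 1
      ring
    have hfn : ‖(f n : ℂ)‖ = 1 := by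
      rcases hf.sgn n hn1 with h | h <;> rw [h] <;> simp
    have h5 : (f n : ℂ) / n * cp n t - (f n : ℂ) / n * cp n u = (f n : ℂ) / n * cp n u * (cp n (t - u) - 1) := by
      rw [hcp]
      ring
    have h6 : ‖cp n (t - u) - 1‖ ≤ |t - u| * Real.log n := by
      have h7 := Real.norm_exp_I_mul_ofReal_sub_one_le (x := -((t - u) * Real.log n))
      have h8 : cp n (t - u) = Complex.exp (Complex.I * ((-((t - u) * Real.log n) : ℝ) : ℂ)) := by
        rw [cp, mul_comm]
      rw [h8]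
      refine h7.trans ?_
      rw [norm_neg, norm_mul, Real.norm_eq_abs, Real.norm_eq_abs, abs_of_nonneg hlog0]
    rw [h5, norm_mul, norm_mul, norm_div, hfn, norm_cp]
    have h9 : ‖((n : ℕ) : ℂ)‖ = (n : ℝ) := by simp
    rw [h9]
    have h10 : |t - u| * Real.log n ≤ |t - u| * b := mul_le_mul_of_nonneg_left hlog (abs_nonneg _)
    have h11 : (0 : ℝ) ≤ 1 / (n : ℝ) := by positivity
    calc 1 / (n : ℝ) * 1 * ‖cp n (t - u) - 1‖ ≤ 1 / (n : ℝ) * 1 * (|t - u| * b) :=
          mul_le_mul_of_nonneg_left (h6.trans h10) (by linarith)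
      _ = |t - u| * b * (1 / (n : ℝ)) := by ring
  refine (Finset.sum_le_sum h2).trans ?_
  rw [← Finset.mul_sum]
  have h3 : (0 : ℝ) ≤ |t - u| * b := by positivity
  calc |t - u| * b * ∑ n ∈ Cl H c, 1 / (n : ℝ) ≤ |t - u| * b * 1 := mul_le_mul_of_nonneg_left hW h3
    _ = |t - u| * b := by ring

private theorem cell_card {C : ℝ} (hC0 : 0 < C)
    (hC : ∀ f : ℕ → ℝ, CMr f → ∀ H r l : ℕ, 1 ≤ H → Ws (Cl H r) ≤ 1 → ∀ T : ℝ, 1 ≤ T →
      ∫ t in (-T)..T, ‖Qc f H r t ^ l‖ ^ 2 ≤ C * (l : ℝ) ^ l * (1 + T / Real.exp (l * ((r : ℝ) / H))))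
    {f : ℕ → ℝ} (hf : CMr f) {H c b k : ℕ} (hH : 1 ≤ H) (hc : c + 1 ≤ H * b) (hW : Ws (Cl H c) ≤ 1)
    {v L : ℝ} (hv : 0 ≤ v) (hL0 : 0 < L) (hL1 : L ≤ 1) (hk : v ≤ k * ((c : ℝ) / H)) {S : Finset ℝ} (hS : Sp S)
    (h : ∀ t ∈ S, |t| ≤ Real.exp v ∧ L < ‖Qc f H c t‖) :
    (S.card : ℝ) * ((L / (2 * (b + 1))) * (L / 2) ^ (2 * k)) ≤ 3 * C * (k : ℝ) ^ k := by
  set r : ℝ := L / (2 * (b + 1)) with hr
  have hb0 : (0 : ℝ) ≤ b := Nat.cast_nonneg b
  have hr0 : 0 < r := by positivity
  have hr1 : r ≤ 1 / 2 := by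
    rw [hr, div_le_iff₀ (by positivity)]
    nlinarith
  have hrb : r * b ≤ L / 2 := by
    rw [hr, div_mul_eq_mul_div, div_le_iff₀ (by positivity)]
    nlinarith
  have hev : 1 ≤ Real.exp v := Real.one_le_exp hv
  set T : ℝ := 2 * Real.exp v with hT
  have hT1 : 1 ≤ T := by rw [hT]; linarith
  have h1 := hC f hf H c k hH hW T hT1
  have h2 : T / Real.exp (k * ((c : ℝ) / H)) ≤ 2 := by
    rw [div_le_iff₀ (Real.exp_pos _), hT]
    have := Real.exp_le_exp.2 hk
    linarith
  have h3 : ∫ t in (-T)..T, ‖Qc f H c t ^ k‖ ^ 2 ≤ 3 * C * (k : ℝ) ^ k := by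
    refine h1.trans ?_
    have h4 : 0 ≤ C * (k : ℝ) ^ k := by positivity
    nlinarith
  refine le_trans ?_ h3
  set g : ℝ → ℝ := fun x => ‖Qc f H c x ^ k‖ ^ 2 with hg
  have hgc : Continuous g := by
    have : Continuous (Qc f H c) := cont_Dp _ _
    exact (((this.pow k).norm).pow 2)
  have hg0 : ∀ x, 0 ≤ g x := fun x => by positivity
  have hT0 : -T ≤ T := by linarith
  rw [intervalIntegral.integral_of_le hT0]
  have hsub : (⋃ t ∈ S, Set.Ioc t (t + r)) ⊆ Set.Ioc (-T) T := by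
    intro x hx
    simp only [Set.mem_iUnion, Set.mem_Ioc, exists_prop] at hx
    obtain ⟨t, ht, hx1, hx2⟩ := hx
    have h5 := abs_le.1 (h t ht).1
    constructor
    · rw [hT]; linarith [h5.1]
    · rw [hT]; linarith [h5.2]
  have hint : MeasureTheory.IntegrableOn g (Set.Ioc (-T) T) MeasureTheory.volume :=
    (hgc.integrableOn_Icc (a := -T) (b := T)).mono_set Set.Ioc_subset_Icc_self
  have h6 : ∫ x in (⋃ t ∈ S, Set.Ioc t (t + r)), g x ≤ ∫ x in Set.Ioc (-T) T, g x := by
    apply MeasureTheory.setIntegral_mono_set hint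
    · exact Filter.Eventually.of_forall hg0
    · exact hsub.eventuallyLE
  refine le_trans ?_ h6
  have h7 : ∫ x in (⋃ t ∈ S, Set.Ioc t (t + r)), g x = ∑ t ∈ S, ∫ x in Set.Ioc t (t + r), g x := by
    apply MeasureTheory.integral_biUnion_finset
    · intro t _
      exact measurableSet_Ioc
    · intro t ht t' ht' hne
      have h8 := hS t ht t' ht' hne
      refine Set.disjoint_left.2 ?_
      intro x hx hx'
      obtain ⟨hx1, hx2⟩ := hx
      obtain ⟨hx3, hx4⟩ := hx'
      have : |t - t'| < 1 := by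
        rw [abs_lt]
        constructor <;> linarith
      linarith
    · intro t _
      exact (hgc.integrableOn_Icc (a := t) (b := t + r)).mono_set Set.Ioc_subset_Icc_self
  rw [h7]
  have h9 : ∀ t ∈ S, r * (L / 2) ^ (2 * k) ≤ ∫ x in Set.Ioc t (t + r), g x := by
    intro t ht
    have h10 : ∀ x ∈ Set.Ioc t (t + r), (L / 2) ^ (2 * k) ≤ g x := by
      intro x hx
      have h11 := qc_lip hf hH hc hW t x
      have h12 : |t - x| ≤ r := by
        rw [abs_le]
        constructor <;> linarith [hx.1, hx.2]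
      have h13 : |t - x| * b ≤ r * b := mul_le_mul_of_nonneg_right h12 hb0
      have h14 : ‖Qc f H c t‖ - ‖Qc f H c x‖ ≤ ‖Qc f H c t - Qc f H c x‖ := norm_sub_norm_le _ _
      have h15 : L / 2 ≤ ‖Qc f H c x‖ := by linarith [(h t ht).2]
      simp only [hg]
      rw [norm_pow, ← pow_mul, mul_comm k 2]
      exact pow_le_pow_left₀ (by positivity) h15 _
    have h16 := MeasureTheory.setIntegral_ge_of_const_le_real (μ := MeasureTheory.volume) measurableSet_Ioc
      (by simp) h10 ((hgc.integrableOn_Icc (a := t) (b := t + r)).mono_set Set.Ioc_subset_Icc_self)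
    have h17 : MeasureTheory.volume.real (Set.Ioc t (t + r)) = r := by
      rw [Real.volume_real_Ioc_of_le (by linarith)]
      ring
    rw [h17] at h16
    linarith
  have h18 := Finset.sum_le_sum h9
  rw [Finset.sum_const, nsmul_eq_mul] at h18
  exact h18

theorem lva : ∃ v₀ : ℝ, ∀ v ≥ v₀, ∀ f : ℕ → ℝ, CMr f → ∀ H a b : ℕ, 1 ≤ H → (H : ℝ) ≤ v → 200 * Real.log v ≤ a → (b : ℝ) ≤ √v → ∀ α : ℝ, 0 < α → α ≤ 1 / 5 →
    ∀ 𝒯 : Finset ℝ, Sp 𝒯 → (∀ t ∈ 𝒯, |t| ≤ Real.exp v ∧ ∃ c ∈ Ico (H * a) (H * b), Real.exp (-α * ((c : ℝ) / H)) < ‖Qc f H c t‖) →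
      (𝒯.card : ℝ) ≤ Real.exp (9 / 20 * v) := by
  obtain ⟨C, hC0, hC⟩ := mom0
  obtain ⟨a₀, ha₀⟩ := cell_unit
  refine ⟨(302 + 12 * C) ^ 2 + Real.exp a₀, ?_⟩
  intro v hv f hf H a b hH hHv hav hbv α hα0 hα1 𝒯 hS h𝒯
  have hexp0 : 0 < Real.exp (a₀ : ℝ) := Real.exp_pos _
  have hv1 : (302 + 12 * C) ^ 2 ≤ v := by linarith
  have hv2 : Real.exp a₀ ≤ v := by nlinarith [sq_nonneg (302 + 12 * C)]
  have hvbig : (302 : ℝ) ^ 2 ≤ v := by nlinarith
  have hv0 : 0 < v := by linarith
  have hsq : 302 + 12 * C ≤ √v := Real.le_sqrt_of_sq_le hv1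
  have hsqv : √v * √v = v := Real.mul_self_sqrt hv0.le
  have hsq0 : 0 < √v := by linarith
  have hsqle : √v ≤ v := by nlinarith
  have hlog1 : 1 ≤ Real.log v := by
    rw [Real.le_log_iff_exp_le hv0]
    have := Real.exp_one_lt_d9
    linarith
  have hloga : (a₀ : ℝ) ≤ Real.log v := by
    rw [Real.le_log_iff_exp_le hv0]
    exact hv2
  have hlogs : Real.log v ≤ 2 * √v := by
    have h1 : Real.log v = 2 * Real.log (√v) := by
      rw [Real.log_sqrt hv0.le]
      ring
    have h2 := Real.log_le_sub_one_of_pos hsq0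
    linarith
  have hH0 : (0 : ℝ) < H := by exact_mod_cast hH
  have ha0 : a₀ ≤ a := by
    have : (a₀ : ℝ) ≤ a := by linarith
    exact_mod_cast this
  have ha200 : (200 : ℝ) ≤ a := by linarith
  set M : ℝ := Real.exp (12 * C + 2 * Real.log v + 2 + 83 / 200 * v + 3 / 5 * √v) with hM
  have hcell : ∀ c ∈ Ico (H * a) (H * b),
      (((𝒯.filter fun t => Real.exp (-α * ((c : ℝ) / H)) < ‖Qc f H c t‖).card : ℕ) : ℝ) ≤ M := by
    intro c hc
    rw [Finset.mem_Ico] at hc
    set y : ℝ := (c : ℝ) / H with hy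
    have hya : (a : ℝ) ≤ y := by
      rw [hy, le_div_iff₀ hH0]
      have : ((H * a : ℕ) : ℝ) ≤ (c : ℝ) := by exact_mod_cast hc.1
      push_cast at this
      linarith
    have hyb : y ≤ b := by
      rw [hy, div_le_iff₀ hH0]
      have : (c : ℝ) ≤ ((H * b : ℕ) : ℝ) := by exact_mod_cast hc.2.le
      push_cast at this
      linarith
    have hy0 : 0 < y := by linarith
    have hW : Ws (Cl H c) ≤ 1 := ha₀ H c hH ((Nat.mul_le_mul_left H ha0).trans hc.1)
    set k : ℕ := ⌈v / y⌉₊ with hk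
    have hk1 : v ≤ k * y := by
      have := Nat.le_ceil (v / y)
      rw [← hk, div_le_iff₀ hy0] at this
      exact this
    have hk2 : (k : ℝ) < v / y + 1 := Nat.ceil_lt_add_one (by positivity)
    have hk3 : k * y ≤ v + √v := by
      have h1 : k * y ≤ (v / y + 1) * y := mul_le_mul_of_nonneg_right hk2.le hy0.le
      have h2 : (v / y + 1) * y = v + y := by
        field_simp
      linarith
    have hk4 : (k : ℝ) * Real.log v ≤ v / 200 + Real.log v := by
      have h1 : v / y * Real.log v ≤ v / 200 := by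
        rw [div_mul_eq_mul_div, div_le_iff₀ hy0]
        nlinarith
      nlinarith
    have hk5 : (k : ℝ) ≤ v / 200 + 1 := by
      have h1 : v / y ≤ v / 200 := div_le_div_of_nonneg_left hv0.le (by norm_num) (by linarith)
      linarith
    have hk6 : (k : ℝ) ≤ v := by linarith
    have hk0 : 0 < (k : ℝ) := by
      by_contra h0
      have : k * y ≤ 0 := by nlinarith
      linarith
    set L : ℝ := Real.exp (-α * y) with hL
    have hL0 : 0 < L := Real.exp_pos _
    have hL1 : L ≤ 1 := by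
      rw [hL]
      apply Real.exp_le_one_iff.2
      nlinarith
    have hmain := cell_card (b := b) (k := k) hC0 hC hf hH (by omega : c + 1 ≤ H * b) hW hv0.le hL0 hL1 hk1
      (S := 𝒯.filter fun t => L < ‖Qc f H c t‖)
      (fun t ht t' ht' hne => hS t (Finset.mem_filter.1 ht).1 t' (Finset.mem_filter.1 ht').1 hne)
      (fun t ht => ⟨(h𝒯 t (Finset.mem_filter.1 ht).1).1, (Finset.mem_filter.1 ht).2⟩)
    set N : ℝ := (((𝒯.filter fun t => L < ‖Qc f H c t‖).card : ℕ) : ℝ) with hN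
    -- take everything to the exponential form
    have hb1 : (2 * ((b : ℝ) + 1)) ≤ 4 * v := by linarith
    have hD : Real.exp (-(Real.log v + (v / 100 + 2) + (2 / 5 * v + 3 / 5 * √v))) / 4 ≤
        L / (2 * (b + 1)) * (L / 2) ^ (2 * k) := by
      have e1 : L / (2 * (b + 1)) * (L / 2) ^ (2 * k) = L ^ (2 * k + 1) * (1 / 4) ^ k * (1 / (2 * (b + 1))) := by
        have h1 : (L / 2) ^ (2 * k) = L ^ (2 * k) * (1 / 4) ^ k := by
          rw [div_pow, pow_mul (2 : ℝ) 2 k, one_div_pow]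
          norm_num
          ring
        rw [h1, pow_succ, div_eq_mul_one_div L (2 * ((b : ℝ) + 1))]
        ring
      have e2 : L ^ (2 * k + 1) = Real.exp (-(α * ((2 * k + 1) * y))) := by
        rw [hL, ← Real.exp_nat_mul]
        congr 1
        push_cast
        ring
      have e3 : Real.exp (-(2 / 5 * v + 3 / 5 * √v)) ≤ L ^ (2 * k + 1) := by
        rw [e2]
        apply Real.exp_le_exp.2
        have h1 : (2 * k + 1) * y ≤ 2 * v + 3 * √v := by nlinarith
        have h2 : 0 ≤ (2 * (k : ℝ) + 1) * y := by positivity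
        have h3 : α * ((2 * k + 1) * y) ≤ 1 / 5 * (2 * v + 3 * √v) := by
          calc α * ((2 * k + 1) * y) ≤ 1 / 5 * ((2 * k + 1) * y) := mul_le_mul_of_nonneg_right hα1 h2
            _ ≤ 1 / 5 * (2 * v + 3 * √v) := by linarith
        linarith
      have e4 : Real.exp (-(v / 100 + 2)) ≤ (1 / 4 : ℝ) ^ k := by
        have h1 : Real.exp (-2) ≤ 1 / 4 := by
          have h2 : (4 : ℝ) ≤ Real.exp 2 := by
            have h3 : Real.exp 2 = Real.exp 1 * Real.exp 1 := by
              rw [← Real.exp_add]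
              norm_num
            have h4 := Real.exp_one_gt_d9
            rw [h3]
            nlinarith
          rw [Real.exp_neg, one_div]
          exact inv_anti₀ (by norm_num) h2
        have h2 : Real.exp (-(v / 100 + 2)) ≤ Real.exp (-2) ^ k := by
          rw [← Real.exp_nat_mul]
          apply Real.exp_le_exp.2
          linarith
        refine h2.trans ?_
        exact pow_le_pow_left₀ (Real.exp_pos _).le h1 k
      have e5 : Real.exp (-(Real.log v)) / 4 ≤ 1 / (2 * (b + 1)) := by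
        rw [Real.exp_neg, Real.exp_log hv0]
        have h1 : v⁻¹ / 4 = 1 / (4 * v) := by
          field_simp
        rw [h1]
        exact one_div_le_one_div_of_le (by positivity) hb1
      rw [e1]
      have e6 : Real.exp (-(Real.log v + (v / 100 + 2) + (2 / 5 * v + 3 / 5 * √v))) / 4 =
          Real.exp (-(2 / 5 * v + 3 / 5 * √v)) * Real.exp (-(v / 100 + 2)) * (Real.exp (-(Real.log v)) / 4) := by
        rw [mul_div_assoc', ← Real.exp_add, ← Real.exp_add]
        congr 2
        ring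
      rw [e6]
      apply mul_le_mul (mul_le_mul e3 e4 (Real.exp_pos _).le (by positivity)) e5 (by positivity) (by positivity)
    have hE : 3 * C * (k : ℝ) ^ k ≤ Real.exp (12 * C + (v / 200 + Real.log v)) / 4 := by
      have h1 : (k : ℝ) ^ k ≤ Real.exp (v / 200 + Real.log v) := by
        rw [← Real.exp_log hk0, ← Real.exp_nat_mul]
        apply Real.exp_le_exp.2
        have h2 : Real.log k ≤ Real.log v := Real.log_le_log hk0 hk6
        nlinarith
      have h2 : 12 * C ≤ Real.exp (12 * C) := by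
        have := Real.add_one_le_exp (12 * C)
        linarith
      rw [Real.exp_add]
      have h3 : 12 * C * (k : ℝ) ^ k ≤ Real.exp (12 * C) * Real.exp (v / 200 + Real.log v) :=
        mul_le_mul h2 h1 (by positivity) (Real.exp_pos _).le
      linarith
    have hN0 : 0 ≤ N := by rw [hN]; positivity
    have h20 : N * (Real.exp (-(Real.log v + (v / 100 + 2) + (2 / 5 * v + 3 / 5 * √v))) / 4) ≤
        Real.exp (12 * C + (v / 200 + Real.log v)) / 4 :=
      (mul_le_mul_of_nonneg_left hD hN0).trans (hmain.trans hE)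
    have h21 : N * Real.exp (-(Real.log v + (v / 100 + 2) + (2 / 5 * v + 3 / 5 * √v))) ≤
        Real.exp (12 * C + (v / 200 + Real.log v)) := by linarith
    rw [Real.exp_neg, ← div_eq_mul_inv, div_le_iff₀ (Real.exp_pos _), ← Real.exp_add] at h21
    refine h21.trans ?_
    rw [hM]
    apply Real.exp_le_exp.2
    linarith
  have hsubset : 𝒯 ⊆ (Ico (H * a) (H * b)).biUnion fun c => 𝒯.filter fun t => Real.exp (-α * ((c : ℝ) / H)) < ‖Qc f H c t‖ := by
    intro t ht
    obtain ⟨_, c, hc, hlt⟩ := h𝒯 t ht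
    exact Finset.mem_biUnion.2 ⟨c, hc, Finset.mem_filter.2 ⟨ht, hlt⟩⟩
  have hcard : (𝒯.card : ℝ) ≤ ∑ c ∈ Ico (H * a) (H * b),
      (((𝒯.filter fun t => Real.exp (-α * ((c : ℝ) / H)) < ‖Qc f H c t‖).card : ℕ) : ℝ) := by
    have := (Finset.card_le_card hsubset).trans Finset.card_biUnion_le
    exact_mod_cast this
  have hnum : ((Ico (H * a) (H * b)).card : ℝ) ≤ Real.exp (2 * Real.log v) := by
    have h1 : ((Ico (H * a) (H * b)).card : ℝ) ≤ ((H * b : ℕ) : ℝ) := by
      rw [Nat.card_Ico]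
      exact_mod_cast Nat.sub_le _ _
    have h2 : ((H * b : ℕ) : ℝ) ≤ v * v := by
      push_cast
      exact mul_le_mul hHv (hbv.trans hsqle) (Nat.cast_nonneg _) hv0.le
    have h3 : Real.exp (2 * Real.log v) = v * v := by
      rw [two_mul, Real.exp_add, Real.exp_log hv0]
    rw [h3]
    exact h1.trans h2
  calc (𝒯.card : ℝ) ≤ ∑ c ∈ Ico (H * a) (H * b),
      (((𝒯.filter fun t => Real.exp (-α * ((c : ℝ) / H)) < ‖Qc f H c t‖).card : ℕ) : ℝ) := hcard
    _ ≤ ∑ _c ∈ Ico (H * a) (H * b), M := Finset.sum_le_sum hcell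
    _ = ((Ico (H * a) (H * b)).card : ℝ) * M := by rw [Finset.sum_const, nsmul_eq_mul]
    _ ≤ Real.exp (2 * Real.log v) * M := mul_le_mul_of_nonneg_right hnum (Real.exp_pos _).le
    _ ≤ Real.exp (9 / 20 * v) := by
        rw [hM, ← Real.exp_add]
        apply Real.exp_le_exp.2
        have h1 : (302 + 12 * C) * √v ≤ v := by nlinarith
        have h2 : 0 < C * √v := by positivity
        have h3 : 302 * C ≤ C * √v := by nlinarith
        nlinarith

end MRT
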