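import Mathlib

/-!
# MRT-Seq: the sequence of blocks
-/

set_option autoImplicit false

namespace MRT

/-- `(a, b)` of the block with index `i`. -/
def blk (E a₁ : ℕ) : ℕ → ℕ × ℕ
  | 0 => (a₁, a₁ * 3 ^ E)
  | i + 1 => (100 * (i + 2) ^ 2 * (blk E a₁ i).2, 100 * (i + 2) ^ 2 * (blk E a₁ i).2 * 3 ^ (E * (i + 2) ^ 2))

def aa (E a₁ i : ℕ) : ℕ := (blk E a₁ i).1
def bb (E a₁ i : ℕ) : ℕ := (blk E a₁ i).2

theorem bb_eq (E a₁ i : ℕ) : bb E a₁ i = aa E a₁ i * 3 ^ (E * (i + 1) ^ 2) := by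
  cases i with
  | zero =>
    show a₁ * 3 ^ E = a₁ * 3 ^ (E * (0 + 1) ^ 2)
    simp
  | succ i => rfl

theorem aa_succ (E a₁ i : ℕ) : aa E a₁ (i + 1) = 100 * (i + 2) ^ 2 * bb E a₁ i := rfl

theorem bb_mono (E a₁ : ℕ) : Monotone (bb E a₁) := by
  refine monotone_nat_of_le_succ fun i => ?_
  rw [bb_eq E a₁ (i + 1), aa_succ]
  have h1 : 1 ≤ 100 * (i + 2) ^ 2 * 3 ^ (E * (i + 1 + 1) ^ 2) :=
    Nat.one_le_iff_ne_zero.2 (by positivity)
  calc bb E a₁ i = 1 * bb E a₁ i := (one_mul _).symm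
    _ ≤ (100 * (i + 2) ^ 2 * 3 ^ (E * (i + 1 + 1) ^ 2)) * bb E a₁ i := Nat.mul_le_mul_right _ h1
    _ = _ := by ring

private theorem aa_le_bb (E a₁ i : ℕ) : aa E a₁ i ≤ bb E a₁ i := by
  rw [bb_eq]
  exact Nat.le_mul_of_pos_right _ (by positivity)

private theorem aa_ge {E a₁ M : ℕ} (h : 16 * M ≤ a₁) (i : ℕ) : M * (i + 2) ^ 4 ≤ aa E a₁ i := by
  induction i with
  | zero =>
    show M * (0 + 2) ^ 4 ≤ a₁
    norm_num
    omega
  | succ i ih =>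
    rw [aa_succ]
    have h1 := aa_le_bb E a₁ i
    have h2 : (i + 1 + 2) ^ 4 ≤ 100 * (i + 2) ^ 4 := by
      have h3 : i + 1 + 2 ≤ 2 * (i + 2) := by omega
      calc (i + 1 + 2) ^ 4 ≤ (2 * (i + 2)) ^ 4 := Nat.pow_le_pow_left h3 4
        _ = 16 * (i + 2) ^ 4 := by ring
        _ ≤ 100 * (i + 2) ^ 4 := Nat.mul_le_mul_right _ (by norm_num)
    have h4 : 1 ≤ (i + 2) ^ 2 := Nat.one_le_iff_ne_zero.2 (by positivity)
    calc M * (i + 1 + 2) ^ 4 ≤ M * (100 * (i + 2) ^ 4) := Nat.mul_le_mul_left _ h2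
      _ = 100 * 1 * (M * (i + 2) ^ 4) := by ring
      _ ≤ 100 * (i + 2) ^ 2 * bb E a₁ i :=
          Nat.mul_le_mul (Nat.mul_le_mul_left _ h4) (ih.trans h1)

private theorem log_bd {s a : ℕ} (p q : ℕ) (hs : 1 ≤ s) (ha : 1 ≤ a) :
    Real.log ((100 * s ^ 2 * (a * 3 ^ p) * 3 ^ q : ℕ) : ℝ) ≤
      99 + 2 * s + 2 * √(a : ℝ) + 2 * (p + q) := by
  have hs' : (0 : ℝ) < s := by exact_mod_cast hs
  have ha' : (0 : ℝ) < a := by exact_mod_cast ha
  push_cast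
  rw [Real.log_mul (by positivity) (by positivity), Real.log_mul (by positivity) (by positivity),
    Real.log_mul (by positivity) (by positivity), Real.log_mul (by positivity) (by positivity),
    Real.log_pow, Real.log_pow, Real.log_pow]
  have h1 : Real.log 100 ≤ 99 := by
    have := Real.log_le_sub_one_of_pos (show (0 : ℝ) < 100 by norm_num)
    linarith
  have h2 : Real.log 3 ≤ 2 := by
    have := Real.log_le_sub_one_of_pos (show (0 : ℝ) < 3 by norm_num)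
    linarith
  have h3 := Real.log_le_sub_one_of_pos hs'
  have h4 : Real.log a ≤ 2 * √(a : ℝ) := by
    have h5 := Real.log_le_sub_one_of_pos (Real.sqrt_pos.2 ha')
    rw [Real.log_sqrt ha'.le] at h5
    linarith
  have h6 : (p : ℝ) * Real.log 3 ≤ p * 2 := mul_le_mul_of_nonneg_left h2 (Nat.cast_nonneg p)
  have h7 : (q : ℝ) * Real.log 3 ≤ q * 2 := mul_le_mul_of_nonneg_left h2 (Nat.cast_nonneg q)
  push_cast
  linarith

theorem seq_cond (E H₀ A : ℕ) (hE : 1 ≤ E) (hH : 1 ≤ H₀) (hA : 1 ≤ A) : ∃ a₁ : ℕ, 1 ≤ a₁ ∧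
    (∀ i : ℕ, 320 * ((i : ℝ) + 1) * (i + 2) * Real.log (bb E a₁ (i + 1)) ≤ aa E a₁ i) ∧
    (∀ i : ℕ, A + i ≤ aa E a₁ i) ∧ (∀ i : ℕ, (A : ℝ) * H₀ ^ 3 * (i + 2) ^ 8 ≤ Real.exp (bb E a₁ i)) ∧
    ((H₀ : ℝ) * bb E a₁ 0) ^ 2 * Real.exp (-(a₁ : ℝ) / 5) ≤ 1 / A := by
  obtain ⟨M, hM⟩ : ∃ M : ℕ, M = 2000000 * E + 2 * A * H₀ ^ 3 := ⟨_, rfl⟩
  obtain ⟨a₁, ha₁⟩ : ∃ a₁ : ℕ, a₁ = 16 * M + 750 * A * H₀ ^ 2 * 9 ^ E := ⟨_, rfl⟩
  have hEr : (1 : ℝ) ≤ E := by exact_mod_cast hE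
  have hHr : (1 : ℝ) ≤ H₀ := by exact_mod_cast hH
  have hAr : (1 : ℝ) ≤ A := by exact_mod_cast hA
  have h16 : 16 * M ≤ a₁ := by omega
  have hM1 : 2000000 * E ≤ M := by omega
  have hM2 : 2 * A * H₀ ^ 3 ≤ M := by omega
  have hM3 : A ≤ M := by
    have h1 : 1 ≤ H₀ ^ 3 := Nat.one_le_iff_ne_zero.2 (by positivity)
    calc A = A * 1 := (mul_one A).symm
      _ ≤ (2 * A) * H₀ ^ 3 := Nat.mul_le_mul (by omega) h1
      _ ≤ M := hM2
  refine ⟨a₁, by omega, ?_, ?_, ?_, ?_⟩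
  · intro i
    have h1 := aa_ge (E := E) h16 i
    have hpos : 1 ≤ aa E a₁ i := by
      have : 0 < M * (i + 2) ^ 4 := Nat.mul_pos (by omega) (by positivity)
      omega
    have h2 : bb E a₁ (i + 1) = 100 * (i + 2) ^ 2 * (aa E a₁ i * 3 ^ (E * (i + 1) ^ 2)) *
        3 ^ (E * (i + 1 + 1) ^ 2) := by
      rw [bb_eq E a₁ (i + 1), aa_succ, bb_eq]
    have h3 := log_bd (s := i + 2) (a := aa E a₁ i) (E * (i + 1) ^ 2) (E * (i + 1 + 1) ^ 2)
      (by omega) hpos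
    rw [← h2] at h3
    obtain ⟨a, ha⟩ : ∃ a : ℝ, a = (aa E a₁ i : ℝ) := ⟨_, rfl⟩
    obtain ⟨s, hs⟩ : ∃ s : ℝ, s = (i : ℝ) + 2 := ⟨_, rfl⟩
    have hs2 : 2 ≤ s := by
      rw [hs]
      have : (0 : ℝ) ≤ i := Nat.cast_nonneg i
      linarith
    have ha4 : 2000000 * E * s ^ 4 ≤ a := by
      have h4 : (M : ℝ) * ((i : ℝ) + 2) ^ 4 ≤ a := by
        rw [ha]
        exact_mod_cast h1
      have h5 : (2000000 : ℝ) * E ≤ M := by exact_mod_cast hM1
      rw [hs]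
      exact (mul_le_mul_of_nonneg_right h5 (by positivity)).trans h4
    have ha0 : 0 ≤ a := by
      rw [ha]
      exact Nat.cast_nonneg _
    have hr : 1280 * s ^ 2 ≤ √a := by
      refine Real.le_sqrt_of_sq_le (le_trans ?_ ha4)
      have h5 : (1280 * s ^ 2) ^ 2 = 1638400 * s ^ 4 := by ring
      rw [h5]
      refine mul_le_mul_of_nonneg_right ?_ (by positivity)
      linarith
    have hr2 : √a * √a = a := Real.mul_self_sqrt ha0
    have h6 : Real.log (bb E a₁ (i + 1)) ≤ 105 * E * s ^ 2 + 2 * √a := by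
      refine h3.trans ?_
      rw [← ha]
      push_cast
      have e1 : (i : ℝ) + 1 + 1 = s := by rw [hs]; ring
      have e2 : (i : ℝ) + 1 = s - 1 := by rw [hs]; ring
      rw [e1, e2, ← hs]
      have h7 : (1 : ℝ) ≤ E * s ^ 2 := by nlinarith
      have h8 : s ≤ E * s ^ 2 := by nlinarith
      have h9 : (E : ℝ) * (s - 1) ^ 2 ≤ E * s ^ 2 := by
        refine mul_le_mul_of_nonneg_left ?_ (by linarith)
        nlinarith
      linarith
    have h7 : 0 ≤ 105 * E * s ^ 2 + 2 * √a := by positivity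
    rw [← ha]
    have e2 : (i : ℝ) + 1 = s - 1 := by rw [hs]; ring
    rw [e2, ← hs]
    calc 320 * (s - 1) * s * Real.log (bb E a₁ (i + 1)) ≤
          320 * (s - 1) * s * (105 * E * s ^ 2 + 2 * √a) := by
          refine mul_le_mul_of_nonneg_left h6 ?_
          have : 0 ≤ s - 1 := by linarith
          positivity
      _ ≤ 320 * s * s * (105 * E * s ^ 2 + 2 * √a) := by
          refine mul_le_mul_of_nonneg_right ?_ h7
          nlinarith
      _ = 33600 * E * s ^ 4 + 640 * s ^ 2 * √a := by ring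
      _ ≤ a / 2 + a / 2 := by
          have h8 : 33600 * E * s ^ 4 ≤ a / 2 := by
            have : 0 ≤ E * s ^ 4 := by positivity
            linarith
          have h9 : 640 * s ^ 2 * √a ≤ a / 2 := by
            have h10 := mul_le_mul_of_nonneg_right hr (Real.sqrt_nonneg a)
            rw [hr2] at h10
            linarith
          linarith
      _ = a := by ring
  · intro i
    have h1 := aa_ge (E := E) h16 i
    refine le_trans ?_ h1
    have h2 : i + 2 ≤ (i + 2) ^ 4 := Nat.le_self_pow (by norm_num) _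
    calc A + i ≤ A * (i + 2) := by nlinarith
      _ ≤ M * (i + 2) ^ 4 := Nat.mul_le_mul hM3 h2
  · intro i
    have h1 := (aa_ge (E := E) h16 i).trans (aa_le_bb E a₁ i)
    have h2 : (M : ℝ) * ((i : ℝ) + 2) ^ 4 ≤ bb E a₁ i := by exact_mod_cast h1
    refine le_trans ?_ (Real.exp_le_exp.2 h2)
    have h3 := Real.pow_div_factorial_le_exp ((M : ℝ) * ((i : ℝ) + 2) ^ 4) (by positivity) 2
    refine le_trans ?_ h3
    have h4 : 2 * (A : ℝ) * H₀ ^ 3 ≤ M := by exact_mod_cast hM2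
    have h5 : (1 : ℝ) ≤ M := by
      have : A ≤ M := hM3
      have h6 : (A : ℝ) ≤ M := by exact_mod_cast this
      linarith
    have h6 : 2 * (A : ℝ) * H₀ ^ 3 ≤ (M : ℝ) ^ 2 := by nlinarith
    have h7 : ((M : ℝ) * ((i : ℝ) + 2) ^ 4) ^ 2 / ((2 : ℕ).factorial : ℝ) =
        ((M : ℝ) ^ 2 / 2) * ((i : ℝ) + 2) ^ 8 := by
      have : ((2 : ℕ).factorial : ℝ) = 2 := by norm_num [Nat.factorial]
      rw [this]
      ring
    rw [h7]
    refine mul_le_mul_of_nonneg_right ?_ (by positivity)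
    linarith
  · have h1 : (750 : ℝ) * A * H₀ ^ 2 * 9 ^ E ≤ a₁ := by
      have : 750 * A * H₀ ^ 2 * 9 ^ E ≤ a₁ := by omega
      exact_mod_cast this
    have h2 := Real.pow_div_factorial_le_exp ((a₁ : ℝ) / 5) (by positivity) 3
    have h3 : ((a₁ : ℝ) / 5) ^ 3 / ((3 : ℕ).factorial : ℝ) = (a₁ : ℝ) ^ 3 / 750 := by
      have : ((3 : ℕ).factorial : ℝ) = 6 := by norm_num [Nat.factorial]
      rw [this]
      ring
    rw [h3] at h2
    have h4 : (bb E a₁ 0 : ℝ) = a₁ * 3 ^ E := by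
      have : bb E a₁ 0 = a₁ * 3 ^ E := rfl
      rw [this]
      push_cast
      ring
    have h5 : (-(a₁ : ℝ) / 5) = -((a₁ : ℝ) / 5) := by ring
    rw [h4, h5, Real.exp_neg, le_div_iff₀ (by linarith), ← div_eq_mul_inv, div_mul_eq_mul_div,
      div_le_one (Real.exp_pos _)]
    refine le_trans ?_ h2
    have h6 : ((H₀ : ℝ) * (a₁ * 3 ^ E)) ^ 2 * A = (a₁ : ℝ) ^ 2 * (A * H₀ ^ 2 * 9 ^ E) := by
      have : (9 : ℝ) ^ E = (3 ^ E) ^ 2 := by
        rw [← pow_mul, mul_comm E 2, pow_mul]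
        norm_num
      rw [this]
      ring
    rw [h6]
    have h7 : (a₁ : ℝ) ^ 3 / 750 = (a₁ : ℝ) ^ 2 * (a₁ / 750) := by ring
    rw [h7]
    refine mul_le_mul_of_nonneg_left ?_ (by positivity)
    linarith

end MRT
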