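import Pool.Agent.MRT.ItA
import Pool.Agent.MRT.ItB
import Pool.Agent.MRT.Seq
import Pool.Agent.MRT.Lva

/-!
# MRT-ItC: all frequencies outside the exceptional set
-/

set_option autoImplicit false

namespace MRT

open Finset MeasureTheory

/-- the frequencies at which the prime polynomials of a block are small -/
private def gset (f : ℕ → ℝ) (T : ℝ) (H a b : ℕ) (α : ℝ) : Set ℝ :=
  {t | t ∈ Set.Icc (-T) T ∧ ∀ c ∈ Ico (H * a) (H * b), ‖Qc f H c t‖ ≤ Real.exp (-α * ((c : ℝ) / H))}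

private theorem gset_meas (f : ℕ → ℝ) (T : ℝ) (H a b : ℕ) (α : ℝ) : MeasurableSet (gset f T H a b α) := by
  have h1 : gset f T H a b α = Set.Icc (-T) T ∩ ⋂ c ∈ Ico (H * a) (H * b),
      {t | ‖Qc f H c t‖ ≤ Real.exp (-α * ((c : ℝ) / H))} := by
    ext t
    simp only [gset, Set.mem_ofPred_eq, Set.mem_inter_iff, Set.mem_iInter]
  rw [h1]
  apply IsClosed.measurableSet
  refine isClosed_Icc.inter (isClosed_biInter fun c _ => ?_)
  exact isClosed_le (cont_Dp _ _).norm continuous_const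

private theorem ic_union {F : ℝ → ℝ} (hF : Continuous F) (hF0 : ∀ t, 0 ≤ F t) {T : ℝ} {G : ℕ → Set ℝ}
    (hG : ∀ i, MeasurableSet (G i)) (hT : ∀ i, G i ⊆ Set.Icc (-T) T) (j : ℕ) :
    MeasurableSet {t | ∃ i ≤ j, t ∈ G i} ∧
      ∫ t in {t | ∃ i ≤ j, t ∈ G i}, F t ≤ (∫ t in G 0, F t) + ∑ i ∈ range j, ∫ t in G (i + 1) \ G i, F t := by
  have hint : ∀ A : Set ℝ, A ⊆ Set.Icc (-T) T → IntegrableOn F A := fun A hA =>
    (hF.integrableOn_Icc).mono_set hA
  induction j with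
  | zero =>
    have h1 : {t | ∃ i ≤ 0, t ∈ G i} = G 0 := by
      ext t
      constructor
      · rintro ⟨i, hi, h⟩
        have h2 : i = 0 := by omega
        rw [h2] at h
        exact h
      · intro h
        exact ⟨0, le_rfl, h⟩
    rw [h1]
    exact ⟨hG 0, by simp⟩
  | succ j ih =>
    obtain ⟨h1, h2⟩ := ih
    obtain ⟨A, hA⟩ : ∃ A, A = {t | ∃ i ≤ j, t ∈ G i} := ⟨_, rfl⟩
    rw [← hA] at h1 h2
    have h3 : {t | ∃ i ≤ j + 1, t ∈ G i} = A ∪ (G (j + 1) \ A) := by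
      rw [hA]
      ext t
      constructor
      · rintro ⟨i, hi, h⟩
        by_cases h4 : t ∈ {t | ∃ i ≤ j, t ∈ G i}
        · exact Or.inl h4
        · have h5 : i = j + 1 := by
            by_contra hc
            exact h4 ⟨i, by omega, h⟩
          rw [h5] at h
          exact Or.inr ⟨h, h4⟩
      · rintro (⟨i, hi, h⟩ | ⟨h, -⟩)
        · exact ⟨i, by omega, h⟩
        · exact ⟨j + 1, le_rfl, h⟩
    have hAT : A ⊆ Set.Icc (-T) T := by
      rw [hA]
      rintro t ⟨i, -, h⟩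
      exact hT i h
    have hB : G (j + 1) \ A ⊆ Set.Icc (-T) T := Set.sdiff_subset.trans (hT _)
    rw [h3]
    refine ⟨h1.union ((hG _).diff h1), ?_⟩
    rw [setIntegral_union Set.disjoint_sdiff_right ((hG _).diff h1) (hint _ hAT) (hint _ hB), Finset.sum_range_succ]
    have h4 : ∫ t in G (j + 1) \ A, F t ≤ ∫ t in G (j + 1) \ G j, F t := by
      apply setIntegral_mono_set (hint _ (Set.sdiff_subset.trans (hT _)))
      · exact Filter.Eventually.of_forall fun t => hF0 t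
      · apply Filter.Eventually.of_forall
        rintro t ⟨h5, h6⟩
        refine ⟨h5, fun h7 => h6 ?_⟩
        rw [hA]
        exact ⟨j, le_rfl, h7⟩
    linarith

private theorem ic_sum (j : ℕ) : ∑ i ∈ range j, 1 / ((i : ℝ) + 2) ^ 2 ≤ 1 - 1 / ((j : ℝ) + 1) := by
  induction j with
  | zero => simp
  | succ j ih =>
    rw [Finset.sum_range_succ]
    have h1 : (0 : ℝ) ≤ j := Nat.cast_nonneg j
    have h2 : 1 / ((j : ℝ) + 2) ^ 2 ≤ 1 / ((j : ℝ) + 1) - 1 / ((j : ℝ) + 2) := by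
      rw [div_sub_div _ _ (by linarith) (by linarith)]
      have h3 : 1 * ((j : ℝ) + 2) - ((j : ℝ) + 1) * 1 = 1 := by ring
      rw [h3]
      apply one_div_le_one_div_of_le (by positivity)
      nlinarith
    push_cast
    have h4 : (j : ℝ) + 1 + 1 = j + 2 := by ring
    rw [h4]
    linarith

private theorem ic_W {Cg : ℝ} (hge : ∀ a b : ℕ, 1 ≤ a → a ≤ b → Real.log (b / a) - Cg ≤ Ws (Bk a b))
    {N : ℕ} (hN : 2 * Cg ≤ N) {a i : ℕ} (ha : 1 ≤ a) :
    (N : ℝ) * ((i : ℝ) + 1) ^ 2 / 2 ≤ Ws (Bk a (a * 3 ^ (N * (i + 1) ^ 2))) := by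
  have h1 := hge a (a * 3 ^ (N * (i + 1) ^ 2)) ha (Nat.le_mul_of_pos_right _ (by positivity))
  have ha0 : (a : ℝ) ≠ 0 := by
    have : a ≠ 0 := by omega
    exact_mod_cast this
  have h2 : (((a * 3 ^ (N * (i + 1) ^ 2) : ℕ) : ℝ) / a) = (3 : ℝ) ^ (N * (i + 1) ^ 2) := by
    push_cast
    field_simp
  rw [h2, Real.log_pow] at h1
  push_cast at h1
  have h3 : 1 ≤ Real.log 3 := by
    rw [Real.le_log_iff_exp_le (by norm_num)]
    have := Real.exp_one_lt_d9
    linarith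
  have h4 : (N : ℝ) ≤ (N : ℝ) * ((i : ℝ) + 1) ^ 2 := by
    have h5 : (0 : ℝ) ≤ i := Nat.cast_nonneg i
    have h6 : (0 : ℝ) ≤ N := Nat.cast_nonneg N
    have h7 : 1 ≤ ((i : ℝ) + 1) ^ 2 := by nlinarith
    nlinarith
  have h5 : (N : ℝ) * ((i : ℝ) + 1) ^ 2 ≤ (N : ℝ) * ((i : ℝ) + 1) ^ 2 * Real.log 3 := by
    have h6 : 0 ≤ (N : ℝ) * ((i : ℝ) + 1) ^ 2 := by positivity
    nlinarith
  linarith

private noncomputable def al (i : ℕ) : ℝ := 1 / 5 - 1 / (10 * ((i : ℝ) + 1))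

private theorem al_pos (i : ℕ) : 0 < al i := by
  unfold al
  have h1 : (0 : ℝ) ≤ i := Nat.cast_nonneg i
  have h2 : 1 / (10 * ((i : ℝ) + 1)) ≤ 1 / 10 := by
    apply one_div_le_one_div_of_le (by norm_num)
    linarith
  linarith

private theorem al_le (i : ℕ) : al i ≤ 1 / 5 := by
  unfold al
  have h2 : 0 ≤ 1 / (10 * ((i : ℝ) + 1)) := by positivity
  linarith

private theorem al_sub (i : ℕ) : al (i + 1) - al i = 1 / (10 * ((i : ℝ) + 1) * (i + 2)) := by
  unfold al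
  push_cast
  have h1 : (0 : ℝ) ≤ i := Nat.cast_nonneg i
  have h2 : (i : ℝ) + 1 ≠ 0 := by linarith
  have h3 : (i : ℝ) + 1 + 1 ≠ 0 := by linarith
  have h4 : (i : ℝ) + 2 ≠ 0 := by linarith
  field_simp
  ring

/-- growth conditions on `v` -/
private theorem ic_v {N : ℕ} {v : ℝ} (h1 : 16 ≤ v) (h2 : (640000 * (N : ℝ)) ^ 2 ≤ v) :
    (N : ℝ) * (200 * Real.log v + 2) ^ 2 ≤ v ∧ Real.exp (2 * √v) * v ≤ Real.exp v := by
  have hv0 : 0 < v := by linarith
  obtain ⟨r, hr⟩ : ∃ r, r = √v := ⟨_, rfl⟩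
  obtain ⟨s, hs⟩ : ∃ s, s = √r := ⟨_, rfl⟩
  have hr0 : 0 ≤ r := by rw [hr]; exact Real.sqrt_nonneg _
  have hrr : r * r = v := by rw [hr]; exact Real.mul_self_sqrt hv0.le
  have hr4 : 4 ≤ r := by
    rw [hr]
    apply Real.le_sqrt_of_sq_le
    linarith
  have hss : s * s = r := by rw [hs]; exact Real.mul_self_sqrt hr0
  have hs1 : 0 < s := by rw [hs]; exact Real.sqrt_pos.2 (by linarith)
  have hlr : Real.log v = 2 * Real.log r := by
    rw [← hrr, Real.log_mul (by linarith) (by linarith)]; ring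
  have hls : Real.log r = 2 * Real.log s := by
    rw [← hss, Real.log_mul hs1.ne' hs1.ne']; ring
  have hlog0 : 0 ≤ Real.log v := Real.log_nonneg (by linarith)
  constructor
  · have h3 := Real.log_le_sub_one_of_pos hs1
    have h4 : 200 * Real.log v + 2 ≤ 800 * s := by rw [hlr, hls]; linarith
    have h5 : (200 * Real.log v + 2) ^ 2 ≤ 640000 * r := by
      rw [← hss]
      calc (200 * Real.log v + 2) ^ 2 ≤ (800 * s) ^ 2 := pow_le_pow_left₀ (by linarith) h4 2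
        _ = 640000 * (s * s) := by ring
    have h6 : 640000 * (N : ℝ) ≤ r := by
      rw [hr]
      exact Real.le_sqrt_of_sq_le h2
    have hN0 : (0 : ℝ) ≤ N := Nat.cast_nonneg N
    calc (N : ℝ) * (200 * Real.log v + 2) ^ 2 ≤ N * (640000 * r) := mul_le_mul_of_nonneg_left h5 hN0
      _ = (640000 * N) * r := by ring
      _ ≤ r * r := mul_le_mul_of_nonneg_right h6 hr0
      _ = v := hrr
  · rw [← hr]
    have h3 := Real.log_le_sub_one_of_pos (show 0 < r by linarith)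
    have h4 : Real.exp (2 * r) * v = Real.exp (2 * r + Real.log v) := by
      rw [Real.exp_add, Real.exp_log hv0]
    rw [h4, hlr]
    apply Real.exp_le_exp.2
    nlinarith

theorem iter (ε : ℝ) (hε : 0 < ε) : ∃ h₀ v₀ : ℝ, 1 ≤ h₀ ∧ ∀ v ≥ v₀, ∀ f : ℕ → ℝ, CMr f → ∀ T : ℝ, 1 ≤ T → T * h₀ ≤ Real.exp v →
    ∃ U : Set ℝ, MeasurableSet U ∧ U ⊆ Set.Icc (-T) T ∧
      (∀ 𝒯 : Finset ℝ, Sp 𝒯 → (∀ t ∈ 𝒯, t ∈ U) → (𝒯.card : ℝ) ≤ Real.exp (9 / 20 * v)) ∧
      ∫ t in Set.Icc (-T) T \ U, ‖Av f v t‖ ^ 2 ≤ ε := by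
  obtain ⟨C₁, hC₁, hfirst⟩ := it_first
  obtain ⟨C₂, hC₂, hstep⟩ := it_step
  obtain ⟨Cg, hCg, hge⟩ := block_ge
  obtain ⟨a₀, ha₀⟩ := cell_unit
  obtain ⟨v₁, hv₁⟩ := lva
  obtain ⟨N, hN⟩ := exists_nat_ge (4 * (C₁ + C₂) / ε + 2 * Cg + a₀ + 2)
  have hq0 : 0 < 4 * (C₁ + C₂) / ε := by positivity
  have ha00 : (0 : ℝ) ≤ a₀ := Nat.cast_nonneg _
  have hN2 : 2 ≤ N := by
    have : (2 : ℝ) ≤ N := by linarith
    exact_mod_cast this
  have hNR : (0 : ℝ) < N := by
    have : 0 < N := by omega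
    exact_mod_cast this
  have hNε : (C₁ + C₂) * (4 / N) ≤ ε := by
    have h1 : 4 * (C₁ + C₂) / ε ≤ N := by linarith
    rw [div_le_iff₀ hε] at h1
    rw [mul_div_assoc', div_le_iff₀ hNR]
    linarith
  have hNg : 2 * Cg ≤ N := by linarith
  have hNa : a₀ ≤ N := by
    have : (a₀ : ℝ) ≤ N := by linarith
    exact_mod_cast this
  obtain ⟨a₁, ha₁, s1, s2, s3, s4⟩ := seq_cond N N N (by omega) (by omega) (by omega)
  -- facts on the blocks
  have fa : ∀ i, 1 ≤ aa N a₁ i := fun i => le_trans (by omega) (s2 i)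
  have fab : ∀ i, aa N a₁ i < bb N a₁ i := by
    intro i
    rw [bb_eq]
    have h1 : 1 < 3 ^ (N * (i + 1) ^ 2) := by
      apply Nat.one_lt_pow
      · have : 0 < N * (i + 1) ^ 2 := by positivity
        omega
      · norm_num
    exact (Nat.lt_mul_iff_one_lt_right (fa i)).2 h1
  have fba : ∀ i, bb N a₁ i ≤ aa N a₁ (i + 1) := by
    intro i
    rw [aa_succ]
    exact Nat.le_mul_of_pos_left _ (by positivity)
  have fW : ∀ i : ℕ, (N : ℝ) * ((i : ℝ) + 1) ^ 2 / 2 ≤ Ws (Bk (aa N a₁ i) (bb N a₁ i)) := by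
    intro i
    rw [bb_eq]
    exact ic_W hge hNg (fa i)
  have fW1 : ∀ i : ℕ, 1 ≤ (N : ℝ) * ((i : ℝ) + 1) ^ 2 / 2 := by
    intro i
    have h1 : (0 : ℝ) ≤ i := Nat.cast_nonneg i
    have h2 : (2 : ℝ) ≤ N := by exact_mod_cast hN2
    have h3 : 1 ≤ ((i : ℝ) + 1) ^ 2 := by nlinarith
    nlinarith
  have fWi : ∀ i : ℕ, 1 / Ws (Bk (aa N a₁ i) (bb N a₁ i)) ≤ 2 / (N * ((i : ℝ) + 1) ^ 2) := by
    intro i
    have h1 := one_div_le_one_div_of_le (lt_of_lt_of_le one_pos (fW1 i)) (fW i)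
    refine h1.trans (le_of_eq ?_)
    rw [one_div_div]
  have fH : ∀ i : ℕ, 1 / ((N * (i + 1) ^ 2 : ℕ) : ℝ) = 1 / (N * ((i : ℝ) + 1) ^ 2) := by
    intro i
    push_cast
    rfl
  refine ⟨Real.exp (bb N a₁ 0), max v₁ (max (Real.exp (a₁ : ℝ)) (max ((640000 * (N : ℝ)) ^ 2) 16)),
    Real.one_le_exp (Nat.cast_nonneg _), ?_⟩
  intro v hv f hf T hT hTh
  have hv1 : v₁ ≤ v := (le_max_left _ _).trans hv
  have hv2 : Real.exp (a₁ : ℝ) ≤ v := ((le_max_left _ _).trans (le_max_right _ _)).trans hv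
  have hv3 : (640000 * (N : ℝ)) ^ 2 ≤ v :=
    ((le_max_left _ _).trans ((le_max_right _ _).trans (le_max_right _ _))).trans hv
  have hv4 : 16 ≤ v := ((le_max_right _ _).trans ((le_max_right _ _).trans (le_max_right _ _))).trans hv
  obtain ⟨g1, g2⟩ := ic_v hv4 hv3
  have hv0 : 0 < v := by linarith
  have hlogv : (a₁ : ℝ) ≤ Real.log v := by
    rw [Real.le_log_iff_exp_le hv0]
    exact hv2
  have ha₁R : (1 : ℝ) ≤ a₁ := by exact_mod_cast ha₁
  -- the last block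
  have hex : ∃ i, 200 * Real.log v ≤ aa N a₁ i := by
    refine ⟨⌈200 * Real.log v⌉₊, (Nat.le_ceil _).trans ?_⟩
    exact_mod_cast (Nat.le_add_left _ _).trans (s2 _)
  obtain ⟨J, hJ, hJmin⟩ : ∃ J, 200 * Real.log v ≤ aa N a₁ J ∧ ∀ j < J, ¬ 200 * Real.log v ≤ aa N a₁ j := by
    classical
    exact ⟨Nat.find hex, Nat.find_spec hex, fun j hj => Nat.find_min hex hj⟩
  obtain ⟨j, hj⟩ : ∃ j, J = j + 1 := by
    cases J with
    | zero =>
      exfalso
      have h1 : aa N a₁ 0 = a₁ := rfl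
      rw [h1] at hJ
      linarith
    | succ j => exact ⟨j, rfl⟩
  have hjlt : (aa N a₁ j : ℝ) < 200 * Real.log v := not_le.1 (hJmin j (by omega))
  have hj0 : (0 : ℝ) ≤ j := Nat.cast_nonneg j
  have hHJ : ((N * (J + 1) ^ 2 : ℕ) : ℝ) ≤ v := by
    refine le_trans ?_ g1
    have h1 : (j : ℝ) ≤ aa N a₁ j := by
      exact_mod_cast (Nat.le_add_left j N).trans (s2 j)
    rw [hj]
    push_cast
    apply mul_le_mul_of_nonneg_left _ hNR.le
    apply pow_le_pow_left₀ (by linarith)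
    linarith
  have hbJ : (bb N a₁ J : ℝ) ≤ √v := by
    have hb1 : (1 : ℝ) ≤ bb N a₁ J := by exact_mod_cast (fa J).trans (fab J).le
    have hlb0 : 0 ≤ Real.log (bb N a₁ J) := Real.log_nonneg hb1
    have h1 := s1 j
    rw [← hj] at h1
    have h2 : 640 * Real.log (bb N a₁ J) ≤ 320 * ((j : ℝ) + 1) * (j + 2) * Real.log (bb N a₁ J) := by
      apply mul_le_mul_of_nonneg_right _ hlb0
      nlinarith
    have h3 : Real.log (bb N a₁ J) ≤ Real.log (√v) := by
      rw [Real.log_sqrt hv0.le]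
      linarith
    exact (Real.log_le_log_iff (by linarith) (Real.sqrt_pos.2 hv0)).1 h3
  have hbi : ∀ i ≤ J, Real.exp (2 * bb N a₁ i) * ((N * (i + 1) ^ 2 : ℕ) : ℝ) ≤ Real.exp v := by
    intro i hi
    refine le_trans ?_ g2
    have h1 : bb N a₁ i ≤ bb N a₁ J := bb_mono N a₁ hi
    have h2 : (bb N a₁ i : ℝ) ≤ √v := le_trans (by exact_mod_cast h1) hbJ
    have h3 : ((N * (i + 1) ^ 2 : ℕ) : ℝ) ≤ v := by
      refine le_trans ?_ hHJ
      have : N * (i + 1) ^ 2 ≤ N * (J + 1) ^ 2 := Nat.mul_le_mul_left _ (Nat.pow_le_pow_left (by omega) 2)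
      exact_mod_cast this
    exact mul_le_mul (Real.exp_le_exp.2 (by linarith)) h3 (Nat.cast_nonneg _) (Real.exp_pos _).le
  have hTv : T ≤ Real.exp v := by
    have h1 : 1 ≤ Real.exp (bb N a₁ 0 : ℝ) := Real.one_le_exp (Nat.cast_nonneg _)
    have h2 : T * 1 ≤ T * Real.exp (bb N a₁ 0 : ℝ) := mul_le_mul_of_nonneg_left h1 (by linarith)
    linarith
  obtain ⟨G, hG⟩ : ∃ G : ℕ → Set ℝ, G = fun i => gset f T (N * (i + 1) ^ 2) (aa N a₁ i) (bb N a₁ i) (al i) :=
    ⟨_, rfl⟩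
  have hGm : ∀ i, MeasurableSet (G i) := by
    intro i
    rw [hG]
    exact gset_meas _ _ _ _ _ _
  have hGT : ∀ i, G i ⊆ Set.Icc (-T) T := by
    intro i t ht
    rw [hG] at ht
    exact ht.1
  have hcont : Continuous fun t => ‖Av f v t‖ ^ 2 := (cont_Dp _ _).norm.pow 2
  obtain ⟨hKm, hK⟩ := ic_union hcont (fun t => by positivity) hGm hGT J
  have hKT : {t | ∃ i ≤ J, t ∈ G i} ⊆ Set.Icc (-T) T := by
    rintro t ⟨i, -, h⟩
    exact hGT i h
  refine ⟨Set.Icc (-T) T \ {t | ∃ i ≤ J, t ∈ G i}, measurableSet_Icc.diff hKm, Set.sdiff_subset, ?_, ?_⟩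
  · -- large values
    intro 𝒯 hsp h𝒯
    refine hv₁ v hv1 f hf (N * (J + 1) ^ 2) (aa N a₁ J) (bb N a₁ J) (by
      have : 0 < N * (J + 1) ^ 2 := by positivity
      omega) hHJ hJ hbJ (al J) (al_pos J) (al_le J) 𝒯 hsp ?_
    intro t ht
    obtain ⟨h1, h2⟩ := h𝒯 t ht
    refine ⟨(abs_le.2 h1).trans hTv, ?_⟩
    by_contra hc
    push Not at hc
    exact h2 ⟨J, le_rfl, by rw [hG]; exact ⟨h1, hc⟩⟩
  · rw [Set.sdiff_sdiff_cancel_left hKT]
    refine hK.trans ?_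
    have e0 : ∫ t in G 0, ‖Av f v t‖ ^ 2 ≤ C₁ * (4 / N) := by
      have h1 := hfirst f hf (N * (0 + 1) ^ 2) (aa N a₁ 0) (bb N a₁ 0) (by omega) (fab 0)
        ((fW1 0).trans (fW 0)) (al 0) v T (al_pos 0).le hT hTh (hbi 0 (Nat.zero_le _)) (G 0) (hGm 0) (hGT 0)
        (fun t ht => by rw [hG] at ht; exact ht.2)
      refine h1.trans ?_
      rw [← mul_add]
      apply mul_le_mul_of_nonneg_left _ hC₁.le
      have h2 := fWi 0
      have h3 := fH 0
      rw [h3]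
      have h4 : ((((N * (0 + 1) ^ 2 : ℕ) : ℝ)) * bb N a₁ 0) ^ 2 * Real.exp (-2 * al 0 * aa N a₁ 0) ≤ 1 / N := by
        refine le_trans (le_of_eq ?_) s4
        have h5 : al 0 = 1 / 10 := by unfold al; norm_num
        have h6 : aa N a₁ 0 = a₁ := rfl
        rw [h5, h6]
        congr 1
        · push_cast; ring
        · congr 1; ring
      have h7 : (((0 : ℕ) : ℝ) + 1) ^ 2 = 1 := by norm_num
      rw [h7] at h2 ⊢
      rw [mul_one] at h2 ⊢
      have h8 : (4 : ℝ) / N = 2 / N + 1 / N + 1 / N := by ring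
      rw [h8]
      linarith
    have e1 : ∀ i ∈ range J, ∫ t in G (i + 1) \ G i, ‖Av f v t‖ ^ 2 ≤ C₂ * (4 / N) * (1 / ((i : ℝ) + 2) ^ 2) := by
      intro i hi
      rw [Finset.mem_range] at hi
      have hi0 : (0 : ℝ) ≤ i := Nat.cast_nonneg i
      have hsub := al_sub i
      have hpos : (0 : ℝ) < 10 * ((i : ℝ) + 1) * (i + 2) := by positivity
      have haR : (aa N a₁ (i + 1) : ℝ) = 100 * ((i : ℝ) + 2) ^ 2 * bb N a₁ i := by
        rw [aa_succ]; push_cast; ring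
      have hbR : (0 : ℝ) ≤ bb N a₁ i := Nat.cast_nonneg _
      have h1 := hstep f hf (N * (i + 1) ^ 2) (aa N a₁ i) (bb N a₁ i) (N * (i + 1 + 1) ^ 2)
        (aa N a₁ (i + 1)) (bb N a₁ (i + 1)) (by
          have : 0 < N * (i + 1) ^ 2 := by positivity
          omega) (Nat.mul_le_mul_left _ (Nat.pow_le_pow_left (by omega) 2)) (fa i) (fab i) (fba i) (fab (i + 1))
        ((fW1 (i + 1)).trans (fW (i + 1)))
        (fun c hc => ha₀ _ c (by
          have : 0 < N * (i + 1) ^ 2 := by positivity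
          omega) (le_trans (Nat.mul_le_mul_left _ (hNa.trans (le_trans (Nat.le_add_right _ _) (s2 i)))) hc))
        (al i) (al (i + 1)) (al_pos i).le (by
          have : 0 < al (i + 1) - al i := by rw [hsub]; positivity
          linarith) (al_le i) (by
          rw [hsub]
          have h2 := s1 i
          have h3 : 1 / (10 * ((i : ℝ) + 1) * (i + 2)) * (aa N a₁ i : ℝ) / 32 =
              (aa N a₁ i : ℝ) / (320 * ((i : ℝ) + 1) * (i + 2)) := by
            field_simp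
            ring
          rw [h3, le_div_iff₀ (by positivity)]
          linarith) (by
          rw [hsub, haR]
          have h3 : 1 / (10 * ((i : ℝ) + 1) * (i + 2)) * (100 * ((i : ℝ) + 2) ^ 2 * bb N a₁ i) / 2 =
              5 * ((i : ℝ) + 2) * bb N a₁ i / ((i : ℝ) + 1) := by
            field_simp
            ring
          rw [h3, le_div_iff₀ (by positivity)]
          have h4 := mul_nonneg hbR hi0
          linarith)
        v T hT hTv (hbi (i + 1) (by omega)) (G (i + 1) \ G i) ((hGm _).diff (hGm _))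
        (Set.sdiff_subset.trans (hGT _)) (by
          rintro t ⟨h2, h3⟩
          rw [hG] at h2 h3
          refine ⟨?_, h2.2⟩
          by_contra hc
          push Not at hc
          exact h3 ⟨h2.1, hc⟩)
      refine h1.trans ?_
      have h2 := fWi (i + 1)
      have h3 := fH (i + 1)
      rw [← mul_add, mul_assoc C₂]
      apply mul_le_mul_of_nonneg_left _ hC₂.le
      have h4 : (((i + 1 : ℕ) : ℝ) + 1) = (i : ℝ) + 2 := by push_cast; ring
      rw [h4] at h2 h3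
      rw [h3]
      have h5 : (((N * (i + 1 + 1) ^ 2 : ℕ) : ℝ)) ^ 3 * Real.exp (-(al (i + 1) - al i) * aa N a₁ (i + 1)) ≤
          1 / (N * ((i : ℝ) + 2) ^ 2) := by
        have h6 : Real.exp (-(al (i + 1) - al i) * aa N a₁ (i + 1)) ≤ Real.exp (-(bb N a₁ i : ℝ)) := by
          apply Real.exp_le_exp.2
          rw [hsub, haR]
          have h7 : -(1 / (10 * ((i : ℝ) + 1) * (i + 2))) * (100 * ((i : ℝ) + 2) ^ 2 * bb N a₁ i) =
              -(10 * ((i : ℝ) + 2) * bb N a₁ i / ((i : ℝ) + 1)) := by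
            field_simp
            norm_num
          rw [h7]
          apply neg_le_neg
          rw [le_div_iff₀ (by positivity)]
          have h4 := mul_nonneg hbR hi0
          linarith
        have h8 := s3 i
        have h9 : (((N * (i + 1 + 1) ^ 2 : ℕ) : ℝ)) ^ 3 = (N : ℝ) ^ 3 * ((i : ℝ) + 2) ^ 6 := by
          push_cast
          ring
        rw [h9]
        have h10 : (N : ℝ) ^ 3 * ((i : ℝ) + 2) ^ 6 ≤ Real.exp (bb N a₁ i : ℝ) * (1 / (N * ((i : ℝ) + 2) ^ 2)) := by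
          rw [mul_one_div, le_div_iff₀ (by positivity)]
          refine le_trans (le_of_eq ?_) h8
          ring
        calc (N : ℝ) ^ 3 * ((i : ℝ) + 2) ^ 6 * Real.exp (-(al (i + 1) - al i) * aa N a₁ (i + 1))
            ≤ (Real.exp (bb N a₁ i : ℝ) * (1 / (N * ((i : ℝ) + 2) ^ 2))) * Real.exp (-(bb N a₁ i : ℝ)) :=
              mul_le_mul h10 h6 (Real.exp_pos _).le (by positivity)
          _ = 1 / (N * ((i : ℝ) + 2) ^ 2) := by
              rw [mul_comm, ← mul_assoc, ← Real.exp_add, neg_add_cancel, Real.exp_zero, one_mul]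
      have h11 : (4 : ℝ) / N * (1 / ((i : ℝ) + 2) ^ 2) = 2 / (N * ((i : ℝ) + 2) ^ 2) +
          1 / (N * ((i : ℝ) + 2) ^ 2) + 1 / (N * ((i : ℝ) + 2) ^ 2) := by
        field_simp
        norm_num
      rw [h11]
      linarith
    have e2 : ∑ i ∈ range J, ∫ t in G (i + 1) \ G i, ‖Av f v t‖ ^ 2 ≤ C₂ * (4 / N) := by
      refine (Finset.sum_le_sum e1).trans ?_
      rw [← Finset.mul_sum]
      have h1 := ic_sum J
      have h2 : 0 ≤ 1 / ((J : ℝ) + 1) := by positivity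
      have h3 : 0 ≤ C₂ * (4 / (N : ℝ)) := by positivity
      have h4 : ∑ i ∈ range J, 1 / ((i : ℝ) + 2) ^ 2 ≤ 1 := by linarith
      have h5 := mul_le_mul_of_nonneg_left h4 h3
      rw [mul_one] at h5
      exact h5
    have h5 : (C₁ + C₂) * (4 / (N : ℝ)) = C₁ * (4 / N) + C₂ * (4 / N) := by ring
    linarith

end MRT
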