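import Pool.Agent.Helper24.Selberg
import Pool.Agent.Helper24.SieveDensity

/-!
# MRT-SeW: weights of Selberg's sieve
-/

set_option autoImplicit false

namespace MRT

open Finset
open scoped ArithmeticFunction.Moebius

/-- `∑_{l ≤ D} μ²(l) / φ(l)` -/
private noncomputable def sG (D : ℕ) : ℝ := ∑ l ∈ Icc 1 D, (μ l : ℝ) ^ 2 / (Nat.totient l : ℝ)

private noncomputable def sw (D m : ℕ) : ℝ := (μ m : ℝ) ^ 2 / ((Nat.totient m : ℝ) * sG D)

private noncomputable def sz (D d : ℕ) : ℝ := (μ d : ℝ) * ∑ m ∈ Icc 1 D, if d ∣ m then sw D m else 0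

private theorem mu_sq (l : ℕ) : (μ l : ℝ) ^ 2 = 0 ∨ (μ l : ℝ) ^ 2 = 1 := by
  have h : (μ l : ℤ) ^ 2 = 0 ∨ (μ l : ℤ) ^ 2 = 1 := by
    rcases eq_or_ne (μ l) 0 with h | h
    · left; rw [h]; norm_num
    · right
      rcases (ArithmeticFunction.moebius_ne_zero_iff_eq_or).1 h with h1 | h1 <;> rw [h1] <;> norm_num
  rcases h with h | h
  · left; exact_mod_cast h
  · right; exact_mod_cast h

private theorem mu_abs (l : ℕ) : |(μ l : ℝ)| ≤ 1 := by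
  have h : |(μ l : ℝ)| ^ 2 ≤ 1 ^ 2 := by
    rw [sq_abs]
    rcases mu_sq l with h | h <;> rw [h] <;> norm_num
  exact (pow_le_pow_iff_left₀ (abs_nonneg _) zero_le_one (by norm_num)).1 h

private theorem sG_ge (D : ℕ) : Real.log D / 2 ≤ sG D := by
  have h1 := Pool.Agent.Helper24.log_le_two_mul_Fsum_inv D
  rw [Pool.Agent.Helper24.Fsum_inv_eq] at h1
  have h2 : ∑ a ∈ Pool.Agent.Helper24.sqf D, 1 / (a : ℝ) ≤ sG D := by
    unfold Pool.Agent.Helper24.sqf sG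
    rw [Finset.sum_filter]
    refine Finset.sum_le_sum fun l hl => ?_
    have hl1 : 1 ≤ l := (mem_Icc.1 hl).1
    have h3 : (0 : ℝ) < Nat.totient l := by exact_mod_cast Nat.totient_pos.2 hl1
    split_ifs with h
    · have h4 : (μ l : ℝ) ^ 2 = 1 := by
        have := ArithmeticFunction.moebius_sq_eq_one_of_squarefree h
        exact_mod_cast this
      rw [h4]
      exact one_div_le_one_div_of_le h3 (by exact_mod_cast Nat.totient_le l)
    · positivity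
  linarith

private theorem sG_pos {D : ℕ} (hD : 2 ≤ D) : 0 < sG D := by
  have h1 : 0 < Real.log D := Real.log_pos (by exact_mod_cast hD)
  have := sG_ge D
  linarith

private theorem sw_nonneg {D : ℕ} (hD : 2 ≤ D) (m : ℕ) : 0 ≤ sw D m := by
  unfold sw
  have := sG_pos hD
  positivity

private theorem sw_sum {D : ℕ} (hD : 2 ≤ D) : ∑ m ∈ Icc 1 D, sw D m = 1 := by
  have hG := sG_pos hD
  have h1 : ∀ m ∈ Icc 1 D, sw D m = (μ m : ℝ) ^ 2 / (Nat.totient m : ℝ) * (1 / sG D) := by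
    intro m hm
    unfold sw
    rw [div_mul_div_comm, mul_one]
  rw [Finset.sum_congr rfl h1, ← Finset.sum_mul]
  show sG D * (1 / sG D) = 1
  field_simp

private theorem mu_between {D m l : ℕ} (hm : m ∈ Icc 1 D) (hs : Squarefree m) :
    ∑ d ∈ Icc 1 D, (if l ∣ d then if d ∣ m then (μ d : ℝ) else 0 else 0) = if m = l then (μ l : ℝ) else 0 := by
  rw [mem_Icc] at hm
  have h1 : ∑ d ∈ Icc 1 D, (if l ∣ d then if d ∣ m then (μ d : ℝ) else 0 else 0) =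
      ∑ d ∈ m.divisors.filter (l ∣ ·), (μ d : ℝ) := by
    rw [← Finset.sum_filter, ← Finset.sum_filter]
    refine Finset.sum_congr ?_ fun _ _ => rfl
    ext d
    rw [mem_filter, mem_filter, mem_filter, mem_Icc, Nat.mem_divisors]
    constructor
    · rintro ⟨⟨_, h2⟩, h3⟩
      exact ⟨⟨h3, by omega⟩, h2⟩
    · rintro ⟨⟨h2, _⟩, h3⟩
      exact ⟨⟨⟨Nat.pos_of_dvd_of_pos h2 (by omega), (Nat.le_of_dvd (by omega) h2).trans hm.2⟩, h3⟩, h2⟩
  rw [h1]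
  by_cases hl : l ∣ m
  · exact Pool.Agent.Helper24.sum_moebius_between hs hl
  · rw [Finset.filter_false_of_mem, Finset.sum_empty, if_neg]
    · rintro rfl
      exact hl dvd_rfl
    · intro d hd h
      exact hl (h.trans (Nat.dvd_of_mem_divisors hd))

private theorem sz_inv {D : ℕ} {l : ℕ} (hl : l ∈ Icc 1 D) :
    ∑ d ∈ Icc 1 D, (if l ∣ d then sz D d else 0) = sw D l * (μ l : ℝ) := by
  have h1 : ∀ d ∈ Icc 1 D, (if l ∣ d then sz D d else 0) =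
      ∑ m ∈ Icc 1 D, sw D m * (if l ∣ d then if d ∣ m then (μ d : ℝ) else 0 else 0) := by
    intro d _
    unfold sz
    split_ifs
    · rw [Finset.mul_sum]
      refine Finset.sum_congr rfl fun m _ => ?_
      split_ifs
      · rw [mul_comm]
      · rw [mul_zero, mul_zero]
    · rw [Finset.sum_eq_zero]
      intro m _
      rw [mul_zero]
  rw [Finset.sum_congr rfl h1, Finset.sum_comm]
  have h2 : ∀ m ∈ Icc 1 D, ∑ d ∈ Icc 1 D, sw D m * (if l ∣ d then if d ∣ m then (μ d : ℝ) else 0 else 0) =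
      if m = l then sw D l * (μ l : ℝ) else 0 := by
    intro m hm
    rw [← Finset.mul_sum]
    by_cases hs : Squarefree m
    · rw [mu_between hm hs]
      split_ifs with h
      · rw [h]
      · rw [mul_zero]
    · have h3 : sw D m = 0 := by
        unfold sw
        rw [ArithmeticFunction.moebius_eq_zero_of_not_squarefree hs]
        simp
      rw [h3, zero_mul]
      split_ifs with h
      · rw [← h, h3, zero_mul]
      · rfl
  rw [Finset.sum_congr rfl h2, Finset.sum_ite_eq']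
  rw [if_pos hl]

private theorem gcd_sum {D d₁ d₂ : ℕ} (h1 : d₁ ∈ Icc 1 D) (h2 : d₂ ∈ Icc 1 D) :
    (Nat.gcd d₁ d₂ : ℝ) = ∑ l ∈ Icc 1 D, (if l ∣ d₁ then 1 else 0) * (if l ∣ d₂ then 1 else 0) * (Nat.totient l : ℝ) := by
  rw [mem_Icc] at h1 h2
  have h3 := Nat.sum_totient (Nat.gcd d₁ d₂)
  have h4 : (Nat.gcd d₁ d₂ : ℝ) = ∑ l ∈ (Nat.gcd d₁ d₂).divisors, (Nat.totient l : ℝ) := by
    conv_lhs => rw [← h3]
    push_cast
    rfl
  rw [h4]
  have h5 : ∀ l ∈ Icc 1 D, (if l ∣ d₁ then (1 : ℝ) else 0) * (if l ∣ d₂ then 1 else 0) * (Nat.totient l : ℝ) =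
      if l ∣ Nat.gcd d₁ d₂ then (Nat.totient l : ℝ) else 0 := by
    intro l _
    by_cases ha : l ∣ d₁
    · by_cases hb : l ∣ d₂
      · rw [if_pos ha, if_pos hb, if_pos (Nat.dvd_gcd ha hb), one_mul, one_mul]
      · rw [if_pos ha, if_neg hb, if_neg (fun h => hb (h.trans (Nat.gcd_dvd_right _ _))), mul_zero, zero_mul]
    · rw [if_neg ha, zero_mul, zero_mul, if_neg (fun h => ha (h.trans (Nat.gcd_dvd_left _ _)))]
  rw [Finset.sum_congr rfl h5, ← Finset.sum_filter]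
  refine Finset.sum_congr ?_ fun _ _ => rfl
  have hg : 0 < Nat.gcd d₁ d₂ := Nat.gcd_pos_of_pos_left _ h1.1
  ext l
  rw [mem_filter, mem_Icc, Nat.mem_divisors]
  constructor
  · rintro ⟨h, _⟩
    refine ⟨⟨Nat.pos_of_dvd_of_pos h hg, ?_⟩, h⟩
    exact (Nat.le_of_dvd h1.1 (h.trans (Nat.gcd_dvd_left _ _))).trans h1.2
  · rintro ⟨_, h⟩
    exact ⟨h, hg.ne'⟩

private theorem quad {D : ℕ} (hD : 2 ≤ D) :
    ∑ d₁ ∈ Icc 1 D, ∑ d₂ ∈ Icc 1 D, (d₁ * sz D d₁) * (d₂ * sz D d₂) / (Nat.lcm d₁ d₂ : ℝ) = 1 / sG D := by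
  have hG := sG_pos hD
  have h1 : ∀ d₁ ∈ Icc 1 D, ∀ d₂ ∈ Icc 1 D, ((d₁ : ℝ) * sz D d₁) * (d₂ * sz D d₂) / (Nat.lcm d₁ d₂ : ℝ) =
      ∑ l ∈ Icc 1 D, (Nat.totient l : ℝ) * ((if l ∣ d₁ then sz D d₁ else 0) * (if l ∣ d₂ then sz D d₂ else 0)) := by
    intro d₁ hd₁ d₂ hd₂
    have hp1 : 0 < d₁ := (mem_Icc.1 hd₁).1
    have hp2 : 0 < d₂ := (mem_Icc.1 hd₂).1
    have h3 : (0 : ℝ) < Nat.lcm d₁ d₂ := by exact_mod_cast Nat.lcm_pos hp1 hp2
    have h4 : (Nat.gcd d₁ d₂ : ℝ) * Nat.lcm d₁ d₂ = d₁ * d₂ := by exact_mod_cast Nat.gcd_mul_lcm d₁ d₂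
    have h5 : ((d₁ : ℝ) * sz D d₁) * (d₂ * sz D d₂) / (Nat.lcm d₁ d₂ : ℝ) = sz D d₁ * sz D d₂ * Nat.gcd d₁ d₂ := by
      rw [div_eq_iff h3.ne']
      linear_combination (-(sz D d₁ * sz D d₂)) * h4
    rw [h5, gcd_sum hd₁ hd₂, Finset.mul_sum]
    refine Finset.sum_congr rfl fun l _ => ?_
    split_ifs <;> ring
  rw [Finset.sum_congr rfl fun d₁ hd₁ => Finset.sum_congr rfl fun d₂ hd₂ => h1 d₁ hd₁ d₂ hd₂]
  have h2 : ∑ d₁ ∈ Icc 1 D, ∑ d₂ ∈ Icc 1 D, ∑ l ∈ Icc 1 D,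
      (Nat.totient l : ℝ) * ((if l ∣ d₁ then sz D d₁ else 0) * (if l ∣ d₂ then sz D d₂ else 0)) =
      ∑ l ∈ Icc 1 D, (Nat.totient l : ℝ) * (∑ d ∈ Icc 1 D, if l ∣ d then sz D d else 0) ^ 2 := by
    have h3 : ∀ d₁ ∈ Icc 1 D, ∑ d₂ ∈ Icc 1 D, ∑ l ∈ Icc 1 D,
        (Nat.totient l : ℝ) * ((if l ∣ d₁ then sz D d₁ else 0) * (if l ∣ d₂ then sz D d₂ else 0)) =
        ∑ l ∈ Icc 1 D, ∑ d₂ ∈ Icc 1 D, (Nat.totient l : ℝ) * ((if l ∣ d₁ then sz D d₁ else 0) * (if l ∣ d₂ then sz D d₂ else 0)) :=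
      fun d₁ _ => Finset.sum_comm
    rw [Finset.sum_congr rfl h3, Finset.sum_comm]
    refine Finset.sum_congr rfl fun l _ => ?_
    rw [pow_two, Finset.sum_mul_sum, Finset.mul_sum]
    refine Finset.sum_congr rfl fun d₁ _ => ?_
    rw [Finset.mul_sum]
  rw [h2]
  have h3 : ∀ l ∈ Icc 1 D, (Nat.totient l : ℝ) * (∑ d ∈ Icc 1 D, if l ∣ d then sz D d else 0) ^ 2 = sw D l * (1 / sG D) := by
    intro l hl
    rw [sz_inv hl]
    have hl1 : 1 ≤ l := (mem_Icc.1 hl).1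
    have h4 : (0 : ℝ) < Nat.totient l := by exact_mod_cast Nat.totient_pos.2 hl1
    unfold sw
    rw [mul_pow]
    rcases mu_sq l with h | h
    · rw [h]
      simp
    · rw [h]
      field_simp
  rw [Finset.sum_congr rfl h3, ← Finset.sum_mul, sw_sum hD, one_mul]

theorem selberg_weights (D : ℕ) (hD : 2 ≤ D) : ∃ ρ : ℕ → ℝ, ρ 1 = 1 ∧ (∀ d, |ρ d| ≤ d) ∧ (∀ d, D < d → ρ d = 0) ∧
    0 ≤ ∑ d₁ ∈ Icc 1 D, ∑ d₂ ∈ Icc 1 D, ρ d₁ * ρ d₂ / (Nat.lcm d₁ d₂ : ℝ) ∧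
    ∑ d₁ ∈ Icc 1 D, ∑ d₂ ∈ Icc 1 D, ρ d₁ * ρ d₂ / (Nat.lcm d₁ d₂ : ℝ) ≤ 2 / Real.log D := by
  have hG := sG_pos hD
  refine ⟨fun d => d * sz D d, ?_, ?_, ?_, ?_, ?_⟩
  · show ((1 : ℕ) : ℝ) * sz D 1 = 1
    unfold sz
    have h1 : ∑ m ∈ Icc 1 D, (if 1 ∣ m then sw D m else 0) = 1 := by
      rw [← sw_sum hD]
      refine Finset.sum_congr rfl fun m _ => ?_
      rw [if_pos (one_dvd m)]
    rw [h1, ArithmeticFunction.moebius_apply_one]
    norm_num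
  · intro d
    show |(d : ℝ) * sz D d| ≤ d
    rw [abs_mul, abs_of_nonneg (Nat.cast_nonneg d)]
    refine mul_le_of_le_one_right (Nat.cast_nonneg d) ?_
    unfold sz
    rw [abs_mul]
    have h1 : |∑ m ∈ Icc 1 D, (if d ∣ m then sw D m else 0)| ≤ 1 := by
      rw [abs_of_nonneg]
      · rw [← sw_sum hD]
        refine Finset.sum_le_sum fun m _ => ?_
        split_ifs
        · exact le_rfl
        · exact sw_nonneg hD m
      · refine Finset.sum_nonneg fun m _ => ?_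
        split_ifs
        · exact sw_nonneg hD m
        · exact le_rfl
    exact mul_le_one₀ (mu_abs d) (abs_nonneg _) h1
  · intro d hd
    show (d : ℝ) * sz D d = 0
    unfold sz
    rw [Finset.sum_eq_zero]
    · ring
    · intro m hm
      rw [mem_Icc] at hm
      rw [if_neg]
      intro h
      have := Nat.le_of_dvd hm.1 h
      omega
  · show 0 ≤ ∑ d₁ ∈ Icc 1 D, ∑ d₂ ∈ Icc 1 D, (d₁ * sz D d₁) * (d₂ * sz D d₂) / (Nat.lcm d₁ d₂ : ℝ)
    rw [quad hD]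
    positivity
  · show ∑ d₁ ∈ Icc 1 D, ∑ d₂ ∈ Icc 1 D, (d₁ * sz D d₁) * (d₂ * sz D d₂) / (Nat.lcm d₁ d₂ : ℝ) ≤ _
    rw [quad hD]
    have h1 : 0 < Real.log D := Real.log_pos (by exact_mod_cast hD)
    rw [div_le_div_iff₀ hG h1]
    have := sG_ge D
    linarith

end MRT
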