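import Pool.Agent.MRT.KkB
import Pool.Agent.MRT.SeW

/-!
# MRT-KeP: sieved smooth exponential sums

`SS ρ H x u = ∑_n (∑_{d ∣ n} ρ d)² trw H x (log n)/n * n^{-iu}`.
-/

set_option autoImplicit false

namespace MRT

open Finset

noncomputable def SS (ρ : ℕ → ℝ) (H x u : ℝ) : ℂ :=
  ∑ n ∈ Ic (x - 3) (x + 3), (((∑ d ∈ n.divisors, ρ d) ^ 2 * (trw H x (Real.log n) / n) : ℝ) : ℂ) * cp n u

private theorem ke_exp {ρ : ℕ → ℝ} {D : ℕ} (hρ : ∀ d, D < d → ρ d = 0) {H : ℝ} (x u : ℝ) (hH : 1 ≤ H) :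
    SS ρ H x u = ∑ d₁ ∈ Icc 1 D, ∑ d₂ ∈ Icc 1 D, ((ρ d₁ * ρ d₂ : ℝ) : ℂ) *
      (cp (Nat.lcm d₁ d₂) u / (Nat.lcm d₁ d₂ : ℕ) * kk H (x - Real.log (Nat.lcm d₁ d₂ : ℕ)) u) := by
  have h1 : ∀ d₁ ∈ Icc 1 D, ∀ d₂ ∈ Icc 1 D, ((ρ d₁ * ρ d₂ : ℝ) : ℂ) *
      (cp (Nat.lcm d₁ d₂) u / (Nat.lcm d₁ d₂ : ℕ) * kk H (x - Real.log (Nat.lcm d₁ d₂ : ℕ)) u) =
      ∑ n ∈ Ic (x - 3) (x + 3), (((if d₁ ∣ n then ρ d₁ else 0) * (if d₂ ∣ n then ρ d₂ else 0) : ℝ) : ℂ) *
        (((trw H x (Real.log n) / n : ℝ) : ℂ) * cp n u) := by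
    intro d₁ hd₁ d₂ hd₂
    have hp : 0 < Nat.lcm d₁ d₂ := Nat.lcm_pos (mem_Icc.1 hd₁).1 (mem_Icc.1 hd₂).1
    rw [← kk_dvd hp hH, Finset.mul_sum, Finset.sum_filter]
    refine Finset.sum_congr rfl fun n _ => ?_
    by_cases h1 : d₁ ∣ n
    · by_cases h2 : d₂ ∣ n
      · rw [if_pos h1, if_pos h2, if_pos (Nat.lcm_dvd h1 h2)]
      · rw [if_neg h2, if_neg (fun h => h2 ((Nat.dvd_lcm_right _ _).trans h)), mul_zero, Complex.ofReal_zero, zero_mul]
    · rw [if_neg h1, if_neg (fun h => h1 ((Nat.dvd_lcm_left _ _).trans h)), zero_mul, Complex.ofReal_zero, zero_mul]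
  rw [Finset.sum_congr rfl fun d₁ hd₁ => Finset.sum_congr rfl fun d₂ hd₂ => h1 d₁ hd₁ d₂ hd₂]
  unfold SS
  rw [Finset.sum_congr (rfl : Icc 1 D = Icc 1 D) fun d₁ _ => Finset.sum_comm, Finset.sum_comm]
  refine Finset.sum_congr rfl fun n hn => ?_
  have hn1 : 1 ≤ n := one_le_of_mem hn
  have h2 : ∑ d ∈ n.divisors, ρ d = ∑ d ∈ Icc 1 D, if d ∣ n then ρ d else 0 := by
    rw [← Finset.sum_filter]
    symm
    apply Finset.sum_subset
    · intro d hd
      rw [Finset.mem_filter] at hd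
      exact Nat.mem_divisors.2 ⟨hd.2, by omega⟩
    · intro d hd hd'
      rw [Nat.mem_divisors] at hd
      apply hρ
      by_contra hc
      apply hd'
      rw [Finset.mem_filter, mem_Icc]
      exact ⟨⟨Nat.pos_of_dvd_of_pos hd.1 hn1, not_lt.1 hc⟩, hd.1⟩
  rw [h2, sq, Finset.sum_mul_sum, Complex.ofReal_mul, Complex.ofReal_sum, mul_assoc, Finset.sum_mul]
  refine Finset.sum_congr rfl fun d₁ _ => ?_
  rw [Complex.ofReal_sum, Finset.sum_mul]

private theorem ke_bound {ρ : ℕ → ℝ} {D : ℕ} (hρ : ∀ d, |ρ d| ≤ d) (z : ℕ → ℕ → ℂ) {M : ℝ}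
    (hz : ∀ d₁ ∈ Icc 1 D, ∀ d₂ ∈ Icc 1 D, ‖z d₁ d₂‖ ≤ M) :
    ‖∑ d₁ ∈ Icc 1 D, ∑ d₂ ∈ Icc 1 D, ((ρ d₁ * ρ d₂ : ℝ) : ℂ) * z d₁ d₂‖ ≤ (D : ℝ) ^ 4 * M := by
  have h1 : ∀ d ∈ Icc 1 D, |ρ d| ≤ D := fun d hd => (hρ d).trans (by exact_mod_cast (mem_Icc.1 hd).2)
  have h2 : ∀ d₁ ∈ Icc 1 D, ‖∑ d₂ ∈ Icc 1 D, ((ρ d₁ * ρ d₂ : ℝ) : ℂ) * z d₁ d₂‖ ≤ D * ((D : ℝ) * D * M) := by
    intro d₁ hd₁
    refine (norm_sum_le _ _).trans ?_
    have h3 := Finset.sum_le_card_nsmul (Icc 1 D) (fun d₂ => ‖((ρ d₁ * ρ d₂ : ℝ) : ℂ) * z d₁ d₂‖)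
      ((D : ℝ) * D * M) ?_
    · rw [Nat.card_Icc, Nat.add_sub_cancel, nsmul_eq_mul] at h3
      exact h3
    · intro d₂ hd₂
      rw [norm_mul, Complex.norm_real, Real.norm_eq_abs, abs_mul]
      have hD : (0 : ℝ) ≤ D := Nat.cast_nonneg D
      exact mul_le_mul (mul_le_mul (h1 d₁ hd₁) (h1 d₂ hd₂) (abs_nonneg _) hD) (hz d₁ hd₁ d₂ hd₂)
        (norm_nonneg _) (mul_nonneg hD hD)
  refine (norm_sum_le _ _).trans ?_
  have h3 := Finset.sum_le_card_nsmul (Icc 1 D) (fun d₁ => ‖∑ d₂ ∈ Icc 1 D, ((ρ d₁ * ρ d₂ : ℝ) : ℂ) * z d₁ d₂‖)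
    (D * ((D : ℝ) * D * M)) h2
  rw [Nat.card_Icc, Nat.add_sub_cancel, nsmul_eq_mul] at h3
  refine h3.trans (le_of_eq ?_)
  ring

private theorem ke_cp {L : ℕ} (x u : ℝ) :
    cp L u * Complex.exp ((-(u * (x - Real.log L)) : ℝ) * Complex.I) = Complex.exp ((-(u * x) : ℝ) * Complex.I) := by
  unfold cp
  rw [← Complex.exp_add]
  congr 1
  push_cast
  ring

theorem sieve_sum : ∃ C : ℝ, 0 < C ∧ ∀ K : ℕ, ∃ c : ℝ, 0 < c ∧ c ≤ 1 / 8 ∧ ∀ H : ℝ, 1 ≤ H → ∃ x₀ : ℝ, 1 ≤ x₀ ∧ ∀ x : ℝ, x₀ ≤ x →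
    ∃ ρ : ℕ → ℝ, ρ 1 = 1 ∧ (∀ d : ℕ, Real.exp (c * x) < d → ρ d = 0) ∧ ∀ u : ℝ, |u| ≤ Real.exp (K * x) →
      ‖SS ρ H x u‖ ≤ C / (c * x) * (1 / H) / (1 + (u / H) ^ 2) + Real.exp (-c * x) := by
  obtain ⟨C₁, hC₁, hks⟩ := kk_small
  refine ⟨32, by norm_num, fun K => ?_⟩
  obtain ⟨c₀, hc₀, hc₀', C₀, hC₀, hkp⟩ := kk_pow (4 * K + 1)
  obtain ⟨c, hc⟩ : ∃ c, c = c₀ / 32 := ⟨_, rfl⟩
  have hc0 : 0 < c := by rw [hc]; positivity
  have hc1 : c ≤ 1 / 128 := by rw [hc]; linarith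
  refine ⟨c, hc0, by linarith, fun H hH => ?_⟩
  obtain ⟨M, hM⟩ : ∃ M, M = C₀ + 8 * H + C₁ * (H + 1) := ⟨_, rfl⟩
  have hCH : 0 < C₁ * (H + 1) := by positivity
  have hM0 : 0 < M := by rw [hM]; positivity
  refine ⟨1 + 2 / c + M / c + 4 * (C₁ * (H + 1)), ?_, fun x hx => ?_⟩
  · have h1 : 0 < 2 / c := by positivity
    have h2 : 0 < M / c := by positivity
    linarith
  have hp1 : 0 < 2 / c := by positivity
  have hp2 : 0 < M / c := by positivity
  have hx1 : 1 ≤ x := by linarith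
  have hx2 : 2 ≤ c * x := by
    have h1 : 2 / c ≤ x := by linarith
    rw [div_le_iff₀ hc0] at h1
    linarith
  have hx3 : M ≤ c * x := by
    have h1 : M / c ≤ x := by linarith
    rw [div_le_iff₀ hc0] at h1
    linarith
  have hx4 : 4 * (C₁ * (H + 1)) ≤ x := by linarith
  have hcx : c * x ≤ 1 / 128 * x := mul_le_mul_of_nonneg_right hc1 (by linarith)
  have hc₀e : c₀ = 32 * c := by rw [hc]; ring
  obtain ⟨D, hD⟩ : ∃ D, D = ⌊Real.exp (c * x)⌋₊ := ⟨_, rfl⟩
  have hDle : (D : ℝ) ≤ Real.exp (c * x) := by rw [hD]; exact Nat.floor_le (Real.exp_pos _).le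
  have hDge : Real.exp (c * x / 2) ≤ D := by
    have h1 : Real.exp (c * x) < (D : ℝ) + 1 := by rw [hD]; exact Nat.lt_floor_add_one _
    have h2 : Real.exp (c * x) = Real.exp (c * x / 2) * Real.exp (c * x / 2) := by
      rw [← Real.exp_add]; congr 1; ring
    have h3 : 2 ≤ Real.exp (c * x / 2) := by
      have := Real.add_one_le_exp (c * x / 2)
      linarith
    have h4 := mul_le_mul_of_nonneg_right h3 (Real.exp_pos (c * x / 2)).le
    linarith
  have hD2 : 2 ≤ D := by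
    have h3 : (2 : ℝ) ≤ D := by
      have := Real.add_one_le_exp (c * x / 2)
      linarith
    exact_mod_cast h3
  have hD0 : (0 : ℝ) < D := by
    have : 0 < D := by omega
    exact_mod_cast this
  have hlogD : c * x / 2 ≤ Real.log D := by
    rw [Real.le_log_iff_exp_le hD0]
    exact hDge
  have hD4 : (D : ℝ) ^ 4 ≤ Real.exp (4 * (c * x)) := by
    have h1 : Real.exp (4 * (c * x)) = Real.exp (c * x) ^ 4 := by
      rw [← Real.exp_nat_mul]; norm_num
    rw [h1]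
    exact pow_le_pow_left₀ hD0.le hDle 4
  obtain ⟨ρ, hρ1, hρd, hρD, hρs0, hρs⟩ := selberg_weights D hD2
  refine ⟨ρ, hρ1, fun d hd => hρD d ?_, fun u hu => ?_⟩
  · rw [hD]
    exact (Nat.floor_lt (Real.exp_pos _).le).2 hd
  -- facts on the lcm
  have hL : ∀ d₁ ∈ Icc 1 D, ∀ d₂ ∈ Icc 1 D, 0 < Nat.lcm d₁ d₂ ∧ (1 : ℝ) ≤ (Nat.lcm d₁ d₂ : ℕ) ∧
      Real.log (Nat.lcm d₁ d₂ : ℕ) ≤ 2 * (c * x) ∧ 0 ≤ Real.log (Nat.lcm d₁ d₂ : ℕ) := by
    intro d₁ hd₁ d₂ hd₂
    have hp : 0 < Nat.lcm d₁ d₂ := Nat.lcm_pos (mem_Icc.1 hd₁).1 (mem_Icc.1 hd₂).1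
    have h1 : (1 : ℝ) ≤ (Nat.lcm d₁ d₂ : ℕ) := by exact_mod_cast hp
    have h2 : Nat.lcm d₁ d₂ ≤ D * D :=
      (Nat.lcm_le_mul (mem_Icc.1 hd₁).1 (mem_Icc.1 hd₂).1).trans (Nat.mul_le_mul (mem_Icc.1 hd₁).2 (mem_Icc.1 hd₂).2)
    have h3 : ((Nat.lcm d₁ d₂ : ℕ) : ℝ) ≤ (D : ℝ) * D := by exact_mod_cast h2
    refine ⟨hp, h1, ?_, Real.log_nonneg h1⟩
    rw [Real.log_le_iff_le_exp (by linarith)]
    have h4 : Real.exp (2 * (c * x)) = Real.exp (c * x) * Real.exp (c * x) := by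
      rw [← Real.exp_add]; congr 1; ring
    rw [h4]
    exact h3.trans (mul_le_mul hDle hDle hD0.le (Real.exp_pos _).le)
  have hjj := jj_le (H := H) (by linarith) u
  have hmain0 : 0 ≤ 32 / (c * x) * (1 / H) / (1 + (u / H) ^ 2) := by
    have : 0 < c * x := by linarith
    positivity
  by_cases hcase : |u| ≤ Real.exp (x / 4)
  · -- small frequencies
    obtain ⟨S, hS⟩ : ∃ S : ℝ, S = ∑ d₁ ∈ Icc 1 D, ∑ d₂ ∈ Icc 1 D, ρ d₁ * ρ d₂ / (Nat.lcm d₁ d₂ : ℝ) := ⟨_, rfl⟩
    rw [← hS] at hρs0 hρs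
    have h1 : SS ρ H x u = (∑ d₁ ∈ Icc 1 D, ∑ d₂ ∈ Icc 1 D, ((ρ d₁ * ρ d₂ : ℝ) : ℂ) *
        (cp (Nat.lcm d₁ d₂) u / (Nat.lcm d₁ d₂ : ℕ) * kk H (x - Real.log (Nat.lcm d₁ d₂ : ℕ)) u -
          Complex.exp ((-(u * x) : ℝ) * Complex.I) * (jj H u : ℂ) / (Nat.lcm d₁ d₂ : ℕ))) +
        Complex.exp ((-(u * x) : ℝ) * Complex.I) * (jj H u : ℂ) * (S : ℂ) := by
      rw [ke_exp hρD x u hH, hS, Complex.ofReal_sum, Finset.mul_sum, ← Finset.sum_add_distrib]
      refine Finset.sum_congr rfl fun d₁ _ => ?_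
      rw [Complex.ofReal_sum, Finset.mul_sum, ← Finset.sum_add_distrib]
      refine Finset.sum_congr rfl fun d₂ _ => ?_
      push_cast
      ring
    have h2 := ke_bound hρd (fun d₁ d₂ => cp (Nat.lcm d₁ d₂) u / (Nat.lcm d₁ d₂ : ℕ) *
        kk H (x - Real.log (Nat.lcm d₁ d₂ : ℕ)) u -
          Complex.exp ((-(u * x) : ℝ) * Complex.I) * (jj H u : ℂ) / (Nat.lcm d₁ d₂ : ℕ)) (D := D)
        (M := C₁ * (H + |u|) * Real.exp (-x)) (by
          intro d₁ hd₁ d₂ hd₂
          obtain ⟨hp, hl1, -, -⟩ := hL d₁ hd₁ d₂ hd₂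
          obtain ⟨L, hLd⟩ : ∃ L, L = Nat.lcm d₁ d₂ := ⟨_, rfl⟩
          show ‖cp (Nat.lcm d₁ d₂) u / (Nat.lcm d₁ d₂ : ℕ) *
            kk H (x - Real.log (Nat.lcm d₁ d₂ : ℕ)) u -
            Complex.exp ((-(u * x) : ℝ) * Complex.I) * (jj H u : ℂ) / (Nat.lcm d₁ d₂ : ℕ)‖ ≤ _
          rw [← hLd] at hp hl1 ⊢
          have hL0 : (0 : ℝ) < L := by linarith
          have hLC : (L : ℂ) ≠ 0 := by
            have : L ≠ 0 := by omega
            exact_mod_cast this
          have h3 : cp L u / L * kk H (x - Real.log L) u -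
              Complex.exp ((-(u * x) : ℝ) * Complex.I) * (jj H u : ℂ) / L =
              cp L u / L * (kk H (x - Real.log L) u -
                Complex.exp ((-(u * (x - Real.log L)) : ℝ) * Complex.I) * (jj H u : ℂ)) := by
            rw [← ke_cp (L := L) x u]
            field_simp
          rw [h3, norm_mul, norm_div, norm_cp, Complex.norm_natCast]
          have h4 := hks H (x - Real.log L) u hH
          have h5 : Real.exp (-(x - Real.log L)) = Real.exp (-x) * L := by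
            rw [neg_sub, sub_eq_add_neg, add_comm, Real.exp_add, Real.exp_log hL0]
          rw [h5] at h4
          calc 1 / (L : ℝ) * ‖kk H (x - Real.log L) u -
                Complex.exp ((-(u * (x - Real.log L)) : ℝ) * Complex.I) * (jj H u : ℂ)‖
              ≤ 1 / (L : ℝ) * (C₁ * (H + |u|) * (Real.exp (-x) * L)) :=
                mul_le_mul_of_nonneg_left h4 (by positivity)
            _ = C₁ * (H + |u|) * Real.exp (-x) := by field_simp)
    have h3 : (D : ℝ) ^ 4 * (C₁ * (H + |u|) * Real.exp (-x)) ≤ Real.exp (-c * x) := by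
      have e1 : C₁ * (H + |u|) ≤ C₁ * (H + 1) * Real.exp (x / 4) := by
        have h4 : 1 ≤ Real.exp (x / 4) := Real.one_le_exp (by linarith)
        have h5 : H + |u| ≤ (H + 1) * Real.exp (x / 4) := by
          have h6 := mul_le_mul_of_nonneg_left h4 (by linarith : (0 : ℝ) ≤ H)
          linarith
        calc C₁ * (H + |u|) ≤ C₁ * ((H + 1) * Real.exp (x / 4)) := mul_le_mul_of_nonneg_left h5 hC₁.le
          _ = _ := by ring
      have e2 : C₁ * (H + 1) ≤ Real.exp (x / 4) := by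
        have := Real.add_one_le_exp (x / 4)
        linarith
      calc (D : ℝ) ^ 4 * (C₁ * (H + |u|) * Real.exp (-x))
          ≤ Real.exp (4 * (c * x)) * (Real.exp (x / 4) * Real.exp (x / 4) * Real.exp (-x)) := by
            apply mul_le_mul hD4 _ (by positivity) (Real.exp_pos _).le
            apply mul_le_mul_of_nonneg_right _ (Real.exp_pos _).le
            exact e1.trans (mul_le_mul_of_nonneg_right e2 (Real.exp_pos _).le)
        _ = Real.exp (4 * (c * x) + (x / 4 + x / 4 + -x)) := by rw [Real.exp_add, Real.exp_add, Real.exp_add]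
        _ ≤ Real.exp (-c * x) := by
            apply Real.exp_le_exp.2
            linarith
    have h4 : ‖Complex.exp ((-(u * x) : ℝ) * Complex.I) * (jj H u : ℂ) * (S : ℂ)‖ ≤
        32 / (c * x) * (1 / H) / (1 + (u / H) ^ 2) := by
      rw [norm_mul, norm_mul, Complex.norm_exp_ofReal_mul_I, one_mul, Complex.norm_real, Complex.norm_real,
        Real.norm_eq_abs, Real.norm_eq_abs, abs_of_nonneg hjj.1, abs_of_nonneg hρs0]
      have h5 : S ≤ 4 / (c * x) := by
        refine hρs.trans ?_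
        have h6 : 0 < c * x := by linarith
        rw [div_le_div_iff₀ (by linarith) h6]
        linarith
      calc jj H u * S ≤ (8 / H) / (1 + (u / H) ^ 2) * (4 / (c * x)) :=
            mul_le_mul hjj.2 h5 hρs0 (hjj.1.trans hjj.2)
        _ = _ := by
            have h6 : c * x ≠ 0 := by
              have : 0 < c * x := by linarith
              exact this.ne'
            have h7 : H ≠ 0 := by
              have : 0 < H := by linarith
              exact this.ne'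
            have h8 : 1 + (u / H) ^ 2 ≠ 0 := by positivity
            field_simp
            norm_num
    rw [h1]
    refine (norm_add_le _ _).trans ?_
    linarith [h2.trans h3]
  · -- large frequencies
    push Not at hcase
    have h1 : ∀ d₁ ∈ Icc 1 D, ∀ d₂ ∈ Icc 1 D,
        ‖cp (Nat.lcm d₁ d₂) u / (Nat.lcm d₁ d₂ : ℕ) * kk H (x - Real.log (Nat.lcm d₁ d₂ : ℕ)) u‖ ≤
          M * Real.exp (-(16 * (c * x))) := by
      intro d₁ hd₁ d₂ hd₂
      obtain ⟨hp, hl1, hl2, hl3⟩ := hL d₁ hd₁ d₂ hd₂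
      obtain ⟨L, hLd⟩ : ∃ L, L = Nat.lcm d₁ d₂ := ⟨_, rfl⟩
      rw [← hLd] at hp hl1 hl2 hl3 ⊢
      have hL0 : (0 : ℝ) < L := by linarith
      rw [norm_mul, norm_div, norm_cp, Complex.norm_natCast]
      obtain ⟨x', hx'⟩ : ∃ x', x' = x - Real.log L := ⟨_, rfl⟩
      rw [← hx']
      have hx'1 : x / 2 ≤ x' := by rw [hx']; linarith
      have hx'2 : x' ≤ x := by rw [hx']; linarith
      have hkk : ‖kk H x' u‖ ≤ M * Real.exp (-(16 * (c * x))) := by
        by_cases hu' : Real.exp (x' / 2) ≤ |u|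
        · have h3 := hkp H x' u hH (by linarith) hu' (hu.trans (Real.exp_le_exp.2 (by
            push_cast
            have hK : (0 : ℝ) ≤ K := Nat.cast_nonneg K
            have hK1 := mul_le_mul_of_nonneg_left hx'1 hK
            have hK2 : 0 ≤ (K : ℝ) * x' := mul_nonneg hK (by linarith)
            linarith)))
          refine h3.trans ?_
          apply mul_le_mul _ _ (Real.exp_pos _).le hM0.le
          · rw [hM]; linarith
          · apply Real.exp_le_exp.2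
            have h4 := mul_le_mul_of_nonneg_left hx'1 hc0.le
            rw [hc₀e]
            linarith
        · push Not at hu'
          have h3 := hks H x' u hH
          have h4 : ‖kk H x' u‖ ≤ ‖kk H x' u - Complex.exp ((-(u * x') : ℝ) * Complex.I) * (jj H u : ℂ)‖ +
              ‖Complex.exp ((-(u * x') : ℝ) * Complex.I) * (jj H u : ℂ)‖ := by
            have := norm_add_le (kk H x' u - Complex.exp ((-(u * x') : ℝ) * Complex.I) * (jj H u : ℂ))
              (Complex.exp ((-(u * x') : ℝ) * Complex.I) * (jj H u : ℂ))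
            rwa [sub_add_cancel] at this
          rw [norm_mul, Complex.norm_exp_ofReal_mul_I, one_mul, Complex.norm_real, Real.norm_eq_abs,
            abs_of_nonneg hjj.1] at h4
          have hH0 : 0 < H := by linarith
          have hu0 : 0 < |u| := lt_trans (Real.exp_pos _) hcase
          have h5 : jj H u ≤ 8 * H * Real.exp (-(16 * (c * x))) := by
            refine hjj.2.trans ?_
            have h6 : Real.exp (x / 2) ≤ u ^ 2 := by
              rw [← sq_abs]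
              have h7 : Real.exp (x / 2) = Real.exp (x / 4) ^ 2 := by
                rw [sq, ← Real.exp_add]; congr 1; ring
              rw [h7]
              exact pow_le_pow_left₀ (Real.exp_pos _).le hcase.le 2
            have h8 : Real.exp (x / 2) * Real.exp (-(x / 2)) = 1 := by
              rw [← Real.exp_add]; simp
            have h9 : 8 / H / (1 + (u / H) ^ 2) ≤ 8 * H * Real.exp (-(x / 2)) := by
              rw [div_div, div_le_iff₀ (by positivity)]
              have h10 : H * (1 + (u / H) ^ 2) = H + u ^ 2 / H := by field_simp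
              rw [h10]
              have h11 : 8 * H * Real.exp (-(x / 2)) * (H + u ^ 2 / H) =
                  8 * H ^ 2 * Real.exp (-(x / 2)) + 8 * (u ^ 2 * Real.exp (-(x / 2))) := by
                field_simp
              rw [h11]
              have h12 : 1 ≤ u ^ 2 * Real.exp (-(x / 2)) := by
                rw [← h8]
                exact mul_le_mul_of_nonneg_right h6 (Real.exp_pos _).le
              have h13 : 0 ≤ 8 * H ^ 2 * Real.exp (-(x / 2)) := by positivity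
              linarith
            refine h9.trans (mul_le_mul_of_nonneg_left (Real.exp_le_exp.2 ?_) (by positivity))
            linarith
          have h6 : C₁ * (H + |u|) * Real.exp (-x') ≤ C₁ * (H + 1) * Real.exp (-(16 * (c * x))) := by
            have e1 : H + |u| ≤ (H + 1) * Real.exp (x' / 2) := by
              have h7 : 1 ≤ Real.exp (x' / 2) := Real.one_le_exp (by linarith)
              have h9 := mul_le_mul_of_nonneg_left h7 hH0.le
              linarith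
            calc C₁ * (H + |u|) * Real.exp (-x')
                ≤ C₁ * ((H + 1) * Real.exp (x' / 2)) * Real.exp (-x') := by
                  apply mul_le_mul_of_nonneg_right _ (Real.exp_pos _).le
                  exact mul_le_mul_of_nonneg_left e1 hC₁.le
              _ = C₁ * (H + 1) * Real.exp (x' / 2 + -x') := by rw [Real.exp_add]; ring
              _ ≤ C₁ * (H + 1) * Real.exp (-(16 * (c * x))) := by
                  apply mul_le_mul_of_nonneg_left _ hCH.le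
                  apply Real.exp_le_exp.2
                  linarith
          have h7 : 0 ≤ C₀ * Real.exp (-(16 * (c * x))) := by positivity
          rw [hM]
          have h8 : (C₀ + 8 * H + C₁ * (H + 1)) * Real.exp (-(16 * (c * x))) =
              C₀ * Real.exp (-(16 * (c * x))) + 8 * H * Real.exp (-(16 * (c * x))) +
                C₁ * (H + 1) * Real.exp (-(16 * (c * x))) := by ring
          rw [h8]
          linarith
      have h2 : 1 / (L : ℝ) ≤ 1 := by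
        rw [div_le_one hL0]
        exact hl1
      calc 1 / (L : ℝ) * ‖kk H x' u‖ ≤ 1 * ‖kk H x' u‖ := mul_le_mul_of_nonneg_right h2 (norm_nonneg _)
        _ ≤ _ := by rw [one_mul]; exact hkk
    rw [ke_exp hρD x u hH]
    have h2 := ke_bound hρd (fun d₁ d₂ => cp (Nat.lcm d₁ d₂) u / (Nat.lcm d₁ d₂ : ℕ) *
        kk H (x - Real.log (Nat.lcm d₁ d₂ : ℕ)) u) (D := D) h1
    have h3 : (D : ℝ) ^ 4 * (M * Real.exp (-(16 * (c * x)))) ≤ Real.exp (-c * x) := by
      have e1 : M ≤ Real.exp (11 * (c * x)) := by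
        have := Real.add_one_le_exp (11 * (c * x))
        linarith
      calc (D : ℝ) ^ 4 * (M * Real.exp (-(16 * (c * x))))
          ≤ Real.exp (4 * (c * x)) * (Real.exp (11 * (c * x)) * Real.exp (-(16 * (c * x)))) := by
            apply mul_le_mul hD4 _ (by positivity) (Real.exp_pos _).le
            exact mul_le_mul_of_nonneg_right e1 (Real.exp_pos _).le
        _ = Real.exp (4 * (c * x) + (11 * (c * x) + -(16 * (c * x)))) := by rw [Real.exp_add, Real.exp_add]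
        _ ≤ Real.exp (-c * x) := by
            apply Real.exp_le_exp.2
            linarith
    linarith [h2.trans h3]

end MRT
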