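import Pool.Agent.MRT.Bas

/-!
# MRT-KkA: smooth exponential sums, small frequencies

PLAN.  `jj_eq`: `∫_{-2}^{2} (2 - |s|) cos (u s/H) ds/H`: primitives on `[0, 2]` (`integral_eq_sub_of_hasDerivAt`); `jj_le`: `|jj| ≤ 4/H` (`1 - cos x ≤ x²/2`) and `≤ 4H/u²`.  `kk_small`: `φ(t) = trw H x (log t)/t * e^{-iu log t}` on `(0, ∞)`, support `[e^{x-2/H}, e^{x+2/H}]`, piecewise `C¹`, `|φ'| ≤ (H + 2 + 2|u|)/t²`;
`|∑_{n ≥ 1} φ(n) - ∫_{0}^∞ φ| ≤ ∫ |φ'| + [only if x < 2/H] 4/H ≤ C (1 + |u| + H) e^{-x}` (on each `[n, n+1]`: `|φ(n) - ∫ φ| ≤ ∫ |φ'|`, `φ` is a Lipschitz function, it is enough to estimate `|φ(t) - φ(n)| ≤ (H + 2 + 2|u|) |t - n| /(min t n)²`);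
`∫ φ = ∫ trw H x y e^{-iuy} dy = e^{-iux} jj H u` (substitution `y = log t`, then `s = H (y - x)`).  The sum over `Ic (x-3) (x+3)` contains the support (`H ≥ 1`).
-/

set_option autoImplicit false

namespace MRT

open Finset MeasureTheory

theorem trw_nonneg (H x y : ℝ) : 0 ≤ trw H x y := le_max_left _ _

theorem trw_le (H x y : ℝ) : trw H x y ≤ 2 := by
  unfold trw
  refine max_le (by norm_num) ?_
  have := abs_nonneg (H * (y - x))
  linarith

theorem trw_lip (H x y y' : ℝ) : |trw H x y - trw H x y'| ≤ |H| * |y - y'| := by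
  unfold trw
  refine (abs_max_sub_max_le_max _ _ _ _).trans ?_
  rw [sub_self, abs_zero]
  refine max_le (by positivity) ?_
  have e1 : 2 - |H * (y - x)| - (2 - |H * (y' - x)|) = |H * (y' - x)| - |H * (y - x)| := by ring
  rw [e1]
  refine (abs_abs_sub_abs_le _ _).trans (le_of_eq ?_)
  rw [← abs_mul, abs_sub_comm]
  congr 1
  ring

theorem trw_zero {H x y : ℝ} (hH : 0 < H) (h : 2 / H ≤ |y - x|) : trw H x y = 0 := by
  unfold trw
  apply max_eq_left
  rw [abs_mul, abs_of_pos hH]
  rw [div_le_iff₀ hH] at h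
  linarith

theorem jj_le {H : ℝ} (hH : 0 < H) (u : ℝ) : 0 ≤ jj H u ∧ jj H u ≤ (8 / H) / (1 + (u / H) ^ 2) := by
  unfold jj
  by_cases hu : u = 0
  · rw [if_pos hu, hu]
    constructor
    · positivity
    · have : (8 / H) / (1 + (0 / H) ^ 2) = 8 / H := by simp
      rw [this]
      exact div_le_div_of_nonneg_right (by norm_num) hH.le
  · rw [if_neg hu]
    have hu2 : 0 < u ^ 2 := by positivity
    constructor
    · have := Real.cos_le_one (2 * u / H)
      apply div_nonneg _ hu2.le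
      apply mul_nonneg (by positivity)
      linarith
    · obtain ⟨z, hz⟩ : ∃ z, z = u / H := ⟨_, rfl⟩
      have hu' : u = H * z := by rw [hz]; field_simp
      have hz0 : z ≠ 0 := by rw [hz]; positivity
      have e1 : 2 * u / H = 2 * z := by rw [hz]; ring
      rw [e1, ← hz, Real.cos_two_mul, Real.cos_sq']
      have h1 : Real.sin z ^ 2 ≤ z ^ 2 := by
        rw [← sq_abs, ← sq_abs z]
        exact pow_le_pow_left₀ (abs_nonneg _) (Real.abs_sin_le_abs) 2
      have h2 : Real.sin z ^ 2 ≤ 1 := Real.sin_sq_le_one z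
      have hz2 : 0 < z ^ 2 := by positivity
      rw [div_div, div_le_div_iff₀ hu2 (by positivity), hu']
      have h3 : Real.sin z ^ 2 * (1 + z ^ 2) ≤ 2 * z ^ 2 := by nlinarith
      have h4 : 0 < H ^ 2 := by positivity
      nlinarith [mul_le_mul_of_nonneg_left h3 h4.le]

private noncomputable def psi (H x u y : ℝ) : ℂ := ((trw H x y : ℝ) : ℂ) * Complex.exp ((-(u * y) : ℝ) * Complex.I)

private theorem psi_cont (H x u : ℝ) : Continuous (psi H x u) := by
  unfold psi trw
  fun_prop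

private theorem trw_left {H x y : ℝ} (hH : 0 < H) (h1 : x - 2 / H ≤ y) (h2 : y ≤ x) : trw H x y = 2 + H * (y - x) := by
  unfold trw
  have h3 : H * (y - x) ≤ 0 := mul_nonpos_of_nonneg_of_nonpos hH.le (by linarith)
  rw [abs_of_nonpos h3, sub_neg_eq_add]
  apply max_eq_right
  have h4 : H * (x - 2 / H) ≤ H * y := mul_le_mul_of_nonneg_left h1 hH.le
  have h5 : H * (x - 2 / H) = H * x - 2 := by field_simp
  linarith

private theorem trw_right {H x y : ℝ} (hH : 0 < H) (h1 : x ≤ y) (h2 : y ≤ x + 2 / H) : trw H x y = 2 - H * (y - x) := by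
  unfold trw
  have h3 : 0 ≤ H * (y - x) := mul_nonneg hH.le (by linarith)
  rw [abs_of_nonneg h3]
  apply max_eq_right
  have h4 : H * y ≤ H * (x + 2 / H) := mul_le_mul_of_nonneg_left h2 hH.le
  have h5 : H * (x + 2 / H) = H * x + 2 := by field_simp
  linarith

private theorem psi_supp {H x u y : ℝ} (hH : 0 < H) (h : y ≤ x - 2 / H ∨ x + 2 / H ≤ y) : psi H x u y = 0 := by
  unfold psi
  have hH2 : 0 < 2 / H := by positivity
  rw [trw_zero hH]
  · simp
  · rcases h with h | h
    · rw [abs_of_nonpos (by linarith)]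
      linarith
    · rw [abs_of_nonneg (by linarith)]
      linarith

private theorem psi_int {H : ℝ} (hH : 0 < H) (x u : ℝ) {a b : ℝ} (ha : a ≤ x - 2 / H) (hb : x + 2 / H ≤ b) :
    ∫ y in a..b, psi H x u y = ∫ y, psi H x u y := by
  apply intervalIntegral.integral_eq_integral_of_support_subset
  intro y hy
  rw [Function.mem_support] at hy
  constructor
  · by_contra h
    exact hy (psi_supp hH (Or.inl (by linarith)))
  · by_contra h
    exact hy (psi_supp hH (Or.inr (by linarith)))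

private theorem exp_deriv (z : ℂ) (y : ℝ) : HasDerivAt (fun y : ℝ => Complex.exp (z * y)) (z * Complex.exp (z * y)) y := by
  have h1 : HasDerivAt (fun y : ℝ => z * (y : ℂ)) (z * 1) y := (Complex.ofRealCLM.hasDerivAt (x := y)).const_mul z
  have h2 := h1.cexp
  rw [mul_one, mul_comm] at h2
  exact h2

/-- the primitive of `(p + q y) e^{zy}` -/
private theorem prim_deriv {z : ℂ} (hz : z ≠ 0) (p q : ℂ) (y : ℝ) :
    HasDerivAt (fun y : ℝ => (p + q * y) * Complex.exp (z * y) / z - q * Complex.exp (z * y) / z ^ 2)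
      ((p + q * y) * Complex.exp (z * y)) y := by
  have h1 : HasDerivAt (fun y : ℝ => p + q * (y : ℂ)) (q * 1) y :=
    ((Complex.ofRealCLM.hasDerivAt (x := y)).const_mul q).const_add p
  have h2 := exp_deriv z y
  have h3 := ((h1.mul h2).div_const z).sub ((h2.const_mul q).div_const (z ^ 2))
  refine h3.congr_deriv ?_
  field_simp
  ring

theorem jj_eq {H : ℝ} (hH : 0 < H) (x u : ℝ) :
    ∫ y : ℝ, ((trw H x y : ℝ) : ℂ) * Complex.exp ((-(u * y) : ℝ) * Complex.I) = Complex.exp ((-(u * x) : ℝ) * Complex.I) * (jj H u : ℂ) := by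
  have h0 : ∫ y : ℝ, ((trw H x y : ℝ) : ℂ) * Complex.exp ((-(u * y) : ℝ) * Complex.I) = ∫ y, psi H x u y := rfl
  have hH2 : 0 < 2 / H := by positivity
  have hint : ∀ a b, IntervalIntegrable (psi H x u) volume a b := fun a b => (psi_cont H x u).intervalIntegrable a b
  rw [h0, ← psi_int hH x u le_rfl le_rfl,
    ← intervalIntegral.integral_add_adjacent_intervals (hint (x - 2 / H) x) (hint x (x + 2 / H))]
  have hHc : (H : ℂ) ≠ 0 := by exact_mod_cast hH.ne'
  by_cases hu : u = 0
  · subst hu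
    have e1 : ∫ y in (x - 2 / H)..x, psi H x 0 y = ((2 / H : ℝ) : ℂ) := by
      have g1 : ∫ y in (x - 2 / H)..x, psi H x 0 y = ∫ y in (x - 2 / H)..x, ((2 + H * (y - x) : ℝ) : ℂ) := by
        refine intervalIntegral.integral_congr fun y hy => ?_
        rw [Set.uIcc_of_le (by linarith)] at hy
        simp only [psi]
        rw [trw_left hH hy.1 hy.2]
        simp
      rw [g1, intervalIntegral.integral_ofReal]
      congr 1
      have g2 : ∀ y ∈ Set.uIcc (x - 2 / H) x, HasDerivAt (fun y => 2 * y + H * (y - x) ^ 2 / 2) (2 + H * (y - x)) y := by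
        intro y _
        have h1 := ((hasDerivAt_id y).const_mul 2).add (((((hasDerivAt_id y).sub_const x).pow 2).const_mul H).div_const 2)
        refine h1.congr_deriv ?_
        simp
        ring
      rw [intervalIntegral.integral_eq_sub_of_hasDerivAt g2 (Continuous.intervalIntegrable (by fun_prop) _ _)]
      field_simp
      ring
    have e2 : ∫ y in x..(x + 2 / H), psi H x 0 y = ((2 / H : ℝ) : ℂ) := by
      have g1 : ∫ y in x..(x + 2 / H), psi H x 0 y = ∫ y in x..(x + 2 / H), ((2 - H * (y - x) : ℝ) : ℂ) := by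
        refine intervalIntegral.integral_congr fun y hy => ?_
        rw [Set.uIcc_of_le (by linarith)] at hy
        simp only [psi]
        rw [trw_right hH hy.1 hy.2]
        simp
      rw [g1, intervalIntegral.integral_ofReal]
      congr 1
      have g2 : ∀ y ∈ Set.uIcc x (x + 2 / H), HasDerivAt (fun y => 2 * y - H * (y - x) ^ 2 / 2) (2 - H * (y - x)) y := by
        intro y _
        have h1 := ((hasDerivAt_id y).const_mul 2).sub (((((hasDerivAt_id y).sub_const x).pow 2).const_mul H).div_const 2)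
        refine h1.congr_deriv ?_
        simp
        ring
      rw [intervalIntegral.integral_eq_sub_of_hasDerivAt g2 (Continuous.intervalIntegrable (by fun_prop) _ _)]
      field_simp
      ring
    rw [e1, e2]
    unfold jj
    rw [if_pos rfl]
    simp
    ring
  · obtain ⟨z, hz⟩ : ∃ z : ℂ, z = -(u : ℂ) * Complex.I := ⟨_, rfl⟩
    have huc : (u : ℂ) ≠ 0 := by exact_mod_cast hu
    have hz0 : z ≠ 0 := by
      rw [hz]
      exact mul_ne_zero (neg_ne_zero.2 huc) Complex.I_ne_zero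
    have hz2 : z ^ 2 = -(u : ℂ) ^ 2 := by
      rw [hz, mul_pow, Complex.I_sq]
      ring
    have hex : ∀ y : ℝ, Complex.exp ((-(u * y) : ℝ) * Complex.I) = Complex.exp (z * y) := by
      intro y
      rw [hz]
      congr 1
      push_cast
      ring
    have e1 : ∫ y in (x - 2 / H)..x, psi H x u y = ∫ y in (x - 2 / H)..x, ((2 - H * x : ℂ) + (H : ℂ) * y) * Complex.exp (z * y) := by
      refine intervalIntegral.integral_congr fun y hy => ?_
      rw [Set.uIcc_of_le (by linarith)] at hy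
      simp only [psi]
      rw [trw_left hH hy.1 hy.2, hex]
      push_cast
      ring
    have e2 : ∫ y in x..(x + 2 / H), psi H x u y =
        ∫ y in x..(x + 2 / H), ((2 + H * x : ℂ) + (-(H : ℂ)) * y) * Complex.exp (z * y) := by
      refine intervalIntegral.integral_congr fun y hy => ?_
      rw [Set.uIcc_of_le (by linarith)] at hy
      simp only [psi]
      rw [trw_right hH hy.1 hy.2, hex]
      push_cast
      ring
    rw [e1, e2, intervalIntegral.integral_eq_sub_of_hasDerivAt (fun y _ => prim_deriv hz0 _ _ y)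
      (Continuous.intervalIntegrable (by fun_prop) _ _),
      intervalIntegral.integral_eq_sub_of_hasDerivAt (fun y _ => prim_deriv hz0 _ _ y)
      (Continuous.intervalIntegrable (by fun_prop) _ _), hex]
    have e3 : Complex.exp (z * ((x - 2 / H : ℝ) : ℂ)) = Complex.exp (z * x) * Complex.exp (-(z * (2 / H))) := by
      rw [← Complex.exp_add]
      congr 1
      push_cast
      ring
    have e4 : Complex.exp (z * ((x + 2 / H : ℝ) : ℂ)) = Complex.exp (z * x) * Complex.exp (z * (2 / H)) := by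
      rw [← Complex.exp_add]
      congr 1
      push_cast
      ring
    have e5 : Complex.exp (-(z * (2 / H))) + Complex.exp (z * (2 / H)) = 2 * Complex.cos (2 * u / H) := by
      rw [Complex.cos, hz]
      have f1 : -(-(u : ℂ) * Complex.I * (2 / H)) = 2 * u / H * Complex.I := by ring
      have f2 : -(u : ℂ) * Complex.I * (2 / H) = -(2 * u / H) * Complex.I := by ring
      rw [f1, f2]
      ring
    rw [e3, e4]
    have e6 : ((jj H u : ℝ) : ℂ) = 2 * H * (1 - Complex.cos (2 * u / H)) / (u : ℂ) ^ 2 := by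
      unfold jj
      rw [if_neg hu]
      push_cast
      rfl
    rw [e6]
    have e7 : 2 * (H : ℂ) * (1 - Complex.cos (2 * u / H)) / (u : ℂ) ^ 2 =
        (H * (Complex.exp (-(z * (2 / H))) + Complex.exp (z * (2 / H))) - 2 * H) / z ^ 2 := by
      rw [e5, hz2]
      field_simp
      ring
    rw [e7]
    push_cast
    field_simp
    ring

private theorem psi_le (H x u y : ℝ) : ‖psi H x u y‖ ≤ 2 := by
  unfold psi
  rw [norm_mul, Complex.norm_exp_ofReal_mul_I, mul_one, Complex.norm_real, Real.norm_eq_abs, abs_of_nonneg (trw_nonneg H x y)]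
  exact trw_le H x y

private theorem exp_lip (a b : ℝ) : ‖Complex.exp (a * Complex.I) - Complex.exp (b * Complex.I)‖ ≤ |a - b| := by
  have h1 := Real.norm_exp_I_mul_ofReal_sub_one_le (x := a - b)
  have e1 : Complex.exp (a * Complex.I) - Complex.exp (b * Complex.I) =
      Complex.exp (b * Complex.I) * (Complex.exp (Complex.I * ((a - b : ℝ) : ℂ)) - 1) := by
    rw [mul_sub, ← Complex.exp_add, mul_one]
    congr 2
    push_cast
    ring
  rw [e1, norm_mul, Complex.norm_exp_ofReal_mul_I, one_mul]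
  exact h1

private theorem psi_lip {H : ℝ} (hH : 0 < H) (x u y y' : ℝ) : ‖psi H x u y - psi H x u y'‖ ≤ (H + 2 * |u|) * |y - y'| := by
  unfold psi
  have e1 : ((trw H x y : ℝ) : ℂ) * Complex.exp ((-(u * y) : ℝ) * Complex.I) -
      ((trw H x y' : ℝ) : ℂ) * Complex.exp ((-(u * y') : ℝ) * Complex.I) =
      ((trw H x y - trw H x y' : ℝ) : ℂ) * Complex.exp ((-(u * y) : ℝ) * Complex.I) +
      ((trw H x y' : ℝ) : ℂ) * (Complex.exp ((-(u * y) : ℝ) * Complex.I) - Complex.exp ((-(u * y') : ℝ) * Complex.I)) := by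
    push_cast
    ring
  rw [e1]
  refine (norm_add_le _ _).trans ?_
  rw [norm_mul, norm_mul, Complex.norm_exp_ofReal_mul_I, mul_one, Complex.norm_real, Complex.norm_real, Real.norm_eq_abs,
    Real.norm_eq_abs, abs_of_nonneg (trw_nonneg H x y')]
  have h1 := trw_lip H x y y'
  rw [abs_of_pos hH] at h1
  have h2 := exp_lip (-(u * y)) (-(u * y'))
  have h3 : |-(u * y) - -(u * y')| = |u| * |y - y'| := by
    rw [← abs_mul, ← abs_neg]
    congr 1
    ring
  rw [h3] at h2
  have h4 : trw H x y' * ‖Complex.exp ((-(u * y) : ℝ) * Complex.I) - Complex.exp ((-(u * y') : ℝ) * Complex.I)‖ ≤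
      2 * (|u| * |y - y'|) := mul_le_mul (trw_le H x y') h2 (norm_nonneg _) (by norm_num)
  linarith

private theorem log_step {x : ℝ} (hx : 0 < x) : 1 / (x + 1) ≤ Real.log (x + 1) - Real.log x ∧
    Real.log (x + 1) - Real.log x ≤ 1 / x := by
  have h1 : Real.log (x + 1) - Real.log x = Real.log ((x + 1) / x) := (Real.log_div (by positivity) hx.ne').symm
  constructor
  · have h2 := Real.log_le_sub_one_of_pos (show 0 < x / (x + 1) by positivity)
    rw [Real.log_div hx.ne' (by positivity)] at h2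
    have h3 : x / (x + 1) - 1 = -(1 / (x + 1)) := by
      field_simp
      ring
    linarith
  · have h2 := Real.log_le_sub_one_of_pos (show 0 < (x + 1) / x by positivity)
    rw [h1]
    have h3 : (x + 1) / x - 1 = 1 / x := by
      field_simp
      ring
    linarith

private theorem one_term {H : ℝ} (hH : 1 ≤ H) (x u : ℝ) {n : ℕ} (hn : 1 ≤ n) :
    ‖psi H x u (Real.log n) / n - ∫ y in (Real.log n)..(Real.log (n + 1)), psi H x u y‖ ≤ (3 * H + 2 * |u|) * ((n : ℝ) ^ 2)⁻¹ := by
  have hn0 : (0 : ℝ) < n := by exact_mod_cast hn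
  obtain ⟨h1, h2⟩ := log_step hn0
  obtain ⟨l, hl⟩ : ∃ l, l = Real.log (n + 1) - Real.log n := ⟨_, rfl⟩
  rw [← hl] at h1 h2
  have hl0 : 0 < l := lt_of_lt_of_le (by positivity) h1
  have hH0 : 0 < H := by linarith
  have hM : 0 ≤ H + 2 * |u| := by positivity
  have h3 : ‖∫ y in (Real.log n)..(Real.log (n + 1)), (psi H x u y - psi H x u (Real.log n))‖ ≤ (H + 2 * |u|) * l * l := by
    have h4 := intervalIntegral.norm_integral_le_of_norm_le_const (a := Real.log n) (b := Real.log (n + 1))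
      (f := fun y => psi H x u y - psi H x u (Real.log n)) (C := (H + 2 * |u|) * l) (fun y hy => by
        rw [Set.uIoc_of_le (by linarith)] at hy
        refine (psi_lip hH0 x u _ _).trans (mul_le_mul_of_nonneg_left ?_ hM)
        rw [abs_of_nonneg (by linarith [hy.1])]
        linarith [hy.2])
    rwa [← hl, abs_of_pos hl0] at h4
  rw [intervalIntegral.integral_sub ((psi_cont H x u).intervalIntegrable _ _) intervalIntegrable_const,
    intervalIntegral.integral_const, ← hl] at h3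
  have e1 : psi H x u (Real.log n) / n - ∫ y in (Real.log n)..(Real.log (n + 1)), psi H x u y =
      psi H x u (Real.log n) * ((1 / n - l : ℝ) : ℂ) -
        ((∫ y in (Real.log n)..(Real.log (n + 1)), psi H x u y) - l • psi H x u (Real.log n)) := by
    rw [Complex.real_smul]
    push_cast
    ring
  rw [e1]
  refine (norm_sub_le _ _).trans ?_
  rw [norm_mul, Complex.norm_real, Real.norm_eq_abs, abs_of_nonneg (by linarith)]
  have h5 := psi_le H x u (Real.log n)
  have h6 : 1 / (n : ℝ) - l ≤ ((n : ℝ) ^ 2)⁻¹ := by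
    have : 1 / (n : ℝ) - 1 / (n + 1) ≤ ((n : ℝ) ^ 2)⁻¹ := by
      rw [div_sub_div _ _ hn0.ne' (by positivity), ← one_div, div_le_div_iff₀ (by positivity) (by positivity)]
      nlinarith
    linarith
  have h7 : l * l ≤ ((n : ℝ) ^ 2)⁻¹ := by
    have : l * l ≤ 1 / n * (1 / n) := mul_le_mul h2 h2 hl0.le (by positivity)
    refine this.trans (le_of_eq ?_)
    field_simp
  have h8 : ‖psi H x u (Real.log n)‖ * (1 / (n : ℝ) - l) ≤ 2 * ((n : ℝ) ^ 2)⁻¹ :=
    mul_le_mul h5 h6 (by linarith) (by norm_num)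
  have h9 : (H + 2 * |u|) * l * l ≤ (H + 2 * |u|) * ((n : ℝ) ^ 2)⁻¹ := by
    rw [mul_assoc]
    exact mul_le_mul_of_nonneg_left h7 hM
  have h10 : 0 < ((n : ℝ) ^ 2)⁻¹ := by positivity
  nlinarith

private theorem int_log {F : ℝ → ℂ} (hF : Continuous F) (A : ℕ) : ∀ B, A ≤ B →
    ∑ n ∈ Ico A B, ∫ y in (Real.log n)..(Real.log (n + 1)), F y = ∫ y in (Real.log A)..(Real.log B), F y := by
  intro B hAB
  induction B, hAB using Nat.le_induction with
  | base => simp
  | succ m hm ih =>
    rw [Finset.sum_Ico_succ_top hm, ih]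
    push_cast
    exact intervalIntegral.integral_add_adjacent_intervals (hF.intervalIntegrable _ _) (hF.intervalIntegrable _ _)

private theorem kk_psi (H x u : ℝ) : kk H x u = ∑ n ∈ Ic (x - 3) (x + 3), psi H x u (Real.log n) / n := by
  unfold kk psi cp
  refine Finset.sum_congr rfl fun n _ => ?_
  push_cast
  ring

private theorem Ic_eq' (a b : ℝ) : Ic a b = Finset.Ioc ⌊Real.exp a⌋₊ ⌊Real.exp b⌋₊ := by
  ext n
  rw [mem_Ic, Finset.mem_Ioc, Nat.floor_lt (Real.exp_pos a).le, Nat.le_floor_iff (Real.exp_pos b).le]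

theorem kk_small : ∃ C : ℝ, 0 < C ∧ ∀ H x u : ℝ, 1 ≤ H →
    ‖kk H x u - Complex.exp ((-(u * x) : ℝ) * Complex.I) * (jj H u : ℂ)‖ ≤ C * (H + |u|) * Real.exp (-x) := by
  refine ⟨100 * Real.exp 3, by positivity, fun H x u hH => ?_⟩
  have hH0 : 0 < H := by linarith
  have hu := abs_nonneg u
  by_cases hx : x < 3
  · have h1 : ‖kk H x u‖ ≤ 14 := by
      rw [kk_psi]
      refine (norm_sum_le _ _).trans ?_
      have h2 : ∑ n ∈ Ic (x - 3) (x + 3), ‖psi H x u (Real.log n) / n‖ ≤ ∑ n ∈ Ic (x - 3) (x + 3), 2 * (1 / (n : ℝ)) := by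
        refine Finset.sum_le_sum fun n _ => ?_
        rw [norm_div, Complex.norm_natCast, mul_one_div]
        exact div_le_div_of_nonneg_right (psi_le _ _ _ _) (Nat.cast_nonneg n)
      rw [← Finset.mul_sum] at h2
      have h3 := sum_inv_Ic_le (show x - 3 ≤ x + 3 by linarith)
      linarith
    have h2 : ‖Complex.exp ((-(u * x) : ℝ) * Complex.I) * (jj H u : ℂ)‖ ≤ 8 := by
      obtain ⟨g1, g2⟩ := jj_le hH0 u
      rw [norm_mul, Complex.norm_exp_ofReal_mul_I, one_mul, Complex.norm_real, Real.norm_eq_abs, abs_of_nonneg g1]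
      refine g2.trans ?_
      rw [div_div, div_le_iff₀ (by positivity)]
      have : 0 ≤ (u / H) ^ 2 := by positivity
      nlinarith
    have h3 := norm_sub_le (kk H x u) (Complex.exp ((-(u * x) : ℝ) * Complex.I) * (jj H u : ℂ))
    have h4 : 1 ≤ Real.exp 3 * Real.exp (-x) := by
      rw [← Real.exp_add]
      exact Real.one_le_exp (by linarith)
    have h5 : 100 * Real.exp 3 * (H + |u|) * Real.exp (-x) = 100 * (H + |u|) * (Real.exp 3 * Real.exp (-x)) := by ring
    rw [h5]
    nlinarith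
  push Not at hx
  obtain ⟨A, hA⟩ : ∃ A, A = ⌊Real.exp (x - 3)⌋₊ := ⟨_, rfl⟩
  obtain ⟨B, hB⟩ : ∃ B, B = ⌊Real.exp (x + 3)⌋₊ + 1 := ⟨_, rfl⟩
  have hexp1 : 1 ≤ Real.exp (x - 3) := Real.one_le_exp (by linarith)
  have hA1 : 1 ≤ A := by
    rw [hA]
    exact Nat.le_floor (by simpa using hexp1)
  have hA1' : (1 : ℝ) ≤ A := by exact_mod_cast hA1
  have hAlo : Real.exp (x - 3) ≤ 2 * A := by
    have := Nat.lt_floor_add_one (Real.exp (x - 3))
    rw [← hA] at this
    linarith
  have hAhi : (A : ℝ) ≤ Real.exp (x - 3) := by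
    rw [hA]
    exact Nat.floor_le (Real.exp_pos _).le
  have hBlo : Real.exp (x + 3) ≤ B := by
    have := Nat.lt_floor_add_one (Real.exp (x + 3))
    rw [hB]
    push_cast
    linarith
  have hAB : A ≤ B := by
    rw [hA, hB]
    have := Nat.floor_le_floor (Real.exp_le_exp.2 (show x - 3 ≤ x + 3 by linarith))
    omega
  have hH2 : 2 / H ≤ 2 := by
    rw [div_le_iff₀ hH0]
    linarith
  have hlogA : Real.log A ≤ x - 3 := (Real.log_le_iff_le_exp (by linarith)).2 hAhi
  have hlogB : x + 3 ≤ Real.log B := by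
    rw [Real.le_log_iff_exp_le (lt_of_lt_of_le (Real.exp_pos _) hBlo)]
    exact hBlo
  have hzero : psi H x u (Real.log A) = 0 := psi_supp hH0 (Or.inl (by linarith))
  have hk : kk H x u = ∑ n ∈ Ico A B, psi H x u (Real.log n) / n := by
    have hAB' : A < B := by
      have h1 : A ≤ ⌊Real.exp (x + 3)⌋₊ := by
        rw [hA]
        exact Nat.floor_le_floor (Real.exp_le_exp.2 (show x - 3 ≤ x + 3 by linarith))
      omega
    rw [kk_psi, Finset.sum_eq_sum_Ico_succ_bot hAB', hzero, zero_div, zero_add]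
    refine Finset.sum_congr ?_ fun _ _ => rfl
    ext n
    rw [Ic_eq', ← hA, Finset.mem_Ioc, Finset.mem_Ico, hB]
    omega
  have hI : Complex.exp ((-(u * x) : ℝ) * Complex.I) * (jj H u : ℂ) =
      ∑ n ∈ Ico A B, ∫ y in (Real.log n)..(Real.log (n + 1)), psi H x u y := by
    rw [int_log (psi_cont H x u) A B hAB, psi_int hH0 x u (by linarith) (by linarith), ← jj_eq hH0]
    rfl
  rw [hk, hI, ← Finset.sum_sub_distrib]
  refine (norm_sum_le _ _).trans ?_
  have hM : 0 ≤ 3 * H + 2 * |u| := by positivity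
  have h1 : ∑ n ∈ Ico A B, ‖psi H x u (Real.log n) / n - ∫ y in (Real.log n)..(Real.log (n + 1)), psi H x u y‖ ≤
      ∑ n ∈ Ico A B, (3 * H + 2 * |u|) * ((n : ℝ) ^ 2)⁻¹ :=
    Finset.sum_le_sum fun n hn => one_term hH x u (hA1.trans (Finset.mem_Ico.1 hn).1)
  refine h1.trans ?_
  rw [← Finset.mul_sum]
  have h2 : ∑ n ∈ Ico A B, ((n : ℝ) ^ 2)⁻¹ ≤ 2 * (A : ℝ)⁻¹ := by
    have h3 : ∑ n ∈ Ico A B, ((n : ℝ) ^ 2)⁻¹ ≤ ((A : ℝ) ^ 2)⁻¹ + ∑ n ∈ Ioc A B, ((n : ℝ) ^ 2)⁻¹ := by
      have h4 : Ico A B ⊆ insert A (Ioc A B) := by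
        intro n hn
        rw [Finset.mem_Ico] at hn
        rw [Finset.mem_insert, Finset.mem_Ioc]
        omega
      refine (Finset.sum_le_sum_of_subset_of_nonneg h4 fun n _ _ => by positivity).trans ?_
      rw [Finset.sum_insert (by simp)]
    have h5 := sum_Ioc_inv_sq_le_sub (α := ℝ) (k := A) (n := B) (by omega) hAB
    have h6 : ((A : ℝ) ^ 2)⁻¹ ≤ (A : ℝ)⁻¹ := inv_anti₀ (by linarith) (by nlinarith)
    have h7 : 0 ≤ ((B : ℝ))⁻¹ := by positivity
    linarith
  have h3 : (A : ℝ)⁻¹ ≤ 2 * (Real.exp 3 * Real.exp (-x)) := by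
    have e1 : Real.exp 3 * Real.exp (-x) = (Real.exp (x - 3))⁻¹ := by
      rw [← Real.exp_add, ← Real.exp_neg]
      congr 1
      ring
    rw [e1, ← div_eq_mul_inv, le_div_iff₀ (Real.exp_pos _), inv_mul_le_iff₀ (by linarith)]
    linarith
  have h4 : 0 < Real.exp 3 * Real.exp (-x) := by positivity
  calc (3 * H + 2 * |u|) * ∑ n ∈ Ico A B, ((n : ℝ) ^ 2)⁻¹ ≤ (3 * H + 2 * |u|) * (2 * (2 * (Real.exp 3 * Real.exp (-x)))) :=
        mul_le_mul_of_nonneg_left (by linarith) hM
    _ ≤ 100 * Real.exp 3 * (H + |u|) * Real.exp (-x) := by nlinarith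

/-- Multiples of `d`. -/
theorem kk_dvd {d : ℕ} (hd : 0 < d) {H : ℝ} (hH : 1 ≤ H) (x u : ℝ) :
    ∑ n ∈ (Ic (x - 3) (x + 3)).filter (d ∣ ·), ((trw H x (Real.log n) / n : ℝ) : ℂ) * cp n u = cp d u / d * kk H (x - Real.log d) u := by
  have hd' : (0 : ℝ) < d := by exact_mod_cast hd
  have e : (Ic (x - 3) (x + 3)).filter (d ∣ ·) = (Ic (x - Real.log d - 3) (x - Real.log d + 3)).image (d * ·) := by
    ext n
    rw [Finset.mem_filter, Finset.mem_image]
    constructor
    · rintro ⟨hn, m, rfl⟩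
      have h1 := one_le_of_mem hn
      have hm : 1 ≤ m := by
        rcases Nat.eq_zero_or_pos m with h0 | h0
        · rw [h0, mul_zero] at h1
          omega
        · exact h0
      have hm' : (0 : ℝ) < m := by exact_mod_cast hm
      refine ⟨m, ?_, rfl⟩
      rw [mem_Ic_log hm]
      rw [mem_Ic_log h1, Nat.cast_mul, Real.log_mul hd'.ne' hm'.ne'] at hn
      constructor <;> linarith [hn.1, hn.2]
    · rintro ⟨m, hm, rfl⟩
      have h1 := one_le_of_mem hm
      have hm' : (0 : ℝ) < m := by exact_mod_cast h1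
      refine ⟨?_, dvd_mul_right _ _⟩
      rw [mem_Ic_log h1] at hm
      show d * m ∈ Ic (x - 3) (x + 3)
      rw [mem_Ic_log (Nat.mul_pos hd h1), Nat.cast_mul, Real.log_mul hd'.ne' hm'.ne']
      constructor <;> linarith [hm.1, hm.2]
  rw [e, Finset.sum_image (fun a _ b _ hab => Nat.eq_of_mul_eq_mul_left hd hab)]
  unfold kk
  rw [Finset.mul_sum]
  refine Finset.sum_congr rfl fun m hm => ?_
  have hm1 := one_le_of_mem hm
  have hm' : (0 : ℝ) < m := by exact_mod_cast hm1
  rw [cp_mul hd hm1, Nat.cast_mul, Real.log_mul hd'.ne' hm'.ne']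
  have e1 : trw H x (Real.log d + Real.log m) = trw H (x - Real.log d) (Real.log m) := by
    unfold trw
    congr 4
    ring
  rw [e1]
  have hdc : (d : ℂ) ≠ 0 := by exact_mod_cast hd.ne'
  have hmc : (m : ℂ) ≠ 0 := by
    have : m ≠ 0 := by omega
    exact_mod_cast this
  push_cast
  field_simp

end MRT
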