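import Pool.Agent.MRT.KkA
import Pool.Agent.MRT.EsL

/-!
# MRT-KkB: smooth exponential sums, large frequencies

PLAN.  `abel`: summation by parts.  Weights `w n = trw H x (log n)/n` for `n ∈ Ioc a b`, `a = ⌊e^{x-2}⌋`, `b = ⌊e^{x+2}⌋ ≤ 64 a` (for `x ≥ 6`), contains the support (`H ≥ 1`, `trw_zero`): `w ≤ 2/a` and the total variation is at most `8/a` (`trw` is first increasing then decreasing in `n`, `1/n` is decreasing:
`∑ |w_{n+1} - w_n| ≤ (1/a) ∑ |trw_{n+1} - trw_n| + 2 ∑ |1/(n+1) - 1/n| ≤ 4/a + 2/a`).  So `|kk| ≤ 8 B/a` if all partial sums are `≤ B`.  `kk_pow`: `es_pow`, `B ≤ C a^{1-c}` for `e^{x/2} ≤ |u| ≤ e^{Kx}` (`√a ≤ e^{x/2}`; `e^{Kx} ≤ a^{K+1}` for `x` large), for small `x` trivially `|kk| ≤ 2 * 7`.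
`kk_hmi` (`H = 1`): `|u| ≤ e^{x/2}`: `kk_small`, `jj_le`; `e^{x/2} ≤ |u| ≤ a`: `es_kl`; `a ≤ |u| ≤ e^{3x/2} ≤ a²`: `es_sq`, for `x ≥ x₀`; for `x ≤ x₀` trivial.
-/

set_option autoImplicit false

namespace MRT

open Finset

private theorem Ioo_succ_sum {M : Type} [AddCommMonoid M] {a b : ℕ} (h : a < b) (f : ℕ → M) :
    ∑ n ∈ Ioo a (b + 1), f n = ∑ n ∈ Ioo a b, f n + f b := by
  have e : Ioo a (b + 1) = insert b (Ioo a b) := by
    ext n
    rw [Finset.mem_insert, Finset.mem_Ioo, Finset.mem_Ioo]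
    omega
  rw [e, Finset.sum_insert (by simp), add_comm]

private theorem abel_eq {a : ℕ} (w : ℕ → ℝ) (z : ℕ → ℂ) {b : ℕ} (hab : a ≤ b) :
    ∑ n ∈ Ioc a b, (w n : ℂ) * z n = (w b : ℂ) * ∑ n ∈ Ioc a b, z n -
      ∑ n ∈ Ioo a b, ((w (n + 1) - w n : ℝ) : ℂ) * ∑ k ∈ Ioc a n, z k := by
  induction b, hab using Nat.le_induction with
  | base => simp
  | succ b hb ih =>
    rw [← Finset.insert_Ioc_right_eq_Ioc_add_one hb, Finset.sum_insert (by simp), Finset.sum_insert (by simp), ih]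
    rcases hb.eq_or_lt with rfl | hlt
    · have e : Ioo a (a + 1) = ∅ := by
        ext n
        rw [Finset.mem_Ioo]
        simp only [Finset.notMem_empty, iff_false]
        omega
      rw [e]
      simp
    · rw [Ioo_succ_sum hlt]
      push_cast
      ring

theorem abel {a b : ℕ} (w : ℕ → ℝ) (z : ℕ → ℂ) {B : ℝ} (hB : ∀ m, ‖∑ n ∈ Ioc a m, z n‖ ≤ B ∨ b < m) (hab : a ≤ b) :
    ‖∑ n ∈ Ioc a b, (w n : ℂ) * z n‖ ≤ B * (|w b| + ∑ n ∈ Ioo a b, |w (n + 1) - w n|) := by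
  have hB' : ∀ m, m ≤ b → ‖∑ n ∈ Ioc a m, z n‖ ≤ B := fun m hm => (hB m).resolve_right (by omega)
  rw [abel_eq w z hab, mul_add]
  refine (norm_sub_le _ _).trans (add_le_add ?_ ?_)
  · rw [norm_mul, Complex.norm_real, Real.norm_eq_abs, mul_comm]
    exact mul_le_mul_of_nonneg_right (hB' b le_rfl) (abs_nonneg _)
  · refine (norm_sum_le _ _).trans ?_
    rw [Finset.mul_sum]
    refine Finset.sum_le_sum fun n hn => ?_
    rw [norm_mul, Complex.norm_real, Real.norm_eq_abs, mul_comm]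
    exact mul_le_mul_of_nonneg_right (hB' n (Finset.mem_Ioo.1 hn).2.le) (abs_nonneg _)

private theorem tel (g : ℕ → ℝ) {a b : ℕ} (h : a + 1 ≤ b) :
    ∑ n ∈ Ioo a b, (g (n + 1) - g n) = g b - g (a + 1) := by
  induction b, h using Nat.le_induction with
  | base =>
    have e : Ioo a (a + 1) = ∅ := by
      ext n
      rw [Finset.mem_Ioo]
      simp only [Finset.notMem_empty, iff_false]
      omega
    rw [e, Finset.sum_empty, sub_self]
  | succ b hb ih =>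
    rw [Ioo_succ_sum (by omega), ih]
    ring

/-- the increasing part of the weight -/
private noncomputable def wP (s : ℝ) : ℝ := max 0 (min 2 (2 + s))

/-- the decreasing part of the weight -/
private noncomputable def wN (s : ℝ) : ℝ := max 0 (min 2 s)

private theorem wPN (s : ℝ) : max 0 (2 - |s|) = wP s - wN s := by
  unfold wP wN
  rcases le_total 0 s with h | h
  · rw [abs_of_nonneg h]
    simp only [max_def, min_def]
    split_ifs <;> linarith
  · rw [abs_of_nonpos h]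
    simp only [max_def, min_def]
    split_ifs <;> linarith

private theorem wP_mono : Monotone wP := fun _ _ h =>
  max_le_max le_rfl (min_le_min le_rfl (by linarith))

private theorem wN_mono : Monotone wN := fun _ _ h =>
  max_le_max le_rfl (min_le_min le_rfl h)

private theorem wP_bd (s : ℝ) : 0 ≤ wP s ∧ wP s ≤ 2 :=
  ⟨le_max_left _ _, max_le (by norm_num) (min_le_left _ _)⟩

private theorem wN_bd (s : ℝ) : 0 ≤ wN s ∧ wN s ≤ 2 :=
  ⟨le_max_left _ _, max_le (by norm_num) (min_le_left _ _)⟩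

private theorem var_bd {H : ℝ} (hH : 1 ≤ H) (x : ℝ) {a b : ℕ} (ha : 1 ≤ a) (hab : a < b) :
    |trw H x (Real.log b) / b| + ∑ n ∈ Ioo a b, |trw H x (Real.log (n + 1 : ℕ)) / (n + 1 : ℕ) - trw H x (Real.log n) / n| ≤ 8 / a := by
  have ha0 : (0 : ℝ) < a := by exact_mod_cast ha
  have hb0 : (a : ℝ) < b := by exact_mod_cast hab
  have h1 : |trw H x (Real.log b) / b| ≤ 2 / a := by
    rw [abs_of_nonneg (div_nonneg (trw_nonneg _ _ _) (Nat.cast_nonneg _))]
    exact div_le_div₀ (by norm_num) (trw_le _ _ _) ha0 hb0.le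
  obtain ⟨g, hg⟩ : ∃ g : ℕ → ℝ, ∀ n, g n = (wP (H * (Real.log n - x)) + wN (H * (Real.log n - x))) / a - 2 / n :=
    ⟨_, fun _ => rfl⟩
  have h2 : ∀ n ∈ Ioo a b, |trw H x (Real.log (n + 1 : ℕ)) / (n + 1 : ℕ) - trw H x (Real.log n) / n| ≤ g (n + 1) - g n := by
    intro n hn
    have hn1 := (Finset.mem_Ioo.1 hn).1
    have hn0 : (0 : ℝ) < n := by
      have : 0 < n := by omega
      exact_mod_cast this
    have han : (a : ℝ) ≤ (n : ℝ) + 1 := by
      have : a ≤ n + 1 := by omega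
      exact_mod_cast this
    have hlog : Real.log n ≤ Real.log (n + 1 : ℕ) := by
      apply Real.log_le_log hn0
      push_cast
      linarith
    have hs : H * (Real.log n - x) ≤ H * (Real.log (n + 1 : ℕ) - x) :=
      mul_le_mul_of_nonneg_left (by linarith) (by linarith)
    have hP := wP_mono hs
    have hN := wN_mono hs
    have eT : ∀ y, trw H x y = wP (H * (y - x)) - wN (H * (y - x)) := fun y => wPN _
    have hT0 := trw_nonneg H x (Real.log n)
    have hT2 := trw_le H x (Real.log n)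
    have hD : |trw H x (Real.log (n + 1 : ℕ)) - trw H x (Real.log n)| ≤
        (wP (H * (Real.log (n + 1 : ℕ) - x)) + wN (H * (Real.log (n + 1 : ℕ) - x))) -
        (wP (H * (Real.log n - x)) + wN (H * (Real.log n - x))) := by
      rw [eT, eT, abs_le]
      constructor <;> linarith
    rw [hg, hg]
    obtain ⟨T', hT'⟩ : ∃ T', T' = trw H x (Real.log (n + 1 : ℕ)) := ⟨_, rfl⟩
    obtain ⟨T, hT⟩ : ∃ T, T = trw H x (Real.log n) := ⟨_, rfl⟩
    rw [← hT, ← hT'] at hD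
    rw [← hT] at hT0 hT2
    rw [← hT, ← hT']
    obtain ⟨D, hDD⟩ : ∃ D, D = (wP (H * (Real.log (n + 1 : ℕ) - x)) + wN (H * (Real.log (n + 1 : ℕ) - x))) -
        (wP (H * (Real.log n - x)) + wN (H * (Real.log n - x))) := ⟨_, rfl⟩
    rw [← hDD] at hD
    have e1 : T' / (n + 1 : ℕ) - T / n = (T' - T) / ((n : ℝ) + 1) - T * (1 / n - 1 / ((n : ℝ) + 1)) := by
      push_cast
      field_simp
      ring
    have hpos : 0 ≤ 1 / (n : ℝ) - 1 / ((n : ℝ) + 1) := by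
      rw [sub_nonneg]
      exact one_div_le_one_div_of_le hn0 (by linarith)
    have e2 : |(T' - T) / ((n : ℝ) + 1)| ≤ D / a := by
      rw [abs_div, abs_of_pos (show (0 : ℝ) < (n : ℝ) + 1 by linarith)]
      exact div_le_div₀ ((abs_nonneg _).trans hD) hD ha0 han
    have e3 : |T * (1 / n - 1 / ((n : ℝ) + 1))| ≤ 2 * (1 / n - 1 / ((n : ℝ) + 1)) := by
      rw [abs_of_nonneg (mul_nonneg hT0 hpos)]
      exact mul_le_mul_of_nonneg_right hT2 hpos
    have e4 : (wP (H * (Real.log (n + 1 : ℕ) - x)) + wN (H * (Real.log (n + 1 : ℕ) - x))) / a - 2 / (n + 1 : ℕ) -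
        ((wP (H * (Real.log n - x)) + wN (H * (Real.log n - x))) / a - 2 / n) =
        D / a + 2 * (1 / n - 1 / ((n : ℝ) + 1)) := by
      rw [hDD]
      push_cast
      ring
    rw [e1, e4]
    exact (abs_sub _ _).trans (add_le_add e2 e3)
  have h3 := Finset.sum_le_sum h2
  rw [tel g (by omega)] at h3
  have h4 : g b - g (a + 1) ≤ 6 / a := by
    rw [hg, hg]
    have c1 := wP_bd (H * (Real.log b - x))
    have c2 := wN_bd (H * (Real.log b - x))
    have c3 := wP_bd (H * (Real.log (a + 1 : ℕ) - x))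
    have c4 := wN_bd (H * (Real.log (a + 1 : ℕ) - x))
    have d1 : (wP (H * (Real.log b - x)) + wN (H * (Real.log b - x))) / a ≤ 4 / a :=
      div_le_div_of_nonneg_right (by linarith) ha0.le
    have d2 : 0 ≤ (wP (H * (Real.log (a + 1 : ℕ) - x)) + wN (H * (Real.log (a + 1 : ℕ) - x))) / a :=
      div_nonneg (by linarith) ha0.le
    have d3 : (2 : ℝ) / (a + 1 : ℕ) ≤ 2 / a := by
      apply div_le_div_of_nonneg_left (by norm_num) ha0
      push_cast
      linarith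
    have d4 : (0 : ℝ) ≤ 2 / b := by positivity
    have d5 : (6 : ℝ) / a = 4 / a + 2 / a := by ring
    linarith
  have h5 : (8 : ℝ) / a = 2 / a + 6 / a := by ring
  linarith

private theorem facts {x : ℝ} (hx : 6 ≤ x) : Real.exp (x - 3) ≤ (⌊Real.exp (x - 2)⌋₊ : ℝ) ∧
    ((⌊Real.exp (x - 2)⌋₊ : ℕ) : ℝ) ≤ Real.exp x ∧ 1 ≤ ⌊Real.exp (x - 2)⌋₊ ∧
    ⌊Real.exp (x + 2)⌋₊ ≤ 64 * ⌊Real.exp (x - 2)⌋₊ ∧ ⌊Real.exp (x - 2)⌋₊ < ⌊Real.exp (x + 2)⌋₊ := by
  have e1 : Real.exp (x - 2) = Real.exp 1 * Real.exp (x - 3) := by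
    rw [← Real.exp_add]
    ring_nf
  have e2 : Real.exp (x + 2) = Real.exp 1 ^ 4 * Real.exp (x - 2) := by
    rw [Real.exp_one_pow, ← Real.exp_add]
    congr 1
    push_cast
    ring
  have h1 := Real.exp_one_gt_d9
  have h2 := Real.exp_one_lt_d9
  have h3 : (19 : ℝ) ≤ Real.exp (x - 3) := by
    have : Real.exp 1 ^ 3 ≤ Real.exp (x - 3) := by
      rw [Real.exp_one_pow]
      apply Real.exp_le_exp.2
      push_cast
      linarith
    have h4 : (2.7 : ℝ) ^ 3 ≤ Real.exp 1 ^ 3 := pow_le_pow_left₀ (by norm_num) (by linarith) 3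
    have h5 : (19 : ℝ) ≤ (2.7 : ℝ) ^ 3 := by norm_num
    exact h5.trans (h4.trans this)
  have h4 : Real.exp 1 ^ 4 ≤ 55 := by
    have h5 : Real.exp 1 ^ 4 ≤ (2.7183 : ℝ) ^ 4 := pow_le_pow_left₀ (Real.exp_pos 1).le (by linarith) 4
    exact h5.trans (by norm_num)
  have h5 := Nat.lt_floor_add_one (Real.exp (x - 2))
  have h6 := Nat.floor_le (Real.exp_pos (x - 2)).le
  have h7 := Nat.floor_le (Real.exp_pos (x + 2)).le
  have h8 := Nat.lt_floor_add_one (Real.exp (x + 2))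
  have h9 : Real.exp (x - 3) ≤ (⌊Real.exp (x - 2)⌋₊ : ℝ) := by nlinarith
  refine ⟨h9, h6.trans (Real.exp_le_exp.2 (by linarith)), ?_, ?_, ?_⟩
  · have : (1 : ℝ) ≤ (⌊Real.exp (x - 2)⌋₊ : ℝ) := by linarith
    exact_mod_cast this
  · have : ((⌊Real.exp (x + 2)⌋₊ : ℕ) : ℝ) ≤ 64 * (⌊Real.exp (x - 2)⌋₊ : ℝ) := by
      have h10 : Real.exp (x + 2) ≤ 55 * Real.exp (x - 2) := by
        rw [e2]
        exact mul_le_mul_of_nonneg_right h4 (Real.exp_pos _).le
      linarith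
    exact_mod_cast this
  · have : ((⌊Real.exp (x - 2)⌋₊ : ℕ) : ℝ) < ((⌊Real.exp (x + 2)⌋₊ : ℕ) : ℝ) := by
      have h10 : (2 : ℝ) ≤ Real.exp 1 ^ 4 := by
        have h11 : (2.7 : ℝ) ^ 4 ≤ Real.exp 1 ^ 4 := pow_le_pow_left₀ (by norm_num) (by linarith) 4
        exact le_trans (by norm_num) h11
      have h12 : 2 * Real.exp (x - 2) ≤ Real.exp (x + 2) := by
        rw [e2]
        exact mul_le_mul_of_nonneg_right h10 (Real.exp_pos _).le
      have h13 : 19 ≤ Real.exp (x - 2) := h3.trans (Real.exp_le_exp.2 (by linarith))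
      linarith
    exact_mod_cast this

private theorem kk_eq {H : ℝ} (hH : 1 ≤ H) (x u : ℝ) :
    kk H x u = ∑ n ∈ Ioc ⌊Real.exp (x - 2)⌋₊ ⌊Real.exp (x + 2)⌋₊, ((trw H x (Real.log n) / n : ℝ) : ℂ) * cp n u := by
  unfold kk
  have hm : ∀ n, n ∈ Ioc ⌊Real.exp (x - 2)⌋₊ ⌊Real.exp (x + 2)⌋₊ ↔ n ∈ Ic (x - 2) (x + 2) := by
    intro n
    rw [mem_Ic, Finset.mem_Ioc, Nat.floor_lt (Real.exp_pos _).le, Nat.le_floor_iff (Real.exp_pos _).le]
  symm
  apply Finset.sum_subset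
  · intro n hn
    rw [hm, mem_Ic] at hn
    rw [mem_Ic]
    exact ⟨(Real.exp_le_exp.2 (by linarith)).trans_lt hn.1, hn.2.trans (Real.exp_le_exp.2 (by linarith))⟩
  · intro n hn hn'
    have h1 := one_le_of_mem hn
    rw [hm, mem_Ic_log h1] at hn'
    have h2 : 2 / H ≤ |Real.log n - x| := by
      have h3 : 2 / H ≤ 2 := by
        rw [div_le_iff₀ (by linarith)]
        linarith
      refine h3.trans ?_
      by_cases h4 : x - 2 < Real.log n
      · have h5 : ¬ Real.log n ≤ x + 2 := fun h => hn' ⟨h4, h⟩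
        push Not at h5
        rw [le_abs]
        left
        linarith
      · push Not at h4
        rw [le_abs]
        right
        linarith
    rw [trw_zero (by linarith) h2, zero_div, Complex.ofReal_zero, zero_mul]

private theorem kk_bd {H : ℝ} (hH : 1 ≤ H) {x : ℝ} (hx : 6 ≤ x) (u : ℝ) {B : ℝ}
    (hB : ∀ m, m ≤ ⌊Real.exp (x + 2)⌋₊ → ‖∑ n ∈ Ioc ⌊Real.exp (x - 2)⌋₊ m, cp n u‖ ≤ B) :
    ‖kk H x u‖ ≤ B * (8 / (⌊Real.exp (x - 2)⌋₊ : ℝ)) := by
  obtain ⟨f1, f2, f3, f4, f5⟩ := facts hx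
  rw [kk_eq hH]
  have h1 := abel (a := ⌊Real.exp (x - 2)⌋₊) (b := ⌊Real.exp (x + 2)⌋₊) (fun n => trw H x (Real.log n) / n) (fun n => cp n u)
    (B := B) (fun m => by
      rcases le_or_gt m ⌊Real.exp (x + 2)⌋₊ with h | h
      · exact Or.inl (hB m h)
      · exact Or.inr h) f5.le
  refine h1.trans ?_
  have hB0 : 0 ≤ B := (norm_nonneg _).trans (hB 0 (Nat.zero_le _))
  exact mul_le_mul_of_nonneg_left (var_bd hH x f3 f5) hB0

private theorem kk_triv (H x u : ℝ) : ‖kk H x u‖ ≤ 14 := by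
  unfold kk
  refine (norm_sum_le _ _).trans ?_
  have h1 := sum_inv_Ic_le (show x - 3 ≤ x + 3 by linarith)
  have h2 : ∀ n ∈ Ic (x - 3) (x + 3), ‖((trw H x (Real.log n) / n : ℝ) : ℂ) * cp n u‖ ≤ 2 * (1 / (n : ℝ)) := by
    intro n hn
    rw [norm_mul, norm_cp, mul_one, Complex.norm_real, Real.norm_eq_abs,
      abs_of_nonneg (div_nonneg (trw_nonneg _ _ _) (Nat.cast_nonneg _)), mul_one_div]
    exact div_le_div_of_nonneg_right (trw_le _ _ _) (Nat.cast_nonneg _)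
  refine (Finset.sum_le_sum h2).trans ?_
  rw [← Finset.mul_sum]
  linarith

theorem kk_pow (K : ℕ) : ∃ c : ℝ, 0 < c ∧ c ≤ 1 / 4 ∧ ∃ C : ℝ, 0 < C ∧ ∀ H x u : ℝ, 1 ≤ H → 0 ≤ x → Real.exp (x / 2) ≤ |u| → |u| ≤ Real.exp (K * x) →
    ‖kk H x u‖ ≤ C * Real.exp (-c * x) := by
  obtain ⟨c, hc, hc4, C, hC, key⟩ := es_pow (2 * K)
  refine ⟨c / 2, by positivity, by linarith, 8 * C + 14 * Real.exp 1, by positivity, ?_⟩
  intro H x u hH hx hu1 hu2
  rcases lt_or_ge x 6 with hx6 | hx6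
  · refine (kk_triv H x u).trans ?_
    have h1 : Real.exp (-1) ≤ Real.exp (-(c / 2) * x) := by
      apply Real.exp_le_exp.2
      nlinarith
    have h2 : Real.exp 1 * Real.exp (-1) = 1 := by
      rw [← Real.exp_add]
      norm_num
    have h3 := Real.exp_pos (-(c / 2) * x)
    have h4 := mul_le_mul_of_nonneg_left h1 (show 0 ≤ 14 * Real.exp 1 by positivity)
    nlinarith [mul_pos hC h3]
  · obtain ⟨f1, f2, f3, f4, f5⟩ := facts hx6
    obtain ⟨a, ha⟩ : ∃ a, a = ⌊Real.exp (x - 2)⌋₊ := ⟨_, rfl⟩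
    rw [← ha] at f1 f2 f3 f4 f5
    have ha1 : (1 : ℝ) ≤ a := by exact_mod_cast f3
    have ha0 : (0 : ℝ) < a := by linarith
    have hax : Real.exp (x / 2) ≤ a := (Real.exp_le_exp.2 (by linarith)).trans f1
    have hs : √(a : ℝ) ≤ |u| := by
      refine le_trans ?_ hu1
      rw [Real.sqrt_le_left (Real.exp_pos _).le, ← Real.exp_nat_mul]
      refine f2.trans (le_of_eq ?_)
      congr 1
      push_cast
      ring
    have hK : |u| ≤ (a : ℝ) ^ (2 * K) := by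
      refine hu2.trans ?_
      calc Real.exp (K * x) = Real.exp (x / 2) ^ (2 * K) := by
            rw [← Real.exp_nat_mul]
            congr 1
            push_cast
            ring
        _ ≤ _ := pow_le_pow_left₀ (Real.exp_pos _).le hax _
    have h1 := kk_bd hH hx6 u (B := C * (a : ℝ) ^ (1 - c)) (by
      intro m hm
      rw [← ha]
      exact key a m f3 (hm.trans (ha ▸ f4)) u hs hK)
    rw [← ha] at h1
    refine h1.trans ?_
    have h2 : C * (a : ℝ) ^ (1 - c) * (8 / a) = 8 * C * (a : ℝ) ^ (-c) := by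
      have h3 : (a : ℝ) ^ (1 - c) = a * (a : ℝ) ^ (-c) := by
        rw [sub_eq_add_neg, Real.rpow_add ha0, Real.rpow_one]
      rw [h3]
      field_simp
    rw [h2]
    have h3 : (a : ℝ) ^ (-c) ≤ Real.exp (-(c / 2) * x) := by
      calc (a : ℝ) ^ (-c) ≤ Real.exp (x / 2) ^ (-c) :=
            Real.rpow_le_rpow_of_nonpos (Real.exp_pos _) hax (by linarith)
        _ = _ := by
          rw [← Real.exp_mul]
          congr 1
          ring
    have h4 := mul_le_mul_of_nonneg_left h3 (show 0 ≤ 8 * C by positivity)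
    have h5 := mul_pos (mul_pos (show (0 : ℝ) < 14 by norm_num) (Real.exp_pos 1)) (Real.exp_pos (-(c / 2) * x))
    nlinarith

theorem kk_hmi : ∃ C : ℝ, 0 < C ∧ ∀ x u : ℝ, 0 ≤ x → |u| ≤ Real.exp (3 * x / 2) →
    ‖kk 1 x u‖ ≤ C * (1 / (1 + u ^ 2) + Real.exp (-x / 2) + √|u| * Real.exp (-x)) := by
  obtain ⟨C₀, hC₀, h0⟩ := kk_small
  obtain ⟨C₁, hC₁, h1⟩ := es_kl
  obtain ⟨C₂, hC₂, h2⟩ := es_sq
  obtain ⟨C, hC⟩ : ∃ C, C = 8 + 2 * C₀ + 8 * C₁ + 8 * C₂ * Real.exp 3 + 14 * Real.exp 6 := ⟨_, rfl⟩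
  have p1 := mul_pos hC₂ (Real.exp_pos 3)
  have p2 := Real.exp_pos 6
  have hCpos : 0 < C := by rw [hC]; positivity
  refine ⟨C, hCpos, ?_⟩
  intro x u hx hu
  have q1 : 0 < 1 / (1 + u ^ 2) := by positivity
  have q2 : 0 < Real.exp (-x / 2) := Real.exp_pos _
  have q3 : 0 ≤ √|u| * Real.exp (-x) := by positivity
  obtain ⟨Q1, hQ1⟩ : ∃ Q, Q = 1 / (1 + u ^ 2) := ⟨_, rfl⟩
  obtain ⟨Q2, hQ2⟩ : ∃ Q, Q = Real.exp (-x / 2) := ⟨_, rfl⟩
  obtain ⟨Q3, hQ3⟩ : ∃ Q, Q = √|u| * Real.exp (-x) := ⟨_, rfl⟩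
  rw [← hQ1] at q1
  rw [← hQ2] at q2
  rw [← hQ3] at q3
  rw [← hQ1, ← hQ2, ← hQ3]
  have hfin : ∀ y : ℝ, y ≤ 8 * Q1 + (2 * C₀ + 8 * C₁ + 14 * Real.exp 6) * Q2 + 8 * C₂ * Real.exp 3 * Q3 →
      y ≤ C * (Q1 + Q2 + Q3) := by
    intro y hy
    refine hy.trans ?_
    have r1 : 8 * Q1 ≤ C * Q1 := mul_le_mul_of_nonneg_right (by rw [hC]; nlinarith) q1.le
    have r2 : (2 * C₀ + 8 * C₁ + 14 * Real.exp 6) * Q2 ≤ C * Q2 :=
      mul_le_mul_of_nonneg_right (by rw [hC]; nlinarith) q2.le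
    have r3 : 8 * C₂ * Real.exp 3 * Q3 ≤ C * Q3 := mul_le_mul_of_nonneg_right (by rw [hC]; nlinarith) q3
    linarith
  apply hfin
  have s1 : 0 ≤ 8 * Q1 := by linarith
  have s2 : 0 ≤ C₀ * Q2 := by positivity
  have s3 : 0 ≤ C₁ * Q2 := by positivity
  have s4 : 0 ≤ Real.exp 6 * Q2 := by positivity
  have s5 : 0 ≤ 8 * C₂ * Real.exp 3 * Q3 := by positivity
  rcases lt_or_ge x 12 with hx12 | hx12
  · refine (kk_triv 1 x u).trans ?_
    have t1 : Real.exp (-6) ≤ Q2 := by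
      rw [hQ2]
      apply Real.exp_le_exp.2
      linarith
    have t2 : Real.exp 6 * Real.exp (-6) = 1 := by
      rw [← Real.exp_add]
      norm_num
    have t3 := mul_le_mul_of_nonneg_left t1 p2.le
    linarith
  obtain ⟨f1, f2, f3, f4, f5⟩ := facts (show 6 ≤ x by linarith)
  obtain ⟨a, ha⟩ : ∃ a, a = ⌊Real.exp (x - 2)⌋₊ := ⟨_, rfl⟩
  rw [← ha] at f1 f2 f3 f4 f5
  have ha1 : (1 : ℝ) ≤ a := by exact_mod_cast f3
  have ha0 : (0 : ℝ) < a := by linarith
  rcases le_or_gt |u| (Real.exp (x / 2)) with hu1 | hu1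
  · have t1 := h0 1 x u le_rfl
    have t2 := jj_le (show (0 : ℝ) < 1 by norm_num) u
    rw [div_one, div_one] at t2
    have t3 : ‖Complex.exp ((-(u * x) : ℝ) * Complex.I) * (jj 1 u : ℂ)‖ ≤ 8 * Q1 := by
      rw [norm_mul, Complex.norm_exp_ofReal_mul_I, one_mul, Complex.norm_real, Real.norm_eq_abs, abs_of_nonneg t2.1, hQ1,
        mul_one_div]
      exact t2.2
    have t4 : ‖kk 1 x u‖ ≤ C₀ * (1 + |u|) * Real.exp (-x) + 8 * Q1 := by
      have t5 := norm_add_le (kk 1 x u - Complex.exp ((-(u * x) : ℝ) * Complex.I) * (jj 1 u : ℂ))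
        (Complex.exp ((-(u * x) : ℝ) * Complex.I) * (jj 1 u : ℂ))
      rw [sub_add_cancel] at t5
      linarith
    have t5 : (1 + |u|) * Real.exp (-x) ≤ 2 * Q2 := by
      have t6 : 1 ≤ Real.exp (x / 2) := Real.one_le_exp (by linarith)
      have t7 : (1 + |u|) * Real.exp (-x) ≤ (2 * Real.exp (x / 2)) * Real.exp (-x) :=
        mul_le_mul_of_nonneg_right (by linarith) (Real.exp_pos _).le
      refine t7.trans (le_of_eq ?_)
      rw [hQ2, mul_assoc, ← Real.exp_add]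
      congr 2
      ring
    have t6 : C₀ * (1 + |u|) * Real.exp (-x) ≤ 2 * (C₀ * Q2) := by
      calc C₀ * (1 + |u|) * Real.exp (-x) = C₀ * ((1 + |u|) * Real.exp (-x)) := by ring
        _ ≤ C₀ * (2 * Q2) := mul_le_mul_of_nonneg_left t5 hC₀.le
        _ = _ := by ring
    linarith
  have hu0 : 0 < |u| := lt_trans (Real.exp_pos _) hu1
  rcases le_or_gt |u| (a : ℝ) with hu2 | hu2
  · have t1 := kk_bd le_rfl (show 6 ≤ x by linarith) u (B := C₁ * a / |u|) (by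
      intro m hm
      rw [← ha]
      exact h1 a m f3 (hm.trans (ha ▸ f4)) u (abs_pos.1 hu0) hu2)
    rw [← ha] at t1
    have t2 : C₁ * a / |u| * (8 / a) = 8 * C₁ * (1 / |u|) := by
      field_simp
    rw [t2] at t1
    have t3 : 1 / |u| ≤ Q2 := by
      rw [hQ2, show -x / 2 = -(x / 2) by ring, Real.exp_neg, one_div]
      exact inv_anti₀ (Real.exp_pos _) hu1.le
    have t4 := mul_le_mul_of_nonneg_left t3 (show 0 ≤ 8 * C₁ by positivity)
    linarith
  · have hu3 : |u| ≤ (a : ℝ) ^ 2 := by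
      refine hu.trans ?_
      calc Real.exp (3 * x / 2) ≤ Real.exp (x - 3) ^ 2 := by
            rw [← Real.exp_nat_mul]
            apply Real.exp_le_exp.2
            push_cast
            linarith
        _ ≤ _ := pow_le_pow_left₀ (Real.exp_pos _).le f1 2
    have t1 := kk_bd le_rfl (show 6 ≤ x by linarith) u (B := C₂ * √|u|) (by
      intro m hm
      rw [← ha]
      exact h2 a m f3 (hm.trans (ha ▸ f4)) u hu2.le hu3)
    rw [← ha] at t1
    have t2 : 8 / (a : ℝ) ≤ 8 * (Real.exp 3 * Real.exp (-x)) := by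
      rw [← Real.exp_add, div_eq_mul_inv]
      apply mul_le_mul_of_nonneg_left _ (by norm_num)
      have t3 : (a : ℝ)⁻¹ ≤ (Real.exp (x - 3))⁻¹ := inv_anti₀ (Real.exp_pos _) f1
      refine t3.trans (le_of_eq ?_)
      rw [← Real.exp_neg]
      congr 1
      ring
    have t3 : C₂ * √|u| * (8 / (a : ℝ)) ≤ 8 * C₂ * Real.exp 3 * Q3 := by
      calc C₂ * √|u| * (8 / (a : ℝ)) ≤ C₂ * √|u| * (8 * (Real.exp 3 * Real.exp (-x))) :=
            mul_le_mul_of_nonneg_left t2 (by positivity)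
        _ = _ := by rw [hQ3]; ring
    linarith

end MRT
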