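import Pool.Agent.MRT.Bas

/-!
# MRT-LsD: Dirichlet series: definitions and summability

Majorants `C (1 + log n)^k n^{-σ} ≤ C' n^{-(1+σ)/2}`; comparison of `∑ n^{-1-p}` with telescoping sums.
-/

set_option autoImplicit false

namespace MRT

open Finset Filter Topology

/-- `∑ a_n n^{-σ-iτ}`. -/
noncomputable def LS (a : ℕ → ℂ) (σ τ : ℝ) : ℂ := ∑' n : ℕ, a n * (((n : ℝ) ^ (-σ) : ℝ) : ℂ) * cp n τ

private theorem ls_nonneg {a : ℕ → ℂ} {C : ℝ} {k : ℕ} (ha : ∀ n, 0 < n → ‖a n‖ ≤ C * (1 + Real.log n) ^ k) : 0 ≤ C := by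
  have h := ha 1 one_pos
  rw [Nat.cast_one, Real.log_one, add_zero, one_pow, mul_one] at h
  exact (norm_nonneg _).trans h

private theorem log_pow_le {k : ℕ} {δ : ℝ} (hδ : 0 < δ) {n : ℕ} (hn : 0 < n) :
    (1 + Real.log n) ^ k ≤ (1 + 1 / δ) ^ k * (n : ℝ) ^ (δ * k) := by
  have hn1 : (1 : ℝ) ≤ n := by exact_mod_cast hn
  have h1 : (1 : ℝ) ≤ (n : ℝ) ^ δ := Real.one_le_rpow hn1 hδ.le
  have h2 : Real.log n ≤ (n : ℝ) ^ δ / δ := Real.log_le_rpow_div (by positivity) hδ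
  have h3 : 1 + Real.log n ≤ (1 + 1 / δ) * (n : ℝ) ^ δ := by
    have h4 : (1 + 1 / δ) * (n : ℝ) ^ δ = (n : ℝ) ^ δ + (n : ℝ) ^ δ / δ := by ring
    rw [h4]
    linarith
  have h5 : 0 ≤ 1 + Real.log n := by
    have := Real.log_nonneg hn1
    linarith
  refine (pow_le_pow_left₀ h5 h3 k).trans (le_of_eq ?_)
  rw [mul_pow, Real.rpow_mul (by positivity), Real.rpow_natCast]

private theorem ls_bd {a : ℕ → ℂ} {C : ℝ} {k : ℕ} (ha : ∀ n, 0 < n → ‖a n‖ ≤ C * (1 + Real.log n) ^ k) {σ : ℝ} (hσ : 1 < σ) :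
    ∃ M : ℕ → ℝ, Summable M ∧ ∀ n τ, ‖a n * (((n : ℝ) ^ (-σ) : ℝ) : ℂ) * cp n τ‖ ≤ M n := by
  have hC := ls_nonneg ha
  have hk : (0 : ℝ) < 2 * ((k : ℝ) + 1) := by positivity
  obtain ⟨δ, hδ⟩ : ∃ δ : ℝ, δ = (σ - 1) / (2 * ((k : ℝ) + 1)) := ⟨_, rfl⟩
  have hδ0 : 0 < δ := by
    rw [hδ]
    exact div_pos (by linarith) hk
  have hδk : δ * k ≤ (σ - 1) / 2 := by
    have h1 : δ * (2 * ((k : ℝ) + 1)) = σ - 1 := by
      rw [hδ]
      exact div_mul_cancel₀ _ hk.ne'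
    nlinarith
  refine ⟨fun n => C * ((1 + 1 / δ) ^ k * (n : ℝ) ^ (δ * k - σ)), ?_, ?_⟩
  · refine Summable.mul_left _ (Summable.mul_left _ ?_)
    rw [Real.summable_nat_rpow]
    linarith
  · intro n τ
    rw [norm_mul, norm_cp, mul_one, norm_mul, Complex.norm_real]
    rcases Nat.eq_zero_or_pos n with h0 | h0
    · subst h0
      rw [Nat.cast_zero, Real.zero_rpow (by linarith), norm_zero, mul_zero]
      positivity
    · have hn : (0 : ℝ) < n := by exact_mod_cast h0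
      have h1 := ha n h0
      have h2 := log_pow_le (k := k) hδ0 h0
      have h3 : 0 ≤ (n : ℝ) ^ (-σ) := by positivity
      rw [Real.norm_of_nonneg h3]
      refine (mul_le_mul_of_nonneg_right (h1.trans (mul_le_mul_of_nonneg_left h2 hC)) h3).trans (le_of_eq ?_)
      show C * ((1 + 1 / δ) ^ k * (n : ℝ) ^ (δ * k)) * (n : ℝ) ^ (-σ) = C * ((1 + 1 / δ) ^ k * (n : ℝ) ^ (δ * k - σ))
      rw [sub_eq_add_neg, Real.rpow_add hn]
      ring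

theorem ls_summable {a : ℕ → ℂ} {C : ℝ} {k : ℕ} (ha : ∀ n, 0 < n → ‖a n‖ ≤ C * (1 + Real.log n) ^ k) {σ : ℝ} (hσ : 1 < σ) (τ : ℝ) :
    Summable fun n : ℕ => ‖a n * (((n : ℝ) ^ (-σ) : ℝ) : ℂ) * cp n τ‖ := by
  obtain ⟨M, hM, h⟩ := ls_bd ha hσ
  exact Summable.of_nonneg_of_le (fun n => norm_nonneg _) (fun n => h n τ) hM

private theorem dp_eq (a : ℕ → ℂ) {σ : ℝ} (hσ : 1 < σ) (N : ℕ) (τ : ℝ) :
    Dp (Icc 1 N) (fun n => a n * (((n : ℝ) ^ (1 - σ) : ℝ) : ℂ)) τ =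
      ∑ n ∈ range (N + 1), a n * (((n : ℝ) ^ (-σ) : ℝ) : ℂ) * cp n τ := by
  rw [Finset.sum_range_succ', Nat.cast_zero, Real.zero_rpow (by linarith), Complex.ofReal_zero, mul_zero, zero_mul,
    add_zero]
  unfold Dp
  have h1 : (Icc 1 N : Finset ℕ) = (range N).image (· + 1) := by
    ext n
    rw [mem_Icc, mem_image]
    constructor
    · rintro ⟨h1, h2⟩
      exact ⟨n - 1, mem_range.2 (by omega), by omega⟩
    · rintro ⟨m, hm, rfl⟩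
      rw [mem_range] at hm
      omega
  rw [h1, Finset.sum_image (fun a _ b _ h => Nat.succ_injective h)]
  refine Finset.sum_congr rfl fun n _ => ?_
  congr 1
  have hn : (0 : ℝ) < ((n + 1 : ℕ) : ℝ) := by positivity
  rw [mul_div_assoc]
  congr 1
  rw [← Complex.ofReal_natCast, ← Complex.ofReal_div, Complex.ofReal_inj, sub_eq_add_neg, Real.rpow_add hn, Real.rpow_one,
    mul_div_cancel_left₀ _ hn.ne']

theorem ls_tendsto {a : ℕ → ℂ} {C : ℝ} {k : ℕ} (ha : ∀ n, 0 < n → ‖a n‖ ≤ C * (1 + Real.log n) ^ k) {σ : ℝ} (hσ : 1 < σ) :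
    ∀ ε > 0, ∃ N₀ : ℕ, ∀ N ≥ N₀, ∀ τ : ℝ, ‖LS a σ τ - Dp (Icc 1 N) (fun n => a n * (((n : ℝ) ^ (1 - σ) : ℝ) : ℂ)) τ‖ ≤ ε := by
  intro ε hε
  obtain ⟨M, hM, h⟩ := ls_bd ha hσ
  have h1 := (tendsto_sum_nat_add M).eventually (gt_mem_nhds hε)
  obtain ⟨N₀, hN₀⟩ := eventually_atTop.1 h1
  refine ⟨N₀, fun N hN τ => ?_⟩
  have hf : Summable fun n : ℕ => a n * (((n : ℝ) ^ (-σ) : ℝ) : ℂ) * cp n τ := (ls_summable ha hσ τ).of_norm
  rw [dp_eq a hσ]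
  unfold LS
  rw [← hf.sum_add_tsum_nat_add (N + 1), add_sub_cancel_left]
  have h2 : Summable fun n : ℕ => ‖a (n + (N + 1)) * ((((n + (N + 1) : ℕ) : ℝ) ^ (-σ) : ℝ) : ℂ) * cp (n + (N + 1)) τ‖ :=
    (summable_nat_add_iff (N + 1)).2 (ls_summable ha hσ τ)
  have h3 : Summable fun n : ℕ => M (n + (N + 1)) := (summable_nat_add_iff (N + 1)).2 hM
  refine (norm_tsum_le_tsum_norm h2).trans ?_
  refine (h2.tsum_le_tsum (fun n => h _ τ) h3).trans ?_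
  exact (hN₀ (N + 1) (by omega)).le

theorem ls_cont {a : ℕ → ℂ} {C : ℝ} {k : ℕ} (ha : ∀ n, 0 < n → ‖a n‖ ≤ C * (1 + Real.log n) ^ k) {σ : ℝ} (hσ : 1 < σ) :
    Continuous (LS a σ) := by
  obtain ⟨M, hM, h⟩ := ls_bd ha hσ
  exact continuous_tsum (fun n => continuous_const.mul (cont_cp n)) hM h

/-- Twist. -/
theorem ls_twist (a : ℕ → ℂ) (σ t τ : ℝ) : LS (fun n => a n * cp n t) σ τ = LS a σ (t + τ) := by
  unfold LS
  refine tsum_congr fun n => ?_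
  rw [cp_add]
  ring

private theorem ls_mvt {p : ℝ} (hp : 0 < p) {x : ℝ} (hx : 1 ≤ x) :
    p * (x + 1) ^ (-(1 + p)) ≤ x ^ (-p) - (x + 1) ^ (-p) ∧
      x ^ (-p) - (x + 1) ^ (-p) ≤ p * x ^ (-(1 + p)) := by
  have hd : ∀ y : ℝ, 0 < y → HasDerivAt (fun y : ℝ => y ^ (-p)) (-p * y ^ (-p - 1)) y := by
    intro y hy
    exact Real.hasDerivAt_rpow_const (Or.inl hy.ne')
  obtain ⟨c, hc, h⟩ := exists_hasDerivAt_eq_slope (fun y : ℝ => y ^ (-p)) (fun y => -p * y ^ (-p - 1))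
    (show x < x + 1 by linarith)
    (fun y hy => (hd y (by linarith [hy.1])).continuousAt.continuousWithinAt)
    (fun y hy => hd y (by linarith [hy.1]))
  have h1 : -p - 1 = -(1 + p) := by ring
  have h2 : x + 1 - x = 1 := by ring
  simp only [h1, h2, div_one] at h
  have hc0 : 0 < c := by linarith [hc.1]
  have h3 : (x + 1) ^ (-(1 + p)) ≤ c ^ (-(1 + p)) :=
    (Real.rpow_le_rpow_iff_of_neg (by linarith) hc0 (by linarith)).2 hc.2.le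
  have h4 : c ^ (-(1 + p)) ≤ x ^ (-(1 + p)) :=
    (Real.rpow_le_rpow_iff_of_neg hc0 (by linarith) (by linarith)).2 hc.1.le
  constructor <;> nlinarith

private theorem ls_up {p : ℝ} (hp : 0 < p) (N : ℕ) :
    ∑ n ∈ range (N + 2), ((n : ℝ) ^ (-(1 + p)) : ℝ) ≤ 1 + 1 / p * (1 - ((N : ℝ) + 1) ^ (-p)) := by
  induction N with
  | zero =>
    rw [Finset.sum_range_succ, Finset.sum_range_one, Nat.cast_zero, Real.zero_rpow (by linarith)]
    simp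
  | succ N ih =>
    rw [Finset.sum_range_succ]
    have h1 := (ls_mvt hp (x := (N : ℝ) + 1) (by have : (0 : ℝ) ≤ N := Nat.cast_nonneg N; linarith)).1
    have e1 : ((N + 1 + 1 : ℕ) : ℝ) = (N : ℝ) + 1 + 1 := by push_cast; ring
    have e2 : ((N + 1 : ℕ) : ℝ) = (N : ℝ) + 1 := by push_cast; ring
    have h2 : ((N : ℝ) + 1 + 1) ^ (-(1 + p)) ≤ 1 / p * (((N : ℝ) + 1) ^ (-p) - ((N : ℝ) + 1 + 1) ^ (-p)) := by
      rw [one_div, inv_mul_eq_div, le_div_iff₀ hp]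
      linarith
    have h3 : 1 + 1 / p * (1 - ((N : ℝ) + 1 + 1) ^ (-p)) = 1 + 1 / p * (1 - ((N : ℝ) + 1) ^ (-p)) +
        1 / p * (((N : ℝ) + 1) ^ (-p) - ((N : ℝ) + 1 + 1) ^ (-p)) := by ring
    rw [e2, h3]
    refine add_le_add ih ?_
    rw [e1]
    exact h2

private theorem ls_lo {p : ℝ} (hp : 0 < p) (N : ℕ) :
    1 / p * (1 - ((N : ℝ) + 2) ^ (-p)) ≤ ∑ n ∈ range (N + 2), ((n : ℝ) ^ (-(1 + p)) : ℝ) := by
  induction N with
  | zero =>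
    rw [Finset.sum_range_succ, Finset.sum_range_one, Nat.cast_zero, Real.zero_rpow (by linarith)]
    have h1 := (ls_mvt hp (x := 1) le_rfl).2
    rw [Real.one_rpow, Real.one_rpow, mul_one] at h1
    have h2 : (0 : ℝ) + 2 = 1 + 1 := by norm_num
    rw [h2, Nat.cast_one, Real.one_rpow, zero_add, one_div, inv_mul_eq_div, div_le_one hp]
    exact h1
  | succ N ih =>
    rw [Finset.sum_range_succ]
    have h1 := (ls_mvt hp (x := (N : ℝ) + 2) (by have : (0 : ℝ) ≤ N := Nat.cast_nonneg N; linarith)).2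
    have e1 : ((N + 1 + 1 : ℕ) : ℝ) = (N : ℝ) + 2 := by push_cast; ring
    have e2 : ((N + 1 : ℕ) : ℝ) + 2 = (N : ℝ) + 2 + 1 := by push_cast; ring
    have h2 : 1 / p * (((N : ℝ) + 2) ^ (-p) - ((N : ℝ) + 2 + 1) ^ (-p)) ≤ ((N : ℝ) + 2) ^ (-(1 + p)) := by
      rw [one_div, inv_mul_eq_div, div_le_iff₀ hp]
      linarith
    have h3 : 1 / p * (1 - ((N : ℝ) + 2 + 1) ^ (-p)) = 1 / p * (1 - ((N : ℝ) + 2) ^ (-p)) +
        1 / p * (((N : ℝ) + 2) ^ (-p) - ((N : ℝ) + 2 + 1) ^ (-p)) := by ring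
    rw [e2, h3]
    refine add_le_add ih ?_
    rw [e1]
    exact h2

theorem ls_one {V : ℝ} (hV : 1 ≤ V) : ∑' n : ℕ, ((n : ℝ) ^ (-(1 + 1 / V)) : ℝ) ≤ 1 + V ∧ V ≤ ∑' n : ℕ, ((n : ℝ) ^ (-(1 + 1 / V)) : ℝ) := by
  have hV0 : 0 < V := by linarith
  have hp : 0 < 1 / V := by positivity
  have hpp : 1 / (1 / V) = V := one_div_one_div V
  have h0 : ∀ n : ℕ, (0 : ℝ) ≤ ((n : ℝ) ^ (-(1 + 1 / V)) : ℝ) := fun n => by positivity
  have hs : Summable fun n : ℕ => ((n : ℝ) ^ (-(1 + 1 / V)) : ℝ) := by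
    rw [Real.summable_nat_rpow]
    linarith
  constructor
  · refine Real.tsum_le_of_sum_range_le h0 fun N => ?_
    have h1 : ∑ n ∈ range N, ((n : ℝ) ^ (-(1 + 1 / V)) : ℝ) ≤ ∑ n ∈ range (N + 2), ((n : ℝ) ^ (-(1 + 1 / V)) : ℝ) :=
      Finset.sum_le_sum_of_subset_of_nonneg (fun n hn => mem_range.2 (by have := mem_range.1 hn; omega))
        (fun n _ _ => h0 n)
    have h2 := ls_up hp N
    rw [hpp] at h2
    have h3 : (0 : ℝ) ≤ ((N : ℝ) + 1) ^ (-(1 / V)) := by positivity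
    nlinarith
  · have h1 : Tendsto (fun N : ℕ => 1 / (1 / V) * (1 - ((N : ℝ) + 2) ^ (-(1 / V)))) atTop (𝓝 (1 / (1 / V) * (1 - 0))) := by
      refine Tendsto.const_mul _ (Tendsto.const_sub _ ?_)
      exact (tendsto_rpow_neg_atTop hp).comp (tendsto_atTop_add_const_right _ _ tendsto_natCast_atTop_atTop)
    rw [hpp, sub_zero, mul_one] at h1
    refine le_of_tendsto' h1 fun N => ?_
    have h2 := ls_lo hp N
    rw [hpp] at h2
    exact h2.trans (hs.sum_le_tsum _ fun n _ => h0 n)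

theorem ls_log2 : ∃ C : ℝ, 0 < C ∧ ∀ V : ℝ, 1 ≤ V → ∀ N : ℕ, ∑ n ∈ Icc 1 N, Real.log n ^ 2 * (n : ℝ) ^ (-(1 + 1 / V)) ≤ C * V ^ 3 := by
  refine ⟨48, by norm_num, fun V hV N => ?_⟩
  have hV0 : 0 < V := by linarith
  have hs : Summable fun n : ℕ => ((n : ℝ) ^ (-(1 + 1 / (2 * V))) : ℝ) := by
    rw [Real.summable_nat_rpow]
    have : 0 < 1 / (2 * V) := by positivity
    linarith
  have h1 : ∀ n ∈ Icc 1 N, Real.log n ^ 2 * (n : ℝ) ^ (-(1 + 1 / V)) ≤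
      16 * V ^ 2 * (n : ℝ) ^ (-(1 + 1 / (2 * V))) := by
    intro n hn
    have hn1 : 1 ≤ n := (mem_Icc.1 hn).1
    have hnr : (1 : ℝ) ≤ n := by exact_mod_cast hn1
    have hn0 : (0 : ℝ) < n := by linarith
    have h2 : Real.log n ≤ (n : ℝ) ^ (1 / (4 * V)) / (1 / (4 * V)) := Real.log_le_rpow_div hn0.le (by positivity)
    have h3 : Real.log n ^ 2 ≤ ((n : ℝ) ^ (1 / (4 * V)) / (1 / (4 * V))) ^ 2 :=
      pow_le_pow_left₀ (Real.log_nonneg hnr) h2 2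
    have h4 : ((n : ℝ) ^ (1 / (4 * V)) / (1 / (4 * V))) ^ 2 = 16 * V ^ 2 * (n : ℝ) ^ (1 / (2 * V)) := by
      have h5 : (n : ℝ) ^ (1 / (2 * V)) = (n : ℝ) ^ (1 / (4 * V)) * (n : ℝ) ^ (1 / (4 * V)) := by
        rw [← Real.rpow_add hn0]
        congr 1
        field_simp
        norm_num
      rw [h5]
      field_simp
      ring
    rw [h4] at h3
    refine (mul_le_mul_of_nonneg_right h3 (by positivity)).trans (le_of_eq ?_)
    rw [mul_assoc, ← Real.rpow_add hn0]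
    congr 2
    field_simp
    ring
  refine (Finset.sum_le_sum h1).trans ?_
  rw [← Finset.mul_sum]
  have h2 : ∑ n ∈ Icc 1 N, (n : ℝ) ^ (-(1 + 1 / (2 * V))) ≤ 1 + 2 * V :=
    (hs.sum_le_tsum _ fun n _ => by positivity).trans (ls_one (by linarith)).1
  have h3 : 16 * V ^ 2 * ∑ n ∈ Icc 1 N, (n : ℝ) ^ (-(1 + 1 / (2 * V))) ≤ 16 * V ^ 2 * (1 + 2 * V) :=
    mul_le_mul_of_nonneg_left h2 (by positivity)
  refine h3.trans ?_
  have h4 : V ^ 2 ≤ V ^ 3 := pow_le_pow_right₀ hV (by norm_num)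
  nlinarith

end MRT
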