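import Pool.Agent.MRT.Bas

/-!
# MRT-Mva: Gaussian identity
-/

set_option autoImplicit false

namespace MRT

open Finset MeasureTheory

/-- Smoothed sum. -/
noncomputable def Sm (s : Finset ℕ) (a : ℕ → ℂ) (T y : ℝ) : ℂ :=
  ∑ n ∈ s, a n / n * ((Real.exp (-(T * (Real.log n - y)) ^ 2 / 2) : ℝ) : ℂ)

private theorem sqrt_cpow {x : ℝ} (hx : 0 ≤ x) : (x : ℂ) ^ (1 / 2 : ℂ) = ((Real.sqrt x : ℝ) : ℂ) := by
  have h := Complex.ofReal_cpow hx (1 / 2)
  rw [Real.sqrt_eq_rpow, h]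
  norm_num

private theorem g1_fun {T : ℝ} (hT : 0 < T) (Δ : ℝ) :
    (fun t : ℝ => Complex.exp ((-(t * Δ) : ℝ) * Complex.I) * ((Real.exp (-(t / T) ^ 2) : ℝ) : ℂ)) =
      fun t : ℝ => Complex.exp (((-(1 / T ^ 2) : ℝ) : ℂ) * (t : ℂ) ^ 2 + (-(Δ : ℂ) * Complex.I) * t + 0) := by
  funext t
  rw [Complex.ofReal_exp, ← Complex.exp_add]
  congr 1
  push_cast
  have hT' : (T : ℂ) ≠ 0 := by exact_mod_cast hT.ne'
  field_simp
  ring

private theorem g1_int {T : ℝ} (hT : 0 < T) (Δ : ℝ) :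
    Integrable fun t : ℝ => Complex.exp ((-(t * Δ) : ℝ) * Complex.I) *
      ((Real.exp (-(t / T) ^ 2) : ℝ) : ℂ) := by
  rw [g1_fun hT]
  refine integrable_cexp_quadratic' ?_ _ _
  rw [Complex.ofReal_re]
  have : 0 < 1 / T ^ 2 := by positivity
  linarith

private theorem g1_eq {T : ℝ} (hT : 0 < T) (Δ : ℝ) :
    ∫ t : ℝ, Complex.exp ((-(t * Δ) : ℝ) * Complex.I) * ((Real.exp (-(t / T) ^ 2) : ℝ) : ℂ) =
      ((Real.sqrt Real.pi * T : ℝ) : ℂ) * ((Real.exp (-(T * Δ) ^ 2 / 4) : ℝ) : ℂ) := by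
  rw [g1_fun hT]
  have hb : ((-(1 / T ^ 2) : ℝ) : ℂ).re < 0 := by
    rw [Complex.ofReal_re]
    have : 0 < 1 / T ^ 2 := by positivity
    linarith
  rw [integral_cexp_quadratic hb]
  have hT' : (T : ℂ) ≠ 0 := by exact_mod_cast hT.ne'
  congr 1
  · have e : (Real.pi : ℂ) / -((-(1 / T ^ 2) : ℝ) : ℂ) = ((Real.pi * T ^ 2 : ℝ) : ℂ) := by
      push_cast
      field_simp
    rw [e, sqrt_cpow (by positivity), Real.sqrt_mul Real.pi_pos.le, Real.sqrt_sq hT.le]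
  · rw [Complex.ofReal_exp]
    congr 1
    push_cast
    have hI : Complex.I ^ 2 = -1 := Complex.I_sq
    field_simp
    rw [hI]
    ring

private theorem g2_fun {T : ℝ} (x z : ℝ) :
    (fun y : ℝ => ((Real.exp (-(T * (x - y)) ^ 2 / 2) : ℝ) : ℂ) *
      ((Real.exp (-(T * (z - y)) ^ 2 / 2) : ℝ) : ℂ)) =
      fun y : ℝ => Complex.exp (((-(T ^ 2) : ℝ) : ℂ) * (y : ℂ) ^ 2 + ((T ^ 2 * (x + z) : ℝ) : ℂ) * y +
        ((-(T ^ 2 * (x ^ 2 + z ^ 2) / 2) : ℝ) : ℂ)) := by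
  funext y
  rw [Complex.ofReal_exp, Complex.ofReal_exp, ← Complex.exp_add]
  congr 1
  push_cast
  ring

private theorem g2_int {T : ℝ} (hT : 0 < T) (x z : ℝ) :
    Integrable fun y : ℝ => ((Real.exp (-(T * (x - y)) ^ 2 / 2) : ℝ) : ℂ) *
      ((Real.exp (-(T * (z - y)) ^ 2 / 2) : ℝ) : ℂ) := by
  rw [g2_fun]
  refine integrable_cexp_quadratic' ?_ _ _
  rw [Complex.ofReal_re]
  have : 0 < T ^ 2 := by positivity
  linarith

private theorem g2_eq {T : ℝ} (hT : 0 < T) (x z : ℝ) :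
    (T : ℂ) ^ 2 * ∫ y : ℝ, ((Real.exp (-(T * (x - y)) ^ 2 / 2) : ℝ) : ℂ) *
      ((Real.exp (-(T * (z - y)) ^ 2 / 2) : ℝ) : ℂ) =
      ((Real.sqrt Real.pi * T : ℝ) : ℂ) * ((Real.exp (-(T * (x - z)) ^ 2 / 4) : ℝ) : ℂ) := by
  rw [g2_fun]
  have hb : ((-(T ^ 2) : ℝ) : ℂ).re < 0 := by
    rw [Complex.ofReal_re]
    have : 0 < T ^ 2 := by positivity
    linarith
  rw [integral_cexp_quadratic hb, ← mul_assoc]
  have hT' : (T : ℂ) ≠ 0 := by exact_mod_cast hT.ne'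
  congr 1
  · have e : (Real.pi : ℂ) / -((-(T ^ 2) : ℝ) : ℂ) = ((Real.pi / T ^ 2 : ℝ) : ℂ) := by
      push_cast
      field_simp
    rw [e, sqrt_cpow (by positivity), Real.sqrt_div Real.pi_pos.le, Real.sqrt_sq hT.le]
    push_cast
    field_simp
  · rw [Complex.ofReal_exp]
    congr 1
    push_cast
    field_simp
    ring

private theorem nsq (z : ℂ) : ((‖z‖ ^ 2 : ℝ) : ℂ) = z * (starRingEnd ℂ) z := by
  rw [Complex.mul_conj, Complex.normSq_eq_norm_sq]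

private theorem dp_expand (s : Finset ℕ) (a : ℕ → ℂ) (T t : ℝ) :
    ((‖Dp s a t‖ ^ 2 * Real.exp (-(t / T) ^ 2) : ℝ) : ℂ) =
      ∑ n ∈ s, ∑ m ∈ s, a n / n * (starRingEnd ℂ) (a m / m) *
        (Complex.exp ((-(t * (Real.log n - Real.log m)) : ℝ) * Complex.I) *
          ((Real.exp (-(t / T) ^ 2) : ℝ) : ℂ)) := by
  rw [Complex.ofReal_mul, nsq]
  unfold Dp
  rw [map_sum, Finset.sum_mul_sum, Finset.sum_mul]
  refine Finset.sum_congr rfl fun n _ => ?_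
  rw [Finset.sum_mul]
  refine Finset.sum_congr rfl fun m _ => ?_
  have h : cp n t * cp m (-t) =
      Complex.exp ((-(t * (Real.log n - Real.log m)) : ℝ) * Complex.I) := by
    unfold cp
    rw [← Complex.exp_add]
    congr 1
    push_cast
    ring
  rw [← h, map_mul, cp_conj]
  ring

private theorem sm_expand (s : Finset ℕ) (a : ℕ → ℂ) (T y : ℝ) :
    ((‖Sm s a T y‖ ^ 2 : ℝ) : ℂ) =
      ∑ n ∈ s, ∑ m ∈ s, a n / n * (starRingEnd ℂ) (a m / m) *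
        (((Real.exp (-(T * (Real.log n - y)) ^ 2 / 2) : ℝ) : ℂ) *
          ((Real.exp (-(T * (Real.log m - y)) ^ 2 / 2) : ℝ) : ℂ)) := by
  rw [nsq]
  unfold Sm
  rw [map_sum, Finset.sum_mul_sum]
  refine Finset.sum_congr rfl fun n _ => Finset.sum_congr rfl fun m _ => ?_
  rw [map_mul, Complex.conj_ofReal]
  ring

theorem gauss_double {s : Finset ℕ} (hs : ∀ n ∈ s, 1 ≤ n) (a : ℕ → ℂ) {T : ℝ} (hT : 0 < T) :
    ((∫ t : ℝ, ‖Dp s a t‖ ^ 2 * Real.exp (-(t / T) ^ 2) : ℝ) : ℂ) =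
      (Real.sqrt Real.pi * T : ℝ) * ∑ n ∈ s, ∑ m ∈ s, a n / n * (starRingEnd ℂ) (a m / m) *
        ((Real.exp (-(T * (Real.log n - Real.log m)) ^ 2 / 4) : ℝ) : ℂ) := by
  have _ := hs
  rw [← integral_complex_ofReal]
  simp_rw [dp_expand]
  rw [integral_finset_sum _ fun n _ => integrable_finset_sum _ fun m _ =>
    (g1_int hT _).const_mul _, Finset.mul_sum]
  refine Finset.sum_congr rfl fun n _ => ?_
  rw [integral_finset_sum _ fun m _ => (g1_int hT _).const_mul _, Finset.mul_sum]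
  refine Finset.sum_congr rfl fun m _ => ?_
  rw [integral_const_mul, g1_eq hT]
  ring

theorem gauss_id {s : Finset ℕ} (hs : ∀ n ∈ s, 1 ≤ n) (a : ℕ → ℂ) {T : ℝ} (hT : 0 < T) :
    T ^ 2 * ∫ y : ℝ, ‖Sm s a T y‖ ^ 2 = ∫ t : ℝ, ‖Dp s a t‖ ^ 2 * Real.exp (-(t / T) ^ 2) := by
  apply Complex.ofReal_injective
  rw [gauss_double hs a hT, Complex.ofReal_mul, ← integral_complex_ofReal, Complex.ofReal_pow]
  simp_rw [sm_expand]
  rw [integral_finset_sum _ fun n _ => integrable_finset_sum _ fun m _ =>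
    (g2_int hT _ _).const_mul _, Finset.mul_sum, Finset.mul_sum]
  refine Finset.sum_congr rfl fun n _ => ?_
  rw [integral_finset_sum _ fun m _ => (g2_int hT _ _).const_mul _, Finset.mul_sum, Finset.mul_sum]
  refine Finset.sum_congr rfl fun m _ => ?_
  rw [integral_const_mul]
  have h := g2_eq hT (Real.log n) (Real.log m)
  calc (T : ℂ) ^ 2 * (a n / n * (starRingEnd ℂ) (a m / m) * ∫ y : ℝ,
        ((Real.exp (-(T * (Real.log n - y)) ^ 2 / 2) : ℝ) : ℂ) *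
          ((Real.exp (-(T * (Real.log m - y)) ^ 2 / 2) : ℝ) : ℂ))
      = a n / n * (starRingEnd ℂ) (a m / m) * ((T : ℂ) ^ 2 * ∫ y : ℝ,
        ((Real.exp (-(T * (Real.log n - y)) ^ 2 / 2) : ℝ) : ℂ) *
          ((Real.exp (-(T * (Real.log m - y)) ^ 2 / 2) : ℝ) : ℂ)) := by ring
    _ = _ := by
        rw [h]
        ring

theorem integrable_Sm {s : Finset ℕ} (hs : ∀ n ∈ s, 1 ≤ n) (a : ℕ → ℂ) {T : ℝ} (hT : 0 < T) : Integrable fun y => ‖Sm s a T y‖ ^ 2 := by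
  have _ := hs
  have h : Integrable fun y => ((‖Sm s a T y‖ ^ 2 : ℝ) : ℂ) := by
    simp_rw [sm_expand]
    exact integrable_finset_sum _ fun n _ => integrable_finset_sum _ fun m _ =>
      (g2_int hT _ _).const_mul _
  have h2 := h.re
  refine h2.congr (Filter.Eventually.of_forall fun y => ?_)
  show RCLike.re ((‖Sm s a T y‖ ^ 2 : ℝ) : ℂ) = _
  exact Complex.ofReal_re _

theorem integrable_Dp (s : Finset ℕ) (a : ℕ → ℂ) {T : ℝ} (hT : 0 < T) :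
    Integrable fun t : ℝ => ‖Dp s a t‖ ^ 2 * Real.exp (-(t / T) ^ 2) := by
  have h : Integrable fun t => ((‖Dp s a t‖ ^ 2 * Real.exp (-(t / T) ^ 2) : ℝ) : ℂ) := by
    simp_rw [dp_expand]
    exact integrable_finset_sum _ fun n _ => integrable_finset_sum _ fun m _ =>
      (g1_int hT _).const_mul _
  have h2 := h.re
  refine h2.congr (Filter.Eventually.of_forall fun t => ?_)
  show RCLike.re ((‖Dp s a t‖ ^ 2 * Real.exp (-(t / T) ^ 2) : ℝ) : ℂ) = _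
  exact Complex.ofReal_re _

end MRT
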