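import Pool.Agent.MRT.Bas

/-!
# MRT-TKm: Turán–Kubilius in logarithmic intervals
-/

set_option autoImplicit false

namespace MRT

open Finset

private theorem om_sum (P : Finset ℕ) (n : ℕ) :
    (om P n : ℝ) = ∑ p ∈ P, if p ∣ n then (1 : ℝ) else 0 := by
  unfold om
  rw [Finset.card_filter]
  push_cast
  rfl

private theorem tk_pair {p q : ℕ} (hp : p.Prime) (hq : q.Prime) (v : ℝ) {δ : ℝ} (h0 : 0 < δ) :
    ∑ n ∈ Ic v (v + δ), (if p ∣ n then (1 : ℝ) else 0) * (if q ∣ n then (1 : ℝ) else 0) / n ≤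
      δ * ((1 / (p : ℝ)) * (1 / q)) + (if p = q then δ * (1 / p) else 0) + Real.exp (-v) := by
  have hp' : (0 : ℝ) < p := by exact_mod_cast hp.pos
  have hq' : (0 : ℝ) < q := by exact_mod_cast hq.pos
  have e : ∀ d : ℕ, (∀ n : ℕ, d ∣ n ↔ (p ∣ n ∧ q ∣ n)) →
      ∑ n ∈ Ic v (v + δ), (if p ∣ n then (1 : ℝ) else 0) * (if q ∣ n then (1 : ℝ) else 0) / n =
      ∑ n ∈ (Ic v (v + δ)).filter (d ∣ ·), 1 / (n : ℝ) := by
    intro d hd
    rw [Finset.sum_filter]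
    refine Finset.sum_congr rfl fun n _ => ?_
    by_cases h1 : p ∣ n <;> by_cases h2 : q ∣ n <;> simp [hd n, h1, h2]
  by_cases hpq : p = q
  · subst hpq
    rw [e p (fun n => by tauto), if_pos rfl]
    have h1 := (abs_le.1 (sum_inv_Ic_dvd (show v ≤ v + δ by linarith) hp.pos)).2
    have h2 : (v + δ - v) / (p : ℝ) = δ * (1 / p) := by ring
    rw [h2] at h1
    have h3 : 0 ≤ δ * ((1 / (p : ℝ)) * (1 / p)) := by positivity
    linarith
  · rw [e (p * q) (fun n => ⟨fun h => ⟨dvd_trans (dvd_mul_right _ _) h, dvd_trans (dvd_mul_left _ _) h⟩,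
      fun h => ((Nat.coprime_primes hp hq).2 hpq).mul_dvd_of_dvd_of_dvd h.1 h.2⟩), if_neg hpq]
    have h1 := (abs_le.1 (sum_inv_Ic_dvd (show v ≤ v + δ by linarith)
      (Nat.mul_pos hp.pos hq.pos))).2
    have h2 : (v + δ - v) / ((p * q : ℕ) : ℝ) = δ * ((1 / (p : ℝ)) * (1 / q)) := by
      push_cast
      field_simp
      ring
    rw [h2] at h1
    linarith

theorem tk_second {P : Finset ℕ} (hP : ∀ p ∈ P, p.Prime) (v : ℝ) {δ : ℝ} (h0 : 0 < δ) :
    ∑ n ∈ Ic v (v + δ), (om P n : ℝ) ^ 2 / n ≤ δ * (Ws P ^ 2 + Ws P) + (P.card : ℝ) ^ 2 * Real.exp (-v) := by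
  have h1 : ∑ n ∈ Ic v (v + δ), (om P n : ℝ) ^ 2 / n = ∑ p ∈ P, ∑ q ∈ P, ∑ n ∈ Ic v (v + δ),
      (if p ∣ n then (1 : ℝ) else 0) * (if q ∣ n then (1 : ℝ) else 0) / n := by
    have h2 : ∀ n ∈ Ic v (v + δ), (om P n : ℝ) ^ 2 / n = ∑ p ∈ P, ∑ q ∈ P,
        (if p ∣ n then (1 : ℝ) else 0) * (if q ∣ n then (1 : ℝ) else 0) / n := by
      intro n _
      rw [om_sum, sq, Finset.sum_mul_sum, Finset.sum_div]
      refine Finset.sum_congr rfl fun p _ => ?_
      rw [Finset.sum_div]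
    rw [Finset.sum_congr rfl h2, Finset.sum_comm]
    refine Finset.sum_congr rfl fun p _ => ?_
    rw [Finset.sum_comm]
  rw [h1]
  have h3 : ∀ p ∈ P, ∀ q ∈ P, ∑ n ∈ Ic v (v + δ),
      (if p ∣ n then (1 : ℝ) else 0) * (if q ∣ n then (1 : ℝ) else 0) / n ≤
      δ * ((1 / (p : ℝ)) * (1 / q)) + (if p = q then δ * (1 / p) else 0) + Real.exp (-v) :=
    fun p hp q hq => tk_pair (hP p hp) (hP q hq) v h0
  refine (Finset.sum_le_sum fun p hp => Finset.sum_le_sum fun q hq => h3 p hp q hq).trans ?_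
  have h4 : ∑ p ∈ P, ∑ q ∈ P, (δ * ((1 / (p : ℝ)) * (1 / q)) + (if p = q then δ * (1 / (p : ℝ)) else 0) +
      Real.exp (-v)) = δ * (Ws P ^ 2 + Ws P) + (P.card : ℝ) ^ 2 * Real.exp (-v) := by
    have e1 : ∀ p ∈ P, ∑ q ∈ P, (δ * ((1 / (p : ℝ)) * (1 / q)) +
        (if p = q then δ * (1 / (p : ℝ)) else 0) + Real.exp (-v)) =
        δ * ((1 / (p : ℝ)) * Ws P) + δ * (1 / p) + P.card * Real.exp (-v) := by
      intro p hp
      rw [Finset.sum_add_distrib, Finset.sum_add_distrib, Finset.sum_const, nsmul_eq_mul,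
        Finset.sum_ite_eq, if_pos hp, ← Finset.mul_sum, ← Finset.mul_sum]
      rfl
    rw [Finset.sum_congr rfl e1, Finset.sum_add_distrib, Finset.sum_add_distrib, Finset.sum_const,
      nsmul_eq_mul, ← Finset.mul_sum, ← Finset.mul_sum, ← Finset.sum_mul]
    show δ * (Ws P * Ws P) + δ * Ws P + _ = _
    ring
  exact h4.le

theorem tk_var {P : Finset ℕ} (hP : ∀ p ∈ P, p.Prime) (v : ℝ) {δ : ℝ} (h0 : 0 < δ) :
    ∑ n ∈ Ic v (v + δ), ((om P n : ℝ) - Ws P) ^ 2 / n ≤ δ * Ws P + (P.card + Ws P) ^ 2 * Real.exp (-v) := by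
  have hW : 0 ≤ Ws P := by
    unfold Ws
    exact Finset.sum_nonneg fun p _ => by positivity
  have h1 := tk_second hP v h0
  have h2 : δ * Ws P - P.card * Real.exp (-v) ≤ ∑ n ∈ Ic v (v + δ), (om P n : ℝ) / n := by
    have e : ∑ n ∈ Ic v (v + δ), (om P n : ℝ) / n =
        ∑ p ∈ P, ∑ n ∈ (Ic v (v + δ)).filter (p ∣ ·), 1 / (n : ℝ) := by
      have e1 : ∀ n ∈ Ic v (v + δ), (om P n : ℝ) / n =
          ∑ p ∈ P, if p ∣ n then 1 / (n : ℝ) else 0 := by
        intro n _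
        rw [om_sum, Finset.sum_div]
        refine Finset.sum_congr rfl fun p _ => ?_
        split_ifs <;> simp
      rw [Finset.sum_congr rfl e1, Finset.sum_comm]
      refine Finset.sum_congr rfl fun p _ => ?_
      rw [Finset.sum_filter]
    rw [e]
    have e2 : δ * Ws P - P.card * Real.exp (-v) = ∑ p ∈ P, (δ / p - Real.exp (-v)) := by
      rw [Finset.sum_sub_distrib, Finset.sum_const, nsmul_eq_mul]
      unfold Ws
      rw [Finset.mul_sum]
      congr 1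
      refine Finset.sum_congr rfl fun p _ => ?_
      ring
    rw [e2]
    refine Finset.sum_le_sum fun p hp => ?_
    have h3 := (abs_le.1 (sum_inv_Ic_dvd (show v ≤ v + δ by linarith) (hP p hp).pos)).1
    have h4 : (v + δ - v) / (p : ℝ) = δ / p := by ring
    rw [h4] at h3
    linarith
  have h3 : ∑ n ∈ Ic v (v + δ), 1 / (n : ℝ) ≤ δ + Real.exp (-v) := by
    have h4 := (abs_le.1 (sum_inv_Ic (show v ≤ v + δ by linarith))).2
    linarith
  have e : ∑ n ∈ Ic v (v + δ), ((om P n : ℝ) - Ws P) ^ 2 / n =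
      ∑ n ∈ Ic v (v + δ), (om P n : ℝ) ^ 2 / n - 2 * Ws P * ∑ n ∈ Ic v (v + δ), (om P n : ℝ) / n +
      Ws P ^ 2 * ∑ n ∈ Ic v (v + δ), 1 / (n : ℝ) := by
    rw [Finset.mul_sum, Finset.mul_sum, ← Finset.sum_sub_distrib, ← Finset.sum_add_distrib]
    refine Finset.sum_congr rfl fun n _ => ?_
    ring
  rw [e]
  have h5 := mul_le_mul_of_nonneg_left h2 (show 0 ≤ 2 * Ws P by linarith)
  have h6 := mul_le_mul_of_nonneg_left h3 (sq_nonneg (Ws P))
  nlinarith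

end MRT
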