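import Pool.Agent.MRT.Fac
import Pool.Agent.MRT.TKm
import Pool.Agent.MRT.Mvb
import Pool.Agent.MRT.Che

/-!
# MRT-TkF: mean square of the error of the factorisation

PLAN.  `fac_eq`: the difference is `(1/W) Dp (Ic v (v+2)) (f e)`, `e n = W 1_{Ic v (v+1)} - rr n`, `‖f e‖ = |e|` (or `≤`), `mvt` with `T/n ≤ 1` (`n > e^v ≥ T`).  `coef_sq`, `tk_var` (`δ = 1`), `tk_second` (`δ = 1/H`, at `v` and `v + 1`), `block_triv`: `card ≤ e^b`, `W ≤ b + 1 ≤ 2 e^b`.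
`(1/W²) (W + W²/H + W/H + 9 e^{2b-v}) ≤ C (1/W + 1/H)` (`W ≥ 1`, `e^{2b - v} ≤ 1/H`).
-/

set_option autoImplicit false

namespace MRT

open Finset MeasureTheory

/-- The error of the factorisation. -/
noncomputable def Er (f : ℕ → ℝ) (H a b : ℕ) (v t : ℝ) : ℂ :=
  Av f v t - (∑ c ∈ Ico (H * a) (H * b), Qc f H c t * Av f (v - (c : ℝ) / H) t) / (Ws (Bk a b) : ℂ)

private theorem tf_eq {f : ℕ → ℝ} (hf : CMr f) {H : ℕ} (hH : 1 ≤ H) (a b : ℕ) (hW : 1 ≤ Ws (Bk a b)) (v t : ℝ) :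
    Er f H a b v t = Dp (Ic v (v + 2)) (fun n => ((f n * (((if n ∈ Ic v (v + 1) then Ws (Bk a b) else 0) -
      rr H a b v n) / Ws (Bk a b)) : ℝ) : ℂ)) t := by
  have hW0 : (Ws (Bk a b) : ℂ) ≠ 0 := by
    have : Ws (Bk a b) ≠ 0 := by linarith
    exact_mod_cast this
  have hsub : Ic v (v + 1) ⊆ Ic v (v + 2) := by
    intro n hn
    rw [mem_Ic] at hn ⊢
    exact ⟨hn.1, hn.2.trans (Real.exp_le_exp.2 (by linarith))⟩
  have e1 : Av f v t = ∑ n ∈ Ic v (v + 2), if n ∈ Ic v (v + 1) then (f n : ℂ) / n * cp n t else 0 := by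
    unfold Av Dp
    rw [Finset.sum_ite_mem, Finset.inter_eq_right.2 hsub]
  rw [Er, fac_eq hf hH, e1]
  unfold Dp
  rw [Finset.sum_div, ← Finset.sum_sub_distrib]
  refine Finset.sum_congr rfl fun n _ => ?_
  dsimp only
  by_cases h : n ∈ Ic v (v + 1)
  · rw [if_pos h, if_pos h]
    push_cast
    field_simp
  · rw [if_neg h, if_neg h]
    push_cast
    field_simp
    ring

private theorem tf_num {W H P E : ℝ} (hW : 1 ≤ W) (hH : 1 ≤ H) (hE : P * E ≤ 1 / H) {X Y Z S : ℝ}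
    (hX : X ≤ 1 * W + 4 * P * E) (hY : Y ≤ 1 / H * (W ^ 2 + W) + P * E) (hZ : Z ≤ 1 / H * (W ^ 2 + W) + P * E)
    (hS : S ≤ 2 * X + 2 * Y + 2 * Z) : S / W ^ 2 ≤ 20 * (1 / W + 1 / H) := by
  have h0 : 0 < W := by linarith
  have h1 : 0 < H := by linarith
  rw [div_le_iff₀ (by positivity)]
  have e1 : 20 * (1 / W + 1 / H) * W ^ 2 = 20 * W + 20 * (1 / H * W ^ 2) := by
    field_simp
  rw [e1]
  have h2 : 1 / H * W ≤ 1 / H * W ^ 2 := mul_le_mul_of_nonneg_left (by nlinarith) (by positivity)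
  have h3 : 1 / H * 1 ≤ 1 / H * W ^ 2 := mul_le_mul_of_nonneg_left (by nlinarith) (by positivity)
  have h4 : 1 / H * (W ^ 2 + W) = 1 / H * W ^ 2 + 1 / H * W := by ring
  rw [h4] at hY hZ
  nlinarith

theorem tkf : ∃ C : ℝ, 0 < C ∧ ∀ f : ℕ → ℝ, CMr f → ∀ H a b : ℕ, 1 ≤ H → a < b → 1 ≤ Ws (Bk a b) → ∀ v T : ℝ,
    Real.exp (2 * b) * H ≤ Real.exp v → 1 ≤ T → T ≤ Real.exp v →
      ∫ t in (-T)..T, ‖Er f H a b v t‖ ^ 2 ≤ C * (1 / Ws (Bk a b) + 1 / H) := by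
  obtain ⟨C₀, hC₀, hm⟩ := mvt
  refine ⟨40 * C₀, by positivity, ?_⟩
  intro f hf H a b hH hab hW v T hev hT hTv
  obtain ⟨W, hWd⟩ : ∃ W : ℝ, W = Ws (Bk a b) := ⟨_, rfl⟩
  have hHp : (1 : ℝ) ≤ H := by exact_mod_cast hH
  have hH0 : (0 : ℝ) < H := by linarith
  set e : ℕ → ℝ := fun n => (if n ∈ Ic v (v + 1) then Ws (Bk a b) else 0) - rr H a b v n with he
  have h1 := hm (Ic v (v + 2)) (fun n => ((f n * (((if n ∈ Ic v (v + 1) then Ws (Bk a b) else 0) -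
      rr H a b v n) / Ws (Bk a b)) : ℝ) : ℂ)) T hT (fun n hn => one_le_of_mem hn)
  have h2 : ∫ t in (-T)..T, ‖Er f H a b v t‖ ^ 2 ≤ C₀ * ∑ n ∈ Ic v (v + 2),
      ‖((f n * (((if n ∈ Ic v (v + 1) then Ws (Bk a b) else 0) -
      rr H a b v n) / Ws (Bk a b)) : ℝ) : ℂ)‖ ^ 2 / n * (1 + T / n) := by
    refine le_trans (le_of_eq ?_) h1
    refine congrArg (fun g : ℝ → ℝ => ∫ t in (-T)..T, g t) ?_
    funext t
    rw [tf_eq hf hH a b hW]
  have h3 : ∑ n ∈ Ic v (v + 2), ‖((f n * (((if n ∈ Ic v (v + 1) then Ws (Bk a b) else 0) -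
      rr H a b v n) / Ws (Bk a b)) : ℝ) : ℂ)‖ ^ 2 / n * (1 + T / n) ≤ 2 * ((∑ n ∈ Ic v (v + 2), e n ^ 2 / n) / W ^ 2) := by
    rw [Finset.sum_div, Finset.mul_sum]
    refine Finset.sum_le_sum fun n hn => ?_
    have hn1 := one_le_of_mem hn
    have hn0 : (0 : ℝ) < n := by exact_mod_cast hn1
    have hnv : Real.exp v < n := (mem_Ic.1 hn).1
    have k1 : T / n ≤ 1 := by
      rw [div_le_one hn0]
      linarith
    have k2 : ‖((f n * (((if n ∈ Ic v (v + 1) then Ws (Bk a b) else 0) -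
      rr H a b v n) / Ws (Bk a b)) : ℝ) : ℂ)‖ ^ 2 = e n ^ 2 / W ^ 2 := by
      rw [Complex.norm_real, Real.norm_eq_abs, sq_abs, mul_pow, div_pow, hWd]
      have : f n ^ 2 = 1 := by
        rcases hf.sgn n hn1 with h | h <;> rw [h] <;> norm_num
      rw [this, one_mul]
    rw [k2]
    have k3 : 0 ≤ e n ^ 2 / W ^ 2 / n := by positivity
    calc e n ^ 2 / W ^ 2 / n * (1 + T / n) ≤ e n ^ 2 / W ^ 2 / n * 2 :=
          mul_le_mul_of_nonneg_left (by linarith) k3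
      _ = _ := by ring
  have hP : ∀ p ∈ Bk a b, p.Prime := fun p hp => (Finset.mem_filter.1 hp).2
  obtain ⟨b1, b2, b3⟩ := block_triv (a := a) (b := b)
  have hb0 : (b : ℝ) + 1 ≤ Real.exp b := Real.add_one_le_exp _
  have hP0 : (0 : ℝ) ≤ ((Bk a b).card : ℝ) := Nat.cast_nonneg _
  have q1 : ((Bk a b).card : ℝ) ^ 2 ≤ Real.exp (2 * b) := by
    have h4 := pow_le_pow_left₀ hP0 b1 2
    rw [← Real.exp_nat_mul] at h4
    exact_mod_cast h4
  have q2 : (((Bk a b).card : ℝ) + Ws (Bk a b)) ^ 2 ≤ 4 * Real.exp (2 * b) := by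
    have h4 : ((Bk a b).card : ℝ) + Ws (Bk a b) ≤ 2 * Real.exp b := by linarith
    have h5 := pow_le_pow_left₀ (by positivity) h4 2
    rw [mul_pow, ← Real.exp_nat_mul] at h5
    refine h5.trans (le_of_eq ?_)
    push_cast
    norm_num
  have hE : Real.exp (2 * b) * Real.exp (-v) ≤ 1 / H := by
    rw [Real.exp_neg, ← div_eq_mul_inv, div_le_div_iff₀ (Real.exp_pos _) hH0, one_mul]
    exact hev
  have hEv : Real.exp (-(v + 1)) ≤ Real.exp (-v) := Real.exp_le_exp.2 (by linarith)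
  have t1 := tk_var hP v (δ := 1) one_pos
  have t2 := tk_second hP v (δ := 1 / H) (by positivity)
  have t3 := tk_second hP (v + 1) (δ := 1 / H) (by positivity)
  have t4 := coef_sq hH a b v
  have r1 : ∑ n ∈ Ic v (v + 1), ((om (Bk a b) n : ℝ) - Ws (Bk a b)) ^ 2 / n ≤ 1 * W + 4 * Real.exp (2 * b) * Real.exp (-v) := by
    refine t1.trans ?_
    rw [hWd]
    have := mul_le_mul_of_nonneg_right q2 (Real.exp_pos (-v)).le
    linarith
  have r2 : ∑ n ∈ Ic v (v + 1 / H), (om (Bk a b) n : ℝ) ^ 2 / n ≤ 1 / H * (W ^ 2 + W) + Real.exp (2 * b) * Real.exp (-v) := by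
    refine t2.trans ?_
    rw [hWd]
    have := mul_le_mul_of_nonneg_right q1 (Real.exp_pos (-v)).le
    linarith
  have r3 : ∑ n ∈ Ic (v + 1) (v + 1 + 1 / H), (om (Bk a b) n : ℝ) ^ 2 / n ≤
      1 / H * (W ^ 2 + W) + Real.exp (2 * b) * Real.exp (-v) := by
    refine t3.trans ?_
    rw [hWd]
    have := mul_le_mul q1 hEv (Real.exp_pos _).le (Real.exp_pos _).le
    linarith
  have r4 := tf_num (W := W) (by rw [hWd]; exact hW) hHp hE r1 r2 r3 t4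
  have r5 : (∑ n ∈ Ic v (v + 2), e n ^ 2 / n) / W ^ 2 ≤ 20 * (1 / W + 1 / H) := r4
  refine h2.trans ((mul_le_mul_of_nonneg_left h3 hC₀.le).trans ?_)
  rw [← hWd]
  nlinarith

end MRT
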