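import Pool.Agent.MRT.TkF
import Pool.Agent.MRT.Hmi
import Pool.Agent.MRT.Hmp

/-!
# MRT-UpA: the exceptional set, one value of `v`

PLAN.  `∫_U ‖Av‖² ≤ 2 ∫_{-e^v}^{e^v} ‖Er‖² + (2/W²) ∫_U ‖∑_c Q_c A_c‖²`, `A_c = Av (v - c/H)`.  `tkf` (`T = e^v`).  Cauchy–Schwarz with the weights `1/c`: `‖∑ Q_c A_c‖² ≤ (∑_c 1/c) ∑_c c ‖Q_c‖² ‖A_c‖²`.  Split `U` at `‖Q_c t‖ < θ/c`: `∫_U ‖Q_c‖² ‖A_c‖² ≤ (θ/c)² ∫_U ‖A_c‖² + (C₁/c)² κ² vol {t ∈ U : ‖Q_c‖ ≥ θ/c}`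
(`‖Q_c‖ ≤ Ws (Cl H c) ≤ C₁/c`: hypothesis `hb`; `‖A_c‖ ≤ κ`: `hA`; the volume is `≤ 2R`: `hR`, `sp_meas`).  `∫_U ‖A_c‖² ≤ 2 C'`: `sp_int` and `hmi` (`x = v - c/H ≥ (97/100) v`, `Y = e^v`, `card ≤ e^{9v/20}`: `e^{9v/20} (e^{-97v/200} + e^{v/2 - 97v/100}) ≤ 2`), `∑_{n} 1/n ≤ 2`.
`∑_c 1/c ≤ 1 + log (b/a)` over `c ∈ [Ha, Hb)`.
-/

set_option autoImplicit false

namespace MRT

open Finset MeasureTheory

private theorem ua_harm {m : ℕ} (hm : 1 ≤ m) (k : ℕ) :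
    ∑ c ∈ Ico m (m + 1 + k), 1 / (c : ℝ) ≤ 1 + Real.log (((m + k : ℕ) : ℝ) / m) := by
  have hm0 : (1 : ℝ) ≤ m := by exact_mod_cast hm
  induction k with
  | zero =>
    rw [Nat.add_zero, Nat.Ico_succ_singleton, Finset.sum_singleton, Nat.add_zero, div_self (by linarith), Real.log_one,
      add_zero, div_le_one (by linarith)]
    exact hm0
  | succ k ih =>
    rw [← Nat.add_assoc, Finset.sum_Ico_succ_top (by omega)]
    have h1 : (0 : ℝ) < ((m + k : ℕ) : ℝ) := by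
      have : 0 < m + k := by omega
      exact_mod_cast this
    have h2 : (0 : ℝ) < ((m + (k + 1) : ℕ) : ℝ) := by
      have : 0 < m + (k + 1) := by omega
      exact_mod_cast this
    have h3 : 1 / (((m + 1 + k : ℕ) : ℝ)) ≤ Real.log ((m + (k + 1) : ℕ) : ℝ) - Real.log ((m + k : ℕ) : ℝ) := by
      have h4 := Real.log_le_sub_one_of_pos (show 0 < ((m + k : ℕ) : ℝ) / ((m + (k + 1) : ℕ) : ℝ) by positivity)
      rw [Real.log_div h1.ne' h2.ne'] at h4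
      have h5 : ((m + k : ℕ) : ℝ) / ((m + (k + 1) : ℕ) : ℝ) - 1 = -(1 / ((m + 1 + k : ℕ) : ℝ)) := by
        have e : ((m + 1 + k : ℕ) : ℝ) = ((m + (k + 1) : ℕ) : ℝ) := by
          congr 1
          omega
        rw [e]
        field_simp
        push_cast
        ring
      linarith
    rw [Real.log_div h1.ne' (by linarith)] at ih
    rw [Real.log_div h2.ne' (by linarith)]
    linarith

private theorem ua_sum {H a b : ℕ} (hH : 1 ≤ H) (ha : 1 ≤ a) (hab : a < b) :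
    ∑ c ∈ Ico (H * a) (H * b), 1 / (c : ℝ) ≤ 1 + Real.log ((b : ℝ) / a) := by
  have h1 : 1 ≤ H * a := Nat.mul_pos hH ha
  have h2 : H * a < H * b := Nat.mul_lt_mul_of_pos_left hab hH
  obtain ⟨k, hk⟩ : ∃ k, H * b = H * a + 1 + k := ⟨H * b - (H * a + 1), by omega⟩
  have h3 := ua_harm h1 k
  rw [← hk] at h3
  refine h3.trans ?_
  have hHp : (0 : ℝ) < H := by exact_mod_cast hH
  have hap : (0 : ℝ) < a := by exact_mod_cast ha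
  have h4 : (((H * a + k : ℕ) : ℝ)) ≤ ((H * b : ℕ) : ℝ) := by
    have : H * a + k ≤ H * b := by omega
    exact_mod_cast this
  have h5 : (b : ℝ) / a = ((H * b : ℕ) : ℝ) / ((H * a : ℕ) : ℝ) := by
    push_cast
    rw [mul_div_mul_left _ _ hHp.ne']
  have h6 : (0 : ℝ) < ((H * a : ℕ) : ℝ) := by exact_mod_cast h1
  have h7 : (0 : ℝ) < ((H * a + k : ℕ) : ℝ) := by
    have : 0 < H * a + k := by omega
    exact_mod_cast this
  rw [h5]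
  have h8 := Real.log_le_log (div_pos h7 h6) (div_le_div_of_nonneg_right h4 h6.le)
  linarith

/-- Pointwise bound. -/
private theorem ua_pt {f : ℕ → ℝ} (hf : CMr f) {H a b : ℕ} (hH : 1 ≤ H) (ha : 1 ≤ a) (hab : a < b) (hW : 1 ≤ Ws (Bk a b)) {v : ℝ}
    {C₁ κ θ t : ℝ} (hC₁ : 1 ≤ C₁) (hκ : 0 ≤ κ)
    (hb : ∀ c ∈ Ico (H * a) (H * b), Ws (Cl H c) ≤ C₁ / c)
    (hA : ∀ c ∈ Ico (H * a) (H * b), ‖Av f (v - (c : ℝ) / H) t‖ ≤ κ) :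
    ‖Av f v t‖ ^ 2 ≤ 2 * ‖Er f H a b v t‖ ^ 2 + ∑ c ∈ Ico (H * a) (H * b),
      2 * (1 + Real.log ((b : ℝ) / a)) / Ws (Bk a b) ^ 2 * c *
        ((θ / c) ^ 2 * ‖Av f (v - (c : ℝ) / H) t‖ ^ 2 +
          (C₁ / c) ^ 2 * κ ^ 2 * Set.indicator {t : ℝ | θ / c ≤ ‖Qc f H c t‖} (fun _ => (1 : ℝ)) t) := by
  obtain ⟨S, hS⟩ : ∃ S : ℂ, S = ∑ c ∈ Ico (H * a) (H * b), Qc f H c t * Av f (v - (c : ℝ) / H) t := ⟨_, rfl⟩
  obtain ⟨W, hWd⟩ : ∃ W : ℝ, W = Ws (Bk a b) := ⟨_, rfl⟩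
  have hW0 : 0 < W := by
    rw [hWd]
    linarith
  have e1 : Av f v t = Er f H a b v t + S / (W : ℂ) := by
    rw [Er, ← hS, hWd]
    ring
  have n1 : ‖S / (W : ℂ)‖ = ‖S‖ / W := by
    rw [norm_div, Complex.norm_real, Real.norm_eq_abs, abs_of_pos hW0]
  have n2 : ‖Av f v t‖ ≤ ‖Er f H a b v t‖ + ‖S‖ / W := by
    rw [e1]
    exact (norm_add_le _ _).trans (by rw [n1])
  have n3 : ‖Av f v t‖ ^ 2 ≤ 2 * ‖Er f H a b v t‖ ^ 2 + 2 / W ^ 2 * ‖S‖ ^ 2 := by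
    have h3 := pow_le_pow_left₀ (norm_nonneg _) n2 2
    have h4 : 2 / W ^ 2 * ‖S‖ ^ 2 = 2 * (‖S‖ / W) ^ 2 := by
      rw [div_pow]
      ring
    rw [h4]
    nlinarith [sq_nonneg (‖Er f H a b v t‖ - ‖S‖ / W)]
  have hc0 : ∀ c ∈ Ico (H * a) (H * b), (0 : ℝ) < c := by
    intro c hc
    have h1 : 1 ≤ H * a := Nat.mul_pos hH ha
    have h2 : 0 < c := by
      have := (Finset.mem_Ico.1 hc).1
      omega
    exact_mod_cast h2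
  have n4 : ‖S‖ ^ 2 ≤ (1 + Real.log ((b : ℝ) / a)) * ∑ c ∈ Ico (H * a) (H * b), (c : ℝ) * (‖Qc f H c t‖ * ‖Av f (v - (c : ℝ) / H) t‖) ^ 2 := by
    have h3 : ‖S‖ ≤ ∑ c ∈ Ico (H * a) (H * b), ‖Qc f H c t‖ * ‖Av f (v - (c : ℝ) / H) t‖ := by
      rw [hS]
      refine (norm_sum_le _ _).trans (le_of_eq (Finset.sum_congr rfl fun c _ => norm_mul _ _))
    have h4 := pow_le_pow_left₀ (norm_nonneg _) h3 2
    refine h4.trans ?_
    have h5 := Finset.sum_sq_le_sum_mul_sum_of_sq_eq_mul (Ico (H * a) (H * b))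
      (r := fun c : ℕ => ‖Qc f H c t‖ * ‖Av f (v - (c : ℝ) / H) t‖) (f := fun c : ℕ => 1 / (c : ℝ))
      (g := fun c : ℕ => (c : ℝ) * (‖Qc f H c t‖ * ‖Av f (v - (c : ℝ) / H) t‖) ^ 2)
      (fun c hc => by have := hc0 c hc; positivity) (fun c hc => by have := hc0 c hc; positivity)
      (fun c hc => by
        have := hc0 c hc
        field_simp)
    refine h5.trans ?_
    refine mul_le_mul_of_nonneg_right (ua_sum hH ha hab) (Finset.sum_nonneg fun c hc => ?_)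
    have := hc0 c hc
    positivity
  have hΛ : 0 ≤ 1 + Real.log ((b : ℝ) / a) := by
    have hap : (0 : ℝ) < a := by exact_mod_cast ha
    have h1 : (1 : ℝ) ≤ (b : ℝ) / a := by
      rw [le_div_iff₀ hap, one_mul]
      exact_mod_cast hab.le
    have := Real.log_nonneg h1
    linarith
  have n5 : ∀ c ∈ Ico (H * a) (H * b), (c : ℝ) * (‖Qc f H c t‖ * ‖Av f (v - (c : ℝ) / H) t‖) ^ 2 ≤
      c * ((θ / c) ^ 2 * ‖Av f (v - (c : ℝ) / H) t‖ ^ 2 +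
          (C₁ / c) ^ 2 * κ ^ 2 * Set.indicator {t : ℝ | θ / c ≤ ‖Qc f H c t‖} (fun _ => (1 : ℝ)) t) := by
    intro c hc
    have hcp := hc0 c hc
    refine mul_le_mul_of_nonneg_left ?_ hcp.le
    rw [mul_pow]
    by_cases h1 : θ / c ≤ ‖Qc f H c t‖
    · rw [Set.indicator_of_mem (show t ∈ {t : ℝ | θ / c ≤ ‖Qc f H c t‖} from h1), mul_one]
      have h2 : ‖Qc f H c t‖ ≤ C₁ / c := by
        refine le_trans ?_ (hb c hc)
        refine (norm_Dp_le _ _ _).trans (le_of_eq ?_)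
        unfold Ws
        refine Finset.sum_congr rfl fun p hp => ?_
        have hp1 : 0 < p := (Finset.mem_filter.1 hp).2.pos
        have h3 : ‖((f p : ℝ) : ℂ)‖ = 1 := by
          rw [Complex.norm_real, Real.norm_eq_abs]
          rcases hf.sgn p hp1 with h | h <;> rw [h] <;> norm_num
        rw [h3]
      have h3 := pow_le_pow_left₀ (norm_nonneg _) h2 2
      have h4 := pow_le_pow_left₀ (norm_nonneg _) (hA c hc) 2
      have h5 := mul_le_mul h3 h4 (by positivity) (by positivity)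
      have h6 : 0 ≤ (θ / c) ^ 2 * ‖Av f (v - (c : ℝ) / H) t‖ ^ 2 := by positivity
      linarith
    · rw [Set.indicator_of_notMem (show t ∉ {t : ℝ | θ / c ≤ ‖Qc f H c t‖} from h1), mul_zero, add_zero]
      have h2 := pow_le_pow_left₀ (norm_nonneg _) (not_le.1 h1).le 2
      exact mul_le_mul_of_nonneg_right h2 (by positivity)
  have n6 : 2 / W ^ 2 * ‖S‖ ^ 2 ≤ ∑ c ∈ Ico (H * a) (H * b),
      2 * (1 + Real.log ((b : ℝ) / a)) / W ^ 2 * c *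
        ((θ / c) ^ 2 * ‖Av f (v - (c : ℝ) / H) t‖ ^ 2 +
          (C₁ / c) ^ 2 * κ ^ 2 * Set.indicator {t : ℝ | θ / c ≤ ‖Qc f H c t‖} (fun _ => (1 : ℝ)) t) := by
    have h3 : 2 / W ^ 2 * ‖S‖ ^ 2 ≤ 2 / W ^ 2 * ((1 + Real.log ((b : ℝ) / a)) * ∑ c ∈ Ico (H * a) (H * b),
      c * ((θ / c) ^ 2 * ‖Av f (v - (c : ℝ) / H) t‖ ^ 2 +
          (C₁ / c) ^ 2 * κ ^ 2 * Set.indicator {t : ℝ | θ / c ≤ ‖Qc f H c t‖} (fun _ => (1 : ℝ)) t)) := by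
      refine mul_le_mul_of_nonneg_left (n4.trans ?_) (by positivity)
      exact mul_le_mul_of_nonneg_left (Finset.sum_le_sum n5) hΛ
    refine h3.trans (le_of_eq ?_)
    rw [Finset.mul_sum, Finset.mul_sum]
    refine Finset.sum_congr rfl fun c _ => ?_
    ring
  rw [← hWd]
  linarith

private theorem ua_int {C' : ℝ} (hC' : 0 < C') (hh : ∀ x Y : ℝ, 0 ≤ x → 0 ≤ Y → 2 * Y ≤ Real.exp (3 * x / 2) → ∀ 𝒯 : Finset ℝ, Sp 𝒯 →
    (∀ t ∈ 𝒯, |t| ≤ Y) → ∀ a : ℕ → ℂ, ∑ t ∈ 𝒯, ‖Dp (Ic x (x + 1)) a t‖ ^ 2 ≤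
      C' * (1 + 𝒯.card * (Real.exp (-x / 2) + √Y * Real.exp (-x))) * ∑ n ∈ Ic x (x + 1), ‖a n‖ ^ 2 / n)
    {f : ℕ → ℝ} (hf : CMr f) {v x : ℝ} (hv : 50 ≤ v) (hx : 97 / 100 * v ≤ x) {U : Set ℝ}
    (hU : MeasurableSet U) (hUv : U ⊆ Set.Icc (-Real.exp v) (Real.exp v))
    (hc : ∀ 𝒯 : Finset ℝ, Sp 𝒯 → (∀ t ∈ 𝒯, t ∈ U) → (𝒯.card : ℝ) ≤ Real.exp (9 / 20 * v)) :
    ∫ t in U, ‖Av f x t‖ ^ 2 ≤ 12 * C' := by
  have h1 := sp_int hU hUv (B := fun t => Av f x t) (cont_Dp _ _) (M := 6 * C') ?_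
  · linarith
  intro 𝒯 h𝒯 h𝒯U
  have h2 : 2 * Real.exp v ≤ Real.exp (3 * x / 2) := by
    have h3 : (2 : ℝ) ≤ Real.exp (455 / 1000 * v) := by
      have := Real.add_one_le_exp (455 / 1000 * v)
      linarith
    calc 2 * Real.exp v ≤ Real.exp (455 / 1000 * v) * Real.exp v := mul_le_mul_of_nonneg_right h3 (Real.exp_pos v).le
      _ = Real.exp (455 / 1000 * v + v) := (Real.exp_add _ _).symm
      _ ≤ _ := Real.exp_le_exp.2 (by linarith)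
  have h3 := hh x (Real.exp v) (by linarith) (Real.exp_pos v).le h2 𝒯 h𝒯 (fun t ht => abs_le.2 (hUv (h𝒯U t ht)))
    (fun n => (f n : ℂ))
  have h4 := hc 𝒯 h𝒯 h𝒯U
  have h5 : (𝒯.card : ℝ) * (Real.exp (-x / 2) + √(Real.exp v) * Real.exp (-x)) ≤ 2 := by
    have e1 : √(Real.exp v) = Real.exp (v / 2) := (Real.exp_half v).symm
    have k1 : (𝒯.card : ℝ) * (Real.exp (-x / 2) + √(Real.exp v) * Real.exp (-x)) ≤
        Real.exp (9 / 20 * v) * (Real.exp (-x / 2) + √(Real.exp v) * Real.exp (-x)) :=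
      mul_le_mul_of_nonneg_right h4 (by positivity)
    have k2 : Real.exp (9 / 20 * v) * (Real.exp (-x / 2) + √(Real.exp v) * Real.exp (-x)) =
        Real.exp (9 / 20 * v - x / 2) + Real.exp (9 / 20 * v + v / 2 - x) := by
      rw [e1, mul_add, ← Real.exp_add, ← Real.exp_add, ← Real.exp_add]
      congr 2 <;> ring
    have k3 : Real.exp (9 / 20 * v - x / 2) ≤ 1 := Real.exp_le_one_iff.2 (by linarith)
    have k4 : Real.exp (9 / 20 * v + v / 2 - x) ≤ 1 := Real.exp_le_one_iff.2 (by linarith)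
    linarith
  have h6 : ∑ n ∈ Ic x (x + 1), ‖((f n : ℝ) : ℂ)‖ ^ 2 / n ≤ 2 := by
    have k1 := sum_inv_Ic_le (show x ≤ x + 1 by linarith)
    have k2 : ∑ n ∈ Ic x (x + 1), ‖((f n : ℝ) : ℂ)‖ ^ 2 / n = ∑ n ∈ Ic x (x + 1), 1 / (n : ℝ) := by
      refine Finset.sum_congr rfl fun n hn => ?_
      have h3 : ‖((f n : ℝ) : ℂ)‖ = 1 := by
        rw [Complex.norm_real, Real.norm_eq_abs]
        rcases hf.sgn n (one_le_of_mem hn) with h | h <;> rw [h] <;> norm_num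
      rw [h3, one_pow]
    linarith
  have h7 : (0 : ℝ) ≤ ∑ n ∈ Ic x (x + 1), ‖((f n : ℝ) : ℂ)‖ ^ 2 / n := Finset.sum_nonneg fun n _ => by positivity
  refine h3.trans ?_
  have h8 : C' * (1 + 𝒯.card * (Real.exp (-x / 2) + √(Real.exp v) * Real.exp (-x))) ≤ C' * 3 :=
    mul_le_mul_of_nonneg_left (by linarith) hC'.le
  calc C' * (1 + 𝒯.card * (Real.exp (-x / 2) + √(Real.exp v) * Real.exp (-x))) *
        ∑ n ∈ Ic x (x + 1), ‖((f n : ℝ) : ℂ)‖ ^ 2 / n ≤ C' * 3 * 2 := mul_le_mul h8 h6 h7 (by positivity)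
    _ = 6 * C' := by ring

theorem up_one : ∃ C : ℝ, 0 < C ∧ ∀ f : ℕ → ℝ, CMr f → ∀ H a b : ℕ, 1 ≤ H → 1 ≤ a → a < b → 1 ≤ Ws (Bk a b) → ∀ v : ℝ, 1 ≤ v → (b : ℝ) ≤ 3 / 100 * v →
    Real.exp (2 * b) * H ≤ Real.exp v → ∀ C₁ κ θ R : ℝ, 1 ≤ C₁ → 0 ≤ κ → 0 < θ → 0 ≤ R →
    (∀ c ∈ Ico (H * a) (H * b), Ws (Cl H c) ≤ C₁ / c) →
    (∀ c ∈ Ico (H * a) (H * b), ∀ t : ℝ, |t| ≤ Real.exp v → ‖Av f (v - (c : ℝ) / H) t‖ ≤ κ) →
    (∀ c ∈ Ico (H * a) (H * b), ∀ 𝒯 : Finset ℝ, Sp 𝒯 → (∀ t ∈ 𝒯, |t| ≤ Real.exp v ∧ θ / c ≤ ‖Qc f H c t‖) → (𝒯.card : ℝ) ≤ R) →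
    ∀ U : Set ℝ, MeasurableSet U → U ⊆ Set.Icc (-Real.exp v) (Real.exp v) →
    (∀ 𝒯 : Finset ℝ, Sp 𝒯 → (∀ t ∈ 𝒯, t ∈ U) → (𝒯.card : ℝ) ≤ Real.exp (9 / 20 * v)) →
      ∫ t in U, ‖Av f v t‖ ^ 2 ≤ C * (1 / Ws (Bk a b) + 1 / H) +
        C * ((1 + Real.log (b / a)) / Ws (Bk a b)) ^ 2 * (θ ^ 2 + C₁ ^ 2 * κ ^ 2 * R) := by
  obtain ⟨C₀, hC₀, htk⟩ := tkf
  obtain ⟨C', hC', hh⟩ := hmi
  refine ⟨2 * C₀ + 24 * C' + 4, by positivity, ?_⟩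
  intro f hf H a b hH ha hab hW v hv hbv hev C₁ κ θ R hC₁ hκ hθ hR hb hA hRc U hU hUv hUc
  have hHp : (0 : ℝ) < H := by exact_mod_cast hH
  have hap : (0 : ℝ) < a := by exact_mod_cast ha
  have hv50 : 50 ≤ v := by
    have h1 : 2 ≤ b := by omega
    have h2 : (2 : ℝ) ≤ b := by exact_mod_cast h1
    linarith
  obtain ⟨W, hWd⟩ : ∃ W : ℝ, W = Ws (Bk a b) := ⟨_, rfl⟩
  have hW0 : 0 < W := by
    rw [hWd]
    linarith
  obtain ⟨Λ, hΛd⟩ : ∃ Λ : ℝ, Λ = 1 + Real.log ((b : ℝ) / a) := ⟨_, rfl⟩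
  have hΛ : 0 ≤ Λ := by
    have h1 : (1 : ℝ) ≤ (b : ℝ) / a := by
      rw [le_div_iff₀ hap, one_mul]
      exact_mod_cast hab.le
    have := Real.log_nonneg h1
    linarith
  have hfin : volume U ≠ ⊤ := by
    refine ne_of_lt (lt_of_le_of_lt (measure_mono hUv) ?_)
    rw [Real.volume_Icc]
    exact ENNReal.ofReal_lt_top
  have hfin' : IsFiniteMeasure (volume.restrict U) := ⟨by rw [Measure.restrict_apply_univ]; exact lt_top_iff_ne_top.2 hfin⟩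
  have cAv : ∀ w, Continuous fun t => Av f w t := fun w => cont_Dp _ _
  have cQc : ∀ c, Continuous fun t => Qc f H c t := fun c => cont_Dp _ _
  have cEr : Continuous fun t => Er f H a b v t := by
    unfold Er
    exact (cAv v).sub ((continuous_finsetSum _ fun c _ => (cQc c).mul (cAv _)).div_const _)
  have iC : ∀ g : ℝ → ℝ, Continuous g → IntegrableOn g U := fun g hg =>
    ((hg.continuousOn).integrableOn_compact isCompact_Icc).mono_set hUv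
  have hVm : ∀ c : ℕ, MeasurableSet {t : ℝ | θ / c ≤ ‖Qc f H c t‖} := fun c =>
    (isClosed_le continuous_const (cQc c).norm).measurableSet
  have iI : ∀ c : ℕ, IntegrableOn (Set.indicator {t : ℝ | θ / c ≤ ‖Qc f H c t‖} (fun _ => (1 : ℝ))) U := fun c =>
    (integrable_const (1 : ℝ)).indicator (hVm c)
  have iA : ∀ w : ℝ, IntegrableOn (fun t => ‖Av f w t‖ ^ 2) U := fun w => iC _ ((cAv w).norm.pow 2)
  have iA2 : ∀ c : ℕ, IntegrableOn (fun t => (θ / c) ^ 2 * ‖Av f (v - (c : ℝ) / H) t‖ ^ 2) U := fun c =>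
    (iA _).const_mul _
  have iI2 : ∀ c : ℕ, IntegrableOn (fun t => (C₁ / c) ^ 2 * κ ^ 2 * Set.indicator {t : ℝ | θ / c ≤ ‖Qc f H c t‖} (fun _ => (1 : ℝ)) t) U := fun c =>
    (iI c).const_mul _
  have iT : ∀ c : ℕ, IntegrableOn (fun t => 2 * Λ / W ^ 2 * c * ((θ / c) ^ 2 * ‖Av f (v - (c : ℝ) / H) t‖ ^ 2 +
          (C₁ / c) ^ 2 * κ ^ 2 * Set.indicator {t : ℝ | θ / c ≤ ‖Qc f H c t‖} (fun _ => (1 : ℝ)) t)) U := fun c =>
    (((iA2 c).add (iI2 c)).const_mul _)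
  have iE : IntegrableOn (fun t => 2 * ‖Er f H a b v t‖ ^ 2) U := (iC _ (cEr.norm.pow 2)).const_mul _
  have i1 : ∫ t in U, ‖Av f v t‖ ^ 2 ≤ ∫ t in U, (2 * ‖Er f H a b v t‖ ^ 2 + ∑ c ∈ Ico (H * a) (H * b),
      2 * Λ / W ^ 2 * c * ((θ / c) ^ 2 * ‖Av f (v - (c : ℝ) / H) t‖ ^ 2 +
          (C₁ / c) ^ 2 * κ ^ 2 * Set.indicator {t : ℝ | θ / c ≤ ‖Qc f H c t‖} (fun _ => (1 : ℝ)) t)) := by
    refine setIntegral_mono_on (iC _ ((cAv v).norm.pow 2)) (iE.add (integrable_finsetSum _ fun c _ => iT c)) hU fun t ht => ?_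
    rw [hWd, hΛd]
    exact ua_pt hf hH ha hab hW hC₁ hκ hb fun c hc => hA c hc t (abs_le.2 (hUv ht))
  have i2 : ∫ t in U, (2 * ‖Er f H a b v t‖ ^ 2 + ∑ c ∈ Ico (H * a) (H * b),
      2 * Λ / W ^ 2 * c * ((θ / c) ^ 2 * ‖Av f (v - (c : ℝ) / H) t‖ ^ 2 +
          (C₁ / c) ^ 2 * κ ^ 2 * Set.indicator {t : ℝ | θ / c ≤ ‖Qc f H c t‖} (fun _ => (1 : ℝ)) t)) =
      2 * (∫ t in U, ‖Er f H a b v t‖ ^ 2) + ∑ c ∈ Ico (H * a) (H * b),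
      2 * Λ / W ^ 2 * c * ((θ / c) ^ 2 * (∫ t in U, ‖Av f (v - (c : ℝ) / H) t‖ ^ 2) +
          (C₁ / c) ^ 2 * κ ^ 2 * (volume (U ∩ {t : ℝ | θ / c ≤ ‖Qc f H c t‖})).toReal) := by
    rw [integral_add iE (integrable_finsetSum _ fun c _ => iT c), integral_const_mul, integral_finsetSum _ fun c _ => iT c]
    congr 1
    refine Finset.sum_congr rfl fun c _ => ?_
    rw [integral_const_mul, integral_add (iA2 c) (iI2 c),
      integral_const_mul, integral_const_mul, setIntegral_indicator (hVm c), setIntegral_const, smul_eq_mul, mul_one]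
    rfl
  have i3 : ∫ t in U, ‖Er f H a b v t‖ ^ 2 ≤ C₀ * (1 / Ws (Bk a b) + 1 / H) := by
    have h1 : (1 : ℝ) ≤ Real.exp v := Real.one_le_exp (by linarith)
    refine le_trans ?_ (htk f hf H a b hH hab hW v (Real.exp v) hev h1 le_rfl)
    rw [intervalIntegral.integral_of_le (by linarith), ← integral_Icc_eq_integral_Ioc]
    refine setIntegral_mono_set (((cEr.norm.pow 2).continuousOn).integrableOn_compact isCompact_Icc) ?_ ?_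
    · exact Filter.Eventually.of_forall fun t => by positivity
    · exact LE.le.eventuallyLE hUv
  have hc0 : ∀ c ∈ Ico (H * a) (H * b), (0 : ℝ) < c := by
    intro c hc
    have h1 : 1 ≤ H * a := Nat.mul_pos hH ha
    have h2 : 0 < c := by
      have := (Finset.mem_Ico.1 hc).1
      omega
    exact_mod_cast h2
  have i4 : ∀ c ∈ Ico (H * a) (H * b), 2 * Λ / W ^ 2 * c * ((θ / c) ^ 2 * (∫ t in U, ‖Av f (v - (c : ℝ) / H) t‖ ^ 2) +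
          (C₁ / c) ^ 2 * κ ^ 2 * (volume (U ∩ {t : ℝ | θ / c ≤ ‖Qc f H c t‖})).toReal) ≤
      2 * Λ / W ^ 2 * (12 * C' * θ ^ 2 + 2 * (C₁ ^ 2 * κ ^ 2 * R)) * (1 / (c : ℝ)) := by
    intro c hc
    have hcp := hc0 c hc
    have h1 : ∫ t in U, ‖Av f (v - (c : ℝ) / H) t‖ ^ 2 ≤ 12 * C' := by
      refine ua_int hC' hh hf hv50 ?_ hU hUv hUc
      have h2 : (c : ℝ) / H ≤ b := by
        rw [div_le_iff₀ hHp, mul_comm]
        exact_mod_cast (Finset.mem_Ico.1 hc).2.le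
      linarith
    have h2 : (volume (U ∩ {t : ℝ | θ / c ≤ ‖Qc f H c t‖})).toReal ≤ 2 * R := by
      refine sp_meas (hU.inter (hVm c)) (T := Real.exp v) (Set.inter_subset_left.trans hUv) fun 𝒯 h𝒯 h3 => ?_
      exact hRc c hc 𝒯 h𝒯 fun t ht => ⟨abs_le.2 (hUv (h3 t ht).1), (h3 t ht).2⟩
    have h3 : (θ / c) ^ 2 * (∫ t in U, ‖Av f (v - (c : ℝ) / H) t‖ ^ 2) +
          (C₁ / c) ^ 2 * κ ^ 2 * (volume (U ∩ {t : ℝ | θ / c ≤ ‖Qc f H c t‖})).toReal ≤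
        (θ / c) ^ 2 * (12 * C') + (C₁ / c) ^ 2 * κ ^ 2 * (2 * R) :=
      add_le_add (mul_le_mul_of_nonneg_left h1 (by positivity)) (mul_le_mul_of_nonneg_left h2 (by positivity))
    refine (mul_le_mul_of_nonneg_left h3 (by positivity)).trans (le_of_eq ?_)
    field_simp
  have i5 : ∑ c ∈ Ico (H * a) (H * b), 2 * Λ / W ^ 2 * c * ((θ / c) ^ 2 * (∫ t in U, ‖Av f (v - (c : ℝ) / H) t‖ ^ 2) +
          (C₁ / c) ^ 2 * κ ^ 2 * (volume (U ∩ {t : ℝ | θ / c ≤ ‖Qc f H c t‖})).toReal) ≤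
      2 * Λ / W ^ 2 * (12 * C' * θ ^ 2 + 2 * (C₁ ^ 2 * κ ^ 2 * R)) * Λ := by
    refine (Finset.sum_le_sum i4).trans ?_
    rw [← Finset.mul_sum]
    refine mul_le_mul_of_nonneg_left ?_ (by positivity)
    rw [hΛd]
    exact ua_sum hH ha hab
  have i6 : 2 * Λ / W ^ 2 * (12 * C' * θ ^ 2 + 2 * (C₁ ^ 2 * κ ^ 2 * R)) * Λ =
      24 * C' * (Λ / W) ^ 2 * θ ^ 2 + 4 * (Λ / W) ^ 2 * (C₁ ^ 2 * κ ^ 2 * R) := by
    field_simp
    ring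
  have p1 : 0 ≤ 1 / W + 1 / (H : ℝ) := by positivity
  have p2 : 0 ≤ (Λ / W) ^ 2 * θ ^ 2 := by positivity
  have p3 : 0 ≤ (Λ / W) ^ 2 * (C₁ ^ 2 * κ ^ 2 * R) := by positivity
  rw [← hWd] at i3
  rw [← hWd, ← hΛd]
  have q1 : 2 * (C₀ * (1 / W + 1 / (H : ℝ))) ≤ (2 * C₀ + 24 * C' + 4) * (1 / W + 1 / (H : ℝ)) := by
    nlinarith [mul_nonneg hC'.le p1]
  have q2 : 24 * C' * (Λ / W) ^ 2 * θ ^ 2 + 4 * (Λ / W) ^ 2 * (C₁ ^ 2 * κ ^ 2 * R) ≤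
      (2 * C₀ + 24 * C' + 4) * (Λ / W) ^ 2 * (θ ^ 2 + C₁ ^ 2 * κ ^ 2 * R) := by
    nlinarith [mul_nonneg hC₀.le p2, mul_nonneg hC₀.le p3, mul_nonneg hC'.le p3, p2, p3]
  linarith

end MRT
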